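import Pool.Agent.Lib.MP_ba95e8_co.StmtDefs

/-!
Deltahedral domes: basic vector algebra in three-space.
`det3` is the determinant of three vectors, `cr` the cross product.
-/

namespace Pool.Agent.Lib.MP_ba95e8_co

open scoped RealInnerProductSpace

/-- determinant of three vectors -/
def det3 (a b c : E3) : ℝ :=
  a 0 * (b 1 * c 2 - b 2 * c 1) - a 1 * (b 0 * c 2 - b 2 * c 0) + a 2 * (b 0 * c 1 - b 1 * c 0)

/-- cross product -/
noncomputable def cr (a b : E3) : E3 :=
  WithLp.toLp 2 ![a 1 * b 2 - a 2 * b 1, a 2 * b 0 - a 0 * b 2, a 0 * b 1 - a 1 * b 0]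

@[simp] lemma cr_zero (a b : E3) : cr a b 0 = a 1 * b 2 - a 2 * b 1 := rfl
@[simp] lemma cr_one (a b : E3) : cr a b 1 = a 2 * b 0 - a 0 * b 2 := rfl
@[simp] lemma cr_two (a b : E3) : cr a b 2 = a 0 * b 1 - a 1 * b 0 := rfl

/-- inner product in coordinates -/
lemma inner_c (a b : E3) : ⟪a, b⟫ = a 0 * b 0 + a 1 * b 1 + a 2 * b 2 := by
  simp [PiLp.inner_apply, Fin.sum_univ_three, mul_comm]

lemma normsq_c (a : E3) : ‖a‖ ^ 2 = a 0 ^ 2 + a 1 ^ 2 + a 2 ^ 2 := by
  rw [← real_inner_self_eq_norm_sq, inner_c]; ring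

lemma ext3 {a b : E3} (h0 : a 0 = b 0) (h1 : a 1 = b 1) (h2 : a 2 = b 2) : a = b := by
  ext i; fin_cases i <;> assumption

@[simp] lemma add_c (a b : E3) (i : Fin 3) : (a + b) i = a i + b i := rfl
@[simp] lemma sub_c (a b : E3) (i : Fin 3) : (a - b) i = a i - b i := rfl
@[simp] lemma neg_c (a : E3) (i : Fin 3) : (-a) i = - a i := rfl
@[simp] lemma smul_c (t : ℝ) (a : E3) (i : Fin 3) : (t • a) i = t * a i := rfl

lemma det3_rot (a b c : E3) : det3 b c a = det3 a b c := by unfold det3; ring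
lemma det3_rot' (a b c : E3) : det3 c a b = det3 a b c := by unfold det3; ring
lemma det3_swap (a b c : E3) : det3 b a c = - det3 a b c := by unfold det3; ring
lemma det3_swap' (a b c : E3) : det3 a c b = - det3 a b c := by unfold det3; ring
lemma det3_swap'' (a b c : E3) : det3 c b a = - det3 a b c := by unfold det3; ring
@[simp] lemma det3_self (a b : E3) : det3 a a b = 0 := by unfold det3; ring
@[simp] lemma det3_self' (a b : E3) : det3 a b b = 0 := by unfold det3; ring
@[simp] lemma det3_self'' (a b : E3) : det3 a b a = 0 := by unfold det3; ring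

lemma det3_add_right (a b c d : E3) : det3 a b (c + d) = det3 a b c + det3 a b d := by
  simp only [det3, add_c]; ring
lemma det3_sub_right (a b c d : E3) : det3 a b (c - d) = det3 a b c - det3 a b d := by
  simp only [det3, sub_c]; ring
lemma det3_smul_right (t : ℝ) (a b c : E3) : det3 a b (t • c) = t * det3 a b c := by
  simp only [det3, smul_c]; ring
lemma det3_neg_right (a b c : E3) : det3 a b (-c) = - det3 a b c := by
  simp only [det3, neg_c]; ring
lemma det3_add_mid (a b c d : E3) : det3 a (b + c) d = det3 a b d + det3 a c d := by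
  simp only [det3, add_c]; ring
lemma det3_sub_mid (a b c d : E3) : det3 a (b - c) d = det3 a b d - det3 a c d := by
  simp only [det3, sub_c]; ring
lemma det3_smul_mid (t : ℝ) (a b c : E3) : det3 a (t • b) c = t * det3 a b c := by
  simp only [det3, smul_c]; ring
lemma det3_neg_mid (a b c : E3) : det3 a (-b) c = - det3 a b c := by
  simp only [det3, neg_c]; ring
lemma det3_add_left (a b c d : E3) : det3 (a + b) c d = det3 a c d + det3 b c d := by
  simp only [det3, add_c]; ring
lemma det3_sub_left (a b c d : E3) : det3 (a - b) c d = det3 a c d - det3 b c d := by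
  simp only [det3, sub_c]; ring
lemma det3_smul_left (t : ℝ) (a b c : E3) : det3 (t • a) b c = t * det3 a b c := by
  simp only [det3, smul_c]; ring
lemma det3_neg_left (a b c : E3) : det3 (-a) b c = - det3 a b c := by
  simp only [det3, neg_c]; ring

lemma inner_cr (a b c : E3) : ⟪cr a b, c⟫ = det3 a b c := by
  simp only [inner_c, det3, cr_zero, cr_one, cr_two]; ring

lemma inner_cr' (a b c : E3) : ⟪c, cr a b⟫ = det3 a b c := by
  rw [real_inner_comm, inner_cr]

lemma cr_swap (a b : E3) : cr b a = - cr a b := by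
  apply ext3 <;> simp <;> ring

/-- Lagrange identity -/
lemma inner_cr_cr (a b c d : E3) : ⟪cr a b, cr c d⟫ = ⟪a, c⟫ * ⟪b, d⟫ - ⟪a, d⟫ * ⟪b, c⟫ := by
  simp only [inner_c, cr_zero, cr_one, cr_two]; ring

lemma cr_cr (a b c : E3) : cr a (cr b c) = ⟪a, c⟫ • b - ⟪a, b⟫ • c := by
  apply ext3 <;> simp [inner_c] <;> ring

/-- product of two determinants as a bilinear Gram determinant -/
lemma det3_mul_det3 (a b c x y z : E3) :
    det3 a b c * det3 x y z =
      ⟪a, x⟫ * (⟪b, y⟫ * ⟪c, z⟫ - ⟪b, z⟫ * ⟪c, y⟫)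
      - ⟪a, y⟫ * (⟪b, x⟫ * ⟪c, z⟫ - ⟪b, z⟫ * ⟪c, x⟫)
      + ⟪a, z⟫ * (⟪b, x⟫ * ⟪c, y⟫ - ⟪b, y⟫ * ⟪c, x⟫) := by
  simp only [det3, inner_c]; ring

/-- Cramer: linear dependency of four vectors of three-space -/
lemma cramer (a b c v : E3) :
    det3 a b c • v = det3 v b c • a + det3 a v c • b + det3 a b v • c := by
  apply ext3 <;> simp [det3] <;> ring

/-- the three-term Pluecker relation for `det3 a · ·` -/
lemma plucker (a x y z w : E3) :
    det3 a x y * det3 a z w - det3 a x z * det3 a y w + det3 a x w * det3 a y z = 0 := by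
  simp only [det3]; ring

end Pool.Agent.Lib.MP_ba95e8_co
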