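import Pool.Agent.Lib.MP_ba95e8_co.ExtInv

/-!
Deltahedral domes, task E3: the face across a free dart satisfies the conditions.
-/

namespace Pool.Agent.Lib.MP_ba95e8_co
namespace Chk

variable {V : Type*} {M : Model V} {s : St} {lab : ℕ → V}

/-- the face of the model across the free dart from `x` to `y` has labels `x, y, l` -/
structure Cand {V : Type*} (M : Model V) (s : St) (x y : ℕ) (p : PT) (l : List ℕ) (lab : ℕ → V) :
    Prop where
  mem : p ∈ FTt
  len : l.length = p.rest.length
  hx : x < s.n
  hy : y < s.n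
  ord : OrdN s.n s.n l
  inj : ∀ i < maxL s.n (l.reverse ++ [y, x]), ∀ j < maxL s.n (l.reverse ++ [y, x]),
    lab i = lab j → i = j
  used : ∀ v < maxL s.n (l.reverse ++ [y, x]), v < s.n ∨ v ∈ l.reverse ++ [y, x]
  face : M.face (fwd lab (Fa.mk x (l.reverse ++ [y, x]) p.dr p.rc))
  out : OutD s.fs y x
  free : ¬ InD s.fs y x

/-! ### corners by position -/

theorem e3_hd (d : ℕ) (l : List ℕ) : hd d l = l.getD 0 d := by
  cases l <;> rfl

theorem e3_tl (l : List ℕ) (k d : ℕ) : (tl l).getD k d = l.getD (k + 1) d := by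
  cases l with
  | nil => simp [tl]
  | cons a l => rfl

theorem e3_corA_get (f : ℕ) (ws : List ℕ) : ∀ (rc : List ℕ) (w k : ℕ), k < ws.length →
    (ws.getD k 0, ws.getD (k + 1) f, (w :: ws).getD k 0, rc.getD k 0) ∈ corA f ws rc w := by
  induction ws with
  | nil =>
    intro rc w k hk
    simp at hk
  | cons v rest ih =>
    intro rc w k hk
    cases k with
    | zero =>
      have e1 : ((v :: rest).getD 0 0, (v :: rest).getD (0 + 1) f, (w :: v :: rest).getD 0 0,
          rc.getD 0 0) = (v, hd f rest, w, hd 0 rc) := by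
        rw [e3_hd, e3_hd]
        rfl
      rw [e1, corA]
      exact List.mem_cons_self
    | succ k =>
      have e1 : ((v :: rest).getD (k + 1) 0, (v :: rest).getD (k + 1 + 1) f,
          (w :: v :: rest).getD (k + 1) 0, rc.getD (k + 1) 0) =
          (rest.getD k 0, rest.getD (k + 1) f, (v :: rest).getD k 0, (tl rc).getD k 0) := by
        rw [e3_tl]
        rfl
      rw [e1, corA]
      exact List.mem_cons_of_mem _ (ih (tl rc) v k (by simpa using hk))

theorem e3_corA_mem (f : ℕ) (ws : List ℕ) : ∀ (rc : List ℕ) (w : ℕ) (q : ℕ × ℕ × ℕ × ℕ),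
    q ∈ corA f ws rc w → ∃ k < ws.length,
      q = (ws.getD k 0, ws.getD (k + 1) f, (w :: ws).getD k 0, rc.getD k 0) := by
  induction ws with
  | nil =>
    intro rc w q hq
    simp [corA] at hq
  | cons v rest ih =>
    intro rc w q hq
    rw [corA, List.mem_cons] at hq
    rcases hq with rfl | hq
    · refine ⟨0, by simp, ?_⟩
      rw [e3_hd, e3_hd]
      rfl
    · obtain ⟨k, hk, rfl⟩ := ih (tl rc) v q hq
      refine ⟨k + 1, by simpa using hk, ?_⟩
      rw [e3_tl]
      rfl

theorem e3_rev (ws : List ℕ) (i d d' : ℕ) (hi : i < ws.length) :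
    ws.reverse.getD i d = ws.getD (ws.length - 1 - i) d' := by
  rw [List.getD_eq_getElem _ _ (by rw [List.length_reverse]; exact hi),
    List.getD_eq_getElem _ _ (by omega), List.getElem_reverse]

theorem e3_conv {F : Fa} (hW : Wf F) {i k : ℕ} (hk : k < F.ws.length)
    (hi : i = F.ws.length - 1 - k) :
    (F.ws.getD k 0, F.ws.getD (k + 1) (hd 0 F.ws), (F.a :: F.ws).getD k 0, F.rc.getD k 0) =
      (F.ws.reverse.getD i 0, F.ws.reverse.getD ((i + F.ws.length - 1) % F.ws.length) 0,
        F.ws.reverse.getD ((i + 1) % F.ws.length) 0, F.rc.reverse.getD i 0) := by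
  have hm := hW.three
  have hlen := hW.len
  have hi' : i < F.ws.length := by omega
  have hlast : F.ws.getD (F.ws.length - 1) 0 = F.a := by
    have h1 := hW.last
    rw [List.getLast?_eq_getElem?] at h1
    rw [List.getD_eq_getElem?_getD, h1]
    rfl
  have e1 : F.ws.getD k 0 = F.ws.reverse.getD i 0 := by
    rw [e3_rev F.ws i 0 0 hi']
    congr 1
    omega
  have e2 : F.ws.getD (k + 1) (hd 0 F.ws) =
      F.ws.reverse.getD ((i + F.ws.length - 1) % F.ws.length) 0 := by
    by_cases h0 : k + 1 < F.ws.length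
    · have h1 : (i + F.ws.length - 1) % F.ws.length = i - 1 := by
        have : i + F.ws.length - 1 = (i - 1) + F.ws.length := by omega
        rw [this, Nat.add_mod_right, Nat.mod_eq_of_lt (by omega)]
      rw [h1, e3_rev F.ws (i - 1) 0 (hd 0 F.ws) (by omega)]
      congr 1
      omega
    · have h1 : i = 0 := by omega
      have h2 : (i + F.ws.length - 1) % F.ws.length = F.ws.length - 1 := by
        rw [h1, Nat.mod_eq_of_lt (by omega)]
        omega
      rw [h2, e3_rev F.ws _ 0 0 (by omega), List.getD_eq_default _ _ (by omega), e3_hd]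
      congr 1
      omega
  have e3 : (F.a :: F.ws).getD k 0 = F.ws.reverse.getD ((i + 1) % F.ws.length) 0 := by
    cases k with
    | zero =>
      have h1 : (i + 1) % F.ws.length = 0 := by
        have : i + 1 = F.ws.length := by omega
        rw [this, Nat.mod_self]
      rw [h1, e3_rev F.ws 0 0 0 (by omega), Nat.sub_zero, hlast]
      rfl
    | succ k =>
      have h1 : (i + 1) % F.ws.length = i + 1 := Nat.mod_eq_of_lt (by omega)
      rw [h1, e3_rev F.ws _ 0 0 (by omega), List.getD_cons_succ]
      congr 1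
      omega
  have e4 : F.rc.getD k 0 = F.rc.reverse.getD i 0 := by
    rw [e3_rev F.rc i 0 0 (by omega)]
    congr 1
    omega
  rw [e1, e2, e3, e4]

theorem e3_cor_iff {F : Fa} (hW : Wf F) (q : ℕ × ℕ × ℕ × ℕ) : q ∈ cors F ↔
    ∃ i < F.ws.length, q = (F.ws.reverse.getD i 0,
      F.ws.reverse.getD ((i + F.ws.length - 1) % F.ws.length) 0,
      F.ws.reverse.getD ((i + 1) % F.ws.length) 0, F.rc.reverse.getD i 0) := by
  constructor
  · intro hq
    obtain ⟨k, hk, rfl⟩ := e3_corA_mem _ _ _ _ _ hq
    exact ⟨F.ws.length - 1 - k, by omega, e3_conv hW hk rfl⟩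
  · rintro ⟨i, hi, rfl⟩
    rw [← e3_conv hW (i := i) (k := F.ws.length - 1 - i) (by omega) (by omega)]
    exact e3_corA_get _ _ _ _ _ (by omega)

/-- a dart of the face of the model gives a corner -/
theorem e3_dart {F : Fa} (hW : Wf F) {a b : V} (hd : DartIn (fwd lab F) a b) :
    ∃ v u w c, (v, u, w, c) ∈ cors F ∧ lab u = a ∧ lab v = b := by
  obtain ⟨c, d, r, hr⟩ := hd
  have hm := hW.three
  have hlen := hW.len
  obtain ⟨k, hk⟩ := hr.symm
  have hfl : (fwd lab F).length = F.ws.length := by
    simp [fwd, hlen]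
  have hget : ∀ j, j < F.ws.length → ∀ q, (fwd lab F)[j]? = some q →
      q.1 = lab (F.ws.reverse.getD j 0) := by
    intro j hj q hq
    have h1 : (fwd lab F).map Prod.fst = F.ws.reverse.map lab := by
      rw [fwd, List.map_reverse, List.map_fst_zip (by simp [hlen]), List.map_reverse]
    have h2 : ((fwd lab F).map Prod.fst)[j]? = some q.1 := by
      rw [List.getElem?_map, hq]
      rfl
    rw [h1, List.getElem?_map] at h2
    rw [List.getD_eq_getElem?_getD]
    have h3 : j < F.ws.reverse.length := by rw [List.length_reverse]; exact hj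
    rw [List.getElem?_eq_getElem h3] at h2 ⊢
    simp only [Option.map_some, Option.some.injEq] at h2
    exact h2.symm
  have hrl : ((a, c) :: (b, d) :: r).length = F.ws.length := by
    rw [← hk, List.length_rotate, hfl]
  have h0 : (fwd lab F)[k % F.ws.length]? = some (a, c) := by
    have h1 : ((fwd lab F).rotate k)[0]? = some (a, c) := by rw [hk]; rfl
    rw [List.getElem?_rotate (by rw [hfl]; omega), hfl, Nat.zero_add] at h1
    exact h1
  have h1 : (fwd lab F)[(k + 1) % F.ws.length]? = some (b, d) := by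
    have h2 : ((fwd lab F).rotate k)[1]? = some (b, d) := by rw [hk]; rfl
    rw [List.getElem?_rotate (by rw [hfl]; omega), hfl, Nat.add_comm 1 k] at h2
    exact h2
  have hmpos : 0 < F.ws.length := by omega
  set i := (k + 1) % F.ws.length with hi
  have hi' : i < F.ws.length := Nat.mod_lt _ hmpos
  have hpred : (i + F.ws.length - 1) % F.ws.length = k % F.ws.length := by
    have h2 : i + F.ws.length - 1 = i + (F.ws.length - 1) := by omega
    rw [h2, hi, Nat.mod_add_mod]
    have h3 : k + 1 + (F.ws.length - 1) = k + F.ws.length := by omega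
    rw [h3, Nat.add_mod_right]
  refine ⟨_, _, _, _, (e3_cor_iff hW _).2 ⟨i, hi', rfl⟩, ?_, ?_⟩
  · rw [hpred]
    exact (hget _ (Nat.mod_lt _ hmpos) _ h0).symm
  · exact (hget _ hi' _ h1).symm

/-- members of corners are labels -/
theorem e3_mem {F : Fa} (hW : Wf F) {v u w c : ℕ} (h : (v, u, w, c) ∈ cors F) :
    v ∈ F.ws ∧ u ∈ F.ws ∧ w ∈ F.ws := by
  have hm := hW.three
  obtain ⟨i, hi, he⟩ := (e3_cor_iff hW _).1 h
  have hg : ∀ j, j < F.ws.length → F.ws.reverse.getD j 0 ∈ F.ws := by
    intro j hj
    rw [List.getD_eq_getElem _ _ (by rw [List.length_reverse]; exact hj), ← List.mem_reverse]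
    exact List.getElem_mem _
  have hpos : 0 < F.ws.length := by omega
  simp only [Prod.mk.injEq] at he
  rw [he.1, he.2.1, he.2.2.1]
  exact ⟨hg _ hi, hg _ (Nat.mod_lt _ hpos), hg _ (Nat.mod_lt _ hpos)⟩

/-- labels at different positions are different -/
theorem e3_inj {l : List ℕ} (h : l.Nodup) {i j : ℕ} (hi : i < l.length) (hj : j < l.length)
    (he : l.getD i 0 = l.getD j 0) : i = j := by
  rw [List.getD_eq_getElem _ _ hi, List.getD_eq_getElem _ _ hj] at he
  exact (List.Nodup.getElem_inj_iff h).1 he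

/-- the dart into `v` from `u` is the dart out of `u` to `v` -/
theorem e3_in_out {F : Fa} (hW : Wf F) {v u w c : ℕ} (h : (v, u, w, c) ∈ cors F) :
    ∃ u' c', (u, u', v, c') ∈ cors F := by
  have hm := hW.three
  obtain ⟨i, hi, he⟩ := (e3_cor_iff hW _).1 h
  simp only [Prod.mk.injEq] at he
  have hpos : 0 < F.ws.length := by omega
  have h1 := (e3_cor_iff hW _).2 ⟨(i + F.ws.length - 1) % F.ws.length, Nat.mod_lt _ hpos, rfl⟩
  have h2 : ((i + F.ws.length - 1) % F.ws.length + 1) % F.ws.length = i := by
    rw [Nat.mod_add_mod]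
    have h3 : i + F.ws.length - 1 + 1 = i + F.ws.length := by omega
    rw [h3, Nat.add_mod_right, Nat.mod_eq_of_lt hi]
  rw [h2, ← he.2.1, ← he.1] at h1
  exact ⟨_, _, h1⟩

variable {x y : ℕ} {p : PT} {l : List ℕ}

theorem e3_ws (x y : ℕ) (l : List ℕ) : l.reverse ++ [y, x] = (x :: y :: l).reverse := by
  simp

theorem Cand.wf (hc : Cand M s x y p l lab) : Wf (Fa.mk x (l.reverse ++ [y, x]) p.dr p.rc) := by
  obtain ⟨h1, h2, h3, h4, h5, h6, h7⟩ := tab_dir p hc.mem
  have hlen : p.rc.length = (l.reverse ++ [y, x]).length := by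
    rw [h3, List.length_append, List.length_reverse, hc.len]
    rfl
  refine ⟨?_, hlen, ?_, ?_, ?_⟩
  · have h8 := M.nodup _ hc.face
    have h9 : (fwd lab (Fa.mk x (l.reverse ++ [y, x]) p.dr p.rc)).map Prod.fst =
        ((l.reverse ++ [y, x]).map lab).reverse := by
      rw [fwd, List.map_reverse, List.map_fst_zip (by simp [hlen])]
    rw [h9, List.nodup_reverse] at h8
    exact h8.of_map _
  · show 3 ≤ (l.reverse ++ [y, x]).length
    rw [List.length_append, List.length_reverse, hc.len]
    show 3 ≤ p.rest.length + 2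
    omega
  · show (l.reverse ++ [y, x]).getLast? = some x
    simp
  · intro c hcc
    rcases h5 c hcc with h | h <;> omega

/-- corners by position: `W = x :: y :: l` -/
theorem Cand.cor (hc : Cand M s x y p l lab) {i : ℕ} (hi : i < (x :: y :: l).length) :
    ((x :: y :: l).getD i 0,
      (x :: y :: l).getD ((i + (x :: y :: l).length - 1) % (x :: y :: l).length) 0,
      (x :: y :: l).getD ((i + 1) % (x :: y :: l).length) 0, p.rc.reverse.getD i 0) ∈
      cors (Fa.mk x (l.reverse ++ [y, x]) p.dr p.rc) := by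
  rw [e3_cor_iff hc.wf]
  have e1 : (Fa.mk x (l.reverse ++ [y, x]) p.dr p.rc).ws.reverse = x :: y :: l := by
    show (l.reverse ++ [y, x]).reverse = x :: y :: l
    rw [e3_ws, List.reverse_reverse]
  have e2 : (Fa.mk x (l.reverse ++ [y, x]) p.dr p.rc).ws.length = (x :: y :: l).length := by
    show (l.reverse ++ [y, x]).length = (x :: y :: l).length
    rw [e3_ws, List.length_reverse]
  rw [e1, e2]
  exact ⟨i, hi, rfl⟩

theorem e3_cand_iff (hc : Cand M s x y p l lab) (q : ℕ × ℕ × ℕ × ℕ) :
    q ∈ cors (Fa.mk x (l.reverse ++ [y, x]) p.dr p.rc) ↔ ∃ i < (x :: y :: l).length,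
      q = ((x :: y :: l).getD i 0,
      (x :: y :: l).getD ((i + (x :: y :: l).length - 1) % (x :: y :: l).length) 0,
      (x :: y :: l).getD ((i + 1) % (x :: y :: l).length) 0, p.rc.reverse.getD i 0) := by
  rw [e3_cor_iff hc.wf]
  have e1 : (Fa.mk x (l.reverse ++ [y, x]) p.dr p.rc).ws.reverse = x :: y :: l := by
    show (l.reverse ++ [y, x]).reverse = x :: y :: l
    rw [e3_ws, List.reverse_reverse]
  have e2 : (Fa.mk x (l.reverse ++ [y, x]) p.dr p.rc).ws.length = (x :: y :: l).length := by
    show (l.reverse ++ [y, x]).length = (x :: y :: l).length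
    rw [e3_ws, List.length_reverse]
  rw [e1, e2]

theorem e3_nodup (hc : Cand M s x y p l lab) : (x :: y :: l).Nodup := by
  have h := hc.wf.nodup
  rw [show (Fa.mk x (l.reverse ++ [y, x]) p.dr p.rc).ws = (x :: y :: l).reverse from
    e3_ws x y l, List.nodup_reverse] at h
  exact h

theorem e3_three (hc : Cand M s x y p l lab) : 3 ≤ (x :: y :: l).length := by
  have h := hc.wf.three
  rw [show (Fa.mk x (l.reverse ++ [y, x]) p.dr p.rc).ws = (x :: y :: l).reverse from
    e3_ws x y l, List.length_reverse] at h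
  exact h

/-- all the darts of the new face are free -/
theorem e3_free (h : Good M s lab) (hc : Cand M s x y p l lab) :
    ∀ q ∈ cors (Fa.mk x (l.reverse ++ [y, x]) p.dr p.rc),
      ¬ InD s.fs q.1 q.2.1 ∧ ¬ OutD s.fs q.1 q.2.2.1 := by
  have h3 := e3_three hc
  have h1 := hc.cor (i := 1) (by omega)
  have e1 : (1 + (x :: y :: l).length - 1) % (x :: y :: l).length = 0 := by
    rw [Nat.add_sub_cancel_left, Nat.mod_self]
  rw [e1] at h1
  exact h.all_free hc.wf hc.face hc.inj h1 hc.free

/-- two labels of the new face that are together in a placed face are joined by a placed dart -/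
theorem Cand.cof (h : Good M s lab) (hc : Cand M s x y p l lab) {u w : ℕ} (huw : u ≠ w)
    (hu : u ∈ x :: y :: l) (hw : w ∈ x :: y :: l) (hC : Cof s.fs u w) :
    (∃ c v, (w, u, v, c) ∈ cors (Fa.mk x (l.reverse ++ [y, x]) p.dr p.rc) ∧ InD s.fs u w) ∨
    (∃ c v, (u, w, v, c) ∈ cors (Fa.mk x (l.reverse ++ [y, x]) p.dr p.rc) ∧ InD s.fs w u) := by
  obtain ⟨F, hF, huF, hwF⟩ := hC
  have hWF := h.sp.wf F hF
  have hltF := h.sp.lt F hF
  have hun := hltF u huF
  have hwn := hltF w hwF
  have hle := le_maxL s.n (l.reverse ++ [y, x])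
  have hmemW : ∀ a ∈ x :: y :: l, a ∈ l.reverse ++ [y, x] := by
    intro a ha
    rw [e3_ws, List.mem_reverse]
    exact ha
  have hfst : ∀ G : Fa, Wf G → ∀ a ∈ G.ws, lab a ∈ (fwd lab G).map Prod.fst := by
    intro G hG a ha
    rw [fwd, List.map_reverse, List.map_fst_zip (by simp [hG.len]), List.mem_reverse]
    exact List.mem_map_of_mem ha
  have hne : lab u ≠ lab w := fun he => huw (h.inj u hun w hwn he)
  -- from corners of placed faces to darts
  have hplaced : ∀ {a b : ℕ}, a < s.n → b < s.n → DartIn (fwd lab F) (lab a) (lab b) →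
      InD s.fs b a := by
    intro a b ha hb hd
    obtain ⟨v', u', w', c', hmem, h1, h2⟩ := e3_dart hWF hd
    obtain ⟨m1, m2, -⟩ := e3_mem hWF hmem
    have e1 := h.inj u' (hltF u' m2) a ha h1
    have e2 := h.inj v' (hltF v' m1) b hb h2
    subst e1 e2
    exact ⟨w', c', List.mem_flatMap.2 ⟨F, hF, hmem⟩⟩
  have hnew : ∀ {a b : ℕ}, a ∈ x :: y :: l → b ∈ x :: y :: l →
      DartIn (fwd lab (Fa.mk x (l.reverse ++ [y, x]) p.dr p.rc)) (lab a) (lab b) →
      ∃ c v, (b, a, v, c) ∈ cors (Fa.mk x (l.reverse ++ [y, x]) p.dr p.rc) := by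
    intro a b ha hb hd
    obtain ⟨v', u', w', c', hmem, h1, h2⟩ := e3_dart hc.wf hd
    obtain ⟨m1, m2, -⟩ := e3_mem hc.wf hmem
    have e1 := hc.inj u' (lt_maxL m2) a (lt_maxL (hmemW a ha)) h1
    have e2 := hc.inj v' (lt_maxL m1) b (lt_maxL (hmemW b hb)) h2
    subst e1 e2
    exact ⟨c', w', hmem⟩
  rcases M.common _ _ (lab u) (lab w) hc.face (h.face F hF) hne
    (hfst _ hc.wf u (hmemW u hu)) (hfst _ hc.wf w (hmemW w hw)) (hfst F hWF u huF)
    (hfst F hWF w hwF) with h1 | ⟨h1, h2⟩ | ⟨h1, h2⟩
  · exfalso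
    -- the new face would be placed
    have h3 : DartIn (fwd lab (Fa.mk x (l.reverse ++ [y, x]) p.dr p.rc)) (lab x) (lab y) := by
      have hlen : p.rc.length = (x :: y :: l).length := by
        have := hc.wf.len
        rw [show (Fa.mk x (l.reverse ++ [y, x]) p.dr p.rc).ws = (x :: y :: l).reverse from
          e3_ws x y l, List.length_reverse] at this
        exact this
      have hl2 : p.rc.reverse.length = (x :: y :: l).length := by
        rw [List.length_reverse, hlen]
      have h4 : fwd lab (Fa.mk x (l.reverse ++ [y, x]) p.dr p.rc) =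
          ((x :: y :: l).map lab).zip p.rc.reverse := by
        show (((l.reverse ++ [y, x]).map lab).zip p.rc).reverse = _
        rw [e3_ws, List.map_reverse]
        have h5 := List.reverse_zipWith (f := Prod.mk) (l := ((x :: y :: l).map lab).reverse)
          (l' := p.rc) (by rw [List.length_reverse, List.length_map, hlen])
        rw [List.reverse_reverse] at h5
        exact h5
      rw [h4]
      match hq : p.rc.reverse, hl2 with
      | c :: d :: r, _ => exact ⟨c, d, (l.map lab).zip r, List.IsRotated.refl _⟩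
      | [c], hl2 => simp at hl2
      | [], hl2 => simp at hl2
    obtain ⟨c, d, r, hr⟩ := h3
    exact hc.free (hplaced hc.hx hc.hy ⟨c, d, r, hr.trans h1⟩)
  · obtain ⟨c, v, hm⟩ := hnew hu hw h1
    exact Or.inl ⟨c, v, hm, hplaced hwn hun h2⟩
  · obtain ⟨c, v, hm⟩ := hnew hw hu h1
    exact Or.inr ⟨c, v, hm, hplaced hun hwn h2⟩

theorem Cand.cond_adj (h : Good M s lab) (hc : Cand M s x y p l lab) :
    ∀ i, 1 ≤ i → i + 1 < (x :: y :: l).length → (x :: y :: l).getD i 0 < s.n →
      (x :: y :: l).getD (i + 1) 0 < s.n →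
      s.st.testBit (16 * (x :: y :: l).getD i 0 + (x :: y :: l).getD (i + 1) 0) = true ∨
      s.cof.testBit (16 * (x :: y :: l).getD i 0 + (x :: y :: l).getD (i + 1) 0) = false := by
  intro i hi1 hi2 hin hin1
  have hm := e3_three hc
  have hnd := e3_nodup hc
  have h16 := h.sp.n16
  by_cases hcof : s.cof.testBit (16 * (x :: y :: l).getD i 0 + (x :: y :: l).getD (i + 1) 0) = false
  · exact Or.inr hcof
  · left
    rw [Bool.not_eq_false] at hcof
    have hC := (h.sp.cof _ _ (by omega)).1 hcof
    have hmem : ∀ j, j < (x :: y :: l).length → (x :: y :: l).getD j 0 ∈ x :: y :: l := by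
      intro j hj
      rw [List.getD_eq_getElem _ _ hj]
      exact List.getElem_mem _
    have hne : (x :: y :: l).getD i 0 ≠ (x :: y :: l).getD (i + 1) 0 := fun he => by
      have := e3_inj hnd (by omega) hi2 he
      omega
    have hfree := e3_free h hc
    have hin2 : InD s.fs ((x :: y :: l).getD i 0) ((x :: y :: l).getD (i + 1) 0) := by
      rcases hc.cof h hne (hmem i (by omega)) (hmem (i + 1) hi2) hC with
        ⟨c, v, hq, hI⟩ | ⟨c, v, hq, hI⟩
      · exact hI
      · exfalso
        obtain ⟨j, hj, he⟩ := (e3_cand_iff hc _).1 hq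
        simp only [Prod.mk.injEq] at he
        have e1 := e3_inj hnd (by omega) hj he.1
        subst e1
        have e2 := e3_inj hnd hi2 (Nat.mod_lt _ (by omega)) he.2.1
        have e3 : (i + (x :: y :: l).length - 1) % (x :: y :: l).length = i - 1 := by
          have : i + (x :: y :: l).length - 1 = (i - 1) + (x :: y :: l).length := by omega
          rw [this, Nat.add_mod_right, Nat.mod_eq_of_lt (by omega)]
        omega
    refine (h.sp.st _ _ (by omega)).2 ⟨hin2, ?_⟩
    have h1 := (hfree _ (hc.cor (i := i) (by omega))).2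
    have e3 : (i + 1) % (x :: y :: l).length = i + 1 := Nat.mod_eq_of_lt hi2
    rw [e3] at h1
    exact h1

theorem Cand.cond_adjL (h : Good M s lab) (hc : Cand M s x y p l lab) :
    (x :: y :: l).getD ((x :: y :: l).length - 1) 0 < s.n →
    s.en.testBit (16 * x + (x :: y :: l).getD ((x :: y :: l).length - 1) 0) = true ∨
    s.cof.testBit (16 * x + (x :: y :: l).getD ((x :: y :: l).length - 1) 0) = false := by
  intro hln
  have hm := e3_three hc
  have hnd := e3_nodup hc
  have h16 := h.sp.n16
  by_cases hcof : s.cof.testBit (16 * x + (x :: y :: l).getD ((x :: y :: l).length - 1) 0) = false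
  · exact Or.inr hcof
  · left
    rw [Bool.not_eq_false] at hcof
    have hC := (h.sp.cof _ _ (by omega)).1 hcof
    have hmem : ∀ j, j < (x :: y :: l).length → (x :: y :: l).getD j 0 ∈ x :: y :: l := by
      intro j hj
      rw [List.getD_eq_getElem _ _ hj]
      exact List.getElem_mem _
    have hx0 : (x :: y :: l).getD 0 0 = x := rfl
    have hne : x ≠ (x :: y :: l).getD ((x :: y :: l).length - 1) 0 := fun he => by
      have := e3_inj (i := 0) hnd (by omega) (by omega) (hx0.trans he)
      omega
    have hfree := e3_free h hc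
    have hpred0 : (0 + (x :: y :: l).length - 1) % (x :: y :: l).length =
        (x :: y :: l).length - 1 := by
      rw [Nat.zero_add, Nat.mod_eq_of_lt (by omega)]
    have hin2 : InD s.fs ((x :: y :: l).getD ((x :: y :: l).length - 1) 0) x := by
      rcases hc.cof h hne (List.mem_cons_self) (hmem _ (by omega)) hC with
        ⟨c, v, hq, hI⟩ | ⟨c, v, hq, hI⟩
      · exfalso
        obtain ⟨j, hj, he⟩ := (e3_cand_iff hc _).1 hq
        simp only [Prod.mk.injEq] at he
        have e1 := e3_inj hnd (by omega) hj he.1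
        have e2 := e3_inj (i := 0) hnd (by omega) (Nat.mod_lt _ (by omega))
          (hx0.trans he.2.1)
        have e3 : (j + (x :: y :: l).length - 1) % (x :: y :: l).length = j - 1 := by
          have : j + (x :: y :: l).length - 1 = (j - 1) + (x :: y :: l).length := by omega
          rw [this, Nat.add_mod_right, Nat.mod_eq_of_lt (by omega)]
        omega
      · exact hI
    have hout : OutD s.fs x ((x :: y :: l).getD ((x :: y :: l).length - 1) 0) := by
      obtain ⟨w, c, hq⟩ := hin2
      obtain ⟨F, hF, hq⟩ := List.mem_flatMap.1 hq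
      obtain ⟨u', c', hq'⟩ := e3_in_out (h.sp.wf F hF) hq
      exact ⟨u', c', List.mem_flatMap.2 ⟨F, hF, hq'⟩⟩
    refine (h.sp.en _ _ (by omega)).2 ⟨hout, ?_⟩
    have h1 := (hfree _ (hc.cor (i := 0) (by omega))).1
    rw [hpred0] at h1
    exact h1

theorem Cand.cond_far (h : Good M s lab) (hc : Cand M s x y p l lab) :
    ∀ i j, i + 1 < j → j < (x :: y :: l).length → (i = 0 → j + 1 < (x :: y :: l).length) →
      (x :: y :: l).getD i 0 < s.n → (x :: y :: l).getD j 0 < s.n →
      s.cof.testBit (16 * (x :: y :: l).getD i 0 + (x :: y :: l).getD j 0) = false := by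
  intro i j hij hj h0 hin hjn
  have hm := e3_three hc
  have hnd := e3_nodup hc
  have h16 := h.sp.n16
  by_contra hcof
  rw [Bool.not_eq_false] at hcof
  have hC := (h.sp.cof _ _ (by omega)).1 hcof
  have hmem : ∀ j, j < (x :: y :: l).length → (x :: y :: l).getD j 0 ∈ x :: y :: l := by
    intro j hj
    rw [List.getD_eq_getElem _ _ hj]
    exact List.getElem_mem _
  have hne : (x :: y :: l).getD i 0 ≠ (x :: y :: l).getD j 0 := fun he => by
    have := e3_inj hnd (by omega) hj he
    omega
  rcases hc.cof h hne (hmem i (by omega)) (hmem j hj) hC with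
    ⟨c, v, hq, -⟩ | ⟨c, v, hq, -⟩
  · obtain ⟨k, hk, he⟩ := (e3_cand_iff hc _).1 hq
    simp only [Prod.mk.injEq] at he
    have e1 := e3_inj hnd hj hk he.1
    have e2 := e3_inj hnd (by omega) (Nat.mod_lt _ (by omega)) he.2.1
    have e3 : (k + (x :: y :: l).length - 1) % (x :: y :: l).length = k - 1 := by
      have : k + (x :: y :: l).length - 1 = (k - 1) + (x :: y :: l).length := by omega
      rw [this, Nat.add_mod_right, Nat.mod_eq_of_lt (by omega)]
    omega
  · obtain ⟨k, hk, he⟩ := (e3_cand_iff hc _).1 hq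
    simp only [Prod.mk.injEq] at he
    have e1 := e3_inj hnd (by omega) hk he.1
    have e2 := e3_inj hnd hj (Nat.mod_lt _ (by omega)) he.2.1
    by_cases hi0 : i = 0
    · have h1 := h0 hi0
      have e3 : (k + (x :: y :: l).length - 1) % (x :: y :: l).length =
          (x :: y :: l).length - 1 := by
        rw [← e1, hi0, Nat.zero_add, Nat.mod_eq_of_lt (by omega)]
      omega
    · have e3 : (k + (x :: y :: l).length - 1) % (x :: y :: l).length = k - 1 := by
        have : k + (x :: y :: l).length - 1 = (k - 1) + (x :: y :: l).length := by omega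
        rw [this, Nat.add_mod_right, Nat.mod_eq_of_lt (by omega)]
      omega

end Chk
end Pool.Agent.Lib.MP_ba95e8_co
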