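import Pool.Agent.Lib.MP_ba95e8_co.CandA

/-!
Deltahedral domes, task E4: acceptance conditions for the face across a free dart.
-/

namespace Pool.Agent.Lib.MP_ba95e8_co
namespace Chk

variable {V : Type*} {M : Model V} {s : St} {lab : ℕ → V} {x y : ℕ} {p : PT} {l : List ℕ}

/-! ### corners of a list -/

private lemma corA_cons (f v : ℕ) (rest rc : List ℕ) (w : ℕ) :
    corA f (v :: rest) rc w = (v, hd f rest, w, hd 0 rc) :: corA f rest (tl rc) v := rfl

private lemma hd_cons (d a : ℕ) (l : List ℕ) : hd d (a :: l) = a := rfl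

private lemma hd_nil (d : ℕ) : hd d [] = d := rfl

private lemma corA_fst_mem {f : ℕ} : ∀ {l rc : List ℕ} {w v a u c : ℕ},
    (v, a, u, c) ∈ corA f l rc w → v ∈ l
  | [], _, _, _, _, _, _, h => by simp [corA] at h
  | z :: rest, rc, w, v, a, u, c, h => by
    rw [corA_cons, List.mem_cons] at h
    rcases h with h | h
    · simp only [Prod.mk.injEq] at h
      rw [h.1]; simp
    · exact List.mem_cons_of_mem _ (corA_fst_mem h)

private lemma corA_pred_mem {f : ℕ} : ∀ {l rc : List ℕ} {w v a u c : ℕ},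
    (v, a, u, c) ∈ corA f l rc w → a ∈ l ∨ a = f
  | [], _, _, _, _, _, _, h => by simp [corA] at h
  | z :: rest, rc, w, v, a, u, c, h => by
    rw [corA_cons, List.mem_cons] at h
    rcases h with h | h
    · simp only [Prod.mk.injEq] at h
      cases rest with
      | nil => right; rw [h.2.1]; rfl
      | cons z' r => left; rw [h.2.1, hd_cons]; simp
    · rcases corA_pred_mem h with h | h
      · exact Or.inl (List.mem_cons_of_mem _ h)
      · exact Or.inr h

private lemma corA_succ_mem {f : ℕ} : ∀ {l rc : List ℕ} {w v a u c : ℕ},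
    (v, a, u, c) ∈ corA f l rc w → u ∈ l ∨ u = w
  | [], _, _, _, _, _, _, h => by simp [corA] at h
  | z :: rest, rc, w, v, a, u, c, h => by
    rw [corA_cons, List.mem_cons] at h
    rcases h with h | h
    · simp only [Prod.mk.injEq] at h
      exact Or.inr h.2.2.1
    · rcases corA_succ_mem h with h | h
      · exact Or.inl (List.mem_cons_of_mem _ h)
      · left; rw [h]; simp

/-- the corner at the successor -/
private lemma corA_next {f : ℕ} : ∀ {l rc : List ℕ} {w v a u c : ℕ},
    (v, a, u, c) ∈ corA f l rc w →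
      (u = w ∧ v = hd f l) ∨ ∃ w' c', (u, v, w', c') ∈ corA f l rc w
  | [], _, _, _, _, _, _, h => by simp [corA] at h
  | z :: rest, rc, w, v, a, u, c, h => by
    rw [corA_cons, List.mem_cons] at h
    rcases h with h | h
    · simp only [Prod.mk.injEq] at h
      exact Or.inl ⟨h.2.2.1, by rw [hd_cons]; exact h.1⟩
    · right
      rcases corA_next h with ⟨h1, h2⟩ | ⟨w', c', h1⟩
      · refine ⟨w, hd 0 rc, ?_⟩
        rw [corA_cons, h1, h2]
        exact List.mem_cons_self
      · exact ⟨w', c', by rw [corA_cons]; exact List.mem_cons_of_mem _ h1⟩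

/-- the corner at the last entry -/
private lemma corA_last {f : ℕ} : ∀ {l rc : List ℕ} {w z : ℕ}, l.getLast? = some z →
    ∃ w' c', (z, f, w', c') ∈ corA f l rc w
  | [], _, _, _, h => by simp at h
  | [v], rc, w, z, h => by
    simp only [List.getLast?_singleton, Option.some.injEq] at h
    exact ⟨w, hd 0 rc, by rw [corA_cons, h]; exact List.mem_cons_self⟩
  | v :: v' :: rest, rc, w, z, h => by
    rw [List.getLast?_cons_cons] at h
    obtain ⟨w', c', h1⟩ := corA_last (l := v' :: rest) (rc := tl rc) (w := v) h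
    exact ⟨w', c', by rw [corA_cons]; exact List.mem_cons_of_mem _ h1⟩

/-- the corner at the predecessor -/
private lemma corA_prev {f : ℕ} : ∀ {l rc : List ℕ} {w v a u c : ℕ},
    (v, a, u, c) ∈ corA f l rc w →
      (a = f ∧ l.getLast? = some v) ∨ ∃ a' c', (a, a', v, c') ∈ corA f l rc w
  | [], _, _, _, _, _, _, h => by simp [corA] at h
  | [z], rc, w, v, a, u, c, h => by
    rw [corA_cons, List.mem_cons] at h
    rcases h with h | h
    · simp only [Prod.mk.injEq] at h
      left
      refine ⟨h.2.1, ?_⟩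
      rw [h.1]; rfl
    · simp [corA] at h
  | z :: z' :: rest, rc, w, v, a, u, c, h => by
    rw [corA_cons, List.mem_cons] at h
    rcases h with h | h
    · simp only [Prod.mk.injEq] at h
      right
      refine ⟨hd f rest, hd 0 (tl rc), ?_⟩
      rw [h.1, h.2.1, corA_cons, corA_cons, hd_cons]
      exact List.mem_cons_of_mem _ List.mem_cons_self
    · rcases corA_prev h with ⟨h1, h2⟩ | ⟨a', c', h1⟩
      · left
        exact ⟨h1, by rw [List.getLast?_cons_cons]; exact h2⟩
      · right
        exact ⟨a', c', by rw [corA_cons]; exact List.mem_cons_of_mem _ h1⟩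

private lemma ws_ne {F : Fa} (hW : Wf F) : F.ws ≠ [] := by
  intro h
  have := hW.three
  rw [h] at this
  simp at this

private lemma cb_hd_mem {F : Fa} (hW : Wf F) : hd 0 F.ws ∈ F.ws := by
  cases hF : F.ws with
  | nil => exact absurd hF (ws_ne hW)
  | cons z r => rw [hd_cons]; simp

private lemma hd_hd {F : Fa} (hW : Wf F) : hd (hd 0 F.ws) F.ws = hd 0 F.ws := by
  cases hF : F.ws with
  | nil => exact absurd hF (ws_ne hW)
  | cons z r => rfl

private lemma a_mem {F : Fa} (hW : Wf F) : F.a ∈ F.ws := List.mem_of_getLast? hW.last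

private lemma cb_cors_mem {F : Fa} (hW : Wf F) {v a u c : ℕ} (h : (v, a, u, c) ∈ cors F) :
    v ∈ F.ws ∧ a ∈ F.ws ∧ u ∈ F.ws := by
  refine ⟨corA_fst_mem h, ?_, ?_⟩
  · rcases corA_pred_mem h with h | h
    · exact h
    · rw [h]; exact cb_hd_mem hW
  · rcases corA_succ_mem h with h | h
    · exact h
    · rw [h]; exact a_mem hW

private lemma cors_next {F : Fa} (hW : Wf F) {v a u c : ℕ} (h : (v, a, u, c) ∈ cors F) :
    ∃ w' c', (u, v, w', c') ∈ cors F := by
  rcases corA_next h with ⟨h1, h2⟩ | h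
  · obtain ⟨w', c', h3⟩ := corA_last (f := hd 0 F.ws) (rc := F.rc) (w := F.a) hW.last
    refine ⟨w', c', ?_⟩
    rw [h1, h2, hd_hd hW]
    exact h3
  · exact h

private lemma cors_prev {F : Fa} (hW : Wf F) {v a u c : ℕ} (h : (v, a, u, c) ∈ cors F) :
    ∃ a' c', (a, a', v, c') ∈ cors F := by
  rcases corA_prev h with ⟨h1, h2⟩ | h
  · rw [hW.last, Option.some.injEq] at h2
    unfold cors
    cases hF : F.ws with
    | nil => exact absurd hF (ws_ne hW)
    | cons z r =>
      refine ⟨hd z r, hd 0 F.rc, ?_⟩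
      rw [corA_cons, h1, hF, hd_cons, h2]
      exact List.mem_cons_self
  · exact h

private lemma outD_iff_inD (h : Sp s) (u v : ℕ) : OutD s.fs v u ↔ InD s.fs u v := by
  constructor
  · rintro ⟨a, c, hC⟩
    obtain ⟨F, hF, hq⟩ := List.mem_flatMap.1 hC
    obtain ⟨w', c', h1⟩ := cors_next (h.wf F hF) hq
    exact ⟨w', c', List.mem_flatMap.2 ⟨F, hF, h1⟩⟩
  · rintro ⟨a, c, hC⟩
    obtain ⟨F, hF, hq⟩ := List.mem_flatMap.1 hC
    obtain ⟨w', c', h1⟩ := cors_prev (h.wf F hF) hq
    exact ⟨w', c', List.mem_flatMap.2 ⟨F, hF, h1⟩⟩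

private lemma inD_lt (h : Sp s) {u v : ℕ} (hd : InD s.fs v u) : v < s.n ∧ u < s.n := by
  obtain ⟨w, c, hC⟩ := hd
  obtain ⟨F, hF, hq⟩ := List.mem_flatMap.1 hC
  obtain ⟨h1, h2, _⟩ := cb_cors_mem (h.wf F hF) hq
  exact ⟨h.lt F hF _ h1, h.lt F hF _ h2⟩

private lemma outD_lt (h : Sp s) {u v : ℕ} (hd : OutD s.fs v u) : v < s.n ∧ u < s.n := by
  rw [outD_iff_inD h] at hd
  exact (inD_lt h hd).symm

private lemma Cand.inD_xy (h : Good M s lab) (hc : Cand M s x y p l lab) :
    InD s.fs x y ∧ ¬ OutD s.fs x y :=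
  ⟨(outD_iff_inD h.sp x y).1 hc.out, fun h1 => hc.free ((outD_iff_inD h.sp y x).1 h1)⟩

private lemma Cand.len3 (hc : Cand M s x y p l lab) : 1 ≤ l.length := by
  rw [hc.len]
  exact (tab_dir p hc.mem).2.2.2.2.2.1

private lemma Cand.free_all (h : Good M s lab) (hc : Cand M s x y p l lab) :
    ∀ q ∈ cors (Fa.mk x (l.reverse ++ [y, x]) p.dr p.rc),
      ¬ InD s.fs q.1 q.2.1 ∧ ¬ OutD s.fs q.1 q.2.2.1 := by
  have h1 := hc.cor (i := 1) (by simp)
  have e : (1 + (x :: y :: l).length - 1) % (x :: y :: l).length = 0 := by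
    simp
  rw [e] at h1
  exact h.all_free hc.wf hc.face hc.inj h1 hc.free

/-- acceptance at the corner `(u, v, w)` of the new face, `v` old -/
theorem Cand.acc_cor (h : Good M s lab) (hc : Cand M s x y p l lab) {u v w c : ℕ} (hv : v < s.n)
    (hcor : (v, u, w, c) ∈ cors (Fa.mk x (l.reverse ++ [y, x]) p.dr p.rc)) :
    (awTt v).testBit (8 * dg s.cnt v + (3 * (c - 1) +
      (ab s.n s.en v u + ab s.n s.st v w))) = true ∧
    (ab s.n s.en v u + ab s.n s.st v w = 0 →
      (awTt v).testBit (8 * dg s.cnt v + (3 * (c - 1) + 1)) = true) := by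
  classical
  obtain ⟨k, U, C, hR⟩ := h.ring hv
  obtain ⟨d, e, r, hreal⟩ := cors_real hc.wf hc.face hcor
  obtain ⟨i, hu, hw, hci⟩ := hR.cover _ _ _ _ _ _ hreal
  obtain ⟨hf1, hf2⟩ := hc.free_all h _ hcor
  simp only at hf1 hf2
  obtain ⟨_, hum, hwm⟩ := cb_cors_mem hc.wf hcor
  have hum' : u < maxL s.n (l.reverse ++ [y, x]) := lt_maxL hum
  have hwm' : w < maxL s.n (l.reverse ++ [y, x]) := lt_maxL hwm
  have hn := le_maxL s.n (l.reverse ++ [y, x])
  have hn16 := h.sp.n16
  -- the position is not placed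
  have h0 : ¬ PlI s lab v U i := by
    intro hP
    obtain ⟨u', w', hu', hw', hC, e1, e2⟩ := h.pl_cor hR hP
    have : u' = u := hc.inj u' (by omega) u hum' (by rw [e1, hu])
    rw [this] at hC
    exact hf1 ⟨w', C i, hC⟩
  -- the neighbours
  have hen : ab s.n s.en v u = if PlI s lab v U (i - 1) then 1 else 0 := by
    unfold ab
    by_cases hun : u < s.n
    · rw [if_pos hun]
      have h1 : PlI s lab v U (i - 1) ↔ OutD s.fs v u :=
        h.pl_iff' hR hun (by rw [hu, sub_add_cancel])
      have h2 : s.en.testBit (16 * v + u) = true ↔ PlI s lab v U (i - 1) := by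
        rw [h.sp.en v u (by omega), h1]
        exact ⟨fun h => h.1, fun h => ⟨h, hf1⟩⟩
      by_cases h3 : PlI s lab v U (i - 1)
      · rw [if_pos h3, h2.2 h3]; rfl
      · have h4 : s.en.testBit (16 * v + u) = false := by
          rw [Bool.eq_false_iff]; exact fun h5 => h3 (h2.1 h5)
        rw [if_neg h3, h4]; rfl
    · rw [if_neg hun, if_neg]
      intro hP
      obtain ⟨u', w', hu', hw', hC, e1, e2⟩ := h.pl_cor hR hP
      rw [sub_add_cancel] at e2
      have : w' = u := hc.inj w' (by omega) u hum' (by rw [e2, hu])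
      omega
  have hst : ab s.n s.st v w = if PlI s lab v U (i + 1) then 1 else 0 := by
    unfold ab
    by_cases hwn : w < s.n
    · rw [if_pos hwn]
      have h1 : PlI s lab v U (i + 1) ↔ InD s.fs v w := h.pl_iff hR hwn hw
      have h2 : s.st.testBit (16 * v + w) = true ↔ PlI s lab v U (i + 1) := by
        rw [h.sp.st v w (by omega), h1]
        exact ⟨fun h => h.1, fun h => ⟨h, hf2⟩⟩
      by_cases h3 : PlI s lab v U (i + 1)
      · rw [if_pos h3, h2.2 h3]; rfl
      · have h4 : s.st.testBit (16 * v + w) = false := by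
          rw [Bool.eq_false_iff]; exact fun h5 => h3 (h2.1 h5)
        rw [if_neg h3, h4]; rfl
    · rw [if_neg hwn, if_neg]
      intro hP
      obtain ⟨u', w', hu', hw', hC, e1, e2⟩ := h.pl_cor hR hP
      have : u' = w := hc.inj u' (by omega) w hwm' (by rw [e1, hw])
      omega
  rw [hen, hst, hci]
  exact h.acc_bit hv hR h0 rfl

/-- starts and ends are dual -/
theorem Good.st_en (h : Good M s lab) (u v : ℕ) :
    ab s.n s.en v u = ab s.n s.st u v := by
  have hn16 := h.sp.n16
  unfold ab
  by_cases hu : u < s.n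
  · rw [if_pos hu]
    by_cases hv : v < s.n
    · rw [if_pos hv]
      congr 1
      rw [Bool.eq_iff_iff, h.sp.en v u (by omega), h.sp.st u v (by omega),
        outD_iff_inD h.sp u v, outD_iff_inD h.sp v u]
    · rw [if_neg hv]
      have : s.en.testBit (16 * v + u) = false := by
        rw [Bool.eq_false_iff]
        intro h1
        rw [h.sp.en v u (by omega)] at h1
        exact hv (outD_lt h.sp h1.1).1
      rw [this]; rfl
  · rw [if_neg hu]
    by_cases hv : v < s.n
    · rw [if_pos hv]
      have : s.st.testBit (16 * u + v) = false := by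
        rw [Bool.eq_false_iff]
        intro h1
        rw [h.sp.st u v (by omega)] at h1
        exact hu (inD_lt h.sp h1.1).1
      rw [this]; rfl
    · rw [if_neg hv]

/-- codes -/
private lemma Cand.code (hc : Cand M s x y p l lab) (i : ℕ) :
    3 * (p.rc.reverse.getD i 0 - 1) = (p.e0 :: p.e1 :: p.rest).getD i 0 := by
  have h1 := (tab_dir p hc.mem).2.2.2.1
  rw [← h1]
  by_cases hi : i < p.rc.reverse.length
  · rw [List.getD_eq_getElem _ _ hi, List.getD_eq_getElem _ _ (by simpa using hi), List.getElem_map]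
  · rw [List.getD_eq_default _ _ (by omega), List.getD_eq_default _ _ (by simpa using hi)]

private lemma Cand.st_xy (h : Good M s lab) (hc : Cand M s x y p l lab) :
    ab s.n s.st x y = 1 := by
  have hn16 := h.sp.n16
  unfold ab
  rw [if_pos hc.hy]
  have : s.st.testBit (16 * x + y) = true := by
    rw [h.sp.st x y (by have := hc.hy; omega)]
    exact hc.inD_xy h
  rw [this]; rfl

theorem Cand.cond_accA (h : Good M s lab) (hc : Cand M s x y p l lab) :
    (awTt x).testBit (8 * dg s.cnt x +
      (p.e0 + (1 + ab s.n s.en x ((x :: y :: l).getD ((x :: y :: l).length - 1) 0)))) = true := by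
  have hl := hc.len3
  have h1 := hc.cor (i := 0) (by simp)
  have e1 : (0 + (x :: y :: l).length - 1) % (x :: y :: l).length = (x :: y :: l).length - 1 := by
    rw [Nat.mod_eq_of_lt] <;> simp
  have e2 : (0 + 1) % (x :: y :: l).length = 1 := by
    rw [Nat.mod_eq_of_lt]; simp
  rw [e1, e2] at h1
  have h2 := (hc.acc_cor h hc.hx h1).1
  rw [hc.code 0] at h2
  have h3 : (x :: y :: l).getD 1 0 = y := rfl
  have h5 : (p.e0 :: p.e1 :: p.rest).getD 0 0 = p.e0 := rfl
  rw [h3, h5, hc.st_xy h] at h2
  rw [add_comm 1]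
  exact h2

theorem Cand.cond_accB (h : Good M s lab) (hc : Cand M s x y p l lab) :
    (awTt y).testBit (8 * dg s.cnt y +
      (p.e1 + (1 + ab s.n s.st y ((x :: y :: l).getD 2 0)))) = true := by
  have hl := hc.len3
  have h1 := hc.cor (i := 1) (by simp)
  have e1 : (1 + (x :: y :: l).length - 1) % (x :: y :: l).length = 0 := by simp
  have e2 : (1 + 1) % (x :: y :: l).length = 2 := by
    rw [Nat.mod_eq_of_lt]; simp; omega
  rw [e1, e2] at h1
  have h2 := (hc.acc_cor h hc.hy h1).1
  rw [hc.code 1] at h2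
  have h4 : (x :: y :: l).getD 0 0 = x := rfl
  have h5 : (p.e0 :: p.e1 :: p.rest).getD 1 0 = p.e1 := rfl
  rw [h4, h5, h.st_en x y, hc.st_xy h] at h2
  exact h2

theorem Cand.cond_acc (h : Good M s lab) (hc : Cand M s x y p l lab) :
    ∀ i, 2 ≤ i → i + 1 < (x :: y :: l).length → (x :: y :: l).getD i 0 < s.n →
    (awTt ((x :: y :: l).getD i 0)).testBit (8 * dg s.cnt ((x :: y :: l).getD i 0) +
      ((p.e0 :: p.e1 :: p.rest).getD i 0 +
      (ab s.n s.st ((x :: y :: l).getD (i - 1) 0) ((x :: y :: l).getD i 0) +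
        ab s.n s.st ((x :: y :: l).getD i 0) ((x :: y :: l).getD (i + 1) 0)))) = true := by
  intro i hi hil hin
  have h1 := hc.cor (i := i) (by omega)
  have e1 : (i + (x :: y :: l).length - 1) % (x :: y :: l).length = i - 1 := by
    have : i + (x :: y :: l).length - 1 = (i - 1) + (x :: y :: l).length := by omega
    rw [this, Nat.add_mod_right, Nat.mod_eq_of_lt (by omega)]
  have e2 : (i + 1) % (x :: y :: l).length = i + 1 := Nat.mod_eq_of_lt hil
  rw [e1, e2] at h1
  have h2 := (hc.acc_cor h hin h1).1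
  rw [hc.code i, h.st_en] at h2
  exact h2

theorem Cand.cond_accL (h : Good M s lab) (hc : Cand M s x y p l lab) :
    (x :: y :: l).getD ((x :: y :: l).length - 1) 0 < s.n →
    (awTt ((x :: y :: l).getD ((x :: y :: l).length - 1) 0)).testBit
      (8 * dg s.cnt ((x :: y :: l).getD ((x :: y :: l).length - 1) 0) +
      ((p.e0 :: p.e1 :: p.rest).getD ((x :: y :: l).length - 1) 0 +
      (ab s.n s.st ((x :: y :: l).getD ((x :: y :: l).length - 2) 0)
          ((x :: y :: l).getD ((x :: y :: l).length - 1) 0) +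
        ab s.n s.en x ((x :: y :: l).getD ((x :: y :: l).length - 1) 0)))) = true := by
  intro hin
  have hlen : (x :: y :: l).length = l.length + 2 := by simp
  have h1 := hc.cor (i := (x :: y :: l).length - 1) (by omega)
  have e1 : ((x :: y :: l).length - 1 + (x :: y :: l).length - 1) % (x :: y :: l).length =
      (x :: y :: l).length - 2 := by
    have : (x :: y :: l).length - 1 + (x :: y :: l).length - 1 =
      ((x :: y :: l).length - 2) + (x :: y :: l).length := by omega
    rw [this, Nat.add_mod_right, Nat.mod_eq_of_lt (by omega)]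
  have e2 : ((x :: y :: l).length - 1 + 1) % (x :: y :: l).length = 0 := by
    have : (x :: y :: l).length - 1 + 1 = (x :: y :: l).length := by omega
    rw [this, Nat.mod_self]
  rw [e1, e2] at h1
  have h2 := (hc.acc_cor h hin h1).1
  have h4 : (x :: y :: l).getD 0 0 = x := rfl
  rw [hc.code, h4, h.st_en ((x :: y :: l).getD ((x :: y :: l).length - 2) 0),
    ← h.st_en ((x :: y :: l).getD ((x :: y :: l).length - 1) 0) x] at h2
  exact h2

theorem Cand.cond_acc1 (h : Good M s lab) (hc : Cand M s x y p l lab) :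
    ∀ i, 2 ≤ i → i < (x :: y :: l).length → (x :: y :: l).getD i 0 < s.n →
    s.st.testBit (16 * (x :: y :: l).getD (i - 1) 0 + (x :: y :: l).getD i 0) = false →
    (awTt ((x :: y :: l).getD i 0)).testBit (8 * dg s.cnt ((x :: y :: l).getD i 0) +
      ((p.e0 :: p.e1 :: p.rest).getD i 0 + 1)) = true := by
  intro i hi hil hin hst
  have h1 := hc.cor (i := i) hil
  have e1 : (i + (x :: y :: l).length - 1) % (x :: y :: l).length = i - 1 := by
    have : i + (x :: y :: l).length - 1 = (i - 1) + (x :: y :: l).length := by omega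
    rw [this, Nat.add_mod_right, Nat.mod_eq_of_lt (by omega)]
  rw [e1] at h1
  obtain ⟨h2, h3⟩ := hc.acc_cor h hin h1
  have h0 : ab s.n s.en ((x :: y :: l).getD i 0) ((x :: y :: l).getD (i - 1) 0) = 0 := by
    rw [h.st_en]
    unfold ab
    rw [if_pos hin, hst]; rfl
  rw [hc.code, h0, zero_add] at h2 h3
  have hle : ab s.n s.st ((x :: y :: l).getD i 0)
      ((x :: y :: l).getD ((i + 1) % (x :: y :: l).length) 0) ≤ 1 := by
    unfold ab
    split_ifs
    · exact Bool.toNat_le _
    · omega
  rcases Nat.eq_zero_or_pos (ab s.n s.st ((x :: y :: l).getD i 0)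
      ((x :: y :: l).getD ((i + 1) % (x :: y :: l).length) 0)) with h5 | h5
  · exact h3 h5
  · have h6 : ab s.n s.st ((x :: y :: l).getD i 0)
      ((x :: y :: l).getD ((i + 1) % (x :: y :: l).length) 0) = 1 := by omega
    rw [h6] at h2
    exact h2

end Chk
end Pool.Agent.Lib.MP_ba95e8_co
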