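import Pool.Agent.Lib.MP_ba95e8_co.Basic

/-!
Deltahedral domes, task R1: chains of unit vectors at 60 degrees.
-/

namespace Pool.Agent.Lib.MP_ba95e8_co

open scoped RealInnerProductSpace

section chain

variable {x y z w v : E3}

/-- Cauchy-Schwarz for unit vectors -/
lemma inner_le_one' (hx : ⟪x, x⟫ = 1) (hy : ⟪y, y⟫ = 1) : ⟪x, y⟫ ≤ 1 := by
  have h : 0 ≤ ⟪x - y, x - y⟫ := real_inner_self_nonneg
  rw [inner_sub_left, inner_sub_right, inner_sub_right, hx, hy, real_inner_comm x y] at h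
  linarith

/-- Cauchy-Schwarz for unit vectors -/
lemma neg_one_le_inner' (hx : ⟪x, x⟫ = 1) (hy : ⟪y, y⟫ = 1) : -1 ≤ ⟪x, y⟫ := by
  have h : 0 ≤ ⟪x + y, x + y⟫ := real_inner_self_nonneg
  rw [inner_add_left, inner_add_right, inner_add_right, hx, hy, real_inner_comm x y] at h
  linarith

/-- middle plane formula -/
lemma mpf (hy : ⟪y, y⟫ = 1) (hz : ⟪z, z⟫ = 1) (hxy : ⟪x, y⟫ = 1 / 2) (hyz : ⟪y, z⟫ = 1 / 2)
    (hzw : ⟪z, w⟫ = 1 / 2) :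
    det3 x y z * det3 y z w =
      1 / 8 - ⟪y, w⟫ / 2 - ⟪x, z⟫ / 2 + ⟪x, z⟫ * ⟪y, w⟫ / 2 + 3 * ⟪x, w⟫ / 4 := by
  have hzy : ⟪z, y⟫ = 1 / 2 := by rw [real_inner_comm]; exact hyz
  rw [det3_mul_det3, hy, hz, hxy, hyz, hzw, hzy]
  ring

lemma mpf2 (hx : ⟪x, x⟫ = 1) (hy : ⟪y, y⟫ = 1) (hxy : ⟪x, y⟫ = 1 / 2) (hyz : ⟪y, z⟫ = 1 / 2)
    (hzw : ⟪z, w⟫ = 1 / 2) :
    det3 x y w * det3 x y z =
      3 / 8 + ⟪x, w⟫ / 4 - ⟪x, z⟫ * ⟪x, w⟫ + ⟪x, z⟫ * ⟪y, w⟫ / 2 - ⟪y, w⟫ / 2 := by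
  have hyx : ⟪y, x⟫ = 1 / 2 := by rw [real_inner_comm]; exact hxy
  have hwz : ⟪w, z⟫ = 1 / 2 := by rw [real_inner_comm]; exact hzw
  rw [det3_mul_det3, hx, hy, hxy, hyz, hyx, hwz, real_inner_comm y w, real_inner_comm x w]
  ring

lemma gram60 (hx : ⟪x, x⟫ = 1) (hy : ⟪y, y⟫ = 1) (hz : ⟪z, z⟫ = 1) (hxy : ⟪x, y⟫ = 1 / 2)
    (hyz : ⟪y, z⟫ = 1 / 2) :
    det3 x y z ^ 2 = (1 - ⟪x, z⟫) * (1 + 2 * ⟪x, z⟫) / 2 := by
  have hyx : ⟪y, x⟫ = 1 / 2 := by rw [real_inner_comm]; exact hxy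
  have hzy : ⟪z, y⟫ = 1 / 2 := by rw [real_inner_comm]; exact hyz
  rw [sq, det3_mul_det3, hx, hy, hz, hxy, hyz, hyx, hzy, real_inner_comm x z]
  ring

/-- both interior angles of the chain at most 109.47 degrees: the ends are at most 60 apart -/
lemma chain_ll (hx : ⟪x, x⟫ = 1) (hy : ⟪y, y⟫ = 1) (hz : ⟪z, z⟫ = 1) (hw : ⟪w, w⟫ = 1)
    (hxy : ⟪x, y⟫ = 1 / 2) (hyz : ⟪y, z⟫ = 1 / 2) (hzw : ⟪z, w⟫ = 1 / 2)
    (h1 : 0 < det3 x y z) (h2 : 0 < det3 y z w) (hp : 0 ≤ ⟪x, z⟫) (hq : 0 ≤ ⟪y, w⟫) :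
    1 / 2 ≤ ⟪x, w⟫ := by
  have e1 := gram60 hx hy hz hxy hyz
  have e2 := gram60 hy hz hw hyz hzw
  have e3 := mpf (x := x) (w := w) hy hz hxy hyz hzw
  have hp1 : ⟪x, z⟫ ≤ 1 := inner_le_one' hx hz
  have hq1 : ⟪y, w⟫ ≤ 1 := inner_le_one' hy hw
  generalize ⟪x, z⟫ = p at *
  generalize ⟪y, w⟫ = q at *
  generalize ⟪x, w⟫ = r at *
  generalize det3 x y z = D1 at *
  generalize det3 y z w = D2 at *
  by_contra hcon
  push Not at hcon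
  have hlt : D1 * D2 < (1 - p) * (1 - q) / 2 := by rw [e3]; linarith
  have hpos : 0 < D1 * D2 := mul_pos h1 h2
  have hsq : (D1 * D2) ^ 2 < ((1 - p) * (1 - q) / 2) ^ 2 :=
    pow_lt_pow_left₀ hlt hpos.le two_ne_zero
  rw [mul_pow, e1, e2] at hsq
  have ha : 0 ≤ 1 - p := by linarith
  have hb : 0 ≤ 1 - q := by linarith
  have hc : (1 - p) * (1 - q) ≤ (1 + 2 * p) * (1 + 2 * q) := by nlinarith
  have hd : 0 ≤ (1 - p) * (1 - q) := mul_nonneg ha hb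
  nlinarith [mul_le_mul_of_nonneg_left hc hd]

/-- key lemma, both interior angles at most 109.47 degrees -/
lemma chain_kl (hx : ⟪x, x⟫ = 1) (hy : ⟪y, y⟫ = 1) (hz : ⟪z, z⟫ = 1) (hw : ⟪w, w⟫ = 1)
    (hxy : ⟪x, y⟫ = 1 / 2) (hyz : ⟪y, z⟫ = 1 / 2) (hzw : ⟪z, w⟫ = 1 / 2)
    (h1 : 0 < det3 x y z) (h2 : 0 < det3 y z w) (hp : 0 ≤ ⟪x, z⟫) (hq : 0 ≤ ⟪y, w⟫) :
    det3 x y w ≤ det3 x y z := by
  have hr := chain_ll hx hy hz hw hxy hyz hzw h1 h2 hp hq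
  have e1 := gram60 hx hy hz hxy hyz
  have e2 := gram60 hy hz hw hyz hzw
  have e3 := mpf (x := x) (w := w) hy hz hxy hyz hzw
  have e4 := mpf2 (x := x) (w := w) hx hy hxy hyz hzw
  have hp1 : ⟪x, z⟫ ≤ 1 := inner_le_one' hx hz
  have hq1 : ⟪y, w⟫ ≤ 1 := inner_le_one' hy hw
  generalize ⟪x, z⟫ = p at *
  generalize ⟪y, w⟫ = q at *
  generalize ⟪x, w⟫ = r at *
  generalize det3 x y z = D1 at *
  generalize det3 y z w = D2 at *
  generalize det3 x y w = E at *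
  have key : E * D1 ≤ D1 * D1 := by
    have hsq : D1 * D1 = (1 - p) * (1 + 2 * p) / 2 := by rw [← e1]; ring
    rw [e4, hsq]
    rcases le_total (1 / 4) p with hc | hc
    · have h3 : (1 / 4 - p) * r ≤ (1 / 4 - p) * (1 / 2) :=
        mul_le_mul_of_nonpos_left hr (by linarith)
      have h4 : 0 ≤ p * (1 - p) := mul_nonneg hp (by linarith)
      have h5 : 0 ≤ q * (1 - p) := mul_nonneg hq (by linarith)
      nlinarith
    · have h3 : r ≤ 1 / 2 + p + q := by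
        nlinarith [sq_nonneg (D1 - D2), mul_nonneg hp hq, sq_nonneg p, sq_nonneg q]
      have h4 : (1 / 4 - p) * r ≤ (1 / 4 - p) * (1 / 2 + p + q) :=
        mul_le_mul_of_nonneg_left h3 (by linarith)
      nlinarith [mul_nonneg hp hq]
  exact le_of_mul_le_mul_right key h1

/-- key lemma, first interior angle small -/
lemma chain_kl' (hx : ⟪x, x⟫ = 1) (hy : ⟪y, y⟫ = 1) (hz : ⟪z, z⟫ = 1) (hw : ⟪w, w⟫ = 1)
    (hxy : ⟪x, y⟫ = 1 / 2) (hyz : ⟪y, z⟫ = 1 / 2) (hzw : ⟪z, w⟫ = 1 / 2)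
    (h1 : 0 < det3 x y z) (h2 : 0 ≤ det3 y z w) (hp : 1 / 4 ≤ ⟪x, z⟫) :
    det3 x y w ≤ det3 x y z := by
  have e1 := gram60 hx hy hz hxy hyz
  have e2 := gram60 hy hz hw hyz hzw
  have e3 := mpf (x := x) (w := w) hy hz hxy hyz hzw
  have e4 := mpf2 (x := x) (w := w) hx hy hxy hyz hzw
  have hp1 : ⟪x, z⟫ ≤ 1 := inner_le_one' hx hz
  have hq1 : ⟪y, w⟫ ≤ 1 := inner_le_one' hy hw
  generalize ⟪x, z⟫ = p at *
  generalize ⟪y, w⟫ = q at *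
  generalize ⟪x, w⟫ = r at *
  generalize det3 x y z = D1 at *
  generalize det3 y z w = D2 at *
  generalize det3 x y w = E at *
  have hq2 : -1 / 2 ≤ q := by
    by_contra hcon
    push Not at hcon
    have h3 : 0 ≤ (1 - q) * (1 + 2 * q) / 2 := by rw [← e2]; positivity
    nlinarith
  have hr : 2 / 3 * (p + q - 1 / 4 - p * q) ≤ r := by
    have := mul_nonneg h1.le h2
    rw [e3] at this
    linarith
  have key : E * D1 ≤ D1 * D1 := by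
    have hsq : D1 * D1 = (1 - p) * (1 + 2 * p) / 2 := by rw [← e1]; ring
    rw [e4, hsq]
    have h3 : (1 / 4 - p) * r ≤ (1 / 4 - p) * (2 / 3 * (p + q - 1 / 4 - p * q)) :=
      mul_le_mul_of_nonpos_left hr (by linarith)
    have h4 : 0 ≤ (q + 1 / 2) * (1 - p) := mul_nonneg (by linarith) (by linarith)
    have h5 : 0 ≤ (q + 1 / 2) * (1 - p) * (1 / 2 - 2 / 3 * (1 / 4 - p)) :=
      mul_nonneg h4 (by linarith)
    nlinarith
  exact le_of_mul_le_mul_right key h1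

lemma cone60 {a b c : E3} {α β γ : ℝ} (ha : ⟪a, a⟫ = 1) (hb : ⟪b, b⟫ = 1) (hc : ⟪c, c⟫ = 1)
    (hv : ⟪v, v⟫ = 1) (hα : 0 ≤ α) (hβ : 0 ≤ β) (hγ : 0 < γ) (h : v = α • a + β • b + γ • c)
    (hac : 1 / 2 ≤ ⟪a, c⟫) (hbc : 1 / 2 ≤ ⟪b, c⟫) : 1 / 2 < ⟪v, c⟫ := by
  have h1 : ⟪v, v⟫ = α * ⟪v, a⟫ + β * ⟪v, b⟫ + γ * ⟪v, c⟫ := by
    conv_lhs => rw [show ⟪v, v⟫ = ⟪v, α • a + β • b + γ • c⟫ by rw [← h]]
    rw [inner_add_right, inner_add_right, real_inner_smul_right, real_inner_smul_right,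
      real_inner_smul_right]
  have h2 : ⟪v, c⟫ = α * ⟪a, c⟫ + β * ⟪b, c⟫ + γ * ⟪c, c⟫ := by
    rw [h, inner_add_left, inner_add_left, real_inner_smul_left, real_inner_smul_left,
      real_inner_smul_left]
  have h3 := mul_le_mul_of_nonneg_left (inner_le_one' hv ha) hα
  have h4 := mul_le_mul_of_nonneg_left (inner_le_one' hv hb) hβ
  have h5 := mul_le_mul_of_nonneg_left (inner_le_one' hv hc) hγ.le
  have h6 := mul_le_mul_of_nonneg_left hac hα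
  have h7 := mul_le_mul_of_nonneg_left hbc hβ
  rw [hc] at h2
  rw [hv] at h1
  linarith

/-- no two adjacent low angles when one more side of 60 degrees follows -/
theorem chain_nal (hx : ⟪x, x⟫ = 1) (hy : ⟪y, y⟫ = 1) (hz : ⟪z, z⟫ = 1) (hw : ⟪w, w⟫ = 1)
    (hv : ⟪v, v⟫ = 1)
    (hxy : ⟪x, y⟫ = 1 / 2) (hyz : ⟪y, z⟫ = 1 / 2) (hzw : ⟪z, w⟫ = 1 / 2) (hwv : ⟪w, v⟫ = 1 / 2)
    (h1 : 0 < det3 x y z) (h2 : 0 < det3 x y w) (h3 : 0 < det3 y z w) (h4 : 0 < det3 z w x)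
    (h5 : 0 < det3 x y v) (h6 : 0 < det3 z w v) (h7 : 0 < det3 w v x) :
    ¬ (0 ≤ ⟪x, z⟫ ∧ 0 ≤ ⟪y, w⟫) := by
  rintro ⟨hp, hq⟩
  have hll := chain_ll hx hy hz hw hxy hyz hzw h1 h3 hp hq
  have hkl := chain_kl hx hy hz hw hxy hyz hzw h1 h3 hp hq
  have hwz : ⟪w, z⟫ = 1 / 2 := by rw [real_inner_comm]; exact hzw
  have u1 : ⟪w - z, w - z⟫ = 1 := by
    rw [inner_sub_left, inner_sub_right, inner_sub_right, hw, hz, hzw, hwz]; norm_num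
  have u2 : ⟪w - z, w⟫ = 1 / 2 := by
    rw [inner_sub_left, hw, hzw]; norm_num
  have d1 : det3 x y (w - z) ≤ 0 := by rw [det3_sub_right]; linarith
  have d2 : det3 w (w - z) x = det3 z w x := by
    rw [det3_sub_mid, det3_self, det3_swap z w x]; ring
  have d3 : det3 w (w - z) v = det3 z w v := by
    rw [det3_sub_mid, det3_self, det3_swap z w v]; ring
  have pl := plucker x y w v (w - z)
  have d4 : det3 x w (w - z) = det3 w (w - z) x := by rw [det3_rot x w (w - z)]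
  have d5 : det3 x w v = det3 w v x := by rw [det3_rot x w v]
  have d6 : det3 x v (w - z) = det3 v (w - z) x := by rw [det3_rot x v (w - z)]
  rw [d4, d5, d6, d2] at pl
  have d7 : 0 < det3 x y w * det3 v (w - z) x := by
    have i1 : 0 < det3 x y v * det3 z w x := mul_pos h5 h4
    have i2 : det3 x y (w - z) * det3 w v x ≤ 0 := mul_nonpos_of_nonpos_of_nonneg d1 h7.le
    linarith
  have d8 : 0 < det3 v (w - z) x := (mul_pos_iff_of_pos_left h2).1 d7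
  have cr := cramer w (w - z) x v
  rw [d2, d3] at cr
  have hveq : v = (det3 w v x / det3 z w x) • (w - z) + (det3 z w v / det3 z w x) • x
      + (det3 v (w - z) x / det3 z w x) • w := by
    have e : (det3 z w x)⁻¹ • (det3 z w x • v) = v := by
      rw [smul_smul, inv_mul_cancel₀ h4.ne', one_smul]
    rw [cr, smul_add, smul_add, smul_smul, smul_smul, smul_smul] at e
    simp only [div_eq_inv_mul]
    conv_lhs => rw [← e]
    abel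
  have := cone60 (v := v) u1 hx hw hv (div_nonneg h7.le h4.le) (div_nonneg h6.le h4.le)
    (div_pos d8 h4) hveq u2.ge hll
  rw [real_inner_comm] at this
  linarith

/-- chain 60, 60, 120 -/
lemma chain_112 (hx : ⟪x, x⟫ = 1) (hy : ⟪y, y⟫ = 1) (hz : ⟪z, z⟫ = 1) (hw : ⟪w, w⟫ = 1)
    (hxy : ⟪x, y⟫ = 1 / 2) (hyz : ⟪y, z⟫ = 1 / 2) (hzw : ⟪z, w⟫ = - 1 / 2)
    (h1 : 0 < det3 x y z) (h2 : 0 < det3 x y w) (h3 : 0 < det3 y z w) (hg : 0 ≤ ⟪y, w⟫) :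
    1 / 2 < ⟪x, w⟫ ∧ ⟪x, z⟫ < - 1 / 8 := by
  have hyx : ⟪y, x⟫ = 1 / 2 := by rw [real_inner_comm]; exact hxy
  have hwz : ⟪w, z⟫ = - 1 / 2 := by rw [real_inner_comm]; exact hzw
  have hzy : ⟪z, y⟫ = 1 / 2 := by rw [real_inner_comm]; exact hyz
  have e1 := gram60 hx hy hz hxy hyz
  have e2 : det3 x y w * det3 x y z =
      -3 / 8 - ⟪y, w⟫ / 2 + ⟪x, z⟫ * ⟪y, w⟫ / 2 + ⟪x, w⟫ * (1 / 4 - ⟪x, z⟫) := by
    rw [det3_mul_det3, hx, hy, hxy, hyz, hyx, hwz, real_inner_comm y w, real_inner_comm x w]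
    ring
  have e3 : det3 x y z * det3 y z w =
      -1 / 8 - ⟪y, w⟫ / 2 + ⟪x, z⟫ / 2 + ⟪x, z⟫ * ⟪y, w⟫ / 2 + 3 * ⟪x, w⟫ / 4 := by
    rw [det3_mul_det3, hy, hz, hxy, hyz, hzw, hzy]
    ring
  have i2 := mul_pos h2 h1
  have i3 := mul_pos h1 h3
  rw [e2] at i2
  rw [e3] at i3
  have hp1 : ⟪x, z⟫ ≤ 1 := inner_le_one' hx hz
  have hr1 : ⟪x, w⟫ ≤ 1 := inner_le_one' hx hw
  have hpos : 0 < det3 x y z ^ 2 := by positivity
  rw [e1] at hpos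
  generalize ⟪x, z⟫ = p at *
  generalize ⟪y, w⟫ = g at *
  generalize ⟪x, w⟫ = r at *
  have hp2 : -1 / 2 < p := by
    by_contra hcon
    push Not at hcon
    nlinarith
  have hg2 : 0 ≤ g * (1 - p) := mul_nonneg hg (by linarith)
  have hA : 3 / 8 < r * (1 / 4 - p) := by nlinarith
  have hp3 : p < 1 / 4 := by
    by_contra hcon
    push Not at hcon
    have hr0 : -r ≤ 2 / 3 * (p - 1 / 4) := by nlinarith
    have hm := mul_le_mul_of_nonneg_right hr0 (show 0 ≤ p - 1 / 4 by linarith)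
    nlinarith
  constructor
  · by_contra hcon
    push Not at hcon
    have := mul_le_mul_of_nonneg_right hcon (show 0 ≤ 1 / 4 - p by linarith)
    linarith
  · have := mul_le_mul_of_nonneg_right hr1 (show 0 ≤ 1 / 4 - p by linarith)
    linarith

end chain

end Pool.Agent.Lib.MP_ba95e8_co
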