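import Pool.Agent.Lib.MP_ba95e8_co.RingInv

/-!
Deltahedral domes, task L1: the length certificates are sound.
-/

namespace Pool.Agent.Lib.MP_ba95e8_co
namespace Chk

variable {V : Type*} {M : Model V} {s : St} {lab : ℕ → V}

/-! ### unfolding -/

theorem l1_faceQ_cons (W v : ℕ) (rest dr : List ℕ) (w q : ℕ) : faceQ W (v :: rest) dr w q =
    faceQ W rest (tl dr) v (q + Nat.land (Nat.shiftRight W (hd 96 dr)) 65535 <<<
      (16 * (16 * v + w))) := rfl

theorem l1_faceQs_cons (F : Fa) (fs : List Fa) (m : ℕ) (mu : List ℕ) (q : ℕ) :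
    faceQs (F :: fs) (m :: mu) q = faceQs fs mu
      (ifb (Nat.beq m 0) q (faceQ (mulW m) F.ws F.dr F.a q)) := rfl

theorem l1_chkFace_cons (q v : ℕ) (rest : List ℕ) (w r : ℕ) : chkFace q (v :: rest) w r =
    ifb (Nat.beq r 0) 0 (chkFace q rest v (chk1 (Nat.add
      (Nat.land (Nat.shiftRight q (Nat.mul 16 (Nat.add (Nat.mul 16 v) w))) 65535)
      (Nat.land (Nat.shiftRight q (Nat.mul 16 (Nat.add (Nat.mul 16 w) v))) 65535)) r)) := rfl

theorem l1_chkFaces_cons (q : ℕ) (F : Fa) (fs : List Fa) (m : ℕ) (mu : List ℕ) (r : ℕ) :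
    chkFaces q (F :: fs) (m :: mu) r = chkFaces q fs mu
      (ifb (Nat.beq m 0) r (chkFace q F.ws F.a r)) := rfl

theorem l1_chk1 (T r : ℕ) : chk1 T r = if T >>> 8 ≤ T &&& 255 then
    (if T >>> 8 = T &&& 255 then r else 3) else 0 := by
  have h : chk1 T r = ifb (Nat.ble (Nat.shiftRight T 8) (Nat.land T 255))
    (ifb (Nat.beq (Nat.shiftRight T 8) (Nat.land T 255)) r 3) 0 := rfl
  rw [h, ifb_eq, ifb_eq]
  have e1 : (Nat.ble (Nat.shiftRight T 8) (Nat.land T 255) = true) ↔ T >>> 8 ≤ T &&& 255 := by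
    rw [Nat.ble_eq]; rfl
  have e2 : (Nat.beq (Nat.shiftRight T 8) (Nat.land T 255) = true) ↔ T >>> 8 = T &&& 255 := by
    rw [Nat.beq_eq]; rfl
  simp only [e1, e2]

theorem l1_lenCheck (s : St) (mu : List ℕ) (t : ℕ) : lenCheck s mu t =
    len1 s.fs mu (Nat.land t 15) (Nat.land (Nat.shiftRight t 4) 15)
      (Nat.land (Nat.shiftRight t 8) 15) (Nat.land (Nat.shiftRight t 12) 15) := rfl

/-- the starting word -/
def l1_q0 (t0 t1 t2 t3 : ℕ) : ℕ :=
  (t1 + 256 * (t0 + t2)) <<< 16 + ((t0 + 256 * (t1 + t3)) <<< 288 +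
    (t2 + t3 + 256 * t0) <<< 32)

theorem l1_len1 (fs : List Fa) (mu : List ℕ) (t0 t1 t2 t3 : ℕ) : len1 fs mu t0 t1 t2 t3 =
    len2 fs mu t0 t3 (faceQs fs mu (l1_q0 t0 t1 t2 t3)) := rfl

theorem l1_len2 (fs : List Fa) (mu : List ℕ) (t0 t3 q : ℕ) : len2 fs mu t0 t3 q =
    Nat.beq (chkFace q [0, 1, 2] 2 (chkFaces q fs mu (ifb (Nat.beq (Nat.add t0 t3) 0) 2 3))) 3 :=
  rfl

/-! ### contributions -/

/-- darts of a reversed list -/
def l1_darts : List ℕ → ℕ → List (ℕ × ℕ)
  | [], _ => []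
  | v :: rest, w => (v, w) :: l1_darts rest v

/-- contributions of a face -/
noncomputable def l1_con (W : ℕ) : List ℕ → List ℕ → ℕ → List (ℕ × ℕ)
  | [], _, _ => []
  | v :: rest, dr, w => (16 * v + w, Nat.land (Nat.shiftRight W (hd 96 dr)) 65535) ::
      l1_con W rest (tl dr) v

/-- contributions of all faces -/
noncomputable def l1_cons : List Fa → List ℕ → List (ℕ × ℕ)
  | F :: fs, m :: mu => (if m = 0 then [] else l1_con (mulW m) F.ws F.dr F.a) ++ l1_cons fs mu
  | _, _ => []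

/-- darts of the faces that contribute -/
def l1_ds : List Fa → List ℕ → List (ℕ × ℕ)
  | F :: fs, m :: mu => (if m = 0 then [] else l1_darts F.ws F.a) ++ l1_ds fs mu
  | _, _ => []

/-- the word of a list of contributions -/
def l1_qs (L : List (ℕ × ℕ)) : ℕ := (L.map (fun p => p.2 <<< (16 * p.1))).sum

theorem l1_qs_nil : l1_qs [] = 0 := rfl
theorem l1_qs_cons (p : ℕ × ℕ) (L : List (ℕ × ℕ)) : l1_qs (p :: L) =
    p.2 <<< (16 * p.1) + l1_qs L := by simp [l1_qs]
theorem l1_qs_append (L L' : List (ℕ × ℕ)) : l1_qs (L ++ L') = l1_qs L + l1_qs L' := by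
  simp [l1_qs]

theorem l1_faceQ (W : ℕ) (ws : List ℕ) : ∀ (dr : List ℕ) (w q : ℕ),
    faceQ W ws dr w q = q + l1_qs (l1_con W ws dr w) := by
  induction ws with
  | nil => intro dr w q; rfl
  | cons v rest ih =>
    intro dr w q
    rw [l1_faceQ_cons, ih, l1_con, l1_qs_cons]
    ring

theorem l1_faceQs (fs : List Fa) : ∀ (mu : List ℕ) (q : ℕ),
    faceQs fs mu q = q + l1_qs (l1_cons fs mu) := by
  induction fs with
  | nil => intro mu q; rfl
  | cons F fs ih =>
    intro mu q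
    cases mu with
    | nil => rfl
    | cons m mu =>
      rw [l1_faceQs_cons, ih, l1_cons, l1_qs_append, ifb_eq, l1_faceQ]
      have e : (Nat.beq m 0 = true) ↔ m = 0 := by rw [Nat.beq_eq]
      by_cases h : m = 0
      · rw [if_pos (e.mpr h), if_pos h, l1_qs_nil]; ring
      · rw [if_neg (fun h' => h (e.mp h')), if_neg h]; ring

/-! ### the checks -/

/-- the word read at an edge -/
def l1_T (q v w : ℕ) : ℕ := (q >>> (16 * (16 * v + w)) &&& 65535) + (q >>> (16 * (16 * w + v)) &&& 65535)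

theorem l1_chkFace (q : ℕ) (ws : List ℕ) : ∀ w r : ℕ, chkFace q ws w r ≠ 0 →
    r ≠ 0 ∧ (∀ p ∈ l1_darts ws w, l1_T q p.1 p.2 >>> 8 ≤ l1_T q p.1 p.2 &&& 255) ∧
    (chkFace q ws w r = 3 → r = 3 ∨ ∃ p ∈ l1_darts ws w,
      l1_T q p.1 p.2 >>> 8 < l1_T q p.1 p.2 &&& 255) := by
  induction ws with
  | nil =>
    intro w r h
    exact ⟨h, fun p hp => absurd hp List.not_mem_nil, fun h' => Or.inl h'⟩
  | cons v rest ih =>
    intro w r h
    have e : (Nat.beq r 0 = true) ↔ r = 0 := by rw [Nat.beq_eq]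
    have hu : chkFace q (v :: rest) w r = if Nat.beq r 0 = true then 0 else
        chkFace q rest v (chk1 (l1_T q v w) r) := by
      rw [l1_chkFace_cons, ifb_eq]; rfl
    rw [hu] at h
    by_cases hr : r = 0
    · rw [if_pos (e.mpr hr)] at h
      exact absurd rfl h
    rw [if_neg (fun h' => hr (e.mp h'))] at h
    obtain ⟨h1, h2, h3⟩ := ih v _ h
    have hle : l1_T q v w >>> 8 ≤ l1_T q v w &&& 255 := by
      by_contra hc
      rw [l1_chk1, if_neg hc] at h1
      exact h1 rfl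
    refine ⟨hr, ?_, ?_⟩
    · intro p hp
      rcases List.mem_cons.mp hp with rfl | hp
      · exact hle
      · exact h2 p hp
    · rw [hu, if_neg (fun h' => hr (e.mp h'))]
      intro h4
      rcases h3 h4 with h5 | ⟨p, hp, h5⟩
      · rw [l1_chk1, if_pos hle] at h5
        by_cases heq : l1_T q v w >>> 8 = l1_T q v w &&& 255
        · rw [if_pos heq] at h5
          exact Or.inl h5
        · exact Or.inr ⟨(v, w), List.mem_cons_self, lt_of_le_of_ne hle heq⟩
      · exact Or.inr ⟨p, List.mem_cons_of_mem _ hp, h5⟩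

theorem l1_chkFaces (q : ℕ) (fs : List Fa) : ∀ (mu : List ℕ) (r : ℕ), chkFaces q fs mu r ≠ 0 →
    r ≠ 0 ∧ (∀ p ∈ l1_ds fs mu, l1_T q p.1 p.2 >>> 8 ≤ l1_T q p.1 p.2 &&& 255) ∧
    (chkFaces q fs mu r = 3 → r = 3 ∨ ∃ p ∈ l1_ds fs mu,
      l1_T q p.1 p.2 >>> 8 < l1_T q p.1 p.2 &&& 255) := by
  induction fs with
  | nil =>
    intro mu r h
    exact ⟨h, fun p hp => absurd hp List.not_mem_nil, fun h' => Or.inl h'⟩
  | cons F fs ih =>
    intro mu r h
    cases mu with
    | nil => exact ⟨h, fun p hp => absurd hp List.not_mem_nil, fun h' => Or.inl h'⟩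
    | cons m mu =>
      have e : (Nat.beq m 0 = true) ↔ m = 0 := by rw [Nat.beq_eq]
      rw [l1_chkFaces_cons, ifb_eq] at h ⊢
      rw [l1_ds]
      by_cases hm : m = 0
      · rw [if_pos (e.mpr hm)] at h ⊢
        rw [if_pos hm]
        exact ih mu r h
      · rw [if_neg (fun h' => hm (e.mp h'))] at h ⊢
        rw [if_neg hm]
        obtain ⟨h1, h2, h3⟩ := ih mu _ h
        obtain ⟨h4, h5, h6⟩ := l1_chkFace q F.ws F.a r h1
        refine ⟨h4, ?_, ?_⟩
        · intro p hp
          rcases List.mem_append.mp hp with hp | hp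
          · exact h5 p hp
          · exact h2 p hp
        · intro h7
          rcases h3 h7 with h8 | ⟨p, hp, h8⟩
          · rcases h6 h8 with h9 | ⟨p, hp, h9⟩
            · exact Or.inl h9
            · exact Or.inr ⟨p, List.mem_append_left _ hp, h9⟩
          · exact Or.inr ⟨p, List.mem_append_right _ hp, h8⟩

/-! ### bytes -/

/-- sums of low and high bytes at a slot -/
def l1_lo (L : List (ℕ × ℕ)) (i : ℕ) : ℕ := (L.map (fun p => if p.1 = i then p.2 % 256 else 0)).sum
def l1_hi (L : List (ℕ × ℕ)) (i : ℕ) : ℕ := (L.map (fun p => if p.1 = i then p.2 / 256 else 0)).sum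

theorem l1_lo_cons (p : ℕ × ℕ) (L : List (ℕ × ℕ)) (i : ℕ) :
    l1_lo (p :: L) i = (if p.1 = i then p.2 % 256 else 0) + l1_lo L i := by simp [l1_lo]
theorem l1_hi_cons (p : ℕ × ℕ) (L : List (ℕ × ℕ)) (i : ℕ) :
    l1_hi (p :: L) i = (if p.1 = i then p.2 / 256 else 0) + l1_hi L i := by simp [l1_hi]

theorem l1_shift (x i : ℕ) : x <<< (16 * i) =
    (x % 256) <<< (8 * (2 * i)) + (x / 256) <<< (8 * (2 * i + 1)) := by
  rw [Nat.shiftLeft_eq, Nat.shiftLeft_eq, Nat.shiftLeft_eq]
  have h1 : 16 * i = 8 * (2 * i) := by ring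
  have h2 : 8 * (2 * i + 1) = 8 * (2 * i) + 8 := by ring
  rw [h1, h2, pow_add]
  have h3 := Nat.mod_add_div x 256
  calc x * 2 ^ (8 * (2 * i)) = (x % 256 + 256 * (x / 256)) * 2 ^ (8 * (2 * i)) := by rw [h3]
    _ = _ := by ring

theorem l1_bytes (L : List (ℕ × ℕ)) (h : ∀ i, l1_lo L i < 256 ∧ l1_hi L i < 256) (i : ℕ) :
    dg (l1_qs L) (2 * i) = l1_lo L i ∧ dg (l1_qs L) (2 * i + 1) = l1_hi L i := by
  induction L generalizing i with
  | nil =>
    have h0 : ∀ j, dg 0 j = 0 := by intro j; simp [dg]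
    exact ⟨h0 _, h0 _⟩
  | cons p L ih =>
    have h' : ∀ i, l1_lo L i < 256 ∧ l1_hi L i < 256 := by
      intro i
      have := h i
      rw [l1_lo_cons, l1_hi_cons] at this
      omega
    have ih' := ih h'
    have hp := h p.1
    rw [l1_lo_cons, l1_hi_cons, if_pos rfl, if_pos rfl] at hp
    have e1 := dg_add (n := l1_qs L) (i := 2 * p.1) (x := p.2 % 256) (by
      rw [(ih' p.1).1]; omega)
    have e2 := dg_add (n := l1_qs L + (p.2 % 256) <<< (8 * (2 * p.1))) (i := 2 * p.1 + 1)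
      (x := p.2 / 256) (by
        rw [e1, if_neg (by omega), (ih' p.1).2]; omega)
    have e3 : l1_qs (p :: L) = l1_qs L + (p.2 % 256) <<< (8 * (2 * p.1)) +
        (p.2 / 256) <<< (8 * (2 * p.1 + 1)) := by
      rw [l1_qs_cons, l1_shift]; ring
    rw [e3, l1_lo_cons, l1_hi_cons]
    constructor
    · rw [e2, if_neg (by omega), e1]
      by_cases hi : p.1 = i
      · rw [if_pos (by omega), if_pos hi, (ih' p.1).1, hi]; ring
      · rw [if_neg (by omega), if_neg hi, (ih' i).1]; ring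
    · rw [e2]
      by_cases hi : p.1 = i
      · rw [if_pos (by omega), if_pos hi, e1, if_neg (by omega), (ih' p.1).2, hi]; ring
      · rw [if_neg (by omega), if_neg hi, e1, if_neg (by omega), (ih' i).2]; ring

theorem l1_slot (q i : ℕ) : q >>> (16 * i) &&& 65535 = dg q (2 * i) + 256 * dg q (2 * i + 1) := by
  have h1 : (65535 : ℕ) = 2 ^ 16 - 1 := by norm_num
  rw [h1, Nat.and_two_pow_sub_one_eq_mod, Nat.shiftRight_eq_div_pow]
  unfold dg
  have h2 : 8 * (2 * i) = 16 * i := by ring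
  have h3 : 8 * (2 * i + 1) = 16 * i + 8 := by ring
  rw [h2, h3, pow_add, ← Nat.div_div_eq_div_mul]
  generalize q / 2 ^ (16 * i) = y
  norm_num
  omega

theorem l1_T_bytes {q v w : ℕ} {a b c d : ℕ} (h1 : dg q (2 * (16 * v + w)) = a)
    (h2 : dg q (2 * (16 * v + w) + 1) = b) (h3 : dg q (2 * (16 * w + v)) = c)
    (h4 : dg q (2 * (16 * w + v) + 1) = d) (hac : a + c < 256) :
    l1_T q v w >>> 8 = b + d ∧ l1_T q v w &&& 255 = a + c := by
  unfold l1_T
  rw [l1_slot, l1_slot, h1, h2, h3, h4]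
  have h5 : (255 : ℕ) = 2 ^ 8 - 1 := by norm_num
  rw [h5, Nat.and_two_pow_sub_one_eq_mod, Nat.shiftRight_eq_div_pow]
  norm_num
  omega

/-- bound for a list with distinct slots -/
theorem l1_bound (L : List (ℕ × ℕ)) (hn : (L.map Prod.fst).Nodup) {B : ℕ}
    (hB : ∀ p ∈ L, p.2 % 256 ≤ B ∧ p.2 / 256 ≤ B) (i : ℕ) : l1_lo L i ≤ B ∧ l1_hi L i ≤ B := by
  induction L with
  | nil => exact ⟨Nat.zero_le _, Nat.zero_le _⟩
  | cons p L ih =>
    rw [List.map_cons, List.nodup_cons] at hn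
    have ih' := ih hn.2 fun p hp => hB p (List.mem_cons_of_mem _ hp)
    have hp := hB p List.mem_cons_self
    rw [l1_lo_cons, l1_hi_cons]
    by_cases hi : p.1 = i
    · have h0 : ∀ L : List (ℕ × ℕ), i ∉ L.map Prod.fst → l1_lo L i = 0 ∧ l1_hi L i = 0 := by
        intro L
        induction L with
        | nil => intro _; exact ⟨rfl, rfl⟩
        | cons q L ih =>
          intro h
          rw [List.map_cons, List.mem_cons, not_or] at h
          obtain ⟨h1, h2⟩ := ih h.2
          rw [l1_lo_cons, l1_hi_cons, if_neg (fun h' => h.1 h'.symm), if_neg (fun h' => h.1 h'.symm),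
            h1, h2]
          exact ⟨rfl, rfl⟩
      obtain ⟨h1, h2⟩ := h0 L (hi ▸ hn.1)
      rw [if_pos hi, if_pos hi, h1, h2]
      exact hp
    · rw [if_neg hi, if_neg hi, zero_add, zero_add]
      exact ih'

theorem l1_lo_append (L L' : List (ℕ × ℕ)) (i : ℕ) : l1_lo (L ++ L') i = l1_lo L i + l1_lo L' i := by
  simp [l1_lo]
theorem l1_hi_append (L L' : List (ℕ × ℕ)) (i : ℕ) : l1_hi (L ++ L') i = l1_hi L i + l1_hi L' i := by
  simp [l1_hi]

theorem l1_zero (L : List (ℕ × ℕ)) {i : ℕ} (h : i ∉ L.map Prod.fst) :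
    l1_lo L i = 0 ∧ l1_hi L i = 0 := by
  induction L with
  | nil => exact ⟨rfl, rfl⟩
  | cons q L ih =>
    rw [List.map_cons, List.mem_cons, not_or] at h
    obtain ⟨h1, h2⟩ := ih h.2
    rw [l1_lo_cons, l1_hi_cons, if_neg (fun h' => h.1 h'.symm), if_neg (fun h' => h.1 h'.symm),
      h1, h2]
    exact ⟨rfl, rfl⟩

/-! ### the multiplier word -/

theorem l1_mulW_def (m : ℕ) : mulW m = Nat.add
    (Nat.add (Nat.mul (Nat.land m 15) 0x000100000100010000000001)
      (Nat.mul (Nat.land (Nat.shiftRight m 4) 15) 0x010000000001000100000100))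
    (Nat.add (Nat.mul (Nat.land (Nat.shiftRight m 8) 15) 0x010001000000000100010000)
      (Nat.mul (Nat.land (Nat.shiftRight m 12) 15) 0x000100010000010001000000)) := rfl

theorem l1_mulW (m : ℕ) : ∃ a0 a1 a2 a3 : ℕ, a0 ≤ 15 ∧ a1 ≤ 15 ∧ a2 ≤ 15 ∧ a3 ≤ 15 ∧
    mulW m = (a0 * 0x000100000100010000000001 + a1 * 0x010000000001000100000100) +
      (a2 * 0x010001000000000100010000 + a3 * 0x000100010000010001000000) := by
  rw [l1_mulW_def]
  exact ⟨_, _, _, _, Nat.and_le_right, Nat.and_le_right, Nat.and_le_right, Nat.and_le_right, rfl⟩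

/-- the slot of a word -/
noncomputable def l1_x (W d : ℕ) : ℕ := Nat.land (Nat.shiftRight W d) 65535

theorem l1_x_eq (W d : ℕ) : l1_x W d = W / 2 ^ d % 65536 := by
  have h1 : (65535 : ℕ) = 2 ^ 16 - 1 := by norm_num
  show W >>> d &&& 65535 = _
  rw [h1, Nat.and_two_pow_sub_one_eq_mod, Nat.shiftRight_eq_div_pow]

theorem l1_dig (k s R : ℕ) (hs : s < 65536) :
    (s + 65536 * R) / 2 ^ (16 * (k + 1)) = R / 2 ^ (16 * k) := by
  have h1 : 2 ^ (16 * (k + 1)) = 65536 * 2 ^ (16 * k) := by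
    have : 16 * (k + 1) = 16 + 16 * k := by ring
    rw [this, pow_add]
    norm_num
  rw [h1, ← Nat.div_div_eq_div_mul]
  congr 1
  omega

theorem l1_dig0 (s R : ℕ) (hs : s < 65536) : (s + 65536 * R) / 2 ^ (16 * 0) % 65536 = s := by
  rw [Nat.mul_zero, pow_zero, Nat.div_one]
  omega

theorem l1_x_mul {a0 a1 a2 a3 : ℕ} (h0 : a0 ≤ 15) (h1 : a1 ≤ 15) (h2 : a2 ≤ 15) (h3 : a3 ≤ 15)
    {W : ℕ} (hW : W = (a0 * 0x000100000100010000000001 + a1 * 0x010000000001000100000100) +
      (a2 * 0x010001000000000100010000 + a3 * 0x000100010000010001000000)) :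
    l1_x W 96 = 0 ∧ ∀ k < 6, l1_x W (16 * k) % 256 ≤ 30 ∧ l1_x W (16 * k) / 256 ≤ 30 ∧
      ((l1_x W (16 * k) % 256 : ℕ) : ℝ) - ((l1_x W (16 * k) / 256 : ℕ) : ℝ) =
        ((a0 : ℝ) - a1) * Ux k + ((a2 : ℝ) - a3) * Uy k := by
  obtain ⟨s0, hs0⟩ : ∃ x, x = a0 + 256 * a1 := ⟨_, rfl⟩
  obtain ⟨s1, hs1⟩ : ∃ x, x = a2 + 256 * a3 := ⟨_, rfl⟩
  obtain ⟨s2, hs2⟩ : ∃ x, x = (a1 + a2) + 256 * (a0 + a3) := ⟨_, rfl⟩
  obtain ⟨s3, hs3⟩ : ∃ x, x = a1 + 256 * a0 := ⟨_, rfl⟩
  obtain ⟨s4, hs4⟩ : ∃ x, x = a3 + 256 * a2 := ⟨_, rfl⟩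
  obtain ⟨s5, hs5⟩ : ∃ x, x = (a0 + a3) + 256 * (a1 + a2) := ⟨_, rfl⟩
  have hW' : W = s0 + 65536 * (s1 + 65536 * (s2 + 65536 * (s3 + 65536 * (s4 + 65536 *
      (s5 + 65536 * 0))))) := by
    rw [hW, hs0, hs1, hs2, hs3, hs4, hs5]
    ring
  have b0 : s0 < 65536 := by omega
  have b1 : s1 < 65536 := by omega
  have b2 : s2 < 65536 := by omega
  have b3 : s3 < 65536 := by omega
  have b4 : s4 < 65536 := by omega
  have b5 : s5 < 65536 := by omega
  clear hW
  constructor
  · rw [l1_x_eq, hW', show (96 : ℕ) = 16 * (5 + 1) from rfl, l1_dig _ _ _ b0, l1_dig 4 _ _ b1,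
      l1_dig 3 _ _ b2, l1_dig 2 _ _ b3, l1_dig 1 _ _ b4, l1_dig 0 _ _ b5]
    rfl
  · intro k hk
    rw [l1_x_eq]
    have hcase : ∃ lo hi : ℕ, W / 2 ^ (16 * k) % 65536 = lo + 256 * hi ∧ lo ≤ 30 ∧ hi ≤ 30 ∧
        (lo : ℝ) - hi = ((a0 : ℝ) - a1) * Ux k + ((a2 : ℝ) - a3) * Uy k := by
      interval_cases k
      · refine ⟨a0, a1, ?_, by omega, by omega, by norm_num [Ux, Uy]⟩
        rw [hW', l1_dig0 _ _ b0, hs0]
      · refine ⟨a2, a3, ?_, by omega, by omega, by norm_num [Ux, Uy]⟩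
        rw [hW', l1_dig 0 _ _ b0, l1_dig0 _ _ b1, hs1]
      · refine ⟨a1 + a2, a0 + a3, ?_, by omega, by omega, by push_cast; norm_num [Ux, Uy]; ring⟩
        rw [hW', l1_dig 1 _ _ b0, l1_dig 0 _ _ b1, l1_dig0 _ _ b2, hs2]
      · refine ⟨a1, a0, ?_, by omega, by omega, by norm_num [Ux, Uy]⟩
        rw [hW', l1_dig 2 _ _ b0, l1_dig 1 _ _ b1, l1_dig 0 _ _ b2, l1_dig0 _ _ b3, hs3]
      · refine ⟨a3, a2, ?_, by omega, by omega, by norm_num [Ux, Uy]⟩
        rw [hW', l1_dig 3 _ _ b0, l1_dig 2 _ _ b1, l1_dig 1 _ _ b2, l1_dig 0 _ _ b3,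
          l1_dig0 _ _ b4, hs4]
      · refine ⟨a0 + a3, a1 + a2, ?_, by omega, by omega, by push_cast; norm_num [Ux, Uy]; ring⟩
        rw [hW', l1_dig 4 _ _ b0, l1_dig 3 _ _ b1, l1_dig 2 _ _ b2, l1_dig 1 _ _ b3,
          l1_dig 0 _ _ b4, l1_dig0 _ _ b5, hs5]
    obtain ⟨lo, hi, e, c1, c2, c3⟩ := hcase
    have e1 : W / 2 ^ (16 * k) % 65536 % 256 = lo := by omega
    have e2 : W / 2 ^ (16 * k) % 65536 / 256 = hi := by omega
    rw [e1, e2]
    exact ⟨c1, c2, c3⟩

/-! ### darts -/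

theorem l1_corA (f : ℕ) (ws : List ℕ) : ∀ (rc : List ℕ) (w : ℕ),
    (corA f ws rc w).map (fun q => (q.1, q.2.2.1)) = l1_darts ws w := by
  induction ws with
  | nil => intro rc w; rfl
  | cons v rest ih =>
    intro rc w
    rw [corA, List.map_cons, ih, l1_darts]

theorem l1_allC (fs : List Fa) : (allC fs).map (fun q => (q.1, q.2.2.1)) =
    fs.flatMap (fun F => l1_darts F.ws F.a) := by
  rw [allC, List.map_flatMap]
  congr 1
  funext F
  exact l1_corA _ _ _ _

theorem l1_con_keys (W : ℕ) (ws : List ℕ) : ∀ (dr : List ℕ) (w : ℕ),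
    (l1_con W ws dr w).map Prod.fst = (l1_darts ws w).map (fun p => 16 * p.1 + p.2) := by
  induction ws with
  | nil => intro dr w; rfl
  | cons v rest ih =>
    intro dr w
    rw [l1_con, l1_darts, List.map_cons, List.map_cons, ih]

theorem l1_cons_keys (fs : List Fa) : ∀ mu : List ℕ,
    (l1_cons fs mu).map Prod.fst = (l1_ds fs mu).map (fun p => 16 * p.1 + p.2) := by
  induction fs with
  | nil => intro mu; rfl
  | cons F fs ih =>
    intro mu
    cases mu with
    | nil => rfl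
    | cons m mu =>
      rw [l1_cons, l1_ds, List.map_append, List.map_append, ih]
      split_ifs
      · rfl
      · rw [l1_con_keys]

theorem l1_ds_sublist (fs : List Fa) : ∀ mu : List ℕ,
    (l1_ds fs mu).Sublist (fs.flatMap (fun F => l1_darts F.ws F.a)) := by
  induction fs with
  | nil => intro mu; exact List.Sublist.slnil
  | cons F fs ih =>
    intro mu
    cases mu with
    | nil => exact List.nil_sublist _
    | cons m mu =>
      rw [l1_ds, List.flatMap_cons]
      refine List.Sublist.append ?_ (ih mu)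
      split_ifs
      · exact List.nil_sublist _
      · exact List.Sublist.refl _

theorem l1_darts_mem {ws : List ℕ} {w : ℕ} {p : ℕ × ℕ} (hp : p ∈ l1_darts ws w) :
    p.1 ∈ ws ∧ (p.2 = w ∨ p.2 ∈ ws) := by
  induction ws generalizing w with
  | nil => exact absurd hp List.not_mem_nil
  | cons v rest ih =>
    rcases List.mem_cons.mp hp with rfl | hp
    · exact ⟨List.mem_cons_self, Or.inl rfl⟩
    · obtain ⟨h1, h2⟩ := ih hp
      refine ⟨List.mem_cons_of_mem _ h1, Or.inr ?_⟩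
      rcases h2 with h2 | h2
      · rw [h2]; exact List.mem_cons_self
      · exact List.mem_cons_of_mem _ h2

/-- the darts of placed faces are darts of the model -/
theorem l1_ds_pos (h : Good M s lab) {mu : List ℕ} {p : ℕ × ℕ} (hp : p ∈ l1_ds s.fs mu) :
    p.1 < 16 ∧ p.2 < 16 ∧ 0 < M.len (lab p.1) (lab p.2) := by
  have h1 := (l1_ds_sublist s.fs mu).subset hp
  have h1' := h1
  rw [← l1_allC] at h1'
  obtain ⟨q, hq, hqp⟩ := List.mem_map.mp h1'
  rw [allC, List.mem_flatMap] at hq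
  obtain ⟨F, hF, hqF⟩ := hq
  have hpF : p ∈ l1_darts F.ws F.a := by
    rw [← l1_corA (hd 0 F.ws) F.ws F.rc F.a]
    exact List.mem_map.mpr ⟨q, hqF, hqp⟩
  obtain ⟨h2, h3⟩ := l1_darts_mem hpF
  have ha : F.a ∈ F.ws := by
    have := (h.sp.wf F hF).last
    exact List.mem_of_getLast? this
  have h4 := h.sp.lt F hF p.1 h2
  have h5 : p.2 < s.n := by
    rcases h3 with h3 | h3
    · rw [h3]; exact h.sp.lt F hF _ ha
    · exact h.sp.lt F hF _ h3
  have hn := h.sp.n16
  refine ⟨by omega, by omega, ?_⟩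
  obtain ⟨v, u, w, c⟩ := q
  simp only at hqp
  subst hqp
  obtain ⟨d, e, r, hf⟩ := cors_real (h.sp.wf F hF) (h.face F hF) hqF
  have h6 := M.rot _ _ hf
  exact M.len_pos _ _ _ h6

/-! ### real sums -/

/-- the length at a slot -/
noncomputable def l1_L (M : Model V) (lab : ℕ → V) (i : ℕ) : ℝ := M.len (lab (i / 16)) (lab (i % 16))

/-- value of a list of contributions -/
noncomputable def l1_val (M : Model V) (lab : ℕ → V) (L : List (ℕ × ℕ)) : ℝ :=
  (L.map (fun p => (((p.2 % 256 : ℕ) : ℝ) - ((p.2 / 256 : ℕ) : ℝ)) * l1_L M lab p.1)).sum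

theorem l1_val_cons (p : ℕ × ℕ) (L : List (ℕ × ℕ)) : l1_val M lab (p :: L) =
    (((p.2 % 256 : ℕ) : ℝ) - ((p.2 / 256 : ℕ) : ℝ)) * l1_L M lab p.1 + l1_val M lab L := by
  simp [l1_val]

theorem l1_val_append (L L' : List (ℕ × ℕ)) : l1_val M lab (L ++ L') =
    l1_val M lab L + l1_val M lab L' := by
  simp [l1_val]

theorem l1_val_eq (L : List (ℕ × ℕ)) (h : ∀ p ∈ L, p.1 < 256) : l1_val M lab L =
    ∑ i ∈ Finset.range 256, ((l1_lo L i : ℝ) - l1_hi L i) * l1_L M lab i := by
  induction L with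
  | nil => simp [l1_val, l1_lo, l1_hi]
  | cons p L ih =>
    rw [l1_val_cons, ih fun p hp => h p (List.mem_cons_of_mem _ hp)]
    have h1 : ∀ i, ((l1_lo (p :: L) i : ℝ) - l1_hi (p :: L) i) * l1_L M lab i =
        (if i = p.1 then (((p.2 % 256 : ℕ) : ℝ) - ((p.2 / 256 : ℕ) : ℝ)) * l1_L M lab i else 0) +
        ((l1_lo L i : ℝ) - l1_hi L i) * l1_L M lab i := by
      intro i
      rw [l1_lo_cons, l1_hi_cons]
      by_cases hi : p.1 = i
      · rw [if_pos hi, if_pos hi, if_pos hi.symm]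
        push_cast
        ring
      · rw [if_neg hi, if_neg hi, if_neg (fun h' => hi h'.symm)]
        push_cast
        ring
    rw [Finset.sum_congr rfl fun i _ => h1 i, Finset.sum_add_distrib, Finset.sum_ite_eq',
      if_pos (Finset.mem_range.mpr (h p List.mem_cons_self))]

/-- sums over a reversed face -/
noncomputable def l1_rs (M : Model V) (lab : ℕ → V) (φ : ℕ → ℝ) : List ℕ → List ℕ → ℕ → ℝ
  | [], _, _ => 0
  | v :: rest, dr, w => M.len (lab v) (lab w) * φ (hd 96 dr) + l1_rs M lab φ rest (tl dr) v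

/-- sums over a face -/
noncomputable def l1_fs (M : Model V) (φ : ℕ → ℝ) : List V → List ℕ → V → ℝ
  | [], _, _ => 0
  | _ :: _, [], _ => 0
  | [x], d :: _, f => M.len x f * φ d
  | x :: y :: r, d :: ds, f => M.len x y * φ d + l1_fs M φ (y :: r) ds f

theorem l1_fs_append (φ : ℕ → ℝ) (v : V) (e : ℕ) (f : V) : ∀ (l : List V) (ds : List ℕ),
    l.length = ds.length → l1_fs M φ (l ++ [v]) (ds ++ [e]) f = l1_fs M φ l ds v + M.len v f * φ e
  | [], [], _ => by simp [l1_fs]
  | [], _ :: _, h => by simp at h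
  | _ :: _, [], h => by simp at h
  | [x], [d], _ => by simp [l1_fs]
  | [x], _ :: _ :: _, h => by simp at h
  | _ :: _ :: _, [_], h => by simp at h
  | x :: y :: r, d :: d' :: ds, h => by
    have ih := l1_fs_append φ v e f (y :: r) (d' :: ds) (by simpa using h)
    simp only [List.cons_append] at ih ⊢
    rw [l1_fs, ih, l1_fs]
    ring

theorem l1_rs_fs (φ : ℕ → ℝ) (ws : List ℕ) : ∀ (dr : List ℕ) (w : ℕ), ws.length = dr.length →
    l1_rs M lab φ ws dr w = l1_fs M φ (ws.reverse.map lab) dr.reverse (lab w) := by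
  induction ws with
  | nil =>
    intro dr w h
    cases dr with
    | nil => simp [l1_rs, l1_fs]
    | cons _ _ => simp at h
  | cons v rest ih =>
    intro dr w h
    cases dr with
    | nil => simp at h
    | cons d ds =>
      have h' : rest.length = ds.length := by simpa using h
      rw [l1_rs]
      have e1 : hd 96 (d :: ds) = d := rfl
      have e2 : tl (d :: ds) = ds := rfl
      rw [e1, e2, ih ds v h', List.reverse_cons, List.reverse_cons, List.map_append, List.map_cons,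
        List.map_nil, l1_fs_append]
      · ring
      · simpa using h'

theorem l1_fs_lin (φ U U' : ℕ → ℝ) (α β : ℝ) (f : V) : ∀ (l : List V) (ds : List ℕ),
    (∀ k ∈ ds, φ (16 * k) = α * U k + β * U' k) →
    l1_fs M φ l (ds.map (16 * ·)) f = α * l1_fs M U l ds f + β * l1_fs M U' l ds f
  | [], _, _ => by simp [l1_fs]
  | _ :: _, [], _ => by simp [l1_fs]
  | [x], d :: ds, h => by
    simp only [List.map_cons, l1_fs]
    rw [h d List.mem_cons_self]
    ring
  | x :: y :: r, d :: ds, h => by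
    have ih := l1_fs_lin φ U U' α β f (y :: r) ds (fun k hk => h k (List.mem_cons_of_mem _ hk))
    simp only [List.map_cons, l1_fs]
    rw [ih, h d List.mem_cons_self]
    ring

theorem l1_clos (U : ℕ → ℝ) (f : V) : ∀ (l : List (V × ℕ)) (k : ℕ),
    closAux M.len U f l k = l1_fs M U (l.map Prod.fst) (dirs (l.map Prod.snd) k) f
  | [], k => by simp [closAux, l1_fs]
  | [x], k => by simp [closAux, l1_fs, dirs]
  | x :: y :: r, k => by
    have ih := l1_clos U f (y :: r) ((k + (if y.2 = 1 then 2 else 1)) % 6)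
    rw [closAux, ih]
    simp only [List.map_cons, dirs, l1_fs]

theorem l1_dirs_lt : ∀ (l : List ℕ) (k : ℕ), k < 6 → ∀ d ∈ dirs l k, d < 6
  | [], _, _ => by simp [dirs]
  | [_], k, hk => by
    intro d hd
    simp only [dirs, List.mem_singleton] at hd
    omega
  | _ :: c :: r, k, hk => by
    intro d hd
    simp only [dirs, List.mem_cons] at hd
    rcases hd with hd | hd
    · omega
    · exact l1_dirs_lt (c :: r) _ (Nat.mod_lt _ (by norm_num)) d hd

theorem l1_dirs_length : ∀ (l : List ℕ) (k : ℕ), (dirs l k).length = l.length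
  | [], _ => rfl
  | [_], _ => rfl
  | _ :: c :: r, k => by
    rw [dirs, List.length_cons, l1_dirs_length (c :: r)]
    rfl

theorem l1_val_con (W : ℕ) (ws : List ℕ) : ∀ (dr : List ℕ) (w : ℕ), (∀ x ∈ ws, x < 16) → w < 16 →
    l1_val M lab (l1_con W ws dr w) =
      l1_rs M lab (fun d => ((l1_x W d % 256 : ℕ) : ℝ) - ((l1_x W d / 256 : ℕ) : ℝ)) ws dr w := by
  induction ws with
  | nil => intro dr w _ _; simp [l1_con, l1_val, l1_rs]
  | cons v rest ih =>
    intro dr w hws hw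
    have hv : v < 16 := hws v List.mem_cons_self
    rw [l1_con, l1_val_cons, l1_rs, ih _ _ (fun x hx => hws x (List.mem_cons_of_mem _ hx)) hv]
    have e1 : (16 * v + w) / 16 = v := by omega
    have e2 : (16 * v + w) % 16 = w := by omega
    simp only [l1_L, e1, e2]
    rw [l1_x]
    ring

/-- the value of a face is zero -/
theorem l1_val_face (h : Good M s lab) {F : Fa} (hF : F ∈ s.fs) (m : ℕ) :
    l1_val M lab (l1_con (mulW m) F.ws F.dr F.a) = 0 ∧
      ∀ p ∈ l1_con (mulW m) F.ws F.dr F.a, p.2 % 256 ≤ 30 ∧ p.2 / 256 ≤ 30 := by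
  have hW := h.sp.wf F hF
  have ha : F.a ∈ F.ws := List.mem_of_getLast? hW.last
  have hlt : ∀ x ∈ F.ws, x < 16 := fun x hx => (h.sp.lt F hF x hx).trans_le h.sp.n16
  obtain ⟨a0, a1, a2, a3, h0, h1, h2, h3, hm⟩ := l1_mulW m
  obtain ⟨hx0, hx⟩ := l1_x_mul h0 h1 h2 h3 hm
  have hmem : ∀ (ws dr : List ℕ) (w : ℕ) (p : ℕ × ℕ), p ∈ l1_con (mulW m) ws dr w →
      p.2 = l1_x (mulW m) 96 ∨ ∃ d ∈ dr, p.2 = l1_x (mulW m) d := by
    intro ws
    induction ws with
    | nil => intro dr w p hp; exact absurd hp List.not_mem_nil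
    | cons v rest ih =>
      intro dr w p hp
      rw [l1_con] at hp
      rcases List.mem_cons.mp hp with rfl | hp
      · cases dr with
        | nil => exact Or.inl rfl
        | cons d ds => exact Or.inr ⟨d, List.mem_cons_self, rfl⟩
      · rcases ih _ _ p hp with h4 | ⟨d, hd, h4⟩
        · exact Or.inl h4
        · cases dr with
          | nil => exact absurd hd List.not_mem_nil
          | cons d' ds => exact Or.inr ⟨d, List.mem_cons_of_mem _ hd, h4⟩
  rcases h.shape F hF with hb | ⟨p, hp, hrc, hdr⟩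
  · -- the base face
    subst hb
    constructor
    · rw [l1_val_con _ _ _ _ hlt (hlt _ ha)]
      have e : (baseF).ws = [0, 1, 2] ∧ (baseF).dr = [] := ⟨rfl, rfl⟩
      rw [e.1, e.2]
      have e2 : hd 96 [] = 96 := rfl
      have e3 : tl [] = [] := rfl
      simp only [l1_rs, e2, e3, hx0]
      norm_num
    · intro q hq
      rcases hmem _ _ _ q hq with h4 | ⟨d, hd, -⟩
      · rw [h4, hx0]; norm_num
      · exact absurd hd List.not_mem_nil
  · obtain ⟨t1, t2, t3, t4, t5, t6, t7⟩ := tab_dir p hp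
    have hdirs : F.dr.reverse = (dirs F.rc.reverse 0).map (16 * ·) := by rw [hdr, hrc]; exact t2
    have hlen : F.ws.length = F.dr.length := by
      have e1 := congrArg List.length hdirs
      rw [List.length_reverse, List.length_map, l1_dirs_length, List.length_reverse] at e1
      rw [e1, hW.len]
    constructor
    · rw [l1_val_con _ _ _ _ hlt (hlt _ ha), l1_rs_fs _ _ _ _ hlen, hdirs,
        l1_fs_lin _ Ux Uy ((a0 : ℝ) - a1) ((a2 : ℝ) - a3)]
      · -- closure
        have e1 : (fwd lab F).map Prod.fst = F.ws.reverse.map lab := by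
          rw [fwd, List.map_reverse, List.map_fst_zip, List.map_reverse]
          rw [List.length_map, hW.len]
        have e2 : (fwd lab F).map Prod.snd = F.rc.reverse := by
          rw [fwd, List.map_reverse, List.map_snd_zip]
          rw [List.length_map, hW.len]
        have hne : F.rc.reverse ≠ [0, 0, 0] := by
          intro h5
          have h6 : (0 : ℕ) ∈ F.rc.reverse := by rw [h5]; exact List.mem_cons_self
          rw [List.mem_reverse, hrc] at h6
          rcases t5 0 h6 with h7 | h7 <;> omega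
        have hface := h.face F hF
        have hhead : ∃ c l, fwd lab F = (lab F.a, c) :: l := by
          cases hfw : fwd lab F with
          | nil =>
            rw [hfw, List.map_nil] at e1
            have := congrArg List.length e1
            simp only [List.length_nil, List.length_map, List.length_reverse] at this
            have := hW.three
            omega
          | cons x l =>
            rw [hfw, List.map_cons] at e1
            have h8 : (F.ws.reverse.map lab).head? = some (lab F.a) := by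
              rw [List.head?_map, List.head?_reverse, hW.last]; rfl
            rw [← e1, List.head?_cons] at h8
            have h9 : x.1 = lab F.a := Option.some.inj h8
            exact ⟨x.2, l, by rw [← h9]⟩
        obtain ⟨c, l, hfw⟩ := hhead
        rw [hfw] at hface e1 e2
        have hX := M.closX _ _ hface (by rw [e2]; exact hne)
        have hY := M.closY _ _ hface (by rw [e2]; exact hne)
        rw [l1_clos, e1, e2] at hX hY
        simp only at hX hY
        rw [hX, hY]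
        ring
      · intro k hk
        have hk6 := l1_dirs_lt _ _ (by norm_num) k hk
        exact (hx k hk6).2.2
    · intro q hq
      rcases hmem _ _ _ q hq with h4 | ⟨d, hd, h4⟩
      · rw [h4, hx0]; norm_num
      · have hd' : d ∈ F.dr.reverse := List.mem_reverse.mpr hd
        rw [hdirs, List.mem_map] at hd'
        obtain ⟨k, hk, rfl⟩ := hd'
        have hk6 := l1_dirs_lt _ _ (by norm_num) k hk
        rw [h4]
        exact ⟨(hx k hk6).1, (hx k hk6).2.1⟩

theorem l1_val_cons_all (h : Good M s lab) : ∀ (fs : List Fa) (mu : List ℕ), (∀ F ∈ fs, F ∈ s.fs) →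
    l1_val M lab (l1_cons fs mu) = 0 ∧
      ∀ p ∈ l1_cons fs mu, p.2 % 256 ≤ 30 ∧ p.2 / 256 ≤ 30
  | [], _, _ => ⟨by simp [l1_cons, l1_val], fun p hp => absurd hp List.not_mem_nil⟩
  | _ :: _, [], _ => ⟨by simp [l1_cons, l1_val], fun p hp => absurd hp List.not_mem_nil⟩
  | F :: fs, m :: mu, hsub => by
    have ih := l1_val_cons_all h fs mu fun F' hF' => hsub F' (List.mem_cons_of_mem _ hF')
    have hf := l1_val_face h (hsub F List.mem_cons_self) m
    rw [l1_cons]
    split_ifs with hm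
    · rw [List.nil_append]; exact ih
    · refine ⟨by rw [l1_val_append, ih.1, hf.1, add_zero], fun p hp => ?_⟩
      rcases List.mem_append.mp hp with hp | hp
      · exact hf.2 p hp
      · exact ih.2 p hp

theorem l1_sum256 (f : ℕ → ℝ) : ∑ i ∈ Finset.range 256, f i =
    ∑ v ∈ Finset.range 16, ∑ w ∈ Finset.range 16, f (16 * v + w) := by
  have h : ∀ n : ℕ, ∑ i ∈ Finset.range (16 * n), f i =
      ∑ v ∈ Finset.range n, ∑ w ∈ Finset.range 16, f (16 * v + w) := by
    intro n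
    induction n with
    | zero => simp
    | succ n ih =>
      rw [Nat.mul_succ, Finset.sum_range_add, ih,
        Finset.sum_range_succ (fun v => ∑ w ∈ Finset.range 16, f (16 * v + w)) n]
  exact h 16

theorem l1_symm_sum (c L : ℕ → ℕ → ℝ) (hL : ∀ v w, L v w = L w v) (n : ℕ) :
    2 * ∑ v ∈ Finset.range n, ∑ w ∈ Finset.range n, c v w * L v w =
      ∑ v ∈ Finset.range n, ∑ w ∈ Finset.range n, (c v w + c w v) * L v w := by
  have h4 : ∑ v ∈ Finset.range n, ∑ w ∈ Finset.range n, c v w * L v w =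
      ∑ v ∈ Finset.range n, ∑ w ∈ Finset.range n, c w v * L v w := by
    rw [Finset.sum_comm]
    refine Finset.sum_congr rfl fun v _ => Finset.sum_congr rfl fun w _ => ?_
    rw [hL]
  rw [two_mul]
  nth_rewrite 2 [h4]
  rw [← Finset.sum_add_distrib]
  refine Finset.sum_congr rfl fun v _ => ?_
  rw [← Finset.sum_add_distrib]
  refine Finset.sum_congr rfl fun w _ => ?_
  ring

theorem l1_final (c L : ℕ → ℕ → ℝ) (PL : List (ℕ × ℕ)) (hL : ∀ v w, L v w = L w v)
    (hpos : ∀ p ∈ PL, p.1 < 16 ∧ p.2 < 16 ∧ 0 < L p.1 p.2)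
    (hD : ∀ p ∈ PL, 0 ≤ c p.1 p.2 + c p.2 p.1)
    (hzero : ∀ v < 16, ∀ w < 16, (v, w) ∉ PL → c v w = 0) :
    0 ≤ 2 * ∑ v ∈ Finset.range 16, ∑ w ∈ Finset.range 16, c v w * L v w ∧
    ((∃ p ∈ PL, 0 < c p.1 p.2 + c p.2 p.1) →
      0 < 2 * ∑ v ∈ Finset.range 16, ∑ w ∈ Finset.range 16, c v w * L v w) := by
  have hterm : ∀ v < 16, ∀ w < 16, 0 ≤ (c v w + c w v) * L v w := by
    intro v hv w hw
    by_cases h4 : (v, w) ∈ PL
    · exact mul_nonneg (hD (v, w) h4) (hpos (v, w) h4).2.2.le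
    · by_cases h5 : (w, v) ∈ PL
      · have h6 := hD (w, v) h5
        have h7 := (hpos (w, v) h5).2.2
        simp only at h6 h7
        rw [hL] at h7
        exact mul_nonneg (by linarith) h7.le
      · rw [hzero v hv w hw h4, hzero w hw v hv h5]
        norm_num
  rw [l1_symm_sum c L hL]
  constructor
  · refine Finset.sum_nonneg fun v hv => Finset.sum_nonneg fun w hw => ?_
    exact hterm v (Finset.mem_range.mp hv) w (Finset.mem_range.mp hw)
  · rintro ⟨p, hp, hDp⟩
    have hpp := hpos p hp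
    refine Finset.sum_pos' (fun v hv => Finset.sum_nonneg fun w hw =>
      hterm v (Finset.mem_range.mp hv) w (Finset.mem_range.mp hw)) ?_
    refine ⟨p.1, Finset.mem_range.mpr hpp.1, ?_⟩
    refine Finset.sum_pos' (fun w hw => hterm p.1 hpp.1 w (Finset.mem_range.mp hw)) ?_
    exact ⟨p.2, Finset.mem_range.mpr hpp.2.1, mul_pos hDp hpp.2.2⟩

/-- contributions of the inequalities of the base -/
def l1_B (t0 t1 t2 t3 : ℕ) : List (ℕ × ℕ) :=
  [(1, t1 + 256 * (t0 + t2)), (18, t0 + 256 * (t1 + t3)), (2, t2 + t3 + 256 * t0)]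

theorem l1_T_symm (q v w : ℕ) : l1_T q v w = l1_T q w v := by
  unfold l1_T
  rw [add_comm]

theorem l1_main (h : Good M s lab) (mu : List ℕ) {t0 t1 t2 t3 : ℕ} (h0 : t0 ≤ 15) (h1 : t1 ≤ 15)
    (h2 : t2 ≤ 15) (h3 : t3 ≤ 15) : len1 s.fs mu t0 t1 t2 t3 = false := by
  rw [Bool.eq_false_iff]
  intro htrue
  set CL : List (ℕ × ℕ) := l1_B t0 t1 t2 t3 ++ l1_cons s.fs mu with hCL
  -- the final word
  set q : ℕ := faceQs s.fs mu (l1_q0 t0 t1 t2 t3) with hq
  have hqs : q = l1_qs CL := by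
    rw [hq, l1_faceQs, hCL, l1_qs_append]
    congr 1
  -- the checks
  rw [l1_len1, ← hq, l1_len2, Nat.beq_eq] at htrue
  have hc1 := l1_chkFace q [0, 1, 2] 2 _ (by rw [htrue]; norm_num)
  have hc2 := l1_chkFaces q s.fs mu _ hc1.1
  set PL : List (ℕ × ℕ) := [(0, 1), (1, 2), (0, 2)] ++ l1_ds s.fs mu with hPL
  have hgood : ∀ p ∈ PL, l1_T q p.1 p.2 >>> 8 ≤ l1_T q p.1 p.2 &&& 255 := by
    intro p hp
    rcases List.mem_append.mp hp with hp | hp
    · have hb := hc1.2.1
      simp only [l1_darts, List.mem_cons, List.not_mem_nil, or_false] at hb hp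
      rcases hp with rfl | rfl | rfl
      · have := hb (1, 0) (by simp)
        rwa [l1_T_symm] at this
      · have := hb (2, 1) (by simp)
        rwa [l1_T_symm] at this
      · exact hb (0, 2) (by simp)
    · exact hc2.2.1 p hp
  have hstrict : t0 + t3 ≠ 0 ∨ ∃ p ∈ PL, l1_T q p.1 p.2 >>> 8 < l1_T q p.1 p.2 &&& 255 := by
    rcases hc1.2.2 htrue with h4 | ⟨p, hp, h4⟩
    · rcases hc2.2.2 h4 with h5 | ⟨p, hp, h5⟩
      · left
        intro h6
        rw [ifb_eq] at h5
        have h7 : Nat.beq (Nat.add t0 t3) 0 = true := by rw [Nat.beq_eq]; exact h6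
        rw [if_pos h7] at h5
        omega
      · exact Or.inr ⟨p, List.mem_append_right _ hp, h5⟩
    · right
      simp only [l1_darts, List.mem_cons, List.not_mem_nil, or_false] at hp
      rcases hp with rfl | rfl | rfl
      · exact ⟨(0, 2), by simp [hPL], h4⟩
      · refine ⟨(0, 1), by simp [hPL], ?_⟩
        rw [l1_T_symm]; exact h4
      · refine ⟨(1, 2), by simp [hPL], ?_⟩
        rw [l1_T_symm]; exact h4
  -- lengths
  have e01 : 0 < M.len (lab 0) (lab 1) := by
    have hb := M.rot _ _ M.base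
    have := M.len_pos _ _ _ hb
    rw [h.b0, h.b1, M.len_symm]
    exact this
  have e12 : 0 < M.len (lab 1) (lab 2) := by
    have := M.len_pos _ _ _ M.base
    rw [h.b1, h.b2, M.len_symm]
    exact this
  have e02 : 0 < M.len (lab 0) (lab 2) := by
    have hb := M.rot _ _ (M.rot _ _ M.base)
    have := M.len_pos _ _ _ hb
    rw [h.b0, h.b2]
    exact this
  have hPLpos : ∀ p ∈ PL, p.1 < 16 ∧ p.2 < 16 ∧ 0 < M.len (lab p.1) (lab p.2) := by
    intro p hp
    rcases List.mem_append.mp hp with hp | hp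
    · simp only [List.mem_cons, List.not_mem_nil, or_false] at hp
      rcases hp with rfl | rfl | rfl
      · exact ⟨by norm_num, by norm_num, e01⟩
      · exact ⟨by norm_num, by norm_num, e12⟩
      · exact ⟨by norm_num, by norm_num, e02⟩
    · exact l1_ds_pos h hp
  -- keys
  have hkeys : CL.map Prod.fst = PL.map (fun p => 16 * p.1 + p.2) := by
    rw [hCL, hPL, List.map_append, List.map_append, l1_cons_keys]
    rfl
  have hlt256 : ∀ p ∈ CL, p.1 < 256 := by
    intro p hp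
    have h4 : p.1 ∈ CL.map Prod.fst := List.mem_map.mpr ⟨p, hp, rfl⟩
    rw [hkeys, List.mem_map] at h4
    obtain ⟨r, hr, hrp⟩ := h4
    have := hPLpos r hr
    omega
  -- bytes
  have hfaces := l1_val_cons_all h s.fs mu fun F hF => hF
  have hnodup : ((l1_cons s.fs mu).map Prod.fst).Nodup := by
    rw [l1_cons_keys]
    have h4 : (l1_ds s.fs mu).Nodup := by
      refine (l1_ds_sublist s.fs mu).nodup ?_
      rw [← l1_allC]
      exact h.sp.nd'
    refine List.Nodup.map_on ?_ h4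
    intro a ha b hb hab
    have h5 := l1_ds_pos h ha
    have h6 := l1_ds_pos h hb
    ext <;> omega
  have hB1 := l1_bound (l1_cons s.fs mu) hnodup hfaces.2
  have hB2 := l1_bound (l1_B t0 t1 t2 t3) (by simp [l1_B]) (B := 30) (by
    intro p hp
    simp only [l1_B, List.mem_cons, List.not_mem_nil, or_false] at hp
    rcases hp with rfl | rfl | rfl
    · simp only; omega
    · simp only; omega
    · simp only; omega)
  have hbd : ∀ i, l1_lo CL i ≤ 60 ∧ l1_hi CL i ≤ 60 := by
    intro i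
    rw [hCL, l1_lo_append, l1_hi_append]
    have := hB1 i
    have := hB2 i
    omega
  have hbytes := l1_bytes CL fun i => by
    have := hbd i
    omega
  rw [← hqs] at hbytes
  have hTb : ∀ v w, l1_T q v w >>> 8 = l1_hi CL (16 * v + w) + l1_hi CL (16 * w + v) ∧
      l1_T q v w &&& 255 = l1_lo CL (16 * v + w) + l1_lo CL (16 * w + v) := by
    intro v w
    refine l1_T_bytes (hbytes _).1 (hbytes _).2 (hbytes _).1 (hbytes _).2 ?_
    have := hbd (16 * v + w)
    have := hbd (16 * w + v)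
    omega
  -- the value
  set c : ℕ → ℕ → ℝ := fun v w => (l1_lo CL (16 * v + w) : ℝ) - l1_hi CL (16 * v + w) with hc
  have hD : ∀ p ∈ PL, 0 ≤ c p.1 p.2 + c p.2 p.1 := by
    intro p hp
    have h4 := hgood p hp
    rw [(hTb _ _).1, (hTb _ _).2] at h4
    have h5 : ((l1_hi CL (16 * p.1 + p.2) + l1_hi CL (16 * p.2 + p.1) : ℕ) : ℝ) ≤
        ((l1_lo CL (16 * p.1 + p.2) + l1_lo CL (16 * p.2 + p.1) : ℕ) : ℝ) := by exact_mod_cast h4
    push_cast at h5
    simp only [hc]
    linarith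
  have hzero : ∀ v < 16, ∀ w < 16, (v, w) ∉ PL → c v w = 0 := by
    intro v hv w hw hvw
    have h4 : 16 * v + w ∉ CL.map Prod.fst := by
      rw [hkeys, List.mem_map]
      rintro ⟨r, hr, hrp⟩
      have h5 := hPLpos r hr
      refine hvw ?_
      have h6 : r = (v, w) := by
        ext <;> simp only <;> omega
      rw [← h6]; exact hr
    obtain ⟨h5, h6⟩ := l1_zero CL h4
    simp only [hc, h5, h6]
    norm_num
  have hfin := l1_final c (fun v w => M.len (lab v) (lab w)) PL (fun v w => M.len_symm _ _) hPLpos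
    hD hzero
  set S : ℝ := ∑ v ∈ Finset.range 16, ∑ w ∈ Finset.range 16, c v w * M.len (lab v) (lab w) with hS
  -- S in terms of the value of CL
  have hSval : S = l1_val M lab CL := by
    rw [l1_val_eq CL hlt256]
    rw [l1_sum256]
    refine Finset.sum_congr rfl fun v _ => Finset.sum_congr rfl fun w hw => ?_
    have hw' := Finset.mem_range.mp hw
    have e1 : (16 * v + w) / 16 = v := by omega
    have e2 : (16 * v + w) % 16 = w := by omega
    simp only [hc, l1_L, e1, e2]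
  set g : ℝ := t0 * (M.len (lab 0) (lab 1) + M.len (lab 0) (lab 2) - M.len (lab 1) (lab 2)) +
    t1 * (M.len (lab 1) (lab 2) - M.len (lab 0) (lab 1)) +
    t2 * (M.len (lab 0) (lab 1) - M.len (lab 0) (lab 2)) +
    t3 * (M.len (lab 1) (lab 2) - M.len (lab 0) (lab 2)) with hg
  have hval : l1_val M lab CL = -g := by
    rw [hCL, l1_val_append, hfaces.1, add_zero]
    simp only [l1_B, l1_val_cons, l1_L]
    have hnil : l1_val M lab [] = 0 := by simp [l1_val]
    rw [hnil]
    have b1 : (t1 + 256 * (t0 + t2)) % 256 = t1 ∧ (t1 + 256 * (t0 + t2)) / 256 = t0 + t2 := by omega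
    have b2 : (t0 + 256 * (t1 + t3)) % 256 = t0 ∧ (t0 + 256 * (t1 + t3)) / 256 = t1 + t3 := by omega
    have b3 : (t2 + t3 + 256 * t0) % 256 = t2 + t3 ∧ (t2 + t3 + 256 * t0) / 256 = t0 := by omega
    rw [b1.1, b1.2, b2.1, b2.2, b3.1, b3.2]
    have d1 : (1 : ℕ) / 16 = 0 := by norm_num
    have d2 : (1 : ℕ) % 16 = 1 := by norm_num
    have d3 : (18 : ℕ) / 16 = 1 := by norm_num
    have d4 : (18 : ℕ) % 16 = 2 := by norm_num
    rw [d1, d2, d3, d4, hg]
    push_cast
    ring
  have l1' := M.len1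
  have l2' := M.len2
  have l3' := M.len3
  have l4' := M.len4
  rw [← h.b0, ← h.b1, ← h.b2] at l1'
  rw [← h.b0, ← h.b1, ← h.b2] at l2'
  rw [← h.b0, ← h.b1, ← h.b2] at l3'
  rw [← h.b0, ← h.b1, ← h.b2] at l4'
  have g0 : 0 ≤ (t0 : ℝ) * (M.len (lab 0) (lab 1) + M.len (lab 0) (lab 2) - M.len (lab 1) (lab 2)) :=
    mul_nonneg (Nat.cast_nonneg _) (by linarith)
  have g1 : 0 ≤ (t1 : ℝ) * (M.len (lab 1) (lab 2) - M.len (lab 0) (lab 1)) :=
    mul_nonneg (Nat.cast_nonneg _) (by linarith)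
  have g2 : 0 ≤ (t2 : ℝ) * (M.len (lab 0) (lab 1) - M.len (lab 0) (lab 2)) :=
    mul_nonneg (Nat.cast_nonneg _) (by linarith)
  have g3 : 0 ≤ (t3 : ℝ) * (M.len (lab 1) (lab 2) - M.len (lab 0) (lab 2)) :=
    mul_nonneg (Nat.cast_nonneg _) (by linarith)
  rcases hstrict with h4 | ⟨p, hp, h4⟩
  · have hgpos : 0 < g := by
      rcases Nat.eq_zero_or_pos t0 with h5 | h5
      · have h6 : 0 < t3 := by omega
        have h7 : 0 < (t3 : ℝ) * (M.len (lab 1) (lab 2) - M.len (lab 0) (lab 2)) :=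
          mul_pos (by exact_mod_cast h6) (by linarith)
        rw [hg]; linarith
      · have h7 : 0 < (t0 : ℝ) * (M.len (lab 0) (lab 1) + M.len (lab 0) (lab 2) -
            M.len (lab 1) (lab 2)) := mul_pos (by exact_mod_cast h5) (by linarith)
        rw [hg]; linarith
    have hSnn : 0 ≤ 2 * S := hfin.1
    rw [hSval, hval] at hSnn
    linarith
  · have hgnn : 0 ≤ g := by rw [hg]; linarith
    have hDp : 0 < c p.1 p.2 + c p.2 p.1 := by
      rw [(hTb _ _).1, (hTb _ _).2] at h4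
      have h5 : ((l1_hi CL (16 * p.1 + p.2) + l1_hi CL (16 * p.2 + p.1) : ℕ) : ℝ) <
          ((l1_lo CL (16 * p.1 + p.2) + l1_lo CL (16 * p.2 + p.1) : ℕ) : ℝ) := by exact_mod_cast h4
      push_cast at h5
      simp only [hc]
      linarith
    have hSpos : 0 < 2 * S := hfin.2 ⟨p, hp, hDp⟩
    rw [hSval, hval] at hSpos
    linarith

theorem lenCheck_sound (h : Good M s lab) (mu : List ℕ) (t : ℕ) : lenCheck s mu t = false := by
  rw [l1_lenCheck]
  exact l1_main h mu Nat.and_le_right Nat.and_le_right Nat.and_le_right Nat.and_le_right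

end Chk
end Pool.Agent.Lib.MP_ba95e8_co
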