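import Pool.Agent.Lib.MP_ba95e8_co.Spec

/-!
Deltahedral domes: the tables of the checker are right.
-/

namespace Pool.Agent.Lib.MP_ba95e8_co
namespace Chk

theorem tab_cov : ∀ v < 4, ∀ q ∈ BPk v, ∃ tb < 9,
    (∀ r < q.1.length, covB (q.2.rotate r) tb (q.1.rotate r) 0 (triet v) = true) ∧
    ∀ n1 < 6, ∀ n2 < 3, ∀ g < 7, Feas (q.1.count 1) (q.1.count 2) n1 n2 g →
      (tyTt v).testBit (16 * (n1 + 8 * n2 + 32 * g) + tb) = true := by
  decide +kernel

/-- acceptance bits are right for the pattern `q` -/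
noncomputable def accB (v : ℕ) (q : List ℕ) : Bool :=
  (List.range 6).all fun n1 => (List.range 3).all fun n2 => (List.range 7).all fun g =>
    (List.range 3).all fun t =>
      ((decide (1 ≤ g ∧ t ≤ g + 1 ∧ Feas (q.count 1) (q.count 2) (n1 + 1) n2 (g + 1 - t)) →
        (awTt v).testBit (8 * (n1 + 8 * n2 + 32 * g) + t)) &&
      (decide (1 ≤ g ∧ t ≤ g + 1 ∧ Feas (q.count 1) (q.count 2) n1 (n2 + 1) (g + 1 - t)) →
        (awTt v).testBit (8 * (n1 + 8 * n2 + 32 * g) + (3 + t))))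

theorem tab_acc_aux : ∀ v < 4, ∀ q ∈ BPk v, accB v q.1 = true := by
  decide +kernel

theorem tab_acc : ∀ v < 4, ∀ q ∈ BPk v, ∀ n1 < 6, ∀ n2 < 3, ∀ g < 7, ∀ c < 2, ∀ t < 3,
    1 ≤ g → t ≤ g + 1 →
    Feas (q.1.count 1) (q.1.count 2) (n1 + (if c = 0 then 1 else 0)) (n2 + (if c = 0 then 0 else 1))
      (g + 1 - t) →
    (awTt v).testBit (8 * (n1 + 8 * n2 + 32 * g) + (3 * c + t)) = true := by
  intro v hv q hq n1 h1 n2 h2 g hg c hc t ht hg1 htg hF
  have h := tab_acc_aux v hv q hq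
  simp only [accB, List.all_eq_true, List.mem_range] at h
  have h3 := h n1 h1 n2 h2 g hg t ht
  rw [Bool.and_eq_true] at h3
  obtain ⟨h4, h5⟩ := h3
  simp only [decide_eq_true_eq] at h4 h5
  interval_cases c
  · simpa using h4 ⟨hg1, htg, by simpa using hF⟩
  · simpa using h5 ⟨hg1, htg, by simpa using hF⟩

theorem tab_len : ∀ v < 4, ∀ q ∈ BPk v, q.2.length = q.1.length ∧ 3 ≤ q.1.length ∧ q.1.length ≤ 6 ∧
    (∀ c ∈ q.1, c ≤ 2) ∧ q.1.count 0 = (if v = 3 then 0 else 1) ∧ q.1.count 1 ≤ 5 ∧ q.1.count 2 ≤ 2 := by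
  decide +kernel

/-- directions of the sides of the face with the given codes (forward), the side after the first
corner having direction `k` -/
def dirs : List ℕ → ℕ → List ℕ
  | [], _ => []
  | [_], k => [k]
  | _ :: c :: r, k => k :: dirs (c :: r) ((k + (if c = 1 then 2 else 1)) % 6)

theorem tab_face : ∀ codes ∈ FT, ∃ p ∈ FTt, p.rc.reverse = codes ∧
    codes.map (fun c => 3 * (c - 1)) = p.e0 :: p.e1 :: p.rest := by
  decide +kernel

theorem tab_dir : ∀ p ∈ FTt, p.rc.reverse ∈ FT ∧ p.dr.reverse = (dirs p.rc.reverse 0).map (16 * ·) ∧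
    p.rc.length = p.rest.length + 2 ∧
    p.rc.reverse.map (fun c => 3 * (c - 1)) = p.e0 :: p.e1 :: p.rest ∧
    (∀ c ∈ p.rc, c = 1 ∨ c = 2) ∧ 1 ≤ p.rest.length ∧ p.rest.length ≤ 4 := by
  decide +kernel

end Chk
end Pool.Agent.Lib.MP_ba95e8_co
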