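import Pool.Agent.Lib.MP_ba95e8_co.Pack
import Pool.Agent.Lib.MP_ba95e8_co.TabCheck

/-!
Deltahedral domes, task E1: the enumeration finds every face with the conditions `Cond`.
-/

namespace Pool.Agent.Lib.MP_ba95e8_co
namespace Chk

/-! ### bits -/

theorem en_land (a b i : ℕ) : (Nat.land a b).testBit i = (a.testBit i && b.testBit i) :=
  Nat.testBit_and a b i

theorem en_lor (a b i : ℕ) : (Nat.lor a b).testBit i = (a.testBit i || b.testBit i) :=
  Nat.testBit_or a b i

theorem en_shr (a k i : ℕ) : (Nat.shiftRight a k).testBit i = a.testBit (k + i) := by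
  show (a >>> k).testBit i = _
  rw [Nat.testBit_shiftRight]

theorem en_bit (a x : ℕ) : Nat.land (Nat.shiftRight a x) 1 = (a.testBit x).toNat := by
  show (a >>> x) &&& 1 = _
  rw [Nat.and_one_is_mod, Nat.shiftRight_eq_div_pow, Nat.toNat_testBit]

theorem en_one (x y : ℕ) : (Nat.shiftLeft 1 x).testBit y = decide (x = y) := by
  show ((1 : ℕ) <<< x).testBit y = _
  rw [Nat.one_shiftLeft, Nat.testBit_two_pow]

theorem en_subland (x : ℕ) : ∀ m k : ℕ,
    (Nat.sub m (Nat.land m k)).testBit x = (m.testBit x && !k.testBit x) := by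
  induction x with
  | zero =>
    intro m k
    show (m - (m &&& k)).testBit 0 = _
    have h1 : (m &&& k) ≤ m := Nat.and_le_left
    have h2 : (m &&& k).testBit 0 = (m.testBit 0 && k.testBit 0) := Nat.testBit_and m k 0
    rw [Nat.testBit_zero, Nat.testBit_zero, Nat.testBit_zero] at h2
    rw [Nat.testBit_zero, Nat.testBit_zero, Nat.testBit_zero]
    rcases Nat.mod_two_eq_zero_or_one m with hm | hm <;>
      rcases Nat.mod_two_eq_zero_or_one k with hk | hk <;>
      simp only [hm, hk, decide_true, decide_false, Bool.and_true, Bool.and_false,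
        Bool.not_true, Bool.not_false, decide_eq_true_eq, decide_eq_false_iff_not,
        zero_ne_one] at h2 ⊢ <;> omega
  | succ x ih =>
    intro m k
    show (m - (m &&& k)).testBit (x + 1) = _
    rw [Nat.testBit_succ, Nat.testBit_succ, Nat.testBit_succ]
    have h1 : (m &&& k) ≤ m := Nat.and_le_left
    have h2 : (m &&& k) / 2 = m / 2 &&& k / 2 := Nat.and_div_two
    have h3 : (m &&& k) % 2 ≤ m % 2 := by
      have h4 : (m &&& k).testBit 0 = (m.testBit 0 && k.testBit 0) := Nat.testBit_and m k 0
      rw [Nat.testBit_zero, Nat.testBit_zero, Nat.testBit_zero] at h4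
      rcases Nat.mod_two_eq_zero_or_one m with hm | hm
      · rw [hm] at h4
        simp only [zero_ne_one, decide_false, Bool.false_and, decide_eq_false_iff_not] at h4
        omega
      · omega
    have h5 : (m - (m &&& k)) / 2 = m / 2 - (m / 2 &&& k / 2) := by
      rw [← h2]; omega
    rw [h5]
    exact ih (m / 2) (k / 2)

theorem en_add_shl (r K m i : ℕ) (h : r < 2 ^ m) :
    (r + K <<< m).testBit i = if i < m then r.testBit i else K.testBit (i - m) := by
  rw [Nat.shiftLeft_eq, Nat.add_comm, Nat.mul_comm]
  exact Nat.testBit_two_pow_mul_add K h i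

theorem en_beq3 {aw k : ℕ} (j : ℕ) (hj : j < 2) (h : aw.testBit (k + j) = true) :
    Nat.beq (Nat.land (Nat.shiftRight aw k) 3) 0 = false := by
  cases hb : Nat.beq (Nat.land (Nat.shiftRight aw k) 3) 0 with
  | false => rfl
  | true =>
    exfalso
    have h0 : Nat.land (Nat.shiftRight aw k) 3 = 0 := Nat.eq_of_beq_eq_true hb
    have h1 : (Nat.land (Nat.shiftRight aw k) 3).testBit j = true := by
      rw [en_land, en_shr, h]
      interval_cases j <;> rfl
    rw [h0] at h1
    simp at h1

theorem en_ge_testBit {m x : ℕ} (h : m.testBit x = true) : 2 ^ x ≤ m :=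
  Nat.ge_two_pow_of_testBit h

/-! ### the acceptance word -/

theorem en_awMask_succ (cnt n : ℕ) : awMask awTt cnt (n + 1) =
    awMask awTt cnt n + (Nat.land (Nat.shiftRight (awTt n) (Nat.mul 8 (dg cnt n))) 255) <<< (8 * n) := by
  rw [← land_shr]
  rfl

theorem en_byte (a : ℕ) (j : ℕ) : (Nat.land a 255).testBit j = (decide (j < 8) && a.testBit j) := by
  rw [en_land]
  have : (255 : ℕ) = 2 ^ 8 - 1 := rfl
  rw [this, Nat.testBit_two_pow_sub_one, Bool.and_comm]

theorem en_awMask (cnt : ℕ) : ∀ n, awMask awTt cnt n < 2 ^ (8 * n) ∧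
    ∀ v j, v < n → j < 8 → (awMask awTt cnt n).testBit (8 * v + j) =
      (awTt v).testBit (8 * dg cnt v + j) := by
  intro n
  induction n with
  | zero => exact ⟨by show (0 : ℕ) < 1; norm_num, fun v j hv => by omega⟩
  | succ n ih =>
    obtain ⟨ih1, ih2⟩ := ih
    have hb : Nat.land (Nat.shiftRight (awTt n) (Nat.mul 8 (dg cnt n))) 255 < 256 := by
      have : Nat.land (Nat.shiftRight (awTt n) (Nat.mul 8 (dg cnt n))) 255 ≤ 255 :=
        Nat.and_le_right
      omega
    constructor
    · rw [en_awMask_succ, Nat.shiftLeft_eq]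
      have e : 2 ^ (8 * (n + 1)) = 256 * 2 ^ (8 * n) := by
        rw [show 8 * (n + 1) = 8 + 8 * n by ring, pow_add]; norm_num
      rw [e]
      have : (Nat.land (Nat.shiftRight (awTt n) (Nat.mul 8 (dg cnt n))) 255) * 2 ^ (8 * n)
          ≤ 255 * 2 ^ (8 * n) := Nat.mul_le_mul_right _ (by omega)
      omega
    · intro v j hv hj
      rw [en_awMask_succ, en_add_shl _ _ _ _ ih1]
      rcases Nat.lt_succ_iff_lt_or_eq.mp hv with h | h
      · rw [if_pos (by omega), ih2 v j h hj]
      · subst h
        rw [if_neg (by omega), show 8 * v + j - 8 * v = j by omega, en_byte, en_shr]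
        simp only [hj, decide_true, Bool.true_and]
        rfl

theorem en_K (i j : ℕ) (hi : i < 6) (hj : j < 6) :
    (0x3f3f3f3f3f3f : ℕ).testBit (8 * i + j) = true := by
  interval_cases i <;> interval_cases j <;> decide

theorem en_aw (cnt n : ℕ) :
    (∀ v j, v < n → j < 8 →
      (Nat.add (awMask awTt cnt n) (Nat.shiftLeft 0x3f3f3f3f3f3f (Nat.mul 8 n))).testBit (8 * v + j) =
        (awTt v).testBit (8 * dg cnt v + j)) ∧
    ∀ v j, n ≤ v → v < n + 6 → j < 6 →
      (Nat.add (awMask awTt cnt n) (Nat.shiftLeft 0x3f3f3f3f3f3f (Nat.mul 8 n))).testBit (8 * v + j) =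
        true := by
  obtain ⟨h1, h2⟩ := en_awMask cnt n
  have e : Nat.add (awMask awTt cnt n) (Nat.shiftLeft 0x3f3f3f3f3f3f (Nat.mul 8 n)) =
    awMask awTt cnt n + 0x3f3f3f3f3f3f <<< (8 * n) := rfl
  constructor
  · intro v j hv hj
    rw [e, en_add_shl _ _ _ _ h1, if_pos (by omega), h2 v j hv hj]
  · intro v j hv hv' hj
    rw [e, en_add_shl _ _ _ _ h1, if_neg (by omega),
      show 8 * v + j - 8 * n = 8 * (v - n) + j by omega]
    exact en_K (v - n) j (by omega) hj

theorem en_accM_succ (aw e n : ℕ) : accM aw e (n + 1) =
    accM aw e n + (aw.testBit (8 * n + e)).toNat <<< n := by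
  rw [← en_bit]
  rfl

theorem en_accM (aw e : ℕ) : ∀ n, accM aw e n < 2 ^ n ∧
    ∀ x, x < n → (accM aw e n).testBit x = aw.testBit (8 * x + e) := by
  intro n
  induction n with
  | zero => exact ⟨by show (0 : ℕ) < 1; norm_num, fun x hx => by omega⟩
  | succ n ih =>
    obtain ⟨ih1, ih2⟩ := ih
    constructor
    · rw [en_accM_succ, Nat.shiftLeft_eq]
      have : (aw.testBit (8 * n + e)).toNat ≤ 1 := Bool.toNat_le _
      have h2 : (aw.testBit (8 * n + e)).toNat * 2 ^ n ≤ 1 * 2 ^ n := Nat.mul_le_mul_right _ this
      rw [pow_succ]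
      omega
    · intro x hx
      rw [en_accM_succ, en_add_shl _ _ _ _ ih1]
      rcases Nat.lt_succ_iff_lt_or_eq.mp hx with h | h
      · rw [if_pos h, ih2 x h]
      · subst h
        rw [if_neg (by omega), Nat.sub_self]
        cases aw.testBit (8 * x + e) <;> rfl

/-! ### the loop over bits -/

theorem en_loop_zero (f : ℕ → List Ws → List Ws) (m : ℕ) (o : List Ws) :
    bitLoop f 0 m o = o := rfl

theorem en_loop_succ (f : ℕ → List Ws → List Ws) (k m : ℕ) (o : List Ws) :
    bitLoop f (k + 1) m o = if m = 0 then o else
      bitLoop f k (m - 2 ^ Nat.log2 m) (f (Nat.log2 m) o) := by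
  have h1 : bitLoop f (k + 1) m o = Bool.rec (motive := fun _ => List Ws)
      (bitLoop f k (Nat.sub m (Nat.shiftLeft 1 (Nat.log2 m))) (f (Nat.log2 m) o)) o
      (Nat.beq m 0) := rfl
  rw [h1]
  have h2 : Nat.sub m (Nat.shiftLeft 1 (Nat.log2 m)) = m - 2 ^ Nat.log2 m := by
    show m - (1 : ℕ) <<< (Nat.log2 m) = _
    rw [Nat.one_shiftLeft]
  rw [h2]
  by_cases hm : m = 0
  · rw [if_pos hm, hm]; rfl
  · rw [if_neg hm]
    have : Nat.beq m 0 = false := by
      cases hb : Nat.beq m 0 with
      | false => rfl
      | true => exact absurd (Nat.eq_of_beq_eq_true hb) hm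
    rw [this]

theorem en_loop_mono {f : ℕ → List Ws → List Ws} {w : Ws} (hf : ∀ y o, w ∈ o → w ∈ f y o) :
    ∀ k m o, w ∈ o → w ∈ bitLoop f k m o := by
  intro k
  induction k with
  | zero => intro m o h; exact h
  | succ k ih =>
    intro m o h
    rw [en_loop_succ]
    split
    · exact h
    · exact ih _ _ (hf _ _ h)

theorem en_loop_mem {f : ℕ → List Ws → List Ws} {w : Ws} (hf : ∀ y o, w ∈ o → w ∈ f y o) {x : ℕ}
    (hx : ∀ o, w ∈ f x o) : ∀ k m o, m < 2 ^ k → m.testBit x = true → w ∈ bitLoop f k m o := by
  intro k
  induction k with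
  | zero =>
    intro m o hm hb
    have : m = 0 := by simpa using hm
    rw [this] at hb
    simp at hb
  | succ k ih =>
    intro m o hm hb
    have hm0 : m ≠ 0 := by
      rintro rfl
      simp at hb
    rw [en_loop_succ, if_neg hm0]
    by_cases hxl : Nat.log2 m = x
    · rw [hxl]
      exact en_loop_mono hf _ _ _ (hx o)
    · have h1 : 2 ^ Nat.log2 m ≤ m := Nat.log2_self_le hm0
      have h2 : m < 2 ^ (Nat.log2 m + 1) := Nat.lt_log2_self
      have h3 : Nat.log2 m < k + 1 := by
        by_contra hcon
        have h4 : 2 ^ (k + 1) ≤ 2 ^ Nat.log2 m := Nat.pow_le_pow_right (by norm_num) (by omega)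
        omega
      apply ih
      · have h4 : 2 ^ Nat.log2 m ≤ 2 ^ k := Nat.pow_le_pow_right (by norm_num) (by omega)
        rw [pow_succ] at h2
        omega
      · have h5 : m = 2 ^ Nat.log2 m + (m - 2 ^ Nat.log2 m) := by omega
        have h6 : m.testBit x = (m - 2 ^ Nat.log2 m).testBit x := by
          have h7 : x < Nat.log2 m := by
            have h8 := en_ge_testBit hb
            have h9 : 2 ^ x < 2 ^ (Nat.log2 m + 1) := by omega
            have h10 := (Nat.pow_lt_pow_iff_right (by norm_num : 1 < 2)).mp h9
            omega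
          conv_lhs => rw [h5]
          rw [Nat.testBit_two_pow_add_gt h7]
        rw [← h6]
        exact hb

/-! ### the recursion -/

theorem en_rec_one (st cof nm aw ia ea ca la ac1 ac2 e prev ix nn avail : ℕ) (ws : Ws)
    (o : List Ws) :
    enumRec st cof nm aw ia ea ca la ac1 ac2 [e] prev ix nn avail ws o =
      eL aw ia ea la (ifb (Nat.beq e 0) ac1 ac2) e ix nn avail ws o
          (Nat.land (Nat.shiftRight st (Nat.mul 16 prev)) 65535)
          (Nat.sub nm (Nat.land nm (Nat.shiftRight cof (Nat.mul 16 prev)))) := rfl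

theorem en_rec_two (st cof nm aw ia ea ca la ac1 ac2 e e' prev ix nn avail : ℕ) (r : List ℕ)
    (ws : Ws) (o : List Ws) :
    enumRec st cof nm aw ia ea ca la ac1 ac2 (e :: e' :: r) prev ix nn avail ws o =
      eN aw ca (ifb (Nat.beq e 0) ac1 ac2) e ix nn avail
        (enumRec st cof nm aw ia ea ca la ac1 ac2 (e' :: r)) ws o
          (Nat.land (Nat.shiftRight st (Nat.mul 16 prev)) 65535)
          (Nat.sub nm (Nat.land nm (Nat.shiftRight cof (Nat.mul 16 prev)))) := rfl

theorem en_eL2_mono {w : Ws} (aw ia ea e ix : ℕ) (ws : Ws) (stp m4 : ℕ) {o : List Ws}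
    (h : w ∈ o) : w ∈ eL2 aw ia ea e ix ws stp m4 o := by
  unfold eL2
  apply en_loop_mono _ _ _ _ h
  intro y o' ho
  simp only [ifb_eq]
  split
  · split
    · split
      · exact List.mem_cons_of_mem _ ho
      · exact ho
    · exact ho
  · exact ho

theorem en_rec_mono {w : Ws} (st cof nm aw ia ea ca la ac1 ac2 : ℕ) :
    ∀ (rest : List ℕ) (prev ix nn avail : ℕ) (ws : Ws) (o : List Ws), w ∈ o →
      w ∈ enumRec st cof nm aw ia ea ca la ac1 ac2 rest prev ix nn avail ws o := by
  intro rest
  induction rest with
  | nil => intro prev ix nn avail ws o h; exact h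
  | cons e r ih =>
    intro prev ix nn avail ws o h
    cases r with
    | nil =>
      rw [en_rec_one]
      unfold eL
      apply en_eL2_mono
      simp only [ifb_eq]
      split
      · split
        · exact List.mem_cons_of_mem _ h
        · exact h
      · exact h
    | cons e' r =>
      rw [en_rec_two]
      unfold eN eN2
      apply en_loop_mono
      · intro y o' ho
        simp only [ifb_eq]
        split
        · exact ih _ _ _ _ _ _ ho
        · exact ho
      · simp only [ifb_eq]
        split
        · exact ih _ _ _ _ _ _ h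
        · exact h

/-! ### rows of labels which do not occur -/

theorem en_cof_false {s : St} (h : Sp s) {v u : ℕ} (hv : s.n ≤ v) (hu : u < 16) :
    s.cof.testBit (16 * v + u) = false := by
  cases hb : s.cof.testBit (16 * v + u) with
  | false => rfl
  | true =>
    obtain ⟨F, hF, hvF, -⟩ := (h.cof v u hu).mp hb
    exact absurd (h.lt F hF v hvF) (by omega)

theorem en_getD_ne {W : List ℕ} (hn : W.Nodup) {i j : ℕ} (hi : i < W.length) (hj : j < W.length)
    (hij : i ≠ j) : W.getD i 0 ≠ W.getD j 0 := by
  intro h
  rw [List.getD_eq_getElem _ _ hi, List.getD_eq_getElem _ _ hj] at h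
  exact hij ((List.Nodup.getElem_inj_iff hn).mp h)

theorem en_take_rev {W : List ℕ} {k : ℕ} (hk : k < W.length) :
    W.getD k 0 :: (W.take k).reverse = (W.take (k + 1)).reverse := by
  rw [List.take_succ_eq_append_getElem hk, List.reverse_append, List.getD_eq_getElem _ _ hk]
  rfl

theorem en_rec {s : St} (h : Sp s) {W E : List ℕ} (hc : Cond s W E)
    (hE : ∀ e ∈ E, e = 0 ∨ e = 3) (hWE : W.length = E.length)
    (nm aw ia ea ca la ac1 ac2 : ℕ)
    (hnm : ∀ x, nm.testBit x = decide (x < s.n))
    (haw : ∀ v j, v < s.n → j < 8 →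
      aw.testBit (8 * v + j) = (awTt v).testBit (8 * dg s.cnt v + j))
    (haw' : ∀ v j, s.n ≤ v → v < s.n + 6 → j < 6 → aw.testBit (8 * v + j) = true)
    (hia : ia = 8 * W.getD 0 0 + (E.getD 0 0 + 1))
    (hea : ∀ x, x < 16 → ea.testBit x = s.en.testBit (16 * W.getD 0 0 + x))
    (hca : ∀ x, x < s.n → ca.testBit x = !s.cof.testBit (16 * W.getD 0 0 + x))
    (hla : la = Nat.lor ca ea)
    (hac1 : ∀ x, x < s.n → ac1.testBit x = aw.testBit (8 * x + 1))
    (hac2 : ∀ x, x < s.n → ac2.testBit x = aw.testBit (8 * x + 4)) :
    ∀ (rest : List ℕ) (k prev ix nn avail : ℕ) (ws : Ws) (out : List Ws),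
      rest ≠ [] → E.drop k = rest → 2 ≤ k → ws = (W.take k).reverse → prev = W.getD (k - 1) 0 →
      OrdN s.n nn (W.drop k) → s.n ≤ nn → nn + rest.length ≤ s.n + 5 →
      (∀ j, k ≤ j → j < W.length → W.getD j 0 < s.n → avail.testBit (W.getD j 0) = true) →
      avail < 2 ^ 16 → aw.testBit (ix + ab s.n s.st prev (W.getD k 0)) = true →
      W.reverse ∈ enumRec s.st s.cof nm aw ia ea ca la ac1 ac2 rest prev ix nn avail ws out := by
  have hn16 := h.n16
  intro rest
  induction rest with
  | nil => intro k prev ix nn avail ws out h0; exact absurd rfl h0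
  | cons e r ih =>
    intro k prev ix nn avail ws out _ hdrop hk2 hws hprev hord hnn hlen hav hav16 hix
    have hkE : k < E.length := by
      by_contra hcon
      rw [List.drop_eq_nil_of_le (by omega)] at hdrop
      exact absurd hdrop (by simp)
    have hkW : k < W.length := by omega
    rw [List.drop_eq_getElem_cons hkE] at hdrop
    obtain ⟨he, hr⟩ := List.cons.inj hdrop
    have hEk : E.getD k 0 = e := by rw [List.getD_eq_getElem _ _ hkE, he]
    have heE : e ∈ E := by rw [← he]; exact List.getElem_mem hkE
    have he03 := hE e heE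
    rw [List.drop_eq_getElem_cons hkW, ← List.getD_eq_getElem _ 0 hkW] at hord
    set x := W.getD k 0 with hx
    have hlenr : (e :: r).length = r.length + 1 := rfl
    rw [hlenr] at hlen
    -- facts on old labels
    have hstp : ∀ y, y < 16 → (Nat.land (Nat.shiftRight s.st (Nat.mul 16 prev)) 65535).testBit y =
        s.st.testBit (16 * prev + y) := by
      intro y hy
      rw [row_testBit]; simp [hy]
    have hnc : ∀ y, y < s.n → (Nat.sub nm (Nat.land nm
        (Nat.shiftRight s.cof (Nat.mul 16 prev)))).testBit y = !s.cof.testBit (16 * prev + y) := by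
      intro y hy
      rw [en_subland, hnm, en_shr]
      simp only [hy, decide_true, Bool.true_and]
      rfl
    have hncfar : ∀ j, k + 1 ≤ j → j < W.length → W.getD j 0 < s.n →
        (Nat.sub nm (Nat.land nm (Nat.shiftRight s.cof (Nat.mul 16 prev)))).testBit (W.getD j 0)
          = true := by
      intro j hj hjW hjn
      rw [hnc _ hjn]
      by_cases hp : prev < s.n
      · have := hc.far (k - 1) j (by omega) hjW (by omega) (by rw [← hprev]; exact hp) hjn
        rw [← hprev] at this
        rw [this]; rfl
      · rw [en_cof_false h (by omega) (by omega)]; rfl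
    have hm : x < s.n → s.st.testBit (16 * prev + x) = true ∨
        s.cof.testBit (16 * prev + x) = false := by
      intro hxn
      by_cases hp : prev < s.n
      · have := hc.adj (k - 1) (by omega) (by omega) (by rw [← hprev]; exact hp)
          (by rw [show k - 1 + 1 = k by omega]; exact hxn)
        rw [← hprev, show k - 1 + 1 = k by omega] at this
        exact this
      · exact Or.inr (en_cof_false h (by omega) (by omega))
    have hacc : x < s.n → (ifb (Nat.beq e 0) ac1 ac2).testBit x = true ∨
        s.st.testBit (16 * prev + x) = true := by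
      intro hxn
      by_cases hst : s.st.testBit (16 * prev + x) = true
      · exact Or.inr hst
      · left
        have h1 := hc.acc1 k hk2 hkW hxn (by
          rw [← hprev]
          cases hb : s.st.testBit (16 * prev + x) with
          | false => rfl
          | true => exact absurd hb hst)
        rw [hEk] at h1
        rcases he03 with rfl | rfl
        · rw [← haw x _ hxn (by norm_num)] at h1
          show ac1.testBit x = true
          rw [hac1 x hxn]; simpa using h1
        · rw [← haw x _ hxn (by norm_num)] at h1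
          show ac2.testBit x = true
          rw [hac2 x hxn]; simpa using h1
    have hab : x < s.n → ab s.n s.st prev x = (s.st.testBit (16 * prev + x)).toNat := by
      intro hxn; unfold ab; rw [if_pos hxn]
    have hab0 : ¬ x < s.n → ab s.n s.st prev x = 0 := by
      intro hxn; unfold ab; rw [if_neg hxn]
    have hab1 : ∀ v u, ab s.n s.st v u ≤ 1 := by
      intro v u; unfold ab; split
      · exact Bool.toNat_le _
      · omega
    have hae1 : ∀ v u, ab s.n s.en v u ≤ 1 := by
      intro v u; unfold ab; split
      · exact Bool.toNat_le _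
      · omega
    have he0E : E.getD 0 0 = 0 ∨ E.getD 0 0 = 3 := by
      rw [List.getD_eq_getElem _ _ (by omega : 0 < E.length)]
      exact hE _ (List.getElem_mem _)
    cases r with
    | nil =>
      -- the last label
      have hlast : W.length = k + 1 := by
        have h1 : (E.drop (k + 1)).length = 0 := by rw [hr]; rfl
        rw [List.length_drop] at h1
        omega
      have hfin : x :: ws = W.reverse := by
        rw [hws, hx, en_take_rev hkW, ← hlast, List.take_length]
      have hL1 : W.length - 1 = k := by omega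
      have hL2 : W.length - 2 = k - 1 := by omega
      have hiaa : aw.testBit (ia + ab s.n s.en (W.getD 0 0) x) = true := by
        have h1 := hc.accA
        rw [hL1] at h1
        rw [← haw _ _ hc.a (by have := hae1 (W.getD 0 0) (W.getD k 0); omega)] at h1
        rw [hia, show 8 * W.getD 0 0 + (E.getD 0 0 + 1) + ab s.n s.en (W.getD 0 0) x =
          8 * W.getD 0 0 + (E.getD 0 0 + (1 + ab s.n s.en (W.getD 0 0) x)) by ring]
        exact h1
      rw [en_rec_one]
      unfold eL
      rcases hord with ⟨hxn, hord⟩ | ⟨hxn, hord⟩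
      · -- old label
        have hx16 : x < 16 := by omega
        have heab : ab s.n s.en (W.getD 0 0) x = (ea.testBit x).toNat := by
          unfold ab; rw [if_pos hxn, hea x hx16]
        unfold eL2
        apply en_loop_mem (x := x)
        · intro y o' ho
          simp only [ifb_eq]
          split
          · split
            · split
              · exact List.mem_cons_of_mem _ ho
              · exact ho
            · exact ho
          · exact ho
        · intro o
          have c1 : bt aw (Nat.add ix (Nat.land (Nat.shiftRight (Nat.land (Nat.shiftRight s.st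
              (Nat.mul 16 prev)) 65535) x) 1)) = true := by
            rw [bt_eq, en_bit, hstp x hx16, ← hab hxn]
            exact hix
          have c2 : bt aw (Nat.add (Nat.add (Nat.mul 8 x) e) (Nat.add (Nat.land (Nat.shiftRight
              (Nat.land (Nat.shiftRight s.st (Nat.mul 16 prev)) 65535) x) 1)
              (Nat.land (Nat.shiftRight ea x) 1))) = true := by
            rw [bt_eq, en_bit, en_bit, hstp x hx16, ← hab hxn, ← heab]
            have h1 := hc.accL (by rw [hL1]; exact hxn)
            rw [hL1, hL2, hEk, ← hprev, ← haw _ _ hxn (by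
              have := hab1 prev (W.getD k 0)
              have := hae1 (W.getD 0 0) (W.getD k 0)
              omega)] at h1
            have e1 : Nat.add (Nat.add (Nat.mul 8 x) e) (Nat.add (ab s.n s.st prev x)
              (ab s.n s.en (W.getD 0 0) x)) = 8 * x + (e + (ab s.n s.st prev x +
                ab s.n s.en (W.getD 0 0) x)) := by
              show 8 * x + e + (ab s.n s.st prev x + ab s.n s.en (W.getD 0 0) x) = _
              ring
            rw [e1]
            exact h1
          have c3 : bt aw (Nat.add ia (Nat.land (Nat.shiftRight ea x) 1)) = true := by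
            rw [bt_eq, en_bit, ← heab]
            exact hiaa
          rw [c1, c2, c3]
          show W.reverse ∈ (x :: ws) :: o
          rw [hfin]
          exact List.mem_cons_self
        · exact lt_of_le_of_lt (Nat.and_le_left) hav16
        · rw [en_land, en_land, en_land, en_lor, en_lor, hla, en_lor, hstp x hx16, hnc x hxn,
            hav k le_rfl hkW hxn, hca x hxn, hea x hx16]
          have h1 := hm hxn
          have h2 := hacc hxn
          have h3 := hc.adjL (by rw [hL1]; exact hxn)
          rw [hL1] at h3
          have h3' : (!s.cof.testBit (16 * W.getD 0 0 + x) || s.en.testBit (16 * W.getD 0 0 + x))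
              = true := by
            rcases h3 with h3 | h3
            · rw [← hx] at h3; rw [h3]; simp
            · rw [← hx] at h3; rw [h3]; simp
          have h1' : (!s.cof.testBit (16 * prev + x) || s.st.testBit (16 * prev + x)) = true := by
            rcases h1 with h1 | h1
            · rw [h1]; simp
            · rw [h1]; simp
          have h2' : ((ifb (Nat.beq e 0) ac1 ac2).testBit x || s.st.testBit (16 * prev + x))
              = true := by
            rcases h2 with h2 | h2
            · rw [h2]; simp
            · rw [h2]; simp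
          rw [h1', h2', h3']
          rfl
      · -- new label
        apply en_eL2_mono
        have hxn' : ¬ x < s.n := by omega
        have c1 : bt aw ix = true := by
          rw [bt_eq]
          have := hix
          rw [hab0 hxn'] at this
          exact this
        have c2 : bt aw ia = true := by
          rw [bt_eq]
          have h1 := hiaa
          have h2 : ab s.n s.en (W.getD 0 0) x = 0 := by unfold ab; rw [if_neg hxn']
          rw [h2] at h1
          exact h1
        rw [c1, c2]
        show W.reverse ∈ (nn :: ws) :: out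
        rw [← hxn, hfin]
        exact List.mem_cons_self
    | cons e' r =>
      have hlast : k + 1 < W.length := by
        have h1 : (E.drop (k + 1)).length = r.length + 1 := by rw [hr]; rfl
        rw [List.length_drop] at h1
        omega
      have hws' : x :: ws = (W.take (k + 1)).reverse := by
        rw [hws, hx, en_take_rev hkW]
      have hne : (e' :: r) ≠ [] := by simp
      have hlenr' : (e' :: r).length = r.length + 1 := rfl
      rw [hlenr'] at hlen
      rw [en_rec_two]
      unfold eN
      rcases hord with ⟨hxn, hord⟩ | ⟨hxn, hord⟩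
      · -- old label
        have hx16 : x < 16 := by omega
        unfold eN2
        apply en_loop_mem (x := x)
        · intro y o' ho
          simp only [ifb_eq]
          split
          · exact en_rec_mono _ _ _ _ _ _ _ _ _ _ _ _ _ _ _ _ _ ho
          · exact ho
        · intro o
          have c1 : bt aw (Nat.add ix (Nat.land (Nat.shiftRight (Nat.land (Nat.shiftRight s.st
              (Nat.mul 16 prev)) 65535) x) 1)) = true := by
            rw [bt_eq, en_bit, hstp x hx16, ← hab hxn]
            exact hix
          rw [c1, ifb_true]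
          apply ih (k + 1) x _ nn _ (x :: ws) o hne hr (by omega) hws' (by
            rw [Nat.add_sub_cancel]) hord hnn (by rw [hlenr']; omega)
          · -- availability
            intro j hj hjW hjn
            rw [en_subland, en_land, hav j (by omega) hjW hjn, hncfar j hj hjW hjn, en_one]
            have : x ≠ W.getD j 0 := en_getD_ne hc.nodup hkW hjW (by omega)
            rw [decide_eq_false this]
            rfl
          · refine lt_of_le_of_lt (Nat.sub_le _ _) (lt_of_le_of_lt (Nat.and_le_left) hav16)
          · rw [en_bit, hstp x hx16, ← hab hxn]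
            have h1 := hc.acc k hk2 hlast hxn
            rw [hEk, ← hprev, ← haw _ _ hxn (by
              have := hab1 prev (W.getD k 0)
              have := hab1 (W.getD k 0) (W.getD (k + 1) 0)
              omega)] at h1
            have e1 : Nat.add (Nat.add (Nat.mul 8 x) e) (ab s.n s.st prev x) +
                ab s.n s.st x (W.getD (k + 1) 0) = 8 * x + (e + (ab s.n s.st prev x +
                  ab s.n s.st x (W.getD (k + 1) 0))) := by
              show 8 * x + e + ab s.n s.st prev x + ab s.n s.st x (W.getD (k + 1) 0) = _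
              ring
            rw [e1]
            exact h1
        · exact lt_of_le_of_lt (Nat.and_le_left) hav16
        · rw [en_land, en_land, en_land, en_lor, en_lor, hstp x hx16, hnc x hxn,
            hav k le_rfl hkW hxn, hca x hxn]
          have h1 := hm hxn
          have h2 := hacc hxn
          have h3 := hc.far 0 k (by omega) hkW (fun _ => hlast) hc.a hxn
          have h1' : (!s.cof.testBit (16 * prev + x) || s.st.testBit (16 * prev + x)) = true := by
            rcases h1 with h1 | h1
            · rw [h1]; simp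
            · rw [h1]; simp
          have h2' : ((ifb (Nat.beq e 0) ac1 ac2).testBit x || s.st.testBit (16 * prev + x))
              = true := by
            rcases h2 with h2 | h2
            · rw [h2]; simp
            · rw [h2]; simp
          rw [← hx] at h3
          rw [h1', h2', h3]
          rfl
      · -- new label
        have hxn' : ¬ x < s.n := by omega
        unfold eN2
        apply en_loop_mono
        · intro y o' ho
          simp only [ifb_eq]
          split
          · exact en_rec_mono _ _ _ _ _ _ _ _ _ _ _ _ _ _ _ _ _ ho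
          · exact ho
        · have c1 : bt aw ix = true := by
            rw [bt_eq]
            have := hix
            rw [hab0 hxn'] at this
            exact this
          rw [c1, ifb_true]
          have hsucc : Nat.succ nn = nn + 1 := rfl
          apply ih (k + 1) nn _ (nn + 1) _ (nn :: ws) out hne hr (by omega) (by rw [← hxn]; exact hws')
            (by rw [Nat.add_sub_cancel, ← hxn]) hord (by omega) (by rw [hlenr']; omega)
          · intro j hj hjW hjn
            rw [en_land, hav j (by omega) hjW hjn, hncfar j hj hjW hjn]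
            rfl
          · exact lt_of_le_of_lt (Nat.and_le_left) hav16
          · have h1 := hab1 nn (W.getD (k + 1) 0)
            have e1 : Nat.add (Nat.mul 8 nn) e + ab s.n s.st nn (W.getD (k + 1) 0) =
              8 * nn + (e + ab s.n s.st nn (W.getD (k + 1) 0)) := by
              show 8 * nn + e + ab s.n s.st nn (W.getD (k + 1) 0) = _
              ring
            rw [e1]
            exact haw' nn _ hnn (by omega) (by omega)

/-! ### assembly -/

theorem en_inPl {n st cof a b nm aw ea ca ac1 ac2 : ℕ} {p : PT} {w : Ws} :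
    ∀ (L : List PT), p ∈ L →
      w ∈ enum1 n st cof a b nm aw ea ca ac1 ac2 p.e0 p.e1 p.rest →
      InPl p.rc p.dr w (enum3 L n st cof a b nm aw ea ca ac1 ac2) := by
  intro L
  induction L with
  | nil => intro hp; exact absurd hp (by simp)
  | cons q L ih =>
    intro hp hw
    have e1 : enum3 (q :: L) n st cof a b nm aw ea ca ac1 ac2 =
        Pl.cons q.rc q.dr (enum1 n st cof a b nm aw ea ca ac1 ac2 q.e0 q.e1 q.rest)
          (enum3 L n st cof a b nm aw ea ca ac1 ac2) := by
      cases q; rfl
    rw [e1]
    rcases List.mem_cons.mp hp with rfl | hp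
    · exact Or.inl ⟨rfl, rfl, hw⟩
    · exact Or.inr (ih hp hw)

theorem enum_mem {s : St} (h : Sp s) {p : PT} (hp : p ∈ FTt) {a b : ℕ} {l : List ℕ}
    (hl : l.length = p.rest.length) (hc : Cond s (a :: b :: l) (p.e0 :: p.e1 :: p.rest)) :
    InPl p.rc p.dr (l.reverse ++ [b, a]) (enumAll awTt FTt s a b) := by
  obtain ⟨-, -, -, hrc, hcodes, hr1, hr4⟩ := tab_dir p hp
  have hE : ∀ e ∈ (p.e0 :: p.e1 :: p.rest), e = 0 ∨ e = 3 := by
    intro e he
    rw [← hrc] at he
    obtain ⟨c, hc', rfl⟩ := List.mem_map.mp he
    rcases hcodes c (List.mem_reverse.mp hc') with rfl | rfl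
    · left; rfl
    · right; rfl
  have e1 : enumAll awTt FTt s a b = enum3 FTt s.n s.st s.cof a b
      (Nat.sub (Nat.shiftLeft 1 s.n) 1)
      (Nat.add (awMask awTt s.cnt s.n) (Nat.shiftLeft 0x3f3f3f3f3f3f (Nat.mul 8 s.n)))
      (Nat.land (Nat.shiftRight s.en (Nat.mul 16 a)) 65535)
      (Nat.sub (Nat.sub (Nat.shiftLeft 1 s.n) 1) (Nat.land (Nat.sub (Nat.shiftLeft 1 s.n) 1)
        (Nat.shiftRight s.cof (Nat.mul 16 a))))
      (accM (Nat.add (awMask awTt s.cnt s.n) (Nat.shiftLeft 0x3f3f3f3f3f3f (Nat.mul 8 s.n))) 1 s.n)
      (accM (Nat.add (awMask awTt s.cnt s.n) (Nat.shiftLeft 0x3f3f3f3f3f3f (Nat.mul 8 s.n))) 4 s.n)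
      := by
    cases s; rfl
  rw [e1]
  apply en_inPl FTt hp
  obtain ⟨haw, haw'⟩ := en_aw s.cnt s.n
  set aw := Nat.add (awMask awTt s.cnt s.n) (Nat.shiftLeft 0x3f3f3f3f3f3f (Nat.mul 8 s.n)) with haws
  set nm := Nat.sub (Nat.shiftLeft 1 s.n) 1 with hnms
  have hn16 := h.n16
  have hnm' : nm = 2 ^ s.n - 1 := by
    rw [hnms]
    show (1 : ℕ) <<< s.n - 1 = _
    rw [Nat.one_shiftLeft]
  have hnm : ∀ x, nm.testBit x = decide (x < s.n) := by
    intro x; rw [hnm', Nat.testBit_two_pow_sub_one]
  have ha : a < s.n := hc.a
  have hb : b < s.n := hc.b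
  have hab : a ≠ b := by
    have := hc.nodup
    rw [List.nodup_cons] at this
    intro hh
    exact this.1 (by rw [hh]; exact List.mem_cons_self)
  have habs : ∀ m v u, ab s.n m v u ≤ 1 := by
    intro m v u; unfold ab; split
    · exact Bool.toNat_le _
    · omega
  have he0 : p.e0 = 0 ∨ p.e0 = 3 := hE _ List.mem_cons_self
  have he1 : p.e1 = 0 ∨ p.e1 = 3 := hE _ (List.mem_cons_of_mem _ List.mem_cons_self)
  have hA : aw.testBit (8 * a + (p.e0 + 1) + ab s.n s.en a ((a :: b :: l).getD
      ((a :: b :: l).length - 1) 0)) = true := by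
    have h1 := hc.accA
    simp only [List.getD_cons_zero] at h1
    rw [← haw a _ ha (by have := habs s.en a ((a :: b :: l).getD
      ((a :: b :: l).length - 1) 0); omega)] at h1
    rw [show 8 * a + (p.e0 + 1) + ab s.n s.en a ((a :: b :: l).getD ((a :: b :: l).length - 1) 0) =
      8 * a + (p.e0 + (1 + ab s.n s.en a ((a :: b :: l).getD ((a :: b :: l).length - 1) 0))) by ring]
    exact h1
  have hB : aw.testBit (8 * b + (p.e1 + 1) + ab s.n s.st b ((a :: b :: l).getD 2 0)) = true := by
    have h1 := hc.accB
    simp only [List.getD_cons_zero, List.getD_cons_succ] at h1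
    simp only [List.getD_cons_succ]
    rw [← haw b _ hb (by have := habs s.st b (l.getD 0 0); omega)] at h1
    rw [show 8 * b + (p.e1 + 1) + ab s.n s.st b (l.getD 0 0) =
      8 * b + (p.e1 + (1 + ab s.n s.st b (l.getD 0 0))) by ring]
    exact h1
  unfold enum1
  have c1 : Nat.beq (Nat.land (Nat.shiftRight aw (Nat.add (Nat.mul 8 a) (Nat.add p.e0 1))) 3) 0
      = false := en_beq3 _ (by have := habs s.en a ((a :: b :: l).getD
        ((a :: b :: l).length - 1) 0); omega) hA
  have c2 : Nat.beq (Nat.land (Nat.shiftRight aw (Nat.add (Nat.mul 8 b) (Nat.add p.e1 1))) 3) 0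
      = false := en_beq3 _ (by have := habs s.st b ((a :: b :: l).getD 2 0); omega) hB
  rw [c1, c2, ifb_false, ifb_false]
  have hrev : l.reverse ++ [b, a] = (a :: b :: l).reverse := by simp
  rw [hrev]
  have hWE : (a :: b :: l).length = (p.e0 :: p.e1 :: p.rest).length := by simp [hl]
  apply en_rec h hc hE hWE nm aw _ _ _ _ _ _ hnm haw haw' rfl (k := 2)
  · intro x hx
    rw [row_testBit]; simp [hx]
  · intro x hx
    rw [en_subland, hnm, en_shr]
    simp only [hx, decide_true, Bool.true_and]
    rfl
  · rfl
  · intro x hx; exact (en_accM aw 1 s.n).2 x hx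
  · intro x hx; exact (en_accM aw 4 s.n).2 x hx
  · intro h0
    rw [h0] at hr1
    simp at hr1
  · rfl
  · exact le_rfl
  · rfl
  · rfl
  · exact hc.ord
  · exact le_rfl
  · omega
  · intro j hj hjW hjn
    have e2 : Nat.sub nm (Nat.add (Nat.shiftLeft 1 a) (Nat.shiftLeft 1 b)) =
      (nm - (1 : ℕ) <<< a) - (1 : ℕ) <<< b := by
      show nm - ((1 : ℕ) <<< a + (1 : ℕ) <<< b) = _
      rw [Nat.sub_sub]
    have hnma : nm.testBit a = true := by rw [hnm]; simp [ha]
    have hnmb : (nm - (1 : ℕ) <<< a).testBit b = true := by
      rw [testBit_sub hnma, if_neg (fun hh => hab hh.symm), hnm]; simp [hb]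
    have hja : (a :: b :: l).getD j 0 ≠ a := by
      have := en_getD_ne hc.nodup hjW (by simp : 0 < (a :: b :: l).length) (by omega)
      simpa using this
    have hjb : (a :: b :: l).getD j 0 ≠ b := by
      have := en_getD_ne hc.nodup hjW (by simp : 1 < (a :: b :: l).length) (by omega)
      simpa using this
    rw [e2, testBit_sub hnmb, if_neg hjb, testBit_sub hnma, if_neg hja, hnm]
    simp only [hjn, decide_true]
  · have h1 : Nat.sub nm (Nat.add (Nat.shiftLeft 1 a) (Nat.shiftLeft 1 b)) ≤ nm := Nat.sub_le _ _
    have h2 : nm < 2 ^ s.n := by rw [hnm']; have := Nat.two_pow_pos s.n; omega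
    have h3 : 2 ^ s.n ≤ 2 ^ 16 := Nat.pow_le_pow_right (by norm_num) hn16
    omega
  · exact hB

end Chk
end Pool.Agent.Lib.MP_ba95e8_co
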