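import Pool.Agent.Lib.MP_ba95e8_co.Pack

/-!
Deltahedral domes, task E2: labels for new vertices.
-/

namespace Pool.Agent.Lib.MP_ba95e8_co
namespace Chk

theorem exists_labels_aux {V : Type*} (n : ℕ) (vs : List V) : ∀ (nn : ℕ) (lab : ℕ → V), n ≤ nn →
    (∀ i < nn, ∀ j < nn, lab i = lab j → i = j) → vs.Nodup →
    (∀ v ∈ vs, ∀ j, n ≤ j → j < nn → v ≠ lab j) →
    ∃ (l : List ℕ) (lab' : ℕ → V), l.map lab' = vs ∧ (∀ i < nn, lab' i = lab i) ∧ OrdN n nn l ∧
      (∀ i < max nn (maxL n l), ∀ j < max nn (maxL n l), lab' i = lab' j → i = j) ∧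
      (∀ v, nn ≤ v → v < maxL n l → v ∈ l) ∧ maxL n l ≤ nn + l.length := by
  induction vs with
  | nil =>
    intro nn lab hnn hinj _ _
    refine ⟨[], lab, rfl, fun i _ => rfl, trivial, ?_, ?_, ?_⟩
    · rw [maxL_nil, max_eq_left hnn]
      exact hinj
    · intro v hv hv2
      rw [maxL_nil] at hv2
      omega
    · rw [maxL_nil]
      simpa using hnn
  | cons v vs ih =>
    intro nn lab hnn hinj hnd hnew
    have hnd' := (List.nodup_cons.mp hnd)
    by_cases hv : ∃ i < n, v = lab i
    · obtain ⟨i, hi, hvi⟩ := hv
      obtain ⟨l, lab', h1, h2, h3, h4, h5, h6⟩ := ih nn lab hnn hinj hnd'.2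
        (fun w hw => hnew w (List.mem_cons_of_mem _ hw))
      have hm : maxL n (i :: l) = maxL n l := by
        rw [maxL_cons, max_eq_right]
        have := le_maxL n l
        omega
      refine ⟨i :: l, lab', ?_, h2, Or.inl ⟨hi, h3⟩, ?_, ?_, ?_⟩
      · rw [List.map_cons, h1, h2 i (by omega), hvi]
      · rw [hm]
        exact h4
      · rw [hm]
        intro w hw hw2
        exact List.mem_cons_of_mem _ (h5 w hw hw2)
      · rw [hm, List.length_cons]
        omega
    · push Not at hv
      have hv' : ∀ j < nn, v ≠ lab j := by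
        intro j hj
        by_cases hjn : j < n
        · exact hv j hjn
        · exact hnew v (List.mem_cons_self) j (by omega) hj
      have e1 : Function.update lab nn v nn = v := Function.update_self _ _ _
      have e2 : ∀ j, j ≠ nn → Function.update lab nn v j = lab j :=
        fun j hj => Function.update_of_ne hj _ _
      obtain ⟨l, lab', h1, h2, h3, h4, h5, h6⟩ := ih (nn + 1) (Function.update lab nn v) (by omega)
        (by
          intro i hi j hj hij
          by_cases hin : i = nn
          · by_cases hjn : j = nn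
            · omega
            · rw [hin, e1, e2 j hjn] at hij
              exact absurd hij (hv' j (by omega))
          · by_cases hjn : j = nn
            · rw [hjn, e1, e2 i hin] at hij
              exact absurd hij.symm (hv' i (by omega))
            · rw [e2 i hin, e2 j hjn] at hij
              exact hinj i (by omega) j (by omega) hij)
        hnd'.2
        (by
          intro w hw j hj hj2
          by_cases hjn : j = nn
          · rw [hjn, e1]
            intro he
            exact hnd'.1 (he ▸ hw)
          · rw [e2 j hjn]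
            exact hnew w (List.mem_cons_of_mem _ hw) j hj (by omega))
      refine ⟨nn :: l, lab', ?_, ?_, Or.inr ⟨rfl, h3⟩, ?_, ?_, ?_⟩
      · rw [List.map_cons, h1, h2 nn (by omega), e1]
      · intro i hi
        rw [h2 i (by omega), e2 i (by omega)]
      · rw [maxL_cons]
        have e3 : max nn (max (nn + 1) (maxL n l)) = max (nn + 1) (maxL n l) := by omega
        rw [e3]
        exact h4
      · intro w hw hw2
        rw [maxL_cons] at hw2
        by_cases hwn : w = nn
        · rw [hwn]
          exact List.mem_cons_self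
        · exact List.mem_cons_of_mem _ (h5 w (by omega) (by omega))
      · rw [maxL_cons, List.length_cons]
        omega

theorem exists_labels {V : Type*} (n : ℕ) (lab : ℕ → V)
    (hinj : ∀ i < n, ∀ j < n, lab i = lab j → i = j) (vs : List V) (hnd : vs.Nodup) :
    ∃ (l : List ℕ) (lab' : ℕ → V), l.map lab' = vs ∧ (∀ i < n, lab' i = lab i) ∧ OrdN n n l ∧
      (∀ i < maxL n l, ∀ j < maxL n l, lab' i = lab' j → i = j) ∧
      (∀ v < maxL n l, v < n ∨ v ∈ l) ∧ maxL n l ≤ n + l.length := by
  obtain ⟨l, lab', h1, h2, h3, h4, h5, h6⟩ := exists_labels_aux n vs n lab le_rfl hinj hnd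
    (fun v _ j hj hj2 => by omega)
  rw [max_eq_right (le_maxL n l)] at h4
  refine ⟨l, lab', h1, h2, h3, h4, ?_, h6⟩
  intro v hv
  by_cases hvn : v < n
  · exact Or.inl hvn
  · exact Or.inr (h5 v (by omega) hv)

end Chk
end Pool.Agent.Lib.MP_ba95e8_co
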