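import Pool.Agent.Lib.MP_ba95e8_co.CandB
import Pool.Agent.Lib.MP_ba95e8_co.Enum
import Pool.Agent.Lib.MP_ba95e8_co.Labels

/-!
Deltahedral domes, task E5: the face across a free dart is in the enumeration.
-/

namespace Pool.Agent.Lib.MP_ba95e8_co
namespace Chk

variable {V : Type*} {M : Model V} {s : St} {lab : ℕ → V}

theorem Cand.cond (h : Good M s lab) {x y : ℕ} {p : PT} {l : List ℕ}
    (hc : Cand M s x y p l lab) :
    Cond s (x :: y :: l) (p.e0 :: p.e1 :: p.rest) := by
  have hnd : (x :: y :: l).Nodup := by
    have h1 := hc.wf.nodup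
    have h2 : l.reverse ++ [y, x] = (x :: y :: l).reverse := by simp
    change (l.reverse ++ [y, x]).Nodup at h1
    rw [h2, List.nodup_reverse] at h1
    exact h1
  exact
    { nodup := hnd
      ord := hc.ord
      a := hc.hx
      b := hc.hy
      adj := hc.cond_adj h
      adjL := hc.cond_adjL h
      far := hc.cond_far h
      accA := hc.cond_accA h
      accB := hc.cond_accB h
      acc := hc.cond_acc h
      accL := hc.cond_accL h
      acc1 := hc.cond_acc1 h }

/-- two faces through the same dart are equal -/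
theorem e5_uniq {M : Model V} {l l' : List (V × ℕ)} {x y : V} {c d c' d' : ℕ}
    (h : M.face ((x, c) :: (y, d) :: l)) (h' : M.face ((x, c') :: (y, d') :: l')) :
    (x, c) :: (y, d) :: l = (x, c') :: (y, d') :: l' := by
  obtain ⟨h1, h2, h3⟩ := M.uniq x y c d l c' d' l' h h'
  rw [h1, h2, h3]

theorem e5_fwd (lab : ℕ → V) (x y : ℕ) (l : List ℕ) (dr rc : List ℕ)
    (hlen : rc.length = l.length + 2) :
    fwd lab (Fa.mk x (l.reverse ++ [y, x]) dr rc) =
      ((x :: y :: l).map lab).zip rc.reverse := by
  unfold fwd
  have h1 : l.reverse ++ [y, x] = (x :: y :: l).reverse := by simp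
  simp only [h1, List.map_reverse]
  have h2 : (((x :: y :: l).map lab).reverse).length = rc.length := by
    simp [hlen]
  change (List.zipWith Prod.mk _ _).reverse = List.zipWith Prod.mk _ _
  rw [List.reverse_zipWith h2, List.reverse_reverse]

/-- the base darts are placed -/
theorem e5_base (h : Good M s lab) {x y : ℕ} (hx : x < s.n) (hy : y < s.n) {c d : ℕ}
    {l : List (V × ℕ)} (hf : M.face ((lab x, c) :: (lab y, d) :: l))
    (h0 : ((lab x, c) :: (lab y, d) :: l).map Prod.snd = [0, 0, 0]) : InD s.fs y x := by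
  have h3 := h.n3
  have hrot := M.base_uniq _ hf h0
  rw [← h.b0, ← h.b1, ← h.b2] at hrot
  obtain ⟨r, hr⟩ := hrot
  have hlen : l.length = 1 := by
    have := congrArg List.length h0
    simp at this
    exact this
  obtain ⟨z, rfl⟩ := List.length_eq_one_iff.1 hlen
  have hcor : ∀ v u w : ℕ, (v, u, w, 0) ∈ cors baseF → InD s.fs v u := by
    intro v u w hv
    refine ⟨w, 0, ?_⟩
    exact List.mem_flatMap.2 ⟨baseF, h.base, hv⟩
  have hr3 : ∃ r < 3, ((lab x, c) :: (lab y, d) :: [z]).rotate r =
      [(lab 2, 0), (lab 1, 0), (lab 0, 0)] := by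
    refine ⟨r % 3, Nat.mod_lt _ (by norm_num), ?_⟩
    rw [← hr]
    exact (List.rotate_mod _ _)
  obtain ⟨r, hr3, hr⟩ := hr3
  have inj := h.inj
  interval_cases r
  · simp only [List.rotate_zero, List.cons.injEq, Prod.mk.injEq] at hr
    have ex : x = 2 := inj _ hx _ (by omega) hr.1.1
    have ey : y = 1 := inj _ hy _ (by omega) hr.2.1.1
    subst ex; subst ey
    exact hcor 1 2 0 (by decide)
  · simp only [List.rotate_cons_succ, List.rotate_zero, List.cons_append, List.nil_append,
      List.cons.injEq, Prod.mk.injEq] at hr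
    have ex : x = 0 := inj _ hx _ (by omega) hr.2.2.1.1
    have ey : y = 2 := inj _ hy _ (by omega) hr.1.1
    subst ex; subst ey
    exact hcor 2 0 1 (by decide)
  · simp only [List.rotate_cons_succ, List.rotate_zero, List.cons_append, List.nil_append,
      List.cons.injEq, Prod.mk.injEq] at hr
    have ex : x = 1 := inj _ hx _ (by omega) hr.2.1.1
    have ey : y = 0 := inj _ hy _ (by omega) hr.2.2.1.1
    subst ex; subst ey
    exact hcor 0 1 2 (by decide)

theorem e5_maxL (n x y : ℕ) (l : List ℕ) (hx : x < n) (hy : y < n) :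
    maxL n (l.reverse ++ [y, x]) = maxL n l := by
  apply le_antisymm
  · apply maxL_le (le_maxL _ _)
    intro z hz
    rw [List.mem_append, List.mem_reverse] at hz
    rcases hz with hz | hz
    · exact lt_maxL hz
    · have : z < n := by
        simp only [List.mem_cons, List.not_mem_nil, or_false] at hz
        rcases hz with rfl | rfl <;> assumption
      exact lt_of_lt_of_le this (le_maxL _ _)
  · apply maxL_le (le_maxL _ _)
    intro z hz
    apply lt_maxL
    rw [List.mem_append, List.mem_reverse]
    exact Or.inl hz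

theorem e5_cor_lt (h : Good M s lab) {v u w c : ℕ} (hc : Cor s.fs v u w c) :
    v < s.n ∧ w < s.n := by
  obtain ⟨k, U, C, hR⟩ : ∃ k U C, RingAt M lab v k U C := by
    apply h.ring
    obtain ⟨F, hF, hcF⟩ := List.mem_flatMap.1 hc
    apply h.sp.lt F hF
    have key : ∀ (f : ℕ) (ws rc : List ℕ) (w' : ℕ) (q : ℕ × ℕ × ℕ × ℕ),
        q ∈ corA f ws rc w' → q.1 ∈ ws := by
      intro f ws
      induction ws with
      | nil => intro rc w' q hq; simp [corA] at hq
      | cons a ws ih =>
        intro rc w' q hq
        rw [corA, List.mem_cons] at hq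
        rcases hq with rfl | hq
        · exact List.mem_cons_self
        · exact List.mem_cons_of_mem _ (ih _ _ _ hq)
    exact key _ _ _ _ _ hcF
  obtain ⟨F, hF, hcF⟩ := List.mem_flatMap.1 hc
  have hwf := h.sp.wf F hF
  have key1 : ∀ (f : ℕ) (ws rc : List ℕ) (w' : ℕ) (q : ℕ × ℕ × ℕ × ℕ),
      q ∈ corA f ws rc w' → q.1 ∈ ws ∧ (q.2.2.1 ∈ ws ∨ q.2.2.1 = w') := by
    intro f ws
    induction ws with
    | nil => intro rc w' q hq; simp [corA] at hq
    | cons a ws ih =>
      intro rc w' q hq
      rw [corA, List.mem_cons] at hq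
      rcases hq with rfl | hq
      · exact ⟨List.mem_cons_self, Or.inr rfl⟩
      · obtain ⟨h1, h2⟩ := ih _ _ _ hq
        refine ⟨List.mem_cons_of_mem _ h1, Or.inl ?_⟩
        rcases h2 with h2 | h2
        · exact List.mem_cons_of_mem _ h2
        · rw [h2]; exact List.mem_cons_self
  obtain ⟨h1, h2⟩ := key1 _ _ _ _ _ hcF
  refine ⟨h.sp.lt F hF _ h1, ?_⟩
  rcases h2 with h2 | h2
  · exact h.sp.lt F hF _ h2
  · have ha : F.a ∈ F.ws := List.mem_of_getLast? hwf.last
    change w = F.a at h2
    rw [h2]
    exact h.sp.lt F hF _ ha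

/-- the face across a free dart -/
theorem exists_cand (h : Good M s lab) {x y : ℕ} (hx : x < 16)
    (hen : s.en.testBit (16 * y + x) = true) :
    ∃ (p : PT) (l : List ℕ) (lab' : ℕ → V), (∀ i < s.n, lab' i = lab i) ∧
      Cand M s x y p l lab' ∧ maxL s.n (l.reverse ++ [y, x]) ≤ s.n + 4 := by
  obtain ⟨hout, hfree⟩ := (h.sp.en y x hx).1 hen
  obtain ⟨u, c0, hcor⟩ := hout
  obtain ⟨hy_lt, hx_lt⟩ := e5_cor_lt h hcor
  obtain ⟨F, hF, hcF⟩ := List.mem_flatMap.1 hcor
  obtain ⟨d0, e0, r0, hf0⟩ := cors_real (h.sp.wf F hF) (h.face F hF) hcF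
  have hf1 : M.face ((lab y, c0) :: (lab x, e0) :: (r0 ++ [(lab u, d0)])) := M.rot _ _ hf0
  obtain ⟨c, d, l', hf⟩ := M.opp _ _ _ hf1
  change M.face ((lab x, c) :: (lab y, d) :: l') at hf
  have hcodes : ((lab x, c) :: (lab y, d) :: l').map Prod.snd ∈ FT := by
    rcases M.codes _ hf with hh | hh
    · exact hh
    · exact absurd (e5_base h hx_lt hy_lt hf hh) hfree
  obtain ⟨p, hp, hrc, hE⟩ := tab_face _ hcodes
  obtain ⟨t1, t2, t3, t4, t5, t6, t7⟩ := tab_dir p hp
  have hlen : l'.length = p.rest.length := by
    have h1 := congrArg List.length hrc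
    simp only [List.length_reverse, List.length_map, List.length_cons] at h1
    omega
  have hnd := M.nodup _ hf
  simp only [List.map_cons, List.nodup_cons] at hnd
  obtain ⟨hnx, hny, hnd'⟩ := hnd
  obtain ⟨l, lab', hl, hlab, hord, hinj, hused, hmax⟩ :=
    exists_labels s.n lab h.inj (l'.map Prod.fst) hnd'
  have hllen : l.length = p.rest.length := by
    have h1 := congrArg List.length hl
    simp only [List.length_map] at h1
    omega
  have hm := e5_maxL s.n x y l hx_lt hy_lt
  refine ⟨p, l, lab', hlab, ?_, ?_⟩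
  · exact
      { mem := hp
        len := hllen
        hx := hx_lt
        hy := hy_lt
        ord := hord
        inj := by rw [hm]; exact hinj
        used := by
          intro v hv
          rw [hm] at hv
          rcases hused v hv with h1 | h1
          · exact Or.inl h1
          · refine Or.inr ?_
            rw [List.mem_append, List.mem_reverse]
            exact Or.inl h1
        face := by
          rw [e5_fwd lab' x y l p.dr p.rc (by omega), hrc]
          simp only [List.map_cons, List.zip_cons_cons]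
          rw [hl, hlab x hx_lt, hlab y hy_lt]
          have hz : (l'.map Prod.fst).zip (l'.map Prod.snd) = l' := by
            have h2 := List.zip_unzip l'
            rw [List.unzip_eq_map] at h2
            exact h2
          rw [hz]
          exact hf
        out := ⟨u, c0, hcor⟩
        free := hfree }
  · rw [hm]
    omega

theorem small_spec {pl : Pl} (h : small pl = true) {rc dr ws : List ℕ} (hm : InPl rc dr ws pl) :
    ∀ x ∈ ws, x < 16 := by
  induction pl with
  | nil => exact absurd hm (by simp [InPl])
  | cons rc' dr' l r ih =>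
    have hl : ∀ l : List Ws, small (Pl.cons rc' dr' l r) = true →
        (∀ ws ∈ l, maxL 0 ws ≤ 16) ∧ small r = true := by
      intro l
      induction l with
      | nil => intro hh; exact ⟨by simp, hh⟩
      | cons a l ihl =>
        intro hh
        have e : small (Pl.cons rc' dr' (a :: l) r) =
            ifb (Nat.ble (maxL 0 a) 16) (small (Pl.cons rc' dr' l r)) false := rfl
        rw [e, ifb_eq] at hh
        split_ifs at hh with h1
        obtain ⟨h2, h3⟩ := ihl hh
        refine ⟨?_, h3⟩
        intro ws hws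
        rcases List.mem_cons.1 hws with rfl | hws
        · exact Nat.le_of_ble_eq_true h1
        · exact h2 ws hws
    obtain ⟨h1, h2⟩ := hl l h
    rcases hm with ⟨_, _, hw⟩ | hw
    · intro x hx
      have := h1 ws hw
      have h3 : x < maxL 0 ws := lt_maxL hx
      omega
    · exact ih h2 hw

theorem enum_complete (h : Good M s lab) {x y : ℕ}
    (hen : bt (Nat.land (Nat.shiftRight s.en (Nat.mul 16 y)) 65535) x = true)
    (hsm : Nat.ble s.n 12 = true ∨ small (enumAll awTt FTt s x y) = true) :
    ∃ rc dr ws lab', InPl rc dr ws (enumAll awTt FTt s x y) ∧ Good M s lab' ∧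
      Ext M s x rc dr ws lab' := by
  rw [bt_eq, row_testBit, Bool.and_eq_true, decide_eq_true_eq] at hen
  obtain ⟨hx, hen⟩ := hen
  obtain ⟨p, l, lab', hlab, hc, hmax⟩ := exists_cand h hx hen
  have hG : Good M s lab' := h.congr hlab
  have hin := enum_mem h.sp hc.mem hc.len (hc.cond hG)
  obtain ⟨t1, t2, t3, t4, t5, t6, t7⟩ := tab_dir p hc.mem
  refine ⟨p.rc, p.dr, l.reverse ++ [y, x], lab', hin, hG, ?_⟩
  exact
    { shape := ⟨p, hc.mem, rfl, rfl⟩
      len := by
        have := hc.len
        simp only [List.length_append, List.length_reverse, List.length_cons, List.length_nil]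
        omega
      free := ⟨y, l.reverse, rfl, hc.free⟩
      lt := by
        rcases hsm with h1 | h1
        · have h2 := Nat.le_of_ble_eq_true h1
          intro z hz
          have : z < maxL s.n (l.reverse ++ [y, x]) := lt_maxL hz
          omega
        · exact small_spec h1 hin
      inj := hc.inj
      used := hc.used
      face := hc.face }

end Chk
end Pool.Agent.Lib.MP_ba95e8_co
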