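import Pool.Agent.Lib.MP_ba95e8_co.Vcheck
import Pool.Agent.Lib.MP_ba95e8_co.Len
import Pool.Agent.Lib.MP_ba95e8_co.Real

/-!
Deltahedral domes, task K1: soundness of the checker.
-/

namespace Pool.Agent.Lib.MP_ba95e8_co
namespace Chk

variable {V : Type*} {M : Model V}

theorem ifb_false_true {b t : Bool} (h : ifb b t false = true) : b = true ∧ t = true := by
  cases b
  · exact absurd h (by intro h; cases h)
  · exact ⟨rfl, h⟩

theorem eqL_sound : ∀ (l m : List ℕ), eqL l m = true → l = m := by
  intro l
  induction l with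
  | nil =>
    intro m h
    cases m with
    | nil => rfl
    | cons y m => exact absurd h (by intro h; cases h)
  | cons x l ih =>
    intro m h
    cases m with
    | nil => exact absurd h (by intro h; cases h)
    | cons y m =>
      have h' : ifb (Nat.beq x y) (eqL l m) false = true := h
      obtain ⟨h1, h2⟩ := ifb_false_true h'
      rw [ih m h2, Nat.eq_of_beq_eq_true h1]

theorem eqFa_sound {x y : Fa} (h : eqFa x y = true) : x = y := by
  unfold eqFa at h
  obtain ⟨h1, h⟩ := ifb_false_true h
  obtain ⟨h2, h⟩ := ifb_false_true h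
  obtain ⟨h3, h4⟩ := ifb_false_true h
  cases x; cases y
  simp only at h1 h2 h3 h4
  rw [Nat.eq_of_beq_eq_true h1, eqL_sound _ _ h2, eqL_sound _ _ h3, eqL_sound _ _ h4]

theorem eqF_sound : ∀ (l m : List Fa), eqF l m = true → l = m := by
  intro l
  induction l with
  | nil =>
    intro m h
    cases m with
    | nil => rfl
    | cons y m => exact absurd h (by intro h; cases h)
  | cons x l ih =>
    intro m h
    cases m with
    | nil => exact absurd h (by intro h; cases h)
    | cons y m =>
      have h' : ifb (eqFa x y) (eqF l m) false = true := h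
      obtain ⟨h1, h2⟩ := ifb_false_true h'
      rw [ih m h2, eqFa_sound h1]

theorem eqS_sound {s t : St} (h : eqS s t = true) : s = t := by
  unfold eqS at h
  obtain ⟨h1, h⟩ := ifb_false_true h
  obtain ⟨h2, h⟩ := ifb_false_true h
  obtain ⟨h3, h⟩ := ifb_false_true h
  obtain ⟨h4, h⟩ := ifb_false_true h
  obtain ⟨h5, h⟩ := ifb_false_true h
  obtain ⟨h6, h⟩ := ifb_false_true h
  obtain ⟨h7, h8⟩ := ifb_false_true h
  cases s; cases t
  simp only at h1 h2 h3 h4 h5 h6 h7 h8
  rw [Nat.eq_of_beq_eq_true h1, Nat.eq_of_beq_eq_true h2, Nat.eq_of_beq_eq_true h3,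
    Nat.eq_of_beq_eq_true h4, Nat.eq_of_beq_eq_true h5, Nat.eq_of_beq_eq_true h6,
    Nat.eq_of_beq_eq_true h7, eqF_sound _ _ h8]

theorem eqN_sound {s : St} {l : List St} {i : ℕ} (h : eqN s l i = true) : s ∈ l := by
  induction l generalizing i with
  | nil => exact absurd h (by intro h; cases h)
  | cons x l ih =>
    have h' : ifb (Nat.beq i 0) (eqS s x) (eqN s l (Nat.sub i 1)) = true := h
    rw [ifb_eq] at h'
    split_ifs at h' with h0
    · rw [eqS_sound h']; exact List.mem_cons_self
    · exact List.mem_cons_of_mem _ (ih h')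

theorem nextPl_sound {pl : Pl} {kP : List ℕ → List ℕ → Ws → Pl → Bool}
    (h : nextPl pl false kP = true) : ∃ rc dr ws pl', kP rc dr ws pl' = true ∧
      ∀ rc' dr' ws', InPl rc' dr' ws' pl → (rc' = rc ∧ dr' = dr ∧ ws' = ws) ∨ InPl rc' dr' ws' pl' := by
  induction pl with
  | nil => exact absurd h (by intro h; cases h)
  | cons rc dr l r ih =>
    cases l with
    | nil =>
      have h' : nextPl r false kP = true := h
      obtain ⟨rc1, dr1, ws1, pl1, h1, h2⟩ := ih h'
      refine ⟨rc1, dr1, ws1, pl1, h1, ?_⟩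
      intro rc' dr' ws' hin
      rcases hin with ⟨_, _, hm⟩ | hin
      · exact absurd hm (by simp)
      · exact h2 _ _ _ hin
    | cons w ws =>
      have h' : kP rc dr w (Pl.cons rc dr ws r) = true := h
      refine ⟨rc, dr, w, Pl.cons rc dr ws r, h', ?_⟩
      intro rc' dr' ws' hin
      rcases hin with ⟨h1, h2, hm⟩ | hin
      · rcases List.mem_cons.1 hm with hm | hm
        · exact Or.inl ⟨h1, h2, hm⟩
        · exact Or.inr (Or.inl ⟨h1, h2, hm⟩)
      · exact Or.inr (Or.inr hin)

theorem nextPl_stop {pl : Pl} (h : nextPl pl true (fun _ _ _ _ => false) = true)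
    (rc dr ws : List ℕ) : ¬ InPl rc dr ws pl := by
  induction pl with
  | nil => exact fun h => h
  | cons rc1 dr1 l r ih =>
    cases l with
    | nil =>
      have h' : nextPl r true (fun _ _ _ _ => false) = true := h
      rintro (⟨_, _, hm⟩ | hin)
      · exact absurd hm (by simp)
      · exact ih h' hin
    | cons w ws => exact absurd h (by intro h; cases h)

/-- a walk ends with its continuation -/
theorem walk_dich {β : Type} (nxv msv u0 : ℕ) (k : KW β) (t : Tr) :
    ∀ closed x i F es, ∃ l F' es', walk nxv msv u0 k t closed x i F es = k l F' es' := by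
  induction t with
  | nil => intro closed x i F es; exact ⟨[], F, es, rfl⟩
  | nd op cl t1 t2 t0 ih1 ih2 ih0 =>
    intro closed x i F es
    have key : walk nxv msv u0 k (Tr.nd op cl t1 t2 t0) closed x i F es =
      ifb closed (k cl F es)
        (ifb (Nat.beq (Nat.land (Nat.shiftRight nxv (Nat.mul 8 x)) 255) 0)
          (k op (Nat.add F (Nat.shiftLeft (Nat.land (Nat.shiftRight msv (Nat.mul 8 x)) 255) i)) (List.cons x es))
          (wM u0 (Nat.shiftRight (Nat.land (Nat.shiftRight nxv (Nat.mul 8 x)) 255) 5) (Nat.land (Nat.shiftRight nxv (Nat.mul 8 x)) 31) (Nat.add i 8)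
            (Nat.add F (Nat.shiftLeft (Nat.land (Nat.shiftRight msv (Nat.mul 8 x)) 255) i)) (List.cons x es)
            (walk nxv msv u0 k t1) (walk nxv msv u0 k t2) (walk nxv msv u0 k t0))) := rfl
    rw [key, ifb_eq]
    split_ifs with hc
    · exact ⟨_, _, _, rfl⟩
    · rw [ifb_eq]
      split_ifs with h0
      · exact ⟨_, _, _, rfl⟩
      · unfold wM
        rw [ifb_eq]
        split_ifs with h1
        · exact ih1 _ _ _ _ _
        · rw [ifb_eq]
          split_ifs with h2
          · exact ih2 _ _ _ _ _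
          · exact ih0 _ _ _ _ _

theorem vcheck_dich (s : St) (v u : ℕ) (kn : Bool) (ks : St → Bool) :
    vcheck tyTt triet s v u kn ks = kn ∨ ∃ s', vcheck tyTt triet s v u kn ks = ks s' := by
  unfold vcheck
  rw [ifb_eq]
  split_ifs with h0
  · exact Or.inr ⟨s, rfl⟩
  · obtain ⟨l, F', es', hw⟩ := walk_dich (Nat.shiftRight s.nx (Nat.mul 128 v))
      (Nat.shiftRight s.ms (Nat.mul 128 v)) (Nat.succ u)
      (vc2 s v kn ks (tyOf tyTt v (Nat.land (Nat.shiftRight s.cnt (Nat.mul 8 v)) 255))) (triet v)
      false u 0 0 []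
    rw [hw]
    unfold vc2 vc3
    rw [ifb_eq]
    split_ifs with h1
    · exact Or.inl rfl
    · rw [ifb_eq]
      split_ifs with h2
      · exact Or.inr ⟨_, rfl⟩
      · exact Or.inr ⟨_, rfl⟩

theorem vchecks_dich (l : List ℕ) (s : St) (kn : Bool) (ks : St → Bool) :
    vchecks tyTt triet kn ks l s = kn ∨ ∃ s', vchecks tyTt triet kn ks l s = ks s' := by
  induction l generalizing s with
  | nil => exact Or.inr ⟨s, rfl⟩
  | cons q l ih =>
    have key : vchecks tyTt triet kn ks (q :: l) s =
      vcheck tyTt triet s (Nat.shiftRight q 4) (Nat.land q 15) kn (vchecks tyTt triet kn ks l) := rfl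
    rw [key]
    rcases vcheck_dich s (Nat.shiftRight q 4) (Nat.land q 15) kn (vchecks tyTt triet kn ks l) with
      h | ⟨s', h⟩
    · exact Or.inl h
    · rw [h]; exact ih s'

/-- the node step -/
theorem kNode_bad {x y a : ℕ} {s s' : St} {pl : Pl} {ihc ih : KC}
    (hc : ∀ (pl : Pl) (a : ℕ) (s : St), ihc pl a s = true →
      ∀ rc dr ws, InPl rc dr ws pl → BadP M s a rc dr ws)
    (h : kNode2 awTt FTt x y ihc ih a s pl s' = true) : Bad M s' ∧ ih pl a s = true := by
  unfold kNode2 at h
  obtain ⟨h1, h⟩ := ifb_false_true h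
  unfold kNode3 at h
  obtain ⟨h2, h⟩ := ifb_false_true h
  obtain ⟨h3, h4⟩ := ifb_false_true h
  refine ⟨?_, h4⟩
  intro lab hG
  have hsm : Nat.ble s'.n 12 = true ∨ small (enumAll awTt FTt s' x y) = true := by
    rw [ifb_eq] at h2
    split_ifs at h2 with h5
    · exact Or.inl h5
    · exact Or.inr h2
  obtain ⟨rc, dr, ws, lab', hin, hG', hE⟩ := enum_complete hG h1 hsm
  exact hc _ _ _ h3 rc dr ws hin lab' hG' hE

theorem check_sound (L : List St) (hL : ∀ t ∈ L, Bad M t) (c : Cert) :
    ∀ (pl : Pl) (a : ℕ) (s : St), check tyTt awTt triet FTt L c pl a s = true →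
      ∀ rc dr ws, InPl rc dr ws pl → BadP M s a rc dr ws := by
  induction c with
  | stop =>
    intro pl a s h rc dr ws hin
    exact absurd hin (nextPl_stop h rc dr ws)
  | lc j u next ih =>
    intro pl a s h rc dr ws hin
    have h' : nextPl pl false (fun rc _ ws pl' => ifb (locConf tyTt triet s a rc ws j u)
      (check tyTt awTt triet FTt L next pl' a s) false) = true := h
    obtain ⟨rc1, dr1, ws1, pl1, h1, h2⟩ := nextPl_sound h'
    obtain ⟨h3, h4⟩ := ifb_false_true h1
    rcases h2 rc dr ws hin with ⟨rfl, rfl, rfl⟩ | hin'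
    · intro lab hG hE
      rw [locConf_sound hG hE j u] at h3
      exact absurd h3 (by decide)
    · exact ih _ _ _ h4 rc dr ws hin'
  | conf vs next ih =>
    intro pl a s h rc dr ws hin
    have h' : nextPl pl false (fun rc dr ws pl' => vchecks tyTt triet
      (check tyTt awTt triet FTt L next pl' a s) (fun _ => false) vs (place s a rc dr ws)) = true := h
    obtain ⟨rc1, dr1, ws1, pl1, h1, h2⟩ := nextPl_sound h'
    have h4 : check tyTt awTt triet FTt L next pl1 a s = true := by
      rcases vchecks_dich vs (place s a rc1 dr1 ws1) (check tyTt awTt triet FTt L next pl1 a s)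
        (fun _ => false) with h5 | ⟨s', h5⟩
      · rw [← h5]; exact h1
      · rw [h5] at h1; exact absurd h1 (by decide)
    rcases h2 rc dr ws hin with ⟨rfl, rfl, rfl⟩ | hin'
    · intro lab hG hE
      obtain ⟨s', _, hs'⟩ := vchecks_sound vs (hG.place hE)
      rw [hs'] at h1
      exact absurd h1 (by decide)
    · exact ih _ _ _ h4 rc dr ws hin'
  | far mu t next ih =>
    intro pl a s h rc dr ws hin
    have h' : nextPl pl false (fun rc dr ws pl' => ifb (lenCheck (place s a rc dr ws) mu t)
      (check tyTt awTt triet FTt L next pl' a s) false) = true := h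
    obtain ⟨rc1, dr1, ws1, pl1, h1, h2⟩ := nextPl_sound h'
    obtain ⟨h3, h4⟩ := ifb_false_true h1
    rcases h2 rc dr ws hin with ⟨rfl, rfl, rfl⟩ | hin'
    · intro lab hG hE
      rw [lenCheck_sound (hG.place hE) mu t] at h3
      exact absurd h3 (by decide)
    · exact ih _ _ _ h4 rc dr ws hin'
  | node vs x y child next ihc ih =>
    intro pl a s h rc dr ws hin
    have h' : nextPl pl false (fun rc dr ws pl' => vchecks tyTt triet
      (check tyTt awTt triet FTt L next pl' a s)
      (kNode2 awTt FTt x y (check tyTt awTt triet FTt L child) (check tyTt awTt triet FTt L next)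
        a s pl') vs (place s a rc dr ws)) = true := h
    obtain ⟨rc1, dr1, ws1, pl1, h1, h2⟩ := nextPl_sound h'
    have h4 : check tyTt awTt triet FTt L next pl1 a s = true := by
      rcases vchecks_dich vs (place s a rc1 dr1 ws1) (check tyTt awTt triet FTt L next pl1 a s)
        (kNode2 awTt FTt x y (check tyTt awTt triet FTt L child) (check tyTt awTt triet FTt L next)
          a s pl1) with h5 | ⟨s', h5⟩
      · rw [← h5]; exact h1
      · rw [h5] at h1
        exact (kNode_bad ihc h1).2
    rcases h2 rc dr ws hin with ⟨rfl, rfl, rfl⟩ | hin'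
    · intro lab hG hE
      obtain ⟨s', hG', hs'⟩ := vchecks_sound vs (hG.place hE)
      rw [hs'] at h1
      exact (kNode_bad ihc h1).1 lab hG'
    · exact ih _ _ _ h4 rc dr ws hin'
  | asm vs i next ih =>
    intro pl a s h rc dr ws hin
    have h' : nextPl pl false (fun rc dr ws pl' => vchecks tyTt triet
      (check tyTt awTt triet FTt L next pl' a s)
      (fun s' => ifb (eqN s' L i) (check tyTt awTt triet FTt L next pl' a s) false)
        vs (place s a rc dr ws)) = true := h
    obtain ⟨rc1, dr1, ws1, pl1, h1, h2⟩ := nextPl_sound h'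
    have h4 : check tyTt awTt triet FTt L next pl1 a s = true := by
      rcases vchecks_dich vs (place s a rc1 dr1 ws1) (check tyTt awTt triet FTt L next pl1 a s)
        (fun s' => ifb (eqN s' L i) (check tyTt awTt triet FTt L next pl1 a s) false)
          with h5 | ⟨s', h5⟩
      · rw [← h5]; exact h1
      · rw [h5] at h1
        exact (ifb_false_true h1).2
    rcases h2 rc dr ws hin with ⟨rfl, rfl, rfl⟩ | hin'
    · intro lab hG hE
      obtain ⟨s', hG', hs'⟩ := vchecks_sound vs (hG.place hE)
      rw [hs'] at h1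
      exact hL s' (eqN_sound (ifb_false_true h1).1) lab hG'
    · exact ih _ _ _ h4 rc dr ws hin'

/-- a state with an accepted certificate cannot be realised -/
theorem node_sound (L : List St) (hL : ∀ t ∈ L, Bad M t) (c : Cert) (x y a : ℕ) (s s' : St) (pl : Pl)
    (h : kNode2 awTt FTt x y (check tyTt awTt triet FTt L c) (fun _ _ _ => true) a s pl s' = true) :
    Bad M s' :=
  (kNode_bad (check_sound L hL c) h).1

end Chk
end Pool.Agent.Lib.MP_ba95e8_co
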