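/-!
Deltahedral domes: the checker of the case analysis.
-/

namespace Pool.Agent.Lib.MP_ba95e8_co
namespace Chk
noncomputable section

abbrev ifb {α : Type} (b : Bool) (t e : α) : α := Bool.rec (motive := fun _ => α) e t b

/-- a placed face: first label, reversed labels, reversed directions (times 16), reversed codes -/
structure Fa where
  a : Nat
  ws : List Nat
  dr : List Nat
  rc : List Nat

structure St where
  n : Nat
  nx : Nat
  st : Nat
  en : Nat
  cof : Nat
  cnt : Nat
  ms : Nat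
  fs : List Fa

/-- face types: reversed codes, reversed directions, code indices of the first two corners and of the rest -/
structure PT where
  rc : List Nat
  dr : List Nat
  e0 : Nat
  e1 : Nat
  rest : List Nat

inductive Tr where
  | nil : Tr
  | nd (op cl : List Nat) (t1 t2 t0 : Tr) : Tr

def hd (d : Nat) (l : List Nat) : Nat := List.rec (motive := fun _ => Nat) d (fun x _ _ => x) l
def tl (l : List Nat) : List Nat := List.rec (motive := fun _ => List Nat) [] (fun _ x _ => x) l

variable (tyT awT : Nat → Nat) (trie : Nat → Tr) (FT : List PT)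

/-- acceptance words: bit `8 v + e + q` -/
def awMask (cnt n : Nat) : Nat :=
  Nat.rec (motive := fun _ => Nat) 0
    (fun x r => Nat.add r (Nat.shiftLeft (Nat.land (Nat.shiftRight (awT x) (Nat.mul 8 (Nat.land (Nat.shiftRight cnt (Nat.mul 8 x)) 255))) 255) (Nat.mul 8 x))) n

abbrev Ws := List Nat
abbrev K1 := (prev ix nn avail : Nat) → Ws → List Ws → List Ws

def bitLoop (f : Nat → List Ws → List Ws) (fuel : Nat) : Nat → List Ws → List Ws :=
  Nat.rec (motive := fun _ => Nat → List Ws → List Ws) (fun _ o => o)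
    (fun _ ih m o => Bool.rec (motive := fun _ => List Ws)
      (ih (Nat.sub m (Nat.shiftLeft 1 (Nat.log2 m))) (f (Nat.log2 m) o)) o (Nat.beq m 0)) fuel

def bt (a i : Nat) : Bool := Nat.beq (Nat.land (Nat.shiftRight a i) 1) 1

def eL2 (aw ia ea e ix : Nat) (ws : Ws) (stp m4 : Nat) (o1 : List Ws) : List Ws :=
  bitLoop (fun x o =>
    ifb (bt aw (Nat.add ix (Nat.land (Nat.shiftRight stp x) 1)))
      (ifb (bt aw (Nat.add (Nat.add (Nat.mul 8 x) e) (Nat.add (Nat.land (Nat.shiftRight stp x) 1) (Nat.land (Nat.shiftRight ea x) 1))))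
        (ifb (bt aw (Nat.add ia (Nat.land (Nat.shiftRight ea x) 1))) (List.cons (List.cons x ws) o) o) o) o) 16 m4 o1
def eN2 (aw e ix nn avail : Nat) (ih : K1) (ws : Ws) (stp m4 : Nat) (o1 : List Ws) : List Ws :=
  bitLoop (fun x o =>
    ifb (bt aw (Nat.add ix (Nat.land (Nat.shiftRight stp x) 1)))
      (ih x (Nat.add (Nat.add (Nat.mul 8 x) e) (Nat.land (Nat.shiftRight stp x) 1)) nn (Nat.sub avail (Nat.land avail (Nat.shiftLeft 1 x))) (List.cons x ws) o) o) 16 m4 o1

def eL (aw ia ea la acc e ix nn avail : Nat) (ws : Ws) (o : List Ws) (stp nc : Nat) : List Ws :=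
  eL2 aw ia ea e ix ws stp (Nat.land avail (Nat.land (Nat.lor nc stp) (Nat.land la (Nat.lor acc stp))))
    (ifb (bt aw ix) (ifb (bt aw ia) (List.cons (List.cons nn ws) o) o) o)
def eN (aw ca acc e ix nn avail : Nat) (ih : K1) (ws : Ws) (o : List Ws) (stp nc : Nat) : List Ws :=
  eN2 aw e ix nn (Nat.land avail nc) ih ws stp (Nat.land avail (Nat.land (Nat.lor nc stp) (Nat.land ca (Nat.lor acc stp))))
    (ifb (bt aw ix) (ih nn (Nat.add (Nat.mul 8 nn) e) (Nat.succ nn) (Nat.land avail nc) (List.cons nn ws) o) o)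

/-- `nm` all labels, `ca` labels not in `cof a`, `la = ca ∪ en a` -/
def enumRec (st cof nm aw ia ea ca la ac1 ac2 : Nat) (rest : List Nat) : K1 :=
  List.rec (motive := fun _ => K1)
    (fun _ _ _ _ _ out => out)
    (fun e r ih prev ix nn avail ws o =>
      List.rec (motive := fun _ => List Ws)
        (eL aw ia ea la (ifb (Nat.beq e 0) ac1 ac2) e ix nn avail ws o
          (Nat.land (Nat.shiftRight st (Nat.mul 16 prev)) 65535) (Nat.sub nm (Nat.land nm (Nat.shiftRight cof (Nat.mul 16 prev)))))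
        (fun _ _ _ => eN aw ca (ifb (Nat.beq e 0) ac1 ac2) e ix nn avail ih ws o
          (Nat.land (Nat.shiftRight st (Nat.mul 16 prev)) 65535) (Nat.sub nm (Nat.land nm (Nat.shiftRight cof (Nat.mul 16 prev))))) r) rest

/-- labels `x < n` with bit `8 x + e` of `aw` -/
def accM (aw e n : Nat) : Nat :=
  Nat.rec (motive := fun _ => Nat) 0
    (fun x r => Nat.add r (Nat.shiftLeft (Nat.land (Nat.shiftRight aw (Nat.add (Nat.mul 8 x) e)) 1) x)) n

def enum1 (n st cof a b nm aw ea ca ac1 ac2 e0 e1 : Nat) (rest : List Nat) : List Ws :=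
  ifb (Nat.beq (Nat.land (Nat.shiftRight aw (Nat.add (Nat.mul 8 a) (Nat.add e0 1))) 3) 0) []
    (ifb (Nat.beq (Nat.land (Nat.shiftRight aw (Nat.add (Nat.mul 8 b) (Nat.add e1 1))) 3) 0) []
      (enumRec st cof nm aw (Nat.add (Nat.mul 8 a) (Nat.add e0 1)) ea ca (Nat.lor ca ea) ac1 ac2 rest b
        (Nat.add (Nat.mul 8 b) (Nat.add e1 1)) n (Nat.sub nm (Nat.add (Nat.shiftLeft 1 a) (Nat.shiftLeft 1 b))) (List.cons b (List.cons a [])) []))

inductive Pl where
  | nil : Pl
  | cons (rc dr : List Nat) (l : List Ws) (r : Pl) : Pl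

def enum3 (n st cof a b nm aw ea ca ac1 ac2 : Nat) : Pl :=
  List.rec (motive := fun _ => Pl) Pl.nil
    (fun p _ r => PT.rec (motive := fun _ => Pl) (fun rc dr e0 e1 rest =>
      Pl.cons rc dr (enum1 n st cof a b nm aw ea ca ac1 ac2 e0 e1 rest) r) p) FT
def enum2 (n st cof a b nm aw ea : Nat) : Pl :=
  enum3 FT n st cof a b nm aw ea (Nat.sub nm (Nat.land nm (Nat.shiftRight cof (Nat.mul 16 a)))) (accM aw 1 n) (accM aw 4 n)
def enumAll (s : St) (a b : Nat) : Pl :=
  St.rec (motive := fun _ => Pl) (fun n _ st en cof cnt _ _ =>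
    enum2 FT n st cof a b (Nat.sub (Nat.shiftLeft 1 n) 1)
      (Nat.add (awMask awT cnt n) (Nat.shiftLeft 0x3f3f3f3f3f3f (Nat.mul 8 n)))
      (Nat.land (Nat.shiftRight en (Nat.mul 16 a)) 65535)) s

/-! placing. lists are reversed: the element after `v` is its predecessor, the element before is its successor -/
def addNx (f : Nat) (ws : Ws) : (rc : List Nat) → (w nx : Nat) → Nat :=
  List.rec (motive := fun _ => (rc : List Nat) → (w nx : Nat) → Nat)
    (fun _ _ nx => nx)
    (fun v rest ih rc w nx => ih (tl rc) v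
      (Nat.add nx (Nat.shiftLeft (Nat.add (Nat.succ w) (Nat.mul 32 (hd 0 rc))) (Nat.mul 8 (Nat.add (Nat.mul 16 v) (hd f rest)))))) ws
def pa (en v u : Nat) : Nat := Nat.land (Nat.shiftRight en (Nat.add (Nat.mul 16 v) u)) 1
def dl (c : Nat) : Nat := Nat.shiftRight (Nat.shiftLeft 1 (Nat.mul 3 c)) 3
def addCnt (st en f : Nat) (ws : Ws) : (rc : List Nat) → (w cnt : Nat) → Nat :=
  List.rec (motive := fun _ => (rc : List Nat) → (w cnt : Nat) → Nat)
    (fun _ _ c => c)
    (fun v rest ih rc w cnt => ih (tl rc) v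
      (Nat.sub (Nat.add cnt (Nat.shiftLeft (Nat.add (dl (hd 0 rc)) 32) (Nat.mul 8 v)))
        (Nat.shiftLeft (Nat.add (pa en v (hd f rest)) (pa st v w)) (Nat.add 5 (Nat.mul 8 v))))) ws
/-- new value of st: for each corner remove `w` if present, add `u` if not an end -/
def addSt (st en f : Nat) (ws : Ws) : (w x : Nat) → Nat :=
  List.rec (motive := fun _ => (w x : Nat) → Nat)
    (fun _ x => x)
    (fun v rest ih w x => ih v
      (Nat.sub (Nat.add x (Nat.shiftLeft (Nat.sub 1 (pa en v (hd f rest))) (Nat.add (Nat.mul 16 v) (hd f rest))))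
        (Nat.shiftLeft (pa st v w) (Nat.add (Nat.mul 16 v) w)))) ws
def addEn (st en f : Nat) (ws : Ws) : (w x : Nat) → Nat :=
  List.rec (motive := fun _ => (w x : Nat) → Nat)
    (fun _ x => x)
    (fun v rest ih w x => ih v
      (Nat.sub (Nat.add x (Nat.shiftLeft (Nat.sub 1 (pa st v w)) (Nat.add (Nat.mul 16 v) w)))
        (Nat.shiftLeft (pa en v (hd f rest)) (Nat.add (Nat.mul 16 v) (hd f rest))))) ws
def maskOf (ws : Ws) : Nat := List.rec (motive := fun _ => Nat) 0 (fun x _ r => Nat.add (Nat.shiftLeft 1 x) r) ws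
def addCof (m : Nat) (ws : Ws) (cof : Nat) : Nat :=
  List.rec (motive := fun _ => Nat) cof (fun x _ r => Nat.lor r (Nat.shiftLeft m (Nat.mul 16 x))) ws
def maxL (n : Nat) (ws : Ws) : Nat := List.rec (motive := fun _ => Nat) n (fun x _ r => ifb (Nat.ble r x) (Nat.succ x) r) ws

def place (s : St) (a : Nat) (rc dr ws : List Nat) : St :=
  St.rec (motive := fun _ => St) (fun n nx st en cof cnt ms fs =>
    St.mk (maxL n ws) (addNx (hd 0 ws) ws rc a nx) (addSt st en (hd 0 ws) ws a st) (addEn st en (hd 0 ws) ws a en)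
      (addCof (maskOf ws) ws cof) (addCnt st en (hd 0 ws) ws rc a cnt) ms (List.cons (Fa.mk a ws dr rc) fs)) s

/-- chain traversal along the trie; F accumulates forbidden masks -/
abbrev KW (β : Type) := List Nat → (F : Nat) → List Nat → β
abbrev KT (β : Type) := (closed : Bool) → (x i F : Nat) → List Nat → β

def wM {β : Type} (u0 c w i F : Nat) (es : List Nat) (ih1 ih2 ih0 : KT β) : β :=
  ifb (Nat.beq c 1) (ih1 (Nat.beq w u0) (Nat.sub w 1) i F es) (ifb (Nat.beq c 2) (ih2 (Nat.beq w u0) (Nat.sub w 1) i F es) (ih0 (Nat.beq w u0) (Nat.sub w 1) i F es))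
/-- `u0` is the start plus one -/
def walk {β : Type} (nxv msv u0 : Nat) (k : KW β) (t : Tr) : KT β :=
  Tr.rec (motive := fun _ => KT β) (fun _ _ _ F es => k [] F es)
    (fun op cl _ _ _ ih1 ih2 ih0 closed x i F es =>
      ifb closed (k cl F es)
        (ifb (Nat.beq (Nat.land (Nat.shiftRight nxv (Nat.mul 8 x)) 255) 0)
          (k op (Nat.add F (Nat.shiftLeft (Nat.land (Nat.shiftRight msv (Nat.mul 8 x)) 255) i)) (List.cons x es))
          (wM u0 (Nat.shiftRight (Nat.land (Nat.shiftRight nxv (Nat.mul 8 x)) 255) 5) (Nat.land (Nat.shiftRight nxv (Nat.mul 8 x)) 31) (Nat.add i 8)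
            (Nat.add F (Nat.shiftLeft (Nat.land (Nat.shiftRight msv (Nat.mul 8 x)) 255) i)) (List.cons x es) ih1 ih2 ih0))) t

def scan1 (I r : Nat) : Nat := ifb (Nat.beq (Nat.land (Nat.add I 0x7f7f7f7f7f7f) 0x808080808080) 0x808080808080) (Nat.lor r I) r
def scan (ty cur : Nat) (l : List Nat) : Nat :=
  List.rec (motive := fun _ => Nat) 0
    (fun e _ r => ifb (Nat.beq (Nat.land ty e) 0) r (scan1 (Nat.land (Nat.shiftRight e 9) cur) r)) l
/-- is there any match? -/
def anyM (ty cur : Nat) (l : List Nat) : Bool :=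
  List.rec (motive := fun _ => Bool) false
    (fun e _ r => ifb (Nat.beq (Nat.land ty e) 0) r
      (ifb (Nat.beq (Nat.land (Nat.add (Nat.land (Nat.shiftRight e 9) cur) 0x7f7f7f7f7f7f) 0x808080808080) 0x808080808080) true r)) l

def wrMs (ms i new : Nat) : Nat :=
  Nat.sub (Nat.add ms (Nat.shiftLeft new i)) (Nat.shiftLeft (Nat.land (Nat.shiftRight ms i) 255) i)
def wr2 (ms v x new : Nat) : Nat := wrMs (wrMs ms (Nat.mul 8 (Nat.add (Nat.mul 16 v) x)) new) (Nat.mul 8 (Nat.add (Nat.mul 16 x) v)) new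
/-- es reversed list of edges; out packed forbidden masks -/
def wrAll (v out : Nat) (es : List Nat) : (i ms : Nat) → Nat :=
  List.rec (motive := fun _ => (i ms : Nat) → Nat) (fun _ ms => ms)
    (fun x _ ih i ms => ih (Nat.sub i 8) (wr2 ms v x (Nat.land (Nat.shiftRight out i) 255))) es
def lenL (l : List Nat) : Nat := List.rec (motive := fun _ => Nat) 0 (fun _ _ r => Nat.succ r) l

def setMs (s : St) (ms : Nat) : St :=
  St.rec (motive := fun _ => St) (fun n nx st en cof cnt _ fs => St.mk n nx st en cof cnt ms fs) s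
def vc3 {β : Type} (s : St) (v : Nat) (kn : β) (ks : St → β) (cur : Nat) (es : List Nat) (out : Nat) : β :=
  ifb (Nat.beq out 0) kn (ifb (Nat.beq out cur) (ks s)
    (ks (setMs s (wrAll v (Nat.sub 0x1f1f1f1f1f1f out) es (Nat.mul 8 (Nat.sub (lenL es) 1)) s.ms))))
def vc2 {β : Type} (s : St) (v : Nat) (kn : β) (ks : St → β) (ty : Nat) : KW β :=
  fun l F es => vc3 s v kn ks (Nat.sub 0x1f1f1f1f1f1f F) es (scan ty (Nat.sub 0x1f1f1f1f1f1f F) l)
def tyOf (v cnt : Nat) : Nat := Nat.land (Nat.shiftRight (tyT v) (Nat.mul 16 cnt)) 511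
def vcheck {β : Type} (s : St) (v u : Nat) (kn : β) (ks : St → β) : β :=
  ifb (Nat.beq (Nat.land (Nat.shiftRight s.nx (Nat.mul 8 (Nat.add (Nat.mul 16 v) u))) 255) 0) (ks s)
   (walk (Nat.shiftRight s.nx (Nat.mul 128 v)) (Nat.shiftRight s.ms (Nat.mul 128 v)) (Nat.succ u)
    (vc2 s v kn ks (tyOf tyT v (Nat.land (Nat.shiftRight s.cnt (Nat.mul 8 v)) 255))) (trie v) false u 0 0 [])

def vchecks {β : Type} (kn : β) (ks : St → β) (l : List Nat) : St → β :=
  List.rec (motive := fun _ => St → β) ks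
    (fun q _ ih s => vcheck tyT trie s (Nat.shiftRight q 4) (Nat.land q 15) kn ih) l

/-- local conflict at the corner (u, v, w) with code c, chain start u0 -/
def loc3 (nxv msv cnt v u0 : Nat) : Bool :=
  ifb (Nat.beq (Nat.land (Nat.shiftRight nxv (Nat.mul 8 u0)) 255) 0) false
   (walk nxv msv (Nat.succ u0)
    (fun l F _ => ifb (anyM (tyOf tyT v cnt) (Nat.sub 0x1f1f1f1f1f1f F) l) false true) (trie v) false u0 0 0 [])
def loc2 (nx st en cnt ms v u w c u0 : Nat) : Bool :=
  loc3 tyT trie (Nat.add (Nat.land (Nat.shiftRight nx (Nat.mul 128 v)) 0xffffffffffffffffffffffffffffffff) (Nat.shiftLeft (Nat.add (Nat.succ w) (Nat.mul 32 c)) (Nat.mul 8 u)))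
    (Nat.shiftRight ms (Nat.mul 128 v))
    (Nat.sub (Nat.add (Nat.land (Nat.shiftRight cnt (Nat.mul 8 v)) 255) (Nat.add (dl c) 32)) (Nat.mul 32 (Nat.add (pa en v u) (pa st v w)))) v u0
def corner {β : Type} (k : (v u w c : Nat) → β) (d : β) (f : Nat) (ws : Ws) : (rc : List Nat) → (j w : Nat) → β :=
  List.rec (motive := fun _ => (rc : List Nat) → (j w : Nat) → β)
    (fun _ _ _ => d)
    (fun v rest ih rc j w => ifb (Nat.beq j 0) (k v (hd f rest) w (hd 0 rc)) (ih (tl rc) (Nat.sub j 1) v)) ws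
def locConf (s : St) (a : Nat) (rc ws : List Nat) (j u0 : Nat) : Bool :=
  St.rec (motive := fun _ => Bool) (fun _ nx st en _ cnt ms _ =>
    corner (fun v u w c => loc2 tyT trie nx st en cnt ms v u w c u0) false (hd 0 ws) ws rc j a) s

/-! length certificates: slot of the dart (x,y): low byte positive part, high byte negative part -/
def mulW (m : Nat) : Nat :=
  Nat.add (Nat.add (Nat.mul (Nat.land m 15) 0x000100000100010000000001) (Nat.mul (Nat.land (Nat.shiftRight m 4) 15) 0x010000000001000100000100))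
    (Nat.add (Nat.mul (Nat.land (Nat.shiftRight m 8) 15) 0x010001000000000100010000) (Nat.mul (Nat.land (Nat.shiftRight m 12) 15) 0x000100010000010001000000))
def faceQ (W : Nat) (ws : List Nat) : (dr : List Nat) → (w q : Nat) → Nat :=
  List.rec (motive := fun _ => (dr : List Nat) → (w q : Nat) → Nat)
    (fun _ _ q => q)
    (fun v _ ih dr w q => ih (tl dr) v
      (Nat.add q (Nat.shiftLeft (Nat.land (Nat.shiftRight W (hd 96 dr)) 65535) (Nat.mul 16 (Nat.add (Nat.mul 16 v) w))))) ws
def chk1 (T r : Nat) : Nat := ifb (Nat.ble (Nat.shiftRight T 8) (Nat.land T 255)) (ifb (Nat.beq (Nat.shiftRight T 8) (Nat.land T 255)) r 3) 0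
def chkFace (q : Nat) (ws : List Nat) : (w r : Nat) → Nat :=
  List.rec (motive := fun _ => (w r : Nat) → Nat) (fun _ r => r)
    (fun v _ ih w r =>
      ifb (Nat.beq r 0) 0 (ih v (chk1 (Nat.add (Nat.land (Nat.shiftRight q (Nat.mul 16 (Nat.add (Nat.mul 16 v) w))) 65535)
        (Nat.land (Nat.shiftRight q (Nat.mul 16 (Nat.add (Nat.mul 16 w) v))) 65535)) r))) ws

def faceQs (fs : List Fa) : (mu : List Nat) → (q : Nat) → Nat :=
  List.rec (motive := fun _ => (mu : List Nat) → (q : Nat) → Nat)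
    (fun _ q => q)
    (fun F _ ih mu q => List.rec (motive := fun _ => Nat) q
      (fun m mu' _ => ih mu' (ifb (Nat.beq m 0) q (Fa.rec (motive := fun _ => Nat) (fun a ws dr _ => faceQ (mulW m) ws dr a q) F))) mu) fs
def chkFaces (q : Nat) (fs : List Fa) : (mu : List Nat) → (r : Nat) → Nat :=
  List.rec (motive := fun _ => (mu : List Nat) → (r : Nat) → Nat)
    (fun _ r => r)
    (fun F _ ih mu r => List.rec (motive := fun _ => Nat) r
      (fun m mu' _ => ih mu' (ifb (Nat.beq m 0) r (Fa.rec (motive := fun _ => Nat) (fun a ws _ _ => chkFace q ws a r) F))) mu) fs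

/-- base inequality multipliers `t0` for l01+l02-l12 > 0, `t1` for l12-l01 >= 0, `t2` for l01-l02>=0, `t3` for l12-l02>0;
contributions of minus g on the slots (0,1), (1,2), (0,2) -/
def len2 (fs : List Fa) (mu : List Nat) (t0 t3 : Nat) (q : Nat) : Bool :=
  Nat.beq (chkFace q (List.cons 0 (List.cons 1 (List.cons 2 []))) 2 (chkFaces q fs mu (ifb (Nat.beq (Nat.add t0 t3) 0) 2 3))) 3
def len1 (fs : List Fa) (mu : List Nat) (t0 t1 t2 t3 : Nat) : Bool :=
  len2 fs mu t0 t3 (faceQs fs mu
    (Nat.add (Nat.shiftLeft (Nat.add t1 (Nat.mul 256 (Nat.add t0 t2))) 16)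
      (Nat.add (Nat.shiftLeft (Nat.add t0 (Nat.mul 256 (Nat.add t1 t3))) 288)
        (Nat.shiftLeft (Nat.add (Nat.add t2 t3) (Nat.mul 256 t0)) 32))))
def lenCheck (s : St) (mu : List Nat) (t : Nat) : Bool :=
  len1 s.fs mu (Nat.land t 15) (Nat.land (Nat.shiftRight t 4) 15) (Nat.land (Nat.shiftRight t 8) 15) (Nat.land (Nat.shiftRight t 12) 15)

/-! certificates -/
inductive Cert where
  | stop : Cert
  | lc (j u : Nat) (next : Cert) : Cert
  | conf (vs : List Nat) (next : Cert) : Cert
  | far (mu : List Nat) (t : Nat) (next : Cert) : Cert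
  | node (vs : List Nat) (a b : Nat) (child next : Cert) : Cert
  | asm (vs : List Nat) (i : Nat) (next : Cert) : Cert

def eqL (l : List Nat) : List Nat → Bool :=
  List.rec (motive := fun _ => List Nat → Bool) (fun m => List.rec (motive := fun _ => Bool) true (fun _ _ _ => false) m)
    (fun x _ ih m => List.rec (motive := fun _ => Bool) false (fun y m' _ => ifb (Nat.beq x y) (ih m') false) m) l
def eqFa (x y : Fa) : Bool :=
  ifb (Nat.beq x.a y.a) (ifb (eqL x.ws y.ws) (ifb (eqL x.dr y.dr) (eqL x.rc y.rc) false) false) false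
def eqF (l : List Fa) : List Fa → Bool :=
  List.rec (motive := fun _ => List Fa → Bool) (fun m => List.rec (motive := fun _ => Bool) true (fun _ _ _ => false) m)
    (fun x _ ih m => List.rec (motive := fun _ => Bool) false (fun y m' _ => ifb (eqFa x y) (ih m') false) m) l
def eqS (s t : St) : Bool :=
  ifb (Nat.beq s.n t.n) (ifb (Nat.beq s.nx t.nx) (ifb (Nat.beq s.st t.st) (ifb (Nat.beq s.en t.en) (ifb (Nat.beq s.cof t.cof)
    (ifb (Nat.beq s.cnt t.cnt) (ifb (Nat.beq s.ms t.ms) (eqF s.fs t.fs) false) false) false) false) false) false) false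
/-- the state number `i` of the list is `s` -/
def eqN (s : St) (l : List St) : Nat → Bool :=
  List.rec (motive := fun _ => Nat → Bool) (fun _ => false) (fun x _ ih n => ifb (Nat.beq n 0) (eqS s x) (ih (Nat.sub n 1))) l

abbrev KC := Pl → (a : Nat) → St → Bool

/-- take the next placement -/
def nextPl (pl : Pl) (kE : Bool) (kP : List Nat → List Nat → Ws → Pl → Bool) : Bool :=
  Pl.rec (motive := fun _ => Bool) kE
    (fun rc dr l r ih => List.rec (motive := fun _ => Bool) ih (fun w ws _ => kP rc dr w (Pl.cons rc dr ws r)) l) pl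

def small (pl : Pl) : Bool :=
  Pl.rec (motive := fun _ => Bool) true
    (fun _ _ l _ ih => List.rec (motive := fun _ => Bool) ih (fun ws _ r => ifb (Nat.ble (maxL 0 ws) 16) r false) l) pl
def kNode3 (ihc ih : KC) (x a : Nat) (s : St) (pl pl' : Pl) (s' : St) : Bool :=
  ifb (ifb (Nat.ble s'.n 12) true (small pl')) (ifb (ihc pl' x s') (ih pl a s) false) false
def kNode2 (x y : Nat) (ihc ih : KC) (a : Nat) (s : St) (pl : Pl) (s' : St) : Bool :=
  ifb (bt (Nat.land (Nat.shiftRight s'.en (Nat.mul 16 y)) 65535) x) (kNode3 ihc ih x a s pl (enumAll awT FT s' x y) s') false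

def check (L : List St) (c : Cert) : KC :=
  Cert.rec (motive := fun _ => KC)
    (fun pl _ _ => nextPl pl true (fun _ _ _ _ => false))
    (fun j u _ ih pl a s => nextPl pl false (fun rc _ ws pl' => ifb (locConf tyT trie s a rc ws j u) (ih pl' a s) false))
    (fun vs _ ih pl a s => nextPl pl false (fun rc dr ws pl' => vchecks tyT trie (ih pl' a s) (fun _ => false) vs (place s a rc dr ws)))
    (fun mu t _ ih pl a s => nextPl pl false (fun rc dr ws pl' => ifb (lenCheck (place s a rc dr ws) mu t) (ih pl' a s) false))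
    (fun vs x y _ _ ihc ih pl a s => nextPl pl false (fun rc dr ws pl' =>
      vchecks tyT trie (ih pl' a s) (kNode2 awT FT x y ihc ih a s pl') vs (place s a rc dr ws)))
    (fun vs i _ ih pl a s => nextPl pl false (fun rc dr ws pl' =>
      vchecks tyT trie (ih pl' a s) (fun s' => ifb (eqN s' L i) (ih pl' a s) false) vs (place s a rc dr ws)))
    c

end

end Chk
end Pool.Agent.Lib.MP_ba95e8_co
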