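import Pool.Agent.Lib.MP_ba95e8_co.Dome

/-!
Deltahedral domes, task D2: combinatorial properties of the faces of a dome.
-/

namespace Pool.Agent.Lib.MP_ba95e8_co

open scoped RealInnerProductSpace

variable {K : Set E3} {b : ℕ → E3}

/-! ### cyclic lists from periodic functions -/

lemma range_rot {α : Type*} (F : ℤ → α) (m : ℕ) (hF : ∀ i, F (i + m) = F i) {x : α} {l : List α}
    (h : x :: l = (List.range m).map (fun i : ℕ => F i)) :
    l ++ [x] = (List.range m).map (fun i : ℕ => F (i + 1)) := by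
  cases m with
  | zero => simp at h
  | succ k =>
    rw [List.range_succ_eq_map] at h
    simp only [List.map_cons, List.map_map, List.cons.injEq] at h
    obtain ⟨h1, h2⟩ := h
    rw [List.range_succ, List.map_append, h2, h1]
    congr 1
    have := hF 0
    simp at this
    simp [this]

lemma range_rotated {α : Type*} (F : ℤ → α) (m : ℕ) (hm : 0 < m) (hF : ∀ i, F (i + m) = F i)
    (a : ℤ) : (List.range m).map (fun i : ℕ => F (i + a)) ~r
      (List.range m).map (fun i : ℕ => F i) := by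
  have hnat : ∀ a : ℕ, (List.range m).map (fun i : ℕ => F (i + a)) ~r
      (List.range m).map (fun i : ℕ => F i) := by
    intro a
    induction a with
    | zero => simpa using List.IsRotated.refl _
    | succ a ih =>
      refine List.IsRotated.trans ?_ ih
      cases hl : (List.range m).map (fun i : ℕ => F (i + a)) with
      | nil => simp at hl; omega
      | cons x l =>
        have h1 := range_rot (fun i => F (i + a)) m (fun i => by
          have := hF (i + a)
          rwa [show i + a + m = i + m + a by ring] at this) (x := x) (l := l) hl.symm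
        have h2 : (List.range m).map (fun i : ℕ => F (i + ((a + 1 : ℕ) : ℤ))) = l ++ [x] := by
          rw [h1]
          apply List.map_congr_left
          intro i _
          push_cast
          congr 1
          ring
        rw [h2]
        exact List.isRotated_concat x l
  have hper : Function.Periodic F (m : ℤ) := hF
  obtain ⟨c, hc⟩ := Int.eq_ofNat_of_zero_le (Int.emod_nonneg a (b := (m : ℤ)) (by omega))
  have h1 : (fun i : ℕ => F (i + a)) = (fun i : ℕ => F (i + c)) := by
    ext1 i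
    have h2 : a = a % m + (a / m) * m := by
      rw [mul_comm]; exact (Int.emod_add_mul_ediv a m).symm
    rw [h2, ← hc, ← add_assoc]
    exact (hper.int_mul (a / m)) (i + a % m)
  rw [h1]
  exact hnat c

/-! ### the faces -/

/-- facet with codes -/
def FR (K : Set E3) (b : ℕ → E3) (n : E3) (m : ℕ) (p : ℤ → E3) (c : ℤ → ℕ) : Prop :=
  Fc K n m p ∧
    ((IsCoded n m p c ∧ convexHull ℝ (Set.range p) ≠ convexHull ℝ {b 0, b 1, b 2}) ∨
      (convexHull ℝ (Set.range p) = convexHull ℝ {b 0, b 1, b 2} ∧ ∀ i, c i = 0))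

lemma faceRel_iff {l : List (E3 × ℕ)} : faceRel K b l ↔ ∃ n m p c, FR K b n m p c ∧
    l = (List.range m).map (fun i : ℕ => (p i, c i)) := by
  unfold faceRel FR
  constructor
  · rintro ⟨n, m, p, c, h1, h2, h3⟩
    exact ⟨n, m, p, c, ⟨h1, h2⟩, h3⟩
  · rintro ⟨n, m, p, c, ⟨h1, h2⟩, h3⟩
    exact ⟨n, m, p, c, h1, h2, h3⟩

lemma IsCoded.shift {n : E3} {m : ℕ} {p : ℤ → E3} {c : ℤ → ℕ} (h : IsCoded n m p c) (a : ℤ) :
    IsCoded n m (fun i => p (i + a)) (fun i => c (i + a)) := by
  obtain ⟨D, k, h1, h2, h3, h4, h5, h6⟩ := h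
  refine ⟨D, fun i => k (i + a), h1, ?_, ?_, ?_, ?_, ?_⟩
  · intro i
    have := h2 (i + a)
    rwa [show i + a + m = i + m + a by ring] at this
  · intro i; exact h3 (i + a)
  · intro i
    have := h4 (i + a)
    rwa [show i + a + 1 = i + 1 + a by ring] at this
  · intro i
    have := h5 (i + a)
    rwa [show i + a + 1 = i + 1 + a by ring] at this
  · intro i
    have := h6 (i + a)
    rwa [show i + a + m = i + m + a by ring] at this

lemma range_shift (p : ℤ → E3) (a : ℤ) : Set.range (fun i => p (i + a)) = Set.range p := by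
  have := (Equiv.addRight a).surjective.range_comp p
  simpa [Function.comp_def] using this

lemma FR.shift {n : E3} {m : ℕ} {p : ℤ → E3} {c : ℤ → ℕ} (h : FR K b n m p c) (a : ℤ) :
    FR K b n m (fun i => p (i + a)) (fun i => c (i + a)) := by
  refine ⟨h.1.shift a, ?_⟩
  rw [range_shift]
  rcases h.2 with h2 | h2
  · exact Or.inl ⟨h2.1.shift a, h2.2⟩
  · exact Or.inr ⟨h2.1, fun i => h2.2 _⟩

lemma FR.per {n : E3} {m : ℕ} {p : ℤ → E3} {c : ℤ → ℕ} (h : FR K b n m p c) (i : ℤ) :
    (p (i + m), c (i + m)) = (p i, c i) := by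
  rw [h.1.poly.per]
  rcases h.2 with h2 | h2
  · obtain ⟨D, k, h3, h4, _⟩ := h2.1
    rw [h4]
  · rw [h2.2, h2.2]

/-- the codes are determined by the polygon -/
lemma IsCoded.uniq {n : E3} {m : ℕ} {p : ℤ → E3} {c c' : ℤ → ℕ} (hp : IsPoly n m p)
    (h : IsCoded n m p c) (h' : IsCoded n m p c') : c = c' := by
  have key : ∀ c : ℤ → ℕ, IsCoded n m p c → ∀ i,
      ((c i = 1 ∧ ⟪(dist (p (i - 1)) (p i))⁻¹ • (p i - p (i - 1)),
        (dist (p i) (p (i + 1)))⁻¹ • (p (i + 1) - p i)⟫ = - 1 / 2) ∨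
      (c i = 2 ∧ ⟪(dist (p (i - 1)) (p i))⁻¹ • (p i - p (i - 1)),
        (dist (p i) (p (i + 1)))⁻¹ • (p (i + 1) - p i)⟫ = 1 / 2)) := by
    intro c hc i
    obtain ⟨D, k, hD, h2, h3, h4, h5, h6⟩ := hc
    have hne : ∀ i, p i ≠ p (i + 1) := by
      intro i he
      rw [hp.inj] at he
      have := Int.le_of_dvd (by omega) he
      have := hp.three
      omega
    have e1 : (dist (p (i - 1)) (p i))⁻¹ • (p i - p (i - 1)) = D (k (i - 1)) := by
      have h7 := h4 (i - 1)
      rw [sub_add_cancel] at h7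
      have h8 := hne (i - 1)
      rw [sub_add_cancel] at h8
      rw [h7, smul_smul, inv_mul_cancel₀ (dist_pos.mpr h8).ne', one_smul]
    have e2 : (dist (p i) (p (i + 1)))⁻¹ • (p (i + 1) - p i) = D (k i) := by
      rw [h4 i, smul_smul, inv_mul_cancel₀ (dist_pos.mpr (hne i)).ne', one_smul]
    have e3 : k i = k (i - 1) + (3 - (c i : ℤ)) := by
      have := h5 (i - 1)
      rwa [sub_add_cancel] at this
    rw [e1, e2]
    rcases h3 i with h7 | h7
    · left
      refine ⟨h7, ?_⟩
      rw [h7] at e3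
      have e4 : k i = k (i - 1) + 2 := by rw [e3]; norm_num
      rw [e4, hD.rec', inner_sub_right, hD.inner, real_inner_self_eq_norm_sq, hD.norm]
      norm_num
    · right
      refine ⟨h7, ?_⟩
      rw [h7] at e3
      have e4 : k i = k (i - 1) + 1 := by rw [e3]; norm_num
      rw [e4, hD.inner]
  ext1 i
  rcases key c h i with h1 | h1 <;> rcases key c' h' i with h2 | h2
  · rw [h1.1, h2.1]
  · exfalso; linarith [h1.2, h2.2]
  · exfalso; linarith [h1.2, h2.2]
  · rw [h1.1, h2.1]

lemma FR.uniq {n : E3} {m : ℕ} {p : ℤ → E3} {c c' : ℤ → ℕ} (h : FR K b n m p c)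
    (h' : FR K b n m p c') : c = c' := by
  rcases h.2 with h1 | h1 <;> rcases h'.2 with h2 | h2
  · exact h1.1.uniq h.1.poly h2.1
  · exact absurd h2.1 h1.2
  · exact absurd h1.1 h2.2
  · ext1 i; rw [h1.2, h2.2]

lemma FR.ex (h : Dome K b) {n : E3} {m : ℕ} {p : ℤ → E3} (hf : Fc K n m p) :
    ∃ c, FR K b n m p c := by
  by_cases he : convexHull ℝ (Set.range p) = convexHull ℝ {b 0, b 1, b 2}
  · exact ⟨fun _ => 0, hf, Or.inr ⟨he, fun _ => rfl⟩⟩
  · obtain ⟨c, hc⟩ := h.coded n m p hf he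
    exact ⟨c, hf, Or.inl ⟨hc, he⟩⟩

/-- facets with the same hull are equal up to a shift -/
lemma Fc.same_hull (hint : (interior K).Nonempty) {n n' : E3} {m m' : ℕ} {p p' : ℤ → E3}
    (h : Fc K n m p) (h' : Fc K n' m' p')
    (he : convexHull ℝ (Set.range p) = convexHull ℝ (Set.range p')) :
    n = n' ∧ m = m' ∧ ∃ a : ℤ, ∀ i, p' i = p (i + a) := by
  have hc : ∀ k, ⟪n', p k⟫ = ⟪n', p 0⟫ := by
    have h1 : ∀ k, ⟪n', p k⟫ = ⟪n', p' 0⟫ := by
      intro k
      have h2 : p k ∈ convexHull ℝ (Set.range p') := by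
        rw [← he]; exact h.mem' k
      rw [← h'.eq] at h2
      exact h2.2
    intro k; rw [h1, h1]
  have h1 := h.poly.const h.unit hc
  have h2 : ‖n'‖ = |⟪n', n⟫| := by
    conv_lhs => rw [h1]
    rw [norm_smul, h.unit, mul_one, Real.norm_eq_abs]
  rw [h'.unit] at h2
  have hnn : n = n' := by
    rcases eq_or_eq_neg_of_abs_eq h2.symm with h3 | h3
    · exact ((inner_eq_one_iff_of_norm_eq_one (𝕜 := ℝ) h'.unit h.unit).mp h3).symm
    · exfalso
      have h4 : p' 0 ∈ convexHull ℝ (Set.range p) := by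
        rw [he]; exact h'.mem' 0
      rw [← h.eq] at h4
      obtain ⟨i, hi⟩ := h.vertex (h'.extreme 0) h4.2
      apply Fc.not_opp hint (h.shift i) h' (by simpa using hi.symm)
      refine ((inner_eq_one_iff_of_norm_eq_one (𝕜 := ℝ) h.unit ?_).mp ?_)
      · rw [norm_neg]; exact h'.unit
      · rw [inner_neg_right, real_inner_comm, h3]; norm_num
  subst hnn
  obtain ⟨hm, a, ha⟩ := h.same h'
  exact ⟨rfl, hm, a, ha⟩

lemma Dome.baseFR (h : Dome K b) : ∃ n p, FR K b n 3 p (fun _ => 0) ∧ p 0 = b 2 ∧ p 1 = b 1 ∧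
    p 2 = b 0 := by
  obtain ⟨n, p, hf, h0, h1, h2⟩ := h.base
  refine ⟨n, p, ⟨hf, Or.inr ⟨?_, fun _ => rfl⟩⟩, h0, h1, h2⟩
  congr 1
  ext x
  constructor
  · rintro ⟨i, rfl⟩
    have hper : Function.Periodic p (3 : ℤ) := hf.poly.per
    have h3 : p i = p (i % 3) := by
      have h4 : i = i % 3 + (i / 3) * 3 := by omega
      conv_lhs => rw [h4]
      exact (hper.int_mul (i / 3)) (i % 3)
    have h5 : i % 3 = 0 ∨ i % 3 = 1 ∨ i % 3 = 2 := by omega
    rw [h3]
    rcases h5 with h5 | h5 | h5 <;> rw [h5]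
    · rw [h0]; simp
    · rw [h1]; simp
    · rw [h2]; simp
  · intro hx
    simp only [Set.mem_insert_iff, Set.mem_singleton_iff] at hx
    rcases hx with rfl | rfl | rfl
    · exact ⟨2, h2⟩
    · exact ⟨1, h1⟩
    · exact ⟨0, h0⟩

theorem Dome.rot (h : Dome K b) : ∀ x l, faceRel K b (x :: l) → faceRel K b (l ++ [x]) := by
  intro x l hl
  rw [faceRel_iff] at hl ⊢
  obtain ⟨n, m, p, c, hf, he⟩ := hl
  exact ⟨n, m, _, _, hf.shift 1, range_rot (fun i => (p i, c i)) m hf.per he⟩

theorem Dome.nodup (h : Dome K b) : ∀ l, faceRel K b l → (l.map Prod.fst).Nodup := by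
  intro l hl
  rw [faceRel_iff] at hl
  obtain ⟨n, m, p, c, hf, rfl⟩ := hl
  rw [List.map_map]
  refine List.Nodup.map_on ?_ List.nodup_range
  intro i hi j hj hij
  simp only [Function.comp, List.mem_range] at hij hi hj
  rw [hf.1.poly.inj] at hij
  have := Int.eq_zero_of_abs_lt_dvd hij (by rw [abs_lt]; omega)
  omega

theorem Dome.codes (h : Dome K b) :
    ∀ l, faceRel K b l → l.map Prod.snd ∈ FT ∨ l.map Prod.snd = [0, 0, 0] := by
  intro l hl
  rw [faceRel_iff] at hl
  obtain ⟨n, m, p, c, hf, rfl⟩ := hl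
  rw [List.map_map]
  rcases hf.2 with h1 | h1
  · left
    obtain ⟨D, k, hD, h2, h3, h4, h5, h6⟩ := h1.1
    have hm := hf.1.poly.three
    have hsum : ∀ t : ℕ, k t = k 0 + 3 * t - ∑ i ∈ Finset.range t, (c (i + 1) : ℤ) := by
      intro t
      induction t with
      | zero => simp
      | succ t ih =>
        rw [Finset.sum_range_succ]
        push_cast
        rw [h5, ih]
        ring
    have hs := hsum m
    have h60 := h6 0
    rw [zero_add] at h60
    rw [h60] at hs
    have hrot : ∑ i ∈ Finset.range m, (c (i + 1) : ℤ) = ∑ i ∈ Finset.range m, (c i : ℤ) := by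
      have e1 := Finset.sum_range_succ (fun i : ℕ => (c i : ℤ)) m
      have e2 := Finset.sum_range_succ' (fun i : ℕ => (c i : ℤ)) m
      rw [e1] at e2
      have e3 := h2 0
      rw [zero_add] at e3
      push_cast at e2
      rw [e3] at e2
      linarith
    rw [hrot] at hs
    have hle : ∑ i ∈ Finset.range m, (c i : ℤ) ≤ ∑ i ∈ Finset.range m, (2 : ℤ) := by
      apply Finset.sum_le_sum
      intro i _
      rcases h3 i with h7 | h7 <;> rw [h7] <;> norm_num
    simp only [Finset.sum_const, Finset.card_range, nsmul_eq_mul] at hle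
    have hm6 : m ≤ 6 := by
      have : (m : ℤ) ≤ 6 := by linarith
      exact_mod_cast this
    have h30 := h3 0
    have h31 := h3 1
    have h32 := h3 2
    have h33 := h3 3
    have h34 := h3 4
    have h35 := h3 5
    interval_cases m
    · simp only [Finset.sum_range_succ, Finset.sum_range_zero] at hs
      norm_num at hs
      rcases h30 with a0 | a0 <;> rcases h31 with a1 | a1 <;> rcases h32 with a2 | a2 <;>
        first
          | (exfalso; omega)
          | simp [FT, List.range_succ, a0, a1, a2]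
    · simp only [Finset.sum_range_succ, Finset.sum_range_zero] at hs
      norm_num at hs
      rcases h30 with a0 | a0 <;> rcases h31 with a1 | a1 <;> rcases h32 with a2 | a2 <;>
        rcases h33 with a3 | a3 <;>
        first
          | (exfalso; omega)
          | simp [FT, List.range_succ, a0, a1, a2, a3]
    · simp only [Finset.sum_range_succ, Finset.sum_range_zero] at hs
      norm_num at hs
      rcases h30 with a0 | a0 <;> rcases h31 with a1 | a1 <;> rcases h32 with a2 | a2 <;>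
        rcases h33 with a3 | a3 <;> rcases h34 with a4 | a4 <;>
        first
          | (exfalso; omega)
          | simp [FT, List.range_succ, a0, a1, a2, a3, a4]
    · simp only [Finset.sum_range_succ, Finset.sum_range_zero] at hs
      norm_num at hs
      rcases h30 with a0 | a0 <;> rcases h31 with a1 | a1 <;> rcases h32 with a2 | a2 <;>
        rcases h33 with a3 | a3 <;> rcases h34 with a4 | a4 <;> rcases h35 with a5 | a5 <;>
        first
          | (exfalso; omega)
          | simp [FT, List.range_succ, a0, a1, a2, a3, a4, a5]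
  · right
    obtain ⟨n', p', hb, -⟩ := h.baseFR
    have he : convexHull ℝ (Set.range p) = convexHull ℝ (Set.range p') := by
      rcases hb.2 with h2 | h2
      · obtain ⟨D, k, hD, h3, h4, _⟩ := h2.1
        have := h4 0
        simp at this
      · rw [h1.1, h2.1]
    obtain ⟨-, hm, -⟩ := Fc.same_hull h.int hf.1 hb.1 he
    subst hm
    simp [List.range_succ, h1.2]

theorem Dome.bne (h : Dome K b) : b 0 ≠ b 1 ∧ b 1 ≠ b 2 ∧ b 0 ≠ b 2 := by
  obtain ⟨n, p, hf, h0, h1, h2⟩ := h.base
  rw [← h0, ← h1, ← h2]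
  refine ⟨?_, ?_, ?_⟩ <;>
  · intro he
    rw [hf.poly.inj] at he
    omega

theorem Dome.base' (h : Dome K b) : faceRel K b [(b 2, 0), (b 1, 0), (b 0, 0)] := by
  obtain ⟨n, p, hf, h0, h1, h2⟩ := h.baseFR
  rw [faceRel_iff]
  refine ⟨n, 3, p, _, hf, ?_⟩
  simp [List.range_succ, h0, h1, h2]

theorem Dome.base_uniq (h : Dome K b) :
    ∀ l, faceRel K b l → l.map Prod.snd = [0, 0, 0] → l ~r [(b 2, 0), (b 1, 0), (b 0, 0)] := by
  intro l hl hz
  rw [faceRel_iff] at hl
  obtain ⟨n, m, p, c, hf, rfl⟩ := hl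
  obtain ⟨n', p', hb, e0, e1, e2⟩ := h.baseFR
  have hm3 : m = 3 := by
    have := congrArg List.length hz
    simpa using this
  subst hm3
  rcases hf.2 with h1 | h1
  · exfalso
    obtain ⟨D, k, hD, h3, h4, _⟩ := h1.1
    simp [List.range_succ] at hz
    have := h4 0
    omega
  · have he : convexHull ℝ (Set.range p) = convexHull ℝ (Set.range p') := by
      rcases hb.2 with h2 | h2
      · obtain ⟨D, k, hD, h3, h4, _⟩ := h2.1
        have := h4 0
        simp at this
      · rw [h1.1, h2.1]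
    obtain ⟨-, -, a, ha⟩ := Fc.same_hull h.int hf.1 hb.1 he
    have h3 : [(b 2, 0), (b 1, 0), (b 0, 0)] =
        (List.range 3).map (fun i : ℕ => (p (i + a), c (i + a))) := by
      simp [List.range_succ, h1.2, ← e0, ← e1, ← e2, ha]
    rw [h3]
    exact (range_rotated (fun i => (p i, c i)) 3 (by norm_num) hf.per a).symm

lemma map_range_two {α : Type*} (F : ℤ → α) {m : ℕ} (hm : 2 ≤ m) :
    ∃ l, (List.range m).map (fun i : ℕ => F i) = F 0 :: F 1 :: l := by
  obtain ⟨k, rfl⟩ := Nat.exists_eq_add_of_le' hm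
  rw [List.range_succ_eq_map, List.range_succ_eq_map]
  simp

theorem Dome.opp (h : Dome K b) : ∀ x y l, faceRel K b (x :: y :: l) →
    ∃ c d l', faceRel K b ((y.1, c) :: (x.1, d) :: l') := by
  intro x y l hl
  rw [faceRel_iff] at hl
  obtain ⟨n, m, p, c, hf, he⟩ := hl
  obtain ⟨l1, hl1⟩ := map_range_two (fun i => (p i, c i)) (m := m)
    (by have := hf.1.poly.three; omega)
  rw [hl1] at he
  simp only [List.cons.injEq] at he
  obtain ⟨hx, hy, -⟩ := he
  obtain ⟨S, hS, rfl⟩ := h.fin
  obtain ⟨n', m', p', hf', h0, h1⟩ := Fc.opp hS h.int h.all hf.1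
  obtain ⟨c', hc'⟩ := FR.ex h hf'
  obtain ⟨l2, hl2⟩ := map_range_two (fun i => (p' i, c' i)) (m := m')
    (by have := hf'.poly.three; omega)
  refine ⟨c' 0, c' 1, l2, ?_⟩
  rw [faceRel_iff]
  refine ⟨n', m', p', c', hc', ?_⟩
  rw [hl2, hx, hy]
  simp only [h0, h1]

theorem Dome.uniq (h : Dome K b) : ∀ x y c d l c' d' l', faceRel K b ((x, c) :: (y, d) :: l) →
    faceRel K b ((x, c') :: (y, d') :: l') → c = c' ∧ d = d' ∧ l = l' := by
  intro x y c d l c' d' l' h1 h2
  rw [faceRel_iff] at h1 h2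
  obtain ⟨n, m, p, C, hf, he⟩ := h1
  obtain ⟨n', m', p', C', hf', he'⟩ := h2
  obtain ⟨l1, hl1⟩ := map_range_two (fun i => (p i, C i)) (m := m)
    (by have := hf.1.poly.three; omega)
  obtain ⟨l2, hl2⟩ := map_range_two (fun i => (p' i, C' i)) (m := m')
    (by have := hf'.1.poly.three; omega)
  have he2 := he
  have he2' := he'
  rw [hl1] at he
  rw [hl2] at he'
  simp only [List.cons.injEq, Prod.mk.injEq] at he he'
  obtain ⟨⟨a1, a2⟩, ⟨a3, a4⟩, a5⟩ := he
  obtain ⟨⟨b1, b2⟩, ⟨b3, b4⟩, b5⟩ := he'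
  obtain ⟨hn, hm, hp⟩ := Fc.uniq h.int hf.1 hf'.1 (by rw [← a1, ← b1]) (by rw [← a3, ← b3])
  subst hn hm hp
  have hC := hf.uniq hf'
  subst hC
  rw [hl1] at hl2
  simp only [List.cons.injEq, true_and] at hl2
  exact ⟨by rw [a2, b2], by rw [a4, b4], by rw [a5, b5, hl2]⟩

lemma FR.dart {n : E3} {m : ℕ} {p : ℤ → E3} {c : ℤ → ℕ} (h : FR K b n m p c) (i : ℤ) :
    DartIn ((List.range m).map (fun i : ℕ => (p i, c i))) (p i) (p (i + 1)) := by
  have hm := h.1.poly.three
  obtain ⟨l1, hl1⟩ := map_range_two (fun j => (p (j + i), c (j + i))) (m := m) (by omega)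
  simp only [zero_add] at hl1
  refine ⟨c i, c (1 + i), l1, ?_⟩
  have h1 := range_rotated (fun i => (p i, c i)) m (by omega) h.per i
  rw [hl1] at h1
  rw [add_comm i 1]
  exact h1

theorem Dome.common (h : Dome K b) : ∀ l l' x y, faceRel K b l → faceRel K b l' → x ≠ y →
    x ∈ l.map Prod.fst → y ∈ l.map Prod.fst → x ∈ l'.map Prod.fst → y ∈ l'.map Prod.fst →
    l ~r l' ∨ (DartIn l x y ∧ DartIn l' y x) ∨ (DartIn l y x ∧ DartIn l' x y) := by
  intro l l' x y h1 h2 hxy hx hy hx' hy'
  rw [faceRel_iff] at h1 h2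
  obtain ⟨n, m, p, C, hf, rfl⟩ := h1
  obtain ⟨n', m', p', C', hf', rfl⟩ := h2
  simp only [List.map_map, List.mem_map, List.mem_range, Function.comp] at hx hy hx' hy'
  obtain ⟨i, -, rfl⟩ := hx
  obtain ⟨j, -, rfl⟩ := hy
  obtain ⟨i', -, hi'⟩ := hx'
  obtain ⟨j', -, hj'⟩ := hy'
  rcases Fc.common h.int hf.1 hf'.1 hi'.symm hj'.symm hxy with h3 | h3 | h3
  · left
    subst h3
    obtain ⟨hm, a, ha⟩ := hf.1.same hf'.1
    subst hm
    have hp' : p' = fun i => p (i + a) := by ext1 i; exact ha i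
    subst hp'
    have hC := hf'.uniq (hf.shift a)
    subst hC
    have hm := hf.1.poly.three
    exact (range_rotated (fun i => (p i, C i)) m (by omega) hf.per a).symm
  · right; left
    refine ⟨?_, ?_⟩
    · rw [h3.1]; exact hf.dart i
    · rw [← hi', ← hj', h3.2]; exact hf'.dart j'
  · right; right
    refine ⟨?_, ?_⟩
    · rw [h3.1]; exact hf.dart j
    · rw [← hi', ← hj', h3.2]; exact hf'.dart i'

end Pool.Agent.Lib.MP_ba95e8_co
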