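import Pool.Agent.Lib.MP_ba95e8_co.Dome
import Pool.Agent.Lib.MP_ba95e8_co.DomeComb

/-!
Deltahedral domes, task D4: lengths, closure, directions and convexity for the faces of a dome.
-/

namespace Pool.Agent.Lib.MP_ba95e8_co

open scoped RealInnerProductSpace

variable {K : Set E3} {b : ℕ → E3}

lemma map_range_three' {α : Type*} (F : ℤ → α) {m : ℕ} (hm : 3 ≤ m) :
    ∃ l, (List.range m).map (fun i : ℕ => F i) = F 0 :: F 1 :: F 2 :: l := by
  obtain ⟨k, rfl⟩ := Nat.exists_eq_add_of_le' hm
  rw [List.range_succ_eq_map, List.range_succ_eq_map, List.range_succ_eq_map]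
  simp

theorem Dome.len_pos (_h : Dome K b) : ∀ v w l, faceRel K b (v :: w :: l) → 0 < dist v.1 w.1 := by
  intro v w l hl
  rw [faceRel_iff] at hl
  obtain ⟨n, m, p, c, hf, he⟩ := hl
  obtain ⟨l1, hl1⟩ := map_range_two (fun i => (p i, c i)) (m := m)
    (by have := hf.1.poly.three; omega)
  rw [hl1] at he
  simp only [List.cons.injEq] at he
  rw [he.1, he.2.1]
  exact dist_pos.mpr hf.1.poly.ne_of.1.symm

lemma FR.coded_of (h : Dome K b) {n : E3} {m : ℕ} {p : ℤ → E3} {c : ℤ → ℕ}
    (hf : FR K b n m p c)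
    (hne : ((List.range m).map (fun i : ℕ => (p i, c i))).map Prod.snd ≠ [0, 0, 0]) :
    IsCoded n m p c := by
  rcases hf.2 with h1 | h1
  · exact h1.1
  · exfalso
    rcases h.codes _ (faceRel_iff.mpr ⟨n, m, p, c, hf, rfl⟩) with h2 | h2
    · obtain ⟨l1, hl1⟩ := map_range_three' (fun i => (p i, c i)) (m := m) hf.1.poly.three
      rw [hl1] at h2
      simp [FT, h1.2] at h2
    · exact hne h2

lemma IsDir.shift {n : E3} {D : ℤ → E3} (h : IsDir n D) (a : ℤ) : IsDir n (fun j => D (j + a)) where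
  norm k := h.norm _
  orth k := h.orth _
  inner k := by
    have := h.inner (k + a)
    rwa [show k + a + 1 = k + 1 + a by ring] at this
  rec' k := by
    have := h.rec' (k + a)
    rwa [show k + a + 1 = k + 1 + a by ring, show k + a + 2 = k + 2 + a by ring] at this
  opp k := by
    have := h.opp (k + a)
    rwa [show k + a + 3 = k + 3 + a by ring] at this
  det k := by
    have := h.det (k + a)
    rwa [show k + a + 1 = k + 1 + a by ring] at this

/-- the sides of the coded polygon, from the index `t` on -/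
lemma stepAux_of {m : ℕ} {p : ℤ → E3} {c : ℤ → ℕ} {D : ℤ → E3} {k : ℤ → ℤ}
    (hper : p m = p 0)
    (hs : ∀ i, p (i + 1) - p i = dist (p i) (p (i + 1)) • D (k i))
    (hk : ∀ i, k (i + 1) = k i + (3 - (c (i + 1) : ℤ))) (a : ℤ) :
    ∀ (r : ℕ) (t : ℤ), t + r + 1 = m →
      StepAux (fun j => D (j + a)) (p 0)
        ((List.range (r + 1)).map (fun i : ℕ => (p (t + i), c (t + i)))) (k t - a) := by
  intro r
  induction r with
  | zero =>
    intro t ht
    simp only [zero_add, List.range_one, List.map_cons, List.map_nil, StepAux, Nat.cast_zero,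
      add_zero] at ht ⊢
    have := hs t
    rw [ht, hper] at this
    rw [this, sub_add_cancel]
  | succ r ih =>
    intro t ht
    have h1 : (List.range (r + 1 + 1)).map (fun i : ℕ => (p (t + i), c (t + i))) =
        (p t, c t) :: (List.range (r + 1)).map (fun i : ℕ => (p (t + 1 + i), c (t + 1 + i))) := by
      rw [List.range_succ_eq_map]
      simp only [List.map_cons, List.map_map, Nat.cast_zero, add_zero]
      congr 1
      apply List.map_congr_left
      intro i _
      simp only [Function.comp]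
      push_cast
      rw [show t + (i + 1 : ℤ) = t + 1 + i by ring]
    have h2 := ih (t + 1) (by push_cast at ht ⊢; linarith)
    rw [h1]
    have h3 : (List.range (r + 1)).map (fun i : ℕ => (p (t + 1 + i), c (t + 1 + i))) =
        (p (t + 1), c (t + 1)) ::
          (List.range r).map (fun i : ℕ => (p (t + 1 + 1 + i), c (t + 1 + 1 + i))) := by
      rw [List.range_succ_eq_map]
      simp only [List.map_cons, List.map_map, Nat.cast_zero, add_zero]
      congr 1
      apply List.map_congr_left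
      intro i _
      simp only [Function.comp]
      push_cast
      rw [show t + 1 + (i + 1 : ℤ) = t + 1 + 1 + i by ring]
    rw [h3] at h2 ⊢
    simp only [StepAux]
    refine ⟨?_, ?_⟩
    · rw [hs t, sub_add_cancel]
    · have h4 : k t - a + (3 - (c (t + 1) : ℤ)) = k (t + 1) - a := by rw [hk]; ring
      rw [h4]
      exact h2

/-- directions and codes of a face -/
lemma Dome.geo_aux (h : Dome K b) : ∀ x l, faceRel K b (x :: l) →
    (x :: l).map Prod.snd ≠ [0, 0, 0] → ∃ n D, ‖n‖ = 1 ∧ IsDir n D ∧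
      StepAux D x.1 (x :: l) 0 ∧ ∀ y ∈ x :: l, y.2 = 1 ∨ y.2 = 2 := by
  intro x l hl hne
  rw [faceRel_iff] at hl
  obtain ⟨n, m, p, c, hf, he⟩ := hl
  rw [he] at hne
  have hc := hf.coded_of h hne
  obtain ⟨D, k, hD, h2, h3, h4, h5, h6⟩ := hc
  have hm := hf.1.poly.three
  have hper := hf.1.poly.per 0
  rw [zero_add] at hper
  obtain ⟨r, rfl⟩ : ∃ r, m = r + 1 := ⟨m - 1, by omega⟩
  have h7 := stepAux_of hper h4 h5 (k 0) r 0 (by push_cast; ring)
  simp only [zero_add, sub_self] at h7
  refine ⟨n, _, hf.1.unit, hD.shift (k 0), ?_, ?_⟩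
  · rw [he]
    have h8 : x.1 = p 0 := by
      obtain ⟨l1, hl1⟩ := map_range_two (fun i => (p i, c i)) (m := r + 1) (by omega)
      rw [hl1] at he
      simp only [List.cons.injEq] at he
      rw [he.1]
    rw [h8]
    exact h7
  · rw [he]
    intro y hy
    simp only [List.mem_map, List.mem_range] at hy
    obtain ⟨i, -, rfl⟩ := hy
    exact h3 i

theorem Dome.geo (h : Dome K b) : ∀ x l, faceRel K b (x :: l) →
    (x :: l).map Prod.snd ≠ [0, 0, 0] → ∃ n D, ‖n‖ = 1 ∧ IsDir n D ∧ StepAux D x.1 (x :: l) 0 := by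
  intro x l hl hne
  obtain ⟨n, D, h1, h2, h3, -⟩ := h.geo_aux x l hl hne
  exact ⟨n, D, h1, h2, h3⟩

lemma IsDir.expand {n : E3} {D : ℤ → E3} (h : IsDir n D) {k : ℤ} {j : ℕ} (hj : j < 6)
    (hkj : (6 : ℤ) ∣ k - j) : D k = Ux j • D 0 + Uy j • D 1 := by
  have hper : Function.Periodic D (6 : ℤ) := by
    intro i
    have h1 := h.opp (i + 3)
    rw [h.opp i, neg_neg, show i + 3 + 3 = i + 6 by ring] at h1
    exact h1
  obtain ⟨z, hz⟩ := hkj
  have h1 : D k = D j := by
    have h2 := (hper.int_mul z) j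
    rw [← h2]
    congr 1
    have h3 : ((z : ℤ) : ℤ) = z := rfl
    simp only [Int.cast_id]
    linarith
  have d2 : D 2 = D 1 - D 0 := by have := h.rec' 0; simpa using this
  have d3 : D 3 = - D 0 := by have := h.opp 0; simpa using this
  have d4 : D 4 = - D 1 := by have := h.opp 1; simpa using this
  have d5 : D 5 = - D 2 := by have := h.opp 2; simpa using this
  rw [h1]
  interval_cases j
  · simp [Ux, Uy]
  · simp [Ux, Uy]
  · simp [Ux, Uy, d2]; abel
  · simp [Ux, Uy, d3]
  · simp [Ux, Uy, d4]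
  · simp [Ux, Uy, d5, d2]; abel

lemma clos_aux {n : E3} {D : ℤ → E3} (h : IsDir n D) (f : E3) :
    ∀ (l : List (E3 × ℕ)) (x : E3 × ℕ) (k : ℤ) (j : ℕ), j < 6 → (6 : ℤ) ∣ k - j →
      StepAux D f (x :: l) k → (∀ y ∈ l, y.2 = 1 ∨ y.2 = 2) →
      closAux (fun v w => dist v w) Ux f (x :: l) j • D 0 +
        closAux (fun v w => dist v w) Uy f (x :: l) j • D 1 = f - x.1 := by
  intro l
  induction l with
  | nil =>
    intro x k j hj hkj hs _
    simp only [StepAux, closAux] at hs ⊢
    rw [hs, h.expand hj hkj, smul_add, smul_smul, smul_smul]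
  | cons y r ih =>
    intro x k j hj hkj hs hy
    simp only [StepAux] at hs
    have hy1 := hy y (by simp)
    have h1 := ih y (k + (3 - (y.2 : ℤ))) ((j + (if y.2 = 1 then 2 else 1)) % 6)
      (Nat.mod_lt _ (by norm_num)) (by
        obtain ⟨z, hz⟩ := hkj
        rcases hy1 with h2 | h2
        · rw [h2]
          simp only [if_true]
          push_cast
          omega
        · rw [h2]
          simp only [show ¬ (2 : ℕ) = 1 by norm_num, if_false]
          push_cast
          omega) hs.2 (fun y' hy' => hy y' (by simp [hy']))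
    have h2 : f - x.1 = (y.1 - x.1) + (f - y.1) := by abel
    rw [h2, ← h1, hs.1, h.expand hj hkj]
    simp only [closAux]
    module

lemma IsDir.indep {n : E3} {D : ℤ → E3} (h : IsDir n D) {s t : ℝ}
    (hst : s • D 0 + t • D 1 = 0) : s = 0 ∧ t = 0 := by
  have hd := h.det 0
  rw [zero_add] at hd
  have h3 : (0 : ℝ) < √3 / 2 := by positivity
  have h1 := congrArg (fun z => det3 n (D 0) z) hst
  have h2 := congrArg (fun z => det3 n z (D 1)) hst
  simp only [det3_add_right, det3_smul_right, det3_self', det3_add_mid, det3_smul_mid] at h1 h2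
  have e1 : det3 n (D 0) 0 = 0 := by simp [det3]
  have e2 : det3 n 0 (D 1) = 0 := by simp [det3]
  rw [e1, hd] at h1
  rw [e2, hd] at h2
  constructor
  · have : s * (√3 / 2) = 0 := by linarith
    exact (mul_eq_zero.mp this).resolve_right h3.ne'
  · have : t * (√3 / 2) = 0 := by linarith
    exact (mul_eq_zero.mp this).resolve_right h3.ne'

lemma Dome.clos (h : Dome K b) : ∀ x l, faceRel K b (x :: l) →
    (x :: l).map Prod.snd ≠ [0, 0, 0] → closAux (fun v w => dist v w) Ux x.1 (x :: l) 0 = 0 ∧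
      closAux (fun v w => dist v w) Uy x.1 (x :: l) 0 = 0 := by
  intro x l hl hne
  obtain ⟨n, D, h1, h2, h3, h4⟩ := h.geo_aux x l hl hne
  have h5 := clos_aux h2 x.1 l x 0 0 (by norm_num) (by simp) h3
    (fun y hy => h4 y (List.mem_cons_of_mem _ hy))
  rw [sub_self] at h5
  exact h2.indep h5

theorem Dome.closX (h : Dome K b) : ∀ x l, faceRel K b (x :: l) →
    (x :: l).map Prod.snd ≠ [0, 0, 0] → closAux (fun v w => dist v w) Ux x.1 (x :: l) 0 = 0 :=
  fun x l hl hne => (h.clos x l hl hne).1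

theorem Dome.closY (h : Dome K b) : ∀ x l, faceRel K b (x :: l) →
    (x :: l).map Prod.snd ≠ [0, 0, 0] → closAux (fun v w => dist v w) Uy x.1 (x :: l) 0 = 0 :=
  fun x l hl hne => (h.clos x l hl hne).2

theorem Dome.cvx (_h : Dome K b) : ∀ u v w r, faceRel K b (u :: v :: w :: r) →
    ∀ l' x, faceRel K b l' → x ∈ l'.map Prod.fst → x ∉ (u :: v :: w :: r).map Prod.fst →
    0 < det3 (u.1 - v.1) (w.1 - v.1) (x - v.1) := by
  intro u v w r hl l' x hl' hx hxn
  rw [faceRel_iff] at hl hl'
  obtain ⟨n, m, p, c, hf, he⟩ := hl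
  obtain ⟨n', m', p', c', hf', rfl⟩ := hl'
  simp only [List.map_map, List.mem_map, List.mem_range, Function.comp] at hx
  obtain ⟨i', -, rfl⟩ := hx
  have hm := hf.1.poly.three
  have he' := he
  obtain ⟨l1, hl1⟩ := map_range_three' (fun i => (p i, c i)) (m := m) hm
  rw [hl1] at he
  simp only [List.cons.injEq] at he
  obtain ⟨e1, e2, e3, -⟩ := he
  obtain ⟨t, ht, hdet⟩ := (hf.1.shift 1).normal_det
  norm_num at hdet
  have hext := hf'.1.extreme i'
  have hle := hf.1.le _ hext.1
  have hpl := hf.1.poly.plane 1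
  have h1 : ⟪n, p' i' - p 1⟫ ≤ 0 := by rw [inner_sub_right, hpl]; linarith
  have h2 : ⟪n, p' i' - p 1⟫ ≠ 0 := by
    intro h0
    rw [inner_sub_right, hpl] at h0
    obtain ⟨i, hi⟩ := hf.1.vertex hext (by linarith)
    apply hxn
    rw [he', hi]
    simp only [List.map_map, List.mem_map, List.mem_range, Function.comp]
    obtain ⟨j, hj⟩ := Int.eq_ofNat_of_zero_le (Int.emod_nonneg i (b := (m : ℤ)) (by omega))
    have hlt := Int.emod_lt_of_pos i (b := (m : ℤ)) (by omega)
    refine ⟨j, by omega, ?_⟩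
    rw [← hj]
    have h4 := hf.1.poly.per_mul (i % m) (i / m)
    rw [← h4]
    congr 1
    rw [mul_comm]
    exact Int.emod_add_mul_ediv i m
  have h3 : ⟪n, p' i' - p 1⟫ < 0 := lt_of_le_of_ne h1 h2
  rw [hdet] at h3
  rw [e1, e2, e3, det3_swap]
  have h5 : 0 < t * - det3 (p 2 - p 1) (p 0 - p 1) (p' i' - p 1) := by linarith
  exact (mul_pos_iff_of_pos_left ht).mp h5

end Pool.Agent.Lib.MP_ba95e8_co
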