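import Pool.Agent.Lib.MP_ba95e8_co.Basic

/-!
Deltahedral domes, task VR1: the perimeter of a strictly convex spherical polygon is less
than `2 π`.
-/

namespace Pool.Agent.Lib.MP_ba95e8_co

open scoped RealInnerProductSpace NNReal
open InnerProductGeometry

/-- three linearly independent vectors have angle sum less than `2 π` -/
theorem perim_triangle {x y z : E3} (h : det3 x y z ≠ 0) :
    angle x y + angle y z + angle z x < 2 * Real.pi := by
  have hy : y ≠ 0 := by
    rintro rfl
    exact h (by simp [det3])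
  have h1 := angle_le_angle_add_angle x (-y) z
  rw [angle_neg_right, angle_neg_left] at h1
  have h2 : angle x z ≠ Real.pi - angle x y + (Real.pi - angle y z) := by
    intro he
    rw [← angle_neg_right, ← angle_neg_left] at he
    rcases (angle_eq_angle_add_angle_iff (neg_ne_zero.2 hy)).1 he with h3 | h3
    · obtain ⟨-, r, -, rfl⟩ := angle_eq_pi_iff.1 h3
      exact h (by rw [det3_smul_right]; simp)
    · obtain ⟨s, t, hst⟩ := Submodule.mem_span_pair.1 h3
      apply h
      have : y = -((s : ℝ) • x + (t : ℝ) • z) := by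
        rw [eq_neg_iff_add_eq_zero, add_comm, ← eq_neg_iff_add_eq_zero]
        exact hst
      rw [this, det3_neg_mid, det3_add_mid, det3_smul_mid, det3_smul_mid]
      simp
  have h4 := lt_of_le_of_ne h1 h2
  rw [angle_comm z x]
  linarith

theorem perim_cone {x y z : E3} {c s t : ℝ} (hy : y ≠ 0) (hc : 0 < c) (hs : 0 ≤ s) (ht : 0 ≤ t)
    (h : c • y = s • x + t • z) : angle x y + angle y z = angle x z := by
  symm
  apply angle_eq_angle_add_add_angle_add_of_mem_span hy
  rw [Submodule.mem_span_pair]
  refine ⟨⟨s / c, by positivity⟩, ⟨t / c, by positivity⟩, ?_⟩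
  change (s / c) • x + (t / c) • z = y
  have e : y = c⁻¹ • (c • y) := by rw [smul_smul, inv_mul_cancel₀ hc.ne', one_smul]
  rw [e, h, smul_add, smul_smul, smul_smul, div_eq_inv_mul, div_eq_inv_mul]

theorem ring_perimeter (k : ℕ) (hk : 3 ≤ k) (a : ℕ → E3) (hu : ∀ i, ‖a i‖ = 1)
    (hp : ∀ i, a (i + k) = a i)
    (hc : ∀ i j, i + 1 < j → j < i + k → 0 < det3 (a i) (a (i + 1)) (a j)) :
    ∑ i ∈ Finset.range k, angle (a i) (a (i + 1)) < 2 * Real.pi := by
  have a0 : ∀ i, a i ≠ 0 := by
    intro i h
    have := hu i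
    rw [h, norm_zero] at this
    exact zero_ne_one this
  set P : E3 → ℝ := fun v => det3 (a 0) (a 1) v with hP
  have Ppos : ∀ i, 2 ≤ i → i < k → 0 < P (a i) := by
    intro i h2 h3
    exact hc 0 i (by omega) (by omega)
  have Pnn : ∀ i, 2 ≤ i → i ≤ k → 0 ≤ P (a i) := by
    intro i h2 h3
    rcases lt_or_eq_of_le h3 with h4 | h4
    · exact (Ppos i h2 h4).le
    · have : a i = a 0 := by rw [h4]; simpa using hp 0
      simp [hP, this]
  -- the points where the prolonged sides meet the plane of the first side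
  set x : ℕ → E3 := fun i => P (a i) • a (i + 1) - P (a (i + 1)) • a i with hx
  have Psmul : ∀ (t : ℝ) v, P (t • v) = t * P v := fun t v => det3_smul_right _ _ _ _
  have Padd : ∀ u v, P (u + v) = P u + P v := fun u v => det3_add_right _ _ _ _
  have Psub : ∀ u v, P (u - v) = P u - P v := fun u v => det3_sub_right _ _ _ _
  have Px : ∀ i, P (x i) = 0 := by
    intro i
    simp only [hx, Psub, Psmul]
    ring
  have Pa1 : P (a 1) = 0 := by simp [hP]
  -- `a (i+1)` lies between `a i` and `x i`
  have cone1 : ∀ i, 2 ≤ i → i < k → angle (a i) (a (i + 1)) + angle (a (i + 1)) (x i) =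
      angle (a i) (x i) := by
    intro i h2 h3
    apply perim_cone (c := P (a i)) (s := P (a (i + 1))) (t := 1) (a0 _) (Ppos i h2 h3)
      (Pnn (i + 1) (by omega) (by omega)) zero_le_one
    simp only [hx]
    rw [one_smul]
    abel
  -- determinants
  have d1 : ∀ i, 2 ≤ i → i + 1 < k → 0 < det3 (a (i + 1)) (x i) (a 1) := by
    intro i h2 h3
    have e : det3 (a (i + 1)) (x i) (a 1) = P (a (i + 1)) * det3 (a i) (a (i + 1)) (a 1) := by
      simp only [hx]
      rw [det3_sub_mid, det3_smul_mid, det3_smul_mid, det3_self, det3_swap]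
      ring
    rw [e]
    apply mul_pos (Ppos _ (by omega) h3)
    have := hc i (1 + k) (by omega) (by omega)
    rwa [hp 1] at this
  have d2 : ∀ i, 2 ≤ i → i + 1 < k → 0 < det3 (a (i + 1)) (x (i + 1)) (a 1) := by
    intro i h2 h3
    have e : det3 (a (i + 1)) (x (i + 1)) (a 1) =
        P (a (i + 1)) * det3 (a (i + 1)) (a (i + 1 + 1)) (a 1) := by
      simp only [hx]
      rw [det3_sub_mid, det3_smul_mid, det3_smul_mid, det3_self]
      ring
    rw [e]
    apply mul_pos (Ppos _ (by omega) h3)
    have := hc (i + 1) (1 + k) (by omega) (by omega)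
    rwa [hp 1] at this
  have d3 : ∀ i, 2 ≤ i → i + 1 < k → 0 < det3 (a (i + 1)) (x i) (x (i + 1)) := by
    intro i h2 h3
    have e : det3 (a (i + 1)) (x i) (x (i + 1)) =
        P (a (i + 1)) * (P (a (i + 1)) * det3 (a i) (a (i + 1)) (a (i + 1 + 1))) := by
      simp only [hx]
      rw [det3_sub_mid, det3_smul_mid, det3_smul_mid, det3_self, det3_sub_right, det3_smul_right,
        det3_smul_right, det3_self'', det3_swap]
      ring
    rw [e]
    have := hc i (i + 1 + 1) (by omega) (by omega)
    have h4 := Ppos _ (by omega) h3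
    positivity
  have d4 : ∀ i, 2 ≤ i → i + 1 < k → det3 (x (i + 1)) (x i) (a 1) = 0 := by
    intro i h2 h3
    have h4 := congrArg P (cramer (a (i + 1)) (x i) (a 1) (x (i + 1)))
    rw [Padd, Padd, Psmul, Psmul, Psmul, Psmul, Px, Px, Pa1] at h4
    have h5 := Ppos _ (by omega) h3
    have h6 : det3 (x (i + 1)) (x i) (a 1) * P (a (i + 1)) = 0 := by linarith
    rcases mul_eq_zero.1 h6 with h7 | h7
    · exact h7
    · exact absurd h7 h5.ne'
  have xne : ∀ i, 2 ≤ i → i + 1 < k → x (i + 1) ≠ 0 := by
    intro i h2 h3 h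
    have := d2 i h2 h3
    rw [h] at this
    simp [det3] at this
  have cone2 : ∀ i, 2 ≤ i → i + 1 < k → angle (x i) (x (i + 1)) + angle (x (i + 1)) (a 1) =
      angle (x i) (a 1) := by
    intro i h2 h3
    apply perim_cone (c := det3 (a (i + 1)) (x i) (a 1)) (s := det3 (a (i + 1)) (x (i + 1)) (a 1))
      (t := det3 (a (i + 1)) (x i) (x (i + 1))) (xne i h2 h3) (d1 i h2 h3) (d2 i h2 h3).le
      (d3 i h2 h3).le
    rw [cramer (a (i + 1)) (x i) (a 1) (x (i + 1)), d4 i h2 h3, zero_smul, zero_add]
  -- the main induction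
  have main : ∀ i, i + 3 ≤ k → ∑ j ∈ Finset.range (i + 2), angle (a (j + 1)) (a (j + 1 + 1)) +
      angle (a (i + 3)) (x (i + 2)) + angle (x (i + 2)) (a 1) < 2 * Real.pi := by
    intro i
    induction i with
    | zero =>
      intro h3
      rw [Finset.sum_range_succ, Finset.sum_range_succ, Finset.sum_range_zero]
      have h4 := cone1 2 le_rfl (by omega)
      have h5 : det3 (a 1) (a 2) (x 2) ≠ 0 := by
        have e : det3 (a 1) (a 2) (x 2) = P (a 2) * det3 (a 1) (a 2) (a 3) := by
          simp only [hx]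
          rw [det3_sub_right, det3_smul_right, det3_smul_right, det3_self']
          ring
        rw [e]
        have := hc 1 3 (by omega) (by omega)
        exact (mul_pos (Ppos 2 le_rfl (by omega)) this).ne'
      have h6 := perim_triangle h5
      norm_num at h4 ⊢
      linarith
    | succ i ih =>
      intro h3
      have h4 := ih (by omega)
      rw [Finset.sum_range_succ]
      have h5 := cone1 (i + 3) (by omega) (by omega)
      have h6 := cone2 (i + 2) (by omega) (by omega)
      have h7 := angle_le_angle_add_angle (a (i + 3)) (x (i + 2)) (x (i + 3))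
      have e1 : i + 1 + 3 = i + 3 + 1 := by ring
      have e2 : i + 1 + 2 = i + 3 := by ring
      have e3 : i + 2 + 1 = i + 3 := by ring
      rw [e1, e2, e3]
      rw [e3] at h6
      linarith
  obtain ⟨m, rfl⟩ := Nat.exists_eq_add_of_le' hk
  have h := main m le_rfl
  rw [Finset.sum_range_succ']
  have e0 : a (m + 3) = a 0 := by simpa using hp 0
  have hPp : 0 < P (a (m + 2)) := Ppos _ (by omega) (by omega)
  have ex : x (m + 2) = P (a (m + 2)) • a 0 := by
    simp only [hx]
    have : P (a (m + 2 + 1)) = 0 := by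
      rw [show m + 2 + 1 = m + 3 from rfl, e0]
      simp [hP]
    rw [this, zero_smul, sub_zero, show m + 2 + 1 = m + 3 from rfl, e0]
  rw [e0, ex, angle_smul_right_of_pos _ _ hPp, angle_self (a0 0),
    angle_smul_left_of_pos _ _ hPp] at h
  simpa using h

end Pool.Agent.Lib.MP_ba95e8_co
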