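import Pool.Agent.Lib.MP_ba95e8_co.Chain

/-!
Deltahedral domes, task R2: rules for the rings of unit vectors at a vertex.
Rings are listed so that `det3` of cyclically ordered triples is positive.
-/

namespace Pool.Agent.Lib.MP_ba95e8_co

open scoped RealInnerProductSpace

section rules

variable {a b c d e f : E3}

lemma pos_of_mul_pos_left' {s t : ℝ} (h : 0 < s * t) (hs : 0 ≤ s) : 0 < t := by
  by_contra hcon
  push Not at hcon
  exact absurd h (not_lt.mpr (mul_nonpos_of_nonneg_of_nonpos hs hcon))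

/-- solve the Cramer relation for the last vector -/
lemma cramer_div {a b c v : E3} (h : 0 < det3 a b c) :
    v = (det3 v b c / det3 a b c) • a + (det3 a v c / det3 a b c) • b
      + (det3 a b v / det3 a b c) • c := by
  have e : (det3 a b c)⁻¹ • (det3 a b c • v) = v := by
    rw [smul_smul, inv_mul_cancel₀ h.ne', one_smul]
  rw [cramer, smul_add, smul_add, smul_smul, smul_smul, smul_smul] at e
  simp only [div_eq_inv_mul]
  exact e.symm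

/-- the midpoint of a side of 120 degrees is a unit vector -/
lemma mid_unit (ha : ⟪a, a⟫ = 1) (hb : ⟪b, b⟫ = 1) (hab : ⟪a, b⟫ = - 1 / 2) :
    ⟪a + b, a + b⟫ = 1 ∧ ⟪a, a + b⟫ = 1 / 2 ∧ ⟪a + b, b⟫ = 1 / 2 := by
  have hba : ⟪b, a⟫ = - 1 / 2 := by rw [real_inner_comm]; exact hab
  refine ⟨?_, ?_, ?_⟩
  · rw [inner_add_left, inner_add_right, inner_add_right, ha, hb, hab, hba]; norm_num
  · rw [inner_add_right, ha, hab]; norm_num
  · rw [inner_add_left, hb, hab]; norm_num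

lemma gt_neg_half {p D : ℝ} (h : D ^ 2 = (1 - p) * (1 + 2 * p) / 2) (hD : 0 < D) (hp : p ≤ 1) :
    - 1 / 2 < p := by
  by_contra hcon
  push Not at hcon
  have h3 : 0 < (1 - p) * (1 + 2 * p) / 2 := by rw [← h]; positivity
  nlinarith

/-- four corners of 60 degrees -/
theorem rule_C (ha : ⟪a, a⟫ = 1) (hb : ⟪b, b⟫ = 1) (hc : ⟪c, c⟫ = 1) (hd : ⟪d, d⟫ = 1)
    (hab : ⟪a, b⟫ = 1 / 2) (hbc : ⟪b, c⟫ = 1 / 2) (hcd : ⟪c, d⟫ = 1 / 2) (hda : ⟪d, a⟫ = 1 / 2)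
    (h1 : 0 < det3 a b c) (h2 : 0 < det3 b c d) :
    (1 + ⟪a, c⟫) * (1 + ⟪b, d⟫) = 1 := by
  have e1 := gram60 ha hb hc hab hbc
  have e2 := gram60 hb hc hd hbc hcd
  have e3 := mpf (x := a) (w := d) hb hc hab hbc hcd
  have had : ⟪a, d⟫ = 1 / 2 := by rw [real_inner_comm]; exact hda
  rw [had] at e3
  have hp1 : ⟪a, c⟫ ≤ 1 := inner_le_one' ha hc
  have hq1 : ⟪b, d⟫ ≤ 1 := inner_le_one' hb hd
  have i1 : 0 < det3 a b c ^ 2 := by positivity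
  have i2 : 0 < det3 b c d ^ 2 := by positivity
  generalize ⟪a, c⟫ = p at *
  generalize ⟪b, d⟫ = q at *
  generalize det3 a b c = D1 at *
  generalize det3 b c d = D2 at *
  rw [e1] at i1
  rw [e2] at i2
  have hp : 1 - p ≠ 0 := by
    intro h
    rw [h] at i1
    simp at i1
  have hq : 1 - q ≠ 0 := by
    intro h
    rw [h] at i2
    simp at i2
  have h3 : (D1 * D2) ^ 2 = ((1 - p) * (1 + 2 * p) / 2) * ((1 - q) * (1 + 2 * q) / 2) := by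
    rw [mul_pow, e1, e2]
  rw [e3] at h3
  have h4 : ((1 - p) * (1 - q)) * (((1 + 2 * p) * (1 + 2 * q)) - (1 - p) * (1 - q)) = 0 := by
    linear_combination -4 * h3
  rcases mul_eq_zero.mp h4 with h5 | h5
  · rcases mul_eq_zero.mp h5 with h6 | h6
    · exact absurd h6 hp
    · exact absurd h6 hq
  · linear_combination (1 / 3) * h5

/-- corners 120 (from `a` to `b`), 60, 60, 60 -/
theorem rule_D (ha : ⟪a, a⟫ = 1) (hb : ⟪b, b⟫ = 1) (hc : ⟪c, c⟫ = 1) (hd : ⟪d, d⟫ = 1)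
    (hab : ⟪a, b⟫ = - 1 / 2) (hbc : ⟪b, c⟫ = 1 / 2) (hcd : ⟪c, d⟫ = 1 / 2) (hda : ⟪d, a⟫ = 1 / 2)
    (h1 : 0 < det3 b c d) (h2 : 0 < det3 c d a) :
    (- 1 / 2 < ⟪a, c⟫ ∧ ⟪a, c⟫ < 0) ∧ (- 1 / 2 < ⟪b, d⟫ ∧ ⟪b, d⟫ < 0) := by
  have e1 := gram60 hb hc hd hbc hcd
  have e2 := gram60 hc hd ha hcd hda
  have e3 := mpf (x := b) (w := a) hc hd hbc hcd hda
  have hba : ⟪b, a⟫ = - 1 / 2 := by rw [real_inner_comm]; exact hab
  rw [hba] at e3
  have hp1 : ⟪b, d⟫ ≤ 1 := inner_le_one' hb hd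
  have hq1 : ⟪c, a⟫ ≤ 1 := inner_le_one' hc ha
  have hp2 := gt_neg_half e1 h1 hp1
  have hq2 := gt_neg_half e2 h2 hq1
  have i1 := mul_pos h1 h2
  rw [e3] at i1
  rw [real_inner_comm c a]
  generalize ⟪b, d⟫ = p at *
  generalize ⟪c, a⟫ = q at *
  refine ⟨⟨hq2, ?_⟩, hp2, ?_⟩ <;> nlinarith

/-- base corner from `a` to `b`, fan corners 60 (`b` to `c`), 120 (`c` to `a`) -/
theorem fan_12 (ha : ⟪a, a⟫ = 1) (hb : ⟪b, b⟫ = 1) (hc : ⟪c, c⟫ = 1)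
    (hbc : ⟪b, c⟫ = 1 / 2) (hca : ⟪c, a⟫ = - 1 / 2) (h1 : 0 < det3 a b c) :
    ⟪a, b⟫ < 1 / 2 := by
  have hcb : ⟪c, b⟫ = 1 / 2 := by rw [real_inner_comm]; exact hbc
  have hac : ⟪a, c⟫ = - 1 / 2 := by rw [real_inner_comm]; exact hca
  have i1 := mul_pos h1 h1
  have e1 : det3 a b c * det3 a b c = (1 + ⟪a, b⟫) * (1 / 2 - ⟪a, b⟫) := by
    rw [det3_mul_det3, ha, hb, hc, hbc, hca, hcb, hac, real_inner_comm a b]
    ring
  rw [e1] at i1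
  have h := neg_one_le_inner' ha hb
  have := pos_of_mul_pos_left' i1 (by linarith)
  linarith

/-- base corner from `a` to `b`, fan corners 60 (`b c`), 60 (`c d`), 120 (`d a`) -/
theorem fan_112 (ha : ⟪a, a⟫ = 1) (hb : ⟪b, b⟫ = 1) (hc : ⟪c, c⟫ = 1) (hd : ⟪d, d⟫ = 1)
    (hbc : ⟪b, c⟫ = 1 / 2) (hcd : ⟪c, d⟫ = 1 / 2) (hda : ⟪d, a⟫ = - 1 / 2)
    (h1 : 0 < det3 a b c) (h2 : 0 < det3 a b d) (h3 : 0 < det3 b c d) (h4 : 0 < det3 c d a) :
    ¬ (0 ≤ ⟪b, d⟫ ∧ - 1 / 2 ≤ ⟪c, a⟫) := by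
  rintro ⟨hp, hq⟩
  obtain ⟨u1, u2, -⟩ := mid_unit hd ha hda
  have d1 : det3 c d (d + a) = det3 c d a := by rw [det3_add_right]; simp
  have q1 : 0 ≤ ⟪c, d + a⟫ := by rw [inner_add_right, hcd]; linarith
  have := chain_kl hb hc hd u1 hbc hcd u2 h3 (by rw [d1]; exact h4) hp q1
  rw [det3_add_right, det3_rot a b c] at this
  linarith

/-- base corner from `a` to `b`, fan corners 60 (`b c`), 120 (`c d`), 60 (`d a`), base angle
greater than 60 -/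
theorem fan_121 (ha : ⟪a, a⟫ = 1) (hb : ⟪b, b⟫ = 1) (hc : ⟪c, c⟫ = 1) (hd : ⟪d, d⟫ = 1)
    (hbc : ⟪b, c⟫ = 1 / 2) (hcd : ⟪c, d⟫ = - 1 / 2) (hda : ⟪d, a⟫ = 1 / 2)
    (h1 : 0 < det3 a b c) (h2 : 0 < det3 a b d) (h3 : 0 < det3 b c d) (h4 : 0 < det3 c d a)
    (hab : ⟪a, b⟫ < 1 / 2) :
    ⟪b, d⟫ < 0 ∧ ⟪c, a⟫ < 0 := by
  have hcb : ⟪c, b⟫ = 1 / 2 := by rw [real_inner_comm]; exact hbc
  have hdc : ⟪d, c⟫ = - 1 / 2 := by rw [real_inner_comm]; exact hcd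
  have e1 : det3 b c d * det3 a b d =
      (1 + ⟪b, d⟫) * (⟪a, b⟫ / 2 - ⟪c, a⟫ * (1 - ⟪b, d⟫) - 1 / 4) := by
    rw [det3_mul_det3, hb, hd, hcd, hda, hcb, real_inner_comm b d, real_inner_comm a b]
    ring
  have e2 : det3 c d a * det3 c a b =
      (1 + ⟪c, a⟫) * (⟪a, b⟫ / 2 - ⟪b, d⟫ * (1 - ⟪c, a⟫) - 1 / 4) := by
    rw [det3_mul_det3, hc, ha, hda, hcb, hdc, real_inner_comm b d, real_inner_comm c a]
    ring
  have i1 := mul_pos h3 h2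
  have i2 := mul_pos h4 h1
  rw [← det3_rot' a b c, e2] at i2
  rw [e1] at i1
  have p1 := neg_one_le_inner' hb hd
  have p2 := inner_le_one' hb hd
  have q1 := neg_one_le_inner' hc ha
  have q2 := inner_le_one' hc ha
  have j1 := pos_of_mul_pos_left' i1 (by linarith)
  have j2 := pos_of_mul_pos_left' i2 (by linarith)
  constructor
  · by_contra hcon
    push Not at hcon
    have := mul_nonneg hcon (show 0 ≤ 1 - ⟪c, a⟫ by linarith)
    linarith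
  · by_contra hcon
    push Not at hcon
    have := mul_nonneg hcon (show 0 ≤ 1 - ⟪b, d⟫ by linarith)
    linarith

/-- base corner from `a` to `b`, fan corners 60 (`b c`), 120 (`c d`), 120 (`d a`) -/
theorem fan_122 (ha : ⟪a, a⟫ = 1) (hb : ⟪b, b⟫ = 1) (hc : ⟪c, c⟫ = 1) (hd : ⟪d, d⟫ = 1)
    (hbc : ⟪b, c⟫ = 1 / 2) (hcd : ⟪c, d⟫ = - 1 / 2) (hda : ⟪d, a⟫ = - 1 / 2)
    (h1 : 0 < det3 a b c) (h2 : 0 < det3 a b d) (h3 : 0 < det3 b c d) (h4 : 0 < det3 c d a) :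
    ⟪b, d⟫ < - 1 / 2 ∧ ⟪c, a⟫ < 1 / 2 := by
  have k0 : det3 (-d) c a = det3 c d a := by rw [det3_neg_left, det3_swap c d a]; ring
  have k1 : det3 b c a = det3 a b c := det3_rot a b c
  have k2 : det3 (-d) b a = det3 a b d := by rw [det3_neg_left, det3_swap'' a b d]; ring
  have k3 : det3 (-d) c b = det3 b c d := by rw [det3_neg_left, det3_swap'' b c d]; ring
  have hcr := cramer_div (a := -d) (b := c) (c := a) (v := b) (by rw [k0]; exact h4)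
  rw [k0, k1, k2, k3] at hcr
  have hnd : ⟪-d, -d⟫ = 1 := by rw [inner_neg_neg]; exact hd
  have m1 : ⟪c, -d⟫ = 1 / 2 := by rw [inner_neg_right, hcd]; norm_num
  have m2 : ⟪a, -d⟫ = 1 / 2 := by rw [inner_neg_right, real_inner_comm, hda]; norm_num
  have m3 : ⟪-d, c⟫ = 1 / 2 := by rw [real_inner_comm]; exact m1
  constructor
  · have := cone60 (v := b) (a := c) (b := a) (c := -d) hc ha hnd hb (div_nonneg h2.le h4.le)
      (div_nonneg h3.le h4.le) (div_pos h1 h4)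
      (by conv_lhs => rw [hcr]
          abel) m1.ge m2.ge
    rw [inner_neg_right] at this
    linarith
  · by_contra hcon
    push Not at hcon
    have := cone60 (v := b) (a := -d) (b := a) (c := c) hnd ha hc hb (div_nonneg h1.le h4.le)
      (div_nonneg h3.le h4.le) (div_pos h2 h4)
      (by conv_lhs => rw [hcr]
          abel) m3.ge (by rw [real_inner_comm]; exact hcon)
    linarith

/-- base corner from `a` to `b`, fan corners 120 (`b c`), 60 (`c d`), 120 (`d a`) -/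
theorem fan_212 (ha : ⟪a, a⟫ = 1) (hb : ⟪b, b⟫ = 1) (hc : ⟪c, c⟫ = 1) (hd : ⟪d, d⟫ = 1)
    (hbc : ⟪b, c⟫ = - 1 / 2) (hcd : ⟪c, d⟫ = 1 / 2) (hda : ⟪d, a⟫ = - 1 / 2)
    (h1 : 0 < det3 a b c) (h2 : 0 < det3 a b d) (h3 : 0 < det3 b c d) (h4 : 0 < det3 c d a) :
    ¬ (- 1 / 2 ≤ ⟪b, d⟫ ∧ - 1 / 2 ≤ ⟪c, a⟫) := by
  rintro ⟨hp, hq⟩
  obtain ⟨u1, u2, -⟩ := mid_unit hd ha hda
  obtain ⟨v1, -, v3⟩ := mid_unit hb hc hbc
  have d1 : det3 c d (d + a) = det3 c d a := by rw [det3_add_right]; simp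
  have d2 : det3 (b + c) c d = det3 b c d := by rw [det3_add_left]; simp
  have q1 : 0 ≤ ⟪c, d + a⟫ := by rw [inner_add_right, hcd]; linarith
  have q2 : 0 ≤ ⟪b + c, d⟫ := by rw [inner_add_left, hcd]; linarith
  have := chain_kl v1 hc hd u1 v3 hcd u2 (by rw [d2]; exact h3) (by rw [d1]; exact h4) q2 q1
  rw [d2, det3_add_left, det3_self, det3_add_right, det3_rot a b c] at this
  linarith

/-- ring `a b c d e`, corners `b c`, `c d`, `d e`, `e a` of 60 degrees: no two adjacent low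
angles at `c`, `d` -/
theorem fan_1111 (ha : ⟪a, a⟫ = 1) (hb : ⟪b, b⟫ = 1) (hc : ⟪c, c⟫ = 1) (hd : ⟪d, d⟫ = 1)
    (he : ⟪e, e⟫ = 1)
    (hbc : ⟪b, c⟫ = 1 / 2) (hcd : ⟪c, d⟫ = 1 / 2) (hde : ⟪d, e⟫ = 1 / 2) (hea : ⟪e, a⟫ = 1 / 2)
    (h1 : 0 < det3 a b c) (h3 : 0 < det3 a b e) (h4 : 0 < det3 b c d)
    (h5 : 0 < det3 b c e) (h6 : 0 < det3 c d e) (h7 : 0 < det3 c d a) (h8 : 0 < det3 c d b)
    (h9 : 0 < det3 d e a) (h10 : 0 < det3 d e b) :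
    ¬ (0 ≤ ⟪b, d⟫ ∧ 0 ≤ ⟪c, e⟫) :=
  chain_nal hb hc hd he ha hbc hcd hde hea h4 h5 h6 h10 (by rw [det3_rot a b c]; exact h1) h9
    (by rw [det3_rot' a b e]; exact h3)

/-- ring `a b c d e`: base corner `a b`, fan corners 60 (`b c`), 60 (`c d`), 60 (`d e`),
120 (`e a`) -/
theorem fan_1112 (ha : ⟪a, a⟫ = 1) (hb : ⟪b, b⟫ = 1) (hc : ⟪c, c⟫ = 1) (hd : ⟪d, d⟫ = 1)
    (he : ⟪e, e⟫ = 1)
    (hbc : ⟪b, c⟫ = 1 / 2) (hcd : ⟪c, d⟫ = 1 / 2) (hde : ⟪d, e⟫ = 1 / 2) (hea : ⟪e, a⟫ = - 1 / 2)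
    (h1 : 0 < det3 a b c) (h2 : 0 < det3 a b d) (h3 : 0 < det3 a b e) (h4 : 0 < det3 b c d)
    (h5 : 0 < det3 b c e) (h6 : 0 < det3 c d e) (h7 : 0 < det3 c d a)
    (h9 : 0 < det3 d e a) (h10 : 0 < det3 d e b) (h11 : 0 < det3 e a b) (h12 : 0 < det3 e a c) :
    ¬ (0 ≤ ⟪b, d⟫ ∧ 0 ≤ ⟪c, e⟫) ∧ ¬ (0 ≤ ⟪c, e⟫ ∧ - 1 / 2 ≤ ⟪d, a⟫) := by
  obtain ⟨u1, u2, -⟩ := mid_unit he ha hea
  have d1 : det3 d e (e + a) = det3 d e a := by rw [det3_add_right]; simp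
  have d2 : det3 e (e + a) b = det3 e a b := by rw [det3_add_mid]; simp
  constructor
  · refine chain_nal hb hc hd he u1 hbc hcd hde u2 h4 h5 h6 h10 ?_ ?_ ?_
    · rw [det3_add_right, det3_rot a b c]; linarith
    · rw [d1]; exact h9
    · rw [d2]; exact h11
  · rintro ⟨hp, hq⟩
    have q1 : 0 ≤ ⟪d, e + a⟫ := by rw [inner_add_right, hde]; linarith
    have := chain_kl hc hd he u1 hcd hde u2 h6 (by rw [d1]; exact h9) hp q1
    rw [det3_add_right] at this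
    linarith

/-- ring `a b c d e`: base corner `a b` of less than 60 degrees, fan corners 60 (`b c`),
60 (`c d`), 120 (`d e`), 60 (`e a`) -/
theorem fan_1121 (ha : ⟪a, a⟫ = 1) (hb : ⟪b, b⟫ = 1) (hc : ⟪c, c⟫ = 1) (hd : ⟪d, d⟫ = 1)
    (he : ⟪e, e⟫ = 1)
    (hbc : ⟪b, c⟫ = 1 / 2) (hcd : ⟪c, d⟫ = 1 / 2) (hde : ⟪d, e⟫ = - 1 / 2) (hea : ⟪e, a⟫ = 1 / 2)
    (h1 : 0 < det3 a b c) (h2 : 0 < det3 a b d) (h3 : 0 < det3 a b e) (h4 : 0 < det3 b c d)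
    (h5 : 0 < det3 b c e) (h6 : 0 < det3 c d e) (h7 : 0 < det3 c d a)
    (h9 : 0 < det3 d e a) (h10 : 0 < det3 d e b) (h11 : 0 < det3 e a b) (h12 : 0 < det3 e a c) :
    ¬ (0 ≤ ⟪b, d⟫ ∧ - 1 / 2 ≤ ⟪c, e⟫) ∧ ⟪b, d⟫ < 1 / 2 ∧ ⟪c, e⟫ < 0 := by
  refine ⟨?_, ?_, ?_⟩
  · rintro ⟨hp, hq⟩
    obtain ⟨u1, u2, -⟩ := mid_unit hd he hde
    have d1 : det3 c d (d + e) = det3 c d e := by rw [det3_add_right]; simp
    have q1 : 0 ≤ ⟪c, d + e⟫ := by rw [inner_add_right, hcd]; linarith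
    have := chain_kl hb hc hd u1 hbc hcd u2 h4 (by rw [d1]; exact h6) hp q1
    rw [det3_add_right] at this
    linarith
  · by_contra hcon
    push Not at hcon
    have k0 : det3 b (-e) d = det3 d e b := by
      rw [det3_neg_mid, det3_swap' b d e, det3_rot' d e b]; ring
    have k1 : det3 c (-e) d = det3 c d e := by rw [det3_neg_mid, det3_swap' c d e]; ring
    have k3 : det3 b (-e) c = det3 b c e := by rw [det3_neg_mid, det3_swap' b c e]; ring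
    have hcr := cramer_div (a := b) (b := -e) (c := d) (v := c) (by rw [k0]; exact h10)
    rw [k0, k1, k3] at hcr
    have hne : ⟪-e, -e⟫ = 1 := by rw [inner_neg_neg]; exact he
    have m1 : ⟪-e, d⟫ = 1 / 2 := by rw [inner_neg_left, real_inner_comm, hde]; norm_num
    have := cone60 (v := c) (a := b) (b := -e) (c := d) hb hne hd hc (div_nonneg h6.le h10.le)
      (div_nonneg h4.le h10.le) (div_pos h5 h10) hcr hcon m1.ge
    linarith
  · by_contra hcon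
    push Not at hcon
    have h112 := (chain_112 hb hc hd he hbc hcd hde h4 h5 h6 hcon).1
    have k0 : det3 e (-d) b = det3 d e b := by rw [det3_neg_mid, det3_swap d e b]; ring
    have k1 : det3 a (-d) b = det3 a b d := by rw [det3_neg_mid, det3_swap' a b d]; ring
    have k3 : det3 e (-d) a = det3 d e a := by rw [det3_neg_mid, det3_swap d e a]; ring
    have hcr := cramer_div (a := e) (b := -d) (c := b) (v := a) (by rw [k0]; exact h10)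
    rw [k0, k1, k3] at hcr
    have hnd : ⟪-d, -d⟫ = 1 := by rw [inner_neg_neg]; exact hd
    have m1 : ⟪-d, e⟫ = 1 / 2 := by rw [inner_neg_left, hde]; norm_num
    have := cone60 (v := a) (a := -d) (b := b) (c := e) hnd hb he ha (div_nonneg h11.le h10.le)
      (div_nonneg h9.le h10.le) (div_pos h2 h10)
      (by conv_lhs => rw [hcr]
          abel) m1.ge h112.le
    rw [real_inner_comm] at this
    linarith

end rules

end Pool.Agent.Lib.MP_ba95e8_co
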