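import Pool.Agent.Lib.MP_ba95e8_co.Basic

/-!
Deltahedral domes, task R3: two more rules.
-/

namespace Pool.Agent.Lib.MP_ba95e8_co

open scoped RealInnerProductSpace

/-- comparison of `x * B` and `y * J` when `R ^ 2 + J ^ 2` and `B ^ 2 + T ^ 2` are proportional -/
private lemma r3_cmp {R J B T N s : ℝ} (hJ : 0 < J) (hT : 0 < T) (hN : 0 < N) (hs : 0 < s)
    (h1 : R ^ 2 + J ^ 2 = s ^ 2 * N) (h2 : B ^ 2 + T ^ 2 = N) (h : 0 < B * J + T * R) :
    0 < R + s * B := by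
  rcases le_or_gt B 0 with hB | hB
  · have hR : 0 < R := by
      by_contra hR
      push Not at hR
      nlinarith [mul_nonneg (neg_nonneg.2 hB) hJ.le, mul_nonneg hT.le (neg_nonneg.2 hR)]
    have h3 : (-B * J) ^ 2 < (T * R) ^ 2 := by
      have a : 0 ≤ -B * J := mul_nonneg (neg_nonneg.2 hB) hJ.le
      have b : -B * J < T * R := by linarith
      exact pow_lt_pow_left₀ b a two_ne_zero
    have h4 : (s * (-B)) ^ 2 * N < R ^ 2 * N := by
      have e1 : J ^ 2 = s ^ 2 * N - R ^ 2 := by linarith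
      have e2 : T ^ 2 = N - B ^ 2 := by linarith
      have : (-B) ^ 2 * J ^ 2 < T ^ 2 * R ^ 2 := by nlinarith
      rw [e1, e2] at this
      nlinarith
    have h5 : (s * (-B)) ^ 2 < R ^ 2 := lt_of_mul_lt_mul_right h4 hN.le
    have h6 : s * (-B) < R := lt_of_pow_lt_pow_left₀ 2 hR.le h5
    linarith
  · rcases le_or_gt 0 R with hR | hR
    · have : 0 < s * B := mul_pos hs hB
      linarith
    · have h3 : (T * (-R)) ^ 2 < (B * J) ^ 2 := by
        have a : 0 ≤ T * (-R) := mul_nonneg hT.le (by linarith)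
        have b : T * (-R) < B * J := by linarith
        exact pow_lt_pow_left₀ b a two_ne_zero
      have h4 : (-R) ^ 2 * N < (s * B) ^ 2 * N := by
        have e1 : J ^ 2 = s ^ 2 * N - R ^ 2 := by linarith
        have e2 : T ^ 2 = N - B ^ 2 := by linarith
        have : T ^ 2 * (-R) ^ 2 < B ^ 2 * J ^ 2 := by nlinarith
        rw [e1, e2] at this
        nlinarith
      have h5 : (-R) ^ 2 < (s * B) ^ 2 := lt_of_mul_lt_mul_right h4 hN.le
      have h6 : -R < s * B := lt_of_pow_lt_pow_left₀ 2 (mul_pos hs hB).le h5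
      linarith

/-- the real inequality behind `fan_1121_last` -/
private lemma r3_fan {C g p t s D E F G B : ℝ} (hD : 0 < D) (hE : 0 < E) (hF : 0 < F) (hG : 0 < G)
    (hB : 0 < B) (hC : 1 / 2 < C) (hC1 : C ≤ 1)
    (e1 : E ^ 2 = (1 + g) * (1 / 2 - g))
    (e2 : D ^ 2 = 1 + 2 * C * p * g - C ^ 2 - p ^ 2 - g ^ 2)
    (e3 : E * D = (1 + g) * ((C - p) / 2 - (1 - g) * t))
    (e4 : F * D = (C * p - g) / 2 - t * (p - g * C) - (1 - C ^ 2) / 2)
    (e5 : G * D = (1 - p) / 2 - C ^ 2 / 2 + C * p * s + g * C / 2 - g * s)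
    (e6 : B * D = (1 - p) * ((C + g) / 2 - (1 + p) * s))
    (e7 : B ^ 2 = (1 - p) * (1 + 2 * p) / 2) (hg1 : -1 ≤ g) (hp1 : -1 ≤ p) (hp2 : p ≤ 1) : g < 0 := by
  by_contra hg
  push Not at hg
  have hg2 : g < 1 / 2 := by
    by_contra h
    push Not at h
    nlinarith [pow_pos hE 2]
  have hp3 : p < 1 := by
    rcases lt_or_eq_of_le hp2 with h | h
    · exact h
    · rw [h] at e7; nlinarith [pow_pos hB 2]
  have hp4 : -1 / 2 < p := by
    by_contra h
    push Not at h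
    nlinarith [pow_pos hB 2]
  have hD2 : 0 < D ^ 2 := pow_pos hD 2
  have hC2 : 0 < 1 - C ^ 2 := by
    by_contra h
    push Not at h
    nlinarith [sq_nonneg (p - g * C), mul_nonneg (by nlinarith : (0 : ℝ) ≤ 1 - g ^ 2) (neg_nonneg.2 h)]
  -- (I)
  have hI : (1 + g) * D < 2 * E * (p - g * C) := by
    have h1 : (1 - g) * (F * D) * (1 + g) * 2 = D * (2 * E * (p - g * C) - (1 + g) * D) := by
      rw [e4]
      have h2 : (1 + g) * (1 - g) * t = (1 + g) * (C - p) / 2 - E * D := by rw [e3]; ring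
      have h3 : (1 - g) * ((C * p - g) / 2 - t * (p - g * C) - (1 - C ^ 2) / 2) * (1 + g) * 2 =
          (1 - g) * (1 + g) * (C * p - g - (1 - C ^ 2)) - 2 * ((1 + g) * (1 - g) * t) * (p - g * C) := by
        ring
      rw [h3, h2]
      have h4 : D * (2 * E * (p - g * C) - (1 + g) * D) =
          2 * (E * D) * (p - g * C) - (1 + g) * D ^ 2 := by ring
      rw [h4, e2]
      ring
    have h2 : 0 < (1 - g) * (F * D) * (1 + g) * 2 := by
      have : 0 < 1 - g := by linarith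
      have : 0 < 1 + g := by linarith
      positivity
    rw [h1] at h2
    have := (pos_iff_pos_of_mul_pos h2).1 hD
    linarith
  have hX : 0 < p - g * C := by
    have h1 : 0 < (1 + g) * D := mul_pos (by linarith) hD
    have h2 : 0 < 2 * E * (p - g * C) := h1.trans hI
    exact (pos_iff_pos_of_mul_pos h2).1 (by positivity)
  have hI2 : (1 + g) ^ 2 * (1 - C ^ 2) < 3 * (p - g * C) ^ 2 := by
    have h1 : ((1 + g) * D) ^ 2 < (2 * E * (p - g * C)) ^ 2 :=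
      pow_lt_pow_left₀ hI (mul_nonneg (by linarith) hD.le) two_ne_zero
    have h2 : (1 + g) ^ 2 * D ^ 2 < 4 * E ^ 2 * (p - g * C) ^ 2 := by
      have a1 : ((1 + g) * D) ^ 2 = (1 + g) ^ 2 * D ^ 2 := by ring
      have a2 : (2 * E * (p - g * C)) ^ 2 = 4 * E ^ 2 * (p - g * C) ^ 2 := by ring
      linarith
    rw [e1] at h2
    have h3 : (1 + g) * ((1 + g) * D ^ 2) < (1 + g) * (4 * (1 / 2 - g) * (p - g * C) ^ 2) := by
      have a1 : (1 + g) * ((1 + g) * D ^ 2) = (1 + g) ^ 2 * D ^ 2 := by ring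
      have a2 : (1 + g) * (4 * (1 / 2 - g) * (p - g * C) ^ 2) =
        4 * ((1 + g) * (1 / 2 - g)) * (p - g * C) ^ 2 := by ring
      linarith
    have h4 := lt_of_mul_lt_mul_left h3 (by linarith)
    have h5 : D ^ 2 = (1 - g ^ 2) * (1 - C ^ 2) - (p - g * C) ^ 2 := by rw [e2]; ring
    rw [h5] at h4
    have h6 : (1 - g) * ((1 + g) ^ 2 * (1 - C ^ 2)) < (1 - g) * (3 * (p - g * C) ^ 2) := by
      have h7 : (1 - g) * (3 * (p - g * C) ^ 2) - (1 - g) * ((1 + g) ^ 2 * (1 - C ^ 2)) =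
          4 * (1 / 2 - g) * (p - g * C) ^ 2 -
          (1 + g) * ((1 - g ^ 2) * (1 - C ^ 2) - (p - g * C) ^ 2) := by ring
      linarith
    exact lt_of_mul_lt_mul_left h6 (by linarith)
  -- (II)
  have hII : 2 * B * (C * p - g) < (1 - p) * D := by
    have h1 : (1 + p) * (G * D) * (1 - p) * 2 = D * ((1 - p) * D - 2 * B * (C * p - g)) := by
      rw [e5]
      have h2 : (1 - p) * (1 + p) * s = (1 - p) * (C + g) / 2 - B * D := by rw [e6]; ring
      have h3 : (1 + p) * ((1 - p) / 2 - C ^ 2 / 2 + C * p * s + g * C / 2 - g * s) * (1 - p) * 2 =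
          (1 + p) * (1 - p) * (1 - p - C ^ 2 + g * C) + 2 * ((1 - p) * (1 + p) * s) * (C * p - g) := by
        ring
      rw [h3, h2]
      have h4 : D * ((1 - p) * D - 2 * B * (C * p - g)) =
          (1 - p) * D ^ 2 - 2 * (B * D) * (C * p - g) := by ring
      rw [h4, e2]
      ring
    have h2 : 0 < (1 + p) * (G * D) * (1 - p) * 2 := by
      have : 0 < 1 - p := by linarith
      have : 0 < 1 + p := by linarith
      positivity
    rw [h1] at h2
    have := (pos_iff_pos_of_mul_pos h2).1 hD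
    linarith
  set m : ℝ := Real.sqrt ((1 - C ^ 2) / 3) with hm
  have hm0 : 0 < m := Real.sqrt_pos.2 (by positivity)
  have hm2 : 3 * m ^ 2 = 1 - C ^ 2 := by
    rw [hm, Real.sq_sqrt (by positivity)]; ring
  have hI3 : (1 + g) * m < p - g * C := by
    apply lt_of_pow_lt_pow_left₀ 2 hX.le
    have a1 : 3 * ((1 + g) * m) ^ 2 = (1 + g) ^ 2 * (1 - C ^ 2) := by rw [← hm2]; ring
    linarith
  have hII3 : C * p - g < (1 - p) * m := by
    rcases le_or_gt (C * p - g) 0 with h | h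
    · have : 0 < (1 - p) * m := mul_pos (by linarith) hm0
      linarith
    · have h1 : (2 * B * (C * p - g)) ^ 2 < ((1 - p) * D) ^ 2 :=
        pow_lt_pow_left₀ hII (by positivity) two_ne_zero
      have h2 : 4 * B ^ 2 * (C * p - g) ^ 2 < (1 - p) ^ 2 * D ^ 2 := by
        have a1 : ((1 - p) * D) ^ 2 = (1 - p) ^ 2 * D ^ 2 := by ring
        have a2 : (2 * B * (C * p - g)) ^ 2 = 4 * B ^ 2 * (C * p - g) ^ 2 := by ring
        linarith
      rw [e7] at h2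
      have h3 : (1 - p) * (2 * (1 + 2 * p) * (C * p - g) ^ 2) < (1 - p) * ((1 - p) * D ^ 2) := by
        have a1 : (1 - p) * ((1 - p) * D ^ 2) = (1 - p) ^ 2 * D ^ 2 := by ring
        have a2 : (1 - p) * (2 * (1 + 2 * p) * (C * p - g) ^ 2) =
          4 * ((1 - p) * (1 + 2 * p) / 2) * (C * p - g) ^ 2 := by ring
        linarith
      have h4 := lt_of_mul_lt_mul_left h3 (by linarith)
      have h5 : D ^ 2 = (1 - p ^ 2) * (1 - C ^ 2) - (C * p - g) ^ 2 := by rw [e2]; ring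
      rw [h5] at h4
      have h6 : (1 + p) * (3 * (C * p - g) ^ 2) < (1 + p) * ((1 - p) ^ 2 * (1 - C ^ 2)) := by
        have h8 : (1 + p) * ((1 - p) ^ 2 * (1 - C ^ 2)) - (1 + p) * (3 * (C * p - g) ^ 2) =
            (1 - p) * ((1 - p ^ 2) * (1 - C ^ 2) - (C * p - g) ^ 2) -
            2 * (1 + 2 * p) * (C * p - g) ^ 2 := by ring
        linarith
      have h7 := lt_of_mul_lt_mul_left h6 (by linarith)
      apply lt_of_pow_lt_pow_left₀ 2 (mul_nonneg (by linarith) hm0.le)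
      have a1 : 3 * ((1 - p) * m) ^ 2 = (1 - p) ^ 2 * (1 - C ^ 2) := by rw [← hm2]; ring
      linarith
  have hk : 1 < C + m := by
    have : 1 - C < m := by
      apply lt_of_pow_lt_pow_left₀ 2 hm0.le
      have hC3 : 0 < 1 - C := by
        have a1 : 0 < (1 - C) * (1 + C) := by
          have : (1 - C) * (1 + C) = 1 - C ^ 2 := by ring
          rw [this]; exact hC2
        exact (pos_iff_pos_of_mul_pos a1).2 (by linarith)
      have a2 : 0 < (1 - C) * (2 * C - 1) := mul_pos hC3 (by linarith)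
      have a3 : 3 * m ^ 2 - 3 * (1 - C) ^ 2 = 2 * ((1 - C) * (2 * C - 1)) := by rw [hm2]; ring
      linarith
    linarith
  -- conclusion
  have h1 : (C + m) * g + m < p := by linarith
  have h2 : (C + m) * p - m < g := by linarith
  have h3 : (C + m) * ((C + m) * g + m) < (C + m) * p :=
    mul_lt_mul_of_pos_left h1 (by linarith)
  have h4 : 0 ≤ ((C + m) ^ 2 - 1) * g := by
    have a1 : (C + m) ^ 2 - 1 = (C + m - 1) * (C + m + 1) := by ring
    rw [a1]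
    exact mul_nonneg (mul_nonneg (by linarith) (by linarith)) hg
  have h5 : 0 < (C + m - 1) * m := mul_pos (by linarith) hm0
  have h6 : (C + m) * ((C + m) * g + m) - m - g = ((C + m) ^ 2 - 1) * g + (C + m - 1) * m := by
    ring
  linarith

/-- ring `a b c d e`: base corner `a b` of less than 60 degrees, fan corners 60 (`b c`),
60 (`c d`), 120 (`d e`), 60 (`e a`): the angle at `e` is large -/
theorem fan_1121_last {a b c d e : E3} (ha : ⟪a, a⟫ = 1) (hb : ⟪b, b⟫ = 1) (hc : ⟪c, c⟫ = 1)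
    (hd : ⟪d, d⟫ = 1) (he : ⟪e, e⟫ = 1)
    (hbc : ⟪b, c⟫ = 1 / 2) (hcd : ⟪c, d⟫ = 1 / 2) (hde : ⟪d, e⟫ = - 1 / 2) (hea : ⟪e, a⟫ = 1 / 2)
    (h1 : 0 < det3 a b c) (h2 : 0 < det3 a b d) (h3 : 0 < det3 a b e) (h4 : 0 < det3 b c d)
    (h5 : 0 < det3 b c e) (h6 : 0 < det3 c d e) (h7 : 0 < det3 c d a)
    (h9 : 0 < det3 d e a) (h10 : 0 < det3 d e b) (h11 : 0 < det3 e a b) (h12 : 0 < det3 e a c)
    (hab : 1 / 2 < ⟪a, b⟫) :
    ⟪d, a⟫ < 0 := by
  have hcb : ⟪c, b⟫ = 1 / 2 := by rw [real_inner_comm]; exact hbc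
  have hdc : ⟪d, c⟫ = 1 / 2 := by rw [real_inner_comm]; exact hcd
  have hed : ⟪e, d⟫ = - 1 / 2 := by rw [real_inner_comm]; exact hde
  have hae : ⟪a, e⟫ = 1 / 2 := by rw [real_inner_comm]; exact hea
  have hba : ⟪b, a⟫ = ⟪a, b⟫ := real_inner_comm _ _
  have had : ⟪a, d⟫ = ⟪d, a⟫ := real_inner_comm _ _
  have hdb : ⟪d, b⟫ = ⟪b, d⟫ := real_inner_comm _ _
  have hbe : ⟪b, e⟫ = ⟪e, b⟫ := real_inner_comm _ _
  have hac : ⟪a, c⟫ = ⟪c, a⟫ := real_inner_comm _ _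
  have hn : ∀ x y : E3, ⟪x, x⟫ = 1 → ⟪y, y⟫ = 1 → |⟪x, y⟫| ≤ 1 := by
    intro x y hx hy
    have h := abs_real_inner_le_norm x y
    have hx' : ‖x‖ = 1 := by
      rw [real_inner_self_eq_norm_sq] at hx
      nlinarith [norm_nonneg x]
    have hy' : ‖y‖ = 1 := by
      rw [real_inner_self_eq_norm_sq] at hy
      nlinarith [norm_nonneg y]
    rw [hx', hy'] at h
    linarith
  have q1 := abs_le.1 (hn a b ha hb)
  have q2 := abs_le.1 (hn d a hd ha)
  have q3 := abs_le.1 (hn b d hb hd)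
  refine r3_fan (C := ⟪a, b⟫) (g := ⟪d, a⟫) (p := ⟪b, d⟫) (t := ⟪e, b⟫) (s := ⟪c, a⟫)
    (D := det3 a b d) (E := det3 d e a) (F := det3 e a b) (G := det3 a b c) (B := det3 b c d)
    h2 h9 h11 h1 h4 hab q1.2 ?_ ?_ ?_ ?_ ?_ ?_ ?_ q2.1 q3.1 q3.2
  · rw [sq, det3_mul_det3]
    simp only [hd, he, ha, hed, hde, hae, hea, had]
    ring
  · rw [sq, det3_mul_det3]
    simp only [hd, hb, ha, hba, had, hdb]
    ring
  · rw [det3_mul_det3]
    simp only [hd, ha, hed, hea, had, hdb]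
    ring
  · rw [det3_mul_det3]
    simp only [hb, ha, hed, hea, had, hba]
    ring
  · rw [det3_mul_det3]
    simp only [hb, ha, hcd, hcb, had, hba]
    ring
  · rw [det3_mul_det3]
    simp only [hb, hd, hcd, hcb, hba, hdb]
    ring
  · rw [sq, det3_mul_det3]
    simp only [hb, hd, hc, hbc, hcd, hcb, hdc, hdb]
    ring

/-- the real inequality behind `rule_E1` -/
private lemma r3_E1 {g P T0 T1 T2 W u om : ℝ} (hT0 : 0 < T0) (hT1 : 0 < T1) (hT2 : 0 < T2)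
    (hW : 0 < W) (hom : 0 < om)
    (e0 : T0 ^ 2 = 3 / 4 + P * g - P ^ 2 - g ^ 2)
    (e1 : T1 ^ 2 = (1 - g) * (1 + 2 * g) / 2)
    (e2 : T2 ^ 2 = (1 - P) * (1 + 2 * P) / 2)
    (e3 : T1 * T0 = (1 - g) * (1 / 4 + P / 2 - (1 + g) * u))
    (e4 : W * T0 = 3 / 8 - g / 2 + P / 4 + u * (g / 2 - P))
    (e5 : om * (1 - P ^ 2) * (1 - g ^ 2) =
      (1 / 2 - P * g) * ((1 - P) / 2 * T1 + (1 - g) / 2 * T2) +
      T0 * ((1 - P) / 2 * ((1 - g) / 2) - T1 * T2))
    (hg1 : -1 ≤ g) (hg2 : g ≤ 1) (hP1 : -1 ≤ P) (hP2 : P ≤ 1) : g < 1 / 2 := by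
  by_contra hg
  push Not at hg
  have hg3 : g < 1 := by
    rcases lt_or_eq_of_le hg2 with h | h
    · exact h
    · rw [h] at e1; nlinarith [pow_pos hT1 2]
  have hP3 : P < 1 := by
    rcases lt_or_eq_of_le hP2 with h | h
    · exact h
    · rw [h] at e2; nlinarith [pow_pos hT2 2]
  have hP4 : -1 / 2 < P := by
    by_contra h
    push Not at h
    nlinarith [pow_pos hT2 2]
  -- (III)
  have hIII : g - 1 / 2 < P := by
    have h1 : 0 < (1 - g) * T0 + (2 * P - g) * T1 := by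
      have h2 : (1 + g) * (W * T0) * (1 - g) * 2 = T0 * ((1 - g) * T0 + (2 * P - g) * T1) := by
        rw [e4]
        have h3 : (1 - g) * (1 + g) * u = (1 - g) * (1 / 4 + P / 2) - T1 * T0 := by rw [e3]; ring
        have h4 : (1 + g) * (3 / 8 - g / 2 + P / 4 + u * (g / 2 - P)) * (1 - g) * 2 =
            (1 + g) * (1 - g) * 2 * (3 / 8 - g / 2 + P / 4) +
            2 * ((1 - g) * (1 + g) * u) * (g / 2 - P) := by ring
        rw [h4, h3]
        have h5 : T0 * ((1 - g) * T0 + (2 * P - g) * T1) =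
            (1 - g) * T0 ^ 2 + (2 * P - g) * (T1 * T0) := by ring
        rw [h5, e0]
        ring
      have h3 : 0 < (1 + g) * (W * T0) * (1 - g) * 2 := by
        have : 0 < 1 - g := by linarith
        have : 0 < 1 + g := by linarith
        positivity
      rw [h2] at h3
      exact (pos_iff_pos_of_mul_pos h3).1 hT0
    rcases le_or_gt g (2 * P) with h | h
    · linarith
    · have h2 : ((g - 2 * P) * T1) ^ 2 < ((1 - g) * T0) ^ 2 :=
        pow_lt_pow_left₀ (by linarith) (mul_nonneg (by linarith) hT1.le) two_ne_zero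
      have h3 : (g - 2 * P) ^ 2 * T1 ^ 2 < (1 - g) ^ 2 * T0 ^ 2 := by
        rw [← mul_pow, ← mul_pow]; exact h2
      rw [e1, e0] at h3
      have h4 : (1 - g) * ((g - 2 * P) ^ 2 * ((1 + 2 * g) / 2)) <
          (1 - g) * ((1 - g) * (3 / 4 + P * g - P ^ 2 - g ^ 2)) := by
        have a1 : (1 - g) * ((g - 2 * P) ^ 2 * ((1 + 2 * g) / 2)) =
          (g - 2 * P) ^ 2 * ((1 - g) * (1 + 2 * g) / 2) := by ring
        have a2 : (1 - g) * ((1 - g) * (3 / 4 + P * g - P ^ 2 - g ^ 2)) =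
          (1 - g) ^ 2 * (3 / 4 + P * g - P ^ 2 - g ^ 2) := by ring
        linarith
      have h5 := lt_of_mul_lt_mul_left h4 (by linarith)
      have h6 : (1 + g) * (g - 2 * P) ^ 2 < (1 + g) * (1 - g) ^ 2 := by
        have a1 : (1 - g) * (3 / 4 + P * g - P ^ 2 - g ^ 2) - (g - 2 * P) ^ 2 * ((1 + 2 * g) / 2) =
          3 / 4 * ((1 + g) * (1 - g) ^ 2 - (1 + g) * (g - 2 * P) ^ 2) := by ring
        linarith
      have h7 := lt_of_mul_lt_mul_left h6 (by linarith)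
      have h8 : g - 2 * P < 1 - g := lt_of_pow_lt_pow_left₀ 2 (by linarith) h7
      linarith
  -- (V)
  have hV : 0 < ((1 - P) / 2 * ((1 - g) / 2) - T1 * T2) + 3 / 4 * (1 / 2 - P * g) := by
    have hN1 : 0 < 1 - P ^ 2 := by nlinarith
    have hN2 : 0 < 1 - g ^ 2 := by nlinarith
    have hN : 0 < (1 - P ^ 2) * (1 - g ^ 2) := mul_pos hN1 hN2
    refine r3_cmp (J := (1 - P) / 2 * T1 + (1 - g) / 2 * T2) (T := T0)
      (N := (1 - P ^ 2) * (1 - g ^ 2)) ?_ hT0 hN (by norm_num) ?_ ?_ ?_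
    · have : 0 < 1 - P := by linarith
      have : 0 < 1 - g := by linarith
      positivity
    · have h1 : ((1 - P) / 2 * ((1 - g) / 2) - T1 * T2) ^ 2 +
          ((1 - P) / 2 * T1 + (1 - g) / 2 * T2) ^ 2 =
          (((1 - P) / 2) ^ 2 + T2 ^ 2) * (((1 - g) / 2) ^ 2 + T1 ^ 2) := by ring
      rw [h1, e1, e2]
      ring
    · rw [e0]; ring
    · rw [← e5]
      have := mul_pos hom hN
      linarith
  -- contradiction
  obtain ⟨h, rfl⟩ : ∃ h, g = 1 / 2 + h := ⟨g - 1 / 2, by ring⟩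
  have hh0 : 0 ≤ h := by linarith
  have hh1 : h < 1 / 2 := by linarith
  have hPh : h < P := by linarith
  have hV' : T1 * T2 < (1 - h / 2 - P * (1 + h)) / 2 := by nlinarith
  have hU : 0 < 1 - h / 2 - P * (1 + h) := by
    have := mul_pos hT1 hT2
    linarith
  have hsq : (T1 * T2) ^ 2 < ((1 - h / 2 - P * (1 + h)) / 2) ^ 2 :=
    pow_lt_pow_left₀ hV' (mul_pos hT1 hT2).le two_ne_zero
  have hsq2 : T1 ^ 2 * T2 ^ 2 < ((1 - h / 2 - P * (1 + h)) / 2) ^ 2 := by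
    rw [← mul_pow]; exact hsq
  rw [e1, e2] at hsq2
  have hf : 4 * (1 - h ^ 2) * (P * (1 - P)) < 3 * h ^ 2 := by
    have hid : ((1 - h / 2 - P * (1 + h)) / 2) ^ 2 -
        (1 - (1 / 2 + h)) * (1 + 2 * (1 / 2 + h)) / 2 * ((1 - P) * (1 + 2 * P) / 2) =
        3 / 16 * (3 * h ^ 2 - 4 * (1 - h ^ 2) * (P * (1 - P))) := by ring
    linarith
  have k1 : 0 ≤ (P - h) * (1 - h / 2 - P * (1 + h)) := mul_nonneg (by linarith) hU.le
  have k2 : h * (1 - h ^ 2) ≤ (1 + h) * (P * (1 - P)) := by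
    have a0 : h / 2 - h ^ 2 = h * (1 / 2 - h) := by ring
    have a1 : 0 ≤ (P - h) * (h / 2 - h ^ 2) := by
      rw [a0]
      exact mul_nonneg (by linarith) (mul_nonneg hh0 (by linarith))
    have a2 : (1 + h) * (P * (1 - P)) - h * (1 - h ^ 2) =
      (P - h) * (1 - h / 2 - P * (1 + h)) + (P - h) * (h / 2 - h ^ 2) := by ring
    linarith
  have k3 : 3 * h ≤ 4 * (1 - h) ^ 2 * (1 + h) := by
    nlinarith [mul_nonneg hh0 (by linarith : (0 : ℝ) ≤ 1 / 2 - h), sq_nonneg (h - 1 / 2),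
      mul_nonneg (mul_nonneg hh0 hh0) (by linarith : (0 : ℝ) ≤ 1 / 2 - h)]
  have k4 : 4 * (1 - h) * (h * (1 - h ^ 2)) ≤ 4 * (1 - h) * ((1 + h) * (P * (1 - P))) :=
    mul_le_mul_of_nonneg_left k2 (by linarith)
  have k5 : 3 * h * h ≤ 4 * (1 - h) ^ 2 * (1 + h) * h := mul_le_mul_of_nonneg_right k3 hh0
  have k6 : 4 * (1 - h) * (h * (1 - h ^ 2)) = 4 * (1 - h) ^ 2 * (1 + h) * h := by ring
  have k7 : 4 * (1 - h) * ((1 + h) * (P * (1 - P))) = 4 * (1 - h ^ 2) * (P * (1 - P)) := by ring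
  have k8 : 3 * h * h = 3 * h ^ 2 := by ring
  linarith

private lemma r3_i1 (b c d a : E3) : det3 b c a * (⟪b, b⟫ * ⟪d, d⟫ - ⟪b, d⟫ ^ 2) =
    det3 b c d * (⟪b, b⟫ * ⟪d, a⟫ - ⟪b, d⟫ * ⟪b, a⟫) +
    (⟪b, b⟫ * ⟪c, d⟫ - ⟪b, c⟫ * ⟪b, d⟫) * det3 b d a := by
  simp only [det3, inner_c]; ring

private lemma r3_i3 (b d e a : E3) : (⟪b, b⟫ * ⟪d, a⟫ - ⟪b, d⟫ * ⟪b, a⟫) *
    (⟪b, b⟫ * ⟪e, e⟫ - ⟪b, e⟫ ^ 2) =
    (⟪b, b⟫ * ⟪d, e⟫ - ⟪b, d⟫ * ⟪b, e⟫) * (⟪b, b⟫ * ⟪e, a⟫ - ⟪b, e⟫ * ⟪b, a⟫) -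
    ⟪b, b⟫ * (det3 b d e * det3 b e a) := by
  simp only [det3, inner_c]; ring

/-- ring `a b c d e`, all corners of 60 degrees: the angle at `a` is not small -/
theorem rule_E1 {a b c d e : E3} (ha : ⟪a, a⟫ = 1) (hb : ⟪b, b⟫ = 1) (hc : ⟪c, c⟫ = 1)
    (hd : ⟪d, d⟫ = 1) (he : ⟪e, e⟫ = 1)
    (hab : ⟪a, b⟫ = 1 / 2) (hbc : ⟪b, c⟫ = 1 / 2) (hcd : ⟪c, d⟫ = 1 / 2) (hde : ⟪d, e⟫ = 1 / 2)
    (hea : ⟪e, a⟫ = 1 / 2)
    (h1 : 0 < det3 a b c) (h2 : 0 < det3 a b d) (h3 : 0 < det3 a b e) (h4 : 0 < det3 b c d)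
    (h5 : 0 < det3 b c e) (h6 : 0 < det3 c d e) (h7 : 0 < det3 c d a)
    (h9 : 0 < det3 d e a) (h10 : 0 < det3 d e b) (h11 : 0 < det3 e a b) (h12 : 0 < det3 e a c) :
    ⟪e, b⟫ < 1 / 2 := by
  have hcb : ⟪c, b⟫ = 1 / 2 := by rw [real_inner_comm]; exact hbc
  have hdc : ⟪d, c⟫ = 1 / 2 := by rw [real_inner_comm]; exact hcd
  have hed : ⟪e, d⟫ = 1 / 2 := by rw [real_inner_comm]; exact hde
  have hae : ⟪a, e⟫ = 1 / 2 := by rw [real_inner_comm]; exact hea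
  have hba : ⟪b, a⟫ = 1 / 2 := by rw [real_inner_comm]; exact hab
  have had : ⟪a, d⟫ = ⟪d, a⟫ := real_inner_comm _ _
  have hdb : ⟪d, b⟫ = ⟪b, d⟫ := real_inner_comm _ _
  have hbe : ⟪b, e⟫ = ⟪e, b⟫ := real_inner_comm _ _
  have hn : ∀ x y : E3, ⟪x, x⟫ = 1 → ⟪y, y⟫ = 1 → |⟪x, y⟫| ≤ 1 := by
    intro x y hx hy
    have h := abs_real_inner_le_norm x y
    have hx' : ‖x‖ = 1 := by
      rw [real_inner_self_eq_norm_sq] at hx
      nlinarith [norm_nonneg x]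
    have hy' : ‖y‖ = 1 := by
      rw [real_inner_self_eq_norm_sq] at hy
      nlinarith [norm_nonneg y]
    rw [hx', hy'] at h
    linarith
  have q2 := abs_le.1 (hn e b he hb)
  have q3 := abs_le.1 (hn b d hb hd)
  refine r3_E1 (g := ⟪e, b⟫) (P := ⟪b, d⟫) (T0 := det3 d e b) (T1 := det3 e a b)
    (T2 := det3 b c d) (W := det3 d e a) (u := ⟪d, a⟫) (om := det3 b c a)
    h10 h11 h4 h9 (by rw [det3_rot]; exact h1) ?_ ?_ ?_ ?_ ?_ ?_ q2.1 q2.2 q3.1 q3.2
  · rw [sq, det3_mul_det3]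
    simp only [hd, he, hb, hed, hde, hbe, hdb]
    ring
  · rw [sq, det3_mul_det3]
    simp only [he, ha, hb, hae, hea, hab, hba, hbe]
    ring
  · rw [sq, det3_mul_det3]
    simp only [hd, hc, hb, hbc, hcb, hcd, hdc, hdb]
    ring
  · rw [det3_mul_det3]
    simp only [he, hb, hed, hae, hab, hbe, had]
    ring
  · rw [det3_mul_det3]
    simp only [he, hd, hed, hde, hae, hab, hdb, had]
    ring
  · have i1 := r3_i1 b c d a
    have i2 := r3_i1 b d e a
    have i3 := r3_i3 b d e a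
    have r1 : det3 b d e = det3 d e b := det3_rot' d e b
    have r2 : det3 b e a = det3 e a b := det3_rot' e a b
    simp only [hb, hd, he, hbc, hcd, hde, hea, hba, hbe, r1, r2] at i1 i2 i3
    linear_combination (1 - ⟪e, b⟫ ^ 2) * i1 + det3 b c d * i3 + (1 - ⟪b, d⟫) / 2 * i2

end Pool.Agent.Lib.MP_ba95e8_co
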