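import Pool.Agent.Lib.MP_ba95e8_co.Model
import Pool.Agent.Lib.MP_ba95e8_co.Rules
import Pool.Agent.Lib.MP_ba95e8_co.Rules3
import Pool.Agent.Lib.MP_ba95e8_co.Perim

/-!
Deltahedral domes, task G2b: the ring at a base vertex matches a pattern.
`s` are the classes; nothing is assumed about the classes of the two base edges `0` and `1`.
-/

namespace Pool.Agent.Lib.MP_ba95e8_co

open scoped RealInnerProductSpace

/-! ### classes -/

section cls

variable {x y z : E3}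

lemma rb_q (h : ⟪x, y⟫ * ⟪y, z⟫ = 1 / 4) : kcls x y z = classOf (4 / 3 * (⟪x, z⟫ - 1 / 4)) := by
  unfold kcls; rw [h]

lemma rb_m (h : ⟪x, y⟫ * ⟪y, z⟫ = - 1 / 4) :
    kcls x y z = classOf (4 / 3 * (⟪x, z⟫ - (- 1 / 4))) := by
  unfold kcls; rw [h]

lemma rb_q4 (h : ⟪x, y⟫ * ⟪y, z⟫ = 1 / 4) (hg : ⟪x, z⟫ < 0) : kcls x y z = 4 := by
  rw [rb_q h]
  unfold classOf
  rw [if_neg (by linarith), if_neg (by linarith), if_neg (by linarith), if_neg (by linarith)]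

lemma rb_q0 (h : ⟪x, y⟫ * ⟪y, z⟫ = 1 / 4) (hg : 1 / 2 < ⟪x, z⟫) : kcls x y z = 0 := by
  rw [rb_q h]
  unfold classOf
  rw [if_pos (by linarith)]

lemma rb_q1 (h : ⟪x, y⟫ * ⟪y, z⟫ = 1 / 4) (hg : ⟪x, z⟫ = 1 / 2) : kcls x y z = 1 := by
  rw [rb_q h, hg]
  unfold classOf
  rw [if_neg (by norm_num), if_pos (by norm_num)]

lemma rb_cls28 {κ : ℝ} (h : κ < 1 / 3) : Nat.testBit 28 (classOf κ) = true := by
  unfold classOf
  rw [if_neg (by linarith), if_neg (by linarith)]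
  split_ifs <;> rfl

lemma rb_q28 (h : ⟪x, y⟫ * ⟪y, z⟫ = 1 / 4) (hg : ⟪x, z⟫ < 1 / 2) :
    Nat.testBit 28 (kcls x y z) = true := by
  rw [rb_q h]
  exact rb_cls28 (by linarith)

lemma rb_m4 (h : ⟪x, y⟫ * ⟪y, z⟫ = - 1 / 4) (hg : ⟪x, z⟫ < - 1 / 2) : kcls x y z = 4 := by
  rw [rb_m h]
  unfold classOf
  rw [if_neg (by linarith), if_neg (by linarith), if_neg (by linarith), if_neg (by linarith)]

lemma rb_m28 (h : ⟪x, y⟫ * ⟪y, z⟫ = - 1 / 4) (hg : ⟪x, z⟫ < 0) :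
    Nat.testBit 28 (kcls x y z) = true := by
  rw [rb_m h]
  exact rb_cls28 (by linarith)

end cls

lemma rb_31 {v : ℕ} (h : v < 5) : Nat.testBit 31 v = true := by
  interval_cases v <;> rfl

lemma rb_16 {v : ℕ} (h : v = 4) : Nat.testBit 16 v = true := by
  subst h; rfl

/-! ### matching -/

lemma rb_match3 {B : List (List ℕ × List ℕ)} {c s : ℤ → ℕ} {x1 x2 m2 : ℕ}
    (hB : ([0, x1, x2], [31, 31, m2]) ∈ B) (hs : ∀ i, s i < 5) (h0 : c 0 = 0) (h1 : c 1 = x1)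
    (h2 : c 2 = x2) (hm : Nat.testBit m2 (s 2) = true) : Matches B 3 c s 0 := by
  refine ⟨_, hB, ?_, ?_⟩
  · simp [List.range_succ, h0, h1, h2]
  · intro t ht
    interval_cases t
    · exact rb_31 (hs _)
    · exact rb_31 (hs _)
    · exact hm

lemma rb_match4 {B : List (List ℕ × List ℕ)} {c s : ℤ → ℕ} {x1 x2 x3 m2 m3 : ℕ}
    (hB : ([0, x1, x2, x3], [31, 31, m2, m3]) ∈ B) (hs : ∀ i, s i < 5) (h0 : c 0 = 0)
    (h1 : c 1 = x1) (h2 : c 2 = x2) (h3 : c 3 = x3) (hm2 : Nat.testBit m2 (s 2) = true)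
    (hm3 : Nat.testBit m3 (s 3) = true) : Matches B 4 c s 0 := by
  refine ⟨_, hB, ?_, ?_⟩
  · simp [List.range_succ, h0, h1, h2, h3]
  · intro t ht
    interval_cases t
    · exact rb_31 (hs _)
    · exact rb_31 (hs _)
    · exact hm2
    · exact hm3

lemma rb_match5 {B : List (List ℕ × List ℕ)} {c s : ℤ → ℕ} {x1 x2 x3 x4 m2 m3 m4 : ℕ}
    (hB : ([0, x1, x2, x3, x4], [31, 31, m2, m3, m4]) ∈ B) (hs : ∀ i, s i < 5) (h0 : c 0 = 0)
    (h1 : c 1 = x1) (h2 : c 2 = x2) (h3 : c 3 = x3) (h4 : c 4 = x4)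
    (hm2 : Nat.testBit m2 (s 2) = true)
    (hm3 : Nat.testBit m3 (s 3) = true) (hm4 : Nat.testBit m4 (s 4) = true) :
    Matches B 5 c s 0 := by
  refine ⟨_, hB, ?_, ?_⟩
  · simp [List.range_succ, h0, h1, h2, h3, h4]
  · intro t ht
    interval_cases t
    · exact rb_31 (hs _)
    · exact rb_31 (hs _)
    · exact hm2
    · exact hm3
    · exact hm4

lemma rb_match6 {B : List (List ℕ × List ℕ)} {c s : ℤ → ℕ} {x1 x2 x3 x4 x5 m2 m3 m4 m5 : ℕ}
    (hB : ([0, x1, x2, x3, x4, x5], [31, 31, m2, m3, m4, m5]) ∈ B) (hs : ∀ i, s i < 5)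
    (h0 : c 0 = 0)
    (h1 : c 1 = x1) (h2 : c 2 = x2) (h3 : c 3 = x3) (h4 : c 4 = x4) (h5 : c 5 = x5)
    (hm2 : Nat.testBit m2 (s 2) = true)
    (hm3 : Nat.testBit m3 (s 3) = true) (hm4 : Nat.testBit m4 (s 4) = true)
    (hm5 : Nat.testBit m5 (s 5) = true) :
    Matches B 6 c s 0 := by
  refine ⟨_, hB, ?_, ?_⟩
  · simp [List.range_succ, h0, h1, h2, h3, h4, h5]
  · intro t ht
    interval_cases t
    · exact rb_31 (hs _)
    · exact rb_31 (hs _)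
    · exact hm2
    · exact hm3
    · exact hm4
    · exact hm5

lemma rb_mono {B B' : List (List ℕ × List ℕ)} {k : ℕ} {c s : ℤ → ℕ} {j : ℤ}
    (h : ∀ q ∈ B, q ∈ B') (hm : Matches B k c s j) : Matches B' k c s j := by
  obtain ⟨q, hq, h1, h2⟩ := hm
  exact ⟨q, h q hq, h1, h2⟩

lemma rb_of_BPc {k : ℕ} {c s : ℤ → ℕ} {p q r : Prop} (hm : Matches BPc k c s 0) :
    (p → Matches BPgt k c s 0) ∧ (q → Matches BPeq k c s 0) ∧ (r → Matches BPlt k c s 0) := by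
  refine ⟨fun _ => rb_mono ?_ hm, fun _ => rb_mono ?_ hm, fun _ => rb_mono ?_ hm⟩
  · intro q hq
    exact List.mem_append_right _ hq
  · intro q hq
    exact List.mem_append_right _ hq
  · intro q hq
    exact List.mem_append_left _ (List.mem_append_right _ hq)

lemma rb_of_gt {k : ℕ} {c s : ℤ → ℕ} {g : ℝ} (hg : 1 / 2 < g) (hm : Matches BPlt k c s 0) :
    (g < 1 / 2 → Matches BPgt k c s 0) ∧ (g = 1 / 2 → Matches BPeq k c s 0) ∧
      (1 / 2 < g → Matches BPlt k c s 0) :=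
  ⟨fun h => absurd h (not_lt.2 hg.le), fun h => absurd h hg.ne', fun _ => hm⟩

/-! ### the perimeter -/

lemma rb_angle {x y : E3} (hx : ‖x‖ = 1) (hy : ‖y‖ = 1) (c : ℕ) (hc : c = 1 ∨ c = 2)
    (h : ⟪x, y⟫ = if c = 1 then 1 / 2 else - 1 / 2) :
    InnerProductGeometry.angle x y = Real.pi / 3 * c := by
  unfold InnerProductGeometry.angle
  rw [hx, hy, h]
  rcases hc with rfl | rfl
  · rw [if_pos rfl]
    have : ((1 : ℝ) / 2 / (1 * 1)) = Real.cos (Real.pi / 3) := by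
      rw [Real.cos_pi_div_three]; norm_num
    rw [this, Real.arccos_cos (by positivity) (by linarith [Real.pi_pos])]
    norm_num
  · rw [if_neg (by norm_num)]
    have : (-(1 : ℝ) / 2 / (1 * 1)) = Real.cos (Real.pi - Real.pi / 3) := by
      rw [Real.cos_pi_sub, Real.cos_pi_div_three]; norm_num
    rw [this, Real.arccos_cos (by linarith [Real.pi_pos]) (by linarith [Real.pi_pos])]
    push_cast
    ring

lemma rb_perim (k : ℕ) (hk : 3 ≤ k) (a : ℤ → E3) (c : ℤ → ℕ) (hu : ∀ i, ‖a i‖ = 1)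
    (hpa : ∀ i, a (i + k) = a i)
    (hc : ∀ i : ℤ, 0 < i → i < k → c i = 1 ∨ c i = 2)
    (hin : ∀ i : ℤ, 0 < i → i < k → ⟪a i, a (i + 1)⟫ = if c i = 1 then 1 / 2 else - 1 / 2)
    (hpos : ∀ i j : ℤ, i + 1 < j → j < i + k → 0 < det3 (a i) (a (i + 1)) (a j)) :
    InnerProductGeometry.angle (a 0) (a 1) +
      Real.pi / 3 * (∑ i ∈ Finset.range (k - 1), c (i + 1) : ℕ) < 2 * Real.pi := by
  have h := ring_perimeter k hk (fun i : ℕ => a i) (fun i => hu i)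
    (fun i => by
      have := hpa i
      push_cast
      exact this)
    (fun i j h1 h2 => by
      have := hpos i j (by exact_mod_cast h1) (by exact_mod_cast h2)
      push_cast
      exact this)
  obtain ⟨m, rfl⟩ : ∃ m, k = m + 1 := ⟨k - 1, by omega⟩
  rw [Finset.sum_range_succ'] at h
  simp only [Nat.add_sub_cancel]
  have h2 : ∑ i ∈ Finset.range m,
      InnerProductGeometry.angle (a ((i + 1 : ℕ) : ℤ)) (a ((i + 1 + 1 : ℕ) : ℤ)) =
      Real.pi / 3 * (∑ i ∈ Finset.range m, c (i + 1) : ℕ) := by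
    push_cast
    rw [Finset.mul_sum]
    refine Finset.sum_congr rfl fun i hi => ?_
    rw [Finset.mem_range] at hi
    exact rb_angle (hu _) (hu _) _ (hc _ (by omega) (by push_cast; omega))
      (hin _ (by omega) (by push_cast; omega))
  rw [h2] at h
  have h3 : InnerProductGeometry.angle (a ((0 : ℕ) : ℤ)) (a ((0 + 1 : ℕ) : ℤ)) =
      InnerProductGeometry.angle (a 0) (a 1) := by norm_num
  rw [h3] at h
  linarith

/-- the sum of the codes of the fan -/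
lemma rb_sum (k : ℕ) (hk : 3 ≤ k) (a : ℤ → E3) (c : ℤ → ℕ) (hu : ∀ i, ‖a i‖ = 1)
    (hpa : ∀ i, a (i + k) = a i)
    (hc : ∀ i : ℤ, 0 < i → i < k → c i = 1 ∨ c i = 2)
    (hin : ∀ i : ℤ, 0 < i → i < k → ⟪a i, a (i + 1)⟫ = if c i = 1 then 1 / 2 else - 1 / 2)
    (hpos : ∀ i j : ℤ, i + 1 < j → j < i + k → 0 < det3 (a i) (a (i + 1)) (a j)) :
    ∑ i ∈ Finset.range (k - 1), c (i + 1) ≤ 5 ∧
      (∑ i ∈ Finset.range (k - 1), c (i + 1) = 5 → 1 / 2 < ⟪a 0, a 1⟫) := by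
  have h := rb_perim k hk a c hu hpa hc hin hpos
  have h0 := InnerProductGeometry.angle_nonneg (a 0) (a 1)
  have hpi := Real.pi_pos
  constructor
  · by_contra hno
    push Not at hno
    have h1 : (6 : ℝ) ≤ (∑ i ∈ Finset.range (k - 1), c (i + 1) : ℕ) := by exact_mod_cast hno
    have h2 := mul_le_mul_of_nonneg_left h1 (by positivity : 0 ≤ Real.pi / 3)
    linarith
  · intro h5
    rw [h5] at h
    have h1 : InnerProductGeometry.angle (a 0) (a 1) < Real.pi / 3 := by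
      push_cast at h
      linarith
    have h2 : Real.cos (Real.pi / 3) < Real.cos (InnerProductGeometry.angle (a 0) (a 1)) :=
      Real.cos_lt_cos_of_nonneg_of_le_pi h0 (by linarith) h1
    rw [Real.cos_pi_div_three, InnerProductGeometry.cos_angle, hu, hu] at h2
    norm_num at h2
    linarith

lemma rb_i1 {t : ℝ} {v : ℕ} (h : t = if v = 1 then 1 / 2 else -(1 / 2)) (hv : v = 1) :
    t = 1 / 2 := by rw [h, if_pos hv]

lemma rb_i2 {t : ℝ} {v : ℕ} (h : t = if v = 1 then 1 / 2 else -(1 / 2)) (hv : v = 2) :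
    t = - 1 / 2 := by rw [h, if_neg (by omega)]; norm_num

lemma rb_unit {x : E3} (h : ‖x‖ = 1) : ⟪x, x⟫ = 1 := by
  rw [real_inner_self_eq_norm_sq, h]; norm_num

/-! ### mirror images -/

section mirror

variable {a b c d e : E3}

lemma rb_nn {x y : E3} {t : ℝ} (h : ⟪x, y⟫ = t) : ⟪-y, -x⟫ = t := by
  rw [inner_neg_neg, real_inner_comm]; exact h

lemma rb_n1 {x : E3} (h : ⟪x, x⟫ = 1) : ⟪-x, -x⟫ = 1 := by
  rw [inner_neg_neg]; exact h

/-- corners 120, 60, 60 -/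
theorem rb_211 (ha : ⟪a, a⟫ = 1) (hb : ⟪b, b⟫ = 1) (hc : ⟪c, c⟫ = 1) (hd : ⟪d, d⟫ = 1)
    (hbc : ⟪b, c⟫ = - 1 / 2) (hcd : ⟪c, d⟫ = 1 / 2) (hda : ⟪d, a⟫ = 1 / 2)
    (h1 : 0 < det3 a b c) (h2 : 0 < det3 a b d) (h3 : 0 < det3 b c d) (h4 : 0 < det3 c d a) :
    ¬ (0 ≤ ⟪c, a⟫ ∧ - 1 / 2 ≤ ⟪b, d⟫) := by
  have := fan_112 (a := -b) (b := -a) (c := -d) (d := -c) (rb_n1 hb) (rb_n1 ha) (rb_n1 hd)
    (rb_n1 hc) (rb_nn hda) (rb_nn hcd) (rb_nn hbc) (by have h := h2; simp only [det3, neg_c] at h ⊢; linarith) (by have h := h1; simp only [det3, neg_c] at h ⊢; linarith) (by have h := h4; simp only [det3, neg_c] at h ⊢; linarith) (by have h := h3; simp only [det3, neg_c] at h ⊢; linarith)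
  rwa [inner_neg_neg, inner_neg_neg, real_inner_comm c a, real_inner_comm b d] at this

/-- corners 120, 120, 60 -/
theorem rb_221 (ha : ⟪a, a⟫ = 1) (hb : ⟪b, b⟫ = 1) (hc : ⟪c, c⟫ = 1) (hd : ⟪d, d⟫ = 1)
    (hbc : ⟪b, c⟫ = - 1 / 2) (hcd : ⟪c, d⟫ = - 1 / 2) (hda : ⟪d, a⟫ = 1 / 2)
    (h1 : 0 < det3 a b c) (h2 : 0 < det3 a b d) (h3 : 0 < det3 b c d) (h4 : 0 < det3 c d a) :
    ⟪c, a⟫ < - 1 / 2 ∧ ⟪b, d⟫ < 1 / 2 := by
  have := fan_122 (a := -b) (b := -a) (c := -d) (d := -c) (rb_n1 hb) (rb_n1 ha) (rb_n1 hd)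
    (rb_n1 hc) (rb_nn hda) (rb_nn hcd) (rb_nn hbc) (by have h := h2; simp only [det3, neg_c] at h ⊢; linarith) (by have h := h1; simp only [det3, neg_c] at h ⊢; linarith) (by have h := h4; simp only [det3, neg_c] at h ⊢; linarith) (by have h := h3; simp only [det3, neg_c] at h ⊢; linarith)
  rwa [inner_neg_neg, inner_neg_neg, real_inner_comm c a, real_inner_comm b d] at this

/-- corners 60, 60, 60, 60, second half -/
theorem rb_1111 (ha : ⟪a, a⟫ = 1) (hb : ⟪b, b⟫ = 1) (hc : ⟪c, c⟫ = 1) (hd : ⟪d, d⟫ = 1)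
    (he : ⟪e, e⟫ = 1)
    (hbc : ⟪b, c⟫ = 1 / 2) (hcd : ⟪c, d⟫ = 1 / 2) (hde : ⟪d, e⟫ = 1 / 2) (hea : ⟪e, a⟫ = 1 / 2)
    (h1 : 0 < det3 a b c) (h2 : 0 < det3 a b d) (h3 : 0 < det3 a b e) (h4 : 0 < det3 b c d)
    (h5 : 0 < det3 b c e) (h6 : 0 < det3 c d e) (h7 : 0 < det3 c d a)
    (h9 : 0 < det3 d e a) (h10 : 0 < det3 d e b) (h11 : 0 < det3 e a b) (h12 : 0 < det3 e a c) :
    ¬ (0 ≤ ⟪d, a⟫ ∧ 0 ≤ ⟪c, e⟫) := by
  have := fan_1111 (a := -b) (b := -a) (c := -e) (d := -d) (e := -c) (rb_n1 hb) (rb_n1 ha)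
    (rb_n1 he) (rb_n1 hd) (rb_n1 hc) (rb_nn hea) (rb_nn hde) (rb_nn hcd) (rb_nn hbc)
    (by have h := h11; simp only [det3, neg_c] at h ⊢; linarith) (by have h := h1; simp only [det3, neg_c] at h ⊢; linarith) (by have h := h9; simp only [det3, neg_c] at h ⊢; linarith) (by have h := h12; simp only [det3, neg_c] at h ⊢; linarith) (by have h := h6; simp only [det3, neg_c] at h ⊢; linarith) (by have h := h10; simp only [det3, neg_c] at h ⊢; linarith) (by have h := h9; simp only [det3, neg_c] at h ⊢; linarith) (by have h := h4; simp only [det3, neg_c] at h ⊢; linarith)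
    (by have h := h7; simp only [det3, neg_c] at h ⊢; linarith)
  rwa [inner_neg_neg, inner_neg_neg, real_inner_comm d a, real_inner_comm c e] at this

/-- corners 120, 60, 60, 60 -/
theorem rb_2111 (ha : ⟪a, a⟫ = 1) (hb : ⟪b, b⟫ = 1) (hc : ⟪c, c⟫ = 1) (hd : ⟪d, d⟫ = 1)
    (he : ⟪e, e⟫ = 1)
    (hbc : ⟪b, c⟫ = - 1 / 2) (hcd : ⟪c, d⟫ = 1 / 2) (hde : ⟪d, e⟫ = 1 / 2) (hea : ⟪e, a⟫ = 1 / 2)
    (h1 : 0 < det3 a b c) (h2 : 0 < det3 a b d) (h3 : 0 < det3 a b e) (h4 : 0 < det3 b c d)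
    (h5 : 0 < det3 b c e) (h6 : 0 < det3 c d e) (h7 : 0 < det3 c d a)
    (h9 : 0 < det3 d e a) (h10 : 0 < det3 d e b) (h11 : 0 < det3 e a b) (h12 : 0 < det3 e a c) :
    ¬ (0 ≤ ⟪d, a⟫ ∧ 0 ≤ ⟪c, e⟫) ∧ ¬ (0 ≤ ⟪c, e⟫ ∧ - 1 / 2 ≤ ⟪b, d⟫) := by
  have := fan_1112 (a := -b) (b := -a) (c := -e) (d := -d) (e := -c) (rb_n1 hb) (rb_n1 ha)
    (rb_n1 he) (rb_n1 hd) (rb_n1 hc) (rb_nn hea) (rb_nn hde) (rb_nn hcd) (rb_nn hbc)
    (by have h := h11; simp only [det3, neg_c] at h ⊢; linarith) (by have h := h2; simp only [det3, neg_c] at h ⊢; linarith) (by have h := h1; simp only [det3, neg_c] at h ⊢; linarith) (by have h := h9; simp only [det3, neg_c] at h ⊢; linarith) (by have h := h12; simp only [det3, neg_c] at h ⊢; linarith) (by have h := h6; simp only [det3, neg_c] at h ⊢; linarith) (by have h := h10; simp only [det3, neg_c] at h ⊢; linarith) (by have h := h4; simp only [det3, neg_c] at h ⊢;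 linarith)
    (by have h := h7; simp only [det3, neg_c] at h ⊢; linarith) (by have h := h1; simp only [det3, neg_c] at h ⊢; linarith) (by have h := h5; simp only [det3, neg_c] at h ⊢; linarith)
  rwa [inner_neg_neg, inner_neg_neg, inner_neg_neg, real_inner_comm d a, real_inner_comm c e,
    real_inner_comm b d] at this

/-- corners 60, 120, 60, 60 -/
theorem rb_1211 (ha : ⟪a, a⟫ = 1) (hb : ⟪b, b⟫ = 1) (hc : ⟪c, c⟫ = 1) (hd : ⟪d, d⟫ = 1)
    (he : ⟪e, e⟫ = 1)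
    (hbc : ⟪b, c⟫ = 1 / 2) (hcd : ⟪c, d⟫ = - 1 / 2) (hde : ⟪d, e⟫ = 1 / 2) (hea : ⟪e, a⟫ = 1 / 2)
    (h1 : 0 < det3 a b c) (h2 : 0 < det3 a b d) (h3 : 0 < det3 a b e) (h4 : 0 < det3 b c d)
    (h5 : 0 < det3 b c e) (h6 : 0 < det3 c d e) (h7 : 0 < det3 c d a)
    (h9 : 0 < det3 d e a) (h10 : 0 < det3 d e b) (h11 : 0 < det3 e a b) (h12 : 0 < det3 e a c) :
    ¬ (0 ≤ ⟪d, a⟫ ∧ - 1 / 2 ≤ ⟪c, e⟫) ∧ ⟪d, a⟫ < 1 / 2 ∧ ⟪c, e⟫ < 0 := by
  have := fan_1121 (a := -b) (b := -a) (c := -e) (d := -d) (e := -c) (rb_n1 hb) (rb_n1 ha)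
    (rb_n1 he) (rb_n1 hd) (rb_n1 hc) (rb_nn hea) (rb_nn hde) (rb_nn hcd) (rb_nn hbc)
    (by have h := h11; simp only [det3, neg_c] at h ⊢; linarith) (by have h := h2; simp only [det3, neg_c] at h ⊢; linarith) (by have h := h1; simp only [det3, neg_c] at h ⊢; linarith) (by have h := h9; simp only [det3, neg_c] at h ⊢; linarith) (by have h := h12; simp only [det3, neg_c] at h ⊢; linarith) (by have h := h6; simp only [det3, neg_c] at h ⊢; linarith) (by have h := h10; simp only [det3, neg_c] at h ⊢; linarith) (by have h := h4; simp only [det3, neg_c] at h ⊢; linarith)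
    (by have h := h7; simp only [det3, neg_c] at h ⊢; linarith) (by have h := h1; simp only [det3, neg_c] at h ⊢; linarith) (by have h := h5; simp only [det3, neg_c] at h ⊢; linarith)
  rwa [inner_neg_neg, inner_neg_neg, real_inner_comm d a, real_inner_comm c e] at this

/-- corners 60, 120, 60, 60 -/
theorem rb_1211_last (ha : ⟪a, a⟫ = 1) (hb : ⟪b, b⟫ = 1) (hc : ⟪c, c⟫ = 1) (hd : ⟪d, d⟫ = 1)
    (he : ⟪e, e⟫ = 1)
    (hbc : ⟪b, c⟫ = 1 / 2) (hcd : ⟪c, d⟫ = - 1 / 2) (hde : ⟪d, e⟫ = 1 / 2) (hea : ⟪e, a⟫ = 1 / 2)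
    (h1 : 0 < det3 a b c) (h2 : 0 < det3 a b d) (h3 : 0 < det3 a b e) (h4 : 0 < det3 b c d)
    (h5 : 0 < det3 b c e) (h6 : 0 < det3 c d e) (h7 : 0 < det3 c d a)
    (h9 : 0 < det3 d e a) (h10 : 0 < det3 d e b) (h11 : 0 < det3 e a b) (h12 : 0 < det3 e a c)
    (hab : 1 / 2 < ⟪a, b⟫) : ⟪b, d⟫ < 0 := by
  have := fan_1121_last (a := -b) (b := -a) (c := -e) (d := -d) (e := -c) (rb_n1 hb) (rb_n1 ha)
    (rb_n1 he) (rb_n1 hd) (rb_n1 hc) (rb_nn hea) (rb_nn hde) (rb_nn hcd) (rb_nn hbc)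
    (by have h := h11; simp only [det3, neg_c] at h ⊢; linarith) (by have h := h2; simp only [det3, neg_c] at h ⊢; linarith) (by have h := h1; simp only [det3, neg_c] at h ⊢; linarith) (by have h := h9; simp only [det3, neg_c] at h ⊢; linarith) (by have h := h12; simp only [det3, neg_c] at h ⊢; linarith) (by have h := h6; simp only [det3, neg_c] at h ⊢; linarith) (by have h := h10; simp only [det3, neg_c] at h ⊢; linarith) (by have h := h4; simp only [det3, neg_c] at h ⊢; linarith)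
    (by have h := h7; simp only [det3, neg_c] at h ⊢; linarith) (by have h := h1; simp only [det3, neg_c] at h ⊢; linarith) (by have h := h5; simp only [det3, neg_c] at h ⊢; linarith) (by rw [inner_neg_neg, real_inner_comm]; exact hab)
  rwa [inner_neg_neg, real_inner_comm b d] at this

end mirror

theorem rb_k3 (a : ℤ → E3) (c s : ℤ → ℕ) (hu : ∀ i, ‖a i‖ = 1)
    (hpa : ∀ i, a (i + (3 : ℕ)) = a i) (hc0 : c 0 = 0)
    (hc : ∀ i : ℤ, 0 < i → i < (3 : ℕ) → c i = 1 ∨ c i = 2)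
    (hin : ∀ i : ℤ, 0 < i → i < (3 : ℕ) → ⟪a i, a (i + 1)⟫ = if c i = 1 then 1 / 2 else - 1 / 2)
    (hpos : ∀ i j : ℤ, i + 1 < j → j < i + (3 : ℕ) → 0 < det3 (a i) (a (i + 1)) (a j))
    (hs : ∀ i, s i < 5)
    (hs2 : ∀ i : ℤ, 1 < i → i < (3 : ℕ) → s i = kcls (a (i - 1)) (a i) (a (i + 1))) :
    (⟪a 0, a 1⟫ < 1 / 2 → Matches BPgt 3 c s 0) ∧
    (⟪a 0, a 1⟫ = 1 / 2 → Matches BPeq 3 c s 0) ∧
    (1 / 2 < ⟪a 0, a 1⟫ → Matches BPlt 3 c s 0) := by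
  have e3 : a 3 = a 0 := by have := hpa 0; norm_num at this; exact this
  have D1 := hpos 0 2 (by norm_num) (by norm_num)
  have I1 := hin 1 (by norm_num) (by norm_num)
  have I2 := hin 2 (by norm_num) (by norm_num)
  have S2 := hs2 2 (by norm_num) (by norm_num)
  norm_num only at D1 I1 I2 S2
  rw [e3] at I2 S2
  have u0 := rb_unit (hu 0)
  have u1 := rb_unit (hu 1)
  have u2 := rb_unit (hu 2)
  -- the same corners
  have hsame : ∀ x, c 1 = x → c 2 = x → ([0, x, x], [31, 31, 28]) ∈ BPgt →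
      ([0, x, x], [31, 31, 2]) ∈ BPeq → ([0, x, x], [31, 31, 1]) ∈ BPlt →
      ⟪a 1, a 2⟫ * ⟪a 2, a 0⟫ = 1 / 4 →
      (⟪a 0, a 1⟫ < 1 / 2 → Matches BPgt 3 c s 0) ∧
      (⟪a 0, a 1⟫ = 1 / 2 → Matches BPeq 3 c s 0) ∧
      (1 / 2 < ⟪a 0, a 1⟫ → Matches BPlt 3 c s 0) := by
    intro x h1 h2 m1 m2 m3 hq
    refine ⟨fun h => ?_, fun h => ?_, fun h => ?_⟩
    · refine rb_match3 m1 hs hc0 h1 h2 ?_
      rw [S2]
      exact rb_q28 hq (by rw [real_inner_comm]; exact h)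
    · refine rb_match3 m2 hs hc0 h1 h2 ?_
      rw [S2, rb_q1 hq (by rw [real_inner_comm]; exact h)]
      rfl
    · refine rb_match3 m3 hs hc0 h1 h2 ?_
      rw [S2, rb_q0 hq (by rw [real_inner_comm]; exact h)]
      rfl
  rcases hc 1 (by norm_num) (by norm_num) with h1 | h1 <;>
    rcases hc 2 (by norm_num) (by norm_num) with h2 | h2
  · refine hsame 1 h1 h2 (by decide) (by decide) (by decide) ?_
    rw [rb_i1 I1 h1, rb_i1 I2 h2]; norm_num
  · have h := fan_12 u0 u1 u2 (rb_i1 I1 h1) (rb_i2 I2 h2) D1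
    refine ⟨fun _ => rb_match3 (m2 := 31) (by decide) hs hc0 h1 h2 (rb_31 (hs _)),
      fun h' => absurd h' h.ne, fun h' => absurd h' (not_lt.2 h.le)⟩
  · have h := fan_12 (a := -a 1) (b := -a 0) (c := -a 2) (rb_n1 u1) (rb_n1 u0) (rb_n1 u2)
      (rb_nn (rb_i1 I2 h2)) (rb_nn (rb_i2 I1 h1)) (by have h := D1; simp only [det3, neg_c] at h ⊢; linarith)
    rw [inner_neg_neg, real_inner_comm] at h
    refine ⟨fun _ => rb_match3 (m2 := 31) (by decide) hs hc0 h1 h2 (rb_31 (hs _)),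
      fun h' => absurd h' h.ne, fun h' => absurd h' (not_lt.2 h.le)⟩
  · refine hsame 2 h1 h2 (by decide) (by decide) (by decide) ?_
    rw [rb_i2 I1 h1, rb_i2 I2 h2]; norm_num

theorem rb_k4 (a : ℤ → E3) (c s : ℤ → ℕ) (hu : ∀ i, ‖a i‖ = 1)
    (hpa : ∀ i, a (i + (4 : ℕ)) = a i) (hc0 : c 0 = 0)
    (hc : ∀ i : ℤ, 0 < i → i < (4 : ℕ) → c i = 1 ∨ c i = 2)
    (hin : ∀ i : ℤ, 0 < i → i < (4 : ℕ) → ⟪a i, a (i + 1)⟫ = if c i = 1 then 1 / 2 else - 1 / 2)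
    (hpos : ∀ i j : ℤ, i + 1 < j → j < i + (4 : ℕ) → 0 < det3 (a i) (a (i + 1)) (a j))
    (hs : ∀ i, s i < 5)
    (hs2 : ∀ i : ℤ, 1 < i → i < (4 : ℕ) → s i = kcls (a (i - 1)) (a i) (a (i + 1))) :
    (⟪a 0, a 1⟫ < 1 / 2 → Matches BPgt 4 c s 0) ∧
    (⟪a 0, a 1⟫ = 1 / 2 → Matches BPeq 4 c s 0) ∧
    (1 / 2 < ⟪a 0, a 1⟫ → Matches BPlt 4 c s 0) := by
  have e4 : a 4 = a 0 := by have := hpa 0; norm_num at this; exact this
  have D1 := hpos 0 2 (by norm_num) (by norm_num)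
  have D2 := hpos 0 3 (by norm_num) (by norm_num)
  have D3 := hpos 1 3 (by norm_num) (by norm_num)
  have D4 := hpos 2 4 (by norm_num) (by norm_num)
  have I1 := hin 1 (by norm_num) (by norm_num)
  have I2 := hin 2 (by norm_num) (by norm_num)
  have I3 := hin 3 (by norm_num) (by norm_num)
  have S2 := hs2 2 (by norm_num) (by norm_num)
  have S3 := hs2 3 (by norm_num) (by norm_num)
  norm_num only at D1 D2 D3 D4 I1 I2 I3 S2 S3
  rw [e4] at D4 I3 S3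
  have u0 := rb_unit (hu 0)
  have u1 := rb_unit (hu 1)
  have u2 := rb_unit (hu 2)
  have u3 := rb_unit (hu 3)
  have hsum := rb_sum 4 (by norm_num) a c hu hpa hc hin hpos
  norm_num [Finset.sum_range_succ] at hsum
  obtain ⟨hs5, hs5'⟩ := hsum
  rcases hc 1 (by norm_num) (by norm_num) with h1 | h1 <;>
    rcases hc 2 (by norm_num) (by norm_num) with h2 | h2 <;>
    rcases hc 3 (by norm_num) (by norm_num) with h3 | h3
  · -- 111
    exact rb_of_BPc (rb_match4 (m2 := 31) (m3 := 31) (by decide) hs hc0 h1 h2 h3 (rb_31 (hs _))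
      (rb_31 (hs _)))
  · -- 112
    have i1 := rb_i1 I1 h1
    have i2 := rb_i1 I2 h2
    have i3 := rb_i2 I3 h3
    have h := fan_112 u0 u1 u2 u3 i1 i2 i3 D1 D2 D3 D4
    rcases lt_or_ge ⟪a 1, a 3⟫ 0 with g | g
    · exact rb_of_BPc (rb_match4 (m2 := 16) (m3 := 31) (by decide) hs hc0 h1 h2 h3
        (rb_16 (S2.trans (rb_q4 (by rw [i1, i2]; norm_num) g))) (rb_31 (hs _)))
    · rcases lt_or_ge ⟪a 2, a 0⟫ (- 1 / 2) with g' | g'
      · exact rb_of_BPc (rb_match4 (m2 := 31) (m3 := 16) (by decide) hs hc0 h1 h2 h3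
          (rb_31 (hs _)) (rb_16 (S3.trans (rb_m4 (by rw [i2, i3]; norm_num) g'))))
      · exact absurd ⟨g, g'⟩ h
  · -- 121
    exact rb_of_BPc (rb_match4 (m2 := 31) (m3 := 31) (by decide) hs hc0 h1 h2 h3 (rb_31 (hs _))
      (rb_31 (hs _)))
  · -- 122
    have i1 := rb_i1 I1 h1
    have i2 := rb_i2 I2 h2
    have i3 := rb_i2 I3 h3
    have h := fan_122 u0 u1 u2 u3 i1 i2 i3 D1 D2 D3 D4
    exact rb_of_gt (hs5' (by omega)) (rb_match4 (m2 := 16) (m3 := 28) (by decide) hs hc0 h1 h2 h3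
      (rb_16 (S2.trans (rb_m4 (by rw [i1, i2]; norm_num) h.1)))
      (S3 ▸ rb_q28 (by rw [i2, i3]; norm_num) h.2))
  · -- 211
    have i1 := rb_i2 I1 h1
    have i2 := rb_i1 I2 h2
    have i3 := rb_i1 I3 h3
    have h := rb_211 u0 u1 u2 u3 i1 i2 i3 D1 D2 D3 D4
    rcases lt_or_ge ⟪a 2, a 0⟫ 0 with g | g
    · exact rb_of_BPc (rb_match4 (m2 := 31) (m3 := 16) (by decide) hs hc0 h1 h2 h3
        (rb_31 (hs _)) (rb_16 (S3.trans (rb_q4 (by rw [i2, i3]; norm_num) g))))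
    · rcases lt_or_ge ⟪a 1, a 3⟫ (- 1 / 2) with g' | g'
      · exact rb_of_BPc (rb_match4 (m2 := 16) (m3 := 31) (by decide) hs hc0 h1 h2 h3
          (rb_16 (S2.trans (rb_m4 (by rw [i1, i2]; norm_num) g'))) (rb_31 (hs _)))
      · exact absurd ⟨g, g'⟩ h
  · -- 212
    have i1 := rb_i2 I1 h1
    have i2 := rb_i1 I2 h2
    have i3 := rb_i2 I3 h3
    have h := fan_212 u0 u1 u2 u3 i1 i2 i3 D1 D2 D3 D4
    refine rb_of_gt (hs5' (by omega)) ?_
    rcases lt_or_ge ⟪a 1, a 3⟫ (- 1 / 2) with g | g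
    · exact rb_match4 (m2 := 16) (m3 := 31) (by decide) hs hc0 h1 h2 h3
        (rb_16 (S2.trans (rb_m4 (by rw [i1, i2]; norm_num) g))) (rb_31 (hs _))
    · rcases lt_or_ge ⟪a 2, a 0⟫ (- 1 / 2) with g' | g'
      · exact rb_match4 (m2 := 31) (m3 := 16) (by decide) hs hc0 h1 h2 h3
          (rb_31 (hs _)) (rb_16 (S3.trans (rb_m4 (by rw [i2, i3]; norm_num) g')))
      · exact absurd ⟨g, g'⟩ h
  · -- 221
    have i1 := rb_i2 I1 h1
    have i2 := rb_i2 I2 h2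
    have i3 := rb_i1 I3 h3
    have h := rb_221 u0 u1 u2 u3 i1 i2 i3 D1 D2 D3 D4
    exact rb_of_gt (hs5' (by omega)) (rb_match4 (m2 := 28) (m3 := 16) (by decide) hs hc0 h1 h2 h3
      (S2 ▸ rb_q28 (by rw [i1, i2]; norm_num) h.2)
      (rb_16 (S3.trans (rb_m4 (by rw [i2, i3]; norm_num) h.1))))
  · omega

theorem rb_k5 (a : ℤ → E3) (c s : ℤ → ℕ) (hu : ∀ i, ‖a i‖ = 1)
    (hpa : ∀ i, a (i + (5 : ℕ)) = a i) (hc0 : c 0 = 0)
    (hc : ∀ i : ℤ, 0 < i → i < (5 : ℕ) → c i = 1 ∨ c i = 2)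
    (hin : ∀ i : ℤ, 0 < i → i < (5 : ℕ) → ⟪a i, a (i + 1)⟫ = if c i = 1 then 1 / 2 else - 1 / 2)
    (hpos : ∀ i j : ℤ, i + 1 < j → j < i + (5 : ℕ) → 0 < det3 (a i) (a (i + 1)) (a j))
    (hs : ∀ i, s i < 5)
    (hs2 : ∀ i : ℤ, 1 < i → i < (5 : ℕ) → s i = kcls (a (i - 1)) (a i) (a (i + 1))) :
    (⟪a 0, a 1⟫ < 1 / 2 → Matches BPgt 5 c s 0) ∧
    (⟪a 0, a 1⟫ = 1 / 2 → Matches BPeq 5 c s 0) ∧
    (1 / 2 < ⟪a 0, a 1⟫ → Matches BPlt 5 c s 0) := by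
  have e5 : a 5 = a 0 := by have := hpa 0; norm_num at this; exact this
  have e6 : a 6 = a 1 := by have := hpa 1; norm_num at this; exact this
  have e7 : a 7 = a 2 := by have := hpa 2; norm_num at this; exact this
  have D1 := hpos 0 2 (by norm_num) (by norm_num)
  have D2 := hpos 0 3 (by norm_num) (by norm_num)
  have D3 := hpos 0 4 (by norm_num) (by norm_num)
  have D4 := hpos 1 3 (by norm_num) (by norm_num)
  have D5 := hpos 1 4 (by norm_num) (by norm_num)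
  have D6 := hpos 2 4 (by norm_num) (by norm_num)
  have D7 := hpos 2 5 (by norm_num) (by norm_num)
  have D8 := hpos 2 6 (by norm_num) (by norm_num)
  have D9 := hpos 3 5 (by norm_num) (by norm_num)
  have D10 := hpos 3 6 (by norm_num) (by norm_num)
  have D11 := hpos 4 6 (by norm_num) (by norm_num)
  have D12 := hpos 4 7 (by norm_num) (by norm_num)
  have I1 := hin 1 (by norm_num) (by norm_num)
  have I2 := hin 2 (by norm_num) (by norm_num)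
  have I3 := hin 3 (by norm_num) (by norm_num)
  have I4 := hin 4 (by norm_num) (by norm_num)
  have S2 := hs2 2 (by norm_num) (by norm_num)
  have S3 := hs2 3 (by norm_num) (by norm_num)
  have S4 := hs2 4 (by norm_num) (by norm_num)
  norm_num only at D1 D2 D3 D4 D5 D6 D7 D8 D9 D10 D11 D12 I1 I2 I3 I4 S2 S3 S4
  simp only [e5, e6, e7] at D7 D8 D9 D10 D11 D12 I4 S4
  have u0 := rb_unit (hu 0)
  have u1 := rb_unit (hu 1)
  have u2 := rb_unit (hu 2)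
  have u3 := rb_unit (hu 3)
  have u4 := rb_unit (hu 4)
  have hsum := rb_sum 5 (by norm_num) a c hu hpa hc hin hpos
  norm_num [Finset.sum_range_succ] at hsum
  obtain ⟨hs5, hs5'⟩ := hsum
  rcases hc 1 (by norm_num) (by norm_num) with h1 | h1 <;>
    rcases hc 2 (by norm_num) (by norm_num) with h2 | h2 <;>
    rcases hc 3 (by norm_num) (by norm_num) with h3 | h3 <;>
    rcases hc 4 (by norm_num) (by norm_num) with h4 | h4 <;>
    try omega
  · -- 1111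
    have i1 := rb_i1 I1 h1
    have i2 := rb_i1 I2 h2
    have i3 := rb_i1 I3 h3
    have i4 := rb_i1 I4 h4
    have f1 := fan_1111 u0 u1 u2 u3 u4 i1 i2 i3 i4 D1 D3 D4 D5 D6 D7 D8 D9 D10
    have f2 := rb_1111 u0 u1 u2 u3 u4 i1 i2 i3 i4 D1 D2 D3 D4 D5 D6 D7 D9 D10 D11 D12
    rcases lt_or_ge ⟪a 2, a 4⟫ 0 with g | g
    · exact rb_of_BPc (rb_match5 (m2 := 31) (m3 := 16) (m4 := 31) (by decide) hs hc0 h1 h2 h3 h4
        (rb_31 (hs _)) (rb_16 (S3.trans (rb_q4 (by rw [i2, i3]; norm_num) g))) (rb_31 (hs _)))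
    · have g2 : ⟪a 1, a 3⟫ < 0 := by
        by_contra hno; exact f1 ⟨not_lt.1 hno, g⟩
      have g4 : ⟪a 3, a 0⟫ < 0 := by
        by_contra hno; exact f2 ⟨not_lt.1 hno, g⟩
      exact rb_of_BPc (rb_match5 (m2 := 16) (m3 := 31) (m4 := 16) (by decide) hs hc0 h1 h2 h3 h4
        (rb_16 (S2.trans (rb_q4 (by rw [i1, i2]; norm_num) g2))) (rb_31 (hs _))
        (rb_16 (S4.trans (rb_q4 (by rw [i3, i4]; norm_num) g4))))
  · -- 1112
    have i1 := rb_i1 I1 h1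
    have i2 := rb_i1 I2 h2
    have i3 := rb_i1 I3 h3
    have i4 := rb_i2 I4 h4
    have f := fan_1112 u0 u1 u2 u3 u4 i1 i2 i3 i4 D1 D2 D3 D4 D5 D6 D7 D9 D10 D11 D12
    refine rb_of_gt (hs5' (by omega)) ?_
    rcases lt_or_ge ⟪a 2, a 4⟫ 0 with g | g
    · exact rb_match5 (m2 := 31) (m3 := 16) (m4 := 31) (by decide) hs hc0 h1 h2 h3 h4
        (rb_31 (hs _)) (rb_16 (S3.trans (rb_q4 (by rw [i2, i3]; norm_num) g))) (rb_31 (hs _))
    · have g2 : ⟪a 1, a 3⟫ < 0 := by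
        by_contra hno; exact f.1 ⟨not_lt.1 hno, g⟩
      have g4 : ⟪a 3, a 0⟫ < - 1 / 2 := by
        by_contra hno; exact f.2 ⟨g, not_lt.1 hno⟩
      exact rb_match5 (m2 := 16) (m3 := 31) (m4 := 16) (by decide) hs hc0 h1 h2 h3 h4
        (rb_16 (S2.trans (rb_q4 (by rw [i1, i2]; norm_num) g2))) (rb_31 (hs _))
        (rb_16 (S4.trans (rb_m4 (by rw [i3, i4]; norm_num) g4)))
  · -- 1121
    have i1 := rb_i1 I1 h1
    have i2 := rb_i1 I2 h2
    have i3 := rb_i2 I3 h3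
    have i4 := rb_i1 I4 h4
    have hg := hs5' (by omega)
    have f := fan_1121 u0 u1 u2 u3 u4 i1 i2 i3 i4 D1 D2 D3 D4 D5 D6 D7 D9 D10 D11 D12
    have f' := fan_1121_last u0 u1 u2 u3 u4 i1 i2 i3 i4 D1 D2 D3 D4 D5 D6 D7 D9 D10 D11 D12
      (by linarith)
    refine rb_of_gt hg ?_
    rcases lt_or_ge ⟪a 1, a 3⟫ 0 with g | g
    · exact rb_match5 (m2 := 16) (m3 := 28) (m4 := 28) (by decide) hs hc0 h1 h2 h3 h4
        (rb_16 (S2.trans (rb_q4 (by rw [i1, i2]; norm_num) g)))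
        (S3 ▸ rb_m28 (by rw [i2, i3]; norm_num) f.2.2)
        (S4 ▸ rb_m28 (by rw [i3, i4]; norm_num) f')
    · have g3 : ⟪a 2, a 4⟫ < - 1 / 2 := by
        by_contra hno; exact f.1 ⟨g, not_lt.1 hno⟩
      exact rb_match5 (m2 := 28) (m3 := 16) (m4 := 28) (by decide) hs hc0 h1 h2 h3 h4
        (S2 ▸ rb_q28 (by rw [i1, i2]; norm_num) f.2.1)
        (rb_16 (S3.trans (rb_m4 (by rw [i2, i3]; norm_num) g3)))
        (S4 ▸ rb_m28 (by rw [i3, i4]; norm_num) f')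
  · -- 1211
    have i1 := rb_i1 I1 h1
    have i2 := rb_i2 I2 h2
    have i3 := rb_i1 I3 h3
    have i4 := rb_i1 I4 h4
    have hg := hs5' (by omega)
    have f := rb_1211 u0 u1 u2 u3 u4 i1 i2 i3 i4 D1 D2 D3 D4 D5 D6 D7 D9 D10 D11 D12
    have f' := rb_1211_last u0 u1 u2 u3 u4 i1 i2 i3 i4 D1 D2 D3 D4 D5 D6 D7 D9 D10 D11 D12
      (by linarith)
    refine rb_of_gt hg ?_
    rcases lt_or_ge ⟪a 3, a 0⟫ 0 with g | g
    · exact rb_match5 (m2 := 28) (m3 := 28) (m4 := 16) (by decide) hs hc0 h1 h2 h3 h4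
        (S2 ▸ rb_m28 (by rw [i1, i2]; norm_num) f')
        (S3 ▸ rb_m28 (by rw [i2, i3]; norm_num) f.2.2)
        (rb_16 (S4.trans (rb_q4 (by rw [i3, i4]; norm_num) g)))
    · have g3 : ⟪a 2, a 4⟫ < - 1 / 2 := by
        by_contra hno; exact f.1 ⟨g, not_lt.1 hno⟩
      exact rb_match5 (m2 := 28) (m3 := 16) (m4 := 28) (by decide) hs hc0 h1 h2 h3 h4
        (S2 ▸ rb_m28 (by rw [i1, i2]; norm_num) f')
        (rb_16 (S3.trans (rb_m4 (by rw [i2, i3]; norm_num) g3)))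
        (S4 ▸ rb_q28 (by rw [i3, i4]; norm_num) f.2.1)
  · -- 2111
    have i1 := rb_i2 I1 h1
    have i2 := rb_i1 I2 h2
    have i3 := rb_i1 I3 h3
    have i4 := rb_i1 I4 h4
    have f := rb_2111 u0 u1 u2 u3 u4 i1 i2 i3 i4 D1 D2 D3 D4 D5 D6 D7 D9 D10 D11 D12
    refine rb_of_gt (hs5' (by omega)) ?_
    rcases lt_or_ge ⟪a 2, a 4⟫ 0 with g | g
    · exact rb_match5 (m2 := 31) (m3 := 16) (m4 := 31) (by decide) hs hc0 h1 h2 h3 h4
        (rb_31 (hs _)) (rb_16 (S3.trans (rb_q4 (by rw [i2, i3]; norm_num) g))) (rb_31 (hs _))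
    · have g2 : ⟪a 1, a 3⟫ < - 1 / 2 := by
        by_contra hno; exact f.2 ⟨g, not_lt.1 hno⟩
      have g4 : ⟪a 3, a 0⟫ < 0 := by
        by_contra hno; exact f.1 ⟨not_lt.1 hno, g⟩
      exact rb_match5 (m2 := 16) (m3 := 31) (m4 := 16) (by decide) hs hc0 h1 h2 h3 h4
        (rb_16 (S2.trans (rb_m4 (by rw [i1, i2]; norm_num) g2))) (rb_31 (hs _))
        (rb_16 (S4.trans (rb_q4 (by rw [i3, i4]; norm_num) g4)))

theorem rb_k6 (a : ℤ → E3) (c s : ℤ → ℕ) (hu : ∀ i, ‖a i‖ = 1)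
    (hpa : ∀ i, a (i + (6 : ℕ)) = a i) (hc0 : c 0 = 0)
    (hc : ∀ i : ℤ, 0 < i → i < (6 : ℕ) → c i = 1 ∨ c i = 2)
    (hin : ∀ i : ℤ, 0 < i → i < (6 : ℕ) → ⟪a i, a (i + 1)⟫ = if c i = 1 then 1 / 2 else - 1 / 2)
    (hpos : ∀ i j : ℤ, i + 1 < j → j < i + (6 : ℕ) → 0 < det3 (a i) (a (i + 1)) (a j))
    (hs : ∀ i, s i < 5)
    (hs2 : ∀ i : ℤ, 1 < i → i < (6 : ℕ) → s i = kcls (a (i - 1)) (a i) (a (i + 1))) :
    (⟪a 0, a 1⟫ < 1 / 2 → Matches BPgt 6 c s 0) ∧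
    (⟪a 0, a 1⟫ = 1 / 2 → Matches BPeq 6 c s 0) ∧
    (1 / 2 < ⟪a 0, a 1⟫ → Matches BPlt 6 c s 0) := by
  have e6 : a 6 = a 0 := by have := hpa 0; norm_num at this; exact this
  have e7 : a 7 = a 1 := by have := hpa 1; norm_num at this; exact this
  have e8 : a 8 = a 2 := by have := hpa 2; norm_num at this; exact this
  have e9 : a 9 = a 3 := by have := hpa 3; norm_num at this; exact this
  have D13 := hpos 1 3 (by norm_num) (by norm_num)
  have D14 := hpos 1 4 (by norm_num) (by norm_num)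
  have D15 := hpos 1 5 (by norm_num) (by norm_num)
  have D24 := hpos 2 4 (by norm_num) (by norm_num)
  have D25 := hpos 2 5 (by norm_num) (by norm_num)
  have D26 := hpos 2 6 (by norm_num) (by norm_num)
  have D35 := hpos 3 5 (by norm_num) (by norm_num)
  have D36 := hpos 3 6 (by norm_num) (by norm_num)
  have D37 := hpos 3 7 (by norm_num) (by norm_num)
  have D46 := hpos 4 6 (by norm_num) (by norm_num)
  have D47 := hpos 4 7 (by norm_num) (by norm_num)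
  have D48 := hpos 4 8 (by norm_num) (by norm_num)
  have D58 := hpos 5 8 (by norm_num) (by norm_num)
  have D59 := hpos 5 9 (by norm_num) (by norm_num)
  have I1 := hin 1 (by norm_num) (by norm_num)
  have I2 := hin 2 (by norm_num) (by norm_num)
  have I3 := hin 3 (by norm_num) (by norm_num)
  have I4 := hin 4 (by norm_num) (by norm_num)
  have I5 := hin 5 (by norm_num) (by norm_num)
  have S2 := hs2 2 (by norm_num) (by norm_num)
  have S3 := hs2 3 (by norm_num) (by norm_num)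
  have S4 := hs2 4 (by norm_num) (by norm_num)
  have S5 := hs2 5 (by norm_num) (by norm_num)
  norm_num only at D13 D14 D15 D24 D25 D26 D35 D36 D37 D46 D47 D48 D58 D59
  norm_num only at I1 I2 I3 I4 I5 S2 S3 S4 S5
  simp only [e6, e7, e8, e9] at D26 D36 D37 D46 D47 D48 D58 D59 I5 S5
  have u0 := rb_unit (hu 0)
  have u1 := rb_unit (hu 1)
  have u2 := rb_unit (hu 2)
  have u3 := rb_unit (hu 3)
  have u4 := rb_unit (hu 4)
  have u5 := rb_unit (hu 5)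
  have hsum := rb_sum 6 (by norm_num) a c hu hpa hc hin hpos
  norm_num [Finset.sum_range_succ] at hsum
  obtain ⟨hs5, hs5'⟩ := hsum
  have g1 := hc 1 (by norm_num) (by norm_num)
  have g2 := hc 2 (by norm_num) (by norm_num)
  have g3 := hc 3 (by norm_num) (by norm_num)
  have g4 := hc 4 (by norm_num) (by norm_num)
  have g5 := hc 5 (by norm_num) (by norm_num)
  have h1 : c 1 = 1 := by omega
  have h2 : c 2 = 1 := by omega
  have h3 : c 3 = 1 := by omega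
  have h4 : c 4 = 1 := by omega
  have h5 : c 5 = 1 := by omega
  have i1 := rb_i1 I1 h1
  have i2 := rb_i1 I2 h2
  have i3 := rb_i1 I3 h3
  have i4 := rb_i1 I4 h4
  have i5 := rb_i1 I5 h5
  refine rb_of_gt (hs5' (by omega)) ?_
  have f1 := chain_nal u1 u2 u3 u4 u5 i1 i2 i3 i4 D13 D14 D24 D37 D15 D35 D47
  have f2 := chain_nal u2 u3 u4 u5 u0 i2 i3 i4 i5 D24 D25 D35 D48 D26 D46 (by have h := D58; simp only [det3, neg_c] at h ⊢; linarith)
  have f3 := chain_nal (x := -a 0) (y := -a 5) (z := -a 4) (w := -a 3) (v := -a 2)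
    (rb_n1 u0) (rb_n1 u5) (rb_n1 u4) (rb_n1 u3) (rb_n1 u2) (rb_nn i5) (rb_nn i4) (rb_nn i3)
    (rb_nn i2) (by have h := D46; simp only [det3, neg_c] at h ⊢; linarith) (by have h := D59; simp only [det3, neg_c] at h ⊢; linarith) (by have h := D35; simp only [det3, neg_c] at h ⊢; linarith) (by have h := D36; simp only [det3, neg_c] at h ⊢; linarith) (by have h := D58; simp only [det3, neg_c] at h ⊢; linarith) (by have h := D24; simp only [det3, neg_c] at h ⊢; linarith)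
    (by have h := D26; simp only [det3, neg_c] at h ⊢; linarith)
  rw [inner_neg_neg, inner_neg_neg, real_inner_comm (a 4) (a 0), real_inner_comm (a 3) (a 5)] at f3
  have q2 : ⟪a 1, a 2⟫ * ⟪a 2, a 3⟫ = 1 / 4 := by rw [i1, i2]; norm_num
  have q3 : ⟪a 2, a 3⟫ * ⟪a 3, a 4⟫ = 1 / 4 := by rw [i2, i3]; norm_num
  have q4 : ⟪a 3, a 4⟫ * ⟪a 4, a 5⟫ = 1 / 4 := by rw [i3, i4]; norm_num
  have q5 : ⟪a 4, a 5⟫ * ⟪a 5, a 0⟫ = 1 / 4 := by rw [i4, i5]; norm_num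
  rcases lt_or_ge ⟪a 2, a 4⟫ 0 with k3 | k3
  · rcases lt_or_ge ⟪a 3, a 5⟫ 0 with k4 | k4
    · exact rb_match6 (m2 := 31) (m3 := 16) (m4 := 16) (m5 := 31) (by decide) hs hc0 h1 h2 h3 h4
        h5 (rb_31 (hs _)) (rb_16 (S3.trans (rb_q4 q3 k3))) (rb_16 (S4.trans (rb_q4 q4 k4)))
        (rb_31 (hs _))
    · have k5 : ⟪a 4, a 0⟫ < 0 := by
        by_contra hno; exact f3 ⟨not_lt.1 hno, k4⟩
      exact rb_match6 (m2 := 31) (m3 := 16) (m4 := 31) (m5 := 16) (by decide) hs hc0 h1 h2 h3 h4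
        h5 (rb_31 (hs _)) (rb_16 (S3.trans (rb_q4 q3 k3))) (rb_31 (hs _))
        (rb_16 (S5.trans (rb_q4 q5 k5)))
  · have k2 : ⟪a 1, a 3⟫ < 0 := by
      by_contra hno; exact f1 ⟨not_lt.1 hno, k3⟩
    have k4 : ⟪a 3, a 5⟫ < 0 := by
      by_contra hno; exact f2 ⟨k3, not_lt.1 hno⟩
    exact rb_match6 (m2 := 16) (m3 := 31) (m4 := 16) (m5 := 31) (by decide) hs hc0 h1 h2 h3 h4
      h5 (rb_16 (S2.trans (rb_q4 q2 k2))) (rb_31 (hs _)) (rb_16 (S4.trans (rb_q4 q4 k4)))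
      (rb_31 (hs _))

theorem ring_B (k : ℕ) (hk : 3 ≤ k) (a : ℤ → E3) (c s : ℤ → ℕ) (hu : ∀ i, ‖a i‖ = 1)
    (hpa : ∀ i, a (i + k) = a i) (hc0 : c 0 = 0)
    (hc : ∀ i : ℤ, 0 < i → i < k → c i = 1 ∨ c i = 2)
    (hin : ∀ i : ℤ, 0 < i → i < k → ⟪a i, a (i + 1)⟫ = if c i = 1 then 1 / 2 else - 1 / 2)
    (hpos : ∀ i j : ℤ, i + 1 < j → j < i + k → 0 < det3 (a i) (a (i + 1)) (a j))
    (hs : ∀ i, s i < 5)
    (hs2 : ∀ i : ℤ, 1 < i → i < k → s i = kcls (a (i - 1)) (a i) (a (i + 1))) :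
    (⟪a 0, a 1⟫ < 1 / 2 → Matches BPgt k c s 0) ∧
    (⟪a 0, a 1⟫ = 1 / 2 → Matches BPeq k c s 0) ∧
    (1 / 2 < ⟪a 0, a 1⟫ → Matches BPlt k c s 0) := by
  have hsum := (rb_sum k hk a c hu hpa hc hin hpos).1
  have h1 : k - 1 ≤ ∑ i ∈ Finset.range (k - 1), c (i + 1) := by
    calc k - 1 = ∑ i ∈ Finset.range (k - 1), 1 := by simp
      _ ≤ _ := by
        refine Finset.sum_le_sum fun i hi => ?_
        rw [Finset.mem_range] at hi
        rcases hc (i + 1) (by omega) (by omega) with h | h <;> omega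
  have hk6 : k ≤ 6 := by omega
  have hk4 : k = 3 ∨ k = 4 ∨ k = 5 ∨ k = 6 := by omega
  rcases hk4 with rfl | rfl | rfl | rfl
  · exact rb_k3 a c s hu hpa hc0 hc hin hpos hs hs2
  · exact rb_k4 a c s hu hpa hc0 hc hin hpos hs hs2
  · exact rb_k5 a c s hu hpa hc0 hc hin hpos hs hs2
  · exact rb_k6 a c s hu hpa hc0 hc hin hpos hs hs2

end Pool.Agent.Lib.MP_ba95e8_co
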