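import Pool.Agent.Lib.MP_ba95e8_co.Model
import Pool.Agent.Lib.MP_ba95e8_co.Rules
import Pool.Agent.Lib.MP_ba95e8_co.Rules3
import Pool.Agent.Lib.MP_ba95e8_co.Perim

/-!
Deltahedral domes, task G2a: the ring at a vertex outside the base matches a pattern.
-/

namespace Pool.Agent.Lib.MP_ba95e8_co

open scoped RealInnerProductSpace

/-! ### classes -/

lemma classOf_third {κ : ℝ} (h : κ = 1 / 3) : classOf κ = 1 := by
  subst h
  unfold classOf
  norm_num

lemma classOf_negthird {κ : ℝ} (h : κ = - 1 / 3) : classOf κ = 3 := by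
  subst h
  unfold classOf
  norm_num

lemma classOf_high {κ : ℝ} (h : κ < - 1 / 3) : classOf κ = 4 := by
  unfold classOf
  rw [if_neg (by linarith), if_neg (by intro h'; rw [h'] at h; norm_num at h),
    if_neg (by linarith), if_neg (by linarith)]

lemma classOf_mid {κ : ℝ} (h1 : - 1 / 3 < κ) (h2 : κ < 1 / 3) : classOf κ = 2 := by
  unfold classOf
  rw [if_neg (by linarith), if_neg (by linarith), if_pos h1]

lemma classOf_low {κ : ℝ} (h1 : - 1 / 3 < κ) :
    classOf κ = 0 ∨ classOf κ = 1 ∨ classOf κ = 2 := by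
  rcases lt_trichotomy κ (1 / 3) with h | h | h
  · exact Or.inr (Or.inr (classOf_mid h1 h))
  · exact Or.inr (Or.inl (classOf_third h))
  · left; unfold classOf; rw [if_pos h]

lemma classOf_ge2 {κ : ℝ} (h1 : κ < 1 / 3) :
    classOf κ = 2 ∨ classOf κ = 3 ∨ classOf κ = 4 := by
  rcases lt_trichotomy κ (- 1 / 3) with h | h | h
  · exact Or.inr (Or.inr (classOf_high h))
  · exact Or.inr (Or.inl (classOf_negthird h))
  · exact Or.inl (classOf_mid h h1)

/-- equal corners -/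
lemma kcls_eq {x y z : E3} {g : ℝ} (h : ⟪x, y⟫ * ⟪y, z⟫ = 1 / 4) (hg : ⟪x, z⟫ = g) :
    kcls x y z = classOf ((4 * g - 1) / 3) := by
  unfold kcls
  rw [h, hg]
  congr 1
  ring

/-- corners of 60 and 120 degrees -/
lemma kcls_ne {x y z : E3} {g : ℝ} (h : ⟪x, y⟫ * ⟪y, z⟫ = - 1 / 4) (hg : ⟪x, z⟫ = g) :
    kcls x y z = classOf ((4 * g + 1) / 3) := by
  unfold kcls
  rw [h, hg]
  congr 1
  ring

/-! ### angles -/

lemma angle_60 {x y : E3} (hx : ‖x‖ = 1) (hy : ‖y‖ = 1) (h : ⟪x, y⟫ = 1 / 2) :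
    InnerProductGeometry.angle x y = Real.pi / 3 := by
  unfold InnerProductGeometry.angle
  rw [hx, hy, h]
  have := Real.arccos_cos (x := Real.pi / 3) (by positivity) (by linarith [Real.pi_pos])
  rw [Real.cos_pi_div_three] at this
  simpa using this

lemma angle_120 {x y : E3} (hx : ‖x‖ = 1) (hy : ‖y‖ = 1) (h : ⟪x, y⟫ = - 1 / 2) :
    InnerProductGeometry.angle x y = 2 * (Real.pi / 3) := by
  unfold InnerProductGeometry.angle
  rw [hx, hy, h]
  have := Real.arccos_cos (x := Real.pi / 3) (by positivity) (by linarith [Real.pi_pos])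
  rw [Real.cos_pi_div_three] at this
  have h2 : (- 1 / 2 / (1 * 1) : ℝ) = - (1 / 2) := by norm_num
  rw [h2, Real.arccos_neg, this]
  ring

section ring

variable {k : ℕ} {a : ℤ → E3} {c : ℤ → ℕ}

/-- sum of the codes -/
lemma ring_sum (hk : 3 ≤ k) (hu : ∀ i, ‖a i‖ = 1)
    (hpa : ∀ i, a (i + k) = a i) (hc : ∀ i, c i = 1 ∨ c i = 2)
    (hin : ∀ i, ⟪a i, a (i + 1)⟫ = if c i = 1 then 1 / 2 else - 1 / 2)
    (hpos : ∀ i j : ℤ, i + 1 < j → j < i + k → 0 < det3 (a i) (a (i + 1)) (a j)) :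
    ∑ i ∈ Finset.range k, c (i : ℤ) ≤ 5 := by
  have h := ring_perimeter k hk (fun i : ℕ => a (i : ℤ)) (fun i => hu i)
    (fun i => by push_cast; exact hpa i) (fun i j h1 h2 => by
      have := hpos (i : ℤ) (j : ℤ) (by exact_mod_cast h1) (by exact_mod_cast h2)
      push_cast
      exact this)
  have h2 : ∀ i : ℕ, InnerProductGeometry.angle (a (i : ℤ)) (a ((i + 1 : ℕ) : ℤ)) =
      (c (i : ℤ) : ℝ) * (Real.pi / 3) := by
    intro i
    push_cast
    rcases hc (i : ℤ) with h1 | h1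
    · have := hin (i : ℤ)
      rw [if_pos h1] at this
      rw [angle_60 (hu _) (hu _) this, h1]
      norm_num
    · have := hin (i : ℤ)
      rw [if_neg (by omega)] at this
      rw [angle_120 (hu _) (hu _) this, h1]
      norm_num
  simp only [h2] at h
  rw [← Finset.sum_mul] at h
  have h3 : (∑ i ∈ Finset.range k, (c (i : ℤ) : ℝ)) < 6 := by
    by_contra hcon
    push Not at hcon
    have := mul_le_mul_of_nonneg_right hcon (by positivity : (0 : ℝ) ≤ Real.pi / 3)
    linarith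
  have h4 : ((∑ i ∈ Finset.range k, c (i : ℤ) : ℕ) : ℝ) < 6 := by
    push_cast
    exact h3
  have : (∑ i ∈ Finset.range k, c (i : ℤ)) < 6 := by exact_mod_cast h4
  omega

end ring

lemma inner_code {x y : E3} {n : ℕ} (h : ⟪x, y⟫ = if n = 1 then 1 / 2 else - 1 / 2) :
    (n = 1 → ⟪x, y⟫ = 1 / 2) ∧ (n = 2 → ⟪x, y⟫ = - 1 / 2) := by
  refine ⟨fun h1 => ?_, fun h1 => ?_⟩
  · rw [h, if_pos h1]
  · rw [h, if_neg (by omega)]

lemma inner_self_of_unit {x : E3} (h : ‖x‖ = 1) : ⟪x, x⟫ = 1 := by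
  rw [real_inner_self_eq_norm_sq, h]; norm_num

/-- ring of three corners -/
lemma ring3 (a : ℤ → E3) (c : ℤ → ℕ) (hu : ∀ i, ‖a i‖ = 1)
    (hpa : ∀ i, a (i + 3) = a i)
    (hin : ∀ i, ⟪a i, a (i + 1)⟫ = if c i = 1 then 1 / 2 else - 1 / 2)
    (hpos : ∀ i j : ℤ, i + 1 < j → j < i + 3 → 0 < det3 (a i) (a (i + 1)) (a j)) (j : ℤ)
    (h0 : c j = 1) (h12 : (c (j + 1) = 1 ∧ c (j + 2) = 1) ∨ (c (j + 1) = 1 ∧ c (j + 2) = 2) ∨
      (c (j + 1) = 2 ∧ c (j + 2) = 2)) :
    Matches BPN 3 c (fun i => kcls (a (i - 1)) (a i) (a (i + 1))) j := by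
  have e0 := inner_code (hin j)
  have e1 := inner_code (hin (j + 1))
  have e2 := inner_code (hin (j + 2))
  have p0 : a (j + 3) = a j := hpa j
  have pm : a (j - 1) = a (j + 2) := by rw [← hpa (j - 1)]; congr 1; ring
  rw [show j + 1 + 1 = j + 2 by ring] at e1
  rw [show j + 2 + 1 = j + 3 by ring, p0] at e2
  have q1 : (j : ℤ) + 1 - 1 = j := by ring
  have q2 : (j : ℤ) + 1 + 1 = j + 2 := by ring
  have q3 : (j : ℤ) + 2 - 1 = j + 1 := by ring
  have q4 : (j : ℤ) + 2 + 1 = j + 3 := by ring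
  have a01 := e0.1 h0
  rcases h12 with ⟨h1, h2⟩ | ⟨h1, h2⟩ | ⟨h1, h2⟩
  · have a12 := e1.1 h1
    have a20 := e2.1 h2
    have k0 : kcls (a (j - 1)) (a j) (a (j + 1)) = 1 := by
      rw [pm, kcls_eq (g := 1 / 2) (by rw [a20, a01]; norm_num)
        (by rw [real_inner_comm]; exact a12)]
      exact classOf_third (by norm_num)
    have k1 : kcls (a j) (a (j + 1)) (a (j + 2)) = 1 := by
      rw [kcls_eq (g := 1 / 2) (by rw [a12, a01]; norm_num)
        (by rw [real_inner_comm]; exact a20)]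
      exact classOf_third (by norm_num)
    have k2 : kcls (a (j + 1)) (a (j + 2)) (a j) = 1 := by
      rw [kcls_eq (g := 1 / 2) (by rw [a12, a20]; norm_num)
        (by rw [real_inner_comm]; exact a01)]
      exact classOf_third (by norm_num)
    refine ⟨([1,1,1],[2,2,2]), by simp [BPN], ?_, ?_⟩
    · simp [List.range_succ, h0, h1, h2]
    · intro t ht
      interval_cases t
      · simp [k0]; decide
      · simp [q2, k1]; decide
      · simp [q3, q4, p0, k2]; decide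
  · exfalso
    have a12 := e1.1 h1
    have a20 := e2.2 h2
    have hd := hpos j (j + 2) (by omega) (by omega)
    have hsq : det3 (a j) (a (j + 1)) (a (j + 2)) * det3 (a j) (a (j + 1)) (a (j + 2)) = 0 := by
      rw [det3_mul_det3, inner_self_of_unit (hu _), inner_self_of_unit (hu _),
        inner_self_of_unit (hu _), a01, a12, real_inner_comm (a j) (a (j + 1)), a01,
        real_inner_comm (a (j + 1)) (a (j + 2)), a12, a20,
        real_inner_comm (a (j + 2)) (a j), a20]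
      norm_num
    have := mul_pos hd hd
    rw [hsq] at this
    exact lt_irrefl _ this
  · have a12 := e1.2 h1
    have a20 := e2.2 h2
    have k0 : kcls (a (j - 1)) (a j) (a (j + 1)) = 3 := by
      rw [pm, kcls_ne (g := - 1 / 2) (by rw [a20, a01]; norm_num)
        (by rw [real_inner_comm]; exact a12)]
      exact classOf_negthird (by norm_num)
    have k1 : kcls (a j) (a (j + 1)) (a (j + 2)) = 3 := by
      rw [kcls_ne (g := - 1 / 2) (by rw [a12, a01]; norm_num)
        (by rw [real_inner_comm]; exact a20)]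
      exact classOf_negthird (by norm_num)
    have k2 : kcls (a (j + 1)) (a (j + 2)) (a j) = 1 := by
      rw [kcls_eq (g := 1 / 2) (by rw [a12, a20]; norm_num)
        (by rw [real_inner_comm]; exact a01)]
      exact classOf_third (by norm_num)
    refine ⟨([1,2,2],[8,8,2]), by simp [BPN], ?_, ?_⟩
    · simp [List.range_succ, h0, h1, h2]
    · intro t ht
      interval_cases t
      · simp [k0]; decide
      · simp [q2, k1]; decide
      · simp [q3, q4, p0, k2]; decide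

lemma matches4 {B : List (List ℕ × List ℕ)} {c s : ℤ → ℕ} {j : ℤ}
    {c0 c1 c2 c3 m0 m1 m2 m3 : ℕ} (hB : ([c0, c1, c2, c3], [m0, m1, m2, m3]) ∈ B)
    (h0 : c j = c0) (h1 : c (j + 1) = c1) (h2 : c (j + 2) = c2) (h3 : c (j + 3) = c3)
    (t0 : Nat.testBit m0 (s j) = true) (t1 : Nat.testBit m1 (s (j + 1)) = true)
    (t2 : Nat.testBit m2 (s (j + 2)) = true) (t3 : Nat.testBit m3 (s (j + 3)) = true) :
    Matches B 4 c s j := by
  refine ⟨_, hB, ?_, ?_⟩
  · simp [List.range_succ, h0, h1, h2, h3]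
  · intro t ht
    interval_cases t
    · simpa using t0
    · simpa using t1
    · simpa using t2
    · simpa using t3

lemma matches5 {B : List (List ℕ × List ℕ)} {c s : ℤ → ℕ} {j : ℤ}
    {c0 c1 c2 c3 c4 m0 m1 m2 m3 m4 : ℕ}
    (hB : ([c0, c1, c2, c3, c4], [m0, m1, m2, m3, m4]) ∈ B)
    (h0 : c j = c0) (h1 : c (j + 1) = c1) (h2 : c (j + 2) = c2) (h3 : c (j + 3) = c3)
    (h4 : c (j + 4) = c4)
    (t0 : Nat.testBit m0 (s j) = true) (t1 : Nat.testBit m1 (s (j + 1)) = true)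
    (t2 : Nat.testBit m2 (s (j + 2)) = true) (t3 : Nat.testBit m3 (s (j + 3)) = true)
    (t4 : Nat.testBit m4 (s (j + 4)) = true) :
    Matches B 5 c s j := by
  refine ⟨_, hB, ?_, ?_⟩
  · simp [List.range_succ, h0, h1, h2, h3, h4]
  · intro t ht
    interval_cases t
    · simpa using t0
    · simpa using t1
    · simpa using t2
    · simpa using t3
    · simpa using t4

lemma tb7 {n : ℕ} (h : n = 0 ∨ n = 1 ∨ n = 2) : Nat.testBit 7 n = true := by
  rcases h with rfl | rfl | rfl <;> decide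
lemma tb28 {n : ℕ} (h : n = 2 ∨ n = 3 ∨ n = 4) : Nat.testBit 28 n = true := by
  rcases h with rfl | rfl | rfl <;> decide
lemma tb16 {n : ℕ} (h : n = 4) : Nat.testBit 16 n = true := by subst h; decide
lemma tb8 {n : ℕ} (h : n = 3) : Nat.testBit 8 n = true := by subst h; decide
lemma tb4 {n : ℕ} (h : n = 2) : Nat.testBit 4 n = true := by subst h; decide

/-- ring of four corners, all of 60 degrees -/
lemma ring4a (a : ℤ → E3) (c : ℤ → ℕ) (hu : ∀ i, ‖a i‖ = 1)
    (hpa : ∀ i, a (i + 4) = a i)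
    (hin : ∀ i, ⟪a i, a (i + 1)⟫ = if c i = 1 then 1 / 2 else - 1 / 2)
    (hpos : ∀ i j : ℤ, i + 1 < j → j < i + 4 → 0 < det3 (a i) (a (i + 1)) (a j))
    (h0 : ∀ i, c i = 1) :
    ∃ j, Matches BPN 4 c (fun i => kcls (a (i - 1)) (a i) (a (i + 1))) j := by
  have e : ∀ i, ⟪a i, a (i + 1)⟫ = 1 / 2 := fun i => (inner_code (hin i)).1 (h0 i)
  have hs : ∀ i, ⟪a i, a i⟫ = 1 := fun i => inner_self_of_unit (hu i)
  have kk : ∀ i, kcls (a (i - 1)) (a i) (a (i + 1)) =
      classOf ((4 * ⟪a (i - 1), a (i + 1)⟫ - 1) / 3) := by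
    intro i
    have := e (i - 1)
    rw [show i - 1 + 1 = i by ring] at this
    exact kcls_eq (by rw [this, e i]; norm_num) rfl
  have rc : ∀ i, (1 + ⟪a i, a (i + 2)⟫) * (1 + ⟪a (i + 1), a (i + 3)⟫) = 1 := by
    intro i
    have e1 := e (i + 1)
    have e2 := e (i + 2)
    have e3 := e (i + 3)
    rw [show i + 1 + 1 = i + 2 by ring] at e1
    rw [show i + 2 + 1 = i + 3 by ring] at e2
    rw [show i + 3 + 1 = i + 4 by ring, hpa] at e3
    have d2 := hpos (i + 1) (i + 3) (by omega) (by omega)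
    rw [show i + 1 + 1 = i + 2 by ring] at d2
    exact rule_C (hs _) (hs _) (hs _) (hs _) (e i) e1 e2 e3
      (hpos i (i + 2) (by omega) (by omega)) d2
  have sh : ∀ i, ⟪a (i + 1), a (i + 3)⟫ = ⟪a (i - 1), a (i + 1)⟫ := by
    intro i
    rw [real_inner_comm, ← hpa (i - 1)]
    congr 2; ring
  have gper : ∀ i, ⟪a (i + 2 - 1), a (i + 2 + 1)⟫ = ⟪a (i - 1), a (i + 1)⟫ := by
    intro i
    rw [show i + 2 - 1 = i + 1 by ring, show i + 2 + 1 = i + 3 by ring]
    exact sh i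
  -- g i is `⟪a (i - 1), a (i + 1)⟫`
  have key : ∀ i, (1 + ⟪a (i + 1 - 1), a (i + 1 + 1)⟫) * (1 + ⟪a (i - 1), a (i + 1)⟫) = 1 := by
    intro i
    have := rc i
    rw [sh i] at this
    rw [show i + 1 - 1 = i by ring, show i + 1 + 1 = i + 2 by ring]
    exact this
  have main : ∀ j, 0 < ⟪a (j - 1), a (j + 1)⟫ →
      Matches BPN 4 c (fun i => kcls (a (i - 1)) (a i) (a (i + 1))) j := by
    intro j hj
    have hj1 : ⟪a (j + 1 - 1), a (j + 1 + 1)⟫ < 0 := by
      have := key j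
      nlinarith
    have hj2 : 0 < ⟪a (j + 2 - 1), a (j + 2 + 1)⟫ := by rw [gper j]; exact hj
    have hj3 : ⟪a (j + 3 - 1), a (j + 3 + 1)⟫ < 0 := by
      have := gper (j + 1)
      rw [show j + 1 + 2 = j + 3 by ring] at this
      rw [this]; exact hj1
    refine matches4 (c0 := 1) (c1 := 1) (c2 := 1) (c3 := 1) (m0 := 7) (m1 := 16) (m2 := 7)
      (m3 := 16) (by simp [BPN]) (h0 _) (h0 _) (h0 _) (h0 _) ?_ ?_ ?_ ?_
    · simp only [kk]
      exact tb7 (classOf_low (by linarith))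
    · simp only [kk]
      exact tb16 (classOf_high (by linarith))
    · simp only [kk]
      exact tb7 (classOf_low (by linarith))
    · simp only [kk]
      exact tb16 (classOf_high (by linarith))
  rcases lt_trichotomy (⟪a (0 - 1), a (0 + 1)⟫) 0 with h | h | h
  · refine ⟨1, main 1 ?_⟩
    have := key 0
    have hlo := neg_one_le_inner' (hs (0 - 1)) (hs (0 + 1))
    rw [show (0 : ℤ) + 1 - 1 = 1 - 1 by ring, show (0 : ℤ) + 1 + 1 = 1 + 1 by ring] at this
    by_contra hcon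
    push Not at hcon
    nlinarith
  · have h1 : ⟪a (0 + 1 - 1), a (0 + 1 + 1)⟫ = 0 := by
      have := key 0
      rw [h] at this
      linarith
    have hj2 : ⟪a (0 + 2 - 1), a (0 + 2 + 1)⟫ = 0 := by rw [gper 0]; exact h
    have hj3 : ⟪a (0 + 3 - 1), a (0 + 3 + 1)⟫ = 0 := by
      have := gper (0 + 1)
      rw [show (0 : ℤ) + 1 + 2 = 0 + 3 by ring] at this
      rw [this]; exact h1
    refine ⟨0, ?_⟩
    refine matches4 (c0 := 1) (c1 := 1) (c2 := 1) (c3 := 1) (m0 := 8) (m1 := 8) (m2 := 8)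
      (m3 := 8) (by simp [BPN]) (h0 _) (h0 _) (h0 _) (h0 _) ?_ ?_ ?_ ?_
    · simp only [kk, h]
      exact tb8 (classOf_negthird (by norm_num))
    · simp only [kk, h1]
      exact tb8 (classOf_negthird (by norm_num))
    · simp only [kk, hj2]
      exact tb8 (classOf_negthird (by norm_num))
    · simp only [kk, hj3]
      exact tb8 (classOf_negthird (by norm_num))
  · exact ⟨0, main 0 h⟩

/-- ring of four corners, one of 120 degrees -/
lemma ring4b (a : ℤ → E3) (c : ℤ → ℕ) (hu : ∀ i, ‖a i‖ = 1)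
    (hpa : ∀ i, a (i + 4) = a i)
    (hin : ∀ i, ⟪a i, a (i + 1)⟫ = if c i = 1 then 1 / 2 else - 1 / 2)
    (hpos : ∀ i j : ℤ, i + 1 < j → j < i + 4 → 0 < det3 (a i) (a (i + 1)) (a j)) (j : ℤ)
    (h0 : c j = 2) (h1 : c (j + 1) = 1) (h2 : c (j + 2) = 1) (h3 : c (j + 3) = 1) :
    Matches BPN 4 c (fun i => kcls (a (i - 1)) (a i) (a (i + 1))) j := by
  have hs : ∀ i, ⟪a i, a i⟫ = 1 := fun i => inner_self_of_unit (hu i)
  have e0 := (inner_code (hin j)).2 h0
  have e1 := (inner_code (hin (j + 1))).1 h1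
  have e2 := (inner_code (hin (j + 2))).1 h2
  have e3 := (inner_code (hin (j + 3))).1 h3
  rw [show j + 1 + 1 = j + 2 by ring] at e1
  rw [show j + 2 + 1 = j + 3 by ring] at e2
  rw [show j + 3 + 1 = j + 4 by ring, hpa] at e3
  have d1 := hpos (j + 1) (j + 3) (by omega) (by omega)
  have d2 := hpos (j + 2) (j + 4) (by omega) (by omega)
  rw [show j + 1 + 1 = j + 2 by ring] at d1
  rw [show j + 2 + 1 = j + 3 by ring, hpa] at d2
  obtain ⟨⟨r1, r2⟩, r3, r4⟩ := rule_D (hs _) (hs _) (hs _) (hs _) e0 e1 e2 e3 d1 d2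
  have pm : a (j - 1) = a (j + 3) := by rw [← hpa (j - 1)]; congr 1; ring
  refine matches4 (c0 := 2) (c1 := 1) (c2 := 1) (c3 := 1) (m0 := 4) (m1 := 4) (m2 := 16)
      (m3 := 16) (by simp [BPN]) h0 h1 h2 h3 ?_ ?_ ?_ ?_
  · have : kcls (a (j - 1)) (a j) (a (j + 1)) = 2 := by
      rw [pm, kcls_ne (g := ⟪a (j + 1), a (j + 3)⟫) (by rw [e3, e0]; norm_num)
        (by rw [real_inner_comm])]
      exact classOf_mid (by linarith) (by linarith)
    exact tb4 this
  · have : kcls (a (j + 1 - 1)) (a (j + 1)) (a (j + 1 + 1)) = 2 := by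
      rw [show j + 1 - 1 = j by ring, show j + 1 + 1 = j + 2 by ring,
        kcls_ne (g := ⟪a j, a (j + 2)⟫) (by rw [e0, e1]; norm_num) rfl]
      exact classOf_mid (by linarith) (by linarith)
    exact tb4 this
  · have : kcls (a (j + 2 - 1)) (a (j + 2)) (a (j + 2 + 1)) = 4 := by
      rw [show j + 2 - 1 = j + 1 by ring, show j + 2 + 1 = j + 3 by ring,
        kcls_eq (g := ⟪a (j + 1), a (j + 3)⟫) (by rw [e1, e2]; norm_num) rfl]
      exact classOf_high (by linarith)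
    exact tb16 this
  · have : kcls (a (j + 3 - 1)) (a (j + 3)) (a (j + 3 + 1)) = 4 := by
      rw [show j + 3 - 1 = j + 2 by ring, show j + 3 + 1 = j + 4 by ring, hpa,
        kcls_eq (g := ⟪a j, a (j + 2)⟫) (by rw [e2, e3]; norm_num) (by rw [real_inner_comm])]
      exact classOf_high (by linarith)
    exact tb16 this

lemma prop5 (P M : ℤ → Prop) (n : ∀ i, P i ∨ P (i + 1)) (per : ∀ i, P (i + 5) ↔ P i)
    (m : ∀ j, P (j + 1) → P (j + 3) → P (j + 4) → M j) : ∃ j, M j := by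
  have q5 : P 5 ↔ P 0 := by have := per 0; simpa using this
  have q6 : P 6 ↔ P 1 := by have := per 1; norm_num at this; exact this
  have q7 : P 7 ↔ P 2 := by have := per 2; norm_num at this; exact this
  have q8 : P 8 ↔ P 3 := by have := per 3; norm_num at this; exact this
  have n0 : P 0 ∨ P 1 := by have := n 0; simpa using this
  have n1 : P 1 ∨ P 2 := by have := n 1; norm_num at this; exact this
  have n2 : P 2 ∨ P 3 := by have := n 2; norm_num at this; exact this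
  have n3 : P 3 ∨ P 4 := by have := n 3; norm_num at this; exact this
  have n4 : P 4 ∨ P 5 := by have := n 4; norm_num at this; exact this
  have m0 : P 1 → P 3 → P 4 → M 0 := by have := m 0; norm_num at this; exact this
  have m1 : P 2 → P 4 → P 5 → M 1 := by have := m 1; norm_num at this; exact this
  have m2 : P 3 → P 5 → P 6 → M 2 := by have := m 2; norm_num at this; exact this
  have m3 : P 4 → P 6 → P 7 → M 3 := by have := m 3; norm_num at this; exact this
  have m4 : P 5 → P 7 → P 8 → M 4 := by have := m 4; norm_num at this; exact this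
  rw [q5] at n4 m1 m2 m4
  rw [q6] at m2 m3
  rw [q7] at m3 m4
  rw [q8] at m4
  by_cases h0 : P 0
  · by_cases h1 : P 1
    · by_cases h3 : P 3
      · exact ⟨2, m2 h3 h0 h1⟩
      · exact ⟨3, m3 (n3.resolve_left h3) h1 (n2.resolve_right h3)⟩
    · have h2 : P 2 := n1.resolve_left h1
      by_cases h3 : P 3
      · exact ⟨4, m4 h0 h2 h3⟩
      · exact ⟨1, m1 h2 (n3.resolve_left h3) h0⟩
  · have h1 : P 1 := n0.resolve_left h0
    have h4 : P 4 := n4.resolve_right h0
    by_cases h3 : P 3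
    · exact ⟨0, m0 h1 h3 h4⟩
    · exact ⟨3, m3 h4 h1 (n2.resolve_right h3)⟩

/-- ring of five corners -/
lemma ring5 (a : ℤ → E3) (c : ℤ → ℕ) (hu : ∀ i, ‖a i‖ = 1)
    (hpa : ∀ i, a (i + 5) = a i)
    (hin : ∀ i, ⟪a i, a (i + 1)⟫ = if c i = 1 then 1 / 2 else - 1 / 2)
    (hpos : ∀ i j : ℤ, i + 1 < j → j < i + 5 → 0 < det3 (a i) (a (i + 1)) (a j))
    (h0 : ∀ i, c i = 1) :
    ∃ j, Matches BPN 5 c (fun i => kcls (a (i - 1)) (a i) (a (i + 1))) j := by
  have e : ∀ i, ⟪a i, a (i + 1)⟫ = 1 / 2 := fun i => (inner_code (hin i)).1 (h0 i)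
  have hs : ∀ i, ⟪a i, a i⟫ = 1 := fun i => inner_self_of_unit (hu i)
  have kk : ∀ i, kcls (a (i - 1)) (a i) (a (i + 1)) =
      classOf ((4 * ⟪a (i - 1), a (i + 1)⟫ - 1) / 3) := by
    intro i
    have := e (i - 1)
    rw [show i - 1 + 1 = i by ring] at this
    exact kcls_eq (by rw [this, e i]; norm_num) rfl
  have e1 : ∀ i, ⟪a (i + 1), a (i + 2)⟫ = 1 / 2 := fun i => by
    have := e (i + 1); rwa [show i + 1 + 1 = i + 2 by ring] at this
  have e2 : ∀ i, ⟪a (i + 2), a (i + 3)⟫ = 1 / 2 := fun i => by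
    have := e (i + 2); rwa [show i + 2 + 1 = i + 3 by ring] at this
  have e3 : ∀ i, ⟪a (i + 3), a (i + 4)⟫ = 1 / 2 := fun i => by
    have := e (i + 3); rwa [show i + 3 + 1 = i + 4 by ring] at this
  have e4 : ∀ i, ⟪a (i + 4), a i⟫ = 1 / 2 := fun i => by
    have := e (i + 4); rwa [show i + 4 + 1 = i + 5 by ring, hpa] at this
  have d0 : ∀ i, 0 < det3 (a i) (a (i + 1)) (a (i + 2)) ∧
      0 < det3 (a i) (a (i + 1)) (a (i + 3)) ∧ 0 < det3 (a i) (a (i + 1)) (a (i + 4)) :=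
    fun i => ⟨hpos i (i + 2) (by omega) (by omega), hpos i (i + 3) (by omega) (by omega),
      hpos i (i + 4) (by omega) (by omega)⟩
  have d1 : ∀ i, 0 < det3 (a (i + 1)) (a (i + 2)) (a (i + 3)) ∧
      0 < det3 (a (i + 1)) (a (i + 2)) (a (i + 4)) ∧
      0 < det3 (a (i + 1)) (a (i + 2)) (a i) := by
    intro i
    have := d0 (i + 1)
    rwa [show i + 1 + 1 = i + 2 by ring, show i + 1 + 2 = i + 3 by ring,
      show i + 1 + 3 = i + 4 by ring, show i + 1 + 4 = i + 5 by ring, hpa] at this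
  have d2 : ∀ i, 0 < det3 (a (i + 2)) (a (i + 3)) (a (i + 4)) ∧
      0 < det3 (a (i + 2)) (a (i + 3)) (a i) ∧
      0 < det3 (a (i + 2)) (a (i + 3)) (a (i + 1)) := by
    intro i
    have := d1 (i + 1)
    rwa [show i + 1 + 1 = i + 2 by ring, show i + 1 + 2 = i + 3 by ring,
      show i + 1 + 3 = i + 4 by ring, show i + 1 + 4 = i + 5 by ring, hpa] at this
  have d3 : ∀ i, 0 < det3 (a (i + 3)) (a (i + 4)) (a i) ∧
      0 < det3 (a (i + 3)) (a (i + 4)) (a (i + 1)) ∧
      0 < det3 (a (i + 3)) (a (i + 4)) (a (i + 2)) := by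
    intro i
    have := d2 (i + 1)
    rwa [show i + 1 + 1 = i + 2 by ring, show i + 1 + 2 = i + 3 by ring,
      show i + 1 + 3 = i + 4 by ring, show i + 1 + 4 = i + 5 by ring, hpa] at this
  have d4 : ∀ i, 0 < det3 (a (i + 4)) (a i) (a (i + 1)) ∧
      0 < det3 (a (i + 4)) (a i) (a (i + 2)) ∧
      0 < det3 (a (i + 4)) (a i) (a (i + 3)) := by
    intro i
    have := d3 (i + 1)
    rwa [show i + 1 + 1 = i + 2 by ring, show i + 1 + 2 = i + 3 by ring,
      show i + 1 + 3 = i + 4 by ring, show i + 1 + 4 = i + 5 by ring, hpa] at this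
  have pm : ∀ i, a (i - 1) = a (i + 4) := fun i => by rw [← hpa (i - 1)]; congr 1; ring
  -- all inner products are smaller than 1/2
  have lt : ∀ i, ⟪a (i - 1), a (i + 1)⟫ < 1 / 2 := by
    intro i
    rw [pm]
    exact rule_E1 (hs _) (hs _) (hs _) (hs _) (hs _) (e i) (e1 i) (e2 i) (e3 i) (e4 i)
      (d0 i).1 (d0 i).2.1 (d0 i).2.2 (d1 i).1 (d1 i).2.1 (d2 i).1 (d2 i).2.1 (d3 i).1
      (d3 i).2.1 (d4 i).1 (d4 i).2.1
  have nal : ∀ i, ⟪a (i - 1), a (i + 1)⟫ < 0 ∨ ⟪a (i + 1 - 1), a (i + 1 + 1)⟫ < 0 := by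
    intro i
    have h := chain_nal (hs (i - 1)) (hs (i - 1 + 1)) (hs (i - 1 + 2)) (hs (i - 1 + 3))
      (hs (i - 1 + 4)) (e (i - 1)) (e1 (i - 1)) (e2 (i - 1)) (e3 (i - 1)) (d0 (i - 1)).1
      (d0 (i - 1)).2.1 (d1 (i - 1)).1 (d2 (i - 1)).2.1 (d0 (i - 1)).2.2 (d2 (i - 1)).1
      (d3 (i - 1)).1
    rw [show i - 1 + 1 = i by ring, show i - 1 + 2 = i + 1 by ring,
      show i - 1 + 3 = i + 2 by ring] at h
    rw [show i + 1 - 1 = i by ring, show i + 1 + 1 = i + 2 by ring]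
    by_contra hcon
    push Not at hcon
    exact h hcon
  have gper : ∀ i, ⟪a (i + 5 - 1), a (i + 5 + 1)⟫ = ⟪a (i - 1), a (i + 1)⟫ := by
    intro i
    rw [← hpa (i - 1), ← hpa (i + 1)]
    congr 2 <;> ring
  have main : ∀ j, ⟪a (j + 1 - 1), a (j + 1 + 1)⟫ < 0 → ⟪a (j + 3 - 1), a (j + 3 + 1)⟫ < 0 →
      ⟪a (j + 4 - 1), a (j + 4 + 1)⟫ < 0 →
      Matches BPN 5 c (fun i => kcls (a (i - 1)) (a i) (a (i + 1))) j := by
    intro j hj1 hj3 hj4
    have l0 := lt j
    have l2 := lt (j + 2)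
    refine matches5 (c0 := 1) (c1 := 1) (c2 := 1) (c3 := 1) (c4 := 1) (m0 := 28) (m1 := 16)
      (m2 := 28) (m3 := 16) (m4 := 16) (by simp [BPN]) (h0 _) (h0 _) (h0 _) (h0 _) (h0 _)
      ?_ ?_ ?_ ?_ ?_
    · simp only [kk]
      exact tb28 (classOf_ge2 (by linarith))
    · simp only [kk]
      exact tb16 (classOf_high (by linarith))
    · simp only [kk]
      exact tb28 (classOf_ge2 (by linarith))
    · simp only [kk]
      exact tb16 (classOf_high (by linarith))
    · simp only [kk]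
      exact tb16 (classOf_high (by linarith))
  refine prop5 (fun i => ⟪a (i - 1), a (i + 1)⟫ < 0) _ nal (fun i => ?_) main
  simp only [gper i]

theorem ring_N (k : ℕ) (hk : 3 ≤ k) (a : ℤ → E3) (c : ℤ → ℕ) (hu : ∀ i, ‖a i‖ = 1)
    (hpa : ∀ i, a (i + k) = a i) (hpc : ∀ i, c (i + k) = c i) (hc : ∀ i, c i = 1 ∨ c i = 2)
    (hin : ∀ i, ⟪a i, a (i + 1)⟫ = if c i = 1 then 1 / 2 else - 1 / 2)
    (hpos : ∀ i j : ℤ, i + 1 < j → j < i + k → 0 < det3 (a i) (a (i + 1)) (a j)) :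
    ∃ j, Matches BPN k c (fun i => kcls (a (i - 1)) (a i) (a (i + 1))) j := by
  have hsum := ring_sum hk hu hpa hc hin hpos
  have hk5 : k ≤ 5 := by
    have : ∑ i ∈ Finset.range k, 1 ≤ ∑ i ∈ Finset.range k, c (i : ℤ) :=
      Finset.sum_le_sum fun i _ => by rcases hc (i : ℤ) with h | h <;> omega
    simp at this
    omega
  have hmod : ∀ i : ℤ, c i = c (i % k) := by
    intro i
    have h1 : Function.Periodic c (k : ℤ) := hpc
    have h2 := h1.sub_zsmul_eq (x := i) (i / k)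
    rw [← h2]
    congr 1
    have := Int.emod_add_mul_ediv i k
    simp only [smul_eq_mul]
    linarith
  have hall : ∀ n : ℕ, n = k → (∀ t : ℕ, t < n → c (t : ℤ) = 1) → ∀ i : ℤ, c i = 1 := by
    intro n hn ht i
    rw [hmod i]
    have h0 : 0 ≤ i % k := Int.emod_nonneg _ (by omega)
    have h1 : i % k < k := Int.emod_lt_of_pos _ (by omega)
    obtain ⟨t, ht'⟩ := Int.eq_ofNat_of_zero_le h0
    rw [ht']
    exact ht t (by omega)
  interval_cases k
  · -- k = 3
    simp [Finset.sum_range_succ] at hsum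
    have p3 : c 3 = c 0 := by have := hpc 0; simpa using this
    have p4 : c 4 = c 1 := by have := hpc 1; norm_num at this; exact this
    have hpa' : ∀ i, a (i + 3) = a i := hpa
    have hpos' : ∀ i j : ℤ, i + 1 < j → j < i + 3 → 0 < det3 (a i) (a (i + 1)) (a j) := hpos
    have R := ring3 a c hu hpa' hin hpos'
    have R0 := R 0
    have R1 := R 1
    have R2 := R 2
    norm_num at R0 R1 R2
    rw [p3] at R1 R2
    rw [p4] at R2
    rcases hc 0 with h0 | h0 <;> rcases hc 1 with h1 | h1 <;> rcases hc 2 with h2 | h2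
    · exact ⟨0, R0 h0 (Or.inl ⟨h1, h2⟩)⟩
    · exact ⟨0, R0 h0 (Or.inr (Or.inl ⟨h1, h2⟩))⟩
    · exact ⟨2, R2 h2 (Or.inr (Or.inl ⟨h0, h1⟩))⟩
    · exact ⟨0, R0 h0 (Or.inr (Or.inr ⟨h1, h2⟩))⟩
    · exact ⟨1, R1 h1 (Or.inr (Or.inl ⟨h2, h0⟩))⟩
    · exact ⟨1, R1 h1 (Or.inr (Or.inr ⟨h2, h0⟩))⟩
    · exact ⟨2, R2 h2 (Or.inr (Or.inr ⟨h0, h1⟩))⟩
    · omega
  · -- k = 4
    simp [Finset.sum_range_succ] at hsum
    have p4 : c 4 = c 0 := by have := hpc 0; simpa using this
    have p5 : c 5 = c 1 := by have := hpc 1; norm_num at this; exact this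
    have p6 : c 6 = c 2 := by have := hpc 2; norm_num at this; exact this
    have hpa' : ∀ i, a (i + 4) = a i := hpa
    have hpos' : ∀ i j : ℤ, i + 1 < j → j < i + 4 → 0 < det3 (a i) (a (i + 1)) (a j) := hpos
    have R := ring4b a c hu hpa' hin hpos'
    have R0 := R 0
    have R1 := R 1
    have R2 := R 2
    have R3 := R 3
    norm_num at R0 R1 R2 R3
    rw [p4] at R1 R2 R3
    rw [p5] at R2 R3
    rw [p6] at R3
    rcases hc 0 with h0 | h0
    · rcases hc 1 with h1 | h1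
      · rcases hc 2 with h2 | h2
        · rcases hc 3 with h3 | h3
          · refine ring4a a c hu hpa' hin hpos' (hall 4 rfl fun t ht => ?_)
            interval_cases t
            · exact h0
            · exact h1
            · exact h2
            · exact h3
          · exact ⟨3, R3 h3 h0 h1 h2⟩
        · have b3 := hc 3
          exact ⟨2, R2 h2 (by omega) h0 h1⟩
      · have b2 := hc 2
        have b3 := hc 3
        exact ⟨1, R1 h1 (by omega) (by omega) h0⟩
    · have b1 := hc 1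
      have b2 := hc 2
      have b3 := hc 3
      exact ⟨0, R0 h0 (by omega) (by omega) (by omega)⟩
  · -- k = 5
    simp [Finset.sum_range_succ] at hsum
    refine ring5 a c hu hpa hin hpos (hall 5 rfl fun t ht => ?_)
    have b0 := hc 0
    have b1 := hc 1
    have b2 := hc 2
    have b3 := hc 3
    have b4 := hc 4
    interval_cases t <;> push_cast <;> omega

end Pool.Agent.Lib.MP_ba95e8_co
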