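import Pool.Agent.Lib.MP_ba95e8_co.Dome
import Pool.Agent.Lib.MP_ba95e8_co.DomeComb
import Pool.Agent.Lib.MP_ba95e8_co.RingN
import Pool.Agent.Lib.MP_ba95e8_co.RingB

/-!
Deltahedral domes, task D3: the ring of corners at a vertex of a dome.
-/

namespace Pool.Agent.Lib.MP_ba95e8_co

open scoped RealInnerProductSpace

variable {K : Set E3} {b : ℕ → E3}

theorem edgeClass_symm (K : Set E3) (v w : E3) : edgeClass K v w = edgeClass K w v := by
  classical
  have h : (fun κ : ℝ => ∃ n m p n' m' p', Fc K n m p ∧ Fc K n' m' p' ∧ p 0 = v ∧ p 1 = w ∧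
      p' 0 = w ∧ p' 1 = v ∧ κ = - ⟪n, n'⟫) = (fun κ : ℝ => ∃ n m p n' m' p', Fc K n m p ∧
      Fc K n' m' p' ∧ p 0 = w ∧ p 1 = v ∧ p' 0 = v ∧ p' 1 = w ∧ κ = - ⟪n, n'⟫) := by
    ext κ
    constructor
    · rintro ⟨n, m, p, n', m', p', h1, h2, h3, h4, h5, h6, h7⟩
      exact ⟨n', m', p', n, m, p, h2, h1, h5, h6, h3, h4, by rw [real_inner_comm]; exact h7⟩
    · rintro ⟨n, m, p, n', m', p', h1, h2, h3, h4, h5, h6, h7⟩
      exact ⟨n', m', p', n, m, p, h2, h1, h5, h6, h3, h4, by rw [real_inner_comm]; exact h7⟩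
  unfold edgeClass
  have key : ∀ (Q Q' : ℝ → Prop) (hQ : Q = Q') [Decidable (∃ κ, Q κ)] [Decidable (∃ κ, Q' κ)],
      (if h : ∃ κ, Q κ then classOf h.choose else 0) =
        (if h : ∃ κ, Q' κ then classOf h.choose else 0) := by
    intro Q Q' hQ _ _
    subst hQ
    congr
  exact key _ _ h

theorem classOf_lt (κ : ℝ) : classOf κ < 5 := by
  unfold classOf
  split_ifs <;> norm_num

theorem edgeClass_lt (K : Set E3) (v w : E3) : edgeClass K v w < 5 := by
  unfold edgeClass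
  split_ifs
  · exact classOf_lt _
  · norm_num

theorem edgeClass_eq (hint : (interior K).Nonempty) {v w n n' : E3} {m m' : ℕ} {p p' : ℤ → E3}
    (hf : Fc K n m p) (hf' : Fc K n' m' p') (h0 : p 0 = v) (h1 : p 1 = w) (h0' : p' 0 = w)
    (h1' : p' 1 = v) : edgeClass K v w = classOf (- ⟪n, n'⟫) := by
  have hex : ∃ κ : ℝ, ∃ n m p n' m' p', Fc K n m p ∧ Fc K n' m' p' ∧ p 0 = v ∧ p 1 = w ∧
      p' 0 = w ∧ p' 1 = v ∧ κ = - ⟪n, n'⟫ := ⟨_, n, m, p, n', m', p', hf, hf', h0, h1, h0', h1', rfl⟩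
  unfold edgeClass
  rw [dif_pos hex]
  obtain ⟨n1, m1, p1, n2, m2, p2, g1, g2, g3, g4, g5, g6, g7⟩ := hex.choose_spec
  have e1 := (Fc.uniq hint hf g1 (by rw [h0, g3]) (by rw [h1, g4])).1
  have e2 := (Fc.uniq hint hf' g2 (by rw [h0', g5]) (by rw [h1', g6])).1
  rw [g7, e1, e2]

lemma norm_dirTo {v w : E3} (h : w ≠ v) : ‖dirTo v w‖ = 1 := by
  unfold dirTo
  rw [norm_smul, norm_inv, Real.norm_eq_abs, abs_of_nonneg dist_nonneg, dist_comm, dist_eq_norm,
    inv_mul_cancel₀ (norm_ne_zero_iff.mpr (sub_ne_zero.mpr h))]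

lemma map_range_three {α : Type*} (F : ℤ → α) {m : ℕ} (hm : 3 ≤ m) :
    ∃ l, (List.range m).map (fun i : ℕ => F i) = F 0 :: F 1 :: F 2 :: l := by
  obtain ⟨k, rfl⟩ := Nat.exists_eq_add_of_le' hm
  rw [List.range_succ_eq_map, List.range_succ_eq_map, List.range_succ_eq_map]
  simp

/-- the angle at a coded corner -/
lemma IsCoded.inner_dirTo {n : E3} {m : ℕ} {p : ℤ → E3} {c : ℤ → ℕ} (hp : IsPoly n m p)
    (h : IsCoded n m p c) :
    (c 0 = 1 ∨ c 0 = 2) ∧
    ⟪dirTo (p 0) (p (-1)), dirTo (p 0) (p 1)⟫ = if c 0 = 1 then 1 / 2 else - 1 / 2 := by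
  obtain ⟨D, k, hD, h2, h3, h4, h5, h6⟩ := h
  refine ⟨h3 0, ?_⟩
  obtain ⟨hn1, hn2, -⟩ := hp.ne_of
  have e1 : dirTo (p 0) (p (-1)) = - D (k (-1)) := by
    have h7 := h4 (-1)
    rw [neg_add_cancel] at h7
    unfold dirTo
    have h8 : p (-1) - p 0 = - (dist (p (-1)) (p 0) • D (k (-1))) := by rw [← h7]; abel
    rw [h8, dist_comm, smul_neg, smul_smul, inv_mul_cancel₀ (dist_pos.mpr hn2).ne', one_smul]
  have e2 : dirTo (p 0) (p 1) = D (k 0) := by
    have h7 := h4 0
    rw [zero_add] at h7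
    unfold dirTo
    rw [h7, smul_smul, inv_mul_cancel₀ (dist_pos.mpr hn1.symm).ne', one_smul]
  have e3 : k 0 = k (-1) + (3 - (c 0 : ℤ)) := by
    have := h5 (-1)
    rwa [neg_add_cancel] at this
  rw [e1, e2, inner_neg_left]
  rcases h3 0 with h7 | h7
  · rw [h7] at e3
    have e4 : k 0 = k (-1) + 2 := by rw [e3]; norm_num
    rw [e4, hD.rec', inner_sub_right, hD.inner, real_inner_self_eq_norm_sq, hD.norm, h7]
    norm_num
  · rw [h7] at e3
    have e4 : k 0 = k (-1) + 1 := by rw [e3]; norm_num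
    rw [e4, hD.inner, h7]
    norm_num

/-- the normal through the directions of the two sides at a vertex, for a corner of 60 or 120
degrees -/
lemma Fc.normal_dirTo {n : E3} {m : ℕ} {p : ℤ → E3} (h : Fc K n m p)
    (hi : ⟪dirTo (p 0) (p (-1)), dirTo (p 0) (p 1)⟫ ^ 2 = 1 / 4) :
    n = (2 / √3) • cr (dirTo (p 0) (p 1)) (dirTo (p 0) (p (-1))) := by
  obtain ⟨hn1, hn2, -⟩ := h.poly.ne_of
  have hno := h.normal 0
  simp only [zero_add, zero_sub] at hno
  set u := p 1 - p 0 with hu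
  set w := p (-1) - p 0 with hw
  have d1 : 0 < dist (p 0) (p 1) := dist_pos.mpr hn1.symm
  have d2 : 0 < dist (p 0) (p (-1)) := dist_pos.mpr hn2.symm
  have e1 : cr (dirTo (p 0) (p 1)) (dirTo (p 0) (p (-1))) =
      ((dist (p 0) (p 1))⁻¹ * (dist (p 0) (p (-1)))⁻¹) • cr u w := by
    unfold dirTo
    rw [← hu, ← hw]
    apply ext3 <;> simp <;> ring
  have hsq : ‖cr (dirTo (p 0) (p 1)) (dirTo (p 0) (p (-1)))‖ ^ 2 = 3 / 4 := by
    rw [← real_inner_self_eq_norm_sq, inner_cr_cr, real_inner_self_eq_norm_sq,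
      real_inner_self_eq_norm_sq, norm_dirTo hn1, norm_dirTo hn2,
      real_inner_comm (dirTo (p 0) (p (-1))) (dirTo (p 0) (p 1))]
    linear_combination -hi
  have hnorm : ‖cr (dirTo (p 0) (p 1)) (dirTo (p 0) (p (-1)))‖ = √3 / 2 := by
    have h1 : (√3 / 2) ^ 2 = (3 : ℝ) / 4 := by
      rw [div_pow, Real.sq_sqrt (by norm_num)]; norm_num
    rw [← h1] at hsq
    exact (pow_left_inj₀ (norm_nonneg _) (by positivity) (by norm_num)).mp hsq
  have hcne : ‖cr u w‖ ≠ 0 := by
    intro h0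
    rw [e1, norm_smul, h0, mul_zero] at hnorm
    have : (0 : ℝ) < √3 / 2 := by positivity
    linarith
  have h3 : (0 : ℝ) < √3 := by positivity
  rw [e1, smul_smul]
  rw [e1, norm_smul, Real.norm_eq_abs, abs_of_pos (by positivity)] at hnorm
  rw [hno]
  congr 1
  field_simp
  field_simp at hnorm
  linarith

theorem Dome.ring (h : Dome K b) :
    ∀ v u w c d e r, faceRel K b ((u, d) :: (v, c) :: (w, e) :: r) →
    ∃ (k : ℕ) (U : ℤ → E3) (C : ℤ → ℕ), 3 ≤ k ∧ (∀ i, U (i + k) = U i) ∧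
      (∀ i, C (i + k) = C i) ∧
      (∀ i j, U i = U j → (k : ℤ) ∣ j - i) ∧
      (∀ i, ∃ d e r, faceRel K b ((U i, d) :: (v, C i) :: (U (i + 1), e) :: r)) ∧
      (∀ u w c d e r, faceRel K b ((u, d) :: (v, c) :: (w, e) :: r) →
        ∃ i, u = U i ∧ w = U (i + 1) ∧ c = C i) ∧
      (v = b 0 → ∃ j, Matches BPgt k C (fun i => edgeClass K v (U i)) j) ∧
      (v = b 1 → ∃ j, Matches BPlt k C (fun i => edgeClass K v (U i)) j) ∧
      (v = b 2 → ∃ j, Matches (BPgt ++ BPeq ++ BPlt) k C (fun i => edgeClass K v (U i)) j) ∧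
      (v ≠ b 0 → v ≠ b 1 → v ≠ b 2 → ∃ j, Matches BPN k C (fun i => edgeClass K v (U i)) j) := by
  intro v u w c d e r hl
  rw [faceRel_iff] at hl
  obtain ⟨n, m, p, C0, hf, he⟩ := hl
  have hint := h.int
  -- vertices of the list
  have hlist : ∀ {n : E3} {m : ℕ} {p : ℤ → E3} {C0 : ℤ → ℕ} {u v w : E3} {d c e : ℕ}
      {r : List (E3 × ℕ)}, FR K b n m p C0 →
      (u, d) :: (v, c) :: (w, e) :: r = (List.range m).map (fun i : ℕ => (p i, C0 i)) →
      u = p 0 ∧ v = p 1 ∧ w = p 2 ∧ c = C0 1 := by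
    intro n m p C0 u v w d c e r hf he
    obtain ⟨l1, hl1⟩ := map_range_three (fun i => (p i, C0 i)) hf.1.poly.three
    rw [hl1] at he
    simp only [List.cons.injEq, Prod.mk.injEq] at he
    exact ⟨he.1.1, he.2.1.1, he.2.2.1.1, he.2.1.2⟩
  obtain ⟨hu, hv, hw, hcc⟩ := hlist hf he
  obtain ⟨S, hS, hKS⟩ := h.fin
  have hring := Fc.ring (S := S) hS (by rw [← hKS]; exact h.int) (by rw [← hKS]; exact h.all)
    (n := n) (m := m) (p := fun i => p (i + 1)) (by rw [← hKS]; exact hf.1.shift 1)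
  rw [← hKS] at hring
  simp only [zero_add, ← hv] at hring
  obtain ⟨k, W, N, M, P, hk3, hWk, hPk, hNk, hMk, hWinj, hP, hall, hpos⟩ := hring
  have hcodes : ∀ i, ∃ c, FR K b (N i) (M i) (P i) c := fun i => FR.ex h (hP i).1
  choose cc hcc' using hcodes
  have hcck : ∀ i, cc (i + k) = cc i := by
    intro i
    have h1 := hcc' (i + k)
    rw [hNk, hMk, hPk] at h1
    exact h1.uniq (hcc' i)
  have hWv : ∀ i, W i ≠ v := by
    intro i
    have := (hP i).1.poly.ne_of.2.1
    rwa [(hP i).2.1, (hP i).2.2.1] at this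
  -- the directions
  set a : ℤ → E3 := fun i => dirTo v (W i) with ha
  have hau : ∀ i, ‖a i‖ = 1 := fun i => norm_dirTo (hWv i)
  have hak : ∀ i, a (i + k) = a i := fun i => by simp only [ha, hWk]
  -- coded corners
  have hcod : ∀ i, cc i 0 ≠ 0 → (cc i 0 = 1 ∨ cc i 0 = 2) ∧
      ⟪a i, a (i + 1)⟫ = if cc i 0 = 1 then 1 / 2 else - 1 / 2 := by
    intro i hi
    rcases (hcc' i).2 with h1 | h1
    · have h2 := h1.1.inner_dirTo (hP i).1.poly
      rw [(hP i).2.1, (hP i).2.2.1, (hP i).2.2.2] at h2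
      exact h2
    · exact absurd (h1.2 0) hi
  have hnormal : ∀ i, cc i 0 ≠ 0 → N i = (2 / √3) • cr (a (i + 1)) (a i) := by
    intro i hi
    have h1 := (hP i).1.normal_dirTo (by
      rw [(hP i).2.1, (hP i).2.2.1, (hP i).2.2.2]
      have h2 := (hcod i hi).2
      simp only [ha] at h2
      rw [h2]
      split_ifs <;> norm_num)
    rw [(hP i).2.1, (hP i).2.2.1, (hP i).2.2.2] at h1
    exact h1
  have hclass : ∀ i, cc (i - 1) 0 ≠ 0 → cc i 0 ≠ 0 →
      edgeClass K v (W i) = kcls (a (i - 1)) (a i) (a (i + 1)) := by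
    intro i h1 h2
    have e1 := edgeClass_eq hint (hP (i - 1)).1 ((hP i).1.shift (-1)) (hP (i - 1)).2.1
      (by rw [(hP (i - 1)).2.2.2, sub_add_cancel]) (by simpa using (hP i).2.2.1)
      (by simpa using (hP i).2.1)
    rw [e1]
    unfold kcls
    congr 1
    rw [hnormal _ h1, hnormal _ h2, sub_add_cancel, inner_smul_left, inner_smul_right, inner_cr_cr,
      real_inner_self_eq_norm_sq, hau]
    have h3 : (2 / √3) * (2 / √3) = (4 : ℝ) / 3 := by
      rw [div_mul_div_comm, Real.mul_self_sqrt (by norm_num)]; norm_num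
    simp only [conj_trivial]
    linear_combination (-1) * (⟪a i, a (i + 1)⟫ * ⟪a (i - 1), a i⟫ - ⟪a (i - 1), a (i + 1)⟫) * h3
  -- base facet
  obtain ⟨nb, pb, hb, b0, b1, b2⟩ := h.baseFR
  have hpb : ∀ i, pb i = b 0 ∨ pb i = b 1 ∨ pb i = b 2 := by
    intro i
    have hper : Function.Periodic pb (3 : ℤ) := hb.1.poly.per
    have h3 : pb i = pb (i % 3) := by
      have h4 : i = i % 3 + (i / 3) * 3 := by omega
      conv_lhs => rw [h4]
      exact (hper.int_mul (i / 3)) (i % 3)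
    have h5 : i % 3 = 0 ∨ i % 3 = 1 ∨ i % 3 = 2 := by omega
    rw [h3]
    rcases h5 with h5 | h5 | h5 <;> rw [h5]
    · right; right; exact b0
    · right; left; exact b1
    · left; exact b2
  have hbhull : convexHull ℝ (Set.range pb) = convexHull ℝ {b 0, b 1, b 2} := by
    rcases hb.2 with h2 | h2
    · obtain ⟨D, k, hD, h3, h4, _⟩ := h2.1
      have := h4 0
      simp at this
    · exact h2.1
  have hzero : ∀ i, cc i 0 = 0 → convexHull ℝ (Set.range (P i)) = convexHull ℝ (Set.range pb) := by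
    intro i hi
    rcases (hcc' i).2 with h1 | h1
    · have h2 := (h1.1.inner_dirTo (hP i).1.poly).1
      omega
    · rw [h1.1, hbhull]
  -- the base corner
  have hbase : ∀ s : ℤ, pb s = v → ∃ j, cc j 0 = 0 ∧ W j = pb (s - 1) ∧ W (j + 1) = pb (s + 1) ∧
      ∀ i, cc i 0 = 0 → (k : ℤ) ∣ i - j := by
    intro s hs
    obtain ⟨j, hj1, hj2, hj3⟩ := hall nb 3 (fun i => pb (i + s)) (hb.1.shift s) (by simpa using hs)
    refine ⟨j, ?_, ?_, ?_, ?_⟩
    · have h1 := hb.shift s
      rw [hj1, hj2, hj3] at h1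
      have h2 := (hcc' j).uniq h1
      rw [h2]
    · rw [← (hP j).2.2.1, ← hj3]
      show pb (-1 + s) = pb (s - 1)
      rw [show -1 + s = s - 1 by ring]
    · rw [← (hP j).2.2.2, ← hj3]
      show pb (1 + s) = pb (s + 1)
      rw [add_comm]
    · intro i hi
      have h1 := hzero i hi
      obtain ⟨-, -, t, ht⟩ := Fc.same_hull hint (hP i).1 hb.1 h1
      -- pb s = v = P i (s + t)
      have h2 : P i (s + t) = P i 0 := by rw [← ht, hs, (hP i).2.1]
      rw [(hP i).1.poly.inj] at h2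
      obtain ⟨z, hz⟩ := h2
      have h3 : W i = W j := by
        rw [← (hP i).2.2.1, ← (hP j).2.2.1, ← hj3]
        show P i (-1) = pb (-1 + s)
        rw [ht]
        have h4 := (hP i).1.poly.per_mul (-1 + s + t) z
        rw [← h4]
        congr 1
        linarith
      have h4 := hWinj i j h3
      have h5 : (k : ℤ) ∣ -(j - i) := (dvd_neg).mpr h4
      rwa [neg_sub] at h5
  have hringB : ∀ s : ℤ, pb s = v → ∃ j,
      (⟪dirTo v (pb (s - 1)), dirTo v (pb (s + 1))⟫ < 1 / 2 →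
        Matches BPgt k (fun i => cc i 0) (fun i => edgeClass K v (W i)) j) ∧
      (⟪dirTo v (pb (s - 1)), dirTo v (pb (s + 1))⟫ = 1 / 2 →
        Matches BPeq k (fun i => cc i 0) (fun i => edgeClass K v (W i)) j) ∧
      (1 / 2 < ⟪dirTo v (pb (s - 1)), dirTo v (pb (s + 1))⟫ →
        Matches BPlt k (fun i => cc i 0) (fun i => edgeClass K v (W i)) j) := by
    intro s hs
    obtain ⟨j, hj0, hj1, hj2, hj3⟩ := hbase s hs
    have hnz : ∀ i : ℤ, 0 < i → i < k → cc (i + j) 0 ≠ 0 := by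
      intro i h1 h2 h3
      have h4 := hj3 _ h3
      rw [add_sub_cancel_right] at h4
      have := Int.le_of_dvd h1 h4
      omega
    have hB := ring_B k hk3 (fun i => a (i + j)) (fun i => cc (i + j) 0)
      (fun i => edgeClass K v (W (i + j))) (fun i => hau _)
      (fun i => by
        show a (i + k + j) = a (i + j)
        rw [show i + k + j = i + j + k by ring, hak])
      (by show cc (0 + j) 0 = 0; rw [zero_add]; exact hj0)
      (fun i h1 h2 => (hcod _ (hnz i h1 h2)).1)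
      (fun i h1 h2 => by
        have := (hcod _ (hnz i h1 h2)).2
        show ⟪a (i + j), a (i + 1 + j)⟫ = _
        rw [show i + 1 + j = i + j + 1 by ring]
        exact this)
      (fun i i' h1 h2 => by
        have := hpos (i + j) (i' + j) (by linarith) (by linarith)
        show 0 < det3 (a (i + j)) (a (i + 1 + j)) (a (i' + j))
        rw [show i + 1 + j = i + j + 1 by ring]
        exact this)
      (fun i => edgeClass_lt K v _)
      (fun i h1 h2 => by
        show edgeClass K v (W (i + j)) = kcls (a (i - 1 + j)) (a (i + j)) (a (i + 1 + j))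
        have := hclass (i + j) (by
          rw [show i + j - 1 = (i - 1) + j by ring]
          exact hnz (i - 1) (by linarith) (by linarith)) (hnz i (by linarith) h2)
        rw [this, show i + j - 1 = i - 1 + j by ring, show i + j + 1 = i + 1 + j by ring])
    have hconv : ∀ B : List (List ℕ × List ℕ),
        Matches B k (fun i => cc (i + j) 0) (fun i => edgeClass K v (W (i + j))) 0 →
        Matches B k (fun i => cc i 0) (fun i => edgeClass K v (W i)) j := by
      rintro B ⟨q, hq1, hq2, hq3⟩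
      refine ⟨q, hq1, ?_, ?_⟩
      · rw [hq2]
        apply List.map_congr_left
        intro t _
        show cc (0 + t + j) 0 = cc (j + t) 0
        rw [show (0 : ℤ) + t + j = j + t by ring]
      · intro t ht
        have := hq3 t ht
        simp only at this
        rwa [show (0 : ℤ) + t + j = j + t by ring] at this
    have hin0 : ⟪a (0 + j), a (1 + j)⟫ = ⟪dirTo v (pb (s - 1)), dirTo v (pb (s + 1))⟫ := by
      rw [zero_add, add_comm 1 j]
      simp only [ha]
      rw [hj1, hj2]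
    simp only [hin0] at hB
    exact ⟨j, fun h1 => hconv _ (hB.1 h1), fun h1 => hconv _ (hB.2.1 h1),
      fun h1 => hconv _ (hB.2.2 h1)⟩
  have hpb3 : pb 3 = b 2 := by
    have := hb.1.poly.per 0
    rw [zero_add] at this
    rw [← b0]
    exact_mod_cast this
  -- law of cosines
  have hcos : ∀ x y z : E3, y ≠ x → z ≠ x → dist y z ^ 2 = dist x y ^ 2 + dist x z ^ 2 -
      2 * dist x y * dist x z * ⟪dirTo x y, dirTo x z⟫ := by
    intro x y z hy hz
    have d1 : 0 < dist x y := dist_pos.mpr hy.symm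
    have d2 : 0 < dist x z := dist_pos.mpr hz.symm
    unfold dirTo
    rw [inner_smul_left, inner_smul_right]
    simp only [conj_trivial]
    have h1 : dist y z ^ 2 = ‖y - x‖ ^ 2 - 2 * ⟪y - x, z - x⟫ + ‖z - x‖ ^ 2 := by
      rw [dist_eq_norm, ← norm_sub_sq_real]
      congr 2
      abel
    rw [h1, dist_comm x y, dist_comm x z, dist_eq_norm, dist_eq_norm]
    rw [dist_comm x y, dist_eq_norm] at d1
    rw [dist_comm x z, dist_eq_norm] at d2
    field_simp
    ring
  obtain ⟨hne01, hne12, hne02⟩ := h.bne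
  have l2 := h.len2
  have l3 := h.len3
  have l4 := h.len4
  have p02 : 0 < dist (b 0) (b 2) := dist_pos.mpr hne02
  have p01 : 0 < dist (b 0) (b 1) := dist_pos.mpr hne01
  have p12 : 0 < dist (b 1) (b 2) := dist_pos.mpr hne12
  refine ⟨k, W, fun i => cc i 0, hk3, hWk, ?_, hWinj, ?_, ?_, ?_, ?_, ?_, ?_⟩
  · intro i; simp only [hcck]
  · intro i
    obtain ⟨l1, hl1⟩ := map_range_three (fun t => (P i (t - 1), cc i (t - 1)))
      (hP i).1.poly.three
    refine ⟨cc i (-1), cc i 1, l1, ?_⟩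
    rw [faceRel_iff]
    refine ⟨N i, M i, _, _, (hcc' i).shift (-1), ?_⟩
    simp only [← sub_eq_add_neg]
    rw [hl1]
    norm_num
    rw [(hP i).2.1, (hP i).2.2.1, (hP i).2.2.2]
    exact ⟨rfl, rfl, rfl⟩
  · intro u w c d e r hl
    rw [faceRel_iff] at hl
    obtain ⟨n', m', p', C', hf', he'⟩ := hl
    obtain ⟨e1, e2, e3, e4⟩ := hlist hf' he'
    obtain ⟨i, hi1, hi2, hi3⟩ := hall n' m' (fun i => p' (i + 1)) (hf'.1.shift 1)
      (by simpa using e2.symm)
    refine ⟨i, ?_, ?_, ?_⟩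
    · rw [← (hP i).2.2.1, ← hi3, e1]; norm_num
    · rw [← (hP i).2.2.2, ← hi3, e3]; norm_num
    · have h1 := hf'.shift 1
      rw [hi1, hi2, hi3] at h1
      have h2 := (hcc' i).uniq h1
      show c = cc i 0
      rw [h2, e4]
      norm_num
  · intro hv0
    obtain ⟨j, hj1, -, -⟩ := hringB 2 (by rw [b2, hv0])
    refine ⟨j, hj1 ?_⟩
    norm_num
    rw [b1, hpb3, hv0]
    have h1 := hcos (b 0) (b 1) (b 2) hne01.symm hne02.symm
    by_contra hcon
    push Not at hcon
    have h2 : dist (b 0) (b 1) * dist (b 0) (b 2) * (1 / 2) ≤ dist (b 0) (b 1) * dist (b 0) (b 2) *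
        ⟪dirTo (b 0) (b 1), dirTo (b 0) (b 2)⟫ := by
      apply mul_le_mul_of_nonneg_left _ (by positivity)
      linarith
    nlinarith [mul_nonneg p02.le (sub_nonneg.mpr l3), mul_pos p01 p12, mul_pos p02 p12,
      mul_pos p02 p01]
  · intro hv1
    obtain ⟨j, -, -, hj1⟩ := hringB 1 (by rw [b1, hv1])
    refine ⟨j, hj1 ?_⟩
    norm_num
    rw [b0, b2, hv1]
    have h1 := hcos (b 1) (b 2) (b 0) hne12.symm hne01
    by_contra hcon
    push Not at hcon
    have h2 : dist (b 1) (b 2) * dist (b 1) (b 0) * ⟪dirTo (b 1) (b 2), dirTo (b 1) (b 0)⟫ ≤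
        dist (b 1) (b 2) * dist (b 1) (b 0) * (1 / 2) := by
      apply mul_le_mul_of_nonneg_left _ (by positivity)
      linarith
    rw [dist_comm (b 1) (b 0), dist_comm (b 2) (b 0)] at h1
    rw [dist_comm (b 1) (b 0)] at h2
    nlinarith [mul_nonneg p12.le (sub_nonneg.mpr l2), mul_pos p01 p12, mul_pos p02 p12,
      mul_pos p02 p01]
  · intro hv2
    obtain ⟨j, hj1, hj2, hj3⟩ := hringB 0 (by rw [b0, hv2])
    refine ⟨j, ?_⟩
    have hmono : ∀ B B' : List (List ℕ × List ℕ), (∀ q ∈ B, q ∈ B') →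
        Matches B k (fun i => cc i 0) (fun i => edgeClass K v (W i)) j →
        Matches B' k (fun i => cc i 0) (fun i => edgeClass K v (W i)) j := by
      rintro B B' hBB ⟨q, hq1, hq2⟩
      exact ⟨q, hBB q hq1, hq2⟩
    rcases lt_trichotomy ⟪dirTo v (pb (0 - 1)), dirTo v (pb (0 + 1))⟫ (1 / 2) with h1 | h1 | h1
    · exact hmono _ _ (fun q hq => by simp only [List.mem_append]; tauto) (hj1 h1)
    · exact hmono _ _ (fun q hq => by simp only [List.mem_append]; tauto) (hj2 h1)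
    · exact hmono _ _ (fun q hq => by simp only [List.mem_append]; tauto) (hj3 h1)
  · intro hv0 hv1 hv2
    have hnz : ∀ i, cc i 0 ≠ 0 := by
      intro i hi
      obtain ⟨-, -, t, ht⟩ := Fc.same_hull hint (hP i).1 hb.1 (hzero i hi)
      have h1 : pb (-t) = v := by rw [ht, neg_add_cancel, (hP i).2.1]
      rcases hpb (-t) with h2 | h2 | h2 <;> rw [h1] at h2
      · exact hv0 h2
      · exact hv1 h2
      · exact hv2 h2
    obtain ⟨j, hj⟩ := ring_N k hk3 a (fun i => cc i 0) hau hak (fun i => by simp only [hcck])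
      (fun i => (hcod i (hnz i)).1) (fun i => (hcod i (hnz i)).2) hpos
    refine ⟨j, ?_⟩
    have : (fun i => edgeClass K v (W i)) = fun i => kcls (a (i - 1)) (a i) (a (i + 1)) := by
      ext1 i
      exact hclass i (hnz _) (hnz _)
    rw [this]
    exact hj

end Pool.Agent.Lib.MP_ba95e8_co
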