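import Pool.Agent.Lib.MP_ba95e8_co.DomeComb
import Pool.Agent.Lib.MP_ba95e8_co.DomeRing
import Pool.Agent.Lib.MP_ba95e8_co.DomeGeo

/-!
Deltahedral domes: the combinatorial model of a dome.
-/

namespace Pool.Agent.Lib.MP_ba95e8_co

/-- the model of a dome -/
noncomputable def Dome.model {K : Set E3} {b : ℕ → E3} (h : Dome K b) : DomeModel where
  face := faceRel K b
  b := b
  cl := edgeClass K
  len := dist
  rot := h.rot
  nodup := h.nodup
  codes := h.codes
  bne := h.bne
  base := h.base'
  base_uniq := h.base_uniq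
  opp := h.opp
  uniq := h.uniq
  common := h.common
  cl_symm := edgeClass_symm K
  cl_lt := edgeClass_lt K
  ring := h.ring
  len_symm := dist_comm
  len_pos := h.len_pos
  closX := h.closX
  closY := h.closY
  len1 := h.len1
  len2 := h.len2
  len3 := h.len3
  len4 := h.len4
  len_eq := fun _ _ => rfl
  geo := h.geo
  cvx := h.cvx

end Pool.Agent.Lib.MP_ba95e8_co
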