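import Pool.Agent.Lib.MP_ba95e8_co.Spec

/-!
Deltahedral domes, task S0: digits of packed words, and unfolding lemmas of the checker.
-/

namespace Pool.Agent.Lib.MP_ba95e8_co
namespace Chk

theorem ifb_true {α : Type} (t e : α) : ifb true t e = t := rfl
theorem ifb_false {α : Type} (t e : α) : ifb false t e = e := rfl
theorem ifb_eq {α : Type} (b : Bool) (t e : α) : ifb b t e = if b = true then t else e := by
  cases b <;> rfl

/-- digits of a sum in base `2 ^ w` -/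
theorem pk_core (w A d R i j : ℕ) (hd : d < 2 ^ w) (hR : R < 2 ^ (w * i)) :
    (A * 2 ^ (w * (i + 1)) + d * 2 ^ (w * i) + R) / 2 ^ (w * j) % 2 ^ w =
      if j < i then R / 2 ^ (w * j) % 2 ^ w else if j = i then d
        else A / 2 ^ (w * (j - (i + 1))) % 2 ^ w := by
  have e0 : 2 ^ (w * (i + 1)) = 2 ^ w * 2 ^ (w * i) := by rw [mul_add, pow_add]; ring
  split_ifs with h1 h2
  · obtain ⟨k, rfl⟩ : ∃ k, i = j + 1 + k := ⟨i - (j + 1), by omega⟩
    have e1 : 2 ^ (w * (j + 1 + k)) = 2 ^ (w * j) * (2 ^ w * 2 ^ (w * k)) := by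
      rw [← pow_add, ← pow_add]
      congr 1
      ring
    rw [e0, e1]
    have e2 : A * (2 ^ w * (2 ^ (w * j) * (2 ^ w * 2 ^ (w * k)))) +
        d * (2 ^ (w * j) * (2 ^ w * 2 ^ (w * k))) + R =
        R + 2 ^ (w * j) * (2 ^ w * (2 ^ (w * k) * (A * 2 ^ w + d))) := by ring
    rw [e2, Nat.add_mul_div_left _ _ (by positivity), Nat.add_mul_mod_self_left]
  · subst h2
    rw [e0]
    have e2 : A * (2 ^ w * 2 ^ (w * j)) + d * 2 ^ (w * j) + R =
        R + 2 ^ (w * j) * (2 ^ w * A + d) := by ring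
    rw [e2, Nat.add_mul_div_left _ _ (by positivity), Nat.div_eq_of_lt hR, zero_add,
      Nat.mul_add_mod, Nat.mod_eq_of_lt hd]
  · obtain ⟨k, rfl⟩ : ∃ k, j = i + 1 + k := ⟨j - (i + 1), by omega⟩
    have e1 : 2 ^ (w * (i + 1 + k)) = 2 ^ (w * (i + 1)) * 2 ^ (w * k) := by
      rw [← pow_add]
      congr 1
      ring
    rw [e1, ← Nat.div_div_eq_div_mul]
    have e3 : d * 2 ^ (w * i) + R < 2 ^ (w * (i + 1)) := by
      rw [e0]
      calc d * 2 ^ (w * i) + R < d * 2 ^ (w * i) + 2 ^ (w * i) := by omega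
        _ = (d + 1) * 2 ^ (w * i) := by ring
        _ ≤ 2 ^ w * 2 ^ (w * i) := Nat.mul_le_mul_right _ hd
    have e2 : A * 2 ^ (w * (i + 1)) + d * 2 ^ (w * i) + R =
        (d * 2 ^ (w * i) + R) + 2 ^ (w * (i + 1)) * A := by ring
    have e4 : i + 1 + k - (i + 1) = k := by omega
    rw [e2, Nat.add_mul_div_left _ _ (by positivity), Nat.div_eq_of_lt e3, zero_add, e4]

/-- decomposition of a number at a digit in base `2 ^ w` -/
theorem pk_decomp (w n i : ℕ) : n = (n / 2 ^ (w * (i + 1))) * 2 ^ (w * (i + 1)) +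
    (n / 2 ^ (w * i) % 2 ^ w) * 2 ^ (w * i) + n % 2 ^ (w * i) := by
  have e0 : 2 ^ (w * (i + 1)) = 2 ^ (w * i) * 2 ^ w := by rw [mul_add, pow_add, mul_one]
  have h1 := Nat.div_add_mod n (2 ^ (w * i))
  have h2 := Nat.div_add_mod (n / 2 ^ (w * i)) (2 ^ w)
  rw [e0, ← Nat.div_div_eq_div_mul]
  conv_lhs => rw [← h1, ← h2]
  ring

theorem pk_add {w n i x : ℕ} (h : n / 2 ^ (w * i) % 2 ^ w + x < 2 ^ w) (j : ℕ) :
    (n + x * 2 ^ (w * i)) / 2 ^ (w * j) % 2 ^ w =
      if j = i then n / 2 ^ (w * i) % 2 ^ w + x else n / 2 ^ (w * j) % 2 ^ w := by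
  have hR : n % 2 ^ (w * i) < 2 ^ (w * i) := Nat.mod_lt _ (by positivity)
  have hd : n / 2 ^ (w * i) % 2 ^ w < 2 ^ w := Nat.mod_lt _ (by positivity)
  have h1 := pk_decomp w n i
  have e1 : n + x * 2 ^ (w * i) = (n / 2 ^ (w * (i + 1))) * 2 ^ (w * (i + 1)) +
      (n / 2 ^ (w * i) % 2 ^ w + x) * 2 ^ (w * i) + n % 2 ^ (w * i) := by
    conv_lhs => rw [h1]
    ring
  rw [e1, pk_core w _ _ _ i j h hR]
  have h2 := pk_core w (n / 2 ^ (w * (i + 1))) (n / 2 ^ (w * i) % 2 ^ w) (n % 2 ^ (w * i)) i j hd hR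
  rw [← h1] at h2
  rw [h2]
  split_ifs with h3 h4 h4 <;> first | rfl | omega

theorem pk_sub {w n i x : ℕ} (h : x ≤ n / 2 ^ (w * i) % 2 ^ w) (j : ℕ) :
    (n - x * 2 ^ (w * i)) / 2 ^ (w * j) % 2 ^ w =
      if j = i then n / 2 ^ (w * i) % 2 ^ w - x else n / 2 ^ (w * j) % 2 ^ w := by
  have hR : n % 2 ^ (w * i) < 2 ^ (w * i) := Nat.mod_lt _ (by positivity)
  have hd : n / 2 ^ (w * i) % 2 ^ w < 2 ^ w := Nat.mod_lt _ (by positivity)
  have h1 := pk_decomp w n i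
  have e1 : n - x * 2 ^ (w * i) = (n / 2 ^ (w * (i + 1))) * 2 ^ (w * (i + 1)) +
      (n / 2 ^ (w * i) % 2 ^ w - x) * 2 ^ (w * i) + n % 2 ^ (w * i) := by
    have e2 : (n / 2 ^ (w * i) % 2 ^ w - x) * 2 ^ (w * i) + x * 2 ^ (w * i)
        = (n / 2 ^ (w * i) % 2 ^ w) * 2 ^ (w * i) := by
      rw [← add_mul, Nat.sub_add_cancel h]
    omega
  have hd' : n / 2 ^ (w * i) % 2 ^ w - x < 2 ^ w := by omega
  rw [e1, pk_core w _ _ _ i j hd' hR]
  have h2 := pk_core w (n / 2 ^ (w * (i + 1))) (n / 2 ^ (w * i) % 2 ^ w) (n % 2 ^ (w * i)) i j hd hR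
  rw [← h1] at h2
  rw [h2]
  split_ifs with h3 h4 h4 <;> first | rfl | omega

/-- the way the checker reads a byte -/
theorem land_shr (n i : ℕ) : Nat.land (Nat.shiftRight n (Nat.mul 8 i)) 255 = dg n i := by
  show (n >>> (8 * i)) &&& (2 ^ 8 - 1) = n / 2 ^ (8 * i) % 2 ^ 8
  rw [Nat.and_two_pow_sub_one_eq_mod, Nat.shiftRight_eq_div_pow]

theorem dg_lt (n i : ℕ) : dg n i < 256 := by
  unfold dg
  exact Nat.mod_lt _ (by norm_num)

/-- bits of a byte -/
theorem dg_testBit (n i j : ℕ) : (dg n i).testBit j = (decide (j < 8) && n.testBit (8 * i + j)) := by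
  show (n / 2 ^ (8 * i) % 2 ^ 8).testBit j = _
  rw [Nat.testBit_mod_two_pow, Nat.testBit_div_two_pow, add_comm]

theorem dg_shr (n v x : ℕ) : dg (Nat.shiftRight n (Nat.mul 128 v)) x = dg n (16 * v + x) := by
  show (n >>> (128 * v)) / 2 ^ (8 * x) % 256 = n / 2 ^ (8 * (16 * v + x)) % 256
  rw [Nat.shiftRight_eq_div_pow, Nat.div_div_eq_div_mul, ← pow_add]
  congr 3
  ring

theorem dg_ext {m n : ℕ} (h : ∀ i, dg m i = dg n i) : m = n := by
  apply Nat.eq_of_testBit_eq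
  intro i
  have h1 := congrArg (fun t => Nat.testBit t (i % 8)) (h (i / 8))
  simp only [dg_testBit] at h1
  have h2 : i % 8 < 8 := Nat.mod_lt _ (by norm_num)
  rw [Nat.div_add_mod] at h1
  simpa [h2] using h1

/-- adding to a byte without overflow -/
theorem dg_add {n i x : ℕ} (h : dg n i + x < 256) (j : ℕ) :
    dg (n + x <<< (8 * i)) j = if j = i then dg n i + x else dg n j := by
  rw [Nat.shiftLeft_eq]
  exact pk_add (w := 8) h j

/-- subtracting from a byte -/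
theorem dg_sub {n i x : ℕ} (h : x ≤ dg n i) (j : ℕ) :
    dg (n - x <<< (8 * i)) j = if j = i then dg n i - x else dg n j := by
  rw [Nat.shiftLeft_eq]
  exact pk_sub (w := 8) h j

theorem pk_testBit (n i : ℕ) : n.testBit i = decide (n / 2 ^ (1 * i) % 2 ^ 1 = 1) := by
  rw [one_mul, pow_one, Nat.testBit_eq_decide_div_mod_eq]

/-- adding a bit that is not there -/
theorem testBit_add {n i : ℕ} (h : n.testBit i = false) (j : ℕ) :
    (n + 1 <<< i).testBit j = if j = i then true else n.testBit j := by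
  have h0 : n / 2 ^ (1 * i) % 2 ^ 1 = 0 := by
    rw [pk_testBit] at h
    have h1 : ¬ (n / 2 ^ (1 * i) % 2 ^ 1 = 1) := of_decide_eq_false h
    have h2 : n / 2 ^ (1 * i) % 2 ^ 1 < 2 ^ 1 := Nat.mod_lt _ (by norm_num)
    omega
  have h3 := pk_add (w := 1) (n := n) (i := i) (x := 1) (by rw [h0]; norm_num) j
  rw [Nat.shiftLeft_eq, pk_testBit, pk_testBit n j]
  have e : n + 1 * 2 ^ i = n + 1 * 2 ^ (1 * i) := by rw [one_mul i]
  rw [e, h3]
  split_ifs with h4
  · rw [h0]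
    rfl
  · rfl

/-- subtracting a bit that is there -/
theorem testBit_sub {n i : ℕ} (h : n.testBit i = true) (j : ℕ) :
    (n - 1 <<< i).testBit j = if j = i then false else n.testBit j := by
  have h0 : n / 2 ^ (1 * i) % 2 ^ 1 = 1 := by
    rw [pk_testBit] at h
    exact of_decide_eq_true h
  have h3 := pk_sub (w := 1) (n := n) (i := i) (x := 1) (by rw [h0]) j
  rw [Nat.shiftLeft_eq, pk_testBit, pk_testBit n j]
  have e : n - 1 * 2 ^ i = n - 1 * 2 ^ (1 * i) := by rw [one_mul i]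
  rw [e, h3]
  split_ifs with h4
  · rw [h0]
    rfl
  · rfl

theorem pa_eq (en v u : ℕ) : pa en v u = (en.testBit (16 * v + u)).toNat := by
  show (en >>> (16 * v + u)) &&& (2 ^ 1 - 1) = _
  rw [Nat.and_two_pow_sub_one_eq_mod, Nat.shiftRight_eq_div_pow, pk_testBit, one_mul]
  have h2 : en / 2 ^ (16 * v + u) % 2 ^ 1 < 2 ^ 1 := Nat.mod_lt _ (by norm_num)
  by_cases h : en / 2 ^ (16 * v + u) % 2 ^ 1 = 1
  · rw [h]
    rfl
  · have h3 : en / 2 ^ (16 * v + u) % 2 ^ 1 = 0 := by omega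
    rw [h3]
    rfl

theorem bt_eq (a i : ℕ) : bt a i = a.testBit i := by
  show Nat.beq ((a >>> i) &&& (2 ^ 1 - 1)) 1 = _
  rw [Nat.and_two_pow_sub_one_eq_mod, Nat.shiftRight_eq_div_pow, pk_testBit, one_mul]
  have h2 : a / 2 ^ i % 2 ^ 1 < 2 ^ 1 := Nat.mod_lt _ (by norm_num)
  by_cases h : a / 2 ^ i % 2 ^ 1 = 1
  · rw [h]
    rfl
  · have h3 : a / 2 ^ i % 2 ^ 1 = 0 := by omega
    rw [h3]
    rfl

/-- bits of a row -/
theorem row_testBit (n v x : ℕ) : (Nat.land (Nat.shiftRight n (Nat.mul 16 v)) 65535).testBit x =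
    (decide (x < 16) && n.testBit (16 * v + x)) := by
  show ((n >>> (16 * v)) &&& (2 ^ 16 - 1)).testBit x = _
  rw [Nat.and_two_pow_sub_one_eq_mod, Nat.shiftRight_eq_div_pow, Nat.testBit_mod_two_pow,
    Nat.testBit_div_two_pow, add_comm]

theorem dl_eq (c : ℕ) (hc : c ≤ 2) : dl c = if c = 1 then 1 else if c = 2 then 8 else 0 := by
  interval_cases c <;> rfl

theorem maxL_nil (n : ℕ) : maxL n [] = n := rfl
theorem maxL_cons (n x : ℕ) (l : List ℕ) : maxL n (x :: l) = max (x + 1) (maxL n l) := by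
  show ifb (Nat.ble (maxL n l) x) (Nat.succ x) (maxL n l) = _
  rw [ifb_eq]
  split_ifs with h
  · have h1 : maxL n l ≤ x := Nat.le_of_ble_eq_true h
    rw [max_eq_left (by omega)]
  · have h1 : ¬ maxL n l ≤ x := fun h2 => h (Nat.ble_eq_true_of_le h2)
    rw [max_eq_right (by omega)]
theorem lt_maxL {n x : ℕ} {l : List ℕ} (h : x ∈ l) : x < maxL n l := by
  induction l with
  | nil => simp at h
  | cons y l ih =>
    rw [maxL_cons]
    rcases List.mem_cons.mp h with h1 | h1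
    · rw [h1]
      exact lt_of_lt_of_le (Nat.lt_succ_self y) (le_max_left _ _)
    · exact lt_of_lt_of_le (ih h1) (le_max_right _ _)
theorem le_maxL (n : ℕ) (l : List ℕ) : n ≤ maxL n l := by
  induction l with
  | nil => exact le_rfl
  | cons y l ih =>
    rw [maxL_cons]
    exact ih.trans (le_max_right _ _)
theorem maxL_le {n m : ℕ} {l : List ℕ} (hn : n ≤ m) (h : ∀ x ∈ l, x < m) : maxL n l ≤ m := by
  induction l with
  | nil => exact hn
  | cons y l ih =>
    rw [maxL_cons]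
    apply max_le
    · exact h y (List.mem_cons_self)
    · exact ih (fun x hx => h x (List.mem_cons_of_mem y hx))
theorem lt_maxL_iff {n i : ℕ} {l : List ℕ} : i < maxL n l ↔ i < n ∨ ∃ x ∈ l, i ≤ x := by
  constructor
  · intro h
    by_contra hcon
    push Not at hcon
    have h1 : maxL n l ≤ i := maxL_le hcon.1 hcon.2
    omega
  · rintro (h | ⟨x, hx, h⟩)
    · exact lt_of_lt_of_le h (le_maxL n l)
    · exact lt_of_le_of_lt h (lt_maxL hx)

end Chk
end Pool.Agent.Lib.MP_ba95e8_co
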