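import Pool.Agent.Lib.MP_ba95e8_co.Final
import Pool.Agent.Lib.MP_ba95e8_co.Pack

/-!
Deltahedral domes, task I1: the final states.
-/

namespace Pool.Agent.Lib.MP_ba95e8_co
namespace Chk

/-- a face of a state, forward, with labels and codes -/
def fwdN (F : Fa) : List (ℕ × ℕ) := (F.ws.zip F.rc).reverse

/-- the state has the faces of the list `L`, up to rotation -/
def hasF (s : St) (L : List (List (ℕ × ℕ))) : Bool :=
  L.all (fun f => (List.range 6).any (fun r => (s.fs.map fwdN).contains (f.rotate r)))

theorem fwd_eq {V : Type*} (lab : ℕ → V) (F : Fa) :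
    fwd lab F = (fwdN F).map (fun x => (lab x.1, x.2)) := by
  unfold fwd fwdN
  rw [List.map_reverse, List.zip_map_left]
  rfl

theorem Model.face_rotate {V : Type*} (M : Model V) {l l' : List (V × ℕ)} (h : M.face l)
    (hr : l ~r l') : M.face l' := by
  obtain ⟨n, rfl⟩ := hr
  induction n with
  | zero => simpa using h
  | succ n ih =>
    rw [← List.rotate_rotate]
    cases hl : l.rotate n with
    | nil => rw [hl] at ih; simpa using ih
    | cons x r =>
      rw [hl] at ih
      simpa using M.rot x r ih

theorem face_of_hasF (M : DomeModel) {s : St} {L : List (List (ℕ × ℕ))} (h : hasF s L = true)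
    {lab : ℕ → E3} (hg : Good M.toModel s lab) :
    ∀ f ∈ L, M.face (f.map fun x => (lab x.1, x.2)) := by
  intro f hf
  simp only [hasF, List.all_eq_true, List.any_eq_true, List.mem_range] at h
  obtain ⟨r, _, hr⟩ := h f hf
  rw [List.contains_iff_mem, List.mem_map] at hr
  obtain ⟨F, hF, hF2⟩ := hr
  have h1 := hg.face F hF
  rw [fwd_eq, hF2, List.map_rotate] at h1
  exact Model.face_rotate M.toModel h1 (List.IsRotated.symm ⟨r, rfl⟩)

theorem bad_of_final (M : DomeModel) {s : St} (h : hasF s finA = true ∨ hasF s finB = true ∨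
    hasF s finC = true) : Bad M.toModel s := by
  intro lab hg
  rcases h with h | h | h
  · exact no_finA M lab (face_of_hasF M h hg)
  · exact no_finB M lab (face_of_hasF M h hg)
  · exact no_finC M lab (face_of_hasF M h hg)

end Chk
end Pool.Agent.Lib.MP_ba95e8_co
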