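import Pool.Agent.Lib.MP_ba95e8_co.Pack

/-!
Deltahedral domes, task I0: the initial state.
-/

namespace Pool.Agent.Lib.MP_ba95e8_co
namespace Chk

/-- the state with the base only -/
def init : St := St.mk 3 0x20000000000000000000000000001000000000000000000000000000000000300
  0x100040002 0x200010004 0x700070007 0x202020 0 [Fa.mk 2 [0,1,2] [] [0,0,0]]

theorem init_allC : allC init.fs = [(0, 1, 2, 0), (1, 2, 0, 0), (2, 0, 1, 0)] := rfl

theorem init_Cor {v u w c : ℕ} : Cor init.fs v u w c ↔
    (v = 0 ∧ u = 1 ∧ w = 2 ∧ c = 0) ∨ (v = 1 ∧ u = 2 ∧ w = 0 ∧ c = 0) ∨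
    (v = 2 ∧ u = 0 ∧ w = 1 ∧ c = 0) := by
  unfold Cor
  rw [init_allC]
  simp

theorem init_InD {v u : ℕ} : InD init.fs v u ↔ (v = 0 ∧ u = 1) ∨ (v = 1 ∧ u = 2) ∨ (v = 2 ∧ u = 0) := by
  unfold InD
  simp only [init_Cor]
  constructor
  · rintro ⟨w, c, h⟩; omega
  · rintro (h | h | h)
    · exact ⟨2, 0, by omega⟩
    · exact ⟨0, 0, by omega⟩
    · exact ⟨1, 0, by omega⟩

theorem init_OutD {v u : ℕ} : OutD init.fs v u ↔
    (v = 0 ∧ u = 2) ∨ (v = 1 ∧ u = 0) ∨ (v = 2 ∧ u = 1) := by
  unfold OutD
  simp only [init_Cor]
  constructor
  · rintro ⟨w, c, h⟩; omega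
  · rintro (h | h | h)
    · exact ⟨1, 0, by omega⟩
    · exact ⟨2, 0, by omega⟩
    · exact ⟨0, 0, by omega⟩

theorem init_Cof {v u : ℕ} : Cof init.fs v u ↔ v < 3 ∧ u < 3 := by
  unfold Cof
  simp only [init, exists_eq_left, List.mem_cons, List.not_mem_nil, or_false]
  omega

theorem dg_big {n i : ℕ} (h : n < 2 ^ (8 * i)) : dg n i = 0 := by
  unfold dg
  rw [Nat.div_eq_of_lt h]

set_option exponentiation.threshold 1000 in
theorem init_sp : Sp init where
  n16 := by decide
  wf := by
    intro F hF
    simp only [init, List.mem_singleton] at hF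
    subst hF
    exact ⟨by decide, rfl, by decide, rfl, by decide⟩
  lt := by
    intro F hF
    simp only [init, List.mem_singleton] at hF
    subst hF
    decide
  nd := by rw [init_allC]; decide
  nd' := by rw [init_allC]; decide
  nx1 := by
    intro v u w c h
    rw [init_Cor] at h
    rcases h with ⟨rfl, rfl, rfl, rfl⟩ | ⟨rfl, rfl, rfl, rfl⟩ | ⟨rfl, rfl, rfl, rfl⟩ <;>
      simp only [init, dg] <;> norm_num
  nx0 := by
    intro v u hu h
    rw [init_InD] at h
    by_cases hv : v < 3
    · interval_cases v <;> interval_cases u <;> first | (exfalso; omega) | (simp only [init, dg]; norm_num)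
    · apply dg_big
      apply lt_of_lt_of_le (b := 2 ^ (8 * 48))
      · simp only [init]; norm_num
      · exact Nat.pow_le_pow_right (by norm_num) (by omega)
  st := by
    intro v u hu
    rw [init_InD, init_OutD]
    by_cases hv : v < 3
    · interval_cases v <;> interval_cases u <;> simp [init] <;> decide
    · rw [Nat.testBit_lt_two_pow (x := init.st)]
      · simp; omega
      · apply lt_of_lt_of_le (b := 2 ^ 48)
        · simp only [init]; norm_num
        · exact Nat.pow_le_pow_right (by norm_num) (by omega)
  en := by
    intro v u hu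
    rw [init_InD, init_OutD]
    by_cases hv : v < 3
    · interval_cases v <;> interval_cases u <;> simp [init] <;> decide
    · rw [Nat.testBit_lt_two_pow (x := init.en)]
      · simp; omega
      · apply lt_of_lt_of_le (b := 2 ^ 48)
        · simp only [init]; norm_num
        · exact Nat.pow_le_pow_right (by norm_num) (by omega)
  cof := by
    intro v u hu
    rw [init_Cof]
    by_cases hv : v < 3
    · interval_cases v <;> interval_cases u <;> simp [init] <;> decide
    · rw [Nat.testBit_lt_two_pow (x := init.cof)]
      · simp; omega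
      · apply lt_of_lt_of_le (b := 2 ^ 48)
        · simp only [init]; norm_num
        · exact Nat.pow_le_pow_right (by norm_num) (by omega)
  cnt := by
    intro v
    have h1 : ∀ c, c ≠ 0 → nC init.fs v c = 0 := by
      intro c hc
      unfold nC
      rw [init_allC, List.countP_eq_zero]
      simp
      omega
    rw [h1 1 (by norm_num), h1 2 (by norm_num)]
    by_cases hv : v < 3
    · have h2 : nE init.fs v = 1 := by
        unfold nE
        rw [Finset.card_eq_one]
        refine ⟨if v = 0 then 2 else if v = 1 then 0 else 1, ?_⟩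
        ext w
        simp only [Finset.mem_filter, Finset.mem_range, Finset.mem_singleton, init_InD, init_OutD]
        split_ifs <;> omega
      rw [h2]
      interval_cases v <;> simp only [init, dg] <;> norm_num
    · have h2 : nE init.fs v = 0 := by
        unfold nE
        rw [Finset.card_eq_zero]
        ext w
        simp only [Finset.mem_filter, Finset.mem_range, init_InD, init_OutD, Finset.notMem_empty,
          iff_false]
        omega
      rw [h2]
      apply dg_big
      apply lt_of_lt_of_le (b := 2 ^ 24)
      · simp only [init]; norm_num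
      · exact Nat.pow_le_pow_right (by norm_num) (by omega)

theorem init_inv {V : Type*} (M : Model V) : Good M init M.b where
  sp := init_sp
  n3 := le_rfl
  inj := by
    intro i hi j hj h
    have hi' : i < 3 := hi
    have hj' : j < 3 := hj
    obtain ⟨h1, h2, h3⟩ := M.bne
    interval_cases i <;> interval_cases j <;> first | rfl | (exfalso; first | exact h1 h | exact h1 h.symm | exact h2 h | exact h2 h.symm | exact h3 h | exact h3 h.symm)
  b0 := rfl
  b1 := rfl
  b2 := rfl
  face := by
    intro F hF
    simp only [init, List.mem_singleton] at hF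
    subst hF
    exact M.base
  shape := by
    intro F hF
    simp only [init, List.mem_singleton] at hF
    exact Or.inl hF
  base := by simp [init, baseF]
  used := by
    intro v hv
    have hv' : v < 3 := hv
    exact ⟨_, List.mem_singleton.mpr rfl, by interval_cases v <;> simp⟩
  ms := by
    intro v u _
    have : dg init.ms (16 * v + u) = 0 := by simp [init, dg]
    rw [this]
    exact ⟨by norm_num, Or.inl rfl⟩

end Chk
end Pool.Agent.Lib.MP_ba95e8_co
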