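import Pool.Agent.Lib.MP_ba95e8_co.U.U0
import Pool.Agent.Lib.MP_ba95e8_co.U.U1
import Pool.Agent.Lib.MP_ba95e8_co.U.U2
import Pool.Agent.Lib.MP_ba95e8_co.U.U3
import Pool.Agent.Lib.MP_ba95e8_co.U.U4
import Pool.Agent.Lib.MP_ba95e8_co.U.U5
import Pool.Agent.Lib.MP_ba95e8_co.U.U6
import Pool.Agent.Lib.MP_ba95e8_co.U.U7
import Pool.Agent.Lib.MP_ba95e8_co.U.U8
import Pool.Agent.Lib.MP_ba95e8_co.U.U9
import Pool.Agent.Lib.MP_ba95e8_co.U.U10
import Pool.Agent.Lib.MP_ba95e8_co.U.U11
import Pool.Agent.Lib.MP_ba95e8_co.U.U12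
import Pool.Agent.Lib.MP_ba95e8_co.U.U13
import Pool.Agent.Lib.MP_ba95e8_co.U.U14
import Pool.Agent.Lib.MP_ba95e8_co.U.U15
import Pool.Agent.Lib.MP_ba95e8_co.U.U16
import Pool.Agent.Lib.MP_ba95e8_co.U.U17
import Pool.Agent.Lib.MP_ba95e8_co.U.U18
import Pool.Agent.Lib.MP_ba95e8_co.U.U19
import Pool.Agent.Lib.MP_ba95e8_co.U.U20
import Pool.Agent.Lib.MP_ba95e8_co.U.U21
import Pool.Agent.Lib.MP_ba95e8_co.U.U22
import Pool.Agent.Lib.MP_ba95e8_co.U.U23
import Pool.Agent.Lib.MP_ba95e8_co.U.U24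
import Pool.Agent.Lib.MP_ba95e8_co.U.U25
import Pool.Agent.Lib.MP_ba95e8_co.U.U26
import Pool.Agent.Lib.MP_ba95e8_co.U.U27
import Pool.Agent.Lib.MP_ba95e8_co.U.U28
import Pool.Agent.Lib.MP_ba95e8_co.U.U29
import Pool.Agent.Lib.MP_ba95e8_co.U.U30
import Pool.Agent.Lib.MP_ba95e8_co.U.U31
import Pool.Agent.Lib.MP_ba95e8_co.U.U32
import Pool.Agent.Lib.MP_ba95e8_co.U.U33
import Pool.Agent.Lib.MP_ba95e8_co.U.U34
import Pool.Agent.Lib.MP_ba95e8_co.U.U35
import Pool.Agent.Lib.MP_ba95e8_co.U.U36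
import Pool.Agent.Lib.MP_ba95e8_co.U.U37
import Pool.Agent.Lib.MP_ba95e8_co.U.U38
import Pool.Agent.Lib.MP_ba95e8_co.U.U39
import Pool.Agent.Lib.MP_ba95e8_co.U.U40
import Pool.Agent.Lib.MP_ba95e8_co.U.U41
import Pool.Agent.Lib.MP_ba95e8_co.U.U42
import Pool.Agent.Lib.MP_ba95e8_co.U.U43
import Pool.Agent.Lib.MP_ba95e8_co.U.U44
import Pool.Agent.Lib.MP_ba95e8_co.U.U45
import Pool.Agent.Lib.MP_ba95e8_co.U.U46
import Pool.Agent.Lib.MP_ba95e8_co.U.U47
import Pool.Agent.Lib.MP_ba95e8_co.U.U48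
import Pool.Agent.Lib.MP_ba95e8_co.U.U49
import Pool.Agent.Lib.MP_ba95e8_co.Check
import Pool.Agent.Lib.MP_ba95e8_co.Init
import Pool.Agent.Lib.MP_ba95e8_co.Fin
import Pool.Agent.Lib.MP_ba95e8_co.DomeModelEx

/-!
Deltahedral domes: the case analysis put together.
-/

namespace Pool.Agent.Lib.MP_ba95e8_co
namespace Chk

variable (M : DomeModel)

theorem bf1 : Bad M.toModel f1 := bad_of_final M (Or.inl (by decide +kernel))

theorem bf2 : Bad M.toModel f2 := bad_of_final M (Or.inr (Or.inl (by decide +kernel)))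

theorem bf3 : Bad M.toModel f3 := bad_of_final M (Or.inr (Or.inr (by decide +kernel)))

theorem b49 : Bad M.toModel s49 := by
  refine node_sound _ ?_ c49 _ _ _ _ _ _ t49
  simp

theorem b48 : Bad M.toModel s48 := by
  refine node_sound _ ?_ c48 _ _ _ _ _ _ t48
  simp

theorem b47 : Bad M.toModel s47 := by
  refine node_sound _ ?_ c47 _ _ _ _ _ _ t47
  simp

theorem b46 : Bad M.toModel s46 := by
  refine node_sound _ ?_ c46 _ _ _ _ _ _ t46
  simp

theorem b45 : Bad M.toModel s45 := by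
  refine node_sound _ ?_ c45 _ _ _ _ _ _ t45
  simp only [List.forall_mem_cons, List.not_mem_nil, false_imp_iff, implies_true, and_true]
  exact b46 M

theorem b44 : Bad M.toModel s44 := by
  refine node_sound _ ?_ c44 _ _ _ _ _ _ t44
  simp

theorem b43 : Bad M.toModel s43 := by
  refine node_sound _ ?_ c43 _ _ _ _ _ _ t43
  simp

theorem b42 : Bad M.toModel s42 := by
  refine node_sound _ ?_ c42 _ _ _ _ _ _ t42
  simp

theorem b41 : Bad M.toModel s41 := by
  refine node_sound _ ?_ c41 _ _ _ _ _ _ t41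
  simp only [List.forall_mem_cons, List.not_mem_nil, false_imp_iff, implies_true, and_true]
  exact b42 M

theorem b40 : Bad M.toModel s40 := by
  refine node_sound _ ?_ c40 _ _ _ _ _ _ t40
  simp only [List.forall_mem_cons, List.not_mem_nil, false_imp_iff, implies_true, and_true]
  exact ⟨b41 M, b43 M, b44 M⟩

theorem b39 : Bad M.toModel s39 := by
  refine node_sound _ ?_ c39 _ _ _ _ _ _ t39
  simp

theorem b38 : Bad M.toModel s38 := by
  refine node_sound _ ?_ c38 _ _ _ _ _ _ t38
  simp only [List.forall_mem_cons, List.not_mem_nil, false_imp_iff, implies_true, and_true]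
  exact b39 M

theorem b37 : Bad M.toModel s37 := by
  refine node_sound _ ?_ c37 _ _ _ _ _ _ t37
  simp

theorem b36 : Bad M.toModel s36 := by
  refine node_sound _ ?_ c36 _ _ _ _ _ _ t36
  simp only [List.forall_mem_cons, List.not_mem_nil, false_imp_iff, implies_true, and_true]
  exact ⟨b37 M, bf3 M⟩

theorem b35 : Bad M.toModel s35 := by
  refine node_sound _ ?_ c35 _ _ _ _ _ _ t35
  simp only [List.forall_mem_cons, List.not_mem_nil, false_imp_iff, implies_true, and_true]
  exact ⟨bf1 M, bf2 M⟩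

theorem b34 : Bad M.toModel s34 := by
  refine node_sound _ ?_ c34 _ _ _ _ _ _ t34
  simp only [List.forall_mem_cons, List.not_mem_nil, false_imp_iff, implies_true, and_true]
  exact b35 M

theorem b33 : Bad M.toModel s33 := by
  refine node_sound _ ?_ c33 _ _ _ _ _ _ t33
  simp only [List.forall_mem_cons, List.not_mem_nil, false_imp_iff, implies_true, and_true]
  exact ⟨b34 M, b36 M⟩

theorem b32 : Bad M.toModel s32 := by
  refine node_sound _ ?_ c32 _ _ _ _ _ _ t32
  simp

theorem b31 : Bad M.toModel s31 := by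
  refine node_sound _ ?_ c31 _ _ _ _ _ _ t31
  simp only [List.forall_mem_cons, List.not_mem_nil, false_imp_iff, implies_true, and_true]
  exact b32 M

theorem b30 : Bad M.toModel s30 := by
  refine node_sound _ ?_ c30 _ _ _ _ _ _ t30
  simp only [List.forall_mem_cons, List.not_mem_nil, false_imp_iff, implies_true, and_true]
  exact b31 M

theorem b29 : Bad M.toModel s29 := by
  refine node_sound _ ?_ c29 _ _ _ _ _ _ t29
  simp only [List.forall_mem_cons, List.not_mem_nil, false_imp_iff, implies_true, and_true]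
  exact b30 M

theorem b28 : Bad M.toModel s28 := by
  refine node_sound _ ?_ c28 _ _ _ _ _ _ t28
  simp

theorem b27 : Bad M.toModel s27 := by
  refine node_sound _ ?_ c27 _ _ _ _ _ _ t27
  simp

theorem b26 : Bad M.toModel s26 := by
  refine node_sound _ ?_ c26 _ _ _ _ _ _ t26
  simp only [List.forall_mem_cons, List.not_mem_nil, false_imp_iff, implies_true, and_true]
  exact ⟨b27 M, b28 M⟩

theorem b25 : Bad M.toModel s25 := by
  refine node_sound _ ?_ c25 _ _ _ _ _ _ t25
  simp only [List.forall_mem_cons, List.not_mem_nil, false_imp_iff, implies_true, and_true]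
  exact b26 M

theorem b24 : Bad M.toModel s24 := by
  refine node_sound _ ?_ c24 _ _ _ _ _ _ t24
  simp only [List.forall_mem_cons, List.not_mem_nil, false_imp_iff, implies_true, and_true]
  exact b25 M

theorem b23 : Bad M.toModel s23 := by
  refine node_sound _ ?_ c23 _ _ _ _ _ _ t23
  simp

theorem b22 : Bad M.toModel s22 := by
  refine node_sound _ ?_ c22 _ _ _ _ _ _ t22
  simp

theorem b21 : Bad M.toModel s21 := by
  refine node_sound _ ?_ c21 _ _ _ _ _ _ t21
  simp

theorem b20 : Bad M.toModel s20 := by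
  refine node_sound _ ?_ c20 _ _ _ _ _ _ t20
  simp

theorem b19 : Bad M.toModel s19 := by
  refine node_sound _ ?_ c19 _ _ _ _ _ _ t19
  simp only [List.forall_mem_cons, List.not_mem_nil, false_imp_iff, implies_true, and_true]
  exact b20 M

theorem b18 : Bad M.toModel s18 := by
  refine node_sound _ ?_ c18 _ _ _ _ _ _ t18
  simp

theorem b17 : Bad M.toModel s17 := by
  refine node_sound _ ?_ c17 _ _ _ _ _ _ t17
  simp

theorem b16 : Bad M.toModel s16 := by
  refine node_sound _ ?_ c16 _ _ _ _ _ _ t16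
  simp

theorem b15 : Bad M.toModel s15 := by
  refine node_sound _ ?_ c15 _ _ _ _ _ _ t15
  simp

theorem b14 : Bad M.toModel s14 := by
  refine node_sound _ ?_ c14 _ _ _ _ _ _ t14
  simp only [List.forall_mem_cons, List.not_mem_nil, false_imp_iff, implies_true, and_true]
  exact b15 M

theorem b13 : Bad M.toModel s13 := by
  refine node_sound _ ?_ c13 _ _ _ _ _ _ t13
  simp

theorem b12 : Bad M.toModel s12 := by
  refine node_sound _ ?_ c12 _ _ _ _ _ _ t12
  simp

theorem b11 : Bad M.toModel s11 := by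
  refine node_sound _ ?_ c11 _ _ _ _ _ _ t11
  simp

theorem b10 : Bad M.toModel s10 := by
  refine node_sound _ ?_ c10 _ _ _ _ _ _ t10
  simp

theorem b9 : Bad M.toModel s9 := by
  refine node_sound _ ?_ c9 _ _ _ _ _ _ t9
  simp

theorem b8 : Bad M.toModel s8 := by
  refine node_sound _ ?_ c8 _ _ _ _ _ _ t8
  simp

theorem b7 : Bad M.toModel s7 := by
  refine node_sound _ ?_ c7 _ _ _ _ _ _ t7
  simp only [List.forall_mem_cons, List.not_mem_nil, false_imp_iff, implies_true, and_true]
  exact b8 M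

theorem b6 : Bad M.toModel s6 := by
  refine node_sound _ ?_ c6 _ _ _ _ _ _ t6
  simp only [List.forall_mem_cons, List.not_mem_nil, false_imp_iff, implies_true, and_true]
  exact b7 M

theorem b5 : Bad M.toModel s5 := by
  refine node_sound _ ?_ c5 _ _ _ _ _ _ t5
  simp

theorem b4 : Bad M.toModel s4 := by
  refine node_sound _ ?_ c4 _ _ _ _ _ _ t4
  simp only [List.forall_mem_cons, List.not_mem_nil, false_imp_iff, implies_true, and_true]
  exact b5 M

theorem b3 : Bad M.toModel s3 := by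
  refine node_sound _ ?_ c3 _ _ _ _ _ _ t3
  simp only [List.forall_mem_cons, List.not_mem_nil, false_imp_iff, implies_true, and_true]
  exact ⟨b4 M, b6 M, b9 M, b10 M, b11 M⟩

theorem b2 : Bad M.toModel s2 := by
  refine node_sound _ ?_ c2 _ _ _ _ _ _ t2
  simp only [List.forall_mem_cons, List.not_mem_nil, false_imp_iff, implies_true, and_true]
  exact ⟨b3 M, b12 M, b13 M⟩

theorem b1 : Bad M.toModel s1 := by
  refine node_sound _ ?_ c1 _ _ _ _ _ _ t1
  simp only [List.forall_mem_cons, List.not_mem_nil, false_imp_iff, implies_true, and_true]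
  exact ⟨b2 M, b14 M, b16 M, b17 M, b18 M, b19 M, b21 M, b22 M, b23 M⟩

theorem b0 : Bad M.toModel s0 := by
  refine node_sound _ ?_ c0 _ _ _ _ _ _ t0
  simp only [List.forall_mem_cons, List.not_mem_nil, false_imp_iff, implies_true, and_true]
  exact ⟨b1 M, b24 M, b29 M, b33 M, b38 M, b40 M, b45 M, b47 M, b48 M, b49 M⟩

theorem s0_eq : s0 = init := rfl

/-- there is no dome over a triangle that is not equilateral -/
theorem no_dome {K : Set E3} {b : ℕ → E3} (h : Dome K b) : False :=
  b0 h.model h.model.b (init_inv h.model.toModel)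

end Chk
end Pool.Agent.Lib.MP_ba95e8_co
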