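import Pool.Agent.Lib.MP_ba95e8_co.Basic

/-!
Deltahedral domes: the polygon / facet predicates used in the proof.
-/

namespace Pool.Agent.Lib.MP_ba95e8_co

open scoped RealInnerProductSpace

/-- `p : ℤ → E3` (period `m`) is a strictly convex polygon in a plane with normal `n`, listed
counterclockwise as seen from the side to which `n` points. -/
structure IsPoly (n : E3) (m : ℕ) (p : ℤ → E3) : Prop where
  three : 3 ≤ m
  per : ∀ i, p (i + m) = p i
  plane : ∀ i, ⟪n, p i⟫ = ⟪n, p 0⟫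
  cvx : ∀ i j : ℤ, i + 1 < j → j < i + m → 0 < det3 n (p (i + 1) - p i) (p j - p i)

/-- `p` lists the vertices of a facet of `K` with unit outward normal `n`. -/
structure Fc (K : Set E3) (n : E3) (m : ℕ) (p : ℤ → E3) : Prop where
  unit : ‖n‖ = 1
  poly : IsPoly n m p
  le : ∀ x ∈ K, ⟪n, x⟫ ≤ ⟪n, p 0⟫
  eq : {x | x ∈ K ∧ ⟪n, x⟫ = ⟪n, p 0⟫} = convexHull ℝ (Set.range p)

/-- every face of `K` is a facet listed by some polygon -/
def AllFc (K : Set E3) : Prop :=
  ∀ F : Set E3, IsFace K F → ∃ n m p, Fc K n m p ∧ F = convexHull ℝ (Set.range p)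

/-- the six directions of a unit triangular lattice in a plane with unit normal `n`, listed
counterclockwise -/
structure IsDir (n : E3) (D : ℤ → E3) : Prop where
  norm : ∀ k, ‖D k‖ = 1
  orth : ∀ k, ⟪n, D k⟫ = 0
  inner : ∀ k, ⟪D k, D (k + 1)⟫ = 1 / 2
  rec' : ∀ k, D (k + 2) = D (k + 1) - D k
  opp : ∀ k, D (k + 3) = - D k
  det : ∀ k, det3 n (D k) (D (k + 1)) = √3 / 2

/-- a possibly degenerate lattice hexagon -/
structure IsHex (n : E3) (D q : ℤ → E3) (l : ℤ → ℝ) : Prop where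
  dir : IsDir n D
  perq : ∀ k, q (k + 6) = q k
  perl : ∀ k, l (k + 6) = l k
  nonneg : ∀ k, 0 ≤ l k
  step : ∀ k, q (k + 1) = q k + l k • D k

/-- the polygon `p` has sides along lattice directions; the corner at `p i` has 60 degrees if
`c i = 1` and 120 degrees if `c i = 2` -/
def IsCoded (n : E3) (m : ℕ) (p : ℤ → E3) (c : ℤ → ℕ) : Prop :=
  ∃ (D : ℤ → E3) (k : ℤ → ℤ), IsDir n D ∧ (∀ i, c (i + m) = c i) ∧ (∀ i, c i = 1 ∨ c i = 2) ∧
    (∀ i, p (i + 1) - p i = dist (p i) (p (i + 1)) • D (k i)) ∧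
    (∀ i, k (i + 1) = k i + (3 - (c (i + 1) : ℤ))) ∧ (∀ i, k (i + m) = k i + 6)

end Pool.Agent.Lib.MP_ba95e8_co
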