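import Pool.Agent.Lib.MP_ba95e8_co.FacetA

/-!
Deltahedral domes, task F4: the ring of facets at a vertex.
-/

namespace Pool.Agent.Lib.MP_ba95e8_co

open scoped RealInnerProductSpace

/-- unit vector from `v` to `w` -/
noncomputable def dirTo (v w : E3) : E3 := (dist v w)⁻¹ • (w - v)

/-- `n` pairs with `x` as the determinant, up to a positive factor -/
lemma Fc.normal_det {K : Set E3} {n : E3} {m : ℕ} {p : ℤ → E3} (h : Fc K n m p) :
    ∃ c : ℝ, 0 < c ∧ ∀ x, ⟪n, x⟫ = c * det3 (p 1 - p 0) (p (-1) - p 0) x := by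
  have hno := h.normal 0
  simp only [zero_add, zero_sub] at hno
  refine ⟨(‖cr (p 1 - p 0) (p (-1) - p 0)‖)⁻¹, ?_, fun x => ?_⟩
  · have h0 : cr (p 1 - p 0) (p (-1) - p 0) ≠ 0 := by
      intro h0
      rw [h0] at hno
      simp at hno
      exact h.nne hno
    have := norm_pos_iff.mpr h0
    positivity
  · conv_lhs => rw [hno]
    rw [real_inner_smul_left, inner_cr]

lemma IsPoly.ne_of {n : E3} {m : ℕ} {p : ℤ → E3} (h : IsPoly n m p) :
    p 1 ≠ p 0 ∧ p (-1) ≠ p 0 ∧ p 1 ≠ p (-1) := by
  have h3 := h.three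
  refine ⟨?_, ?_, ?_⟩
  · intro h1
    rw [h.inj] at h1
    have := Int.eq_zero_of_abs_lt_dvd h1 (by simp; omega)
    omega
  · intro h1
    rw [h.inj] at h1
    have := Int.eq_zero_of_abs_lt_dvd h1 (by simp; omega)
    omega
  · intro h1
    rw [h.inj] at h1
    have := Int.eq_zero_of_abs_lt_dvd h1 (by norm_num; omega)
    omega

/-- a facet with a marked vertex `v`, put at index `0` -/
structure Corner (K : Set E3) (v : E3) where
  n : E3
  m : ℕ
  p : ℤ → E3
  fc : Fc K n m p
  h0 : p 0 = v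

namespace Corner

variable {K : Set E3} {v : E3}

lemma ext1 (hint : (interior K).Nonempty) {c c' : Corner K v} (h : c.p 1 = c'.p 1) : c = c' := by
  obtain ⟨h1, h2, h3⟩ := Fc.uniq hint c.fc c'.fc (c.h0.trans c'.h0.symm) h
  cases c; cases c'
  simp only at h1 h2 h3
  subst h1 h2 h3
  rfl

lemma ext2 (hint : (interior K).Nonempty) {c c' : Corner K v} (h : c.p (-1) = c'.p (-1)) :
    c = c' := by
  obtain ⟨h1, h2, h3⟩ := Fc.uniq hint (c.fc.shift (-1)) (c'.fc.shift (-1)) (by simpa using h)
    (by simpa using c.h0.trans c'.h0.symm)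
  have h4 : c.p = c'.p := by
    ext1 i
    have := congrFun h3 (i + 1)
    simpa using this
  cases c; cases c'
  simp only at h1 h2 h4
  subst h1 h2 h4
  rfl

end Corner

lemma det_dirTo {v a b c : E3} (ha : a ≠ v) (hb : b ≠ v) (hc : c ≠ v)
    (h : 0 < det3 (a - v) (b - v) (c - v)) : 0 < det3 (dirTo v a) (dirTo v b) (dirTo v c) := by
  unfold dirTo
  rw [det3_smul_left, det3_smul_mid, det3_smul_right]
  have h1 : 0 < dist v a := dist_pos.mpr ha.symm
  have h2 : 0 < dist v b := dist_pos.mpr hb.symm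
  have h3 : 0 < dist v c := dist_pos.mpr hc.symm
  positivity

/-- the ring of facets at a vertex `p 0`: the facets `P i` (period `k`) with
`P i 0 = p 0`, preceding vertex `w i` and following vertex `w (i + 1)` -/
theorem Fc.ring {S : Set E3} (hS : S.Finite) (hint : (interior (convexHull ℝ S)).Nonempty)
    (hall : AllFc (convexHull ℝ S)) {n : E3} {m : ℕ} {p : ℤ → E3}
    (h : Fc (convexHull ℝ S) n m p) :
    ∃ (k : ℕ) (w : ℤ → E3) (N : ℤ → E3) (M : ℤ → ℕ) (P : ℤ → ℤ → E3), 3 ≤ k ∧
      (∀ i, w (i + k) = w i) ∧ (∀ i, P (i + k) = P i) ∧ (∀ i, N (i + k) = N i) ∧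
      (∀ i, M (i + k) = M i) ∧
      (∀ i j, w i = w j → (k : ℤ) ∣ j - i) ∧
      (∀ i, Fc (convexHull ℝ S) (N i) (M i) (P i) ∧ P i 0 = p 0 ∧ P i (-1) = w i ∧
        P i 1 = w (i + 1)) ∧
      (∀ n' m' p', Fc (convexHull ℝ S) n' m' p' → p' 0 = p 0 →
        ∃ i, n' = N i ∧ m' = M i ∧ p' = P i) ∧
      (∀ i j : ℤ, i + 1 < j → j < i + k →
        0 < det3 (dirTo (p 0) (w i)) (dirTo (p 0) (w (i + 1))) (dirTo (p 0) (w j))) := by
  set K := convexHull ℝ S with hK
  set v := p 0 with hv
  -- the corners at `v`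
  have hfin : Finite (Corner K v) := by
    have hSf : Finite S := hS
    have hmem : ∀ c : Corner K v, c.p 1 ∈ S := fun c =>
      extremePoints_convexHull_subset (c.fc.extreme 1)
    refine Finite.of_injective (fun c : Corner K v => (⟨c.p 1, hmem c⟩ : S)) ?_
    intro c c' hcc
    exact Corner.ext1 hint (congrArg Subtype.val hcc)
  have hnx : ∀ c : Corner K v, ∃ c' : Corner K v, c'.p (-1) = c.p 1 := by
    intro c
    obtain ⟨n', m', p', hf, h0, h1⟩ := Fc.opp hS hint hall c.fc
    refine ⟨⟨n', m', fun i => p' (i + 1), hf.shift 1, ?_⟩, ?_⟩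
    · simp [h1, c.h0]
    · simp [h0]
  choose nx hnx using hnx
  have hnxinj : Function.Injective nx := by
    intro c c' hcc
    apply Corner.ext1 hint
    rw [← hnx c, ← hnx c', hcc]
  have hbij : Function.Bijective nx := Finite.injective_iff_bijective.mp hnxinj
  let σ : Equiv.Perm (Corner K v) := Equiv.ofBijective nx hbij
  have hσ : ∀ c, σ c = nx c := fun c => rfl
  let c0 : Corner K v := ⟨n, m, p, h, rfl⟩
  let c : ℤ → Corner K v := fun i => (σ ^ i) c0
  have hc0 : c 0 = c0 := by simp [c]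
  have hcs : ∀ i, c (i + 1) = nx (c i) := by
    intro i
    simp only [c]
    rw [add_comm, zpow_one_add, Equiv.Perm.mul_apply, hσ]
  have hcp : ∀ i, (c i).p 1 = (c (i + 1)).p (-1) := by
    intro i; rw [hcs, hnx]
  let k : ℕ := MulAction.period σ c0
  have hkpos : 0 < k := by
    apply MulAction.period_pos_of_orderOf_pos
    exact orderOf_pos σ
  have hceq : ∀ i j, c i = c j ↔ (k : ℤ) ∣ j - i := by
    intro i j
    have h1 : c i = c j ↔ σ ^ (j - i) • c0 = c0 := by
      simp only [c]
      rw [Equiv.Perm.smul_def, sub_eq_neg_add, zpow_add, Equiv.Perm.mul_apply, zpow_neg,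
        Equiv.Perm.inv_eq_iff_eq]
      exact ⟨fun h => h.symm, fun h => h.symm⟩
    rw [h1]
    exact MulAction.zpow_smul_eq_iff_period_dvd
  have hck : ∀ i, c (i + k) = c i := by
    intro i
    rw [eq_comm, hceq]
    simp
  let w : ℤ → E3 := fun i => (c i).p (-1)
  have hw1 : ∀ i, (c i).p 1 = w (i + 1) := hcp
  have hwk : ∀ i, w (i + k) = w i := fun i => by simp only [w, hck]
  have hwinj : ∀ i j, w i = w j ↔ (k : ℤ) ∣ j - i := by
    intro i j
    rw [← hceq]
    constructor
    · intro hij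
      exact Corner.ext2 hint hij
    · intro hij
      simp only [w, hij]
  have hwv : ∀ i, w i ≠ v := by
    intro i
    have := (c i).fc.poly.ne_of.2.1
    rwa [(c i).h0] at this
  have hwS : ∀ i, w i ∈ Set.extremePoints ℝ K := fun i => (c i).fc.extreme (-1)
  have hwK : ∀ i, w i ∈ K := fun i => (hwS i).1
  have hvK : v ∈ K := h.mem 0
  -- the normals as determinants
  have hdet : ∀ i, ∃ t : ℝ, 0 < t ∧ ∀ x, ⟪(c i).n, x⟫ = t * det3 (w (i + 1) - v) (w i - v) x := by
    intro i
    obtain ⟨t, ht, hx⟩ := (c i).fc.normal_det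
    refine ⟨t, ht, fun x => ?_⟩
    rw [hx, hw1, (c i).h0]
  have hle : ∀ i, ∀ x ∈ K, 0 ≤ det3 (w i - v) (w (i + 1) - v) (x - v) := by
    intro i x hx
    obtain ⟨t, ht, hdt⟩ := hdet i
    have h1 := (c i).fc.le x hx
    rw [(c i).h0] at h1
    have h2 : ⟪(c i).n, x - v⟫ ≤ 0 := by rw [inner_sub_right]; linarith
    rw [hdt, det3_swap] at h2
    have : 0 ≤ t * det3 (w i - v) (w (i + 1) - v) (x - v) := by linarith
    exact nonneg_of_mul_nonneg_right this ht
  have hk1 : k ≠ 1 := by
    intro hk1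
    have h1 : c 1 = c 0 := by
      rw [hceq, hk1]; simp
    have h2 := hw1 0
    simp only [w, zero_add, h1] at h2
    exact (c 0).fc.poly.ne_of.2.2 h2
  have hk2 : k ≠ 2 := by
    intro hk2
    have h2 : w 2 = w 0 := by
      rw [hwinj, hk2]; simp
    apply not_planar hint (n := (c 0).n) (c := ⟪(c 0).n, v⟫) (c 0).fc.nne
    intro x hx
    have h3 := hle 0 x hx
    have h4 := hle 1 x hx
    norm_num at h3 h4
    rw [h2, det3_swap] at h4
    have h5 : det3 (w 0 - v) (w 1 - v) (x - v) = 0 := le_antisymm (by linarith) h3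
    obtain ⟨t, ht, hdt⟩ := hdet 0
    have h6 : ⟪(c 0).n, x - v⟫ = 0 := by
      rw [hdt, det3_swap]; norm_num [h5]
    rw [inner_sub_right] at h6
    linarith
  have hk3 : 3 ≤ k := by omega
  -- strict positivity
  have hpos : ∀ i j : ℤ, i + 1 < j → j < i + k →
      0 < det3 (w i - v) (w (i + 1) - v) (w j - v) := by
    intro i j h1 h2
    refine lt_of_le_of_ne (hle i _ (hwK j)) ?_
    intro h0
    obtain ⟨t, ht, hdt⟩ := hdet i
    have h3 : ⟪(c i).n, w j - v⟫ = 0 := by
      rw [hdt, det3_swap, ← h0]; simp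
    rw [inner_sub_right] at h3
    obtain ⟨s, hs⟩ := (c i).fc.vertex (hwS j) (by rw [(c i).h0]; linarith)
    have hnd : ∀ l : ℤ, 0 < l → l < k → ¬ (k : ℤ) ∣ l := by
      intro l hl hlk hd
      have := Int.le_of_dvd hl hd
      omega
    rcases Fc.common hint (c i).fc (c j).fc (i := 0) (j := s) (i' := 0) (j' := -1)
      ((c i).h0.trans (c j).h0.symm) (by rw [← hs]) (by rw [(c i).h0, ← hs]; exact (hwv j).symm)
      with h4 | h4 | h4
    · -- equal normals
      obtain ⟨hm, a, ha⟩ := (c i).fc.same (h4 ▸ (c j).fc)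
      have h5 : (c i).p 0 = (c i).p (0 + a) := by
        rw [← ha 0, (c i).h0, (c j).h0]
      rw [(c i).fc.poly.inj] at h5
      obtain ⟨b, hb⟩ := h5
      have h6 : w i = w j := by
        simp only [w]
        rw [ha (-1)]
        have := (c i).fc.poly.per_mul (-1) b
        rw [← this]
        congr 1
        linarith
      rw [hwinj] at h6
      exact hnd _ (by omega) (by omega) h6
    · have h5 : w j = w (i + 1) := by
        rw [hs, h4.1, ← hw1]; simp
      rw [eq_comm, hwinj] at h5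
      exact hnd _ (by omega) (by omega) h5
    · have h5 := h4.1
      rw [(c i).fc.poly.inj] at h5
      obtain ⟨b, hb⟩ := h5
      have h6 : w i = w j := by
        rw [hs]
        simp only [w]
        have := (c i).fc.poly.per_mul (-1) b
        rw [← this]
        congr 1
        linarith
      rw [hwinj] at h6
      exact hnd _ (by omega) (by omega) h6
  -- every corner is in the ring
  have hsingle : ∀ c' : Corner K v, ∃ j, c'.p 1 = w j := by
    intro c'
    set w' := c'.p 1 with hw'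
    have hw'v : w' ≠ v := by
      have := c'.fc.poly.ne_of.1
      rwa [c'.h0] at this
    have hw'K : w' ∈ K := c'.fc.mem 1
    -- the two facets at the edge
    set c'' := nx c' with hc''
    have hc1 : c''.p (-1) = w' := hnx c'
    have hle' : ∀ x ∈ K, ⟪c'.n, x - v⟫ ≤ 0 := by
      intro x hx
      have := c'.fc.le x hx
      rw [c'.h0] at this
      rw [inner_sub_right]; linarith
    have hle'' : ∀ x ∈ K, ⟪c''.n, x - v⟫ ≤ 0 := by
      intro x hx
      have := c''.fc.le x hx
      rw [c''.h0] at this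
      rw [inner_sub_right]; linarith
    have hn0 : ⟪c'.n, w' - v⟫ = 0 := by
      have := c'.fc.poly.plane 1
      rw [c'.h0] at this
      rw [inner_sub_right, hw', this, sub_self]
    have hn1 : ⟪c''.n, w' - v⟫ = 0 := by
      have := c''.fc.poly.plane (-1)
      rw [hc1, c''.h0] at this
      rw [inner_sub_right]; linarith
    have hcrne : cr c'.n c''.n ≠ 0 := by
      intro hcr
      have h1 : ⟪cr c'.n c''.n, cr c'.n c''.n⟫ = 0 := by rw [hcr]; simp
      rw [inner_cr_cr, real_inner_self_eq_norm_sq, real_inner_self_eq_norm_sq, c'.fc.unit,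
        c''.fc.unit, real_inner_comm c'.n c''.n] at h1
      have h2 : (⟪c'.n, c''.n⟫ - 1) * (⟪c'.n, c''.n⟫ + 1) = 0 := by linarith
      rcases mul_eq_zero.mp h2 with h3 | h3
      · have h4 : c'.n = c''.n :=
          (inner_eq_one_iff_of_norm_eq_one (𝕜 := ℝ) c'.fc.unit c''.fc.unit).mp (by linarith)
        obtain ⟨hm, a, ha⟩ := c'.fc.same (h4 ▸ c''.fc)
        have h5 : c'.p 0 = c'.p (0 + a) := by
          rw [← ha 0, c'.h0, c''.h0]
        rw [c'.fc.poly.inj] at h5
        obtain ⟨b, hb⟩ := h5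
        have h6 : c'.p (-1) = c''.p (-1) := by
          rw [ha (-1)]
          have := c'.fc.poly.per_mul (-1) b
          rw [← this]
          congr 1
          linarith
        rw [hc1] at h6
        exact c'.fc.poly.ne_of.2.2 h6.symm
      · have h4 : c'.n = - c''.n := by
          refine (inner_eq_one_iff_of_norm_eq_one (𝕜 := ℝ) c'.fc.unit ?_).mp ?_
          · rw [norm_neg]; exact c''.fc.unit
          · rw [inner_neg_right]; linarith
        apply not_planar hint (n := c'.n) (c := ⟪c'.n, v⟫) c'.fc.nne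
        intro x hx
        have h5 := hle' x hx
        have h6 := hle'' x hx
        rw [h4, inner_neg_left] at h5
        have h7 : ⟪c''.n, x - v⟫ = 0 := by linarith
        have h8 : ⟪c'.n, x - v⟫ = 0 := by rw [h4, inner_neg_left, h7]; simp
        rw [inner_sub_right] at h8
        linarith
    have hseg : ∀ x ∈ K, ⟪c'.n, x - v⟫ = 0 → ⟪c''.n, x - v⟫ = 0 → x ∈ segment ℝ v w' := by
      intro x hx h1 h2
      have hxh : x ∈ convexHull ℝ (Set.range c'.p) := by
        rw [← c'.fc.eq]
        refine ⟨hx, ?_⟩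
        rw [c'.h0]
        rw [inner_sub_right] at h1
        linarith
      have h3 := (c'.fc.poly.side 0 hxh).2
      rw [zero_add, c'.h0, ← hw'] at h3
      apply h3
      have h4 := det3_mul_det3 c'.n (w' - v) (x - v) c'.n c''.n (cr c'.n c''.n)
      have e1 : ⟪w' - v, c'.n⟫ = 0 := by rw [real_inner_comm]; exact hn0
      have e2 : ⟪w' - v, c''.n⟫ = 0 := by rw [real_inner_comm]; exact hn1
      have e3 : ⟪x - v, c'.n⟫ = 0 := by rw [real_inner_comm]; exact h1
      have e4 : ⟪x - v, c''.n⟫ = 0 := by rw [real_inner_comm]; exact h2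
      rw [e1, e2, e3, e4] at h4
      have h5 : det3 c'.n c''.n (cr c'.n c''.n) ≠ 0 := by
        rw [← inner_cr, inner_self_ne_zero]
        exact hcrne
      have h6 : det3 c'.n (w' - v) (x - v) * det3 c'.n c''.n (cr c'.n c''.n) = 0 := by
        rw [h4]; ring
      exact (mul_eq_zero.mp h6).resolve_right h5
    -- the key step
    have hkey : ∀ j, ⟪c'.n + c''.n, w j - v⟫ = 0 → w' = w j := by
      intro j hj
      rw [inner_add_left] at hj
      have h1 := hle' _ (hwK j)
      have h2 := hle'' _ (hwK j)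
      have h3 := hseg _ (hwK j) (by linarith) (by linarith)
      have h4 := (mem_extremePoints_iff_left.mp (hwS j))
      by_contra hne
      rw [segment_eq_image_lineMap] at h3
      obtain ⟨t, ⟨ht0, ht1⟩, ht⟩ := h3
      rcases eq_or_lt_of_le ht0 with h5 | h5
      · rw [← h5, AffineMap.lineMap_apply_zero] at ht
        exact hwv j ht.symm
      rcases eq_or_lt_of_le ht1 with h6 | h6
      · rw [h6, AffineMap.lineMap_apply_one] at ht
        exact hne ht
      have h7 : w j ∈ openSegment ℝ v w' := by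
        rw [openSegment_eq_image_lineMap]
        exact ⟨t, ⟨h5, h6⟩, ht⟩
      exact hwv j (h4.2 v hvK w' hw'K h7).symm
    -- sign change
    have hs1 : 0 ≤ det3 (w 0 - v) (w 1 - v) (w' - v) := by
      have := hle 0 w' hw'K
      simpa using this
    have hsk : det3 (w 0 - v) (w ((k : ℤ) - 1) - v) (w' - v) ≤ 0 := by
      have h1 := hle ((k : ℤ) - 1) w' hw'K
      rw [sub_add_cancel] at h1
      have h2 : w (k : ℤ) = w 0 := by have := hwk 0; simpa using this
      rw [h2, det3_swap] at h1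
      linarith
    obtain ⟨i, hi1, hi2, hi3, hi4⟩ : ∃ i : ℕ, 1 ≤ i ∧ i + 2 ≤ k ∧
        0 ≤ det3 (w 0 - v) (w i - v) (w' - v) ∧
        det3 (w 0 - v) (w ((i : ℤ) + 1) - v) (w' - v) ≤ 0 := by
      by_contra hcon
      push Not at hcon
      have hall' : ∀ i : ℕ, 1 ≤ i → i + 1 ≤ k → 0 ≤ det3 (w 0 - v) (w i - v) (w' - v) := by
        intro i hi
        induction i, hi using Nat.le_induction with
        | base => intro _; simpa using hs1
        | succ i hi ih =>
          intro hik
          have := hcon i hi (by omega) (ih (by omega))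
          push_cast
          exact this.le
      have h1 := hcon (k - 2) (by omega) (by omega) (hall' (k - 2) (by omega) (by omega))
      have h2 : (((k - 2 : ℕ) : ℤ) + 1) = (k : ℤ) - 1 := by omega
      rw [h2] at h1
      linarith
    have hD : 0 < det3 (w 0 - v) (w i - v) (w ((i : ℤ) + 1) - v) := by
      have h1 := hpos (i : ℤ) (k : ℤ) (by omega) (by omega)
      have h2 : w (k : ℤ) = w 0 := by have := hwk 0; simpa using this
      rw [h2, det3_rot] at h1
      exact h1
    have hcr := cramer (w 0 - v) (w i - v) (w ((i : ℤ) + 1) - v) (w' - v)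
    set α := det3 (w' - v) (w i - v) (w ((i : ℤ) + 1) - v) with hα
    set β := det3 (w 0 - v) (w' - v) (w ((i : ℤ) + 1) - v) with hβ
    set γ := det3 (w 0 - v) (w i - v) (w' - v) with hγ
    have hα0 : 0 ≤ α := by
      rw [hα, ← det3_rot]
      exact hle i w' hw'K
    have hβ0 : 0 ≤ β := by
      rw [hβ, det3_swap']
      linarith
    have hf0 : ⟪c'.n + c''.n, w' - v⟫ = 0 := by
      rw [inner_add_left, hn0, hn1]; simp
    have hfle : ∀ j, ⟪c'.n + c''.n, w j - v⟫ ≤ 0 := by
      intro j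
      rw [inner_add_left]
      have := hle' _ (hwK j)
      have := hle'' _ (hwK j)
      linarith
    have hsum : α * ⟪c'.n + c''.n, w 0 - v⟫ + β * ⟪c'.n + c''.n, w i - v⟫
        + γ * ⟪c'.n + c''.n, w ((i : ℤ) + 1) - v⟫ = 0 := by
      have := congrArg (fun x => ⟪c'.n + c''.n, x⟫) hcr
      simp only [inner_add_right, inner_smul_right, hf0, mul_zero] at this ⊢
      linarith
    have hA : α * ⟪c'.n + c''.n, w 0 - v⟫ ≤ 0 := mul_nonpos_of_nonneg_of_nonpos hα0 (hfle 0)
    have hB : β * ⟪c'.n + c''.n, w i - v⟫ ≤ 0 := mul_nonpos_of_nonneg_of_nonpos hβ0 (hfle i)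
    have hC : γ * ⟪c'.n + c''.n, w ((i : ℤ) + 1) - v⟫ ≤ 0 :=
      mul_nonpos_of_nonneg_of_nonpos hi3 (hfle _)
    have hA' : α * ⟪c'.n + c''.n, w 0 - v⟫ = 0 := by linarith
    have hB' : β * ⟪c'.n + c''.n, w i - v⟫ = 0 := by linarith
    have hC' : γ * ⟪c'.n + c''.n, w ((i : ℤ) + 1) - v⟫ = 0 := by linarith
    rcases mul_eq_zero.mp hA' with hA2 | hA2
    · rcases mul_eq_zero.mp hB' with hB2 | hB2
      · rcases mul_eq_zero.mp hC' with hC2 | hC2
        · exfalso
          rw [hA2, hB2, hC2] at hcr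
          simp only [zero_smul, add_zero] at hcr
          rcases smul_eq_zero.mp hcr with h1 | h1
          · exact hD.ne' h1
          · exact hw'v (sub_eq_zero.mp h1)
        · exact ⟨_, hkey _ hC2⟩
      · exact ⟨_, hkey _ hB2⟩
    · exact ⟨_, hkey _ hA2⟩
  refine ⟨k, w, fun i => (c i).n, fun i => (c i).m, fun i => (c i).p, hk3, hwk, ?_, ?_, ?_, ?_,
    ?_, ?_, ?_⟩
  · intro i; simp only [hck]
  · intro i; simp only [hck]
  · intro i; simp only [hck]
  · intro i j hij; exact (hwinj i j).mp hij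
  · intro i
    exact ⟨(c i).fc, (c i).h0, rfl, hw1 i⟩
  · intro n' m' p' hf h0
    obtain ⟨j, hj⟩ := hsingle ⟨n', m', p', hf, h0⟩
    have h1 : (⟨n', m', p', hf, h0⟩ : Corner K v) = c (j - 1) := by
      apply Corner.ext1 hint
      rw [hj, hw1]; simp
    refine ⟨j - 1, ?_, ?_, ?_⟩
    · show n' = (c (j - 1)).n
      rw [← h1]
    · show m' = (c (j - 1)).m
      rw [← h1]
    · show p' = (c (j - 1)).p
      rw [← h1]
  · intro i j h1 h2
    exact det_dirTo (hwv i) (hwv (i + 1)) (hwv j) (hpos i j h1 h2)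

end Pool.Agent.Lib.MP_ba95e8_co
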