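import Pool.Agent.Lib.MP_ba95e8_co.Model
import Pool.Agent.Lib.MP_ba95e8_co.Ring

/-!
Deltahedral domes: the geometric data of a dome and its faces as coded cyclic lists.
-/

namespace Pool.Agent.Lib.MP_ba95e8_co

open scoped RealInnerProductSpace

/-- geometric data of a dome `K` over the triangle `b 0, b 1, b 2`, with the base listed as
`b 2, b 1, b 0` and sides ordered as in the search -/
structure Dome (K : Set E3) (b : ℕ → E3) : Prop where
  fin : ∃ S : Set E3, S.Finite ∧ K = convexHull ℝ S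
  int : (interior K).Nonempty
  all : AllFc K
  base : ∃ n p, Fc K n 3 p ∧ p 0 = b 2 ∧ p 1 = b 1 ∧ p 2 = b 0
  coded : ∀ n m p, Fc K n m p → convexHull ℝ (Set.range p) ≠ convexHull ℝ {b 0, b 1, b 2} →
    ∃ c, IsCoded n m p c
  len1 : dist (b 1) (b 2) < dist (b 0) (b 1) + dist (b 0) (b 2)
  len2 : dist (b 0) (b 1) ≤ dist (b 1) (b 2)
  len3 : dist (b 0) (b 2) ≤ dist (b 0) (b 1)
  len4 : dist (b 0) (b 2) < dist (b 1) (b 2)

/-- the faces of `K` as lists of vertices and codes, counterclockwise -/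
def faceRel (K : Set E3) (b : ℕ → E3) (l : List (E3 × ℕ)) : Prop :=
  ∃ (n : E3) (m : ℕ) (p : ℤ → E3) (c : ℤ → ℕ), Fc K n m p ∧
    ((IsCoded n m p c ∧ convexHull ℝ (Set.range p) ≠ convexHull ℝ {b 0, b 1, b 2}) ∨
      (convexHull ℝ (Set.range p) = convexHull ℝ {b 0, b 1, b 2} ∧ ∀ i, c i = 0)) ∧
    l = (List.range m).map (fun i : ℕ => (p i, c i))

/-- the class of the edge `v w`: class of minus the inner product of the two unit normals -/
noncomputable def edgeClass (K : Set E3) (v w : E3) : ℕ := by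
  classical
  exact if h : ∃ κ : ℝ, ∃ n m p n' m' p', Fc K n m p ∧ Fc K n' m' p' ∧ p 0 = v ∧ p 1 = w ∧
    p' 0 = w ∧ p' 1 = v ∧ κ = - ⟪n, n'⟫ then classOf h.choose else 0

/-- the sides of a face have the directions prescribed by the codes -/
def StepAux (D : ℤ → E3) (f : E3) : List (E3 × ℕ) → ℤ → Prop
  | [], _ => True
  | [x], k => f - x.1 = dist x.1 f • D k
  | x :: y :: r, k => y.1 - x.1 = dist x.1 y.1 • D k ∧ StepAux D f (y :: r) (k + (3 - (y.2 : ℤ)))

/-- combinatorial model with positions -/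
structure DomeModel extends Model E3 where
  len_eq : ∀ v w, len v w = dist v w
  geo : ∀ x l, face (x :: l) → (x :: l).map Prod.snd ≠ [0, 0, 0] →
    ∃ n D, ‖n‖ = 1 ∧ IsDir n D ∧ StepAux D x.1 (x :: l) 0
  cvx : ∀ u v w r, face (u :: v :: w :: r) → ∀ l' x, face l' → x ∈ l'.map Prod.fst →
    x ∉ (u :: v :: w :: r).map Prod.fst → 0 < det3 (u.1 - v.1) (w.1 - v.1) (x - v.1)

end Pool.Agent.Lib.MP_ba95e8_co
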