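import Pool.Agent.Lib.MP_ba95e8_co.Defs

/-!
Deltahedral domes, task PS1: a convex polyiamond is a possibly degenerate lattice hexagon.
-/

set_option autoImplicit false

namespace Pool.Agent.Lib.MP_ba95e8_co

open scoped RealInnerProductSpace

namespace Hex

/-- linear independence -/
def Ind (u v : E3) : Prop := ∀ a b : ℝ, a • u + b • v = 0 → a = 0 ∧ b = 0

theorem convex_up (o u v : E3) (i j k : ℝ) :
    Convex ℝ {z : E3 | ∃ x y : ℝ, z = o + x • u + y • v ∧ i ≤ x ∧ j ≤ y ∧ x + y ≤ k} := by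
  rintro z1 ⟨x1, y1, rfl, h1, h2, h3⟩ z2 ⟨x2, y2, rfl, h4, h5, h6⟩ a b ha hb hab
  obtain rfl : a = 1 - b := by linarith
  refine ⟨(1 - b) * x1 + b * x2, (1 - b) * y1 + b * y2, by module, ?_, ?_, ?_⟩
  · nlinarith [mul_le_mul_of_nonneg_left h1 ha, mul_le_mul_of_nonneg_left h4 hb]
  · nlinarith [mul_le_mul_of_nonneg_left h2 ha, mul_le_mul_of_nonneg_left h5 hb]
  · nlinarith [mul_le_mul_of_nonneg_left h3 ha, mul_le_mul_of_nonneg_left h6 hb]

theorem convex_down (o u v : E3) (i j k : ℝ) :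
    Convex ℝ {z : E3 | ∃ x y : ℝ, z = o + x • u + y • v ∧ x ≤ i ∧ y ≤ j ∧ k ≤ x + y} := by
  rintro z1 ⟨x1, y1, rfl, h1, h2, h3⟩ z2 ⟨x2, y2, rfl, h4, h5, h6⟩ a b ha hb hab
  obtain rfl : a = 1 - b := by linarith
  refine ⟨(1 - b) * x1 + b * x2, (1 - b) * y1 + b * y2, by module, ?_, ?_, ?_⟩
  · nlinarith [mul_le_mul_of_nonneg_left h1 ha, mul_le_mul_of_nonneg_left h4 hb]
  · nlinarith [mul_le_mul_of_nonneg_left h2 ha, mul_le_mul_of_nonneg_left h5 hb]
  · nlinarith [mul_le_mul_of_nonneg_left h3 ha, mul_le_mul_of_nonneg_left h6 hb]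

theorem up_coord {o u v : E3} {i j : ℤ} {z : E3}
    (h : z ∈ convexHull ℝ {lat o u v i j, lat o u v (i + 1) j, lat o u v i (j + 1)}) :
    ∃ x y : ℝ, z = o + x • u + y • v ∧ (i : ℝ) ≤ x ∧ (j : ℝ) ≤ y ∧ x + y ≤ i + j + 1 := by
  refine convexHull_min ?_ (convex_up o u v i j (i + j + 1)) h
  rintro w (rfl | rfl | rfl)
  · exact ⟨i, j, rfl, le_rfl, le_rfl, by linarith⟩
  · exact ⟨(i + 1 : ℤ), j, rfl, by push_cast; linarith, le_rfl, by push_cast; linarith⟩
  · exact ⟨i, (j + 1 : ℤ), rfl, le_rfl, by push_cast; linarith, by push_cast; linarith⟩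

theorem down_coord {o u v : E3} {i j : ℤ} {z : E3}
    (h : z ∈ convexHull ℝ {lat o u v (i + 1) j, lat o u v i (j + 1), lat o u v (i + 1) (j + 1)}) :
    ∃ x y : ℝ, z = o + x • u + y • v ∧ x ≤ i + 1 ∧ y ≤ j + 1 ∧ (i + j + 1 : ℝ) ≤ x + y := by
  refine convexHull_min ?_ (convex_down o u v (i + 1) (j + 1) (i + j + 1)) h
  rintro w (rfl | rfl | rfl)
  · exact ⟨(i + 1 : ℤ), j, rfl, by push_cast; linarith, by linarith, by push_cast; linarith⟩
  · exact ⟨i, (j + 1 : ℤ), rfl, by linarith, by push_cast; linarith, by push_cast; linarith⟩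
  · exact ⟨(i + 1 : ℤ), (j + 1 : ℤ), rfl, by push_cast; linarith, by push_cast; linarith,
      by push_cast; linarith⟩

theorem cell_rot {o u v : E3} {T : Set E3} (h : IsCell o u v T) : IsCell o v (v - u) T := by
  have e : ∀ i j : ℤ, lat o u v i j = lat o v (v - u) (i + j) (-i) := by
    intro i j
    unfold lat
    push_cast
    module
  obtain ⟨i, j, h | h⟩ := h
  · refine ⟨i + j, -i - 1, Or.inr ?_⟩
    rw [h, e, e, e]
    have e1 : i + 1 + j = i + j + 1 := by ring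
    have e2 : i + (j + 1) = i + j + 1 := by ring
    have e3 : -(i + 1) = -i - 1 := by ring
    have e4 : -i - 1 + 1 = -i := by ring
    rw [e1, e2, e3, e4]
    congr 1
    exact Set.insert_comm _ _ _
  · refine ⟨i + j + 1, -i - 1, Or.inl ?_⟩
    rw [h, e, e, e]
    have e1 : i + 1 + j = i + j + 1 := by ring
    have e2 : i + (j + 1) = i + j + 1 := by ring
    have e3 : -(i + 1) = -i - 1 := by ring
    have e4 : -i - 1 + 1 = -i := by ring
    have e5 : i + 1 + (j + 1) = i + j + 1 + 1 := by ring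
    rw [e1, e2, e3, e4, e5]
    congr 1
    rw [Set.pair_comm (lat o v (v - u) (i + j + 1) (-i))]

theorem cell_swap {o u v : E3} {T : Set E3} (h : IsCell o u v T) : IsCell o v u T := by
  have e : ∀ i j : ℤ, lat o u v i j = lat o v u j i := by
    intro i j
    unfold lat
    module
  obtain ⟨i, j, h | h⟩ := h
  · refine ⟨j, i, Or.inl ?_⟩
    rw [h, e, e, e, Set.pair_comm]
  · refine ⟨j, i, Or.inr ?_⟩
    rw [h, e, e, e, Set.insert_comm]

theorem Ind.uniq {o u v : E3} (h : Ind u v) {a b a' b' : ℝ}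
    (he : o + a • u + b • v = o + a' • u + b' • v) : a = a' ∧ b = b' := by
  have h1 : (a - a') • u + (b - b') • v = 0 := by
    have h2 : (a - a') • u + (b - b') • v =
        (o + a • u + b • v) - (o + a' • u + b' • v) := by module
    rw [h2, he, sub_self]
  obtain ⟨h3, h4⟩ := h _ _ h1
  exact ⟨by linarith, by linarith⟩

/-- the corner between two consecutive sides -/
theorem corner {F : Set E3} (hconv : Convex ℝ F) {C : Set (Set E3)} (hCf : C.Finite)
    (hCn : C.Nonempty) (hF : F = ⋃₀ C) {o u v : E3} (hind : Ind u v)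
    (hc : ∀ T ∈ C, IsCell o u v T) :
    ∃ q ∈ F, ∀ z ∈ F, ∃ a b : ℝ, z = q + a • u + b • v ∧ a ≤ 0 ∧ 0 ≤ b := by
  classical
  -- structure of the cells
  have hsub : ∀ T ∈ C, T ⊆ F := by
    intro T hT
    rw [hF]
    exact Set.subset_sUnion_of_mem hT
  have hmem : ∀ z ∈ F, ∃ T ∈ C, z ∈ T := by
    intro z hz
    rw [hF] at hz
    obtain ⟨T, hT, hz⟩ := hz
    exact ⟨T, hT, hz⟩
  have hcell : ∀ T ∈ C, ∃ i j : ℤ, ∀ z ∈ T, ∃ x y : ℝ, z = o + x • u + y • v ∧
      (((i : ℝ) ≤ x ∧ (j : ℝ) ≤ y ∧ x + y ≤ i + j + 1 ∧ lat o u v i j ∈ F ∧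
        lat o u v (i + 1) j ∈ F) ∨
      (x ≤ i + 1 ∧ y ≤ j + 1 ∧ (i + j + 1 : ℝ) ≤ x + y ∧ lat o u v (i + 1) j ∈ F)) := by
    intro T hT
    obtain ⟨i, j, h | h⟩ := hc T hT
    · refine ⟨i, j, fun z hz => ?_⟩
      have hm := hsub T hT
      rw [h] at hz hm
      obtain ⟨x, y, h1, h2, h3, h4⟩ := up_coord hz
      exact ⟨x, y, h1, Or.inl ⟨h2, h3, h4, hm (subset_convexHull ℝ _ (by simp)),
        hm (subset_convexHull ℝ _ (by simp))⟩⟩
    · refine ⟨i, j, fun z hz => ?_⟩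
      have hm := hsub T hT
      rw [h] at hz hm
      obtain ⟨x, y, h1, h2, h3, h4⟩ := down_coord hz
      exact ⟨x, y, h1, Or.inr ⟨h2, h3, h4, hm (subset_convexHull ℝ _ (by simp))⟩⟩
  choose! I J hIJ using hcell
  obtain ⟨MI, hMI⟩ := (hCf.image I).bddAbove
  obtain ⟨MJ, hMJ⟩ := (hCf.image J).bddBelow
  have hbd : ∀ i j : ℤ, lat o u v i j ∈ F → MJ ≤ j ∧ i ≤ MI + 1 := by
    intro i j h
    obtain ⟨T, hT, hz⟩ := hmem _ h
    obtain ⟨x, y, h1, h2⟩ := hIJ T hT _ hz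
    obtain ⟨e1, e2⟩ := hind.uniq (show o + (i : ℝ) • u + (j : ℝ) • v = o + x • u + y • v from h1)
    have h3 := hMI (Set.mem_image_of_mem I hT)
    have h4 := hMJ (Set.mem_image_of_mem J hT)
    have h5 : ((J T : ℤ) : ℝ) ≤ j ∧ (i : ℝ) ≤ I T + 1 := by
      rw [e1, e2]
      rcases h2 with ⟨a1, a2, a3, _⟩ | ⟨a1, a2, a3, _⟩
      · exact ⟨a2, by linarith⟩
      · exact ⟨by linarith, a1⟩
    have h6 : J T ≤ j := by exact_mod_cast h5.1
    have h7 : i ≤ I T + 1 := by exact_mod_cast h5.2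
    exact ⟨h4.trans h6, by omega⟩
  -- some lattice point
  obtain ⟨T0, hT0⟩ := hCn
  have hT0n : ∃ z, z ∈ T0 := by
    obtain ⟨i, j, h | h⟩ := hc T0 hT0
    · exact ⟨_, h ▸ subset_convexHull ℝ _ (Set.mem_insert _ _)⟩
    · exact ⟨_, h ▸ subset_convexHull ℝ _ (Set.mem_insert _ _)⟩
  obtain ⟨z0, hz0⟩ := hT0n
  have hlat : ∃ j i : ℤ, lat o u v i j ∈ F := by
    obtain ⟨x, y, _, h2⟩ := hIJ T0 hT0 z0 hz0
    rcases h2 with ⟨_, _, _, h3, _⟩ | ⟨_, _, _, h3⟩
    · exact ⟨_, _, h3⟩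
    · exact ⟨_, _, h3⟩
  obtain ⟨b1, ⟨i1, hi1⟩, hb1⟩ := Int.exists_least_of_bdd
    (P := fun j : ℤ => ∃ i : ℤ, lat o u v i j ∈ F)
    ⟨MJ, fun j ⟨i, h⟩ => (hbd i j h).1⟩ hlat
  obtain ⟨a1, ha1F, ha1⟩ := Int.exists_greatest_of_bdd
    (P := fun i : ℤ => lat o u v i b1 ∈ F) ⟨MI + 1, fun i h => (hbd i b1 h).2⟩ ⟨i1, hi1⟩
  refine ⟨lat o u v a1 b1, ha1F, ?_⟩
  intro z hz
  obtain ⟨T, hT, hzT⟩ := hmem z hz
  obtain ⟨x, y, hzxy, hxy⟩ := hIJ T hT z hzT
  have hy : (b1 : ℝ) ≤ y := by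
    rcases hxy with ⟨h1, h2, h3, h4, _⟩ | ⟨h1, h2, h3, h4⟩
    · have h5 : b1 ≤ J T := hb1 _ ⟨_, h4⟩
      have h6 : (b1 : ℝ) ≤ J T := by exact_mod_cast h5
      linarith
    · have h5 : b1 ≤ J T := hb1 _ ⟨_, h4⟩
      have h6 : (b1 : ℝ) ≤ J T := by exact_mod_cast h5
      linarith
  refine ⟨x - a1, y - b1, ?_, ?_, by linarith⟩
  · rw [hzxy]
    unfold lat
    module
  by_contra hcon
  have hx : 0 < x - a1 := not_le.1 hcon
  set α0 := x - a1 with hα0
  set β0 := y - b1 with hβ0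
  have hβ0n : 0 ≤ β0 := by rw [hβ0]; linarith
  -- a point close to the corner
  set ε : ℝ := 1 / (2 * (α0 + β0 + 1)) with hε
  have hs : 0 < α0 + β0 + 1 := by linarith
  have hε0 : 0 < ε := by positivity
  have hε1 : ε ≤ 1 := by
    rw [hε, div_le_one (by positivity)]
    linarith
  have hεs : ε * (α0 + β0) < 1 := by
    rw [hε, div_mul_eq_mul_div, one_mul, div_lt_one (by positivity)]
    linarith
  have hzε : o + ((a1 : ℝ) + ε * α0) • u + ((b1 : ℝ) + ε * β0) • v ∈ F := by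
    have h1 := hconv ha1F hz (show (0 : ℝ) ≤ 1 - ε by linarith) hε0.le (by ring)
    have h2 : (1 - ε) • lat o u v a1 b1 + ε • z =
        o + ((a1 : ℝ) + ε * α0) • u + ((b1 : ℝ) + ε * β0) • v := by
      rw [hzxy, hα0, hβ0]
      unfold lat
      module
    rwa [h2] at h1
  obtain ⟨T', hT', hzT'⟩ := hmem _ hzε
  obtain ⟨x', y', he, hxy'⟩ := hIJ T' hT' _ hzT'
  obtain ⟨e1, e2⟩ := hind.uniq he
  have hα : 0 < ε * α0 := mul_pos hε0 hx
  have hβ : 0 ≤ ε * β0 := mul_nonneg hε0.le hβ0n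
  have hαβ : ε * α0 + ε * β0 < 1 := by rw [← mul_add]; exact hεs
  set α := ε * α0
  set β := ε * β0
  set i' := I T' with hi'
  set j' := J T' with hj'
  rcases hxy' with ⟨h1, h2, h3, h4, h5⟩ | ⟨h1, h2, h3, h4⟩
  · rw [← e1] at h1 h3
    rw [← e2] at h2 h3
    have f1 : i' ≤ a1 := by
      have : (i' : ℝ) < a1 + 1 := by linarith
      have : i' < a1 + 1 := by exact_mod_cast this
      omega
    have f2 : j' ≤ b1 := by
      have : (j' : ℝ) < b1 + 1 := by linarith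
      have : j' < b1 + 1 := by exact_mod_cast this
      omega
    have f3 : a1 + b1 ≤ i' + j' := by
      have : (a1 + b1 : ℝ) < i' + j' + 1 := by linarith
      have : a1 + b1 < i' + j' + 1 := by exact_mod_cast this
      omega
    have f4 : i' = a1 := by omega
    have f5 : j' = b1 := by omega
    rw [f4, f5] at h5
    have := ha1 _ h5
    omega
  · rw [← e1] at h1 h3
    rw [← e2] at h2 h3
    have f1 : a1 ≤ i' := by
      have : (a1 : ℝ) < i' + 1 := by linarith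
      have : a1 < i' + 1 := by exact_mod_cast this
      omega
    have f2 : b1 ≤ j' := hb1 _ ⟨_, h4⟩
    have f3 : i' + j' < a1 + b1 := by
      have : (i' + j' + 1 : ℝ) < a1 + b1 + 1 := by linarith
      have : i' + j' + 1 < a1 + b1 + 1 := by exact_mod_cast this
      omega
    omega

/-- the six directions -/
noncomputable def dirs (u v : E3) (k : ℤ) : E3 :=
  if k % 6 = 0 then u else if k % 6 = 1 then v else if k % 6 = 2 then v - u
  else if k % 6 = 3 then -u else if k % 6 = 4 then -v else u - v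

theorem dirs_cases (u v : E3) (k : ℤ) :
    (k % 6 = 0 ∧ dirs u v k = u ∧ dirs u v (k + 1) = v ∧ dirs u v (k + 2) = v - u ∧
      dirs u v (k + 3) = -u) ∨
    (k % 6 = 1 ∧ dirs u v k = v ∧ dirs u v (k + 1) = v - u ∧ dirs u v (k + 2) = -u ∧
      dirs u v (k + 3) = -v) ∨
    (k % 6 = 2 ∧ dirs u v k = v - u ∧ dirs u v (k + 1) = -u ∧ dirs u v (k + 2) = -v ∧
      dirs u v (k + 3) = u - v) ∨
    (k % 6 = 3 ∧ dirs u v k = -u ∧ dirs u v (k + 1) = -v ∧ dirs u v (k + 2) = u - v ∧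
      dirs u v (k + 3) = u) ∨
    (k % 6 = 4 ∧ dirs u v k = -v ∧ dirs u v (k + 1) = u - v ∧ dirs u v (k + 2) = u ∧
      dirs u v (k + 3) = v) ∨
    (k % 6 = 5 ∧ dirs u v k = u - v ∧ dirs u v (k + 1) = u ∧ dirs u v (k + 2) = v ∧
      dirs u v (k + 3) = v - u) := by
  have h0 := Int.emod_nonneg k (show (6 : ℤ) ≠ 0 by norm_num)
  have h1 := Int.emod_lt_of_pos k (show (0 : ℤ) < 6 by norm_num)
  have h : k % 6 = 0 ∨ k % 6 = 1 ∨ k % 6 = 2 ∨ k % 6 = 3 ∨ k % 6 = 4 ∨ k % 6 = 5 := by omega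
  rcases h with h | h | h | h | h | h
  · have e1 : (k + 1) % 6 = 1 := by omega
    have e2 : (k + 2) % 6 = 2 := by omega
    have e3 : (k + 3) % 6 = 3 := by omega
    left
    refine ⟨h, ?_⟩
    unfold dirs
    rw [h, e1, e2, e3]
    norm_num
  · have e1 : (k + 1) % 6 = 2 := by omega
    have e2 : (k + 2) % 6 = 3 := by omega
    have e3 : (k + 3) % 6 = 4 := by omega
    right; left
    refine ⟨h, ?_⟩
    unfold dirs
    rw [h, e1, e2, e3]
    norm_num
  · have e1 : (k + 1) % 6 = 3 := by omega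
    have e2 : (k + 2) % 6 = 4 := by omega
    have e3 : (k + 3) % 6 = 5 := by omega
    right; right; left
    refine ⟨h, ?_⟩
    unfold dirs
    rw [h, e1, e2, e3]
    norm_num
  · have e1 : (k + 1) % 6 = 4 := by omega
    have e2 : (k + 2) % 6 = 5 := by omega
    have e3 : (k + 3) % 6 = 0 := by omega
    right; right; right; left
    refine ⟨h, ?_⟩
    unfold dirs
    rw [h, e1, e2, e3]
    norm_num
  · have e1 : (k + 1) % 6 = 5 := by omega
    have e2 : (k + 2) % 6 = 0 := by omega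
    have e3 : (k + 3) % 6 = 1 := by omega
    right; right; right; right; left
    refine ⟨h, ?_⟩
    unfold dirs
    rw [h, e1, e2, e3]
    norm_num
  · have e1 : (k + 1) % 6 = 0 := by omega
    have e2 : (k + 2) % 6 = 1 := by omega
    have e3 : (k + 3) % 6 = 2 := by omega
    right; right; right; right; right
    refine ⟨h, ?_⟩
    unfold dirs
    rw [h, e1, e2, e3]
    norm_num

theorem dirs_isDir {n u v : E3} (hu : ‖u‖ = 1) (hv : ‖v‖ = 1) (huv : ⟪u, v⟫ = 1 / 2)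
    (hnu : ⟪n, u⟫ = 0) (hnv : ⟪n, v⟫ = 0) (hd : det3 n u v = √3 / 2) :
    IsDir n (dirs u v) := by
  have huu : ⟪u, u⟫ = 1 := by rw [real_inner_self_eq_norm_sq, hu]; norm_num
  have hvv : ⟪v, v⟫ = 1 := by rw [real_inner_self_eq_norm_sq, hv]; norm_num
  have hvu : ⟪v, u⟫ = 1 / 2 := by rw [real_inner_comm]; exact huv
  have hwn : ‖v - u‖ = 1 := by
    have : ‖v - u‖ ^ 2 = 1 := by
      rw [← real_inner_self_eq_norm_sq, inner_sub_left, inner_sub_right, inner_sub_right, huu,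
        hvv, huv, hvu]
      norm_num
    have h0 := norm_nonneg (v - u)
    nlinarith
  have hwn' : ‖u - v‖ = 1 := by rw [norm_sub_rev]; exact hwn
  have hd' : det3 n v u = - (√3 / 2) := by
    rw [det3_swap', hd]
  refine ⟨?_, ?_, ?_, ?_, ?_, ?_⟩
  · intro k
    rcases dirs_cases u v k with ⟨_, h, _⟩ | ⟨_, h, _⟩ | ⟨_, h, _⟩ | ⟨_, h, _⟩ | ⟨_, h, _⟩ |
      ⟨_, h, _⟩ <;> rw [h]
    · exact hu
    · exact hv
    · exact hwn
    · rw [norm_neg]; exact hu
    · rw [norm_neg]; exact hv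
    · exact hwn'
  · intro k
    rcases dirs_cases u v k with ⟨_, h, _⟩ | ⟨_, h, _⟩ | ⟨_, h, _⟩ | ⟨_, h, _⟩ | ⟨_, h, _⟩ |
      ⟨_, h, _⟩ <;> rw [h] <;> simp only [inner_sub_right, inner_neg_right, hnu, hnv] <;> norm_num
  · intro k
    rcases dirs_cases u v k with ⟨_, h, h', _⟩ | ⟨_, h, h', _⟩ | ⟨_, h, h', _⟩ | ⟨_, h, h', _⟩ |
      ⟨_, h, h', _⟩ | ⟨_, h, h', _⟩ <;> rw [h, h'] <;>
      simp only [inner_sub_right, inner_sub_left, inner_neg_left, inner_neg_right, huu, hvv, huv,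
        hvu] <;> norm_num
  · intro k
    rcases dirs_cases u v k with ⟨_, h, h', h'', _⟩ | ⟨_, h, h', h'', _⟩ | ⟨_, h, h', h'', _⟩ |
      ⟨_, h, h', h'', _⟩ | ⟨_, h, h', h'', _⟩ | ⟨_, h, h', h'', _⟩ <;> rw [h, h', h''] <;> module
  · intro k
    rcases dirs_cases u v k with ⟨_, h, _, _, h'⟩ | ⟨_, h, _, _, h'⟩ | ⟨_, h, _, _, h'⟩ |
      ⟨_, h, _, _, h'⟩ | ⟨_, h, _, _, h'⟩ | ⟨_, h, _, _, h'⟩ <;> rw [h, h'] <;> module
  · intro k
    rcases dirs_cases u v k with ⟨_, h, h', _⟩ | ⟨_, h, h', _⟩ | ⟨_, h, h', _⟩ | ⟨_, h, h', _⟩ |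
      ⟨_, h, h', _⟩ | ⟨_, h, h', _⟩ <;> rw [h, h'] <;>
      simp only [det3_sub_mid, det3_sub_right, det3_neg_mid, det3_neg_right, det3_self', hd, hd'] <;>
      ring

theorem ind_of {a b : E3} (ha : ‖a‖ = 1) (hb : ‖b‖ = 1) (hab : ⟪a, b⟫ = 1 / 2) : Ind a b := by
  intro x y h
  have haa : ⟪a, a⟫ = 1 := by rw [real_inner_self_eq_norm_sq, ha]; norm_num
  have hbb : ⟪b, b⟫ = 1 := by rw [real_inner_self_eq_norm_sq, hb]; norm_num
  have hba : ⟪b, a⟫ = 1 / 2 := by rw [real_inner_comm]; exact hab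
  have h1 : ⟪a, x • a + y • b⟫ = 0 := by rw [h, inner_zero_right]
  have h2 : ⟪b, x • a + y • b⟫ = 0 := by rw [h, inner_zero_right]
  rw [inner_add_right, inner_smul_right, inner_smul_right, haa, hab] at h1
  rw [inner_add_right, inner_smul_right, inner_smul_right, hba, hbb] at h2
  constructor <;> linarith

theorem dirs_cell {o u v : E3} {T : Set E3} (h : IsCell o u v T) (k : ℤ) :
    IsCell o (dirs u v k) (dirs u v (k + 1)) T := by
  have h1 := cell_rot h
  have h2 := cell_rot h1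
  have h3 := cell_rot h2
  have h4 := cell_rot h3
  have h5 := cell_rot h4
  have e2 : v - u - v = -u := by module
  rw [e2] at h2 h3 h4 h5
  have e3 : -u - (v - u) = -v := by module
  rw [e3] at h3 h4 h5
  have e4 : -v - -u = u - v := by module
  rw [e4] at h4 h5
  have e5 : u - v - -v = u := by module
  rw [e5] at h5
  rcases dirs_cases u v k with ⟨_, h, h', _⟩ | ⟨_, h, h', _⟩ | ⟨_, h, h', _⟩ | ⟨_, h, h', _⟩ |
      ⟨_, h, h', _⟩ | ⟨_, h, h', _⟩ <;> rw [h, h'] <;> assumption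

/-- the corners are unique -/
theorem corner_unique {F : Set E3} {u v q q' : E3} (hind : Ind u v) (hq : q ∈ F) (hq' : q' ∈ F)
    (h : ∀ z ∈ F, ∃ a b : ℝ, z = q + a • u + b • v ∧ a ≤ 0 ∧ 0 ≤ b)
    (h' : ∀ z ∈ F, ∃ a b : ℝ, z = q' + a • u + b • v ∧ a ≤ 0 ∧ 0 ≤ b) : q = q' := by
  obtain ⟨a, b, h1, h2, h3⟩ := h q' hq'
  obtain ⟨a', b', h1', h2', h3'⟩ := h' q hq
  have h4 : (a + a') • u + (b + b') • v = 0 := by
    have h5 : (a + a') • u + (b + b') • v = (q + a • u + b • v) + (q' + a' • u + b' • v)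
        - q - q' := by module
    rw [h5, ← h1, ← h1']
    module
  obtain ⟨h5, h6⟩ := hind _ _ h4
  have h7 : a = 0 := by linarith
  have h8 : b = 0 := by linarith
  rw [h7, h8] at h1
  rw [h1]
  module

theorem exists_sign (g : ℤ → ℝ) (hg : ∀ k, g (k + 3) = - g k) : ∃ k, 0 ≤ g (k - 1) ∧ g k ≤ 0 := by
  have h3 := hg 0
  have h4 := hg 1
  have h5 := hg 2
  have h6 := hg 3
  norm_num at h3 h4 h5 h6
  by_cases a0 : 0 ≤ g 0
  · by_cases a1 : g 1 ≤ 0
    · exact ⟨1, by norm_num; exact a0, a1⟩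
    · by_cases a2 : g 2 ≤ 0
      · exact ⟨2, by norm_num; linarith, a2⟩
      · exact ⟨3, by norm_num; linarith, by linarith⟩
  · by_cases a1 : g 4 ≤ 0
    · exact ⟨4, by norm_num; linarith, a1⟩
    · by_cases a2 : g 5 ≤ 0
      · exact ⟨5, by norm_num; linarith, a2⟩
      · exact ⟨6, by norm_num; linarith, by linarith⟩

/-- the main argument, for a basis with the right orientation -/
theorem main {F : Set E3} {n : E3} (hconv : Convex ℝ F) {C : Set (Set E3)} (hCf : C.Finite)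
    (hCn : C.Nonempty) (hF : F = ⋃₀ C) {o u v : E3} (hc : ∀ T ∈ C, IsCell o u v T)
    (hD : IsDir n (dirs u v)) :
    ∃ (D q : ℤ → E3) (l : ℤ → ℝ), IsHex n D q l ∧ F = convexHull ℝ (Set.range q) := by
  set D := dirs u v with hDdef
  have hind : ∀ k, Ind (D (k - 1)) (D k) := by
    intro k
    refine ind_of (hD.norm _) (hD.norm _) ?_
    have := hD.inner (k - 1)
    rwa [sub_add_cancel] at this
  have hcr : ∀ k, ∃ q ∈ F, ∀ z ∈ F, ∃ a b : ℝ,
      z = q + a • D (k - 1) + b • D k ∧ a ≤ 0 ∧ 0 ≤ b := by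
    intro k
    refine corner hconv hCf hCn hF (hind k) (o := o) fun T hT => ?_
    have := dirs_cell (hc T hT) (k - 1)
    rwa [sub_add_cancel] at this
  choose q hqF hq using hcr
  have hD6 : ∀ k, D (k + 6) = D k := by
    intro k
    have h1 := hD.opp (k + 3)
    have h2 := hD.opp k
    rw [h2, neg_neg] at h1
    rw [← h1]
    congr 1
    ring
  have hper : ∀ k, q (k + 6) = q k := by
    intro k
    have e1 : D (k + 6 - 1) = D (k - 1) := by
      rw [← hD6 (k - 1)]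
      congr 1
      ring
    have h1 := hq (k + 6)
    rw [e1, hD6] at h1
    exact corner_unique (hind k) (hqF _) (hqF _) h1 (hq k)
  have hstep : ∀ k, ∃ b : ℝ, 0 ≤ b ∧ q (k + 1) = q k + b • D k := by
    intro k
    obtain ⟨a, b, h1, h2, h3⟩ := hq k (q (k + 1)) (hqF _)
    obtain ⟨a', b', h1', h2', h3'⟩ := hq (k + 1) (q k) (hqF _)
    have e1 : D (k + 1) = D k - D (k - 1) := by
      have := hD.rec' (k - 1)
      have e2 : k - 1 + 2 = k + 1 := by ring
      have e3 : k - 1 + 1 = k := by ring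
      rwa [e2, e3] at this
    have e4 : k + 1 - 1 = k := by ring
    rw [e1, e4] at h1'
    have h4 : (a - b') • D (k - 1) + (b + a' + b') • D k = 0 := by
      have h5 : (a - b') • D (k - 1) + (b + a' + b') • D k =
          (q k + a • D (k - 1) + b • D k) +
            (q (k + 1) + a' • D k + b' • (D k - D (k - 1))) - q k - q (k + 1) := by module
      rw [h5, ← h1, ← h1']
      module
    obtain ⟨h5, h6⟩ := hind k _ _ h4
    have h7 : a = 0 := by linarith
    refine ⟨b, h3, ?_⟩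
    rw [h7] at h1
    rw [h1]
    module
  have hl : ∀ k, q (k + 1) = q k + ⟪q (k + 1) - q k, D k⟫ • D k ∧
      0 ≤ ⟪q (k + 1) - q k, D k⟫ := by
    intro k
    obtain ⟨b, h1, h2⟩ := hstep k
    have h3 : ⟪q (k + 1) - q k, D k⟫ = b := by
      rw [h2, add_sub_cancel_left, inner_smul_left, real_inner_self_eq_norm_sq, hD.norm]
      simp
    rw [h3]
    exact ⟨h2, h1⟩
  refine ⟨D, q, fun k => ⟪q (k + 1) - q k, D k⟫, ⟨hD, hper, ?_, fun k => (hl k).2,
    fun k => (hl k).1⟩, ?_⟩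
  · intro k
    have e1 : q (k + 6 + 1) = q (k + 1) := by
      rw [← hper (k + 1)]
      congr 1
      ring
    show ⟪q (k + 6 + 1) - q (k + 6), D (k + 6)⟫ = ⟪q (k + 1) - q k, D k⟫
    rw [e1, hper, hD6]
  · apply Set.Subset.antisymm
    · intro z hz
      by_contra hcon
      have hP : Function.Periodic q 6 := hper
      have hfin : (Set.range q).Finite := by
        refine ((Set.finite_Ico (0 : ℤ) 6).image q).subset ?_
        rintro _ ⟨k, rfl⟩
        refine ⟨k % 6, ⟨Int.emod_nonneg k (by norm_num), Int.emod_lt_of_pos k (by norm_num)⟩, ?_⟩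
        have h1 := hP.sub_zsmul_eq (x := k) (k / 6)
        rw [← h1]
        congr 1
        have := Int.emod_add_mul_ediv k 6
        simp only [smul_eq_mul]
        omega
      obtain ⟨f, w, h1, h2⟩ := geometric_hahn_banach_closed_point (convex_convexHull ℝ _)
        (hfin.isClosed_convexHull (𝕜 := ℝ)) hcon
      obtain ⟨k, h3, h4⟩ := exists_sign (fun k => f (D k)) (by
        intro k
        show f (D (k + 3)) = - f (D k)
        rw [hD.opp, map_neg])
      obtain ⟨a, b, h5, h6, h7⟩ := hq k z hz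
      have h8 := h1 (q k) (subset_convexHull ℝ _ ⟨k, rfl⟩)
      rw [h5, map_add, map_add, map_smul, map_smul, smul_eq_mul, smul_eq_mul] at h2
      have h9 : a * f (D (k - 1)) ≤ 0 := mul_nonpos_of_nonpos_of_nonneg h6 h3
      have h10 : b * f (D k) ≤ 0 := mul_nonpos_of_nonneg_of_nonpos h7 h4
      linarith
    · refine convexHull_min ?_ hconv
      rintro _ ⟨k, rfl⟩
      exact hqF k

end Hex

theorem polyiamond_hex {F : Set E3} {n : E3} {t : ℝ} (hF : IsConvexPolyiamond F) (hn : ‖n‖ = 1)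
    (hp : ∀ x ∈ F, ⟪n, x⟫ = t) :
    ∃ (D q : ℤ → E3) (l : ℤ → ℝ), IsHex n D q l ∧ F = convexHull ℝ (Set.range q) := by
  obtain ⟨hconv, o, u, v, hu, hv, huv, C, hCf, hCn, hc, hFC⟩ := hF
  have huu : ⟪u, u⟫ = 1 := by rw [real_inner_self_eq_norm_sq, hu]; norm_num
  have hvv : ⟪v, v⟫ = 1 := by rw [real_inner_self_eq_norm_sq, hv]; norm_num
  have hvu : ⟪v, u⟫ = 1 / 2 := by rw [real_inner_comm]; exact huv
  have hnn : ⟪n, n⟫ = 1 := by rw [real_inner_self_eq_norm_sq, hn]; norm_num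
  have hnuv : ⟪n, u⟫ = 0 ∧ ⟪n, v⟫ = 0 := by
    obtain ⟨T, hT⟩ := hCn
    have hsub : ∀ z ∈ T, ⟪n, z⟫ = t := by
      intro z hz
      apply hp
      rw [hFC]
      exact ⟨T, hT, hz⟩
    obtain ⟨i, j, h | h⟩ := hc T hT
    · have h1 := hsub (lat o u v i j) (h ▸ subset_convexHull ℝ _ (by simp))
      have h2 := hsub (lat o u v (i + 1) j) (h ▸ subset_convexHull ℝ _ (by simp))
      have h3 := hsub (lat o u v i (j + 1)) (h ▸ subset_convexHull ℝ _ (by simp))
      unfold lat at h1 h2 h3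
      simp only [inner_add_right, inner_smul_right] at h1 h2 h3
      push_cast at h2 h3
      constructor <;> nlinarith
    · have h1 := hsub (lat o u v (i + 1) (j + 1)) (h ▸ subset_convexHull ℝ _ (by simp))
      have h2 := hsub (lat o u v (i + 1) j) (h ▸ subset_convexHull ℝ _ (by simp))
      have h3 := hsub (lat o u v i (j + 1)) (h ▸ subset_convexHull ℝ _ (by simp))
      unfold lat at h1 h2 h3
      simp only [inner_add_right, inner_smul_right] at h1 h2 h3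
      push_cast at h1 h2 h3
      constructor <;> nlinarith
  obtain ⟨hnu, hnv⟩ := hnuv
  have hun : ⟪u, n⟫ = 0 := by rw [real_inner_comm]; exact hnu
  have hvn : ⟪v, n⟫ = 0 := by rw [real_inner_comm]; exact hnv
  have hdet : det3 n u v * det3 n u v = 3 / 4 := by
    rw [det3_mul_det3, huu, hvv, huv, hvu, hnn, hnu, hnv, hun, hvn]
    norm_num
  have h3 : √3 * √3 = 3 := Real.mul_self_sqrt (by norm_num)
  have hcase : det3 n u v = √3 / 2 ∨ det3 n u v = -(√3 / 2) := by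
    have h4 : (det3 n u v - √3 / 2) * (det3 n u v + √3 / 2) = 0 := by nlinarith
    rcases mul_eq_zero.1 h4 with h | h
    · left; linarith
    · right; linarith
  rcases hcase with h | h
  · exact Hex.main hconv hCf hCn hFC hc (Hex.dirs_isDir hu hv huv hnu hnv h)
  · refine Hex.main hconv hCf hCn hFC (fun T hT => Hex.cell_swap (hc T hT))
      (Hex.dirs_isDir hv hu hvu hnv hnu ?_)
    rw [det3_swap', h, neg_neg]

end Pool.Agent.Lib.MP_ba95e8_co
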