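import Pool.Agent.Lib.MP_ba95e8_co.Defs

/-!
Deltahedral domes, task PS2: a nondegenerate lattice hexagon is a strictly convex coded polygon.
-/

namespace Pool.Agent.Lib.MP_ba95e8_co

open scoped RealInnerProductSpace

/-- enumeration of the nonzero sides -/
lemma exists_enum {l : ℤ → ℝ} (hper : ∀ k, l (k + 6) = l k)
    (hna : ∀ k, l k = 0 → l (k + 1) ≠ 0) :
    ∃ (m : ℕ) (ν : ℤ → ℤ), 3 ≤ m ∧ (∀ i, ν (i + m) = ν i + 6) ∧ (∀ i, l (ν i) ≠ 0) ∧
      ∀ i, (ν (i + 1) = ν i + 1) ∨ (ν (i + 1) = ν i + 2 ∧ l (ν i + 1) = 0) := by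
  classical
  have hp6 : ∀ (t k : ℤ), l (k + 6 * t) = l k := by
    intro t
    induction t using Int.induction_on with
    | zero => intro k; simp
    | succ t ih =>
      intro k
      have : k + 6 * ((t : ℤ) + 1) = (k + 6 * t) + 6 := by ring
      rw [this, hper, ih]
    | pred t ih =>
      intro k
      have : k + 6 * (-(t : ℤ)) = (k + 6 * (-(t : ℤ) - 1)) + 6 := by ring
      rw [← ih k, this, hper]
  let nx : ℤ → ℤ := fun k => if l (k + 1) = 0 then k + 2 else k + 1
  have hnx : ∀ k, (nx k = k + 1 ∧ l (k + 1) ≠ 0) ∨ (nx k = k + 2 ∧ l (k + 1) = 0) := by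
    intro k
    by_cases h : l (k + 1) = 0
    · right; exact ⟨by simp only [nx, h, if_true], h⟩
    · left; exact ⟨by simp only [nx, h, if_false], h⟩
  have hnx6 : ∀ t k, nx (k + 6 * t) = nx k + 6 * t := by
    intro t k
    have e : l (k + 6 * t + 1) = l (k + 1) := by
      rw [show k + 6 * t + 1 = (k + 1) + 6 * t by ring, hp6]
    simp only [nx, e]
    split_ifs <;> ring
  have hnl : ∀ k, l (nx k) ≠ 0 := by
    intro k
    rcases hnx k with ⟨h1, h2⟩ | ⟨h1, h2⟩
    · rw [h1]; exact h2
    · rw [h1, show k + 2 = (k + 1) + 1 by ring]; exact hna _ h2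
  obtain ⟨k0, hk0⟩ : ∃ k0, l k0 ≠ 0 := by
    by_cases h : l 0 = 0
    · exact ⟨0 + 1, hna 0 h⟩
    · exact ⟨0, h⟩
  let a : ℕ → ℤ := fun s => nx^[s] k0
  have a0 : a 0 = k0 := rfl
  have as : ∀ s, a (s + 1) = nx (a s) := fun s => Function.iterate_succ_apply' nx s k0
  have al : ∀ s, l (a s) ≠ 0 := by
    intro s
    cases s with
    | zero => exact hk0
    | succ s => rw [as]; exact hnl _
  have age : ∀ s : ℕ, k0 + s ≤ a s := by
    intro s
    induction s with
    | zero => rw [a0]; simp
    | succ s ih =>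
      rw [as]
      push_cast
      rcases hnx (a s) with ⟨h1, -⟩ | ⟨h1, -⟩ <;> rw [h1] <;> linarith
  have ale : ∀ s : ℕ, a s ≤ k0 + 2 * s := by
    intro s
    induction s with
    | zero => rw [a0]; simp
    | succ s ih =>
      rw [as]
      push_cast
      rcases hnx (a s) with ⟨h1, -⟩ | ⟨h1, -⟩ <;> rw [h1] <;> linarith
  have hex : ∃ s, k0 + 6 ≤ a s := ⟨6, by have := age 6; push_cast at this; exact this⟩
  obtain ⟨m, hm⟩ : ∃ m, a m = k0 + 6 := by
    refine ⟨Nat.find hex, ?_⟩
    have h1 := Nat.find_spec hex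
    have h2 : Nat.find hex ≠ 0 := by
      intro h
      rw [h, a0] at h1
      linarith
    obtain ⟨s, hs⟩ := Nat.exists_eq_succ_of_ne_zero h2
    have h3 : ¬ (k0 + 6 ≤ a s) := Nat.find_min hex (by omega)
    rw [hs, Nat.succ_eq_add_one, as] at h1 ⊢
    rcases hnx (a s) with ⟨h4, h5⟩ | ⟨h4, h5⟩
    · rw [h4] at h1 ⊢
      omega
    · rw [h4] at h1 ⊢
      by_contra hcon
      have h6 : a s + 1 = k0 + 6 := by omega
      rw [h6, hper] at h5
      exact hk0 h5
  have hm3 : 3 ≤ m := by
    have := ale m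
    rw [hm] at this
    omega
  have hm0 : (m : ℤ) ≠ 0 := by omega
  have hmpos : (0 : ℤ) < m := by omega
  let ν : ℤ → ℤ := fun i => a (i % m).toNat + 6 * (i / m)
  have hνdef : ∀ i, ν i = a (i % m).toNat + 6 * (i / m) := fun i => rfl
  have hstep : ∀ i, ν (i + 1) = nx (ν i) := by
    intro i
    rw [hνdef, hνdef, hnx6]
    have hd := Int.emod_add_mul_ediv i m
    have hr0 := Int.emod_nonneg i hm0
    have hr1 := Int.emod_lt_of_pos i hmpos
    by_cases hlast : i % m + 1 = m
    · have e1 : (i + 1) / (m : ℤ) = i / m + 1 := by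
        rw [Int.ediv_eq_iff_of_pos hmpos]
        constructor
        · nlinarith
        · nlinarith
      have e2 : (i + 1) % (m : ℤ) = 0 := by
        have := Int.emod_add_mul_ediv (i + 1) m
        rw [e1] at this
        linarith
      rw [e1, e2]
      have e3 : (i % (m : ℤ)).toNat + 1 = m := by omega
      have e4 : a m = nx (a (i % (m : ℤ)).toNat) := by
        rw [← as, e3]
      rw [← e4, hm, Int.toNat_zero, a0]
      ring
    · have e1 : (i + 1) / (m : ℤ) = i / m := by
        rw [Int.ediv_eq_iff_of_pos hmpos]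
        constructor
        · nlinarith
        · have : i % m + 1 < m := by omega
          nlinarith
      have e2 : (i + 1) % (m : ℤ) = i % m + 1 := by
        have := Int.emod_add_mul_ediv (i + 1) m
        rw [e1] at this
        linarith
      rw [e1, e2, ← as]
      have e3 : (i % (m : ℤ) + 1).toNat = (i % (m : ℤ)).toNat + 1 := by omega
      rw [e3]
  refine ⟨m, ν, hm3, ?_, ?_, ?_⟩
  · intro i
    rw [hνdef, hνdef, Int.add_emod_right, Int.add_ediv_of_dvd_right (dvd_refl _), Int.ediv_self hm0]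
    ring
  · intro i
    rw [hνdef, hp6]
    exact al _
  · intro i
    rw [hstep]
    rcases hnx (ν i) with ⟨h1, -⟩ | h1
    · exact Or.inl h1
    · exact Or.inr h1

lemma collinear_hull {s : Set E3} (h : Collinear ℝ s) : Collinear ℝ (convexHull ℝ s) := by
  unfold Collinear at h ⊢
  rw [← direction_affineSpan, affineSpan_convexHull, direction_affineSpan]
  exact h

section hex

variable {n : E3} {D q : ℤ → E3} {l : ℤ → ℝ}

lemma IsDir.det2 (h : IsDir n D) (k : ℤ) : det3 n (D k) (D (k + 2)) = √3 / 2 := by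
  rw [h.rec', det3_sub_right, h.det, det3_self', sub_zero]

lemma IsDir.det3' (h : IsDir n D) (k : ℤ) : det3 n (D k) (D (k + 3)) = 0 := by
  rw [h.opp, det3_neg_right, det3_self', neg_zero]

lemma IsDir.det4 (h : IsDir n D) (k : ℤ) : det3 n (D k) (D (k + 4)) = - (√3 / 2) := by
  rw [show k + 4 = (k + 1) + 3 by ring, h.opp, det3_neg_right, h.det]

lemma IsDir.det5 (h : IsDir n D) (k : ℤ) : det3 n (D k) (D (k + 5)) = - (√3 / 2) := by
  rw [show k + 5 = (k + 2) + 3 by ring, h.opp, det3_neg_right, h.det2]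

lemma IsHex.st (h : IsHex n D q l) (k : ℤ) (j : ℤ) :
    det3 n (D k) (q (j + 1) - q k) = det3 n (D k) (q j - q k) + l j * det3 n (D k) (D j) := by
  rw [h.step j, ← det3_smul_right, ← det3_add_right]
  congr 1
  abel

lemma IsHex.d1 (h : IsHex n D q l) (k : ℤ) : det3 n (D k) (q (k + 1) - q k) = 0 := by
  rw [h.st, sub_self, det3_self']
  simp [det3]

lemma IsHex.d2 (h : IsHex n D q l) (k : ℤ) :
    det3 n (D k) (q (k + 2) - q k) = √3 / 2 * l (k + 1) := by
  rw [show k + 2 = (k + 1) + 1 by ring, h.st, h.d1, h.dir.det]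
  ring

lemma IsHex.d3 (h : IsHex n D q l) (k : ℤ) :
    det3 n (D k) (q (k + 3) - q k) = √3 / 2 * (l (k + 1) + l (k + 2)) := by
  rw [show k + 3 = (k + 2) + 1 by ring, h.st, h.d2, h.dir.det2]
  ring

lemma IsHex.d4 (h : IsHex n D q l) (k : ℤ) :
    det3 n (D k) (q (k + 4) - q k) = √3 / 2 * (l (k + 1) + l (k + 2)) := by
  rw [show k + 4 = (k + 3) + 1 by ring, h.st, h.d3, h.dir.det3']
  ring

lemma IsHex.d5 (h : IsHex n D q l) (k : ℤ) :
    det3 n (D k) (q (k + 5) - q k) = √3 / 2 * (l (k + 1) + l (k + 2) - l (k + 4)) := by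
  rw [show k + 5 = (k + 4) + 1 by ring, h.st, h.d4, h.dir.det4]
  ring

lemma IsHex.d6 (h : IsHex n D q l) (k : ℤ) :
    0 = √3 / 2 * (l (k + 1) + l (k + 2) - l (k + 4) - l (k + 5)) := by
  have h1 : det3 n (D k) (q (k + 6) - q k) = 0 := by
    rw [h.perq, sub_self]; simp [det3]
  rw [show k + 6 = (k + 5) + 1 by ring, h.st, h.d5, h.dir.det5] at h1
  linarith

/-- closure of the hexagon -/
lemma IsHex.closure (h : IsHex n D q l) (k : ℤ) :
    l (k + 1) + l (k + 2) = l (k + 4) + l (k + 5) := by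
  have h1 := h.d6 k
  have h3 : (0 : ℝ) < √3 / 2 := by positivity
  rcases mul_eq_zero.mp h1.symm with h4 | h4
  · exact absurd h4 h3.ne'
  · linarith

lemma IsHex.step0 (h : IsHex n D q l) {k : ℤ} (h0 : l k = 0) : q (k + 1) = q k := by
  rw [h.step, h0, zero_smul, add_zero]

lemma IsHex.perq' (h : IsHex n D q l) (t k : ℤ) : q (k + 6 * t) = q k := by
  induction t using Int.induction_on generalizing k with
  | zero => simp
  | succ t ih =>
    have : k + 6 * ((t : ℤ) + 1) = (k + 6 * t) + 6 := by ring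
    rw [this, h.perq, ih]
  | pred t ih =>
    have : k + 6 * (-(t : ℤ)) = (k + 6 * (-(t : ℤ) - 1)) + 6 := by ring
    rw [← ih k, this, h.perq]

/-- two adjacent zero sides: the hexagon is collinear -/
lemma IsHex.not_adj (h : IsHex n D q l) (hc : ¬ Collinear ℝ (convexHull ℝ (Set.range q))) (k : ℤ)
    (h0 : l k = 0) : l (k + 1) ≠ 0 := by
  intro h1
  apply hc
  apply collinear_hull
  have hcl := h.closure (k - 1)
  rw [show k - 1 + 1 = k by ring, show k - 1 + 2 = k + 1 by ring, show k - 1 + 4 = k + 3 by ring,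
    show k - 1 + 5 = k + 4 by ring, h0, h1] at hcl
  have n3 := h.nonneg (k + 3)
  have n4 := h.nonneg (k + 4)
  have l3 : l (k + 3) = 0 := by linarith
  have l4 : l (k + 4) = 0 := by linarith
  have q1 : q (k + 1) = q k := h.step0 h0
  have q2 : q (k + 2) = q k := by
    rw [show k + 2 = (k + 1) + 1 by ring, h.step0 h1, q1]
  have q4 : q (k + 4) = q (k + 3) := by
    rw [show k + 4 = (k + 3) + 1 by ring, h.step0 l3]
  have q5 : q (k + 5) = q (k + 3) := by
    rw [show k + 5 = (k + 4) + 1 by ring, h.step0 l4, q4]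
  refine (collinear_pair ℝ (q k) (q (k + 3))).subset ?_
  rintro x ⟨j, rfl⟩
  have hd := Int.emod_add_mul_ediv (j - k) 6
  have hr0 := Int.emod_nonneg (j - k) (show (6 : ℤ) ≠ 0 by norm_num)
  have hr1 := Int.emod_lt_of_pos (j - k) (show (0 : ℤ) < 6 by norm_num)
  have hj : j = (k + (j - k) % 6) + 6 * ((j - k) / 6) := by omega
  rw [hj, h.perq']
  generalize (j - k) % 6 = r at *
  have hr : r = 0 ∨ r = 1 ∨ r = 2 ∨ r = 3 ∨ r = 4 ∨ r = 5 := by omega
  rcases hr with rfl | rfl | rfl | rfl | rfl | rfl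
  · simp
  · rw [q1]; simp
  · rw [q2]; simp
  · simp
  · rw [q4]; simp
  · rw [q5]; simp

lemma IsHex.plane (h : IsHex n D q l) (k : ℤ) : ⟪n, q k⟫ = ⟪n, q 0⟫ := by
  have hs : ∀ k, ⟪n, q (k + 1)⟫ = ⟪n, q k⟫ := by
    intro k
    rw [h.step, inner_add_right, real_inner_smul_right, h.dir.orth, mul_zero, add_zero]
  induction k using Int.induction_on with
  | zero => rfl
  | succ t ih => rw [hs, ih]
  | pred t ih =>
    rw [← ih]
    have := hs (-(t : ℤ) - 1)
    rw [sub_add_cancel] at this
    exact this.symm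

end hex

theorem hex_coded {n : E3} {D q : ℤ → E3} {l : ℤ → ℝ} (hn : ‖n‖ = 1) (h : IsHex n D q l)
    (hc : ¬ Collinear ℝ (convexHull ℝ (Set.range q))) :
    ∃ (m : ℕ) (p : ℤ → E3) (c : ℤ → ℕ), IsPoly n m p ∧ IsCoded n m p c ∧
      convexHull ℝ (Set.range p) = convexHull ℝ (Set.range q) := by
  obtain ⟨m, ν, hm, hper, hnz, hst⟩ := exists_enum h.perl (h.not_adj hc)
  have hpos : ∀ i, 0 < l (ν i) := fun i => lt_of_le_of_ne (h.nonneg _) (hnz i).symm
  have hlt : ∀ i, ν i < ν (i + 1) := by
    intro i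
    rcases hst i with h1 | ⟨h1, -⟩ <;> rw [h1] <;> linarith
  have hmono : StrictMono ν := strictMono_int_of_lt_succ hlt
  have hside : ∀ i, q (ν (i + 1)) = q (ν i) + l (ν i) • D (ν i) := by
    intro i
    rcases hst i with h1 | ⟨h1, h2⟩
    · rw [h1, h.step]
    · rw [h1, show ν i + 2 = (ν i + 1) + 1 by ring, h.step0 h2, h.step]
  have hs3 : (0 : ℝ) < √3 / 2 := by positivity
  -- surjectivity of the enumeration onto the nonzero sides
  have hsurj : ∀ k, l k ≠ 0 → ∃ i, ν i = k := by
    intro k hk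
    have hb : ∀ i : ℤ, ν i ≤ k → i ≤ k - ν 0 ∨ i ≤ 0 := by
      intro i hi
      by_cases hi0 : i ≤ 0
      · exact Or.inr hi0
      · left
        push Not at hi0
        have : ∀ j : ℕ, ν 0 + j ≤ ν j := by
          intro j
          induction j with
          | zero => simp
          | succ j ih =>
            push_cast
            have := hlt j
            omega
        have h2 := this i.toNat
        rw [Int.toNat_of_nonneg hi0.le] at h2
        omega
    have hne : ∃ i : ℤ, ν i ≤ k := by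
      have : ∀ j : ℕ, ν (-(j : ℤ)) ≤ ν 0 - j := by
        intro j
        induction j with
        | zero => simp
        | succ j ih =>
          push_cast
          have := hlt (-(j : ℤ) - 1)
          rw [sub_add_cancel] at this
          rw [show -((j : ℤ) + 1) = -(j : ℤ) - 1 by ring]
          omega
      refine ⟨-((ν 0 - k).toNat : ℤ), ?_⟩
      have h2 := this (ν 0 - k).toNat
      have h3 := Int.self_le_toNat (ν 0 - k)
      omega
    obtain ⟨i, hi, hmax⟩ := Int.exists_greatest_of_bdd (P := fun i => ν i ≤ k)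
      ⟨max (k - ν 0) 0, fun i hi => by
        rcases hb i hi with h1 | h1
        · exact h1.trans (le_max_left _ _)
        · exact h1.trans (le_max_right _ _)⟩ hne
    refine ⟨i, ?_⟩
    have h1 : ¬ (ν (i + 1) ≤ k) := fun hcon => by
      have := hmax (i + 1) hcon
      omega
    push Not at h1
    by_contra hcon
    rcases hst i with h2 | ⟨h2, h3⟩
    · omega
    · have : k = ν i + 1 := by omega
      rw [this] at hk
      exact hk h3
  have hrange : Set.range (fun i => q (ν i)) = Set.range q := by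
    apply Set.Subset.antisymm
    · rintro x ⟨i, rfl⟩
      exact ⟨ν i, rfl⟩
    · rintro x ⟨k, rfl⟩
      by_cases hk : l k = 0
      · obtain ⟨i, hi⟩ := hsurj (k + 1) (h.not_adj hc k hk)
        refine ⟨i, ?_⟩
        simp only [hi]
        exact h.step0 hk
      · obtain ⟨i, hi⟩ := hsurj k hk
        exact ⟨i, by simp only [hi]⟩
  refine ⟨m, fun i => q (ν i), fun i => (3 - (ν i - ν (i - 1))).toNat, ?_, ?_, ?_⟩
  · refine ⟨hm, ?_, ?_, ?_⟩
    · intro i
      simp only [hper, h.perq]
    · intro i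
      rw [h.plane, h.plane (ν 0)]
    · intro i j hij hjm
      have e1 : q (ν (i + 1)) - q (ν i) = l (ν i) • D (ν i) := by
        rw [hside, add_sub_cancel_left]
      rw [e1, det3_smul_mid]
      apply mul_pos (hpos i)
      have h1 : ν i < ν (i + 1) := hlt i
      have h2 : ν (i + 1) < ν j := hmono hij
      have h3 : ν j < ν i + 6 := by
        rw [← hper]; exact hmono hjm
      have h4 : 0 < l (ν i + 1) ∨ (l (ν i + 1) = 0 ∧ 0 < l (ν i + 2) ∧ ν (i + 1) = ν i + 2) := by
        rcases hst i with h5 | ⟨h5, h6⟩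
        · left; rw [← h5]; exact hpos _
        · right; exact ⟨h6, by rw [← h5]; exact hpos _, h5⟩
      have h5 : ν j = ν i + 2 ∨ ν j = ν i + 3 ∨ ν j = ν i + 4 ∨ ν j = ν i + 5 := by omega
      have n1 := h.nonneg (ν i + 1)
      have n2 := h.nonneg (ν i + 2)
      rcases h5 with h5 | h5 | h5 | h5
      · rw [h5, h.d2]
        apply mul_pos hs3
        rcases h4 with h4 | ⟨-, -, h4⟩
        · exact h4
        · omega
      · rw [h5, h.d3]
        apply mul_pos hs3
        rcases h4 with h4 | ⟨h4, h6, -⟩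
        · linarith
        · linarith
      · rw [h5, h.d4]
        apply mul_pos hs3
        rcases h4 with h4 | ⟨h4, h6, -⟩
        · linarith
        · linarith
      · rw [h5, h.d5]
        apply mul_pos hs3
        have := h.closure (ν i)
        have h6 := hpos j
        rw [h5] at h6
        linarith
  · refine ⟨D, ν, h.dir, ?_, ?_, ?_, ?_, hper⟩
    · intro i
      beta_reduce
      rw [hper, show i + (m : ℤ) - 1 = (i - 1) + m by ring, hper]
      congr 1
      ring
    · intro i
      simp only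
      have := hst (i - 1)
      rw [sub_add_cancel] at this
      omega
    · intro i
      beta_reduce
      rw [hside, add_sub_cancel_left, dist_eq_norm, sub_add_cancel_left, norm_neg, norm_smul,
        h.dir.norm, mul_one, Real.norm_eq_abs, abs_of_pos (hpos i)]
    · intro i
      beta_reduce
      rw [show i + 1 - 1 = i by ring]
      have := hst i
      omega
  · simp only [hrange]

end Pool.Agent.Lib.MP_ba95e8_co
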