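import Pool.Agent.Lib.MP_ba95e8_co.Dome
import Pool.Agent.Lib.MP_ba95e8_co.DomeComb
import Pool.Agent.Lib.MP_ba95e8_co.Hex
import Pool.Agent.Lib.MP_ba95e8_co.HexPoly

/-!
Deltahedral domes, task D1: a domed triangle that is not equilateral gives `Dome` data.
-/

namespace Pool.Agent.Lib.MP_ba95e8_co

open scoped RealInnerProductSpace Pointwise

lemma lat_neg (o u v : E3) (i j : ℤ) : lat (-o) (-u) (-v) i j = - lat o u v i j := by
  unfold lat
  module

lemma neg_hull3 (x y z : E3) :
    -(convexHull ℝ ({x, y, z} : Set E3)) = convexHull ℝ {-x, -y, -z} := by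
  rw [← convexHull_neg]
  congr 1
  ext w
  simp only [Set.mem_neg, Set.mem_insert_iff, Set.mem_singleton_iff, neg_eq_iff_eq_neg]

lemma IsCell.neg {o u v : E3} {T : Set E3} (h : IsCell o u v T) : IsCell (-o) (-u) (-v) (-T) := by
  obtain ⟨i, j, h | h⟩ := h
  · refine ⟨i, j, Or.inl ?_⟩
    rw [h, neg_hull3, lat_neg, lat_neg, lat_neg]
  · refine ⟨i, j, Or.inr ?_⟩
    rw [h, neg_hull3, lat_neg, lat_neg, lat_neg]

lemma IsConvexPolyiamond.neg {F : Set E3} (h : IsConvexPolyiamond F) :
    IsConvexPolyiamond (-F) := by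
  obtain ⟨hc, o, u, v, hu, hv, huv, C, hC1, hC2, hC3, hC4⟩ := h
  refine ⟨hc.neg, -o, -u, -v, by rwa [norm_neg], by rwa [norm_neg], by rwa [inner_neg_neg],
    (fun T => -T) '' C, hC1.image _, hC2.image _, ?_, ?_⟩
  · rintro T ⟨T', hT', rfl⟩
    exact (hC3 T' hT').neg
  · rw [hC4]
    ext x
    simp only [Set.mem_neg, Set.mem_sUnion, Set.mem_image, exists_exists_and_eq_and]

lemma collinear_neg {F : Set E3} (h : Collinear ℝ F) : Collinear ℝ (-F) := by
  rw [collinear_iff_exists_forall_eq_smul_vadd] at h ⊢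
  obtain ⟨p0, v, hv⟩ := h
  refine ⟨-p0, -v, fun p hp => ?_⟩
  obtain ⟨r, hr⟩ := hv (-p) hp
  refine ⟨r, ?_⟩
  simp only [vadd_eq_add] at hr ⊢
  rw [← neg_neg p, hr]
  module

lemma IsFace.neg {K F : Set E3} (h : IsFace K F) : IsFace (-K) (-F) := by
  obtain ⟨n, c, hn, hle, hF, hc⟩ := h
  refine ⟨-n, c, by simpa using hn, ?_, ?_, ?_⟩
  · intro x hx
    have := hle (-x) hx
    rwa [inner_neg_right, ← inner_neg_left] at this
  · ext x
    simp only [Set.mem_neg, hF, Set.mem_ofPred_eq, inner_neg_right, inner_neg_left]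
  · intro h1
    have := collinear_neg h1
    rw [neg_neg] at this
    exact hc this

lemma interior_neg_nonempty {K : Set E3} (h : (interior K).Nonempty) :
    (interior (-K)).Nonempty := by
  have h1 : (Homeomorph.neg E3) ⁻¹' interior K = interior (-K) :=
    (Homeomorph.neg E3).preimage_interior K
  rw [← h1]
  obtain ⟨x, hx⟩ := h
  exact ⟨-x, by simpa using hx⟩

lemma others_neg {S P : Set E3}
    (hall : ∀ F : Set E3, IsFace (convexHull ℝ S) F → F ≠ P → IsConvexPolyiamond F) :
    ∀ F : Set E3, IsFace (convexHull ℝ (-S)) F → F ≠ -P → IsConvexPolyiamond F := by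
  intro F hF hne
  rw [convexHull_neg] at hF
  have h1 := hF.neg
  rw [neg_neg] at h1
  have h2 := hall (-F) h1 (fun h3 => hne (by rw [← h3, neg_neg]))
  have := h2.neg
  rwa [neg_neg] at this

/-- reflection in the origin -/
theorem CanBeDomed.neg {P : Set E3} (h : CanBeDomed P) : CanBeDomed (-P) := by
  obtain ⟨S, hS, hint, hP, hall⟩ := h
  refine ⟨-S, hS.neg, ?_, ?_, others_neg hall⟩
  · rw [convexHull_neg]
    exact interior_neg_nonempty hint
  · rw [convexHull_neg]
    exact hP.neg

/-- a triangle as a periodic sequence -/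
def tri (A B C : E3) (i : ℤ) : E3 := if i % 3 = 0 then A else if i % 3 = 1 then B else C

lemma range_tri (A B C : E3) : Set.range (tri A B C) = {A, B, C} := by
  ext x
  simp only [Set.mem_range, Set.mem_insert_iff, Set.mem_singleton_iff]
  constructor
  · rintro ⟨i, rfl⟩
    unfold tri
    split_ifs <;> simp
  · rintro (rfl | rfl | rfl)
    · exact ⟨0, by simp [tri]⟩
    · exact ⟨1, by simp [tri]⟩
    · exact ⟨2, by simp [tri]⟩

lemma isPoly_tri {n A B C : E3} (h1 : ⟪n, B⟫ = ⟪n, A⟫) (h2 : ⟪n, C⟫ = ⟪n, A⟫)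
    (hd : 0 < det3 n (B - A) (C - A)) : IsPoly n 3 (tri A B C) where
  three := le_rfl
  per i := by
    unfold tri
    have : (i + ((3 : ℕ) : ℤ)) % 3 = i % 3 := by push_cast; omega
    rw [this]
  plane i := by
    have h0 : tri A B C 0 = A := by simp [tri]
    rw [h0]
    unfold tri
    split_ifs
    · rfl
    · exact h1
    · exact h2
  cvx i j hi hj := by
    have hj' : j = i + 2 := by push_cast at hj; omega
    subst hj'
    have h3 : i % 3 = 0 ∨ i % 3 = 1 ∨ i % 3 = 2 := by omega
    rcases h3 with h3 | h3 | h3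
    · have e1 : tri A B C i = A := by simp [tri, h3]
      have e2 : tri A B C (i + 1) = B := by
        have : (i + 1) % 3 = 1 := by omega
        simp [tri, this]
      have e3 : tri A B C (i + 2) = C := by
        have : (i + 2) % 3 = 2 := by omega
        simp [tri, this]
      rw [e1, e2, e3]
      exact hd
    · have e1 : tri A B C i = B := by simp [tri, h3]
      have e2 : tri A B C (i + 1) = C := by
        have : (i + 1) % 3 = 2 := by omega
        simp [tri, this]
      have e3 : tri A B C (i + 2) = A := by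
        have : (i + 2) % 3 = 0 := by omega
        simp [tri, this]
      rw [e1, e2, e3]
      have : det3 n (C - B) (A - B) = det3 n (B - A) (C - A) := by
        simp only [det3, sub_c]; ring
      rw [this]
      exact hd
    · have e1 : tri A B C i = C := by simp [tri, h3]
      have e2 : tri A B C (i + 1) = A := by
        have : (i + 1) % 3 = 0 := by omega
        simp [tri, this]
      have e3 : tri A B C (i + 2) = B := by
        have : (i + 2) % 3 = 1 := by omega
        simp [tri, this]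
      rw [e1, e2, e3]
      have : det3 n (A - C) (B - C) = det3 n (B - A) (C - A) := by
        simp only [det3, sub_c]; ring
      rw [this]
      exact hd

/-- a polyiamond in a plane is a coded polygon -/
lemma coded_of_polyiamond {F : Set E3} {n : E3} {t : ℝ} (hF : IsConvexPolyiamond F)
    (hn : ‖n‖ = 1) (hp : ∀ x ∈ F, ⟪n, x⟫ = t) (hc : ¬ Collinear ℝ F) :
    ∃ (m : ℕ) (p : ℤ → E3) (c : ℤ → ℕ), IsPoly n m p ∧ IsCoded n m p c ∧
      convexHull ℝ (Set.range p) = F := by
  obtain ⟨D, q, l, h1, h2⟩ := polyiamond_hex hF hn hp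
  obtain ⟨m, p, c, h3, h4, h5⟩ := hex_coded hn h1 (by rw [← h2]; exact hc)
  exact ⟨m, p, c, h3, h4, by rw [h5, h2]⟩

lemma dome_of {S : Set E3} (hS : S.Finite) (hint : (interior (convexHull ℝ S)).Nonempty)
    {n : E3} {t : ℝ} (hn : ‖n‖ = 1) (hle : ∀ x ∈ convexHull ℝ S, ⟪n, x⟫ ≤ t) {x y z : E3}
    (hP : convexHull ℝ {x, y, z} = {w | w ∈ convexHull ℝ S ∧ ⟪n, w⟫ = t})
    (hall : ∀ F : Set E3, IsFace (convexHull ℝ S) F → F ≠ convexHull ℝ {x, y, z} →
      IsConvexPolyiamond F)
    (hdet : 0 < det3 n (y - z) (x - z))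
    (l1 : dist y z < dist x y + dist x z) (l2 : dist x y ≤ dist y z) (l3 : dist x z ≤ dist x y)
    (l4 : dist x z < dist y z) :
    Dome (convexHull ℝ S) (fun i => if i = 0 then x else if i = 1 then y else z) := by
  have hmem : ∀ w ∈ ({x, y, z} : Set E3), ⟪n, w⟫ = t := by
    intro w hw
    have h1 : w ∈ convexHull ℝ ({x, y, z} : Set E3) := subset_convexHull ℝ _ hw
    rw [hP] at h1
    exact h1.2
  have hx : ⟪n, x⟫ = t := hmem x (by simp)
  have hy : ⟪n, y⟫ = t := hmem y (by simp)
  have hz : ⟪n, z⟫ = t := hmem z (by simp)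
  have hset : ({z, y, x} : Set E3) = {x, y, z} := by
    ext w; simp only [Set.mem_insert_iff, Set.mem_singleton_iff]; tauto
  have hbase : Fc (convexHull ℝ S) n 3 (tri z y x) := by
    have h0 : tri z y x 0 = z := by simp [tri]
    refine ⟨hn, isPoly_tri (by rw [hy, hz]) (by rw [hx, hz]) hdet, ?_, ?_⟩
    · intro w hw
      rw [h0, hz]
      exact hle w hw
    · rw [h0, hz, range_tri, hset, hP]
  refine ⟨⟨S, hS, rfl⟩, hint, ?_, ?_, ?_, ?_, ?_, ?_, ?_⟩
  · intro F hF
    by_cases hFP : F = convexHull ℝ {x, y, z}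
    · exact ⟨n, 3, _, hbase, by rw [range_tri, hset, hFP]⟩
    · have hpoly := hall F hF hFP
      obtain ⟨n', c, hn', hle', hF', hcol⟩ := hF
      have hpos : 0 < ‖n'‖ := norm_pos_iff.mpr hn'
      have hn1 : ‖‖n'‖⁻¹ • n'‖ = 1 := by
        rw [norm_smul, norm_inv, norm_norm, inv_mul_cancel₀ hpos.ne']
      have hin : ∀ w, ⟪‖n'‖⁻¹ • n', w⟫ = ‖n'‖⁻¹ * ⟪n', w⟫ := fun w => by
        rw [inner_smul_left]; rfl
      obtain ⟨m, p, cc, h1, h2, h3⟩ := coded_of_polyiamond (n := ‖n'‖⁻¹ • n')
        (t := ‖n'‖⁻¹ * c) hpoly hn1 (fun w hw => by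
          rw [hF'] at hw
          rw [hin, hw.2]) hcol
      have hp0 : p 0 ∈ F := by
        rw [← h3]; exact subset_convexHull ℝ _ ⟨0, rfl⟩
      have hp0' := hp0
      rw [hF'] at hp0'
      refine ⟨_, m, p, ⟨hn1, h1, ?_, ?_⟩, h3.symm⟩
      · intro w hw
        rw [hin, hin, hp0'.2]
        exact mul_le_mul_of_nonneg_left (hle' w hw) (by positivity)
      · rw [h3, hF']
        ext w
        simp only [Set.mem_ofPred_eq, hin, hp0'.2]
        constructor
        · rintro ⟨g1, g2⟩
          exact ⟨g1, mul_left_cancel₀ (inv_ne_zero hpos.ne') g2⟩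
        · rintro ⟨g1, g2⟩
          exact ⟨g1, by rw [g2]⟩
  · refine ⟨n, _, hbase, ?_, ?_, ?_⟩ <;> simp [tri]
  · intro n' m p hf hne
    simp only [if_true, one_ne_zero, if_false, OfNat.ofNat_ne_zero, OfNat.ofNat_ne_one] at hne
    have hface := hf.isFace
    have hpoly := hall _ hface hne
    have hcol : ¬ Collinear ℝ (convexHull ℝ (Set.range p)) := by
      obtain ⟨_, _, _, _, _, h⟩ := hface
      exact h
    obtain ⟨m', p', cc, h1, h2, h3⟩ := coded_of_polyiamond (n := n') (t := ⟪n', p 0⟫) hpoly hf.unit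
      (fun w hw => by
        rw [← hf.eq] at hw
        exact hw.2) hcol
    obtain ⟨hm, a, ha⟩ := hf.poly.same hf.nne h1 h3.symm
    subst hm
    have h4 : p = fun i => p' (i + -a) := by
      ext1 i
      rw [ha]
      congr 1
      ring
    exact ⟨_, by rw [h4]; exact h2.shift (-a)⟩
  · simpa using l1
  · simpa using l2
  · simpa using l3
  · simpa using l4

/-- labels of the vertices -/
lemma exists_labels (a b c : E3) (hne : ¬ (dist a b = dist b c ∧ dist b c = dist c a)) :
    ∃ x y z : E3, ({x, y, z} : Set E3) = {a, b, c} ∧ dist x y ≤ dist y z ∧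
      dist x z ≤ dist x y ∧ dist x z < dist y z := by
  have s1 : ({a, c, b} : Set E3) = {a, b, c} := by
    ext w; simp only [Set.mem_insert_iff, Set.mem_singleton_iff]; tauto
  have s2 : ({b, a, c} : Set E3) = {a, b, c} := by
    ext w; simp only [Set.mem_insert_iff, Set.mem_singleton_iff]; tauto
  have s3 : ({b, c, a} : Set E3) = {a, b, c} := by
    ext w; simp only [Set.mem_insert_iff, Set.mem_singleton_iff]; tauto
  have s4 : ({c, a, b} : Set E3) = {a, b, c} := by
    ext w; simp only [Set.mem_insert_iff, Set.mem_singleton_iff]; tauto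
  have s5 : ({c, b, a} : Set E3) = {a, b, c} := by
    ext w; simp only [Set.mem_insert_iff, Set.mem_singleton_iff]; tauto
  have e1 := dist_comm a b
  have e2 := dist_comm b c
  have e3 := dist_comm c a
  have key : ∀ x y z : E3, ({x, y, z} : Set E3) = {a, b, c} → dist x y ≤ dist y z →
      dist x z ≤ dist x y → (dist x z = dist y z → False) →
      ∃ x y z : E3, ({x, y, z} : Set E3) = {a, b, c} ∧ dist x y ≤ dist y z ∧
      dist x z ≤ dist x y ∧ dist x z < dist y z := by
    intro x y z h1 h2 h3 h4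
    exact ⟨x, y, z, h1, h2, h3, lt_of_le_of_ne (h3.trans h2) h4⟩
  rcases le_total (dist a b) (dist b c) with h1 | h1 <;>
  rcases le_total (dist b c) (dist c a) with h2 | h2 <;>
  rcases le_total (dist a b) (dist c a) with h3 | h3
  · -- ab ≤ bc ≤ ca : longest ca, middle bc, shortest ab : x = b, y = c, z = a
    refine key b c a s3 (by linarith) (by linarith) (fun h => hne ⟨by linarith, by linarith⟩)
  · refine key b c a s3 (by linarith) (by linarith) (fun h => hne ⟨by linarith, by linarith⟩)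
  · -- ab ≤ ca ≤ bc : longest bc, middle ca, shortest ab : x = a, y = c, z = b
    refine key a c b s1 (by linarith) (by linarith) (fun h => hne ⟨by linarith, by linarith⟩)
  · -- ca ≤ ab ≤ bc : longest bc, middle ab, shortest ca: x = a, y = b, z = c
    refine key a b c rfl (by linarith) (by linarith) (fun h => hne ⟨by linarith, by linarith⟩)
  · -- bc ≤ ab ≤ ca: longest ca, middle ab, shortest bc: x = b, y = a, z = c
    refine key b a c s2 (by linarith) (by linarith) (fun h => hne ⟨by linarith, by linarith⟩)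
  · -- bc ≤ ca ≤ ab: longest ab, middle ca, shortest bc: x = c, y = a, z = b
    refine key c a b s4 (by linarith) (by linarith) (fun h => hne ⟨by linarith, by linarith⟩)
  · -- ca ≤ bc ≤ ab, ab ≤ ca : all equal
    exact absurd ⟨by linarith, by linarith⟩ hne
  · -- ca ≤ bc ≤ ab: longest ab, middle bc, shortest ca: x = c, y = b, z = a
    refine key c b a s5 (by linarith) (by linarith) (fun h => hne ⟨by linarith, by linarith⟩)

lemma det_ne_zero {n x y z : E3} (hn : ‖n‖ = 1) (hx : ⟪n, x - z⟫ = 0) (hy : ⟪n, y - z⟫ = 0)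
    (hc : ¬ Collinear ℝ {x, y, z}) : det3 n (y - z) (x - z) ≠ 0 := by
  intro h0
  apply hc
  set u := y - z with hu
  set w := x - z with hw
  have h1 : cr n (cr u w) = 0 := by rw [cr_cr, hx, hy]; simp
  have h2 : cr n (cr n (cr u w)) = ⟪n, cr u w⟫ • n - ⟪n, n⟫ • cr u w := cr_cr n n _
  have h3 : cr n (0 : E3) = 0 := by apply ext3 <;> simp
  have h4 : ⟪n, cr u w⟫ = 0 := by rw [inner_cr', det3_rot, h0]
  rw [h1, h3, h4, real_inner_self_eq_norm_sq, hn] at h2
  have h5 : cr u w = 0 := by
    have : (0 : E3) = - cr u w := by rw [h2]; simp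
    exact neg_eq_zero.mp this.symm
  by_cases hu0 : u = 0
  · have : y = z := sub_eq_zero.mp hu0
    rw [this]
    have : ({x, z, z} : Set E3) = {x, z} := by simp
    rw [this]
    exact collinear_pair ℝ x z
  · have h6 := cr_cr u u w
    rw [h5] at h6
    have h7 : cr u (0 : E3) = 0 := by apply ext3 <;> simp
    rw [h7] at h6
    have hpos : ⟪u, u⟫ ≠ 0 := inner_self_ne_zero.mpr hu0
    have h8 : w = (⟪u, u⟫⁻¹ * ⟪u, w⟫) • u := by
      have h9 : ⟪u, u⟫ • w = ⟪u, w⟫ • u := (sub_eq_zero.mp h6.symm).symm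
      rw [mul_smul, ← h9, smul_smul, inv_mul_cancel₀ hpos, one_smul]
    rw [collinear_iff_of_mem (p₀ := z) (by simp)]
    refine ⟨u, ?_⟩
    intro p hp
    simp only [Set.mem_insert_iff, Set.mem_singleton_iff] at hp
    rcases hp with rfl | rfl | rfl
    · refine ⟨⟪u, u⟫⁻¹ * ⟪u, w⟫, ?_⟩
      rw [← h8, hw]; simp
    · exact ⟨1, by rw [hu]; simp⟩
    · exact ⟨0, by simp⟩

theorem exists_dome {a b c : E3} (hT : AffineIndependent ℝ ![a, b, c])
    (hd : CanBeDomed (convexHull ℝ {a, b, c}))
    (hne : ¬ (dist a b = dist b c ∧ dist b c = dist c a)) :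
    ∃ (K : Set E3) (b : ℕ → E3), Dome K b := by
  obtain ⟨x, y, z, hset, l2, l3, l4⟩ := exists_labels a b c hne
  have hcol : ¬ Collinear ℝ ({x, y, z} : Set E3) := by
    rw [hset]
    exact affineIndependent_iff_not_collinear_set.mp hT
  rw [← hset] at hd
  obtain ⟨S, hS, hint, hP, hall⟩ := hd
  obtain ⟨n', c', hn', hle', hP', -⟩ := hP
  have hpos : 0 < ‖n'‖ := norm_pos_iff.mpr hn'
  set n := ‖n'‖⁻¹ • n' with hndef
  set t := ‖n'‖⁻¹ * c' with ht
  have hn : ‖n‖ = 1 := by
    rw [hndef, norm_smul, norm_inv, norm_norm, inv_mul_cancel₀ hpos.ne']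
  have hin : ∀ w, ⟪n, w⟫ = ‖n'‖⁻¹ * ⟪n', w⟫ := fun w => by
    rw [hndef, inner_smul_left]; rfl
  have hle : ∀ w ∈ convexHull ℝ S, ⟪n, w⟫ ≤ t := by
    intro w hw
    rw [hin]
    exact mul_le_mul_of_nonneg_left (hle' w hw) (by positivity)
  have hPn : convexHull ℝ {x, y, z} = {w | w ∈ convexHull ℝ S ∧ ⟪n, w⟫ = t} := by
    rw [hP']
    ext w
    simp only [Set.mem_ofPred_eq, hin, ht]
    constructor
    · rintro ⟨g1, g2⟩
      exact ⟨g1, by rw [g2]⟩
    · rintro ⟨g1, g2⟩
      exact ⟨g1, mul_left_cancel₀ (inv_ne_zero hpos.ne') g2⟩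
  have hmem : ∀ w ∈ ({x, y, z} : Set E3), ⟪n, w⟫ = t := by
    intro w hw
    have h1 : w ∈ convexHull ℝ ({x, y, z} : Set E3) := subset_convexHull ℝ _ hw
    rw [hPn] at h1
    exact h1.2
  have hx : ⟪n, x⟫ = t := hmem x (by simp)
  have hy : ⟪n, y⟫ = t := hmem y (by simp)
  have hz : ⟪n, z⟫ = t := hmem z (by simp)
  have l1 : dist y z < dist x y + dist x z := by
    rw [dist_comm x y]
    refine lt_of_le_of_ne (dist_triangle y x z) ?_
    intro h1
    have h2 : Wbtw ℝ y x z := dist_add_dist_eq_iff.mp h1.symm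
    apply hcol
    have h3 := h2.collinear
    have h4 : ({y, x, z} : Set E3) = {x, y, z} := by
      ext w; simp only [Set.mem_insert_iff, Set.mem_singleton_iff]; tauto
    rwa [h4] at h3
  have hd0 := det_ne_zero hn (x := x) (y := y) (z := z) (by rw [inner_sub_right, hx, hz, sub_self])
    (by rw [inner_sub_right, hy, hz, sub_self]) hcol
  rcases lt_or_gt_of_ne hd0 with hneg | hgt
  · refine ⟨convexHull ℝ (-S), _, dome_of (n := -n) (t := t) (x := -x) (y := -y) (z := -z)
      hS.neg (by rw [convexHull_neg]; exact interior_neg_nonempty hint) (by rwa [norm_neg]) ?_ ?_ ?_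
      ?_ (by simpa using l1) (by simpa using l2) (by simpa using l3) (by simpa using l4)⟩
    · intro w hw
      rw [convexHull_neg] at hw
      have := hle (-w) hw
      rwa [inner_neg_right, ← inner_neg_left] at this
    · rw [← neg_hull3, hPn, convexHull_neg]
      ext w
      simp only [Set.mem_neg, Set.mem_ofPred_eq, inner_neg_right, inner_neg_left]
    · rw [← neg_hull3]
      exact others_neg hall
    · have : det3 (-n) (-y - -z) (-x - -z) = - det3 n (y - z) (x - z) := by
        simp only [det3, sub_c, neg_c]; ring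
      rw [this]
      linarith
  · exact ⟨convexHull ℝ S, _, dome_of hS hint hn hle hPn hall hgt l1 l2 l3 l4⟩

end Pool.Agent.Lib.MP_ba95e8_co
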