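import Pool.Agent.Lib.MP_ba95e8_co.RingInv

/-!
Deltahedral domes, task R2: feasibility of the counters.
-/

namespace Pool.Agent.Lib.MP_ba95e8_co
namespace Chk

variable {V : Type*} {M : Model V} {s : St} {lab : ℕ → V} {v k : ℕ} {U : ℤ → V} {C : ℤ → ℕ}

private lemma corA_fst (f : ℕ) : ∀ (l rc : List ℕ) (w : ℕ), (corA f l rc w).map (·.1) = l
  | [], _, _ => rfl
  | v :: rest, rc, w => by
    show v :: (corA f rest (tl rc) v).map (·.1) = v :: rest
    rw [corA_fst f rest]

private lemma exists_cor {fs : List Fa} {F : Fa} (hF : F ∈ fs) {v : ℕ} (hv : v ∈ F.ws) :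
    ∃ u w c, Cor fs v u w c := by
  have h1 : v ∈ (cors F).map (·.1) := by
    rw [cors, corA_fst]; exact hv
  rw [List.mem_map] at h1
  obtain ⟨⟨v', u, w, c⟩, hq, rfl⟩ := h1
  exact ⟨u, w, c, List.mem_flatMap.2 ⟨F, hF, hq⟩⟩

private lemma Good.exists_pl (h : Good M s lab) (hv : v < s.n) (hR : RingAt M lab v k U C) :
    ∃ i, PlI s lab v U i := by
  obtain ⟨F, hF, hvF⟩ := h.used v hv
  obtain ⟨u, w, c, hc⟩ := exists_cor hF hvF
  obtain ⟨i, h1, _, _⟩ := h.cor_ring hR hc
  exact ⟨i, u, w, c, hc, h1⟩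

private lemma RingAt.pl_per (hR : RingAt M lab v k U C) (i : ℤ) :
    PlI s lab v U (i + k) ↔ PlI s lab v U i := by
  unfold PlI
  rw [hR.perU i]

/-- the general inequality -/
private lemma feas_gen (hk : 0 < k) {P : ℤ → Prop} (hP : ∀ i, P (i + k) ↔ P i)
    (hex : ∃ i, P i) (hC2 : ∀ i, C i ≤ 2) (hC0 : ∀ i, C i = 0 → P i) :
    Feas (pc k (fun i => C i = 1)) (pc k (fun i => C i = 2)) (pc k (fun i => P i ∧ C i = 1))
      (pc k (fun i => P i ∧ C i = 2)) (pe k P) := by
  obtain ⟨i1, h1⟩ := hex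
  refine ⟨pc_mono fun i h => h.2, pc_mono fun i h => h.2, ?_, ?_⟩
  · intro h0
    have hall := all_of_pe_zero hk hP h0 h1
    exact ⟨pc_congr fun i => ⟨fun h => h.2, fun h => ⟨hall i, h⟩⟩,
      pc_congr fun i => ⟨fun h => h.2, fun h => ⟨hall i, h⟩⟩⟩
  · have h2 := pe_add_le hP
    have h3 : pc k P = pc k (fun i => C i = 0) + (pc k (fun i => P i ∧ C i = 1) +
        pc k (fun i => P i ∧ C i = 2)) := by
      rw [← pc_add (fun i h => by omega), ← pc_add (fun i h => by omega)]
      apply pc_congr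
      intro i
      have := hC2 i
      constructor
      · intro h
        have h4 : C i = 0 ∨ C i = 1 ∨ C i = 2 := by omega
        rcases h4 with h4 | h4 | h4
        · exact Or.inl h4
        · exact Or.inr (Or.inl ⟨h, h4⟩)
        · exact Or.inr (Or.inr ⟨h, h4⟩)
      · rintro (h | h | h)
        · exact hC0 i h
        · exact h.1
        · exact h.1
    have h5 : k = pc k (fun i => C i = 0) + (pc k (fun i => C i = 1) +
        pc k (fun i => C i = 2)) := by
      rw [← pc_add (fun i h => by omega), ← pc_add (fun i h => by omega)]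
      have : pc k (fun _ => True) = k := by
        unfold pc; simp
      conv_lhs => rw [← this]
      apply pc_congr
      intro i
      have := hC2 i
      simp only [true_iff]
      omega
    omega

theorem Good.feas (h : Good M s lab) (hv : v < s.n) (hR : RingAt M lab v k U C) :
    Feas (pc k (fun i => C i = 1)) (pc k (fun i => C i = 2)) (nC s.fs v 1) (nC s.fs v 2)
      (nE s.fs v) := by
  have hk : 0 < k := by have := hR.k3; omega
  rw [h.nC_eq hR, h.nC_eq hR, h.nE_eq hR]
  exact feas_gen hk hR.pl_per (h.exists_pl hv hR) hR.code_le fun i hi => h.pl_zero hR hi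

private lemma BPk_min (v : ℕ) : BPk v = BPk (min v 3) := by
  by_cases h : v < 3
  · rw [min_eq_left (by omega)]
  · rw [min_eq_right (by omega)]
    unfold BPk
    rw [if_neg (by omega), if_neg (by omega), if_neg (by omega)]
    simp

private lemma three_cases (v : ℕ) : min v 3 = v ∨ ∃ m, v = m + 3 ∧ min v 3 = 3 := by
  by_cases h : v < 3
  · exact Or.inl (min_eq_left (by omega))
  · exact Or.inr ⟨v - 3, by omega, min_eq_right (by omega)⟩

private lemma tyTt_min (v : ℕ) : tyTt v = tyTt (min v 3) := by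
  rcases three_cases v with h | ⟨m, hm, h⟩
  · rw [h]
  · rw [h, hm]; rfl

private lemma awTt_min (v : ℕ) : awTt v = awTt (min v 3) := by
  rcases three_cases v with h | ⟨m, hm, h⟩
  · rw [h]
  · rw [h, hm]; rfl

private lemma triet_min (v : ℕ) : triet v = triet (min v 3) := by
  rcases three_cases v with h | ⟨m, hm, h⟩
  · rw [h]
  · rw [h, hm]; rfl

private lemma min_lt4 (v : ℕ) : min v 3 < 4 := by omega

/-- small counters -/
theorem Good.small (h : Good M s lab) (hv : v < s.n) :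
    nC s.fs v 1 < 6 ∧ nC s.fs v 2 < 3 ∧ nE s.fs v < 6 := by
  obtain ⟨k, U, C, hR⟩ := h.ring hv
  obtain ⟨q, hq, r, hr, hrot, hlen, _⟩ := hR.mat 0
  rw [BPk_min] at hq
  obtain ⟨t1, t2, t3, t4, t5, t6, t7⟩ := tab_len _ (min_lt4 v) q hq
  have c1 := hR.count_eq hrot 1
  have c2 := hR.count_eq hrot 2
  obtain ⟨f1, f2, _, _⟩ := h.feas hv hR
  refine ⟨by omega, by omega, ?_⟩
  rw [h.nE_eq hR]
  have hP := hR.pl_per (s := s)
  have h1 := pe_add_le hP
  have hk : 0 < k := by have := hR.k3; omega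
  obtain ⟨i1, hi1⟩ := h.exists_pl hv hR
  have h2 : 1 ≤ pc k (PlI s lab v U) := by
    rw [← pc_single hk i1]
    apply pc_mono
    rintro i ⟨m, hm⟩
    have hi : i = i1 + m * k := by linarith
    -- periodicity
    have key : ∀ m : ℤ, PlI s lab v U (i1 + m * k) := by
      intro m
      induction m using Int.induction_on with
      | zero => simpa using hi1
      | succ m ih =>
        have e : i1 + ((m : ℤ) + 1) * k = (i1 + m * k) + k := by ring
        rw [e, hP]; exact ih
      | pred m ih =>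
        have e : i1 + -(m : ℤ) * k = (i1 + (-(m : ℤ) - 1) * k) + k := by ring
        rw [e, hP] at ih; exact ih
    rw [hi]; exact key m
  have := hR.k6
  omega

open Classical in
/-- adding a corner -/
theorem Good.feas_add (h : Good M s lab) (hv : v < s.n) (hR : RingAt M lab v k U C) {i0 : ℤ}
    (h0 : ¬ PlI s lab v U i0) :
    1 ≤ nE s.fs v ∧
    (if PlI s lab v U (i0 - 1) then 1 else 0) + (if PlI s lab v U (i0 + 1) then 1 else 0) ≤
      nE s.fs v + 1 ∧
    (C i0 = 1 ∨ C i0 = 2) ∧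
    Feas (pc k (fun i => C i = 1)) (pc k (fun i => C i = 2))
      (nC s.fs v 1 + (if C i0 = 1 then 1 else 0)) (nC s.fs v 2 + (if C i0 = 2 then 1 else 0))
      (nE s.fs v + 1 - ((if PlI s lab v U (i0 - 1) then 1 else 0) +
        (if PlI s lab v U (i0 + 1) then 1 else 0))) := by
  have hk : 0 < k := by have := hR.k3; omega
  obtain ⟨i1, hi1⟩ := h.exists_pl hv hR
  have hP := hR.pl_per (s := s)
  have hins := pe_insert hR.k3 hP h0
  have hC2 := hR.code_le i0
  have hC0 : C i0 ≠ 0 := fun hc => h0 (h.pl_zero hR hc)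
  have hper : ∀ i : ℤ, (PlI s lab v U (i + k) ∨ (k : ℤ) ∣ i + k - i0) ↔
      (PlI s lab v U i ∨ (k : ℤ) ∣ i - i0) := by
    intro i
    rw [hP]
    have e : i + k - i0 = (i - i0) + k := by ring
    rw [e, dvd_add_self_right]
  have hCper : ∀ c : ℕ, ∀ i : ℤ, C (i + k) = c ↔ C i = c := by
    intro c i; rw [hR.perC]
  have n1 := pc_insert (Q := fun i => C i = 1) hk hP (hCper 1) h0
  have n2 := pc_insert (Q := fun i => C i = 2) hk hP (hCper 2) h0
  refine ⟨?_, ?_, by omega, ?_⟩
  · rw [h.nE_eq hR]; exact pe_pos hk hP h0 hi1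
  · rw [h.nE_eq hR]; omega
  · rw [h.nC_eq hR, h.nC_eq hR, h.nE_eq hR, ← n1, ← n2]
    have e : pe k (PlI s lab v U) + 1 - ((if PlI s lab v U (i0 - 1) then 1 else 0) +
        (if PlI s lab v U (i0 + 1) then 1 else 0)) =
        pe k (fun i => PlI s lab v U i ∨ (k : ℤ) ∣ i - i0) := by omega
    rw [e]
    exact feas_gen hk hper ⟨i1, Or.inl hi1⟩ hR.code_le fun i hi => Or.inl (h.pl_zero hR hi)

/-- the type bit of the pattern of the ring is set -/
theorem Good.ty_bit (h : Good M s lab) (hv : v < s.n) (hR : RingAt M lab v k U C) (i : ℤ) :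
    ∃ q ∈ BPk v, ∃ r < k, ∃ tb < 9,
      q.1.rotate r = (List.range k).map (fun t : ℕ => C (i + t)) ∧
      (∀ t < k, ((q.2.rotate r).getD t 0).testBit (M.cl (lab v) (U (i + t))) = true) ∧
      covB (q.2.rotate r) tb (q.1.rotate r) 0 (triet v) = true ∧
      (tyOf tyTt v (dg s.cnt v)).testBit tb = true := by
  obtain ⟨q, hq, r, hr, hrot, hlen, hmat⟩ := hR.mat i
  have hq' := hq
  rw [BPk_min] at hq'
  obtain ⟨tb, htb, hcov, hbits⟩ := tab_cov _ (min_lt4 v) q hq'
  have hlen1 : q.1.length = k := by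
    have := congrArg List.length hrot
    simpa using this
  refine ⟨q, hq, r, hr, tb, htb, hrot, hmat, ?_, ?_⟩
  · rw [triet_min]; exact hcov r (by omega)
  · obtain ⟨s1, s2, s3⟩ := h.small hv
    have hf := h.feas hv hR
    rw [← hR.count_eq hrot 1, ← hR.count_eq hrot 2] at hf
    have hb := hbits _ s1 _ s2 _ (by omega : nE s.fs v < 7) hf
    rw [← tyTt_min] at hb
    have hc := h.sp.cnt v
    show (Nat.land (Nat.shiftRight (tyTt v) (Nat.mul 16 (dg s.cnt v))) 511).testBit tb = true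
    have e1 : Nat.land (Nat.shiftRight (tyTt v) (Nat.mul 16 (dg s.cnt v))) 511 =
        (tyTt v >>> (16 * dg s.cnt v)) &&& (2 ^ 9 - 1) := rfl
    rw [e1, Nat.testBit_and, Nat.testBit_shiftRight, Nat.testBit_two_pow_sub_one, hc, hb]
    simpa using htb

open Classical in
/-- the acceptance bit of a new corner is set; the second bit in case of no attachment -/
theorem Good.acc_bit (h : Good M s lab) (hv : v < s.n) (hR : RingAt M lab v k U C) {i0 : ℤ}
    (h0 : ¬ PlI s lab v U i0) {t : ℕ}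
    (ht : t = (if PlI s lab v U (i0 - 1) then 1 else 0) + (if PlI s lab v U (i0 + 1) then 1 else 0)) :
    (awTt v).testBit (8 * dg s.cnt v + (3 * (C i0 - 1) + t)) = true ∧
    (t = 0 → (awTt v).testBit (8 * dg s.cnt v + (3 * (C i0 - 1) + 1)) = true) := by
  obtain ⟨a1, a2, a3, a4⟩ := h.feas_add hv hR h0
  obtain ⟨q, hq, r, hr, hrot, hlen, hmat⟩ := hR.mat i0
  rw [BPk_min] at hq
  obtain ⟨s1, s2, s3⟩ := h.small hv
  rw [← ht] at a2 a4
  have ht3 : t < 3 := by rw [ht]; split_ifs <;> omega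
  rw [← hR.count_eq hrot 1, ← hR.count_eq hrot 2] at a4
  have hc := h.sp.cnt v
  have hcode : C i0 - 1 < 2 := by omega
  have e1 : (if C i0 = 1 then 1 else 0) = (if C i0 - 1 = 0 then 1 else 0) := by
    rcases a3 with h1 | h1 <;> rw [h1] <;> simp
  have e2 : (if C i0 = 2 then 1 else 0) = (if C i0 - 1 = 0 then 0 else 1) := by
    rcases a3 with h1 | h1 <;> rw [h1] <;> simp
  rw [e1, e2] at a4
  rw [awTt_min, hc]
  refine ⟨tab_acc _ (min_lt4 v) q hq _ s1 _ s2 _ (by omega) _ hcode t ht3 a1 a2 a4, fun ht0 => ?_⟩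
  apply tab_acc _ (min_lt4 v) q hq _ s1 _ s2 _ (by omega) _ hcode 1 (by omega) a1 (by omega)
  rw [ht0] at a4
  obtain ⟨b1, b2, b3, b4⟩ := a4
  exact ⟨b1, b2, fun hg => by omega, by omega⟩

end Chk
end Pool.Agent.Lib.MP_ba95e8_co
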