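import Pool.Agent.Lib.MP_ba95e8_co.Place
import Pool.Agent.Lib.MP_ba95e8_co.FeasInv

/-!
Deltahedral domes, task X1: a real face can be placed.
-/

namespace Pool.Agent.Lib.MP_ba95e8_co
namespace Chk

variable {V : Type*} {M : Model V} {s : St} {lab : ℕ → V}

/-! ### indices of corners -/

theorem x1_hd_cons (d x : ℕ) (l : List ℕ) : hd d (x :: l) = x := rfl
theorem x1_hd_nil (d : ℕ) : hd d [] = d := rfl
theorem x1_tl_cons (x : ℕ) (l : List ℕ) : tl (x :: l) = l := rfl
theorem x1_tl_nil : tl [] = [] := rfl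

theorem x1_hd_getD (d : ℕ) (l : List ℕ) : hd d l = if 0 < l.length then l.getD 0 0 else d := by
  cases l <;> simp [x1_hd_cons, x1_hd_nil]

theorem x1_tl_getD (l : List ℕ) (j : ℕ) : (tl l).getD j 0 = l.getD (j + 1) 0 := by
  cases l <;> simp [x1_tl_cons, x1_tl_nil]

theorem x1_hd0 (l : List ℕ) : hd 0 l = l.getD 0 0 := by
  cases l <;> simp [x1_hd_cons, x1_hd_nil]

theorem x1_mem_corA (f : ℕ) : ∀ (ws rc : List ℕ) (w : ℕ) (q : ℕ × ℕ × ℕ × ℕ), q ∈ corA f ws rc w ↔
    ∃ j < ws.length, q = (ws.getD j 0, (if j + 1 < ws.length then ws.getD (j + 1) 0 else f),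
      (if j = 0 then w else ws.getD (j - 1) 0), rc.getD j 0)
  | [], rc, w, q => by simp [corA]
  | v :: rest, rc, w, q => by
    rw [corA, List.mem_cons, x1_mem_corA f rest (tl rc) v q]
    constructor
    · rintro (h | ⟨j, hj, h⟩)
      · refine ⟨0, by simp, ?_⟩
        rw [h, x1_hd_getD f rest, x1_hd0]
        simp
      · refine ⟨j + 1, by simpa using hj, ?_⟩
        rw [h, x1_tl_getD]
        cases j with
        | zero =>
          by_cases h1 : 1 < rest.length
          · have h2 : 2 ≤ rest.length := h1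
            simp [h1, h2]
          · have h2 : ¬ 2 ≤ rest.length := h1
            simp [h1, h2]
        | succ j => simp
    · rintro ⟨j, hj, h⟩
      cases j with
      | zero =>
        left
        rw [h, x1_hd_getD f rest, x1_hd0]
        simp
      | succ j =>
        right
        refine ⟨j, by simpa using hj, ?_⟩
        rw [h, x1_tl_getD]
        cases j with
        | zero =>
          by_cases h1 : 1 < rest.length
          · have h2 : 2 ≤ rest.length := h1
            simp [h1, h2]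
          · have h2 : ¬ 2 ≤ rest.length := h1
            simp [h1, h2]
        | succ j => simp

theorem x1_fwd_len {F : Fa} (hW : Wf F) : (fwd lab F).length = F.ws.length := by
  unfold fwd
  rw [List.length_reverse, List.length_zip, List.length_map, hW.len, Nat.min_self]

theorem x1_fwd_get {F : Fa} (hW : Wf F) (i : ℕ) (hi : i < F.ws.length) :
    (fwd lab F)[i]? = some (lab (F.ws.getD (F.ws.length - 1 - i) 0),
      F.rc.getD (F.ws.length - 1 - i) 0) := by
  have hlen : ((F.ws.map lab).zip F.rc).length = F.ws.length := by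
    rw [List.length_zip, List.length_map, hW.len, Nat.min_self]
  unfold fwd
  rw [List.getElem?_reverse (by rw [hlen]; exact hi), hlen]
  have h1 : F.ws.length - 1 - i < F.ws.length := by omega
  have h2 : F.ws.length - 1 - i < F.rc.length := by rw [hW.len]; exact h1
  rw [List.getElem?_zip_eq_some]
  constructor
  · rw [List.getElem?_map, List.getElem?_eq_getElem h1, List.getD_eq_getElem _ _ h1]
    rfl
  · rw [List.getElem?_eq_getElem h2, List.getD_eq_getElem _ _ h2]

/-- from a rotation of the forward list to a corner -/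
theorem x1_conv {F : Fa} (hW : Wf F) {x y z : V} {c d e : ℕ} {r : List (V × ℕ)}
    (hr : ((x, d) :: (y, c) :: (z, e) :: r) ~r fwd lab F) :
    ∃ v u w, (v, u, w, c) ∈ cors F ∧ lab u = x ∧ lab v = y ∧ lab w = z ∧
      u ∈ F.ws ∧ v ∈ F.ws ∧ w ∈ F.ws := by
  obtain ⟨n, hn⟩ := hr.symm
  have hm3 := hW.three
  set m := F.ws.length with hm
  have hfl : (fwd lab F).length = m := x1_fwd_len hW
  have hg : ∀ t < m, ((fwd lab F).rotate n)[t]? = some (lab (F.ws.getD (m - 1 - (t + n) % m) 0),
      F.rc.getD (m - 1 - (t + n) % m) 0) := by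
    intro t ht
    rw [List.getElem?_rotate (by rw [hfl]; exact ht), hfl]
    exact x1_fwd_get hW _ (Nat.mod_lt _ (by omega))
  have g0 := hg 0 (by omega)
  have g1 := hg 1 (by omega)
  have g2 := hg 2 (by omega)
  rw [hn] at g0 g1 g2
  simp only [List.getElem?_cons_zero, List.getElem?_cons_succ, Option.some.injEq,
    Prod.mk.injEq] at g0 g1 g2
  -- the index
  set i0 := (0 + n) % m with hi0
  set i1 := (1 + n) % m with hi1
  set i2 := (2 + n) % m with hi2
  have b0 : i0 < m := Nat.mod_lt _ (by omega)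
  have b1 : i1 < m := Nat.mod_lt _ (by omega)
  have b2 : i2 < m := Nat.mod_lt _ (by omega)
  have e01 : i1 = if i0 + 1 = m then 0 else i0 + 1 := by
    have : i1 = (i0 + 1) % m := by rw [hi1, hi0, Nat.mod_add_mod]; congr 1; omega
    rw [this]
    split_ifs with h
    · rw [h, Nat.mod_self]
    · exact Nat.mod_eq_of_lt (by omega)
  have e12 : i2 = if i1 + 1 = m then 0 else i1 + 1 := by
    have : i2 = (i1 + 1) % m := by rw [hi2, hi1, Nat.mod_add_mod]; congr 1; omega
    rw [this]
    split_ifs with h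
    · rw [h, Nat.mod_self]
    · exact Nat.mod_eq_of_lt (by omega)
  have hmem : ∀ j < m, F.ws.getD j 0 ∈ F.ws := by
    intro j hj
    rw [List.getD_eq_getElem _ _ hj]
    exact List.getElem_mem _
  have hlast : F.a = F.ws.getD (m - 1) 0 := by
    have h1 := hW.last
    rw [List.getLast?_eq_getElem?] at h1
    have h2 : m - 1 < F.ws.length := by omega
    rw [List.getD_eq_getElem _ _ h2]
    rw [← hm, List.getElem?_eq_getElem h2] at h1
    exact (Option.some.inj h1).symm
  refine ⟨F.ws.getD (m - 1 - i1) 0, F.ws.getD (m - 1 - i0) 0, F.ws.getD (m - 1 - i2) 0, ?_,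
    g0.1.symm, g1.1.symm, g2.1.symm, hmem _ (by omega), hmem _ (by omega), hmem _ (by omega)⟩
  unfold cors
  rw [x1_mem_corA]
  refine ⟨m - 1 - i1, by omega, ?_⟩
  rw [g1.2]
  refine Prod.ext rfl (Prod.ext ?_ (Prod.ext ?_ rfl))
  · show F.ws.getD (m - 1 - i0) 0 = _
    rw [← hm]
    by_cases h : i0 + 1 = m
    · rw [if_pos h] at e01
      rw [if_neg (by omega), x1_hd0]
      congr 1
      omega
    · rw [if_neg h] at e01
      rw [if_pos (by omega)]
      congr 1
      omega
  · show F.ws.getD (m - 1 - i2) 0 =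
      if m - 1 - i1 = 0 then F.a else F.ws.getD (m - 1 - i1 - 1) 0
    by_cases h : i1 + 1 = m
    · rw [if_pos h] at e12
      rw [if_pos (by omega), hlast, e12]
      rfl
    · rw [if_neg h] at e12
      rw [if_neg (by omega)]
      congr 1
      omega

/-- faces of the model are closed under rotation -/
theorem x1_face_rot (M : Model V) {l l' : List (V × ℕ)} (h : M.face l) (hr : l ~r l') :
    M.face l' := by
  obtain ⟨n, hn⟩ := hr
  rw [← hn]
  clear hn
  induction n with
  | zero => rw [List.rotate_zero]; exact h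
  | succ n ih =>
    rw [← List.rotate_rotate]
    cases hl : l.rotate n with
    | nil => rw [hl] at ih; simpa using ih
    | cons x t =>
      rw [hl] at ih
      rw [List.rotate_cons_succ, List.rotate_zero]
      exact M.rot x t ih

theorem x1_mem_of_cor {F : Fa} (hW : Wf F) {v u w c : ℕ} (hc : (v, u, w, c) ∈ cors F) :
    v ∈ F.ws ∧ u ∈ F.ws ∧ w ∈ F.ws := by
  unfold cors at hc
  rw [x1_mem_corA] at hc
  obtain ⟨j, hj, h⟩ := hc
  have hm3 := hW.three
  simp only [Prod.mk.injEq] at h
  obtain ⟨h1, h2, h3, _⟩ := h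
  have hmem : ∀ j < F.ws.length, F.ws.getD j 0 ∈ F.ws := by
    intro j hj
    rw [List.getD_eq_getElem _ _ hj]
    exact List.getElem_mem _
  refine ⟨?_, ?_, ?_⟩
  · rw [h1]; exact hmem _ hj
  · rw [h2]
    split_ifs with h
    · exact hmem _ h
    · rw [x1_hd0]; exact hmem _ (by omega)
  · rw [h3]
    split_ifs with h
    · exact List.mem_of_getLast? hW.last
    · exact hmem _ (by omega)

theorem x1_maxL_nil (n : ℕ) : maxL n [] = n := rfl
theorem x1_maxL_cons (n x : ℕ) (l : List ℕ) :
    maxL n (x :: l) = if maxL n l ≤ x then x + 1 else maxL n l := by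
  show ifb (Nat.ble (maxL n l) x) (Nat.succ x) (maxL n l) = _
  by_cases h : maxL n l ≤ x
  · rw [if_pos h, Nat.ble_eq_true_of_le h]
  · rw [if_neg h]
    have : Nat.ble (maxL n l) x = false := by
      rw [← Bool.not_eq_true, Nat.ble_eq]; exact h
    rw [this]

theorem x1_le_maxL (n : ℕ) (l : List ℕ) : n ≤ maxL n l := by
  induction l with
  | nil => exact le_refl _
  | cons x l ih => rw [x1_maxL_cons]; split_ifs <;> omega

theorem x1_lt_maxL (n : ℕ) (l : List ℕ) : ∀ x ∈ l, x < maxL n l := by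
  induction l with
  | nil => simp
  | cons y l ih =>
    intro x hx
    rw [x1_maxL_cons]
    rcases List.mem_cons.mp hx with h | h
    · subst h; split_ifs <;> omega
    · have := ih x h
      split_ifs <;> omega

/-- a face with a free dart has only free darts -/
theorem Good.all_free (h : Good M s lab) {F : Fa} (hW : Wf F) (hf : M.face (fwd lab F))
    (hinj : ∀ i < maxL s.n F.ws, ∀ j < maxL s.n F.ws, lab i = lab j → i = j)
    {v u w c : ℕ} (hc : (v, u, w, c) ∈ cors F) (hfree : ¬ InD s.fs v u) :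
    ∀ q ∈ cors F, ¬ InD s.fs q.1 q.2.1 ∧ ¬ OutD s.fs q.1 q.2.2.1 := by
  -- if a placed face is a rotation of the new one there is a contradiction
  have key : ∀ F' ∈ s.fs, ¬ (fwd lab F ~r fwd lab F') := by
    intro F' hF' hrot
    obtain ⟨d, e, r, hr⟩ := cors_rot (lab := lab) hW hc
    obtain ⟨v', u', w', hc', hu', hv', hw', mu, mv, mw⟩ := x1_conv (h.sp.wf F' hF') (hr.trans hrot)
    have m1 := x1_mem_of_cor hW hc
    have lt1 : ∀ x ∈ F'.ws, x < maxL s.n F.ws := fun x hx =>
      lt_of_lt_of_le (h.sp.lt F' hF' x hx) (x1_le_maxL _ _)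
    have eu : u' = u := hinj u' (lt1 _ mu) u (x1_lt_maxL _ _ _ m1.2.1) hu'
    have ev : v' = v := hinj v' (lt1 _ mv) v (x1_lt_maxL _ _ _ m1.1) hv'
    apply hfree
    refine ⟨w', c, ?_⟩
    unfold Cor allC
    rw [List.mem_flatMap]
    exact ⟨F', hF', by rw [← eu, ← ev]; exact hc'⟩
  rintro ⟨v1, u1, w1, c1⟩ hq
  obtain ⟨d, e, r, hr⟩ := cors_rot (lab := lab) hW hq
  have hface := x1_face_rot M hf hr.symm
  constructor
  · rintro ⟨w2, c2, h2⟩
    unfold Cor allC at h2
    rw [List.mem_flatMap] at h2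
    obtain ⟨F', hF', hc2⟩ := h2
    obtain ⟨d', e', r', hr'⟩ := cors_rot (lab := lab) (h.sp.wf F' hF') hc2
    have hface' := x1_face_rot M (h.face F' hF') hr'.symm
    simp only at hface' hr'
    obtain ⟨h3, h4, h5⟩ := M.uniq _ _ _ _ _ _ _ _ hface hface'
    apply key F' hF'
    refine hr.symm.trans ?_
    rw [h3, h4, h5]
    exact hr'
  · rintro ⟨u2, c2, h2⟩
    unfold Cor allC at h2
    rw [List.mem_flatMap] at h2
    obtain ⟨F', hF', hc2⟩ := h2
    obtain ⟨d', e', r', hr'⟩ := cors_rot (lab := lab) (h.sp.wf F' hF') hc2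
    have hface' := x1_face_rot M (h.face F' hF') hr'.symm
    have r1 := M.rot _ _ hface
    have r2 := M.rot _ _ hface'
    simp only [List.cons_append] at r1 r2
    obtain ⟨h3, h4, h5⟩ := M.uniq _ _ _ _ _ _ _ _ r1 r2
    apply key F' hF'
    have t1 : ((lab v1, c1) :: (lab w1, e) :: (r ++ [(lab u1, d)])) ~r fwd lab F := by
      refine List.IsRotated.trans ?_ hr
      refine List.IsRotated.symm ⟨1, ?_⟩
      simp
    have t2 : ((lab v1, c2) :: (lab w1, e') :: (r' ++ [(lab u2, d')])) ~r fwd lab F' := by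
      refine List.IsRotated.trans ?_ hr'
      refine List.IsRotated.symm ⟨1, ?_⟩
      simp
    refine t1.symm.trans ?_
    rw [h3, h4, h5]
    exact t2

theorem x1_FTt : ∀ p ∈ FTt, (∀ c ∈ p.rc, c ≤ 2) ∧ 3 ≤ p.rc.length := by
  intro p hp
  simp only [FTt, List.mem_cons, List.not_mem_nil, or_false] at hp
  rcases hp with h | h | h | h | h | h | h | h | h | h | h | h | h <;> subst h <;> decide

theorem Ext.wf (_h : Good M s lab) {a : ℕ} {rc dr ws : List ℕ} (he : Ext M s a rc dr ws lab) :
    Wf (Fa.mk a ws dr rc) := by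
  obtain ⟨p, hp, hrc, hdr⟩ := he.shape
  have hp2 := x1_FTt p hp
  refine ⟨?_, he.len, ?_, ?_, ?_⟩
  · have h1 := M.nodup _ he.face
    unfold fwd at h1
    rw [List.map_reverse, List.nodup_reverse, List.map_fst_zip (by simp [he.len])] at h1
    exact List.Nodup.of_map _ h1
  · show 3 ≤ ws.length
    rw [← he.len, hrc]; exact hp2.2
  · obtain ⟨b, l, hl, _⟩ := he.free
    show ws.getLast? = some a
    rw [hl]; simp
  · intro c hc
    exact hp2.1 c (by rw [← hrc]; exact hc)

theorem x1_free_cor {a : ℕ} {rc dr ws : List ℕ} {b : ℕ} {l : List ℕ} (hl : ws = l ++ [b, a]) :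
    ∃ w c, (b, a, w, c) ∈ cors (Fa.mk a ws dr rc) := by
  refine ⟨(if l.length = 0 then a else ws.getD (l.length - 1) 0), rc.getD l.length 0, ?_⟩
  unfold cors
  rw [x1_mem_corA]
  refine ⟨l.length, by simp [hl], ?_⟩
  have h1 : ws.getD l.length 0 = b := by simp [hl]
  have h2 : ws.getD (l.length + 1) 0 = a := by simp [hl]
  have h3 : l.length + 1 < ws.length := by simp [hl]
  show _ = (ws.getD l.length 0, if l.length + 1 < ws.length then ws.getD (l.length + 1) 0 else _, _, _)
  rw [if_pos h3, h1, h2]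

theorem Ext.fresh (h : Good M s lab) {a : ℕ} {rc dr ws : List ℕ} (he : Ext M s a rc dr ws lab) :
    Fresh s (Fa.mk a ws dr rc) := by
  have hW := Ext.wf h he
  obtain ⟨b, l, hl, hfree⟩ := he.free
  obtain ⟨w, c, hc⟩ := x1_free_cor (rc := rc) (dr := dr) hl
  have hall := h.all_free hW he.face he.inj hc hfree
  refine ⟨hW, he.lt, fun q hq => (hall q hq).1, fun q hq => (hall q hq).2, ?_⟩
  intro x hx
  rw [h.sp.cnt x]
  by_cases hxn : x < s.n
  · have := h.small hxn
    omega
  · have h0 : ∀ q ∈ allC s.fs, q.1 ≠ x := by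
      intro q hq hqx
      unfold allC at hq
      rw [List.mem_flatMap] at hq
      obtain ⟨F', hF', hq'⟩ := hq
      have := (x1_mem_of_cor (h.sp.wf F' hF') (v := q.1) (u := q.2.1) (w := q.2.2.1) (c := q.2.2.2)
        hq').1
      have := h.sp.lt F' hF' _ this
      omega
    have hC : ∀ c, nC s.fs x c = 0 := by
      intro c
      unfold nC
      rw [List.countP_eq_zero]
      intro q hq
      have := h0 q hq
      simp [this]
    have hE : nE s.fs x = 0 := by
      classical
      unfold nE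
      refine Finset.card_eq_zero.mpr (Finset.filter_false_of_mem ?_)
      rintro w _ ⟨⟨u, c, hu⟩, _⟩
      exact h0 _ hu rfl
    rw [hC, hC, hE]
    norm_num

theorem Good.place (h : Good M s lab) {a : ℕ} {rc dr ws : List ℕ} (he : Ext M s a rc dr ws lab) :
    Good M (place s a rc dr ws) lab := by
  have hF := Ext.fresh h he
  have hle : s.n ≤ maxL s.n ws := x1_le_maxL _ _
  refine ⟨sp_place h.sp hF, ?_, ?_, h.b0, h.b1, h.b2, ?_, ?_, ?_, ?_, ?_⟩
  · rw [place_n]; exact le_trans h.n3 hle
  · rw [place_n]; exact he.inj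
  · rw [place_fs]
    intro F' hF'
    rcases List.mem_cons.mp hF' with h1 | h1
    · rw [h1]; exact he.face
    · exact h.face F' h1
  · rw [place_fs]
    intro F' hF'
    rcases List.mem_cons.mp hF' with h1 | h1
    · rw [h1]; exact Or.inr he.shape
    · exact h.shape F' h1
  · rw [place_fs]; exact List.mem_cons_of_mem _ h.base
  · rw [place_n, place_fs]
    intro v hv
    rcases he.used v hv with h1 | h1
    · obtain ⟨F', hF', hv'⟩ := h.used v h1
      exact ⟨F', List.mem_cons_of_mem _ hF', hv'⟩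
    · exact ⟨_, List.mem_cons_self, h1⟩
  · rw [place_ms, place_n]
    intro v u hu
    obtain ⟨h1, h2⟩ := h.ms v u hu
    refine ⟨h1, ?_⟩
    rcases h2 with h2 | ⟨h2, h3, h4⟩
    · exact Or.inl h2
    · exact Or.inr ⟨by omega, by omega, h4⟩

/-- the invariant depends only on the labels below `n` -/
theorem Good.congr (h : Good M s lab) {lab' : ℕ → V} (hl : ∀ i < s.n, lab' i = lab i) :
    Good M s lab' := by
  have hn3 := h.n3
  refine ⟨h.sp, h.n3, ?_, ?_, ?_, ?_, ?_, h.shape, h.base, h.used, ?_⟩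
  · intro i hi j hj hij
    rw [hl i hi, hl j hj] at hij
    exact h.inj i hi j hj hij
  · rw [hl 0 (by omega)]; exact h.b0
  · rw [hl 1 (by omega)]; exact h.b1
  · rw [hl 2 (by omega)]; exact h.b2
  · intro F' hF'
    have e : fwd lab' F' = fwd lab F' := by
      unfold fwd
      congr 2
      exact List.map_congr_left fun x hx => hl x (h.sp.lt F' hF' x hx)
    rw [e]
    exact h.face F' hF'
  · intro v u hu
    obtain ⟨h1, h2⟩ := h.ms v u hu
    refine ⟨h1, ?_⟩
    rcases h2 with h2 | ⟨h2, h3, h4⟩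
    · exact Or.inl h2
    · exact Or.inr ⟨h2, h3, by rw [hl v h2, hl u h3]; exact h4⟩

end Chk
end Pool.Agent.Lib.MP_ba95e8_co
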