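import Pool.Agent.Lib.MP_ba95e8_co.FacetB

/-!
Deltahedral domes, task F3: the facet on the other side of a side.
-/

namespace Pool.Agent.Lib.MP_ba95e8_co

open scoped RealInnerProductSpace

/-- a linear inequality passes to the convex hull -/
lemma inner_le_of_hull {S : Set E3} {g : E3} {c : ℝ} (h : ∀ x ∈ S, ⟪g, x⟫ ≤ c) :
    ∀ x ∈ convexHull ℝ S, ⟪g, x⟫ ≤ c := by
  intro x hx
  have hc : Convex ℝ {y : E3 | ⟪g, y⟫ ≤ c} :=
    convex_halfSpace_le (IsLinearMap.mk (fun a b => inner_add_right g a b)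
      (fun t a => by rw [inner_smul_right, smul_eq_mul])) c
  exact convexHull_min h hc hx

/-- a linear equality passes to the convex hull -/
lemma inner_eq_of_hull {S : Set E3} {g : E3} {c : ℝ} (h : ∀ x ∈ S, ⟪g, x⟫ = c) :
    ∀ x ∈ convexHull ℝ S, ⟪g, x⟫ = c := by
  intro x hx
  refine le_antisymm (inner_le_of_hull (fun y hy => (h y hy).le) x hx) ?_
  have h1 := inner_le_of_hull (S := S) (g := -g) (c := -c)
    (fun y hy => by rw [inner_neg_left, h y hy]) x hx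
  rw [inner_neg_left] at h1
  linarith

/-- a body with interior points is not contained in a plane -/
lemma exists_lt_of_interior {S : Set E3} (hint : (interior (convexHull ℝ S)).Nonempty) {g : E3}
    (hg : ‖g‖ = 1) {c : ℝ} (hle : ∀ x ∈ convexHull ℝ S, ⟪g, x⟫ ≤ c) :
    ∃ x ∈ S, ⟪g, x⟫ < c := by
  by_contra hcon
  push Not at hcon
  have heq : ∀ x ∈ S, ⟪g, x⟫ = c := fun x hx =>
    le_antisymm (hle x (subset_convexHull ℝ S hx)) (hcon x hx)
  obtain ⟨x, hx⟩ := hint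
  rw [mem_interior_iff_mem_nhds, Metric.mem_nhds_iff] at hx
  obtain ⟨ε, hε, hb⟩ := hx
  have h1 : x + (ε / 2) • g ∈ convexHull ℝ S := by
    apply hb
    rw [Metric.mem_ball, dist_eq_norm, add_sub_cancel_left, norm_smul, hg, mul_one,
      Real.norm_of_nonneg (by positivity)]
    linarith
  have h2 : x ∈ convexHull ℝ S := hb (Metric.mem_ball_self hε)
  have h3 := inner_eq_of_hull heq _ h1
  have h4 := inner_eq_of_hull heq _ h2
  rw [inner_add_right, inner_smul_right, real_inner_self_eq_norm_sq, hg, h4] at h3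
  linarith

theorem Fc.opp {S : Set E3} (hS : S.Finite) (hint : (interior (convexHull ℝ S)).Nonempty)
    (hall : AllFc (convexHull ℝ S)) {n : E3} {m : ℕ} {p : ℤ → E3}
    (h : Fc (convexHull ℝ S) n m p) :
    ∃ n' m' p', Fc (convexHull ℝ S) n' m' p' ∧ p' 0 = p 1 ∧ p' 1 = p 0 := by
  have hm3 := h.poly.three
  have hn0 : n ≠ 0 := by
    intro h0
    have := h.unit
    rw [h0, norm_zero] at this
    exact zero_ne_one this
  have h01 : p 0 ≠ p 1 := by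
    intro h0
    have h1 := (h.poly.inj).1 h0
    have h2 := Int.le_of_dvd (by norm_num) h1
    omega
  have hpl1 : ⟪n, p 1⟫ = ⟪n, p 0⟫ := h.poly.plane 1
  -- the points of `S` off the plane
  obtain ⟨x0, hx0S, hx0⟩ := exists_lt_of_interior hint h.unit h.le
  set e : E3 := p 1 - p 0 with he
  have hne : ⟪n, e⟫ = 0 := by rw [he, inner_sub_right, hpl1, sub_self]
  set w : E3 := cr n e with hw
  have hw_inner : ∀ y, ⟪w, y⟫ = det3 n e y := fun y => inner_cr n e y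
  have hwe : ⟪w, e⟫ = 0 := by rw [hw_inner, det3_self']
  have hwn : ⟪w, n⟫ = 0 := by rw [hw_inner, det3_self'']
  have hw0 : w ≠ 0 := by
    intro h0
    have h1 : ⟪w, w⟫ = ⟪n, n⟫ * ⟪e, e⟫ - ⟪n, e⟫ * ⟪e, n⟫ := inner_cr_cr n e n e
    rw [h0, inner_zero_left, hne, zero_mul, sub_zero, real_inner_self_eq_norm_sq, h.unit, one_pow,
      one_mul] at h1
    have h2 : e = 0 := by
      rw [← inner_self_eq_zero (𝕜 := ℝ)]
      exact h1.symm
    exact h01 (sub_eq_zero.1 h2).symm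
  have hside : ∀ x ∈ convexHull ℝ S, ⟪n, x⟫ = ⟪n, p 0⟫ → 0 ≤ ⟪w, x - p 0⟫ := by
    intro x hx hxn
    have hx' : x ∈ convexHull ℝ (Set.range p) := by
      rw [← h.eq]
      exact ⟨hx, hxn⟩
    have h1 := (h.poly.side 0 hx').1
    rw [hw_inner]
    simpa using h1
  -- the maximal slope
  have hTf : {x | x ∈ S ∧ ⟪n, x⟫ < ⟪n, p 0⟫}.Finite := hS.subset fun x hx => hx.1
  obtain ⟨x1, hx1, hmax⟩ := Set.exists_max_image _
    (fun x => -⟪w, x - p 0⟫ / (⟪n, p 0⟫ - ⟪n, x⟫)) hTf ⟨x0, hx0S, hx0⟩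
  set μ : ℝ := -⟪w, x1 - p 0⟫ / (⟪n, p 0⟫ - ⟪n, x1⟫) with hμ
  set g : E3 := μ • n - w with hg
  have hgi : ∀ y, ⟪g, y⟫ = μ * ⟪n, y⟫ - ⟪w, y⟫ := fun y => by
    rw [hg, inner_sub_left, real_inner_smul_left]
  have hg0 : g ≠ 0 := by
    intro h0
    have h1 := hgi w
    rw [h0, inner_zero_left, real_inner_comm w n, hwn, mul_zero, zero_sub] at h1
    have h2 : ⟪w, w⟫ = 0 := by linarith
    exact hw0 (inner_self_eq_zero.1 h2)
  have hx1p : 0 < ⟪n, p 0⟫ - ⟪n, x1⟫ := by linarith [hx1.2]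
  have hgle : ∀ x ∈ convexHull ℝ S, ⟪g, x⟫ ≤ ⟪g, p 0⟫ := by
    apply inner_le_of_hull
    intro x hx
    have hxK := subset_convexHull ℝ S hx
    have hd : ⟪g, x⟫ - ⟪g, p 0⟫ = μ * (⟪n, x⟫ - ⟪n, p 0⟫) - ⟪w, x - p 0⟫ := by
      rw [hgi, hgi, inner_sub_right]
      ring
    rcases (h.le x hxK).lt_or_eq with hlt | heq
    · have h1 := hmax x ⟨hx, hlt⟩
      have hpos : 0 < ⟪n, p 0⟫ - ⟪n, x⟫ := by linarith
      have h2 : -⟪w, x - p 0⟫ ≤ μ * (⟪n, p 0⟫ - ⟪n, x⟫) := by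
        rw [← div_le_iff₀ hpos]
        exact h1
      nlinarith
    · have h1 := hside x hxK heq
      rw [heq, sub_self, mul_zero, zero_sub] at hd
      linarith
  have hgp1 : ⟪g, p 1⟫ = ⟪g, p 0⟫ := by
    have h1 := hgi e
    rw [hne, hwe, mul_zero, sub_zero, he, inner_sub_right] at h1
    linarith
  have hgx1 : ⟪g, x1⟫ = ⟪g, p 0⟫ := by
    have hd : ⟪g, x1⟫ - ⟪g, p 0⟫ = μ * (⟪n, x1⟫ - ⟪n, p 0⟫) - ⟪w, x1 - p 0⟫ := by
      rw [hgi, hgi, inner_sub_right]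
      ring
    have h1 : μ * (⟪n, p 0⟫ - ⟪n, x1⟫) = -⟪w, x1 - p 0⟫ := by
      rw [hμ, div_mul_cancel₀ _ hx1p.ne']
    nlinarith
  have hp0K := h.mem 0
  have hp1K := h.mem 1
  have hx1K := subset_convexHull ℝ S hx1.1
  -- the new face
  have hface : IsFace (convexHull ℝ S) {x | x ∈ convexHull ℝ S ∧ ⟪g, x⟫ = ⟪g, p 0⟫} := by
    refine ⟨g, ⟪g, p 0⟫, hg0, hgle, rfl, ?_⟩
    intro hcol
    have hm0 : p 0 ∈ {x | x ∈ convexHull ℝ S ∧ ⟪g, x⟫ = ⟪g, p 0⟫} := ⟨hp0K, rfl⟩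
    rw [collinear_iff_of_mem hm0] at hcol
    obtain ⟨v, hv⟩ := hcol
    obtain ⟨r1, hr1⟩ := hv (p 1) ⟨hp1K, hgp1⟩
    obtain ⟨r2, hr2⟩ := hv x1 ⟨hx1K, hgx1⟩
    simp only [vadd_eq_add] at hr1 hr2
    have hr10 : r1 ≠ 0 := by
      intro h0
      rw [h0, zero_smul, zero_add] at hr1
      exact h01 hr1.symm
    have h3 : ⟪n, v⟫ = 0 := by
      have h4 : ⟪n, p 1⟫ = r1 * ⟪n, v⟫ + ⟪n, p 0⟫ := by
        rw [hr1, inner_add_right, inner_smul_right]
      rw [hpl1] at h4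
      have h5 : r1 * ⟪n, v⟫ = 0 := by linarith
      exact (mul_eq_zero.1 h5).resolve_left hr10
    have h6 : ⟪n, x1⟫ = ⟪n, p 0⟫ := by
      rw [hr2, inner_add_right, inner_smul_right, h3, mul_zero, zero_add]
    linarith
  obtain ⟨n', m', p', h', hF⟩ := hall _ hface
  have hn'0 : n' ≠ 0 := by
    intro h0
    have := h'.unit
    rw [h0, norm_zero] at this
    exact zero_ne_one this
  have hin : ∀ x ∈ convexHull ℝ S, ⟪g, x⟫ = ⟪g, p 0⟫ → ⟪n', x⟫ = ⟪n', p' 0⟫ := by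
    intro x hx hxg
    have h1 : x ∈ convexHull ℝ (Set.range p') := by
      rw [← hF]
      exact ⟨hx, hxg⟩
    rw [← h'.eq] at h1
    exact h1.2
  obtain ⟨i, hi⟩ := h'.vertex (h.extreme 0) (hin _ hp0K rfl)
  obtain ⟨j, hj⟩ := h'.vertex (h.extreme 1) (hin _ hp1K hgp1)
  have hnc : ∃ k, ⟪n, p' k⟫ ≠ ⟪n, p' i⟫ := by
    by_contra hcon
    push Not at hcon
    have h1 : x1 ∈ convexHull ℝ (Set.range p') := by
      rw [← hF]
      exact ⟨hx1K, hgx1⟩
    have h2 := inner_eq_of_hull (S := Set.range p') (g := n) (c := ⟪n, p' i⟫)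
      (by rintro _ ⟨k, rfl⟩; exact hcon k) x1 h1
    rw [← hi] at h2
    linarith [hx1.2]
  have hadj := h'.poly.adj hn'0 (g := n) (i := i) (j := j)
    (fun k => by rw [← hi]; exact h.le _ (h'.mem k)) (by rw [← hi, ← hj]; exact hpl1)
    (by rw [← hi, ← hj]; exact h01) hnc
  rcases hadj with hadj | hadj
  · exfalso
    have hsh := h'.shift i
    have h1 := Fc.uniq hint h hsh (by simpa using hi) (by
      rw [hj, hadj]
      simp [add_comm])
    have h2 := hin _ hx1K hgx1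
    have h3 := hin _ hp0K rfl
    rw [← h1.1] at h2 h3
    linarith [hx1.2]
  · refine ⟨n', m', fun t => p' (t + (i - 1)), h'.shift (i - 1), ?_, ?_⟩
    · show p' (0 + (i - 1)) = p 1
      rw [zero_add, hj, hadj]
    · show p' (1 + (i - 1)) = p 0
      rw [add_sub_cancel, hi]

end Pool.Agent.Lib.MP_ba95e8_co
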