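import Pool.Agent.Lib.MP_ba95e8_co.Poly

/-!
Deltahedral domes, task F2: uniqueness of the facet on a directed side, common vertices.
-/

namespace Pool.Agent.Lib.MP_ba95e8_co

open scoped RealInnerProductSpace

variable {K : Set E3} {n n' : E3} {m m' : ℕ} {p p' : ℤ → E3}

/-- a set with interior is not contained in a plane -/
lemma not_planar {K : Set E3} (hint : (interior K).Nonempty) {n : E3} {c : ℝ} (hn : n ≠ 0)
    (h : ∀ x ∈ K, ⟪n, x⟫ = c) : False := by
  obtain ⟨x, hx⟩ := hint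
  rw [mem_interior_iff_mem_nhds, Metric.mem_nhds_iff] at hx
  obtain ⟨r, hr, hx⟩ := hx
  have hn' : 0 < ‖n‖ := norm_pos_iff.mpr hn
  have h1 : ⟪n, x⟫ = c := h x (hx (Metric.mem_ball_self hr))
  have h2 : ⟪n, x + (r / 2 * ‖n‖⁻¹) • n⟫ = c := by
    apply h; apply hx
    rw [Metric.mem_ball, dist_eq_norm, add_sub_cancel_left, norm_smul, Real.norm_eq_abs,
      abs_of_pos (by positivity), mul_assoc, inv_mul_cancel₀ hn'.ne']
    linarith
  rw [inner_add_right, inner_smul_right, real_inner_self_eq_norm_sq, h1] at h2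
  have : r / 2 * ‖n‖⁻¹ * ‖n‖ ^ 2 = 0 := by linarith
  have h3 : 0 < r / 2 * ‖n‖⁻¹ * ‖n‖ ^ 2 := by positivity
  linarith

lemma Fc.nne (h : Fc K n m p) : n ≠ 0 := by
  intro h0; have := h.unit; simp [h0] at this

/-- two facets do not have opposite normals -/
lemma Fc.not_opp (hint : (interior K).Nonempty) (h : Fc K n m p) (h' : Fc K n' m' p')
    (hc : p 0 = p' 0) : n ≠ - n' := by
  intro h4
  apply not_planar hint (n := n) (c := ⟪n, p 0⟫) h.nne
  intro x hx
  have h5 := h.le x hx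
  have h6 := h'.le x hx
  rw [← hc] at h6
  rw [h4, inner_neg_left, inner_neg_left] at h5 ⊢
  linarith

lemma Fc.shift (h : Fc K n m p) (a : ℤ) : Fc K n m (fun i => p (i + a)) := by
  refine ⟨h.unit, h.poly.shift a, ?_, ?_⟩
  · intro x hx
    show ⟪n, x⟫ ≤ ⟪n, p (0 + a)⟫
    rw [h.poly.plane]
    exact h.le x hx
  · have h1 : Set.range (fun i => p (i + a)) = Set.range p := by
      have := (Equiv.addRight a).surjective.range_comp p
      simpa [Function.comp_def] using this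
    rw [h1, ← h.eq]
    ext x
    show x ∈ K ∧ ⟪n, x⟫ = ⟪n, p (0 + a)⟫ ↔ x ∈ K ∧ ⟪n, x⟫ = ⟪n, p 0⟫
    rw [h.poly.plane]

lemma Fc.mem' (_h : Fc K n m p) (i : ℤ) : p i ∈ convexHull ℝ (Set.range p) :=
  subset_convexHull ℝ _ ⟨i, rfl⟩

lemma Fc.sub (h : Fc K n m p) : convexHull ℝ (Set.range p) ⊆ K := by
  rw [← h.eq]; exact fun x hx => hx.1

lemma Fc.mem (h : Fc K n m p) (i : ℤ) : p i ∈ K := h.sub (h.mem' i)

/-- facets with the same normal are equal up to a shift -/
theorem Fc.same (h : Fc K n m p) (h' : Fc K n m' p') : m = m' ∧ ∃ a : ℤ, ∀ i, p' i = p (i + a) := by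
  apply h.poly.same h.nne h'.poly
  have h1 : ⟪n, p 0⟫ = ⟪n, p' 0⟫ := le_antisymm (h'.le _ (h.mem 0)) (h.le _ (h'.mem 0))
  rw [← h.eq, ← h'.eq, h1]

/-- a facet listed by a polygon is a face -/
theorem Fc.isFace (h : Fc K n m p) : IsFace K (convexHull ℝ (Set.range p)) := by
  refine ⟨n, ⟪n, p 0⟫, h.nne, h.le, h.eq.symm, ?_⟩
  intro hcol
  rw [collinear_iff_of_mem (h.mem' 0)] at hcol
  obtain ⟨v, hv⟩ := hcol
  obtain ⟨r1, h1⟩ := hv _ (h.mem' 1)
  obtain ⟨r2, h2⟩ := hv _ (h.mem' 2)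
  have h3 := h.poly.cvx 0 2 (by norm_num) (by have := h.poly.three; omega)
  rw [zero_add, h1, h2] at h3
  simp only [vadd_eq_add, add_sub_cancel_right, det3_smul_mid, det3_smul_right, det3_self'] at h3
  simp at h3

/-- vertices of facets are extreme points -/
theorem Fc.extreme (h : Fc K n m p) (i : ℤ) : p i ∈ Set.extremePoints ℝ K := by
  have hex : p i ∈ Set.extremePoints ℝ (convexHull ℝ (Set.range p)) := by
    rw [h.poly.extreme h.nne]; exact ⟨i, rfl⟩
  rw [mem_extremePoints_iff_left] at hex ⊢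
  refine ⟨h.mem i, ?_⟩
  intro x hx y hy hxy
  have hpl := h.poly.plane i
  have h1 := h.le x hx
  have h2 := h.le y hy
  have hxy' := hxy
  obtain ⟨a, b, ha, hb, hab, he⟩ := hxy
  have h3 : a * ⟪n, x⟫ + b * ⟪n, y⟫ = ⟪n, p 0⟫ := by
    rw [← hpl, ← he, inner_add_right, inner_smul_right, inner_smul_right]
  have hb' : b = 1 - a := by linarith
  have h4 : a * (⟪n, p 0⟫ - ⟪n, x⟫) + b * (⟪n, p 0⟫ - ⟪n, y⟫) = 0 := by
    rw [hb'] at h3 ⊢; linarith
  have h5 : 0 ≤ a * (⟪n, p 0⟫ - ⟪n, x⟫) := mul_nonneg ha.le (by linarith)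
  have h6 : 0 ≤ b * (⟪n, p 0⟫ - ⟪n, y⟫) := mul_nonneg hb.le (by linarith)
  have h7 : a * (⟪n, p 0⟫ - ⟪n, x⟫) = 0 := by linarith
  have h8 : b * (⟪n, p 0⟫ - ⟪n, y⟫) = 0 := by linarith
  have h9 : ⟪n, x⟫ = ⟪n, p 0⟫ := by
    have := (mul_eq_zero.mp h7).resolve_left ha.ne'; linarith
  have h10 : ⟪n, y⟫ = ⟪n, p 0⟫ := by
    have := (mul_eq_zero.mp h8).resolve_left hb.ne'; linarith
  refine hex.2 x ?_ y ?_ hxy'
  · rw [← h.eq]; exact ⟨hx, h9⟩
  · rw [← h.eq]; exact ⟨hy, h10⟩

/-- an extreme point of `K` that lies in the plane of a facet is a vertex of the facet -/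
theorem Fc.vertex (h : Fc K n m p) {x : E3} (hx : x ∈ Set.extremePoints ℝ K)
    (hxn : ⟪n, x⟫ = ⟪n, p 0⟫) : ∃ i, x = p i := by
  have h1 : x ∈ convexHull ℝ (Set.range p) := by
    rw [← h.eq]; exact ⟨hx.1, hxn⟩
  have h2 : x ∈ Set.extremePoints ℝ (convexHull ℝ (Set.range p)) :=
    inter_extremePoints_subset_extremePoints_of_subset h.sub ⟨h1, hx⟩
  obtain ⟨i, hi⟩ := extremePoints_convexHull_subset h2
  exact ⟨i, hi.symm⟩

lemma IsPoly.det_pos (h : IsPoly n m p) (i : ℤ) :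
    0 < det3 n (p (i + 1) - p i) (p (i - 1) - p i) := by
  have h1 := h.cvx i (i - 1 + m) (by have := h.three; omega) (by omega)
  rwa [h.per] at h1

/-- the normal is the normalised cross product of two adjacent sides -/
theorem Fc.normal (h : Fc K n m p) (i : ℤ) :
    n = (‖cr (p (i + 1) - p i) (p (i - 1) - p i)‖)⁻¹ • cr (p (i + 1) - p i) (p (i - 1) - p i) := by
  set u := p (i + 1) - p i with hu
  set w := p (i - 1) - p i with hw
  set g := cr u w with hg
  have hnu : ⟪n, u⟫ = 0 := h.poly.orth _ _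
  have hnw : ⟪n, w⟫ = 0 := h.poly.orth _ _
  have h1 : cr n g = 0 := by
    rw [hg, cr_cr, hnu, hnw]; simp
  have h2 : cr n (cr n g) = ⟪n, g⟫ • n - ⟪n, n⟫ • g := cr_cr n n g
  have h3 : cr n (0 : E3) = 0 := by apply ext3 <;> simp
  rw [h1, h3, real_inner_self_eq_norm_sq, h.unit] at h2
  have h4 : g = ⟪n, g⟫ • n := by
    have : ⟪n, g⟫ • n - g = 0 := by rw [h2]; simp
    exact (sub_eq_zero.mp this).symm
  have h5 : 0 < ⟪n, g⟫ := by
    rw [hg, inner_cr', det3_rot]
    exact h.poly.det_pos i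
  have h6 : ‖g‖ = ⟪n, g⟫ := by
    conv_lhs => rw [h4]
    rw [norm_smul, h.unit, mul_one, Real.norm_eq_abs, abs_of_pos h5]
  rw [h6]
  conv_rhs => rw [h4]
  rw [smul_smul, inner_smul_right, real_inner_self_eq_norm_sq, h.unit]
  rw [one_pow, mul_one, inv_mul_cancel₀ h5.ne', one_smul]

/-- Gram determinant when `e` is orthogonal to the unit vector `n` and to `n'` -/
lemma det_gram {n n' e y : E3} (hn : ‖n‖ = 1) (h1 : ⟪n, e⟫ = 0) (h2 : ⟪n', e⟫ = 0)
    (h3 : ⟪n, y⟫ = 0) : det3 n e n' * det3 n e y = ⟪e, e⟫ * ⟪n', y⟫ := by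
  rw [det3_mul_det3, h1, h2, h3, real_inner_self_eq_norm_sq n, hn]
  ring

/-- a directed side lies in one facet only -/
theorem Fc.uniq (hint : (interior K).Nonempty) (h : Fc K n m p) (h' : Fc K n' m' p')
    (h0 : p 0 = p' 0) (h1 : p 1 = p' 1) : n = n' ∧ m = m' ∧ p = p' := by
  have hnn : n = n' := by
    have he : ⟪n, p 1 - p 0⟫ = 0 := h.poly.orth _ _
    have he' : ⟪n', p 1 - p 0⟫ = 0 := by rw [h0, h1]; exact h'.poly.orth _ _
    have hd := h.poly.det_pos 0
    have hd' := h'.poly.det_pos 0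
    simp only [zero_add, zero_sub] at hd hd'
    rw [← h0, ← h1] at hd'
    set e := p 1 - p 0 with hedef
    have hene : e ≠ 0 := by
      intro he0
      rw [he0] at hd
      simp [det3] at hd
    have hee : 0 < ⟪e, e⟫ := by
      rw [real_inner_self_eq_norm_sq]
      have := norm_pos_iff.mpr hene
      positivity
    have g1 := det_gram (y := p (-1) - p 0) h.unit he he' (h.poly.orth _ _)
    have g2 := det_gram (y := p' (-1) - p 0) h'.unit he' he (by rw [h0]; exact h'.poly.orth _ _)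
    have i1 : ⟪n', p (-1) - p 0⟫ ≤ 0 := by
      have := h'.le _ (h.mem (-1))
      rw [inner_sub_right, h0]; linarith
    have i2 : ⟪n, p' (-1) - p 0⟫ ≤ 0 := by
      have := h.le _ (h'.mem (-1))
      rw [inner_sub_right]; linarith
    have j1 : det3 n e n' ≤ 0 := by
      by_contra hcon
      push Not at hcon
      have := mul_pos hcon hd
      have := mul_nonpos_of_nonneg_of_nonpos hee.le i1
      linarith
    have j2 : det3 n' e n ≤ 0 := by
      by_contra hcon
      push Not at hcon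
      have := mul_pos hcon hd'
      have := mul_nonpos_of_nonneg_of_nonpos hee.le i2
      linarith
    have j3 : det3 n e n' = 0 := by
      rw [det3_swap''] at j2
      linarith
    have j4 : det3 n e n' * det3 n e n' = ⟪e, e⟫ * (1 - ⟪n, n'⟫ ^ 2) := by
      rw [det3_mul_det3, he, he', real_inner_comm n' e, real_inner_comm n n', real_inner_comm n e,
        real_inner_self_eq_norm_sq n, real_inner_self_eq_norm_sq n', h.unit, h'.unit]
      rw [he, he']
      ring
    rw [j3, zero_mul] at j4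
    have j5 : (1 - ⟪n, n'⟫) * (1 + ⟪n, n'⟫) = 0 := by
      have := (mul_eq_zero.mp j4.symm).resolve_left hee.ne'
      linarith
    rcases mul_eq_zero.mp j5 with j6 | j6
    · exact (inner_eq_one_iff_of_norm_eq_one (𝕜 := ℝ) h.unit h'.unit).mp (by linarith)
    · exfalso
      refine Fc.not_opp hint h h' h0 ?_
      refine (inner_eq_one_iff_of_norm_eq_one (𝕜 := ℝ) h.unit ?_).mp ?_
      · rw [norm_neg]; exact h'.unit
      · rw [inner_neg_right]; linarith
  subst hnn
  obtain ⟨hm, a, ha⟩ := h.same h'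
  refine ⟨rfl, hm, ?_⟩
  have h5 : p 0 = p (0 + a) := by rw [← ha 0, h0]
  rw [h.poly.inj] at h5
  obtain ⟨b, hb⟩ := h5
  ext1 i
  rw [ha i]
  have := h.poly.per_mul i b
  rw [← this]
  congr 1
  linarith

/-- two facets with two common vertices are equal or share a side, with opposite directions -/
theorem Fc.common (hint : (interior K).Nonempty) (h : Fc K n m p) (h' : Fc K n' m' p')
    {i j i' j' : ℤ} (hi : p i = p' i') (hj : p j = p' j') (hij : p i ≠ p j) :
    n = n' ∨ (p j = p (i + 1) ∧ p' i' = p' (j' + 1)) ∨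
      (p i = p (j + 1) ∧ p' j' = p' (i' + 1)) := by
  by_cases hnn : n = n'
  · exact Or.inl hnn
  right
  have hopp : n ≠ - n' := Fc.not_opp hint (h.shift i) (h'.shift i') (by simpa using hi)
  have hnc : ∃ k, ⟪n', p k⟫ ≠ ⟪n', p i⟫ := by
    by_contra hcon
    push Not at hcon
    have h1 := h.poly.const h.unit (g := n') (fun k => by rw [hcon k, hcon 0])
    have h2 : ‖n'‖ = |⟪n', n⟫| := by
      conv_lhs => rw [h1]
      rw [norm_smul, h.unit, mul_one, Real.norm_eq_abs]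
    rw [h'.unit] at h2
    rcases eq_or_eq_neg_of_abs_eq h2.symm with h3 | h3
    · exact hnn ((inner_eq_one_iff_of_norm_eq_one (𝕜 := ℝ) h'.unit h.unit).mp h3).symm
    · apply hopp
      refine ((inner_eq_one_iff_of_norm_eq_one (𝕜 := ℝ) h.unit ?_).mp ?_)
      · rw [norm_neg]; exact h'.unit
      · rw [inner_neg_right, real_inner_comm, h3]; norm_num
  have hnc' : ∃ k, ⟪n, p' k⟫ ≠ ⟪n, p' i'⟫ := by
    by_contra hcon
    push Not at hcon
    have h1 := h'.poly.const h'.unit (g := n) (fun k => by rw [hcon k, hcon 0])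
    have h2 : ‖n‖ = |⟪n, n'⟫| := by
      conv_lhs => rw [h1]
      rw [norm_smul, h'.unit, mul_one, Real.norm_eq_abs]
    rw [h.unit] at h2
    rcases eq_or_eq_neg_of_abs_eq h2.symm with h3 | h3
    · exact hnn ((inner_eq_one_iff_of_norm_eq_one (𝕜 := ℝ) h.unit h'.unit).mp h3)
    · apply hopp
      refine ((inner_eq_one_iff_of_norm_eq_one (𝕜 := ℝ) h.unit ?_).mp ?_)
      · rw [norm_neg]; exact h'.unit
      · rw [inner_neg_right, h3]; norm_num
  have a1 := h.poly.adj h.nne (g := n') (i := i) (j := j)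
    (fun k => by
      rw [hi, h'.poly.plane i']
      exact h'.le _ (h.mem k))
    (by rw [hi, hj, h'.poly.plane i', h'.poly.plane j']) hij hnc
  have a2 := h'.poly.adj h'.nne (g := n) (i := i') (j := j')
    (fun k => by
      rw [← hi, h.poly.plane i]
      exact h.le _ (h'.mem k))
    (by rw [← hi, ← hj, h.poly.plane i, h.poly.plane j]) (by rw [← hi, ← hj]; exact hij) hnc'
  rcases a1 with a1 | a1 <;> rcases a2 with a2 | a2
  · exfalso
    apply hnn
    refine (Fc.uniq hint (h.shift i) (h'.shift i') (by simpa using hi) ?_).1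
    show p (1 + i) = p' (1 + i')
    rw [add_comm 1 i, add_comm 1 i', ← a1, ← a2, hj]
  · left
    refine ⟨a1, ?_⟩
    rw [h'.poly.inj] at a2 ⊢
    obtain ⟨b, hb⟩ := a2
    exact ⟨-b, by linarith⟩
  · right
    refine ⟨?_, a2⟩
    rw [h.poly.inj] at a1 ⊢
    obtain ⟨b, hb⟩ := a1
    exact ⟨-b, by linarith⟩
  · exfalso
    apply hnn
    refine (Fc.uniq hint (h.shift j) (h'.shift j') (by simpa using hj) ?_).1
    show p (1 + j) = p' (1 + j')
    have b1 : p (1 + j) = p i := by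
      rw [h.poly.inj] at a1 ⊢
      obtain ⟨b, hb⟩ := a1
      exact ⟨b, by linarith⟩
    have b2 : p' (1 + j') = p' i' := by
      rw [h'.poly.inj] at a2 ⊢
      obtain ⟨b, hb⟩ := a2
      exact ⟨b, by linarith⟩
    rw [b1, b2, hi]

end Pool.Agent.Lib.MP_ba95e8_co
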