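import Pool.Agent.Lib.MP_ba95e8_co.Basic

/-!
Deltahedral domes, task K1: the two combinatorial types that survive the search are not realisable.
-/

namespace Pool.Agent.Lib.MP_ba95e8_co

open scoped RealInnerProductSpace

/-- scaling -/
theorem kill_sc {o X Y : E3} {l c : ℝ} (hl : 0 < l) (h : dist (o + l • X) (o + l • Y) = c * l) :
    ⟪X - Y, X - Y⟫ = c ^ 2 := by
  have h1 : dist (o + l • X) (o + l • Y) = ‖X - Y‖ * l := by
    rw [dist_add_left, dist_smul₀, Real.norm_of_nonneg hl.le, dist_eq_norm, mul_comm]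
  rw [h1] at h
  have h2 : ‖X - Y‖ = c := mul_right_cancel₀ hl.ne' h
  rw [real_inner_self_eq_norm_sq, h2]

theorem kill_sc1 {o X : E3} {l c : ℝ} (hl : 0 < l) (h : dist (o + l • X) o = c * l) :
    ⟪X, X⟫ = c ^ 2 := by
  have h1 : dist (o + l • X) (o + l • (0 : E3)) = c * l := by
    rw [smul_zero, add_zero]; exact h
  have := kill_sc hl h1
  rwa [sub_zero] at this

theorem kill_sc2 {o X : E3} {l c : ℝ} (hl : 0 < l) (h : dist o (o + l • X) = c * l) :
    ⟪X, X⟫ = c ^ 2 := by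
  rw [dist_comm] at h
  exact kill_sc1 hl h

theorem kill_pt {o : E3} {l : ℝ} (hl : 0 < l) (p : E3) : ∃ X : E3, p = o + l • X :=
  ⟨l⁻¹ • (p - o), by rw [smul_smul, mul_inv_cancel₀ hl.ne', one_smul]; abel⟩

/-- the decomposition along the plane of `e`, `f` -/
theorem kill_gram {e f : E3} (he : ⟪e, e⟫ = 1) (hf : ⟪f, f⟫ = 1) (hef : ⟪e, f⟫ = 7 / 8)
    (x y : E3) :
    15 / 64 * ⟪x, y⟫ = ⟪x, e⟫ * ⟪y, e⟫ + ⟪x, f⟫ * ⟪y, f⟫
      - 7 / 8 * (⟪x, e⟫ * ⟪y, f⟫ + ⟪x, f⟫ * ⟪y, e⟫) + det3 e f x * det3 e f y := by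
  have h := det3_mul_det3 e f x e f y
  rw [real_inner_comm e f, real_inner_comm y e, real_inner_comm y f, he, hf, hef] at h
  linarith

theorem kill_real_I {w₁ w₂ t s a b c d : ℝ}
    (E1 : 15 / 64 = 1 / 4 + w₁ ^ 2 + 7 / 8 * w₁ + a ^ 2)
    (E3' : 15 / 128 = -(w₁ + w₂) / 2 - 7 / 8 * (1 / 4 + w₁ * w₂) + a * b)
    (E4 : 15 / 64 * s = 1 / 4 + c ^ 2)
    (E5 : 15 / 128 * s = 1 / 8 * (1 / 2 - w₁) + c * a)
    (E6 : 15 / 128 * s = 1 / 8 * (1 / 2 - w₂) + c * b)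
    (E7 : 15 / 64 * (-3 - 4 * t) = t ^ 2 / 4 + d ^ 2)
    (E8 : 15 / 64 * (-1 / 2 - t) = 1 / 8 * t * (w₁ - 1 / 2) + d * a)
    (E9 : 15 / 64 * (-1 / 2 - t) = 1 / 8 * t * (w₂ - 1 / 2) + d * b)
    (E10 : 15 / 64 * (s - 4 - 4 * t) = 2 * (- t / 4 + c * d)) : False := by
  have F : (a - b) * (d + t * c) = 0 := by linear_combination E9 - E8 + t * (E6 - E5)
  rcases mul_eq_zero.1 F with h | h
  · have hab : b = a := by linarith
    subst hab
    have hw : w₂ = w₁ := by linarith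
    subst hw
    have hq : (w₂ + 1 / 4) * (w₂ + 3 / 4) = 0 := by linear_combination 8 / 15 * (E3' - E1)
    rcases mul_eq_zero.1 hq with hw | hw
    · have hw : w₂ = -1 / 4 := by linarith
      subst hw
      have hC : (b - 3 / 8) * (b + 3 / 8) = 0 := by linear_combination -E1
      have hb : b ≠ 0 := by
        rintro rfl
        norm_num at hC
      -- x = c / b, y = d / b
      obtain ⟨x, rfl⟩ : ∃ x, c = x * b := ⟨c / b, by field_simp⟩
      have hy : d = (-5 / 6 - t) * b := by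
        have h1 : b * (d - (-5 / 6 - t) * b) = 0 := by
          linear_combination -E8 + (5 / 6 + t) * hC
        rcases mul_eq_zero.1 h1 with h2 | h2
        · exact absurd h2 hb
        · linarith
      subst hy
      have Hx : 9 * x ^ 2 - 18 * x + 4 = 0 := by
        linear_combination 64 * (E5 * 2 - E4) - 64 * (x ^ 2 - 2 * x) * hC
      have Ht : t ^ 2 + 3 * t + 41 / 20 = 0 := by
        linear_combination -64 / 25 * E7 - 64 / 25 * (5 / 6 + t) ^ 2 * hC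
      have Hxt : x * (33 + 18 * t) - (48 + 28 * t) = 0 := by
        linear_combination 64 * E10 - 64 * E4 - 64 * (x ^ 2 - 2 * x * (-5 / 6 - t)) * hC - Hx
      have h1 : 9 * (48 + 28 * t) ^ 2 - 18 * (33 + 18 * t) * (48 + 28 * t) +
          4 * (33 + 18 * t) ^ 2 = 0 := by
        linear_combination (33 + 18 * t) ^ 2 * Hx -
          (9 * (x * (33 + 18 * t) + (48 + 28 * t)) - 18 * (33 + 18 * t)) * Hxt
      have h2 : t = -9 / 5 := by linear_combination (-1 / 1080) * (h1 + 720 * Ht)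
      rw [h2] at Ht
      norm_num at Ht
    · have hw : w₂ = -3 / 4 := by linarith
      subst hw
      have hC : b ^ 2 = 5 / 64 := by linear_combination -E1
      have hb : b ≠ 0 := by
        rintro rfl
        norm_num at hC
      obtain ⟨x, rfl⟩ : ∃ x, c = x * b := ⟨c / b, by field_simp⟩
      have hy : d = (-3 / 2 - t) * b := by
        have h1 : b * (d - (-3 / 2 - t) * b) = 0 := by
          linear_combination -E8 + (3 / 2 + t) * hC
        rcases mul_eq_zero.1 h1 with h2 | h2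
        · exact absurd h2 hb
        · linarith
      subst hy
      have Hx : 5 * x ^ 2 - 10 * x - 4 = 0 := by
        linear_combination 64 * (E5 * 2 - E4) - 64 * (x ^ 2 - 2 * x) * hC
      have Ht : 28 * t ^ 2 + 100 * t + 75 = 0 := by
        linear_combination -256 / 3 * E7 - 256 / 3 * (3 / 2 + t) ^ 2 * hC
      have Hxt : x * (25 + 10 * t) - (40 + 28 * t) = 0 := by
        linear_combination 64 * E10 - 64 * E4 - 64 * (x ^ 2 - 2 * x * (-3 / 2 - t)) * hC - Hx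
      have h1 : 5 * (40 + 28 * t) ^ 2 - 10 * (25 + 10 * t) * (40 + 28 * t) -
          4 * (25 + 10 * t) ^ 2 = 0 := by
        linear_combination (25 + 10 * t) ^ 2 * Hx -
          (5 * (x * (25 + 10 * t) + (40 + 28 * t)) - 10 * (25 + 10 * t)) * Hxt
      have h2 : t = -25 / 17 := by linear_combination (-7 / 30600) * (h1 - 180 / 7 * Ht)
      rw [h2] at Ht
      norm_num at Ht
  · have hd : d = - t * c := by linarith
    subst hd
    have G7 : -3 - 4 * t = t ^ 2 * s := by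
      linear_combination 64 / 15 * E7 - 64 / 15 * t ^ 2 * E4
    have G8 : t * s = 1 + 2 * t := by linear_combination 128 / 15 * (E8 + t * E5)
    have G10 : s - 4 - 4 * t + 2 * t * s = 0 := by
      linear_combination 64 / 15 * (E10 + 2 * t * E4)
    have G : (t + 1) * (2 * t + 3) = 0 := by linear_combination -(G7 + t * G8)
    rcases mul_eq_zero.1 G with h1 | h1
    · have ht : t = -1 := by linarith
      subst ht
      linarith
    · have ht : t = -3 / 2 := by linarith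
      subst ht
      linarith

theorem kill_core_I {e f p4 p5 p6 p7 : E3} (he : ⟪e, e⟫ = 1) (hf : ⟪f, f⟫ = 1)
    (hef : ⟪e - f, e - f⟫ = 1 / 4) (h4 : ⟪p4, p4⟫ = 1) (h6 : ⟪p6, p6⟫ = 1)
    (h4e : ⟪p4 + e, p4 + e⟫ = 1) (h6f : ⟪p6 + f, p6 + f⟫ = 1) (h46 : ⟪p4 - p6, p4 - p6⟫ = 1)
    (h7f : ⟪p7 + (2 : ℝ) • f, p7 + (2 : ℝ) • f⟫ = 1)
    (h7e : ⟪p7 + (2 : ℝ) • e, p7 + (2 : ℝ) • e⟫ = 1)
    (h73 : ⟪p7 - p4 + e, p7 - p4 + e⟫ = 1) (h78 : ⟪p7 - p6 + f, p7 - p6 + f⟫ = 1)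
    (h53 : ⟪p5 - p4 + e, p5 - p4 + e⟫ = 1) (h54 : ⟪p5 - p4, p5 - p4⟫ = 1)
    (h56 : ⟪p5 - p6, p5 - p6⟫ = 1) (h58 : ⟪p5 - p6 + f, p5 - p6 + f⟫ = 1)
    (h57 : ⟪p5 - p7, p5 - p7⟫ = 1) : False := by
  have hef' : ⟪e, f⟫ = 7 / 8 := by
    simp only [inner_c, sub_c, add_c, smul_c] at *; linarith
  have g := kill_gram he hf hef'
  have i4e : ⟪p4, e⟫ = -1 / 2 := by
    simp only [inner_c, sub_c, add_c, smul_c] at *; linarith
  have i6f : ⟪p6, f⟫ = -1 / 2 := by
    simp only [inner_c, sub_c, add_c, smul_c] at *; linarith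
  have i46 : ⟪p4, p6⟫ = 1 / 2 := by
    simp only [inner_c, sub_c, add_c, smul_c] at *; linarith
  have i7 : ⟪p7, p7⟫ = -3 - 4 * ⟪p7, e⟫ := by
    simp only [inner_c, sub_c, add_c, smul_c] at *; linarith
  have i7f : ⟪p7, f⟫ = ⟪p7, e⟫ := by
    simp only [inner_c, sub_c, add_c, smul_c] at *; linarith
  have i74 : ⟪p7, p4⟫ = -1 / 2 - ⟪p7, e⟫ := by
    simp only [inner_c, sub_c, add_c, smul_c] at *; linarith
  have i76 : ⟪p7, p6⟫ = -1 / 2 - ⟪p7, e⟫ := by
    simp only [inner_c, sub_c, add_c, smul_c] at *; linarith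
  have i5e : ⟪p5, e⟫ = -1 := by
    simp only [inner_c, sub_c, add_c, smul_c] at *; linarith
  have i5f : ⟪p5, f⟫ = -1 := by
    simp only [inner_c, sub_c, add_c, smul_c] at *; linarith
  have i54 : ⟪p5, p4⟫ = ⟪p5, p5⟫ / 2 := by
    simp only [inner_c, sub_c, add_c, smul_c] at *; linarith
  have i56 : ⟪p5, p6⟫ = ⟪p5, p5⟫ / 2 := by
    simp only [inner_c, sub_c, add_c, smul_c] at *; linarith
  have i57 : ⟪p5, p7⟫ = (⟪p5, p5⟫ - 4 - 4 * ⟪p7, e⟫) / 2 := by
    simp only [inner_c, sub_c, add_c, smul_c] at *; linarith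
  have g44 := g p4 p4
  have g46 := g p4 p6
  have g55 := g p5 p5
  have g54 := g p5 p4
  have g56 := g p5 p6
  have g77 := g p7 p7
  have g74 := g p7 p4
  have g76 := g p7 p6
  have g57 := g p5 p7
  rw [h4, i4e] at g44
  rw [i46, i4e, i6f] at g46
  rw [i5e, i5f] at g55
  rw [i54, i5e, i5f, i4e] at g54
  rw [i56, i5e, i5f, i6f] at g56
  rw [i7, i7f] at g77
  rw [i74, i7f, i4e] at g74
  rw [i76, i7f, i6f] at g76
  rw [i57, i5e, i5f, i7f] at g57
  refine kill_real_I (w₁ := ⟪p4, f⟫) (w₂ := ⟪p6, e⟫) (t := ⟪p7, e⟫) (s := ⟪p5, p5⟫)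
    (a := det3 e f p4) (b := det3 e f p6) (c := det3 e f p5) (d := det3 e f p7)
    ?_ ?_ ?_ ?_ ?_ ?_ ?_ ?_ ?_
  · linear_combination g44
  · linear_combination g46
  · linear_combination g55
  · linear_combination g54
  · linear_combination g56
  · linear_combination g77
  · linear_combination g74
  · linear_combination g76
  · linear_combination 2 * g57

/-- type I: nine vertices -/
theorem kill_I (l : ℝ) (hl : 0 < l) (b0 b1 b2 p3 p4 p5 p6 p7 p8 : E3)
    (h01 : dist b0 b1 = 2 * l) (h12 : dist b1 b2 = 2 * l) (h02 : dist b0 b2 = l)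
    (hz1 : p4 - p3 = (1 / 2 : ℝ) • (b1 - b2)) (hz2 : p6 - p8 = (1 / 2 : ℝ) • (b1 - b0))
    (h32 : dist p3 b2 = l) (h41 : dist p4 b1 = l) (h61 : dist p6 b1 = l) (h80 : dist p8 b0 = l)
    (h46 : dist p4 p6 = l) (h70 : dist p7 b0 = l) (h72 : dist p7 b2 = l) (h73 : dist p7 p3 = l)
    (h78 : dist p7 p8 = l) (h53 : dist p5 p3 = l) (h54 : dist p5 p4 = l) (h56 : dist p5 p6 = l)
    (h58 : dist p5 p8 = l) (h57 : dist p5 p7 = l) : False := by
  obtain ⟨e', he'⟩ := kill_pt (o := b1) hl b2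
  obtain ⟨f', hf'⟩ := kill_pt (o := b1) hl b0
  obtain ⟨e, rfl⟩ : ∃ e : E3, e' = -((2 : ℝ) • e) := ⟨-((1 / 2 : ℝ) • e'), by module⟩
  obtain ⟨f, rfl⟩ : ∃ f : E3, f' = -((2 : ℝ) • f) := ⟨-((1 / 2 : ℝ) • f'), by module⟩
  obtain ⟨q4, rfl⟩ := kill_pt (o := b1) hl p4
  obtain ⟨q5, rfl⟩ := kill_pt (o := b1) hl p5
  obtain ⟨q6, rfl⟩ := kill_pt (o := b1) hl p6
  obtain ⟨q7, rfl⟩ := kill_pt (o := b1) hl p7
  have e3 : p3 = b1 + l • (q4 - e) := by
    have h : p3 = b1 + l • q4 - (1 / 2 : ℝ) • (b1 - b2) := by rw [← hz1]; abel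
    rw [h, he']; module
  have e8 : p8 = b1 + l • (q6 - f) := by
    have h : p8 = b1 + l • q6 - (1 / 2 : ℝ) • (b1 - b0) := by rw [← hz2]; abel
    rw [h, hf']; module
  subst e3 e8 he' hf'
  have K01 := kill_sc1 hl h01
  have K12 := kill_sc2 hl h12
  have K02 := kill_sc (c := 1) hl (h02.trans (one_mul l).symm)
  have K32 := kill_sc (c := 1) hl (h32.trans (one_mul l).symm)
  have K41 := kill_sc1 (c := 1) hl (h41.trans (one_mul l).symm)
  have K61 := kill_sc1 (c := 1) hl (h61.trans (one_mul l).symm)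
  have K80 := kill_sc (c := 1) hl (h80.trans (one_mul l).symm)
  have K46 := kill_sc (c := 1) hl (h46.trans (one_mul l).symm)
  have K70 := kill_sc (c := 1) hl (h70.trans (one_mul l).symm)
  have K72 := kill_sc (c := 1) hl (h72.trans (one_mul l).symm)
  have K73 := kill_sc (c := 1) hl (h73.trans (one_mul l).symm)
  have K78 := kill_sc (c := 1) hl (h78.trans (one_mul l).symm)
  have K53 := kill_sc (c := 1) hl (h53.trans (one_mul l).symm)
  have K54 := kill_sc (c := 1) hl (h54.trans (one_mul l).symm)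
  have K56 := kill_sc (c := 1) hl (h56.trans (one_mul l).symm)
  have K58 := kill_sc (c := 1) hl (h58.trans (one_mul l).symm)
  have K57 := kill_sc (c := 1) hl (h57.trans (one_mul l).symm)
  clear h01 h12 h02 hz1 hz2 h32 h41 h61 h80 h46 h70 h72 h73 h78 h53 h54 h56 h58 h57
  simp only [inner_c, sub_c, smul_c, neg_c] at K01 K12 K02 K32 K41 K61 K80 K46 K70 K72 K73 K78 K53 K54 K56 K58 K57
  apply kill_core_I (e := e) (f := f) (p4 := q4) (p5 := q5) (p6 := q6) (p7 := q7)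
  all_goals
    simp only [inner_c, sub_c, add_c, smul_c]
    linarith

theorem kill_core_II {e f q r s v : E3} (he : ⟪e, e⟫ = 1) (hf : ⟪f, f⟫ = 1)
    (hef : ⟪e - f, e - f⟫ = 1 / 4) (h90 : ⟪v, v⟫ = 1) (h98 : ⟪v - q, v - q⟫ = 1)
    (hx1 : ⟪v - f, v - f⟫ = 1) (hx6 : ⟪v - q - f, v - q - f⟫ = 1) (h80 : ⟪q, q⟫ = 1)
    (h82 : ⟪q - (2 : ℝ) • (f - e), q - (2 : ℝ) • (f - e)⟫ = 1) (h72 : ⟪s, s⟫ = 1)
    (h78 : ⟪(2 : ℝ) • (f - e) + s - q, (2 : ℝ) • (f - e) + s - q⟫ = 1)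
    (h73 : ⟪s - r, s - r⟫ = 1) (h53 : ⟪s + f - r, s + f - r⟫ = 1)
    (h54 : ⟪s + f - e - r, s + f - e - r⟫ = 1)
    (h56 : ⟪(2 : ℝ) • (f - e) + s - q - f, (2 : ℝ) • (f - e) + s - q - f⟫ = 1)
    (h32 : ⟪r, r⟫ = 1) (h41 : ⟪r - e, r - e⟫ = 1) : False := by
  have hef' : ⟪e, f⟫ = 7 / 8 := by
    simp only [inner_c, sub_c, add_c, smul_c] at *; linarith
  have g := kill_gram he hf hef'
  have iqf : ⟪q, f⟫ = 0 := by
    simp only [inner_c, sub_c, add_c, smul_c] at *; linarith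
  have iqe : ⟪q, e⟫ = -1 / 4 := by
    simp only [inner_c, sub_c, add_c, smul_c] at *; linarith
  have isf : ⟪s, f⟫ = 1 / 4 := by
    simp only [inner_c, sub_c, add_c, smul_c] at *; linarith
  have ise : ⟪s, e⟫ = 1 / 8 := by
    simp only [inner_c, sub_c, add_c, smul_c] at *; linarith
  have isq : ⟪s, q⟫ = 3 / 4 := by
    simp only [inner_c, sub_c, add_c, smul_c] at *; linarith
  have gss := g s s
  have gqq := g q q
  have gsq := g s q
  rw [h72, isf, ise] at gss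
  rw [h80, iqf, iqe] at gqq
  rw [isq, isf, ise, iqf, iqe] at gsq
  generalize det3 e f s = a at *
  generalize det3 e f q = b at *
  have h1 : a * a = 27 / 128 := by linarith
  have h2 : b * b = 11 / 64 := by linarith
  have h3 : a * b = 39 / 256 := by linarith
  have h4 : (a * b) * (a * b) = (a * a) * (b * b) := by ring
  rw [h1, h2, h3] at h4
  norm_num at h4

/-- type II: eleven vertices -/
theorem kill_II (l : ℝ) (hl : 0 < l) (b0 b1 b2 p3 p4 p5 p6 p7 p8 p9 p10 : E3)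
    (h01 : dist b0 b1 = 2 * l) (h12 : dist b1 b2 = 2 * l) (h02 : dist b0 b2 = l)
    (hz1 : p4 - p3 = (1 / 2 : ℝ) • (b1 - b2)) (hz2 : p10 - p9 = (1 / 2 : ℝ) • (b1 - b0))
    (hz3 : p5 - p7 = (1 / 2 : ℝ) • (b1 - b0)) (hz4 : p6 - p8 = b1 - b0)
    (h90 : dist p9 b0 = l) (h98 : dist p9 p8 = l) (hx1 : dist p10 b1 = l) (hx6 : dist p10 p6 = l)
    (h80 : dist p8 b0 = l) (h82 : dist p8 b2 = l) (h72 : dist p7 b2 = l) (h78 : dist p7 p8 = l)
    (h73 : dist p7 p3 = l) (h53 : dist p5 p3 = l) (h54 : dist p5 p4 = l) (h56 : dist p5 p6 = l)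
    (h32 : dist p3 b2 = l) (h41 : dist p4 b1 = l) : False := by
  obtain ⟨f', hf'⟩ := kill_pt (o := b0) hl b1
  obtain ⟨f, rfl⟩ : ∃ f : E3, f' = (2 : ℝ) • f := ⟨(1 / 2 : ℝ) • f', by module⟩
  obtain ⟨e', he'⟩ := kill_pt (o := b0) hl b2
  obtain ⟨e, rfl⟩ : ∃ e : E3, e' = (2 : ℝ) • (f - e) := ⟨f - (1 / 2 : ℝ) • e', by module⟩
  obtain ⟨q, hq⟩ := kill_pt (o := b0) hl p8
  obtain ⟨v, hv⟩ := kill_pt (o := b0) hl p9
  obtain ⟨s, hs⟩ := kill_pt (o := b2) hl p7
  obtain ⟨r, hr⟩ := kill_pt (o := b2) hl p3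
  have e7 : p7 = b0 + l • ((2 : ℝ) • (f - e) + s) := by rw [hs, he']; module
  have e3 : p3 = b0 + l • ((2 : ℝ) • (f - e) + r) := by rw [hr, he']; module
  have e4 : p4 = b0 + l • ((2 : ℝ) • (f - e) + r + e) := by
    have h : p4 = p3 + (1 / 2 : ℝ) • (b1 - b2) := by rw [← hz1]; abel
    rw [h, e3, he', hf']; module
  have e10 : p10 = b0 + l • (v + f) := by
    have h : p10 = p9 + (1 / 2 : ℝ) • (b1 - b0) := by rw [← hz2]; abel
    rw [h, hv, hf']; module
  have e5 : p5 = b0 + l • ((2 : ℝ) • (f - e) + s + f) := by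
    have h : p5 = p7 + (1 / 2 : ℝ) • (b1 - b0) := by rw [← hz3]; abel
    rw [h, e7, hf']; module
  have e6 : p6 = b0 + l • (q + (2 : ℝ) • f) := by
    have h : p6 = p8 + (b1 - b0) := by rw [← hz4]; abel
    rw [h, hq, hf']; module
  clear hs hr hz1 hz2 hz3 hz4
  subst e3 e4 e5 e6 e7 e10 hq hv he' hf'
  have K01 := kill_sc2 hl h01
  have K12 := kill_sc hl h12
  have K02 := kill_sc2 (c := 1) hl (h02.trans (one_mul l).symm)
  have K90 := kill_sc1 (c := 1) hl (h90.trans (one_mul l).symm)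
  have K98 := kill_sc (c := 1) hl (h98.trans (one_mul l).symm)
  have Kx1 := kill_sc (c := 1) hl (hx1.trans (one_mul l).symm)
  have Kx6 := kill_sc (c := 1) hl (hx6.trans (one_mul l).symm)
  have K80 := kill_sc1 (c := 1) hl (h80.trans (one_mul l).symm)
  have K82 := kill_sc (c := 1) hl (h82.trans (one_mul l).symm)
  have K72 := kill_sc (c := 1) hl (h72.trans (one_mul l).symm)
  have K78 := kill_sc (c := 1) hl (h78.trans (one_mul l).symm)
  have K73 := kill_sc (c := 1) hl (h73.trans (one_mul l).symm)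
  have K53 := kill_sc (c := 1) hl (h53.trans (one_mul l).symm)
  have K54 := kill_sc (c := 1) hl (h54.trans (one_mul l).symm)
  have K56 := kill_sc (c := 1) hl (h56.trans (one_mul l).symm)
  have K32 := kill_sc (c := 1) hl (h32.trans (one_mul l).symm)
  have K41 := kill_sc (c := 1) hl (h41.trans (one_mul l).symm)
  clear h01 h12 h02 h90 h98 hx1 hx6 h80 h82 h72 h78 h73 h53 h54 h56 h32 h41
  simp only [inner_c, sub_c, add_c, smul_c] at K01 K12 K02 K90 K98 Kx1 Kx6 K80 K82 K72 K78 K73 K53 K54 K56 K32 K41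
  apply kill_core_II (e := e) (f := f) (q := q) (r := r) (s := s) (v := v)
  all_goals
    simp only [inner_c, sub_c, add_c, smul_c]
    linarith

end Pool.Agent.Lib.MP_ba95e8_co
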