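import Pool.Agent.Lib.MP_ba95e8_co.Dome
import Pool.Agent.Lib.MP_ba95e8_co.Kill

/-!
Deltahedral domes, task K2: no dome realises one of the three labelled configurations that
survive the search (`finA` is of type I; `finB`, `finC` are of type II, mirror images of each other:
exchange of the roles of `b 0` and `b 2`).
-/

namespace Pool.Agent.Lib.MP_ba95e8_co

open scoped RealInnerProductSpace

def finA : List (List (ℕ × ℕ)) :=
  [[(6,2),(8,2),(0,1),(1,1)], [(0,1),(7,1),(2,1)], [(8,1),(7,1),(0,1)], [(6,1),(5,1),(8,1)],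
   [(5,1),(7,1),(8,1)], [(7,1),(3,1),(2,1)], [(5,1),(3,1),(7,1)], [(4,1),(6,1),(1,1)],
   [(4,1),(5,1),(6,1)], [(4,1),(3,1),(5,1)], [(1,1),(2,1),(3,2),(4,2)]]

def finB : List (List (ℕ × ℕ)) :=
  [[(10,2),(9,2),(0,1),(1,1)], [(0,1),(8,1),(2,1)], [(9,1),(8,1),(0,1)], [(6,1),(10,1),(1,1)],
   [(6,1),(8,1),(9,2),(10,2)], [(8,1),(7,1),(2,1)], [(5,2),(7,2),(8,1),(6,1)],
   [(7,1),(3,1),(2,1)], [(5,1),(3,1),(7,1)], [(4,1),(6,1),(1,1)], [(4,1),(5,1),(6,1)],
   [(4,1),(3,1),(5,1)], [(1,1),(2,1),(3,2),(4,2)]]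

def finC : List (List (ℕ × ℕ)) :=
  [[(9,2),(10,2),(0,1),(1,1)], [(10,1),(7,1),(0,1)], [(9,1),(8,1),(10,1)], [(8,1),(7,1),(10,1)],
   [(0,1),(5,1),(2,1)], [(7,1),(5,1),(0,1)], [(6,1),(9,1),(1,1)], [(6,1),(8,1),(9,1)],
   [(6,1),(5,1),(7,2),(8,2)], [(5,1),(3,1),(2,1)], [(4,1),(6,1),(1,1)],
   [(4,2),(3,2),(5,1),(6,1)], [(1,1),(2,1),(3,2),(4,2)]]

theorem DomeModel.tri (M : DomeModel) {x y z : E3} (h : M.face [(x, 1), (y, 1), (z, 1)]) :
    dist y z = dist x y ∧ dist z x = dist x y := by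
  have h1 := M.closX _ _ h (by simp)
  have h2 := M.closY _ _ h (by simp)
  simp only [closAux, Ux, Uy, M.len_eq] at h1 h2
  norm_num at h1 h2
  constructor <;> linarith

theorem DomeModel.trap (M : DomeModel) {x y z w : E3}
    (h : M.face [(x, 2), (y, 2), (z, 1), (w, 1)]) :
    dist y z = dist w x ∧ dist z w = dist x y + dist w x ∧
      dist z w • (x - y) = dist x y • (w - z) := by
  have h1 := M.closX _ _ h (by simp)
  have h2 := M.closY _ _ h (by simp)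
  simp only [closAux, Ux, Uy, M.len_eq] at h1 h2
  norm_num at h1 h2
  refine ⟨by linarith, by linarith, ?_⟩
  obtain ⟨n, D, hn, hD, hs⟩ := M.geo _ _ h (by simp)
  simp only [StepAux] at hs
  obtain ⟨s1, s2, s3, s4⟩ := hs
  norm_num at s1 s2 s3 s4
  have h3 : D 3 = - D 0 := hD.opp 0
  rw [h3] at s3
  have e1 : x - y = - (dist x y • D 0) := by rw [← s1]; abel
  rw [e1, s3]
  module

theorem half {l : ℝ} (hl : 0 < l) {a b : E3} (h : (2 * l) • a = l • b) :
    a = (1 / 2 : ℝ) • b := by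
  have h1 : l • a = l • ((1 / 2 : ℝ) • b) := by
    rw [smul_comm, ← h, smul_smul]
    congr 1
    ring
  exact smul_right_injective E3 hl.ne' h1

theorem no_finA (M : DomeModel) (lab : ℕ → E3)
    (h : ∀ f ∈ finA, M.face (f.map fun x => (lab x.1, x.2))) : False := by
  have f1 : M.face [(lab 6, 2), (lab 8, 2), (lab 0, 1), (lab 1, 1)] :=
    h [(6, 2), (8, 2), (0, 1), (1, 1)] (by simp [finA])
  have f2 : M.face [(lab 0, 1), (lab 7, 1), (lab 2, 1)] :=
    h [(0, 1), (7, 1), (2, 1)] (by simp [finA])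
  have f3 : M.face [(lab 8, 1), (lab 7, 1), (lab 0, 1)] :=
    h [(8, 1), (7, 1), (0, 1)] (by simp [finA])
  have f4 : M.face [(lab 6, 1), (lab 5, 1), (lab 8, 1)] :=
    h [(6, 1), (5, 1), (8, 1)] (by simp [finA])
  have f5 : M.face [(lab 5, 1), (lab 7, 1), (lab 8, 1)] :=
    h [(5, 1), (7, 1), (8, 1)] (by simp [finA])
  have f6 : M.face [(lab 7, 1), (lab 3, 1), (lab 2, 1)] :=
    h [(7, 1), (3, 1), (2, 1)] (by simp [finA])
  have f7 : M.face [(lab 5, 1), (lab 3, 1), (lab 7, 1)] :=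
    h [(5, 1), (3, 1), (7, 1)] (by simp [finA])
  have f8 : M.face [(lab 4, 1), (lab 6, 1), (lab 1, 1)] :=
    h [(4, 1), (6, 1), (1, 1)] (by simp [finA])
  have f9 : M.face [(lab 4, 1), (lab 5, 1), (lab 6, 1)] :=
    h [(4, 1), (5, 1), (6, 1)] (by simp [finA])
  have f10 : M.face [(lab 4, 1), (lab 3, 1), (lab 5, 1)] :=
    h [(4, 1), (3, 1), (5, 1)] (by simp [finA])
  have f11 : M.face [(lab 1, 1), (lab 2, 1), (lab 3, 2), (lab 4, 2)] :=
    h [(1, 1), (2, 1), (3, 2), (4, 2)] (by simp [finA])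
  have hl := M.len_pos _ _ _ f2
  rw [M.len_eq] at hl
  simp only at hl
  obtain ⟨a1, b1, v1⟩ := M.trap f1
  obtain ⟨a2, b2⟩ := M.tri f2
  obtain ⟨a3, b3⟩ := M.tri f3
  obtain ⟨a4, b4⟩ := M.tri f4
  obtain ⟨a5, b5⟩ := M.tri f5
  obtain ⟨a6, b6⟩ := M.tri f6
  obtain ⟨a7, b7⟩ := M.tri f7
  obtain ⟨a8, b8⟩ := M.tri f8
  obtain ⟨a9, b9⟩ := M.tri f9
  obtain ⟨a10, b10⟩ := M.tri f10
  have g11 : M.face [(lab 3, 2), (lab 4, 2), (lab 1, 1), (lab 2, 1)] :=
    M.rot _ _ (M.rot _ _ f11)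
  obtain ⟨a11, b11, v11⟩ := M.trap g11
  have s0_1 := dist_comm (lab 0) (lab 1)
  have s0_2 := dist_comm (lab 0) (lab 2)
  have s0_7 := dist_comm (lab 0) (lab 7)
  have s0_8 := dist_comm (lab 0) (lab 8)
  have s1_2 := dist_comm (lab 1) (lab 2)
  have s1_4 := dist_comm (lab 1) (lab 4)
  have s1_6 := dist_comm (lab 1) (lab 6)
  have s2_3 := dist_comm (lab 2) (lab 3)
  have s2_7 := dist_comm (lab 2) (lab 7)
  have s3_4 := dist_comm (lab 3) (lab 4)
  have s3_5 := dist_comm (lab 3) (lab 5)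
  have s3_7 := dist_comm (lab 3) (lab 7)
  have s4_5 := dist_comm (lab 4) (lab 5)
  have s4_6 := dist_comm (lab 4) (lab 6)
  have s5_6 := dist_comm (lab 5) (lab 6)
  have s5_7 := dist_comm (lab 5) (lab 7)
  have s5_8 := dist_comm (lab 5) (lab 8)
  have s6_8 := dist_comm (lab 6) (lab 8)
  have s7_8 := dist_comm (lab 7) (lab 8)
  have e3_2 : dist (lab 3) (lab 2) = dist (lab 0) (lab 7) := by linarith
  have e4_1 : dist (lab 4) (lab 1) = dist (lab 0) (lab 7) := by linarith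
  have e6_1 : dist (lab 6) (lab 1) = dist (lab 0) (lab 7) := by linarith
  have e8_0 : dist (lab 8) (lab 0) = dist (lab 0) (lab 7) := by linarith
  have e4_6 : dist (lab 4) (lab 6) = dist (lab 0) (lab 7) := by linarith
  have e7_0 : dist (lab 7) (lab 0) = dist (lab 0) (lab 7) := by linarith
  have e7_2 : dist (lab 7) (lab 2) = dist (lab 0) (lab 7) := by linarith
  have e7_3 : dist (lab 7) (lab 3) = dist (lab 0) (lab 7) := by linarith
  have e7_8 : dist (lab 7) (lab 8) = dist (lab 0) (lab 7) := by linarith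
  have e5_3 : dist (lab 5) (lab 3) = dist (lab 0) (lab 7) := by linarith
  have e5_4 : dist (lab 5) (lab 4) = dist (lab 0) (lab 7) := by linarith
  have e5_6 : dist (lab 5) (lab 6) = dist (lab 0) (lab 7) := by linarith
  have e5_8 : dist (lab 5) (lab 8) = dist (lab 0) (lab 7) := by linarith
  have e5_7 : dist (lab 5) (lab 7) = dist (lab 0) (lab 7) := by linarith
  have e3_4 : dist (lab 3) (lab 4) = dist (lab 0) (lab 7) := by linarith
  have e6_8 : dist (lab 6) (lab 8) = dist (lab 0) (lab 7) := by linarith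
  have e0_2 : dist (lab 0) (lab 2) = dist (lab 0) (lab 7) := by linarith
  have e0_1 : dist (lab 0) (lab 1) = 2 * dist (lab 0) (lab 7) := by linarith
  have e1_2 : dist (lab 1) (lab 2) = 2 * dist (lab 0) (lab 7) := by linarith
  rw [e0_1, e6_8] at v1
  replace v1 := half hl v1
  rw [e1_2, e3_4] at v11
  replace v11 := half hl v11
  have z1 : lab 4 - lab 3 = (1 / 2 : ℝ) • (lab 1 - lab 2) := by
    rw [← neg_sub, v11]; module
  exact kill_I _ hl (lab 0) (lab 1) (lab 2) (lab 3) (lab 4) (lab 5) (lab 6) (lab 7) (lab 8)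
    e0_1 e1_2 e0_2 z1 v1 e3_2 e4_1 e6_1 e8_0 e4_6 e7_0 e7_2 e7_3 e7_8 e5_3 e5_4 e5_6 e5_8 e5_7

theorem no_finB (M : DomeModel) (lab : ℕ → E3)
    (h : ∀ f ∈ finB, M.face (f.map fun x => (lab x.1, x.2))) : False := by
  have f1 : M.face [(lab 10, 2), (lab 9, 2), (lab 0, 1), (lab 1, 1)] :=
    h [(10, 2), (9, 2), (0, 1), (1, 1)] (by simp [finB])
  have f2 : M.face [(lab 0, 1), (lab 8, 1), (lab 2, 1)] :=
    h [(0, 1), (8, 1), (2, 1)] (by simp [finB])
  have f3 : M.face [(lab 9, 1), (lab 8, 1), (lab 0, 1)] :=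
    h [(9, 1), (8, 1), (0, 1)] (by simp [finB])
  have f4 : M.face [(lab 6, 1), (lab 10, 1), (lab 1, 1)] :=
    h [(6, 1), (10, 1), (1, 1)] (by simp [finB])
  have f5 : M.face [(lab 6, 1), (lab 8, 1), (lab 9, 2), (lab 10, 2)] :=
    h [(6, 1), (8, 1), (9, 2), (10, 2)] (by simp [finB])
  have f6 : M.face [(lab 8, 1), (lab 7, 1), (lab 2, 1)] :=
    h [(8, 1), (7, 1), (2, 1)] (by simp [finB])
  have f7 : M.face [(lab 5, 2), (lab 7, 2), (lab 8, 1), (lab 6, 1)] :=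
    h [(5, 2), (7, 2), (8, 1), (6, 1)] (by simp [finB])
  have f8 : M.face [(lab 7, 1), (lab 3, 1), (lab 2, 1)] :=
    h [(7, 1), (3, 1), (2, 1)] (by simp [finB])
  have f9 : M.face [(lab 5, 1), (lab 3, 1), (lab 7, 1)] :=
    h [(5, 1), (3, 1), (7, 1)] (by simp [finB])
  have f10 : M.face [(lab 4, 1), (lab 6, 1), (lab 1, 1)] :=
    h [(4, 1), (6, 1), (1, 1)] (by simp [finB])
  have f11 : M.face [(lab 4, 1), (lab 5, 1), (lab 6, 1)] :=
    h [(4, 1), (5, 1), (6, 1)] (by simp [finB])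
  have f12 : M.face [(lab 4, 1), (lab 3, 1), (lab 5, 1)] :=
    h [(4, 1), (3, 1), (5, 1)] (by simp [finB])
  have f13 : M.face [(lab 1, 1), (lab 2, 1), (lab 3, 2), (lab 4, 2)] :=
    h [(1, 1), (2, 1), (3, 2), (4, 2)] (by simp [finB])
  have hl := M.len_pos _ _ _ f2
  rw [M.len_eq] at hl
  simp only at hl
  obtain ⟨a1, b1, v1⟩ := M.trap f1
  obtain ⟨a2, b2⟩ := M.tri f2
  obtain ⟨a3, b3⟩ := M.tri f3
  obtain ⟨a4, b4⟩ := M.tri f4
  have g5 : M.face [(lab 9, 2), (lab 10, 2), (lab 6, 1), (lab 8, 1)] :=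
    M.rot _ _ (M.rot _ _ f5)
  obtain ⟨a5, b5, v5⟩ := M.trap g5
  obtain ⟨a6, b6⟩ := M.tri f6
  obtain ⟨a7, b7, v7⟩ := M.trap f7
  obtain ⟨a8, b8⟩ := M.tri f8
  obtain ⟨a9, b9⟩ := M.tri f9
  obtain ⟨a10, b10⟩ := M.tri f10
  obtain ⟨a11, b11⟩ := M.tri f11
  obtain ⟨a12, b12⟩ := M.tri f12
  have g13 : M.face [(lab 3, 2), (lab 4, 2), (lab 1, 1), (lab 2, 1)] :=
    M.rot _ _ (M.rot _ _ f13)
  obtain ⟨a13, b13, v13⟩ := M.trap g13
  have s0_1 := dist_comm (lab 0) (lab 1)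
  have s0_2 := dist_comm (lab 0) (lab 2)
  have s0_8 := dist_comm (lab 0) (lab 8)
  have s0_9 := dist_comm (lab 0) (lab 9)
  have s1_2 := dist_comm (lab 1) (lab 2)
  have s1_4 := dist_comm (lab 1) (lab 4)
  have s1_6 := dist_comm (lab 1) (lab 6)
  have s1_10 := dist_comm (lab 1) (lab 10)
  have s2_3 := dist_comm (lab 2) (lab 3)
  have s2_7 := dist_comm (lab 2) (lab 7)
  have s2_8 := dist_comm (lab 2) (lab 8)
  have s3_4 := dist_comm (lab 3) (lab 4)
  have s3_5 := dist_comm (lab 3) (lab 5)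
  have s3_7 := dist_comm (lab 3) (lab 7)
  have s4_5 := dist_comm (lab 4) (lab 5)
  have s4_6 := dist_comm (lab 4) (lab 6)
  have s5_6 := dist_comm (lab 5) (lab 6)
  have s5_7 := dist_comm (lab 5) (lab 7)
  have s6_8 := dist_comm (lab 6) (lab 8)
  have s6_10 := dist_comm (lab 6) (lab 10)
  have s7_8 := dist_comm (lab 7) (lab 8)
  have s8_9 := dist_comm (lab 8) (lab 9)
  have s9_10 := dist_comm (lab 9) (lab 10)
  have e9_0 : dist (lab 9) (lab 0) = dist (lab 0) (lab 8) := by linarith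
  have e9_8 : dist (lab 9) (lab 8) = dist (lab 0) (lab 8) := by linarith
  have e10_1 : dist (lab 10) (lab 1) = dist (lab 0) (lab 8) := by linarith
  have e10_6 : dist (lab 10) (lab 6) = dist (lab 0) (lab 8) := by linarith
  have e8_0 : dist (lab 8) (lab 0) = dist (lab 0) (lab 8) := by linarith
  have e8_2 : dist (lab 8) (lab 2) = dist (lab 0) (lab 8) := by linarith
  have e7_2 : dist (lab 7) (lab 2) = dist (lab 0) (lab 8) := by linarith
  have e7_8 : dist (lab 7) (lab 8) = dist (lab 0) (lab 8) := by linarith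
  have e7_3 : dist (lab 7) (lab 3) = dist (lab 0) (lab 8) := by linarith
  have e5_3 : dist (lab 5) (lab 3) = dist (lab 0) (lab 8) := by linarith
  have e5_4 : dist (lab 5) (lab 4) = dist (lab 0) (lab 8) := by linarith
  have e5_6 : dist (lab 5) (lab 6) = dist (lab 0) (lab 8) := by linarith
  have e3_2 : dist (lab 3) (lab 2) = dist (lab 0) (lab 8) := by linarith
  have e4_1 : dist (lab 4) (lab 1) = dist (lab 0) (lab 8) := by linarith
  have e0_2 : dist (lab 0) (lab 2) = dist (lab 0) (lab 8) := by linarith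
  have e10_9 : dist (lab 10) (lab 9) = dist (lab 0) (lab 8) := by linarith
  have e9_10 : dist (lab 9) (lab 10) = dist (lab 0) (lab 8) := by linarith
  have e5_7 : dist (lab 5) (lab 7) = dist (lab 0) (lab 8) := by linarith
  have e3_4 : dist (lab 3) (lab 4) = dist (lab 0) (lab 8) := by linarith
  have e0_1 : dist (lab 0) (lab 1) = 2 * dist (lab 0) (lab 8) := by linarith
  have e1_2 : dist (lab 1) (lab 2) = 2 * dist (lab 0) (lab 8) := by linarith
  have e6_8 : dist (lab 6) (lab 8) = 2 * dist (lab 0) (lab 8) := by linarith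
  have e8_6 : dist (lab 8) (lab 6) = 2 * dist (lab 0) (lab 8) := by linarith
  rw [e0_1, e10_9] at v1
  replace v1 := half hl v1
  rw [e6_8, e9_10] at v5
  replace v5 := half hl v5
  rw [e8_6, e5_7] at v7
  replace v7 := half hl v7
  rw [e1_2, e3_4] at v13
  replace v13 := half hl v13
  have z1 : lab 4 - lab 3 = (1 / 2 : ℝ) • (lab 1 - lab 2) := by
    rw [← neg_sub, v13]; module
  have z4 : lab 6 - lab 8 = lab 1 - lab 0 := by
    have e1 : lab 6 - lab 8 = (2 : ℝ) • ((1 / 2 : ℝ) • (lab 6 - lab 8)) := by module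
    have e2 : lab 1 - lab 0 = (2 : ℝ) • ((1 / 2 : ℝ) • (lab 1 - lab 0)) := by module
    rw [e1, e2, ← v1]
    congr 1
    rw [← neg_sub (lab 9) (lab 10), v5]; module
  have z3 : lab 5 - lab 7 = (1 / 2 : ℝ) • (lab 1 - lab 0) := by rw [v7, z4]
  exact kill_II _ hl (lab 0) (lab 1) (lab 2) (lab 3) (lab 4) (lab 5) (lab 6) (lab 7) (lab 8)
    (lab 9) (lab 10) e0_1 e1_2 e0_2 z1 v1 z3 z4 e9_0 e9_8 e10_1 e10_6 e8_0 e8_2 e7_2 e7_8 e7_3
    e5_3 e5_4 e5_6 e3_2 e4_1

theorem no_finC (M : DomeModel) (lab : ℕ → E3)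
    (h : ∀ f ∈ finC, M.face (f.map fun x => (lab x.1, x.2))) : False := by
  have f1 : M.face [(lab 9, 2), (lab 10, 2), (lab 0, 1), (lab 1, 1)] :=
    h [(9, 2), (10, 2), (0, 1), (1, 1)] (by simp [finC])
  have f2 : M.face [(lab 10, 1), (lab 7, 1), (lab 0, 1)] :=
    h [(10, 1), (7, 1), (0, 1)] (by simp [finC])
  have f3 : M.face [(lab 9, 1), (lab 8, 1), (lab 10, 1)] :=
    h [(9, 1), (8, 1), (10, 1)] (by simp [finC])
  have f4 : M.face [(lab 8, 1), (lab 7, 1), (lab 10, 1)] :=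
    h [(8, 1), (7, 1), (10, 1)] (by simp [finC])
  have f5 : M.face [(lab 0, 1), (lab 5, 1), (lab 2, 1)] :=
    h [(0, 1), (5, 1), (2, 1)] (by simp [finC])
  have f6 : M.face [(lab 7, 1), (lab 5, 1), (lab 0, 1)] :=
    h [(7, 1), (5, 1), (0, 1)] (by simp [finC])
  have f7 : M.face [(lab 6, 1), (lab 9, 1), (lab 1, 1)] :=
    h [(6, 1), (9, 1), (1, 1)] (by simp [finC])
  have f8 : M.face [(lab 6, 1), (lab 8, 1), (lab 9, 1)] :=
    h [(6, 1), (8, 1), (9, 1)] (by simp [finC])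
  have f9 : M.face [(lab 6, 1), (lab 5, 1), (lab 7, 2), (lab 8, 2)] :=
    h [(6, 1), (5, 1), (7, 2), (8, 2)] (by simp [finC])
  have f10 : M.face [(lab 5, 1), (lab 3, 1), (lab 2, 1)] :=
    h [(5, 1), (3, 1), (2, 1)] (by simp [finC])
  have f11 : M.face [(lab 4, 1), (lab 6, 1), (lab 1, 1)] :=
    h [(4, 1), (6, 1), (1, 1)] (by simp [finC])
  have f12 : M.face [(lab 4, 2), (lab 3, 2), (lab 5, 1), (lab 6, 1)] :=
    h [(4, 2), (3, 2), (5, 1), (6, 1)] (by simp [finC])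
  have f13 : M.face [(lab 1, 1), (lab 2, 1), (lab 3, 2), (lab 4, 2)] :=
    h [(1, 1), (2, 1), (3, 2), (4, 2)] (by simp [finC])
  have hl := M.len_pos _ _ _ f2
  rw [M.len_eq] at hl
  simp only at hl
  obtain ⟨a1, b1, v1⟩ := M.trap f1
  obtain ⟨a2, b2⟩ := M.tri f2
  obtain ⟨a3, b3⟩ := M.tri f3
  obtain ⟨a4, b4⟩ := M.tri f4
  obtain ⟨a5, b5⟩ := M.tri f5
  obtain ⟨a6, b6⟩ := M.tri f6
  obtain ⟨a7, b7⟩ := M.tri f7
  obtain ⟨a8, b8⟩ := M.tri f8
  have g9 : M.face [(lab 7, 2), (lab 8, 2), (lab 6, 1), (lab 5, 1)] :=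
    M.rot _ _ (M.rot _ _ f9)
  obtain ⟨a9, b9, v9⟩ := M.trap g9
  obtain ⟨a10, b10⟩ := M.tri f10
  obtain ⟨a11, b11⟩ := M.tri f11
  obtain ⟨a12, b12, v12⟩ := M.trap f12
  have g13 : M.face [(lab 3, 2), (lab 4, 2), (lab 1, 1), (lab 2, 1)] :=
    M.rot _ _ (M.rot _ _ f13)
  obtain ⟨a13, b13, v13⟩ := M.trap g13
  have s0_1 := dist_comm (lab 0) (lab 1)
  have s0_2 := dist_comm (lab 0) (lab 2)
  have s0_5 := dist_comm (lab 0) (lab 5)
  have s0_7 := dist_comm (lab 0) (lab 7)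
  have s0_10 := dist_comm (lab 0) (lab 10)
  have s1_2 := dist_comm (lab 1) (lab 2)
  have s1_4 := dist_comm (lab 1) (lab 4)
  have s1_6 := dist_comm (lab 1) (lab 6)
  have s1_9 := dist_comm (lab 1) (lab 9)
  have s2_3 := dist_comm (lab 2) (lab 3)
  have s2_5 := dist_comm (lab 2) (lab 5)
  have s3_4 := dist_comm (lab 3) (lab 4)
  have s3_5 := dist_comm (lab 3) (lab 5)
  have s4_6 := dist_comm (lab 4) (lab 6)
  have s5_6 := dist_comm (lab 5) (lab 6)
  have s5_7 := dist_comm (lab 5) (lab 7)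
  have s6_8 := dist_comm (lab 6) (lab 8)
  have s6_9 := dist_comm (lab 6) (lab 9)
  have s7_8 := dist_comm (lab 7) (lab 8)
  have s7_10 := dist_comm (lab 7) (lab 10)
  have s8_9 := dist_comm (lab 8) (lab 9)
  have s8_10 := dist_comm (lab 8) (lab 10)
  have s9_10 := dist_comm (lab 9) (lab 10)
  have e3_2 : dist (lab 3) (lab 2) = dist (lab 10) (lab 7) := by linarith
  have e3_5 : dist (lab 3) (lab 5) = dist (lab 10) (lab 7) := by linarith
  have e4_1 : dist (lab 4) (lab 1) = dist (lab 10) (lab 7) := by linarith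
  have e4_6 : dist (lab 4) (lab 6) = dist (lab 10) (lab 7) := by linarith
  have e5_2 : dist (lab 5) (lab 2) = dist (lab 10) (lab 7) := by linarith
  have e5_0 : dist (lab 5) (lab 0) = dist (lab 10) (lab 7) := by linarith
  have e7_0 : dist (lab 7) (lab 0) = dist (lab 10) (lab 7) := by linarith
  have e7_5 : dist (lab 7) (lab 5) = dist (lab 10) (lab 7) := by linarith
  have e7_10 : dist (lab 7) (lab 10) = dist (lab 10) (lab 7) := by linarith
  have e8_10 : dist (lab 8) (lab 10) = dist (lab 10) (lab 7) := by linarith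
  have e8_9 : dist (lab 8) (lab 9) = dist (lab 10) (lab 7) := by linarith
  have e8_6 : dist (lab 8) (lab 6) = dist (lab 10) (lab 7) := by linarith
  have e10_0 : dist (lab 10) (lab 0) = dist (lab 10) (lab 7) := by linarith
  have e9_1 : dist (lab 9) (lab 1) = dist (lab 10) (lab 7) := by linarith
  have e2_0 : dist (lab 2) (lab 0) = dist (lab 10) (lab 7) := by linarith
  have e9_10 : dist (lab 9) (lab 10) = dist (lab 10) (lab 7) := by linarith
  have e7_8 : dist (lab 7) (lab 8) = dist (lab 10) (lab 7) := by linarith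
  have e4_3 : dist (lab 4) (lab 3) = dist (lab 10) (lab 7) := by linarith
  have e3_4 : dist (lab 3) (lab 4) = dist (lab 10) (lab 7) := by linarith
  have e2_1 : dist (lab 2) (lab 1) = 2 * dist (lab 10) (lab 7) := by linarith
  have e1_0 : dist (lab 1) (lab 0) = 2 * dist (lab 10) (lab 7) := by linarith
  have e0_1 : dist (lab 0) (lab 1) = 2 * dist (lab 10) (lab 7) := by linarith
  have e1_2 : dist (lab 1) (lab 2) = 2 * dist (lab 10) (lab 7) := by linarith
  have e6_5 : dist (lab 6) (lab 5) = 2 * dist (lab 10) (lab 7) := by linarith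
  have e5_6 : dist (lab 5) (lab 6) = 2 * dist (lab 10) (lab 7) := by linarith
  rw [e0_1, e9_10] at v1
  replace v1 := half hl v1
  rw [e6_5, e7_8] at v9
  replace v9 := half hl v9
  rw [e5_6, e4_3] at v12
  replace v12 := half hl v12
  rw [e1_2, e3_4] at v13
  replace v13 := half hl v13
  have z2 : lab 4 - lab 3 = (1 / 2 : ℝ) • (lab 1 - lab 2) := by
    rw [← neg_sub, v13]; module
  have z4 : lab 6 - lab 5 = lab 1 - lab 2 := by
    have e1 : lab 6 - lab 5 = (2 : ℝ) • ((1 / 2 : ℝ) • (lab 6 - lab 5)) := by module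
    have e2 : lab 1 - lab 2 = (2 : ℝ) • ((1 / 2 : ℝ) • (lab 1 - lab 2)) := by module
    rw [e1, e2, ← z2, v12]
  have z3 : lab 8 - lab 7 = (1 / 2 : ℝ) • (lab 1 - lab 2) := by
    rw [← z4, ← neg_sub, v9]; module
  exact kill_II _ hl (lab 2) (lab 1) (lab 0) (lab 10) (lab 9) (lab 8) (lab 6) (lab 7) (lab 5)
    (lab 3) (lab 4) e2_1 e1_0 e2_0 v1 z2 z3 z4 e3_2 e3_5 e4_1 e4_6 e5_2 e5_0 e7_0 e7_5 e7_10
    e8_10 e8_9 e8_6 e10_0 e9_1

end Pool.Agent.Lib.MP_ba95e8_co
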