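import Pool.Agent.Lib.MP_ba95e8_co.Defs

/-!
Deltahedral domes: pattern tables and the abstract combinatorial model of a dome.

Classes of edges: 0, 1, 2, 3, 4 for `κ > 1/3`, `κ = 1/3`, `-1/3 < κ < 1/3`, `κ = -1/3`,
`κ < -1/3`, where `κ` is the cosine of the dihedral angle. A mask is a set of classes, as a sum of
powers of two.
-/

namespace Pool.Agent.Lib.MP_ba95e8_co

open scoped RealInnerProductSpace

/-- code sequences of the convex polyiamonds (1 = corner of 60, 2 = corner of 120 degrees) -/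
def FT : List (List ℕ) :=
  [[1,1,1],[1,2,1,2],[2,1,2,1],[1,1,2,2],[1,2,2,1],[2,2,1,1],[2,1,1,2],[1,2,2,2,2],[2,1,2,2,2],
   [2,2,1,2,2],[2,2,2,1,2],[2,2,2,2,1],[2,2,2,2,2,2]]

/-- patterns (codes, masks) at a vertex that is not a vertex of the base; the edge number `i`
precedes the corner number `i`. The patterns are up to rotation. -/
def BPN : List (List ℕ × List ℕ) :=
  [([1,1,1],[2,2,2]), ([1,2,2],[8,8,2]), ([1,1,1,1],[7,16,7,16]), ([1,1,1,1],[8,8,8,8]),
   ([2,1,1,1],[4,4,16,16]), ([1,1,1,1,1],[28,16,28,16,16])]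

/-- patterns for fans of total at most 240 degrees over a base corner -/
def BPc : List (List ℕ × List ℕ) :=
  [([0,1,1,1],[31,31,31,31]), ([0,1,1,2],[31,31,16,31]), ([0,1,1,2],[31,31,31,16]),
   ([0,2,1,1],[31,31,16,31]), ([0,2,1,1],[31,31,31,16]), ([0,1,2,1],[31,31,31,31]),
   ([0,1,1,1,1],[31,31,16,31,16]), ([0,1,1,1,1],[31,31,31,16,31])]

/-- patterns at a base vertex with angle greater than 60 degrees; corner 0 is the base corner -/
def BPgt : List (List ℕ × List ℕ) :=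
  [([0,1,1],[31,31,28]), ([0,2,2],[31,31,28]), ([0,1,2],[31,31,31]), ([0,2,1],[31,31,31])] ++ BPc

/-- patterns at a base vertex with angle 60 degrees -/
def BPeq : List (List ℕ × List ℕ) :=
  [([0,1,1],[31,31,2]), ([0,2,2],[31,31,2])] ++ BPc

/-- patterns at a base vertex with angle less than 60 degrees -/
def BPlt : List (List ℕ × List ℕ) :=
  [([0,1,1],[31,31,1]), ([0,2,2],[31,31,1])] ++ BPc ++
  [([0,1,2,2],[31,31,16,28]), ([0,2,2,1],[31,31,28,16]),
   ([0,2,1,2],[31,31,16,31]), ([0,2,1,2],[31,31,31,16]),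
   ([0,1,1,1,2],[31,31,16,31,16]), ([0,1,1,1,2],[31,31,31,16,31]),
   ([0,2,1,1,1],[31,31,16,31,16]), ([0,2,1,1,1],[31,31,31,16,31]),
   ([0,1,1,2,1],[31,31,16,28,28]), ([0,1,1,2,1],[31,31,28,16,28]),
   ([0,1,2,1,1],[31,31,28,28,16]), ([0,1,2,1,1],[31,31,28,16,28]),
   ([0,1,1,1,1,1],[31,31,31,16,31,16]), ([0,1,1,1,1,1],[31,31,16,31,16,31]),
   ([0,1,1,1,1,1],[31,31,31,16,16,31])]

/-- the cyclic sequences `c` (codes) and `s` (classes) of period `k`, read from position `j`, match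
a pattern of the list `B` -/
def Matches (B : List (List ℕ × List ℕ)) (k : ℕ) (c s : ℤ → ℕ) (j : ℤ) : Prop :=
  ∃ q ∈ B, q.1 = (List.range k).map (fun t => c (j + t)) ∧
    ∀ t < k, Nat.testBit (q.2.getD t 0) (s (j + t)) = true

/-- the class of an edge with dihedral angle of cosine `κ` -/
noncomputable def classOf (κ : ℝ) : ℕ :=
  if 1 / 3 < κ then 0 else if κ = 1 / 3 then 1 else if - 1 / 3 < κ then 2
  else if κ = - 1 / 3 then 3 else 4

/-- class of the edge `y` between the corners `x y` and `y z`, both of 60 or 120 degrees -/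
noncomputable def kcls (x y z : E3) : ℕ := classOf (4 / 3 * (⟪x, z⟫ - ⟪x, y⟫ * ⟪y, z⟫))

/-- `l` contains `y` directly after `x` (cyclically) -/
def DartIn {V : Type*} (l : List (V × ℕ)) (x y : V) : Prop :=
  ∃ c d r, ((x, c) :: (y, d) :: r) ~r l

/-- `x`-coordinates and `y`-coordinates of the six directions -/
def Ux (k : ℕ) : ℝ := if k = 0 then 1 else if k = 1 then 0 else if k = 2 then -1 else
  if k = 3 then -1 else if k = 4 then 0 else 1
def Uy (k : ℕ) : ℝ := if k = 0 then 0 else if k = 1 then 1 else if k = 2 then 1 else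
  if k = 3 then 0 else if k = 4 then -1 else -1

/-- sum of the coordinates of the sides of a face, the side number `0` having direction `k` -/
def closAux {V : Type*} (len : V → V → ℝ) (U : ℕ → ℝ) (f : V) : List (V × ℕ) → ℕ → ℝ
  | [], _ => 0
  | [x], k => len x.1 f * U k
  | x :: y :: r, k => len x.1 y.1 * U k +
      closAux len U f (y :: r) ((k + (if y.2 = 1 then 2 else 1)) % 6)

/-- combinatorial model of a dome -/
structure Model (V : Type*) where
  /-- the faces, as cyclic lists of (vertex, code) -/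
  face : List (V × ℕ) → Prop
  /-- the base vertices `b 0`, `b 1`, `b 2` -/
  b : ℕ → V
  /-- classes of the edges -/
  cl : V → V → ℕ
  /-- lengths of the edges -/
  len : V → V → ℝ
  rot : ∀ x l, face (x :: l) → face (l ++ [x])
  nodup : ∀ l, face l → (l.map Prod.fst).Nodup
  codes : ∀ l, face l → l.map Prod.snd ∈ FT ∨ l.map Prod.snd = [0, 0, 0]
  bne : b 0 ≠ b 1 ∧ b 1 ≠ b 2 ∧ b 0 ≠ b 2
  base : face [(b 2, 0), (b 1, 0), (b 0, 0)]
  base_uniq : ∀ l, face l → l.map Prod.snd = [0, 0, 0] → l ~r [(b 2, 0), (b 1, 0), (b 0, 0)]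
  opp : ∀ x y l, face (x :: y :: l) → ∃ c d l', face ((y.1, c) :: (x.1, d) :: l')
  uniq : ∀ x y c d l c' d' l', face ((x, c) :: (y, d) :: l) → face ((x, c') :: (y, d') :: l') →
    c = c' ∧ d = d' ∧ l = l'
  common : ∀ l l' x y, face l → face l' → x ≠ y → x ∈ l.map Prod.fst → y ∈ l.map Prod.fst →
    x ∈ l'.map Prod.fst → y ∈ l'.map Prod.fst →
    l ~r l' ∨ (DartIn l x y ∧ DartIn l' y x) ∨ (DartIn l y x ∧ DartIn l' x y)
  cl_symm : ∀ v w, cl v w = cl w v
  cl_lt : ∀ v w, cl v w < 5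
  /-- the ring of corners at a vertex -/
  ring : ∀ v u w c d e r, face ((u, d) :: (v, c) :: (w, e) :: r) →
    ∃ (k : ℕ) (U : ℤ → V) (C : ℤ → ℕ), 3 ≤ k ∧ (∀ i, U (i + k) = U i) ∧ (∀ i, C (i + k) = C i) ∧
      (∀ i j, U i = U j → (k : ℤ) ∣ j - i) ∧
      (∀ i, ∃ d e r, face ((U i, d) :: (v, C i) :: (U (i + 1), e) :: r)) ∧
      (∀ u w c d e r, face ((u, d) :: (v, c) :: (w, e) :: r) →
        ∃ i, u = U i ∧ w = U (i + 1) ∧ c = C i) ∧
      (v = b 0 → ∃ j, Matches BPgt k C (fun i => cl v (U i)) j) ∧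
      (v = b 1 → ∃ j, Matches BPlt k C (fun i => cl v (U i)) j) ∧
      (v = b 2 → ∃ j, Matches (BPgt ++ BPeq ++ BPlt) k C (fun i => cl v (U i)) j) ∧
      (v ≠ b 0 → v ≠ b 1 → v ≠ b 2 → ∃ j, Matches BPN k C (fun i => cl v (U i)) j)
  len_symm : ∀ v w, len v w = len w v
  len_pos : ∀ v w l, face (v :: w :: l) → 0 < len v.1 w.1
  closX : ∀ x l, face (x :: l) → (x :: l).map Prod.snd ≠ [0, 0, 0] →
    closAux len Ux x.1 (x :: l) 0 = 0
  closY : ∀ x l, face (x :: l) → (x :: l).map Prod.snd ≠ [0, 0, 0] →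
    closAux len Uy x.1 (x :: l) 0 = 0
  len1 : len (b 1) (b 2) < len (b 0) (b 1) + len (b 0) (b 2)
  len2 : len (b 0) (b 1) ≤ len (b 1) (b 2)
  len3 : len (b 0) (b 2) ≤ len (b 0) (b 1)
  len4 : len (b 0) (b 2) < len (b 1) (b 2)

end Pool.Agent.Lib.MP_ba95e8_co
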