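import Mathlib

/-!
Deltahedral domes, task R0: counting on a cycle.
-/

namespace Pool.Agent.Lib.MP_ba95e8_co
namespace Chk

open Classical in
/-- number of positions in a period -/
noncomputable def pc (k : ℕ) (P : ℤ → Prop) : ℕ := ((Finset.range k).filter (fun i : ℕ => P i)).card

theorem pc_congr {k : ℕ} {P Q : ℤ → Prop} (h : ∀ i, P i ↔ Q i) : pc k P = pc k Q := by
  have : P = Q := funext fun i => propext (h i)
  rw [this]

theorem pc_mono {k : ℕ} {P Q : ℤ → Prop} (h : ∀ i, P i → Q i) : pc k P ≤ pc k Q := by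
  classical
  unfold pc
  refine Finset.card_le_card ?_
  intro i hi
  rw [Finset.mem_filter] at hi ⊢
  exact ⟨hi.1, h _ hi.2⟩

theorem pc_add {k : ℕ} {P Q : ℤ → Prop} (h : ∀ i, ¬ (P i ∧ Q i)) :
    pc k (fun i => P i ∨ Q i) = pc k P + pc k Q := by
  classical
  unfold pc
  rw [← Finset.card_union_of_disjoint]
  · congr 1
    ext i
    simp only [Finset.mem_filter, Finset.mem_union]
    tauto
  · rw [Finset.disjoint_left]
    intro i hi hi'
    rw [Finset.mem_filter] at hi hi'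
    exact h _ ⟨hi.2, hi'.2⟩

theorem pc_le (k : ℕ) (P : ℤ → Prop) : pc k P ≤ k := by
  classical
  unfold pc
  refine (Finset.card_filter_le _ _).trans ?_
  rw [Finset.card_range]

theorem r0_per_mul {k : ℕ} {P : ℤ → Prop} (hP : ∀ i, P (i + k) ↔ P i) (m : ℤ) (i : ℤ) :
    P (i + k * m) ↔ P i := by
  induction m using Int.induction_on with
  | zero => simp
  | succ m ih =>
    rw [← ih, ← hP (i + k * m)]
    have : i + (k : ℤ) * (m + 1) = i + k * m + k := by ring
    rw [this]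
  | pred m ih =>
    rw [← ih, ← hP (i + k * (-(m : ℤ) - 1))]
    have : i + (k : ℤ) * (-(m : ℤ) - 1) + k = i + k * -(m : ℤ) := by ring
    rw [this]

theorem r0_per_dvd {k : ℕ} {P : ℤ → Prop} (hP : ∀ i, P (i + k) ↔ P i) {i j : ℤ}
    (h : (k : ℤ) ∣ i - j) : P i ↔ P j := by
  obtain ⟨m, hm⟩ := h
  have : i = j + k * m := by omega
  rw [this]
  exact r0_per_mul hP m j

/-- the count does not depend on the start of the period -/
theorem pc_shift {k : ℕ} {P : ℤ → Prop} (hP : ∀ i, P (i + k) ↔ P i) (a : ℤ) :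
    pc k (fun i => P (i + a)) = pc k P := by
  classical
  rcases Nat.eq_zero_or_pos k with rfl | hk
  · simp [pc]
  have hk' : (0 : ℤ) < k := by exact_mod_cast hk
  obtain ⟨b, hb⟩ : ∃ b : ℕ, (b : ℤ) = a % k := ⟨(a % k).toNat, Int.toNat_of_nonneg
    (Int.emod_nonneg _ hk'.ne')⟩
  have h1 : pc k (fun i => P (i + a)) = pc k (fun i => P (i + b)) := by
    refine pc_congr fun i => r0_per_dvd hP ?_
    have : i + a - (i + b) = a - a % k := by rw [hb]; ring
    rw [this]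
    exact Int.dvd_self_sub_emod
  rw [h1]
  have hper : Function.Periodic (fun n : ℕ => P (n : ℤ)) k := by
    intro n
    have := hP (n : ℤ)
    simp only [Nat.cast_add]
    exact propext this
  have h2 := Nat.filter_Ico_card_eq_of_periodic b k (fun n : ℕ => P (n : ℤ)) hper
  have h3 := Nat.filter_Ico_card_eq_of_periodic 0 k (fun n : ℕ => P (n : ℤ)) hper
  have h4 : pc k P = (Finset.filter (fun n : ℕ => P (n : ℤ)) (Finset.Ico 0 (0 + k))).card := by
    unfold pc
    rw [zero_add, Finset.range_eq_Ico]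
  rw [h4, h3, ← h2]
  unfold pc
  refine Finset.card_bij (fun i _ => b + i) ?_ ?_ ?_
  · intro i hi
    rw [Finset.mem_filter, Finset.mem_range] at hi
    rw [Finset.mem_filter, Finset.mem_Ico]
    refine ⟨⟨by omega, by omega⟩, ?_⟩
    have : ((b + i : ℕ) : ℤ) = (i : ℤ) + b := by push_cast; ring
    rw [this]
    exact hi.2
  · intro i _ j _ h
    omega
  · intro j hj
    rw [Finset.mem_filter, Finset.mem_Ico] at hj
    refine ⟨j - b, ?_, by omega⟩
    rw [Finset.mem_filter, Finset.mem_range]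
    refine ⟨by omega, ?_⟩
    have : ((j - b : ℕ) : ℤ) + b = j := by
      rw [Nat.cast_sub hj.1.1]; ring
    show P (((j - b : ℕ) : ℤ) + b)
    rw [this]
    exact hj.2

/-- one position -/
theorem pc_single {k : ℕ} (hk : 0 < k) (i0 : ℤ) : pc k (fun i => (k : ℤ) ∣ i - i0) = 1 := by
  classical
  have hk' : (0 : ℤ) < k := by exact_mod_cast hk
  obtain ⟨b, hb⟩ : ∃ b : ℕ, (b : ℤ) = i0 % k := ⟨(i0 % k).toNat, Int.toNat_of_nonneg
    (Int.emod_nonneg _ hk'.ne')⟩
  have hbk : b < k := by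
    have := Int.emod_lt_of_pos i0 hk'
    omega
  unfold pc
  refine Finset.card_eq_one.mpr ⟨b, ?_⟩
  ext i
  simp only [Finset.mem_filter, Finset.mem_range, Finset.mem_singleton]
  constructor
  · rintro ⟨h1, h2⟩
    have h3 : (i : ℤ) % k = i0 % k :=
      Int.emod_eq_emod_iff_emod_sub_eq_zero.mpr (Int.emod_eq_zero_of_dvd h2)
    have h4 : (i : ℤ) % k = i := Int.emod_eq_of_lt (by positivity) (by exact_mod_cast h1)
    have h5 : (i : ℤ) = b := by rw [hb, ← h3, h4]
    exact_mod_cast h5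
  · rintro rfl
    refine ⟨hbk, ?_⟩
    show (k : ℤ) ∣ (i : ℤ) - i0
    rw [hb]
    have : i0 % k - i0 = -(i0 - i0 % k) := by ring
    rw [this, dvd_neg]
    exact Int.dvd_self_sub_emod

theorem r0_single_and {k : ℕ} (hk : 0 < k) {Q : ℤ → Prop} (hQ : ∀ i, Q (i + k) ↔ Q i) (i0 : ℤ)
    [Decidable (Q i0)] : pc k (fun i => (k : ℤ) ∣ i - i0 ∧ Q i) = if Q i0 then 1 else 0 := by
  split_ifs with h
  · rw [← pc_single hk i0]
    refine pc_congr fun i => ⟨fun hi => hi.1, fun hi => ⟨hi, (r0_per_dvd hQ hi).mpr h⟩⟩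
  · have h1 : pc k (fun i => (k : ℤ) ∣ i - i0 ∧ Q i) = pc k (fun _ => False) :=
      pc_congr fun i => ⟨fun hi => h ((r0_per_dvd hQ hi.1).mp hi.2), fun hi => hi.elim⟩
    rw [h1]
    simp [pc]

/-- adding a position -/
theorem pc_insert {k : ℕ} (hk : 0 < k) {P Q : ℤ → Prop} (hP : ∀ i, P (i + k) ↔ P i)
    (hQ : ∀ i, Q (i + k) ↔ Q i) {i0 : ℤ} (h0 : ¬ P i0) [Decidable (Q i0)] :
    pc k (fun i => (P i ∨ (k : ℤ) ∣ i - i0) ∧ Q i) =
      pc k (fun i => P i ∧ Q i) + (if Q i0 then 1 else 0) := by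
  rw [← r0_single_and hk hQ i0, ← pc_add]
  · exact pc_congr fun i => or_and_right
  · rintro i ⟨⟨h1, -⟩, h2, -⟩
    exact h0 ((r0_per_dvd hP h2).mp h1)

/-- number of ends of chains of positions with `P` -/
noncomputable def pe (k : ℕ) (P : ℤ → Prop) : ℕ := pc k (fun i => P (i - 1) ∧ ¬ P i)

theorem pe_add_le {k : ℕ} {P : ℤ → Prop} (_hP : ∀ i, P (i + k) ↔ P i) : pe k P + pc k P ≤ k := by
  unfold pe
  rw [← pc_add]
  · exact pc_le _ _
  · rintro i ⟨⟨-, h1⟩, h2⟩
    exact h1 h2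

theorem r0_pc_pos {k : ℕ} (hk : 0 < k) {P : ℤ → Prop} (hP : ∀ i, P (i + k) ↔ P i) {i : ℤ}
    (h : P i) : 1 ≤ pc k P := by
  rw [← pc_single hk i]
  exact pc_mono fun j hj => (r0_per_dvd hP hj).mpr h

theorem pe_pos {k : ℕ} (hk : 0 < k) {P : ℤ → Prop} (hP : ∀ i, P (i + k) ↔ P i) {i0 i1 : ℤ}
    (h0 : ¬ P i0) (h1 : P i1) : 1 ≤ pe k P := by
  classical
  have hk' : (1 : ℤ) ≤ k := by exact_mod_cast hk
  have hex : ∃ j : ℕ, ¬ P (i1 + j) := by
    refine ⟨((i0 - i1) + k * |i0 - i1|).toNat, ?_⟩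
    have h2 : 0 ≤ (i0 - i1) + k * |i0 - i1| := by
      have := neg_abs_le (i0 - i1)
      have := abs_nonneg (i0 - i1)
      nlinarith
    rw [Int.toNat_of_nonneg h2]
    have h3 : i1 + (i0 - i1 + k * |i0 - i1|) = i0 + k * |i0 - i1| := by ring
    rw [h3, r0_per_mul hP]
    exact h0
  have hj := Nat.find_spec hex
  set j := Nat.find hex with hjd
  have hj0 : j ≠ 0 := by
    intro h
    rw [h] at hj
    simp only [Nat.cast_zero, add_zero] at hj
    exact hj h1
  obtain ⟨m, hm⟩ : ∃ m, j = m + 1 := ⟨j - 1, by omega⟩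
  have hm' : P (i1 + m) := by
    have := Nat.find_min hex (m := m) (by omega)
    exact not_not.mp this
  unfold pe
  refine r0_pc_pos hk (i := i1 + j) ?_ ⟨?_, hj⟩
  · intro i
    have h2 : i + (k : ℤ) - 1 = (i - 1) + k := by ring
    rw [h2, hP, hP]
  · have h2 : i1 + (j : ℤ) - 1 = i1 + m := by rw [hm]; push_cast; ring
    rw [h2]; exact hm'

theorem all_of_pe_zero {k : ℕ} (hk : 0 < k) {P : ℤ → Prop} (hP : ∀ i, P (i + k) ↔ P i)
    (h : pe k P = 0) {i1 : ℤ} (h1 : P i1) (i : ℤ) : P i := by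
  by_contra hc
  have := pe_pos hk hP hc h1
  omega

/-- adding a position changes the number of ends -/
theorem pe_insert {k : ℕ} (hk : 3 ≤ k) {P : ℤ → Prop} (hP : ∀ i, P (i + k) ↔ P i) {i0 : ℤ}
    (h0 : ¬ P i0) [Decidable (P (i0 - 1))] [Decidable (P (i0 + 1))] :
    pe k (fun i => P i ∨ (k : ℤ) ∣ i - i0) + (if P (i0 - 1) then 1 else 0) +
      (if P (i0 + 1) then 1 else 0) = pe k P + 1 := by
  classical
  have hk0 : 0 < k := by omega
  have hperm : ∀ (c i : ℤ), P (i + k - c) ↔ P (i - c) := by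
    intro c i
    have h2 : i + (k : ℤ) - c = (i - c) + k := by ring
    rw [h2, hP]
  have hnd : ∀ d : ℤ, d = 1 ∨ d = -1 → ¬ (k : ℤ) ∣ d := by
    intro d hd hdv
    have h2 := Int.le_of_dvd (by norm_num : (0:ℤ) < 1) (by
      rcases hd with rfl | rfl
      · exact hdv
      · exact (dvd_neg.mp hdv))
    omega
  set R : ℤ → Prop := fun i => P i ∨ (k : ℤ) ∣ i - i0 with hR
  set A : ℤ → Prop := fun i => (P (i - 1) ∧ ¬ P i) ∧ ¬ (k : ℤ) ∣ i - i0 with hA
  -- count for P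
  have hPcount : pe k P = pc k A + if P (i0 - 1) then 1 else 0 := by
    have h1 : pe k P = pc k (fun i => A i ∨ ((k : ℤ) ∣ i - i0 ∧ P (i - 1))) := by
      unfold pe
      refine pc_congr fun i => ?_
      constructor
      · rintro ⟨h2, h3⟩
        by_cases hd : (k : ℤ) ∣ i - i0
        · exact Or.inr ⟨hd, h2⟩
        · exact Or.inl ⟨⟨h2, h3⟩, hd⟩
      · rintro (⟨h2, -⟩ | ⟨h2, h3⟩)
        · exact h2
        · exact ⟨h3, fun h4 => h0 ((r0_per_dvd hP h2).mp h4)⟩
    rw [h1, pc_add]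
    · congr 1
      exact r0_single_and hk0 (Q := fun i => P (i - 1)) (fun i => hperm 1 i) i0
    · rintro i ⟨⟨-, h2⟩, h3, -⟩
      exact h2 h3
  have hRcount : pe k R = pc k A + if ¬ P (i0 + 1) then 1 else 0 := by
    have h1 : pe k R = pc k (fun i => A i ∨ ((k : ℤ) ∣ i - (i0 + 1) ∧ ¬ P i)) := by
      unfold pe
      refine pc_congr fun i => ?_
      have e1 : i - 1 - i0 = i - (i0 + 1) := by ring
      constructor
      · rintro ⟨h2, h3⟩
        simp only [hR, not_or] at h2 h3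
        rw [e1] at h2
        rcases h2 with h2 | h2
        · exact Or.inl ⟨⟨h2, h3.1⟩, h3.2⟩
        · exact Or.inr ⟨h2, h3.1⟩
      · rintro (⟨⟨h2, h3⟩, h4⟩ | ⟨h2, h3⟩)
        · exact ⟨Or.inl h2, fun h5 => h5.elim h3 h4⟩
        · refine ⟨Or.inr (by rw [e1]; exact h2), fun h5 => h5.elim h3 fun h6 => ?_⟩
          have h7 := dvd_sub h6 h2
          have h8 : i - i0 - (i - (i0 + 1)) = 1 := by ring
          rw [h8] at h7
          exact hnd 1 (Or.inl rfl) h7
    rw [h1, pc_add]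
    · congr 1
      exact r0_single_and hk0 (Q := fun i => ¬ P i) (fun i => not_congr (hP i)) (i0 + 1)
    · rintro i ⟨⟨⟨h2, -⟩, -⟩, h3, -⟩
      have h4 : (k : ℤ) ∣ (i - 1) - i0 := by
        have : i - 1 - i0 = i - (i0 + 1) := by ring
        rw [this]; exact h3
      exact h0 ((r0_per_dvd hP h4).mp h2)
  rw [hPcount, hRcount]
  by_cases h1 : P (i0 - 1) <;> by_cases h2 : P (i0 + 1) <;> simp [h1, h2]

end Chk
end Pool.Agent.Lib.MP_ba95e8_co
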