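import Pool.Agent.Lib.MP_ba95e8_co.Pack

/-!
Deltahedral domes, task S1: placing a face.
-/

namespace Pool.Agent.Lib.MP_ba95e8_co
namespace Chk

theorem place_fs (s : St) (a : ℕ) (rc dr ws : List ℕ) :
    (place s a rc dr ws).fs = Fa.mk a ws dr rc :: s.fs := by
  cases s; rfl

theorem place_n (s : St) (a : ℕ) (rc dr ws : List ℕ) : (place s a rc dr ws).n = maxL s.n ws := by
  cases s; rfl

theorem place_ms (s : St) (a : ℕ) (rc dr ws : List ℕ) : (place s a rc dr ws).ms = s.ms := by
  cases s; rfl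

/-! ### the recursors as folds over the list of corners -/

/-- step for `nx` -/
def sNx (x : ℕ) (q : ℕ × ℕ × ℕ × ℕ) : ℕ :=
  x + (q.2.2.1 + 1 + 32 * q.2.2.2) <<< (8 * (16 * q.1 + q.2.1))

/-- step for `st` -/
def sSt (st en : ℕ) (x : ℕ) (q : ℕ × ℕ × ℕ × ℕ) : ℕ :=
  x + (1 - pa en q.1 q.2.1) <<< (16 * q.1 + q.2.1) - (pa st q.1 q.2.2.1) <<< (16 * q.1 + q.2.2.1)

/-- step for `en` -/
def sEn (st en : ℕ) (x : ℕ) (q : ℕ × ℕ × ℕ × ℕ) : ℕ :=
  x + (1 - pa st q.1 q.2.2.1) <<< (16 * q.1 + q.2.2.1) - (pa en q.1 q.2.1) <<< (16 * q.1 + q.2.1)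

/-- step for `cnt` -/
def sCnt (st en : ℕ) (x : ℕ) (q : ℕ × ℕ × ℕ × ℕ) : ℕ :=
  x + (dl q.2.2.2 + 32) <<< (8 * q.1) - (pa en q.1 q.2.1 + pa st q.1 q.2.2.1) <<< (5 + 8 * q.1)

theorem addNx_eq (f : ℕ) (ws : List ℕ) : ∀ (rc : List ℕ) (w x : ℕ),
    addNx f ws rc w x = (corA f ws rc w).foldl sNx x := by
  induction ws with
  | nil => intro rc w x; rfl
  | cons v rest ih =>
    intro rc w x
    have h : addNx f (v :: rest) rc w x = addNx f rest (tl rc) v
      (x + (w + 1 + 32 * hd 0 rc) <<< (8 * (16 * v + hd f rest))) := rfl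
    rw [h, ih]
    rfl

theorem addSt_eq (st en f : ℕ) (ws : List ℕ) : ∀ (rc : List ℕ) (w x : ℕ),
    addSt st en f ws w x = (corA f ws rc w).foldl (sSt st en) x := by
  induction ws with
  | nil => intro rc w x; rfl
  | cons v rest ih =>
    intro rc w x
    have h : addSt st en f (v :: rest) w x = addSt st en f rest v
      (x + (1 - pa en v (hd f rest)) <<< (16 * v + hd f rest) - (pa st v w) <<< (16 * v + w)) := rfl
    rw [h, ih (tl rc)]
    rfl

theorem addEn_eq (st en f : ℕ) (ws : List ℕ) : ∀ (rc : List ℕ) (w x : ℕ),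
    addEn st en f ws w x = (corA f ws rc w).foldl (sEn st en) x := by
  induction ws with
  | nil => intro rc w x; rfl
  | cons v rest ih =>
    intro rc w x
    have h : addEn st en f (v :: rest) w x = addEn st en f rest v
      (x + (1 - pa st v w) <<< (16 * v + w) - (pa en v (hd f rest)) <<< (16 * v + hd f rest)) := rfl
    rw [h, ih (tl rc)]
    rfl

theorem addCnt_eq (st en f : ℕ) (ws : List ℕ) : ∀ (rc : List ℕ) (w x : ℕ),
    addCnt st en f ws rc w x = (corA f ws rc w).foldl (sCnt st en) x := by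
  induction ws with
  | nil => intro rc w x; rfl
  | cons v rest ih =>
    intro rc w x
    have h : addCnt st en f (v :: rest) rc w x = addCnt st en f rest (tl rc) v
      (x + (dl (hd 0 rc) + 32) <<< (8 * v) -
        (pa en v (hd f rest) + pa st v w) <<< (5 + 8 * v)) := rfl
    rw [h, ih]
    rfl

/-! ### effect of the folds -/

theorem idx_inj {v v' u u' : ℕ} (hu : u < 16) (hu' : u' < 16) (h : 16 * v + u = 16 * v' + u') :
    v = v' ∧ u = u' := by omega

theorem fold_nx : ∀ (cs : List (ℕ × ℕ × ℕ × ℕ)) (x : ℕ), (cs.map (·.1)).Nodup →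
    (∀ q ∈ cs, q.2.1 < 16 ∧ q.2.2.1 + 1 + 32 * q.2.2.2 < 256 ∧ dg x (16 * q.1 + q.2.1) = 0) →
    (∀ q ∈ cs, dg (cs.foldl sNx x) (16 * q.1 + q.2.1) = q.2.2.1 + 1 + 32 * q.2.2.2) ∧
    ∀ i, (∀ q ∈ cs, i ≠ 16 * q.1 + q.2.1) → dg (cs.foldl sNx x) i = dg x i := by
  intro cs
  induction cs with
  | nil => intro x _ _; simp
  | cons q0 cs ih =>
    intro x hnd hq
    rw [List.map_cons, List.nodup_cons] at hnd
    obtain ⟨hn0, hnd⟩ := hnd
    obtain ⟨h16, h256, h0⟩ := hq q0 (by simp)
    have hstep : ∀ j, dg (sNx x q0) j = if j = 16 * q0.1 + q0.2.1 then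
        q0.2.2.1 + 1 + 32 * q0.2.2.2 else dg x j := by
      intro j
      unfold sNx
      rw [dg_add (by rw [h0]; omega)]
      rw [h0, Nat.zero_add]
    have hne : ∀ q ∈ cs, 16 * q.1 + q.2.1 ≠ 16 * q0.1 + q0.2.1 := by
      intro q hqm he
      have := idx_inj (hq q (List.mem_cons_of_mem _ hqm)).1 h16 he
      apply hn0
      rw [← this.1]
      exact List.mem_map_of_mem hqm
    obtain ⟨ih1, ih2⟩ := ih (sNx x q0) hnd (by
      intro q hqm
      obtain ⟨a1, a2, a3⟩ := hq q (List.mem_cons_of_mem _ hqm)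
      refine ⟨a1, a2, ?_⟩
      rw [hstep, if_neg (hne q hqm)]
      exact a3)
    constructor
    · intro q hqm
      rw [List.foldl_cons]
      rcases List.mem_cons.1 hqm with rfl | hqm
      · rw [ih2 _ (fun q' hq' he => hne q' hq' he.symm), hstep, if_pos rfl]
      · exact ih1 q hqm
    · intro i hi
      rw [List.foldl_cons, ih2 i (fun q hqm => hi q (List.mem_cons_of_mem _ hqm)), hstep,
        if_neg (hi q0 (by simp))]

/-- the general step for a set of bits -/
theorem step_bit (x i k : ℕ) (P R : Bool) (hik : i ≠ k) (hP : P = false → x.testBit i = false)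
    (hR : R = true → x.testBit k = true) (j : ℕ) :
    (x + (1 - P.toNat) <<< i - R.toNat <<< k).testBit j =
      if j = i then (!P || x.testBit i) else if j = k then (!R && x.testBit k) else
        x.testBit j := by
  have h1 : ∀ j, (x + (1 - P.toNat) <<< i).testBit j =
      if j = i then (!P || x.testBit i) else x.testBit j := by
    intro j
    cases P with
    | true =>
      simp only [Bool.toNat_true, Nat.sub_self, Nat.zero_shiftLeft, Nat.add_zero, Bool.not_true,
        Bool.false_or]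
      split_ifs with h
      · rw [h]
      · rfl
    | false =>
      simp only [Bool.toNat_false, Nat.sub_zero, Bool.not_false, Bool.true_or]
      exact testBit_add (hP rfl) j
  have h2 : (x + (1 - P.toNat) <<< i).testBit k = x.testBit k := by
    rw [h1, if_neg (Ne.symm hik)]
  cases R with
  | true =>
    rw [Bool.toNat_true, testBit_sub (by rw [h2]; exact hR rfl), h1]
    by_cases hji : j = i
    · rw [if_pos hji, if_neg (by rw [hji]; exact hik), if_pos hji]
    · rw [if_neg hji, if_neg hji]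
      simp
  | false =>
    rw [Bool.toNat_false, Nat.zero_shiftLeft, Nat.sub_zero, h1]
    by_cases hji : j = i
    · rw [if_pos hji, if_pos hji]
    · rw [if_neg hji, if_neg hji]
      split_ifs with h
      · rw [h]; simp
      · rfl

/-- effect of a fold of bit steps -/
theorem fold_bit (A B : ℕ × ℕ × ℕ × ℕ → ℕ) (P R : ℕ × ℕ × ℕ × ℕ → Bool)
    (f : ℕ → ℕ × ℕ × ℕ × ℕ → ℕ)
    (hf : ∀ x q, f x q = x + (1 - (P q).toNat) <<< (16 * q.1 + A q) -
      (R q).toNat <<< (16 * q.1 + B q)) :
    ∀ (cs : List (ℕ × ℕ × ℕ × ℕ)) (x : ℕ), (cs.map (·.1)).Nodup →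
    (∀ q ∈ cs, A q < 16 ∧ B q < 16 ∧ A q ≠ B q ∧
      (P q = false → x.testBit (16 * q.1 + A q) = false) ∧
      (R q = true → x.testBit (16 * q.1 + B q) = true)) →
    (∀ q ∈ cs, (cs.foldl f x).testBit (16 * q.1 + A q) = (!P q || x.testBit (16 * q.1 + A q)) ∧
      (cs.foldl f x).testBit (16 * q.1 + B q) = (!R q && x.testBit (16 * q.1 + B q))) ∧
    ∀ i, (∀ q ∈ cs, i ≠ 16 * q.1 + A q ∧ i ≠ 16 * q.1 + B q) →
      (cs.foldl f x).testBit i = x.testBit i := by
  intro cs
  induction cs with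
  | nil => intro x _ _; simp
  | cons q0 cs ih =>
    intro x hnd hq
    rw [List.map_cons, List.nodup_cons] at hnd
    obtain ⟨hn0, hnd⟩ := hnd
    obtain ⟨hA, hB, hAB, hP, hR⟩ := hq q0 (by simp)
    have hstep : ∀ j, (f x q0).testBit j = if j = 16 * q0.1 + A q0 then
        (!P q0 || x.testBit (16 * q0.1 + A q0)) else if j = 16 * q0.1 + B q0 then
        (!R q0 && x.testBit (16 * q0.1 + B q0)) else x.testBit j := by
      intro j
      rw [hf]
      exact step_bit _ _ _ _ _ (by omega) hP hR j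
    have hne : ∀ q ∈ cs, q.1 ≠ q0.1 := by
      intro q hqm he
      apply hn0
      rw [← he]
      exact List.mem_map_of_mem hqm
    obtain ⟨ih1, ih2⟩ := ih (f x q0) hnd (by
      intro q hqm
      obtain ⟨a1, a2, a3, a4, a5⟩ := hq q (List.mem_cons_of_mem _ hqm)
      have := hne q hqm
      refine ⟨a1, a2, a3, ?_, ?_⟩
      · intro hp
        rw [hstep, if_neg (by omega), if_neg (by omega)]
        exact a4 hp
      · intro hr
        rw [hstep, if_neg (by omega), if_neg (by omega)]
        exact a5 hr)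
    constructor
    · intro q hqm
      rw [List.foldl_cons]
      rcases List.mem_cons.1 hqm with rfl | hqm
      · constructor
        · rw [ih2 _ (fun q' hq' => ?_), hstep, if_pos rfl]
          have := hne q' hq'
          obtain ⟨a1, a2, _⟩ := hq q' (List.mem_cons_of_mem _ hq')
          constructor <;> omega
        · rw [ih2 _ (fun q' hq' => ?_), hstep, if_neg (by omega), if_pos rfl]
          have := hne q' hq'
          obtain ⟨a1, a2, _⟩ := hq q' (List.mem_cons_of_mem _ hq')
          constructor <;> omega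
      · obtain ⟨a1, a2, _⟩ := hq q (List.mem_cons_of_mem _ hqm)
        have := hne q hqm
        obtain ⟨b1, b2⟩ := ih1 q hqm
        rw [b1, b2, hstep, hstep, if_neg (by omega), if_neg (by omega), if_neg (by omega),
          if_neg (by omega)]
        exact ⟨rfl, rfl⟩
    · intro i hi
      obtain ⟨c1, c2⟩ := hi q0 (by simp)
      rw [List.foldl_cons, ih2 i (fun q hqm => hi q (List.mem_cons_of_mem _ hqm)), hstep,
        if_neg c1, if_neg c2]

theorem pa_le (en v u : ℕ) : pa en v u ≤ 1 := by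
  rw [pa_eq]; exact Bool.toNat_le _

theorem fold_cnt (st en : ℕ) : ∀ (cs : List (ℕ × ℕ × ℕ × ℕ)) (x : ℕ), (cs.map (·.1)).Nodup →
    (∀ q ∈ cs, dg x q.1 + (dl q.2.2.2 + 32) < 256 ∧
      32 * (pa en q.1 q.2.1 + pa st q.1 q.2.2.1) ≤ dg x q.1 + (dl q.2.2.2 + 32)) →
    (∀ q ∈ cs, dg (cs.foldl (sCnt st en) x) q.1 + 32 * (pa en q.1 q.2.1 + pa st q.1 q.2.2.1) =
      dg x q.1 + (dl q.2.2.2 + 32)) ∧
    ∀ i, (∀ q ∈ cs, i ≠ q.1) → dg (cs.foldl (sCnt st en) x) i = dg x i := by
  intro cs
  induction cs with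
  | nil => intro x _ _; simp
  | cons q0 cs ih =>
    intro x hnd hq
    rw [List.map_cons, List.nodup_cons] at hnd
    obtain ⟨hn0, hnd⟩ := hnd
    obtain ⟨h1, h2⟩ := hq q0 (by simp)
    have hstep : ∀ j, dg (sCnt st en x q0) j = if j = q0.1 then
        dg x q0.1 + (dl q0.2.2.2 + 32) - 32 * (pa en q0.1 q0.2.1 + pa st q0.1 q0.2.2.1)
        else dg x j := by
      intro j
      unfold sCnt
      have e1 : (pa en q0.1 q0.2.1 + pa st q0.1 q0.2.2.1) <<< (5 + 8 * q0.1) =
          (32 * (pa en q0.1 q0.2.1 + pa st q0.1 q0.2.2.1)) <<< (8 * q0.1) := by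
        rw [Nat.shiftLeft_eq, Nat.shiftLeft_eq, pow_add]
        ring
      rw [e1, dg_sub (by rw [dg_add h1, if_pos rfl]; exact h2), dg_add h1, dg_add h1, if_pos rfl]
      split_ifs <;> rfl
    have hne : ∀ q ∈ cs, q.1 ≠ q0.1 := by
      intro q hqm he
      apply hn0
      rw [← he]
      exact List.mem_map_of_mem hqm
    obtain ⟨ih1, ih2⟩ := ih (sCnt st en x q0) hnd (by
      intro q hqm
      obtain ⟨a1, a2⟩ := hq q (List.mem_cons_of_mem _ hqm)
      rw [hstep, if_neg (hne q hqm)]
      exact ⟨a1, a2⟩)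
    constructor
    · intro q hqm
      rw [List.foldl_cons]
      rcases List.mem_cons.1 hqm with rfl | hqm
      · rw [ih2 _ (fun q' hq' he => hne q' hq' he.symm), hstep, if_pos rfl]
        omega
      · rw [ih1 q hqm, hstep, if_neg (hne q hqm)]
    · intro i hi
      rw [List.foldl_cons, ih2 i (fun q hqm => hi q (List.mem_cons_of_mem _ hqm)), hstep,
        if_neg (hi q0 (by simp))]

/-! ### the word `cof` -/

theorem maskOf_testBit : ∀ (ws : List ℕ), ws.Nodup → ∀ j,
    (maskOf ws).testBit j = decide (j ∈ ws) := by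
  intro ws
  induction ws with
  | nil => intro _ j; simp [maskOf]
  | cons x ws ih =>
    intro hnd j
    rw [List.nodup_cons] at hnd
    have h : maskOf (x :: ws) = maskOf ws + 1 <<< x := by
      show 1 <<< x + maskOf ws = maskOf ws + 1 <<< x
      rw [Nat.add_comm]
    rw [h, testBit_add (by rw [ih hnd.2]; simpa using hnd.1), ih hnd.2]
    split_ifs with h1
    · simp [h1]
    · simp [h1]

theorem addCof_testBit (m : ℕ) (hm : m < 2 ^ 16) (ws : List ℕ) (cof v u : ℕ) (hu : u < 16) :
    (addCof m ws cof).testBit (16 * v + u) =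
      (cof.testBit (16 * v + u) || (decide (v ∈ ws) && m.testBit u)) := by
  induction ws with
  | nil => simp [addCof]
  | cons x ws ih =>
    have h : addCof m (x :: ws) cof = addCof m ws cof ||| m <<< (16 * x) := rfl
    rw [h, Nat.testBit_or, ih, Nat.testBit_shiftLeft]
    by_cases hxv : v = x
    · subst hxv
      have e : 16 * v + u - 16 * v = u := by omega
      simp [e]
      cases cof.testBit (16 * v + u) <;> cases m.testBit u <;> simp
    · have e : (decide (16 * v + u ≥ 16 * x) && m.testBit (16 * v + u - 16 * x)) = false := by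
        by_cases hle : 16 * x ≤ 16 * v + u
        · have h16 : 16 ≤ 16 * v + u - 16 * x := by omega
          have : m.testBit (16 * v + u - 16 * x) = false :=
            Nat.testBit_lt_two_pow (lt_of_lt_of_le hm (Nat.pow_le_pow_right (by norm_num) h16))
          rw [this]; simp
        · simp; omega
      rw [e]
      simp [hxv]

/-! ### corners -/

theorem hd_mem {d : ℕ} {l : List ℕ} (h : l ≠ []) : hd d l ∈ l := by
  cases l with
  | nil => exact absurd rfl h
  | cons x l => exact List.mem_cons_self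

theorem corA_map (f : ℕ) (ws : List ℕ) : ∀ (rc : List ℕ) (w : ℕ),
    (corA f ws rc w).map (·.1) = ws := by
  induction ws with
  | nil => intro rc w; rfl
  | cons v rest ih => intro rc w; simp [corA, ih]

theorem corA_mem (f : ℕ) (ws : List ℕ) : ∀ (rc : List ℕ) (w : ℕ), ∀ q ∈ corA f ws rc w,
    q.1 ∈ ws ∧ (q.2.1 = f ∨ q.2.1 ∈ ws) ∧ (q.2.2.1 = w ∨ q.2.2.1 ∈ ws) ∧
      ((∀ c ∈ rc, c ≤ 2) → q.2.2.2 ≤ 2) := by
  induction ws with
  | nil => intro rc w q hq; simp [corA] at hq
  | cons v rest ih =>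
    intro rc w q hq
    rw [corA, List.mem_cons] at hq
    rcases hq with rfl | hq
    · refine ⟨by simp, ?_, by simp, ?_⟩
      · cases rest with
        | nil => left; rfl
        | cons x l => right; simp [hd]
      · intro hc
        cases rc with
        | nil => simp [hd]
        | cons c l => exact hc c (by simp)
    · obtain ⟨h1, h2, h3, h4⟩ := ih (tl rc) v q hq
      refine ⟨by simp [h1], ?_, ?_, ?_⟩
      · rcases h2 with h2 | h2
        · exact Or.inl h2
        · right; simp [h2]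
      · rcases h3 with h3 | h3
        · right; simp [h3]
        · right; simp [h3]
      · intro hc
        apply h4
        intro c hcm
        cases rc with
        | nil => simp [tl] at hcm
        | cons c' l => exact hc c (List.mem_cons_of_mem _ hcm)

theorem corA_ne (f : ℕ) (ws : List ℕ) : ∀ (rc : List ℕ) (w : ℕ), (w :: ws).Nodup → f ∉ ws →
    (f ≠ w ∨ 2 ≤ ws.length) → ∀ q ∈ corA f ws rc w, q.2.1 ≠ q.2.2.1 := by
  induction ws with
  | nil => intro rc w _ _ _ q hq; simp [corA] at hq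
  | cons v rest ih =>
    intro rc w hnd hf hor q hq
    rw [List.nodup_cons] at hnd
    rw [corA, List.mem_cons] at hq
    rcases hq with rfl | hq
    · cases rest with
      | nil =>
        rcases hor with h | h
        · exact h
        · simp at h
      | cons x l =>
        show x ≠ w
        rintro rfl
        exact hnd.1 (by simp)
    · apply ih (tl rc) v hnd.2 (fun h => hf (List.mem_cons_of_mem _ h)) _ q hq
      left
      rintro rfl
      exact hf (by simp)

theorem Wf.ne_nil {F : Fa} (h : Wf F) : F.ws ≠ [] := by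
  intro h0
  have := h.three
  rw [h0] at this
  simp at this

theorem Wf.a_mem {F : Fa} (h : Wf F) : F.a ∈ F.ws := List.mem_of_getLast? h.last

/-- the corners of a well-formed face -/
theorem cors_mem {F : Fa} (h : Wf F) : ∀ q ∈ cors F,
    q.1 ∈ F.ws ∧ q.2.1 ∈ F.ws ∧ q.2.2.1 ∈ F.ws ∧ q.2.2.2 ≤ 2 := by
  intro q hq
  obtain ⟨h1, h2, h3, h4⟩ := corA_mem _ _ _ _ q hq
  refine ⟨h1, ?_, ?_, h4 h.code⟩
  · rcases h2 with h2 | h2
    · rw [h2]; exact hd_mem h.ne_nil
    · exact h2
  · rcases h3 with h3 | h3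
    · rw [h3]; exact h.a_mem
    · exact h3

theorem cors_map (F : Fa) : (cors F).map (·.1) = F.ws := corA_map _ _ _ _

theorem cors_ne {F : Fa} (h : Wf F) : ∀ q ∈ cors F, q.2.1 ≠ q.2.2.1 := by
  obtain ⟨a, ws, dr, rc⟩ := F
  obtain ⟨hnd, _, h3, hl, _⟩ := h
  simp only at hnd h3 hl
  intro q hq
  match ws, hnd, h3, hl with
  | v1 :: v2 :: v3 :: l, hnd, h3, hl =>
    have hq' : q ∈ corA v1 (v1 :: v2 :: v3 :: l) rc a := hq
    rw [corA, List.mem_cons] at hq'
    rcases hq' with rfl | hq'
    · show v2 ≠ a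
      rintro rfl
      have hm : v2 ∈ v3 :: l := by
        have : (v3 :: l).getLast? = some v2 := by
          rw [List.getLast?_cons_cons, List.getLast?_cons_cons] at hl
          exact hl
        exact List.mem_of_getLast? this
      rw [List.nodup_cons, List.nodup_cons] at hnd
      exact hnd.2.1 hm
    · rw [List.nodup_cons] at hnd
      exact corA_ne v1 (v2 :: v3 :: l) (tl rc) v1 (List.nodup_cons.2 hnd) hnd.1
        (Or.inr (by simp)) q hq'

theorem unique_of_nodup {cs : List (ℕ × ℕ × ℕ × ℕ)} (h : (cs.map (·.1)).Nodup)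
    {q q' : ℕ × ℕ × ℕ × ℕ} (hq : q ∈ cs) (hq' : q' ∈ cs) (he : q.1 = q'.1) : q = q' :=
  List.inj_on_of_nodup_map h hq hq' he

theorem countP_cs {cs : List (ℕ × ℕ × ℕ × ℕ)} (h : (cs.map (·.1)).Nodup) (c : ℕ) :
    (∀ q ∈ cs, cs.countP (fun p => p.1 == q.1 && p.2.2.2 == c) =
      if q.2.2.2 = c then 1 else 0) ∧
    ∀ v, (∀ q ∈ cs, v ≠ q.1) → cs.countP (fun p => p.1 == v && p.2.2.2 == c) = 0 := by
  have h0 : ∀ (cs : List (ℕ × ℕ × ℕ × ℕ)) (v : ℕ), (∀ q ∈ cs, v ≠ q.1) →
      cs.countP (fun p => p.1 == v && p.2.2.2 == c) = 0 := by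
    intro cs v hv
    rw [List.countP_eq_zero]
    intro p hp
    have := hv p hp
    simp only [Bool.and_eq_true, beq_iff_eq, not_and]
    intro he
    exact absurd he.symm this
  refine ⟨?_, h0 cs⟩
  induction cs with
  | nil => simp
  | cons q0 cs ih =>
    intro q hq
    rw [List.map_cons, List.nodup_cons] at h
    rw [List.countP_cons]
    rcases List.mem_cons.1 hq with rfl | hq
    · rw [h0 cs q.1 (fun q' hq' he => h.1 (by rw [he]; exact List.mem_map_of_mem hq'))]
      simp
    · have hne : ¬ q0.1 = q.1 := fun he => h.1 (by rw [he]; exact List.mem_map_of_mem hq)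
      rw [ih h.2 q hq]
      simp [hne]

/-! ### the relations after placing a face -/

theorem allC_cons (F : Fa) (fs : List Fa) : allC (F :: fs) = cors F ++ allC fs := by
  simp [allC]

theorem Cor_cons (F : Fa) (fs : List Fa) (v u w c : ℕ) :
    Cor (F :: fs) v u w c ↔ (v, u, w, c) ∈ cors F ∨ Cor fs v u w c := by
  unfold Cor
  rw [allC_cons, List.mem_append]

theorem InD_cons (F : Fa) (fs : List Fa) (v u : ℕ) :
    InD (F :: fs) v u ↔ (∃ q ∈ cors F, q.1 = v ∧ q.2.1 = u) ∨ InD fs v u := by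
  constructor
  · rintro ⟨w, c, h⟩
    rcases (Cor_cons _ _ _ _ _ _).1 h with h | h
    · exact Or.inl ⟨_, h, rfl, rfl⟩
    · exact Or.inr ⟨w, c, h⟩
  · rintro (⟨⟨v', u', w, c⟩, h, rfl, rfl⟩ | ⟨w, c, h⟩)
    · exact ⟨w, c, (Cor_cons _ _ _ _ _ _).2 (Or.inl h)⟩
    · exact ⟨w, c, (Cor_cons _ _ _ _ _ _).2 (Or.inr h)⟩

theorem OutD_cons (F : Fa) (fs : List Fa) (v w : ℕ) :
    OutD (F :: fs) v w ↔ (∃ q ∈ cors F, q.1 = v ∧ q.2.2.1 = w) ∨ OutD fs v w := by
  constructor
  · rintro ⟨u, c, h⟩
    rcases (Cor_cons _ _ _ _ _ _).1 h with h | h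
    · exact Or.inl ⟨_, h, rfl, rfl⟩
    · exact Or.inr ⟨u, c, h⟩
  · rintro (⟨⟨v', u, w', c⟩, h, rfl, rfl⟩ | ⟨u, c, h⟩)
    · exact ⟨u, c, (Cor_cons _ _ _ _ _ _).2 (Or.inl h)⟩
    · exact ⟨u, c, (Cor_cons _ _ _ _ _ _).2 (Or.inr h)⟩

theorem InD_cons_of {F : Fa} (fs : List Fa) (h : F.ws.Nodup) {q : ℕ × ℕ × ℕ × ℕ}
    (hq : q ∈ cors F) (u : ℕ) : InD (F :: fs) q.1 u ↔ u = q.2.1 ∨ InD fs q.1 u := by
  rw [InD_cons]
  constructor
  · rintro (⟨q', hq', h1, h2⟩ | h)
    · have := unique_of_nodup (by rw [cors_map]; exact h) hq' hq h1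
      subst this
      exact Or.inl h2.symm
    · exact Or.inr h
  · rintro (rfl | h)
    · exact Or.inl ⟨q, hq, rfl, rfl⟩
    · exact Or.inr h

theorem OutD_cons_of {F : Fa} (fs : List Fa) (h : F.ws.Nodup) {q : ℕ × ℕ × ℕ × ℕ}
    (hq : q ∈ cors F) (w : ℕ) : OutD (F :: fs) q.1 w ↔ w = q.2.2.1 ∨ OutD fs q.1 w := by
  rw [OutD_cons]
  constructor
  · rintro (⟨q', hq', h1, h2⟩ | h)
    · have := unique_of_nodup (by rw [cors_map]; exact h) hq' hq h1
      subst this
      exact Or.inl h2.symm
    · exact Or.inr h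
  · rintro (rfl | h)
    · exact Or.inl ⟨q, hq, rfl, rfl⟩
    · exact Or.inr h

theorem InD_cons_not {F : Fa} (fs : List Fa) {v : ℕ} (hv : ∀ q ∈ cors F, v ≠ q.1) (u : ℕ) :
    InD (F :: fs) v u ↔ InD fs v u := by
  rw [InD_cons]
  constructor
  · rintro (⟨q', hq', h1, h2⟩ | h)
    · exact absurd h1.symm (hv q' hq')
    · exact h
  · exact Or.inr

theorem OutD_cons_not {F : Fa} (fs : List Fa) {v : ℕ} (hv : ∀ q ∈ cors F, v ≠ q.1) (w : ℕ) :
    OutD (F :: fs) v w ↔ OutD fs v w := by
  rw [OutD_cons]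
  constructor
  · rintro (⟨q', hq', h1, h2⟩ | h)
    · exact absurd h1.symm (hv q' hq')
    · exact h
  · exact Or.inr

theorem InD_lt {s : St} (h : Sp s) {v u : ℕ} (hi : InD s.fs v u) : v < s.n ∧ u < s.n := by
  obtain ⟨w, c, hc⟩ := hi
  unfold Cor allC at hc
  rw [List.mem_flatMap] at hc
  obtain ⟨F, hF, hq⟩ := hc
  obtain ⟨h1, h2, -, -⟩ := cors_mem (h.wf F hF) _ hq
  exact ⟨h.lt F hF _ h1, h.lt F hF _ h2⟩

theorem OutD_lt {s : St} (h : Sp s) {v w : ℕ} (hi : OutD s.fs v w) : v < s.n ∧ w < s.n := by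
  obtain ⟨u, c, hc⟩ := hi
  unfold Cor allC at hc
  rw [List.mem_flatMap] at hc
  obtain ⟨F, hF, hq⟩ := hc
  obtain ⟨h1, -, h2, -⟩ := cors_mem (h.wf F hF) _ hq
  exact ⟨h.lt F hF _ h1, h.lt F hF _ h2⟩

/-- number of chains after placing a face -/
theorem nE_cons {s : St} (h : Sp s) {F : Fa} (hF : Fresh s F) {q : ℕ × ℕ × ℕ × ℕ}
    (hq : q ∈ cors F) : nE (F :: s.fs) q.1 +
      ((s.en.testBit (16 * q.1 + q.2.1)).toNat + (s.st.testBit (16 * q.1 + q.2.2.1)).toNat) =
      nE s.fs q.1 + 1 := by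
  classical
  have hin := hF.inD q hq
  have hout := hF.outD q hq
  obtain ⟨-, hu, hw, -⟩ := cors_mem hF.wf q hq
  have hu := hF.lt _ hu
  have hw := hF.lt _ hw
  have hne := cors_ne hF.wf q hq
  have e1 : s.en.testBit (16 * q.1 + q.2.1) = decide (OutD s.fs q.1 q.2.1) := by
    rw [Bool.eq_iff_iff, h.en _ _ hu]
    simp [hin]
  have e2 : s.st.testBit (16 * q.1 + q.2.2.1) = decide (InD s.fs q.1 q.2.2.1) := by
    rw [Bool.eq_iff_iff, h.st _ _ hw]
    simp [hout]
  rw [e1, e2]
  unfold nE
  have hEe : (Finset.range 16).filter (fun w => OutD (F :: s.fs) q.1 w ∧ ¬ InD (F :: s.fs) q.1 w) =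
      ((Finset.range 16).filter (fun w => (w = q.2.2.1 ∨ OutD s.fs q.1 w) ∧
        ¬ InD s.fs q.1 w)).erase q.2.1 := by
    ext x
    rw [Finset.mem_filter, Finset.mem_erase, Finset.mem_filter, OutD_cons_of _ hF.wf.nodup hq,
      InD_cons_of _ hF.wf.nodup hq]
    tauto
  have hcard : ((Finset.range 16).filter (fun w => (w = q.2.2.1 ∨ OutD s.fs q.1 w) ∧
        ¬ InD s.fs q.1 w)).card + (decide (InD s.fs q.1 q.2.2.1)).toNat =
      ((Finset.range 16).filter (fun w => OutD s.fs q.1 w ∧ ¬ InD s.fs q.1 w)).card + 1 := by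
    by_cases hi : InD s.fs q.1 q.2.2.1
    · have : (Finset.range 16).filter (fun w => (w = q.2.2.1 ∨ OutD s.fs q.1 w) ∧
        ¬ InD s.fs q.1 w) = (Finset.range 16).filter (fun w => OutD s.fs q.1 w ∧
          ¬ InD s.fs q.1 w) := by
        apply Finset.filter_congr
        intro x _
        constructor
        · rintro ⟨rfl | h1, h2⟩
          · exact absurd hi h2
          · exact ⟨h1, h2⟩
        · rintro ⟨h1, h2⟩
          exact ⟨Or.inr h1, h2⟩
      rw [this]
      simp [hi]
    · have : (Finset.range 16).filter (fun w => (w = q.2.2.1 ∨ OutD s.fs q.1 w) ∧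
        ¬ InD s.fs q.1 w) = insert q.2.2.1 ((Finset.range 16).filter
          (fun w => OutD s.fs q.1 w ∧ ¬ InD s.fs q.1 w)) := by
        ext x
        rw [Finset.mem_insert, Finset.mem_filter, Finset.mem_filter, Finset.mem_range]
        constructor
        · rintro ⟨h0, rfl | h1, h2⟩
          · exact Or.inl rfl
          · exact Or.inr ⟨h0, h1, h2⟩
        · rintro (rfl | ⟨h0, h1, h2⟩)
          · exact ⟨hw, Or.inl rfl, hi⟩
          · exact ⟨h0, Or.inr h1, h2⟩
      rw [this, Finset.card_insert_of_notMem]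
      · simp [hi]
      · rw [Finset.mem_filter]
        rintro ⟨-, h1, -⟩
        exact hout h1
  rw [hEe]
  by_cases ho : OutD s.fs q.1 q.2.1
  · have hm : q.2.1 ∈ (Finset.range 16).filter (fun w => (w = q.2.2.1 ∨ OutD s.fs q.1 w) ∧
        ¬ InD s.fs q.1 w) := by
      rw [Finset.mem_filter, Finset.mem_range]
      exact ⟨hu, Or.inr ho, hin⟩
    have := Finset.card_erase_add_one hm
    have e3 : (decide (OutD s.fs q.1 q.2.1)).toNat = 1 := by simp [ho]
    rw [e3]
    omega
  · have hm : q.2.1 ∉ (Finset.range 16).filter (fun w => (w = q.2.2.1 ∨ OutD s.fs q.1 w) ∧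
        ¬ InD s.fs q.1 w) := by
      rw [Finset.mem_filter]
      rintro ⟨-, h1 | h1, -⟩
      · exact hne h1
      · exact ho h1
    rw [Finset.erase_eq_of_notMem hm]
    have e3 : (decide (OutD s.fs q.1 q.2.1)).toNat = 0 := by simp [ho]
    rw [e3]
    omega

theorem nE_cons_not {F : Fa} (fs : List Fa) {v : ℕ} (hv : ∀ q ∈ cors F, v ≠ q.1) :
    nE (F :: fs) v = nE fs v := by
  classical
  unfold nE
  congr 1
  apply Finset.filter_congr
  intro x _
  rw [InD_cons_not fs hv, OutD_cons_not fs hv]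

theorem nC_cons (F : Fa) (fs : List Fa) (v c : ℕ) : nC (F :: fs) v c =
    (cors F).countP (fun q => q.1 == v && q.2.2.2 == c) + nC fs v c := by
  unfold nC
  rw [allC_cons, List.countP_append]

theorem dl_le (c : ℕ) (hc : c ≤ 2) : dl c ≤ 8 := by
  rw [dl_eq c hc]
  split_ifs <;> omega

/-- a chain end or start gives a chain -/
theorem nE_pos_of_out {s : St} (h : Sp s) {v u : ℕ} (h1 : OutD s.fs v u) (h2 : ¬ InD s.fs v u) :
    1 ≤ nE s.fs v := by
  classical
  unfold nE
  apply Finset.card_pos.2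
  refine ⟨u, ?_⟩
  rw [Finset.mem_filter, Finset.mem_range]
  exact ⟨lt_of_lt_of_le (OutD_lt h h1).2 h.n16, h1, h2⟩

/-- conditions for the word `cnt` -/
theorem cnt_cond {s : St} (h : Sp s) {F : Fa} (hF : Fresh s F) {q : ℕ × ℕ × ℕ × ℕ}
    (hq : q ∈ cors F) : dg s.cnt q.1 + (dl q.2.2.2 + 32) < 256 ∧
      32 * (pa s.en q.1 q.2.1 + pa s.st q.1 q.2.2.1) ≤ dg s.cnt q.1 + (dl q.2.2.2 + 32) := by
  obtain ⟨hv, hu, hw, hc⟩ := cors_mem hF.wf q hq
  have hu := hF.lt _ hu
  have h1 := hF.cnt _ hv
  have h2 := dl_le _ hc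
  refine ⟨by omega, ?_⟩
  have h3 := pa_le s.en q.1 q.2.1
  have h4 := pa_le s.st q.1 q.2.2.1
  by_cases h5 : pa s.en q.1 q.2.1 = 0
  · rw [h5]; omega
  · have h6 : s.en.testBit (16 * q.1 + q.2.1) = true := by
      rw [pa_eq] at h5
      cases hb : s.en.testBit (16 * q.1 + q.2.1) with
      | true => rfl
      | false => rw [hb] at h5; exact absurd rfl h5
    rw [h.en _ _ hu] at h6
    have h7 := nE_pos_of_out h h6.1 h6.2
    have h8 := h.cnt q.1
    omega

theorem nE_place {s : St} (h : Sp s) {a : ℕ} {rc dr ws : List ℕ}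
    (hF : Fresh s (Fa.mk a ws dr rc)) {v u w c : ℕ} (hc : (v, u, w, c) ∈ cors (Fa.mk a ws dr rc)) :
    dg (place s a rc dr ws).cnt v + 32 * (bv s.en (16 * v + u) + bv s.st (16 * v + w)) =
      dg s.cnt v + dl c + 32 := by
  have e : (place s a rc dr ws).cnt =
      (cors (Fa.mk a ws dr rc)).foldl (sCnt s.st s.en) s.cnt := by
    cases s
    exact addCnt_eq _ _ _ _ _ _ _
  rw [e]
  have := (fold_cnt s.st s.en (cors (Fa.mk a ws dr rc)) s.cnt (by
    rw [cors_map]; exact hF.wf.nodup) (fun q hq => cnt_cond h hF hq)).1 _ hc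
  simp only at this
  rw [pa_eq, pa_eq] at this
  unfold bv
  omega

/-- the words of the state are right after placing a face -/
theorem sp_place {s : St} (h : Sp s) {a : ℕ} {rc dr ws : List ℕ}
    (hF : Fresh s (Fa.mk a ws dr rc)) : Sp (place s a rc dr ws) := by
  classical
  set F : Fa := Fa.mk a ws dr rc with hFdef
  have enx : (place s a rc dr ws).nx = (cors F).foldl sNx s.nx := by
    cases s
    exact addNx_eq _ _ _ _ _
  have est : (place s a rc dr ws).st = (cors F).foldl (sSt s.st s.en) s.st := by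
    cases s
    exact addSt_eq _ _ _ _ _ _ _
  have een : (place s a rc dr ws).en = (cors F).foldl (sEn s.st s.en) s.en := by
    cases s
    exact addEn_eq _ _ _ _ _ _ _
  have ecnt : (place s a rc dr ws).cnt = (cors F).foldl (sCnt s.st s.en) s.cnt := by
    cases s
    exact addCnt_eq _ _ _ _ _ _ _
  have ecof : (place s a rc dr ws).cof = addCof (maskOf ws) ws s.cof := by
    cases s
    rfl
  have hws : F.ws = ws := rfl
  have hnd : ((cors F).map (·.1)).Nodup := by
    rw [cors_map]; exact hF.wf.nodup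
  have hmem : ∀ q ∈ cors F, q.1 < 16 ∧ q.2.1 < 16 ∧ q.2.2.1 < 16 ∧ q.2.2.2 ≤ 2 := by
    intro q hq
    obtain ⟨h1, h2, h3, h4⟩ := cors_mem hF.wf q hq
    exact ⟨hF.lt _ h1, hF.lt _ h2, hF.lt _ h3, h4⟩
  -- a vertex has a corner or not
  have hdich : ∀ v, (∃ q ∈ cors F, q.1 = v) ∨ ∀ q ∈ cors F, v ≠ q.1 := by
    intro v
    by_cases hv : ∃ q ∈ cors F, q.1 = v
    · exact Or.inl hv
    · right
      intro q hq he
      exact hv ⟨q, hq, he.symm⟩
  obtain ⟨nx1, nx2⟩ := fold_nx (cors F) s.nx hnd (by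
    intro q hq
    obtain ⟨h1, h2, h3, h4⟩ := hmem q hq
    exact ⟨h2, by omega, h.nx0 _ _ h2 (hF.inD q hq)⟩)
  obtain ⟨st1, st2⟩ := fold_bit (fun q => q.2.1) (fun q => q.2.2.1)
    (fun q => s.en.testBit (16 * q.1 + q.2.1)) (fun q => s.st.testBit (16 * q.1 + q.2.2.1))
    (sSt s.st s.en) (by
      intro x q
      unfold sSt
      rw [pa_eq, pa_eq]) (cors F) s.st hnd (by
      intro q hq
      obtain ⟨h1, h2, h3, h4⟩ := hmem q hq
      refine ⟨h2, h3, cors_ne hF.wf q hq, ?_, ?_⟩
      · intro _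
        by_contra hb
        rw [Bool.not_eq_false, h.st _ _ h2] at hb
        exact hF.inD q hq hb.1
      · intro hb
        exact hb)
  obtain ⟨en1, en2⟩ := fold_bit (fun q => q.2.2.1) (fun q => q.2.1)
    (fun q => s.st.testBit (16 * q.1 + q.2.2.1)) (fun q => s.en.testBit (16 * q.1 + q.2.1))
    (sEn s.st s.en) (by
      intro x q
      unfold sEn
      rw [pa_eq, pa_eq]) (cors F) s.en hnd (by
      intro q hq
      obtain ⟨h1, h2, h3, h4⟩ := hmem q hq
      refine ⟨h3, h2, (cors_ne hF.wf q hq).symm, ?_, ?_⟩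
      · intro _
        by_contra hb
        rw [Bool.not_eq_false, h.en _ _ h3] at hb
        exact hF.outD q hq hb.1
      · intro hb
        exact hb)
  obtain ⟨cnt1, cnt2⟩ := fold_cnt s.st s.en (cors F) s.cnt hnd
    (fun q hq => cnt_cond h hF hq)
  refine ⟨?_, ?_, ?_, ?_, ?_, ?_, ?_, ?_, ?_, ?_, ?_⟩
  · -- n16
    rw [place_n]
    exact maxL_le h.n16 (fun x hx => hF.lt x hx)
  · -- wf
    rw [place_fs]
    intro G hG
    rcases List.mem_cons.1 hG with rfl | hG
    · exact hF.wf
    · exact h.wf G hG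
  · -- lt
    rw [place_fs, place_n]
    intro G hG x hx
    rcases List.mem_cons.1 hG with rfl | hG
    · exact lt_maxL hx
    · exact lt_of_lt_of_le (h.lt G hG x hx) (le_maxL _ _)
  · -- nd
    rw [place_fs, allC_cons, List.map_append, List.nodup_append]
    refine ⟨?_, h.nd, ?_⟩
    · have : ((cors F).map (·.1)) = ((cors F).map (fun q => (q.1, q.2.1))).map Prod.fst := by
        rw [List.map_map]; rfl
      rw [this] at hnd
      exact List.Nodup.of_map _ hnd
    · intro p hp p' hp' he
      subst he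
      rw [List.mem_map] at hp hp'
      obtain ⟨q, hq, rfl⟩ := hp
      obtain ⟨⟨v', u', w', c'⟩, hq', he⟩ := hp'
      simp only [Prod.mk.injEq] at he
      apply hF.inD q hq
      rw [← he.1, ← he.2]
      exact ⟨w', c', hq'⟩
  · -- nd'
    rw [place_fs, allC_cons, List.map_append, List.nodup_append]
    refine ⟨?_, h.nd', ?_⟩
    · have : ((cors F).map (·.1)) = ((cors F).map (fun q => (q.1, q.2.2.1))).map Prod.fst := by
        rw [List.map_map]; rfl
      rw [this] at hnd
      exact List.Nodup.of_map _ hnd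
    · intro p hp p' hp' he
      subst he
      rw [List.mem_map] at hp hp'
      obtain ⟨q, hq, rfl⟩ := hp
      obtain ⟨⟨v', u', w', c'⟩, hq', he⟩ := hp'
      simp only [Prod.mk.injEq] at he
      apply hF.outD q hq
      rw [← he.1, ← he.2]
      exact ⟨u', c', hq'⟩
  · -- nx1
    intro v u w c hc
    rw [place_fs, Cor_cons] at hc
    rw [enx]
    rcases hc with hc | hc
    · exact nx1 _ hc
    · have hi : InD s.fs v u := ⟨w, c, hc⟩
      have hu : u < 16 := lt_of_lt_of_le (InD_lt h hi).2 h.n16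
      rw [nx2]
      · exact h.nx1 v u w c hc
      · intro q hq he
        obtain ⟨e1, e2⟩ := idx_inj hu (hmem q hq).2.1 he
        apply hF.inD q hq
        rw [← e1, ← e2]
        exact hi
  · -- nx0
    intro v u hu hi
    rw [place_fs, InD_cons, not_or] at hi
    rw [enx, nx2]
    · exact h.nx0 v u hu hi.2
    · intro q hq he
      obtain ⟨e1, e2⟩ := idx_inj hu (hmem q hq).2.1 he
      exact hi.1 ⟨q, hq, e1.symm, e2.symm⟩
  · -- st
    intro v u hu
    rw [place_fs, est]
    rcases hdich v with ⟨q, hq, rfl⟩ | hv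
    · rw [InD_cons_of _ hF.wf.nodup hq, OutD_cons_of _ hF.wf.nodup hq]
      have hne := cors_ne hF.wf q hq
      have hin := hF.inD q hq
      have hout := hF.outD q hq
      obtain ⟨g1, g2⟩ := st1 q hq
      by_cases h1 : u = q.2.1
      · subst h1
        rw [g1]
        have e1 := h.en q.1 q.2.1 hu
        have e2 := h.st q.1 q.2.1 hu
        by_cases ho : OutD s.fs q.1 q.2.1
        · have e3 : s.en.testBit (16 * q.1 + q.2.1) = true := e1.2 ⟨ho, hin⟩
          have e4 : s.st.testBit (16 * q.1 + q.2.1) = false := by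
            rw [← Bool.not_eq_true, e2]
            tauto
          rw [e3, e4]
          simp [ho]
        · have e3 : s.en.testBit (16 * q.1 + q.2.1) = false := by
            rw [← Bool.not_eq_true, e1]
            tauto
          rw [e3]
          simp [ho, hne]
      · by_cases h2 : u = q.2.2.1
        · subst h2
          rw [g2]
          simp
        · rw [st2, h.st _ _ hu]
          · simp [h1, h2]
          · intro q' hq'
            constructor
            · intro he
              obtain ⟨e1, e2⟩ := idx_inj hu (hmem q' hq').2.1 he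
              have := unique_of_nodup hnd hq hq' e1
              subst this
              exact h1 e2
            · intro he
              obtain ⟨e1, e2⟩ := idx_inj hu (hmem q' hq').2.2.1 he
              have := unique_of_nodup hnd hq hq' e1
              subst this
              exact h2 e2
    · rw [InD_cons_not _ hv, OutD_cons_not _ hv, st2, h.st _ _ hu]
      intro q' hq'
      have := hv q' hq'
      have := (hmem q' hq').2.1
      have := (hmem q' hq').2.2.1
      constructor
      · show 16 * v + u ≠ 16 * q'.1 + q'.2.1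
        omega
      · show 16 * v + u ≠ 16 * q'.1 + q'.2.2.1
        omega
  · -- en
    intro v u hu
    rw [place_fs, een]
    rcases hdich v with ⟨q, hq, rfl⟩ | hv
    · rw [InD_cons_of _ hF.wf.nodup hq, OutD_cons_of _ hF.wf.nodup hq]
      have hne := cors_ne hF.wf q hq
      have hin := hF.inD q hq
      have hout := hF.outD q hq
      obtain ⟨g1, g2⟩ := en1 q hq
      by_cases h1 : u = q.2.2.1
      · subst h1
        rw [g1]
        have e1 := h.st q.1 q.2.2.1 hu
        have e2 := h.en q.1 q.2.2.1 hu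
        by_cases ho : InD s.fs q.1 q.2.2.1
        · have e3 : s.st.testBit (16 * q.1 + q.2.2.1) = true := e1.2 ⟨ho, hout⟩
          have e4 : s.en.testBit (16 * q.1 + q.2.2.1) = false := by
            rw [← Bool.not_eq_true, e2]
            tauto
          rw [e3, e4]
          simp [ho]
        · have e3 : s.st.testBit (16 * q.1 + q.2.2.1) = false := by
            rw [← Bool.not_eq_true, e1]
            tauto
          rw [e3]
          simp [ho, hne.symm]
      · by_cases h2 : u = q.2.1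
        · subst h2
          rw [g2]
          simp
        · rw [en2, h.en _ _ hu]
          · simp [h1, h2]
          · intro q' hq'
            constructor
            · intro he
              obtain ⟨e1, e2⟩ := idx_inj hu (hmem q' hq').2.2.1 he
              have := unique_of_nodup hnd hq hq' e1
              subst this
              exact h1 e2
            · intro he
              obtain ⟨e1, e2⟩ := idx_inj hu (hmem q' hq').2.1 he
              have := unique_of_nodup hnd hq hq' e1
              subst this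
              exact h2 e2
    · rw [InD_cons_not _ hv, OutD_cons_not _ hv, en2, h.en _ _ hu]
      intro q' hq'
      have := hv q' hq'
      have := (hmem q' hq').2.1
      have := (hmem q' hq').2.2.1
      constructor
      · show 16 * v + u ≠ 16 * q'.1 + q'.2.2.1
        omega
      · show 16 * v + u ≠ 16 * q'.1 + q'.2.1
        omega
  · -- cof
    intro v u hu
    rw [place_fs, ecof, addCof_testBit]
    · rw [Bool.or_eq_true, Bool.and_eq_true, h.cof _ _ hu, maskOf_testBit _ hF.wf.nodup]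
      unfold Cof
      constructor
      · rintro (⟨G, hG, h1, h2⟩ | ⟨h1, h2⟩)
        · exact ⟨G, List.mem_cons_of_mem _ hG, h1, h2⟩
        · exact ⟨F, List.mem_cons_self, by simpa using h1, by simpa using h2⟩
      · rintro ⟨G, hG, h1, h2⟩
        rcases List.mem_cons.1 hG with rfl | hG
        · right
          exact ⟨by simpa using h1, by simpa using h2⟩
        · left
          exact ⟨G, hG, h1, h2⟩
    · apply Nat.lt_pow_two_of_testBit
      intro i hi
      rw [maskOf_testBit _ hF.wf.nodup]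
      simp only [decide_eq_false_iff_not]
      intro hm
      have := hF.lt i hm
      omega
    · exact hu
  · -- cnt
    intro v
    rw [place_fs, ecnt, ← hFdef]
    rcases hdich v with ⟨q, hq, rfl⟩ | hv
    · have g1 := cnt1 q hq
      have g2 := nE_cons h hF hq
      have g3 := h.cnt q.1
      rw [nC_cons, nC_cons, (countP_cs hnd 1).1 q hq, (countP_cs hnd 2).1 q hq]
      rw [pa_eq, pa_eq] at g1
      rw [dl_eq _ (hmem q hq).2.2.2] at g1
      have hc := (hmem q hq).2.2.2
      split_ifs at g1 ⊢ <;> omega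
    · rw [cnt2 v (fun q hq => hv q hq), nC_cons, nC_cons, (countP_cs hnd 1).2 v hv,
        (countP_cs hnd 2).2 v hv, nE_cons_not _ hv, h.cnt v]
      omega

end Chk
end Pool.Agent.Lib.MP_ba95e8_co
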