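import Pool.Agent.Lib.MP_ba95e8_co.Defs

/-!
Deltahedral domes, task F1: strictly convex polygons.
-/

namespace Pool.Agent.Lib.MP_ba95e8_co

open scoped RealInnerProductSpace

variable {n : E3} {m : ℕ} {p : ℤ → E3}

lemma IsPoly.shift (h : IsPoly n m p) (a : ℤ) : IsPoly n m (fun i => p (i + a)) where
  three := h.three
  per i := by
    have := h.per (i + a)
    rwa [show i + a + m = i + m + a by ring] at this
  plane i := by rw [h.plane (i + a), h.plane (0 + a)]
  cvx i j h1 h2 := by
    have := h.cvx (i + a) (j + a) (by linarith) (by linarith)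
    rwa [show i + a + 1 = i + 1 + a by ring] at this

lemma IsPoly.per_mul (h : IsPoly n m p) (i t : ℤ) : p (i + t * m) = p i := by
  have hp : Function.Periodic p (m : ℤ) := h.per
  exact (hp.int_mul t) i

lemma IsPoly.orth (h : IsPoly n m p) (i j : ℤ) : ⟪n, p i - p j⟫ = 0 := by
  rw [inner_sub_right, h.plane i, h.plane j, sub_self]

/-- all cyclically ordered triples are positively oriented -/
lemma IsPoly.triple (h : IsPoly n m p) {i j k : ℤ} (hij : i < j)
    (hjk : j < k) (hk : k < i + m) : 0 < det3 n (p j - p i) (p k - p i) := by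
  have consec : ∀ k : ℤ, i < k → k + 1 < i + m →
      0 < det3 n (p k - p i) (p (k + 1) - p i) := by
    intro k h1 h2
    have h3 := h.cvx k (i + m) h2 (by linarith)
    rw [h.per i] at h3
    have e : det3 n (p k - p i) (p (k + 1) - p i) = det3 n (p (k + 1) - p k) (p i - p k) := by
      simp only [det3, sub_c]; ring
    rwa [e]
  rcases eq_or_lt_of_le (show i + 1 ≤ j from hij) with h1 | h1
  · rw [← h1]
    exact h.cvx i k (by omega) hk
  · have main : ∀ t : ℕ, j + 1 + t < i + m → 0 < det3 n (p j - p i) (p (j + 1 + t) - p i) := by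
      intro t
      induction t with
      | zero =>
        intro h2
        simpa using consec j hij (by simpa using h2)
      | succ t ih =>
        intro h2
        push_cast at h2
        have h3 := ih (by linarith)
        have h4 := consec (j + 1 + t) (by omega) (by linarith)
        have h5 := h.cvx i j h1 (by omega)
        have h6 := h.cvx i (j + 1 + t) (by omega) (by linarith)
        have h7 := h.cvx i (j + 1 + t + 1) (by omega) (by linarith)
        have h8 := plucker n (p (i + 1) - p i) (p j - p i) (p (j + 1 + t) - p i)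
          (p (j + 1 + t + 1) - p i)
        have e : j + 1 + ((t + 1 : ℕ) : ℤ) = j + 1 + t + 1 := by push_cast; ring
        rw [e]
        have h9 : det3 n (p (i + 1) - p i) (p (j + 1 + t) - p i) *
            det3 n (p j - p i) (p (j + 1 + t + 1) - p i) =
            det3 n (p (i + 1) - p i) (p j - p i) *
              det3 n (p (j + 1 + t) - p i) (p (j + 1 + t + 1) - p i) +
            det3 n (p (i + 1) - p i) (p (j + 1 + t + 1) - p i) *
              det3 n (p j - p i) (p (j + 1 + t) - p i) := by linarith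
        have h10 : 0 < det3 n (p (i + 1) - p i) (p (j + 1 + t) - p i) *
            det3 n (p j - p i) (p (j + 1 + t + 1) - p i) := by
          rw [h9]; positivity
        exact (pos_iff_pos_of_mul_pos h10).1 h6
    have h2 := main (k - (j + 1)).toNat (by rw [Int.toNat_of_nonneg (by omega)]; linarith)
    rwa [Int.toNat_of_nonneg (by omega), show j + 1 + (k - (j + 1)) = k by ring] at h2

/-- reduction of an index -/
lemma IsPoly.red (h : IsPoly n m p) (i j : ℤ) :
    ∃ r : ℤ, 0 ≤ r ∧ r < m ∧ p j = p (i + r) ∧ (m : ℤ) ∣ j - i - r := by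
  have m0 : (0 : ℤ) < m := by have := h.three; omega
  refine ⟨(j - i) % m, Int.emod_nonneg _ m0.ne', Int.emod_lt_of_pos _ m0, ?_,
    Int.dvd_self_sub_emod⟩
  rw [← h.per_mul (i + (j - i) % m) ((j - i) / m)]
  congr 1
  have := Int.emod_add_mul_ediv (j - i) m
  linarith

lemma IsPoly.ne_add (h : IsPoly n m p) (i : ℤ) {r : ℤ} (h0 : 0 < r) (h1 : r < m) :
    p (i + r) ≠ p i := by
  intro he
  have h3 := h.three
  rcases eq_or_lt_of_le (show 1 ≤ r from h0) with h2 | h2
  · have h4 := h.cvx i (i + 2) (by omega) (by omega)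
    rw [h2, he, sub_self] at h4
    simp [det3] at h4
  · have h4 := h.cvx i (i + r) (by omega) (by omega)
    rw [he, sub_self] at h4
    simp [det3] at h4

lemma IsPoly.inj (h : IsPoly n m p) {i j : ℤ} : p i = p j ↔ (m : ℤ) ∣ j - i := by
  constructor
  · intro he
    obtain ⟨r, h0, h1, h2, h3⟩ := h.red i j
    rcases eq_or_lt_of_le h0 with h4 | h4
    · rw [← h4, sub_zero] at h3
      exact h3
    · exact absurd (h2 ▸ he).symm (h.ne_add i h4 h1)
  · rintro ⟨c, hc⟩
    rw [← h.per_mul i c]
    congr 1
    linarith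

/-- vertices on the line of a side -/
lemma IsPoly.side_vertex (h : IsPoly n m p) (i j : ℤ) :
    0 ≤ det3 n (p (i + 1) - p i) (p j - p i) ∧
      (det3 n (p (i + 1) - p i) (p j - p i) = 0 → p j = p i ∨ p j = p (i + 1)) := by
  obtain ⟨r, h0, h1, h2, -⟩ := h.red i j
  rw [h2]
  rcases eq_or_lt_of_le h0 with h4 | h4
  · rw [← h4, add_zero, sub_self]
    exact ⟨by simp [det3], fun _ => Or.inl rfl⟩
  · rcases eq_or_lt_of_le (show 1 ≤ r from h4) with h5 | h5
    · rw [← h5]
      exact ⟨by simp, fun _ => Or.inr rfl⟩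
    · have h6 := h.cvx i (i + r) (by omega) (by omega)
      exact ⟨h6.le, fun h7 => absurd h7 h6.ne'⟩

/-- every point of the polygon is on the inner side of the line of the side from `p i` to
`p (i + 1)`, and the points on this line form the side -/
lemma IsPoly.side (h : IsPoly n m p) (i : ℤ) {x : E3} (hx : x ∈ convexHull ℝ (Set.range p)) :
    0 ≤ det3 n (p (i + 1) - p i) (x - p i) ∧
      (det3 n (p (i + 1) - p i) (x - p i) = 0 → x ∈ segment ℝ (p i) (p (i + 1))) := by
  obtain ⟨ι, _, w, z, hw, hs, hz, rfl⟩ := mem_convexHull_iff_exists_fintype.1 hx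
  set f : E3 → ℝ := fun y => det3 n (p (i + 1) - p i) (y - p i) with hf
  have key : det3 n (p (i + 1) - p i) ((∑ a, w a • z a) - p i) = ∑ a, w a * f (z a) := by
    have e1 : (∑ a, w a • z a) - p i = ∑ a, w a • (z a - p i) := by
      simp only [smul_sub, Finset.sum_sub_distrib]
      rw [← Finset.sum_smul, hs, one_smul]
    rw [e1]
    have e2 : ∀ s : Finset ι, det3 n (p (i + 1) - p i) (∑ a ∈ s, w a • (z a - p i)) =
        ∑ a ∈ s, w a * f (z a) := by
      classical
      intro s
      induction s using Finset.induction_on with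
      | empty => simp [det3]
      | insert a s ha ih =>
        rw [Finset.sum_insert ha, Finset.sum_insert ha, det3_add_right, det3_smul_right, ih]
    exact e2 _
  have hf0 : ∀ a, 0 ≤ w a * f (z a) := by
    intro a
    obtain ⟨j, hj⟩ := hz a
    apply mul_nonneg (hw a)
    rw [← hj]
    exact (h.side_vertex i j).1
  refine ⟨by rw [key]; exact Finset.sum_nonneg fun a _ => hf0 a, fun h0 => ?_⟩
  rw [key] at h0
  have h1 : ∀ a, w a * f (z a) = 0 := fun a =>
    (Finset.sum_eq_zero_iff_of_nonneg (fun a _ => hf0 a)).1 h0 a (Finset.mem_univ a)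
  have h2 : ∀ a, w a • z a = w a • (if w a = 0 then p i else z a) := by
    intro a
    split_ifs with h3
    · rw [h3, zero_smul, zero_smul]
    · rfl
  simp only [h2]
  apply (convex_segment (p i) (p (i + 1))).sum_mem (fun a _ => hw a) hs
  intro a _
  split_ifs with h3
  · exact left_mem_segment ℝ _ _
  · have h4 : f (z a) = 0 := by
      rcases mul_eq_zero.1 (h1 a) with h5 | h5
      · exact absurd h5 h3
      · exact h5
    obtain ⟨j, hj⟩ := hz a
    rw [← hj] at h4 ⊢
    rcases (h.side_vertex i j).2 h4 with h5 | h5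
    · rw [h5]; exact left_mem_segment ℝ _ _
    · rw [h5]; exact right_mem_segment ℝ _ _

lemma IsPoly.mem_hull (j : ℤ) : p j ∈ convexHull ℝ (Set.range p) :=
  subset_convexHull ℝ _ ⟨j, rfl⟩

/-- the vertices of a polygon are its extreme points -/
lemma IsPoly.extreme (h : IsPoly n m p) (hn : n ≠ 0) :
    Set.extremePoints ℝ (convexHull ℝ (Set.range p)) = Set.range p := by
  apply Set.Subset.antisymm extremePoints_convexHull_subset
  rintro _ ⟨i, rfl⟩
  rw [mem_extremePoints_iff_left]
  refine ⟨IsPoly.mem_hull i, ?_⟩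
  intro x hx y hy hxy
  obtain ⟨s, t, hs, ht, hst, hxy⟩ := hxy
  -- a side through `p i` contains `x`
  have key : ∀ j : ℤ, det3 n (p (j + 1) - p j) (p i - p j) = 0 →
      det3 n (p (j + 1) - p j) (x - p j) = 0 := by
    intro j hj
    have h1 := (h.side j hx).1
    have h2 := (h.side j hy).1
    have e : p i - p j = s • (x - p j) + t • (y - p j) := by
      rw [← hxy, smul_sub, smul_sub]
      have : p j = s • p j + t • p j := by rw [← add_smul, hst, one_smul]
      nth_rewrite 1 [this]
      abel
    rw [e, det3_add_right, det3_smul_right, det3_smul_right] at hj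
    nlinarith [mul_nonneg hs.le h1, mul_nonneg ht.le h2]
  have k1 := key i (by simp [det3])
  have k2 := key (i - 1) (by
    rw [show i - 1 + 1 = i by ring]
    simp)
  obtain ⟨a, b, ha, hb, hab, hx'⟩ := (h.side i hx).2 k1
  have hpos : 0 < det3 n (p i - p (i - 1)) (p (i + 1) - p (i - 1)) := by
    have := h.cvx (i - 1) (i + 1) (by omega) (by have := h.three; omega)
    rwa [show i - 1 + 1 = i by ring] at this
  rw [show i - 1 + 1 = i by ring, ← hx'] at k2
  have e2 : a • p i + b • p (i + 1) - p (i - 1) =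
      a • (p i - p (i - 1)) + b • (p (i + 1) - p (i - 1)) := by
    rw [smul_sub, smul_sub]
    have : p (i - 1) = a • p (i - 1) + b • p (i - 1) := by rw [← add_smul, hab, one_smul]
    nth_rewrite 1 [this]
    abel
  rw [e2, det3_add_right, det3_smul_right, det3_smul_right, det3_self', mul_zero, zero_add] at k2
  have hb0 : b = 0 := by
    rcases mul_eq_zero.1 k2 with h3 | h3
    · exact h3
    · exact absurd h3 hpos.ne'
  rw [← hx', hb0, zero_smul, add_zero]
  have : a = 1 := by linarith
  rw [this, one_smul]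

/-- a linear functional constant on a polygon is a multiple of the normal -/
lemma IsPoly.const (h : IsPoly n m p) (hn : ‖n‖ = 1) {g : E3}
    (hg : ∀ k, ⟪g, p k⟫ = ⟪g, p 0⟫) : g = ⟪g, n⟫ • n := by
  have hpos := h.cvx 0 2 (by norm_num) (by have := h.three; omega)
  rw [zero_add] at hpos
  set u := p 1 - p 0 with hu
  set v := p 2 - p 0 with hv
  set g' : E3 := g - ⟪g, n⟫ • n with hg'
  have h1 : ⟪g', n⟫ = 0 := by
    rw [hg', inner_sub_left, real_inner_smul_left, real_inner_self_eq_norm_sq, hn]
    ring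
  have h2 : ∀ k, ⟪g', p k - p 0⟫ = 0 := by
    intro k
    rw [hg', inner_sub_left, real_inner_smul_left, h.orth, inner_sub_right, hg k]
    ring
  have h3 := congrArg (fun y => ⟪g', y⟫) (cramer n u v g')
  simp only [inner_add_right, real_inner_smul_right, h1] at h3
  rw [hu, hv, h2 1, h2 2, ← hu, ← hv] at h3
  have h4 : ⟪g', g'⟫ = 0 := by
    have : det3 n u v * ⟪g', g'⟫ = 0 := by linarith
    rcases mul_eq_zero.1 this with h5 | h5
    · exact absurd h5 hpos.ne'
    · exact h5
  have h5 : g' = 0 := inner_self_eq_zero.1 h4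
  exact sub_eq_zero.1 h5

/-- linear relation between three vectors of a plane -/
lemma plane_rel {a w x : E3} (hn : n ≠ 0) (ha : ⟪n, a⟫ = 0) (hw : ⟪n, w⟫ = 0) (hx : ⟪n, x⟫ = 0) :
    det3 n a w • x = det3 n x w • a + det3 n a x • w := by
  have h1 := cramer n a w x
  have h2 : det3 x a w = 0 := by
    have h3 := congrArg (fun y => ⟪n, y⟫) h1
    simp only [inner_add_right, real_inner_smul_right, ha, hw, hx, mul_zero, add_zero] at h3
    have h4 : ⟪n, n⟫ ≠ 0 := inner_self_ne_zero.2 hn
    rcases mul_eq_zero.1 h3.symm with h5 | h5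
    · exact h5
    · exact absurd h5 h4
  rw [h1, h2, zero_smul, zero_add]

/-- two vertices on which a linear functional that is not constant attains its maximum are
adjacent -/
lemma IsPoly.adj (h : IsPoly n m p) (hn : n ≠ 0) {g : E3} {i j : ℤ}
    (hmax : ∀ k, ⟪g, p k⟫ ≤ ⟪g, p i⟫) (hj : ⟪g, p j⟫ = ⟪g, p i⟫) (hne : p i ≠ p j)
    (hnc : ∃ k, ⟪g, p k⟫ ≠ ⟪g, p i⟫) :
    p j = p (i + 1) ∨ p j = p (i - 1) := by
  obtain ⟨r, h0, h1, h2, -⟩ := h.red i j
  by_contra hcon
  push_neg at hcon
  have r0 : r ≠ 0 := by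
    rintro rfl
    exact hne (by rw [h2, add_zero])
  have r1 : r ≠ 1 := by
    rintro rfl
    exact hcon.1 h2
  have r2 : r ≠ m - 1 := by
    rintro rfl
    apply hcon.2
    rw [h2, ← h.per (i - 1)]
    congr 1
    ring
  have t1 := h.triple (i := i) (j := i + 1) (k := i + r) (by omega) (by omega) (by omega)
  have t2 := h.triple (i := i) (j := i + r) (k := i + (m - 1)) (by omega) (by omega) (by omega)
  have hjr : ⟪g, p (i + r) - p i⟫ = 0 := by rw [inner_sub_right, ← h2, hj, sub_self]
  have ha : ⟪g, p (i + 1) - p i⟫ ≤ 0 := by rw [inner_sub_right]; linarith [hmax (i + 1)]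
  have hb : ⟪g, p (i + (m - 1)) - p i⟫ ≤ 0 := by
    rw [inner_sub_right]; linarith [hmax (i + (m - 1))]
  have h3 := congrArg (fun y => ⟪g, y⟫) (plane_rel (n := n) hn (h.orth (i + 1) i)
    (h.orth (i + r) i) (h.orth (i + (m - 1)) i))
  simp only [inner_add_right, real_inner_smul_right] at h3
  rw [hjr, mul_zero, add_zero] at h3
  have h4 : det3 n (p (i + (m - 1)) - p i) (p (i + r) - p i) < 0 := by
    have : det3 n (p (i + (m - 1)) - p i) (p (i + r) - p i) =
        - det3 n (p (i + r) - p i) (p (i + (m - 1)) - p i) := by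
      simp only [det3, sub_c]; ring
    rw [this]
    linarith
  have h5 : ⟪g, p (i + 1) - p i⟫ = 0 := by
    by_contra h6
    have h7 : ⟪g, p (i + 1) - p i⟫ < 0 := lt_of_le_of_ne ha h6
    nlinarith [mul_pos_of_neg_of_neg h4 h7, mul_nonneg t1.le (neg_nonneg.2 hb)]
  apply hnc.elim
  intro k hk
  apply hk
  have h6 := congrArg (fun y => ⟪g, y⟫) (plane_rel (n := n) hn (h.orth (i + 1) i)
    (h.orth (i + r) i) (h.orth k i))
  simp only [inner_add_right, real_inner_smul_right] at h6
  rw [hjr, h5, mul_zero, mul_zero, add_zero] at h6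
  rcases mul_eq_zero.1 h6 with h7 | h7
  · exact absurd h7 t1.ne'
  · rw [inner_sub_right] at h7
    linarith

/-- the next vertex is determined by the hull -/
lemma IsPoly.next (h : IsPoly n m p) (hn : n ≠ 0) {m' : ℕ} {p' : ℤ → E3} (h' : IsPoly n m' p')
    (he : convexHull ℝ (Set.range p) = convexHull ℝ (Set.range p')) {i j : ℤ}
    (hij : p' i = p j) : p' (i + 1) = p (j + 1) := by
  have hr : Set.range p = Set.range p' := by
    rw [← h.extreme hn, ← h'.extreme hn, he]
  have h1 : 0 ≤ det3 n (p (j + 1) - p j) (p' (i + 1) - p j) :=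
    (h.side j (by rw [he]; exact IsPoly.mem_hull (i + 1))).1
  have h2 : 0 ≤ det3 n (p' (i + 1) - p' i) (p (j + 1) - p' i) :=
    (h'.side i (by rw [← he]; exact IsPoly.mem_hull (j + 1))).1
  rw [hij] at h2
  have h3 : det3 n (p' (i + 1) - p j) (p (j + 1) - p j) =
      - det3 n (p (j + 1) - p j) (p' (i + 1) - p j) := by
    simp only [det3, sub_c]; ring
  rw [h3] at h2
  have h4 : det3 n (p (j + 1) - p j) (p' (i + 1) - p j) = 0 := by linarith
  obtain ⟨k, hk⟩ : p' (i + 1) ∈ Set.range p := by rw [hr]; exact ⟨_, rfl⟩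
  rw [← hk] at h4 ⊢
  rcases (h.side_vertex j k).2 h4 with h5 | h5
  · exfalso
    rw [h5, ← hij] at hk
    have := h'.ne_add i (r := 1) one_pos (by have := h'.three; omega)
    exact this hk.symm
  · exact h5

/-- polygons with the same normal and the same hull are equal up to a shift -/
lemma IsPoly.same (h : IsPoly n m p) (hn : n ≠ 0) {m' : ℕ} {p' : ℤ → E3} (h' : IsPoly n m' p')
    (he : convexHull ℝ (Set.range p) = convexHull ℝ (Set.range p')) :
    m = m' ∧ ∃ a : ℤ, ∀ i, p' i = p (i + a) := by
  have hr : Set.range p = Set.range p' := by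
    rw [← h.extreme hn, ← h'.extreme hn, he]
  obtain ⟨a, ha⟩ : p' 0 ∈ Set.range p := by rw [hr]; exact ⟨_, rfl⟩
  have fwd : ∀ t : ℕ, p' t = p (t + a) := by
    intro t
    induction t with
    | zero => simp [ha]
    | succ t ih =>
      have := h.next hn h' he ih
      push_cast
      rw [this]
      congr 1
      ring
  have hm : m = m' := by
    apply Nat.dvd_antisymm
    · have h1 := fwd m'
      have h2 : p' (m' : ℤ) = p' 0 := by
        have := h'.per 0
        rwa [zero_add] at this
      rw [h2, ← ha] at h1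
      have h3 := h.inj.1 h1
      rw [show (m' : ℤ) + a - a = m' by ring] at h3
      exact_mod_cast h3
    · have h1 := fwd m
      have h2 : p ((m : ℤ) + a) = p a := by
        rw [add_comm]; exact h.per a
      rw [h2, ha] at h1
      have h3 := h'.inj.1 h1.symm
      rw [sub_zero] at h3
      exact_mod_cast h3
  refine ⟨hm, a, fun i => ?_⟩
  subst hm
  have h1 := fwd (i + |i| * m).toNat
  have h2 : 0 ≤ i + |i| * m := by
    have h3 := h.three
    have h4 := neg_abs_le i
    have h5 : (1 : ℤ) ≤ m := by omega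
    nlinarith [abs_nonneg i]
  rw [Int.toNat_of_nonneg h2, h'.per_mul] at h1
  rw [h1, ← h.per_mul (i + a) |i|]
  congr 1
  ring

end Pool.Agent.Lib.MP_ba95e8_co
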