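import Pool.Agent.Lib.MP_ba95e8_co.Pack
import Pool.Agent.Lib.MP_ba95e8_co.TabCheck
import Pool.Agent.Lib.MP_ba95e8_co.Periodic

/-!
Deltahedral domes, task R1: the ring of corners at a labelled vertex.
-/

namespace Pool.Agent.Lib.MP_ba95e8_co
namespace Chk

variable {V : Type*} {M : Model V} {s : St} {lab : ℕ → V}

/-! ### auxiliary facts about corners -/

theorem ri_split {f : ℕ} : ∀ (ws rc : List ℕ) (w0 : ℕ), ws.length = rc.length →
    ∀ {v u w c : ℕ}, (v, u, w, c) ∈ corA f ws rc w0 →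
    ∃ A rA B rB : List ℕ, ws = A ++ v :: B ∧ rc = rA ++ c :: rB ∧ A.length = rA.length ∧
      B.length = rB.length ∧ u = hd f B ∧ w = A.getLast?.getD w0 := by
  intro ws
  induction ws with
  | nil => intro rc w0 _ v u w c h; simp [corA] at h
  | cons v0 rest ih =>
    intro rc w0 hlen v u w c h
    cases rc with
    | nil => simp at hlen
    | cons c0 rc' =>
      have hlen' : rest.length = rc'.length := by simpa using hlen
      simp only [corA, List.mem_cons] at h
      rcases h with h | h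
      · simp only [Prod.mk.injEq] at h
        obtain ⟨h1, h2, h3, h4⟩ := h
        refine ⟨[], [], rest, rc', ?_, ?_, rfl, hlen', h2, ?_⟩
        · rw [h1]; rfl
        · rw [h4]; rfl
        · rw [h3]; rfl
      · obtain ⟨A, rA, B, rB, e1, e2, e3, e4, e5, e6⟩ := ih rc' v0 hlen' h
        refine ⟨v0 :: A, c0 :: rA, B, rB, ?_, ?_, ?_, e4, e5, ?_⟩
        · rw [e1]; rfl
        · rw [e2]; rfl
        · simp [e3]
        · rw [List.getLast?_cons, e6]; rfl

theorem ri_mem_corA {f : ℕ} : ∀ (ws rc : List ℕ) (w0 : ℕ) {v : ℕ}, v ∈ ws →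
    ∃ u w c, (v, u, w, c) ∈ corA f ws rc w0 := by
  intro ws
  induction ws with
  | nil => intro rc w0 v h; simp at h
  | cons v0 rest ih =>
    intro rc w0 v h
    rcases List.mem_cons.1 h with h | h
    · refine ⟨hd f rest, w0, hd 0 rc, ?_⟩
      rw [h]
      simp [corA]
    · obtain ⟨u, w, c, h1⟩ := ih (tl rc) v0 h
      exact ⟨u, w, c, by simp only [corA, List.mem_cons]; exact Or.inr h1⟩

theorem ri_hd_mem {f : ℕ} {l : List ℕ} (h : l ≠ []) : hd f l ∈ l := by
  cases l with
  | nil => exact absurd rfl h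
  | cons a l => exact List.mem_cons_self

theorem ri_hd_cons (f a : ℕ) (l : List ℕ) : hd f (a :: l) = a := rfl

theorem ri_rot {l l' : List (V × ℕ)} (h : l ~r l') (hf : M.face l) : M.face l' := by
  obtain ⟨n, rfl⟩ := h
  induction n with
  | zero => simpa using hf
  | succ n ih =>
    rw [← List.rotate_rotate]
    cases hl : l.rotate n with
    | nil => rw [hl] at ih; simpa using ih
    | cons x t =>
      rw [hl] at ih
      have : (x :: t).rotate 1 = t ++ [x] := by simp
      rw [this]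
      exact M.rot x t ih

/-- the same with the whole face: it is a rotation of the list -/
theorem cors_rot {F : Fa} (hW : Wf F) {v u w c : ℕ} (hc : (v, u, w, c) ∈ cors F) :
    ∃ d e r, ((lab u, d) :: (lab v, c) :: (lab w, e) :: r) ~r fwd lab F := by
  obtain ⟨A, rA, B, rB, e1, e2, e3, e4, e5, e6⟩ := ri_split F.ws F.rc F.a hW.len.symm hc
  have hlast := hW.last
  have h3 := hW.three
  have hfwd : fwd lab F = ((B.map lab).zip rB).reverse ++ ((lab v, c) ::
      ((A.map lab).zip rA).reverse) := by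
    unfold fwd
    rw [e1, e2]
    rw [List.map_append, List.zip_append (by simp [e3])]
    simp
  rw [hfwd]
  rcases List.eq_nil_or_concat A with hA | ⟨A', w', hA⟩
  · -- A empty
    subst hA
    have hrA : rA = [] := List.eq_nil_of_length_eq_zero (by simpa using e3.symm)
    subst hrA
    cases B with
    | nil => rw [e1] at h3; simp at h3
    | cons b0 B' =>
      cases rB with
      | nil => simp at e4
      | cons d rB' =>
        have hu : u = b0 := e5
        rcases List.eq_nil_or_concat B' with hB | ⟨B'', w', hB⟩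
        · rw [e1, hB] at h3; simp at h3
        · rcases List.eq_nil_or_concat rB' with hrB | ⟨rB'', e, hrB⟩
          · rw [hB, hrB] at e4; simp at e4
          · have hlen : B''.length = rB''.length := by
              rw [hB, hrB] at e4; simpa using e4
            have hw : w = w' := by
              have e7 : F.ws = (v :: b0 :: B'') ++ [w'] := by
                rw [e1, hB]; simp
              rw [e7, List.getLast?_concat] at hlast
              rw [e6]
              exact (Option.some.inj hlast).symm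
            refine ⟨d, e, ((B''.map lab).zip rB'').reverse, ?_⟩
            rw [hB, hrB, hu, hw]
            simp only [List.map_cons, List.zip_cons_cons, List.concat_eq_append, List.map_append,
              List.map_nil, List.reverse_cons, List.zip_append (show (B''.map lab).length = rB''.length by simp [hlen]),
              List.zip_nil_right, List.reverse_append, List.reverse_nil, List.nil_append, List.cons_append,
              List.append_assoc]
            have := List.isRotated_append (l := (lab b0, d) :: [(lab v, c)])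
              (l' := (lab w', e) :: ((B''.map lab).zip rB'').reverse)
            simpa using this
  · subst hA
    rcases List.eq_nil_or_concat rA with hrA | ⟨rA', e, hrA⟩
    · rw [hrA] at e3; simp at e3
    have hlenA : A'.length = rA'.length := by rw [hrA] at e3; simpa using e3
    have hw : w = w' := by rw [e6]; simp
    have hzA : ((A'.concat w').map lab).zip rA = (A'.map lab).zip rA' ++ [(lab w', e)] := by
      rw [hrA]
      simp only [List.concat_eq_append, List.map_append, List.map_cons, List.map_nil]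
      rw [List.zip_append (by simp [hlenA])]
      simp
    rw [hzA, hw]
    cases B with
    | cons b0 B' =>
      cases rB with
      | nil => simp at e4
      | cons d rB' =>
        have hu : u = b0 := e5
        refine ⟨d, e, ((A'.map lab).zip rA').reverse ++ ((B'.map lab).zip rB').reverse, ?_⟩
        rw [hu]
        have := List.isRotated_append
          (l := (lab b0, d) :: (lab v, c) :: (lab w', e) :: ((A'.map lab).zip rA').reverse)
          (l' := ((B'.map lab).zip rB').reverse)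
        simpa using this
    | nil =>
      have hrB : rB = [] := List.eq_nil_of_length_eq_zero (by simpa using e4.symm)
      subst hrB
      cases A' with
      | nil => rw [e1] at h3; simp at h3
      | cons a0 A'' =>
        cases rA' with
        | nil => simp at hlenA
        | cons d rA'' =>
          have hu : u = a0 := by
            rw [e5, e1]
            rfl
          refine ⟨d, e, ((A''.map lab).zip rA'').reverse, ?_⟩
          rw [hu]
          have := List.isRotated_append (l := [(lab a0, d)])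
            (l' := (lab v, c) :: (lab w', e) :: ((A''.map lab).zip rA'').reverse)
          simpa using this

/-- a corner of a face that is a face of the model is a corner of the model -/
theorem cors_real {F : Fa} (hW : Wf F) (hf : M.face (fwd lab F)) {v u w c : ℕ}
    (hc : (v, u, w, c) ∈ cors F) :
    ∃ d e r, M.face ((lab u, d) :: (lab v, c) :: (lab w, e) :: r) := by
  obtain ⟨d, e, r, h⟩ := cors_rot (lab := lab) hW hc
  exact ⟨d, e, r, ri_rot h.symm hf⟩

theorem ri_lt (h : Sp s) {v u w c : ℕ} (hc : Cor s.fs v u w c) : v < s.n ∧ u < s.n ∧ w < s.n := by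
  obtain ⟨F, hF, hq⟩ := List.mem_flatMap.1 hc
  have hW := h.wf F hF
  obtain ⟨A, rA, B, rB, e1, e2, e3, e4, e5, e6⟩ := ri_split F.ws F.rc F.a hW.len.symm hq
  have hne : F.ws ≠ [] := by
    intro h0
    have := hW.three
    rw [h0] at this
    simp at this
  have haw : F.a ∈ F.ws := by
    have := List.mem_of_getLast? hW.last
    exact this
  have hv : v ∈ F.ws := by rw [e1]; simp
  have hu : u ∈ F.ws := by
    rw [e5]
    cases B with
    | nil => exact ri_hd_mem hne
    | cons b B' => rw [ri_hd_cons, e1]; simp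
  have hw : w ∈ F.ws := by
    rw [e6]
    cases hA : A.getLast? with
    | none => exact haw
    | some x =>
      have := List.mem_of_getLast? hA
      rw [e1]
      simp [this]
  exact ⟨h.lt F hF v hv, h.lt F hF u hu, h.lt F hF w hw⟩

theorem ri_cor_face (h : Good M s lab) {v u w c : ℕ} (hc : Cor s.fs v u w c) :
    ∃ d e r, M.face ((lab u, d) :: (lab v, c) :: (lab w, e) :: r) := by
  obtain ⟨F, hF, hq⟩ := List.mem_flatMap.1 hc
  exact cors_real (h.sp.wf F hF) (h.face F hF) hq

theorem ri_BPk3 {v : ℕ} (hv : 3 ≤ v) : BPk v = BPk 3 := by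
  unfold BPk
  rw [if_neg (by omega), if_neg (by omega), if_neg (by omega)]
  rfl

theorem ri_len (v : ℕ) : ∀ q ∈ BPk v, q.2.length = q.1.length ∧ 3 ≤ q.1.length ∧
    q.1.length ≤ 6 ∧ (∀ c ∈ q.1, c ≤ 2) ∧ (3 ≤ v → q.1.count 0 = 0) := by
  intro q hq
  rcases lt_or_ge v 3 with hv | hv
  · obtain ⟨h1, h2, h3, h4, h5, _⟩ := tab_len v (by omega) q hq
    exact ⟨h1, h2, h3, h4, fun h => by omega⟩
  · rw [ri_BPk3 hv] at hq
    obtain ⟨h1, h2, h3, h4, h5, _⟩ := tab_len 3 (by omega) q hq
    exact ⟨h1, h2, h3, h4, fun _ => by simpa using h5⟩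

/-- periodic functions -/
theorem ri_per {α : Type*} {k : ℕ} {f : ℤ → α} (hf : ∀ i, f (i + k) = f i) (i m : ℤ) :
    f (i + k * m) = f i := by
  induction m using Int.induction_on with
  | zero => simp
  | succ m ih =>
    have : i + (k : ℤ) * ((m : ℤ) + 1) = (i + k * m) + k := by ring
    rw [this, hf, ih]
  | pred m ih =>
    have : i + (k : ℤ) * (-(m : ℤ)) = (i + k * (-(m : ℤ) - 1)) + k := by ring
    rw [this, hf] at ih
    exact ih

theorem ri_per_dvd {α : Type*} {k : ℕ} {f : ℤ → α} (hf : ∀ i, f (i + k) = f i) {i j : ℤ}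
    (h : (k : ℤ) ∣ j - i) : f i = f j := by
  obtain ⟨m, hm⟩ := h
  have : j = i + k * m := by linarith
  rw [this, ri_per hf]

theorem ri_mat {B : List (List ℕ × List ℕ)} {k : ℕ} (hk : 0 < k) {C S : ℤ → ℕ}
    (hB : ∀ q ∈ B, q.2.length = q.1.length)
    (hC : ∀ i, C (i + k) = C i) (hS : ∀ i, S (i + k) = S i) {j : ℤ} (hm : Matches B k C S j)
    (i : ℤ) : ∃ q ∈ B, ∃ r < k, q.1.rotate r = (List.range k).map (fun t : ℕ => C (i + t)) ∧
      q.2.length = k ∧ ∀ t < k, ((q.2.rotate r).getD t 0).testBit (S (i + t)) = true := by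
  obtain ⟨q, hq, h1', h2⟩ := hm
  have h1 : q.1 = (List.range k).map (fun t : ℕ => C (j + t)) := by
    rw [h1']
    simp only [List.bind_eq_flatMap, List.pure_def]
    rw [← List.map_eq_flatMap, List.map_map]
    rfl
  have hl1 : q.1.length = k := by rw [h1]; simp
  have hl2 : q.2.length = k := by rw [hB q hq, hl1]
  have hkz : (0 : ℤ) < k := by exact_mod_cast hk
  set r : ℕ := ((i - j) % k).toNat with hr
  have hr0 : 0 ≤ (i - j) % (k : ℤ) := Int.emod_nonneg _ hkz.ne'
  have hr1 : (i - j) % (k : ℤ) < k := Int.emod_lt_of_pos _ hkz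
  have hrz : (r : ℤ) = (i - j) % k := Int.toNat_of_nonneg hr0
  have hrk : r < k := by omega
  have hdvd : ∀ t : ℕ, (k : ℤ) ∣ (i + t) - (j + (((t + r) % k : ℕ) : ℤ)) := by
    intro t
    have e1 : (((t + r) % k : ℕ) : ℤ) = ((t : ℤ) + r) % k := by push_cast; rfl
    rw [e1]
    have e2 : (k : ℤ) ∣ (t + r) - ((t : ℤ) + r) % k := Int.dvd_self_sub_emod
    have e3 : (k : ℤ) ∣ (i - j) - (i - j) % k := Int.dvd_self_sub_emod
    have e4 : (i + t) - (j + ((t : ℤ) + r) % k) =
        ((t + r) - ((t : ℤ) + r) % k) + ((i - j) - (i - j) % k) := by rw [hrz]; ring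
    rw [e4]
    exact dvd_add e2 e3
  refine ⟨q, hq, r, hrk, ?_, hl2, ?_⟩
  · apply List.ext_getElem
    · simp [hl1]
    · intro t ht1 ht2
      have ht : t < k := by simpa [hl1] using ht1
      have htr : (t + r) % k < k := Nat.mod_lt _ hk
      rw [List.getElem_rotate]
      simp only [hl1, List.getElem_map, List.getElem_range]
      have h3 : q.1[(t + r) % k]'(by rw [hl1]; exact htr) = C (j + (((t + r) % k : ℕ) : ℤ)) := by
        have := congrArg (fun l => l[(t + r) % k]?) h1
        simp only [List.getElem?_map, List.getElem?_range htr, Option.map_some] at this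
        rw [List.getElem?_eq_getElem (by rw [hl1]; exact htr)] at this
        exact Option.some.inj this
      rw [h3]
      exact ri_per_dvd hC (hdvd t)
  · intro t ht
    have htr : (t + r) % k < k := Nat.mod_lt _ hk
    have h3 := h2 ((t + r) % k) htr
    have h4 : (q.2.rotate r).getD t 0 = q.2.getD ((t + r) % k) 0 := by
      rw [List.getD_eq_getElem _ _ (by simp [hl2, ht]), List.getD_eq_getElem _ _ (by rw [hl2]; exact htr),
        List.getElem_rotate]
      simp only [hl2]
    rw [h4]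
    have h5 : S (i + t) = S (j + (((t + r) % k : ℕ) : ℤ)) := (ri_per_dvd hS (hdvd t)).symm
    rw [h5]
    exact h3

theorem Good.ring (h : Good M s lab) {v : ℕ} (hv : v < s.n) : ∃ k U C, RingAt M lab v k U C := by
  obtain ⟨F, hF, hvF⟩ := h.used v hv
  obtain ⟨u, w, c, hc⟩ := ri_mem_corA (f := hd 0 F.ws) F.ws F.rc F.a hvF
  obtain ⟨d, e, r, hf⟩ := cors_real (h.sp.wf F hF) (h.face F hF) hc
  obtain ⟨k, U, C, hk3, hU, hC, hinj, hreal, hcov, m0, m1, m2, m3⟩ := M.ring _ _ _ _ _ _ _ hf
  have hS : ∀ i : ℤ, M.cl (lab v) (U (i + k)) = M.cl (lab v) (U i) := fun i => by rw [hU]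
  have hmat : ∃ j, Matches (BPk v) k C (fun i => M.cl (lab v) (U i)) j := by
    have hn3 := h.n3
    unfold BPk
    split_ifs with h0 h1 h2
    · apply m0; rw [h0, h.b0]
    · apply m1; rw [h1, h.b1]
    · apply m2; rw [h2, h.b2]
    · apply m3
      · rw [← h.b0]; exact fun hh => h0 (h.inj v hv 0 (by omega) hh)
      · rw [← h.b1]; exact fun hh => h1 (h.inj v hv 1 (by omega) hh)
      · rw [← h.b2]; exact fun hh => h2 (h.inj v hv 2 (by omega) hh)
  obtain ⟨j, hj⟩ := hmat
  have hlen := ri_len v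
  have hk0 : 0 < k := by omega
  refine ⟨k, U, C, hk3, ?_, hU, hC, hinj, hreal, hcov, ?_⟩
  · obtain ⟨q, hq, h1, -⟩ := hj
    have := (hlen q hq).2.2.1
    rw [h1] at this
    simpa using this
  · intro i
    exact ri_mat hk0 (fun q hq => (hlen q hq).1) hC hS hj i

variable {v k : ℕ} {U : ℤ → V} {C : ℤ → ℕ}

theorem Good.cor_ring (h : Good M s lab) (hR : RingAt M lab v k U C) {u w c : ℕ}
    (hc : Cor s.fs v u w c) : ∃ i, lab u = U i ∧ lab w = U (i + 1) ∧ c = C i := by
  obtain ⟨d, e, r, hf⟩ := ri_cor_face h hc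
  exact hR.cover _ _ _ _ _ _ hf

/-- the labels of a placed position -/
theorem Good.pl_cor (h : Good M s lab) (hR : RingAt M lab v k U C) {i : ℤ} (hi : PlI s lab v U i) :
    ∃ u w, u < s.n ∧ w < s.n ∧ Cor s.fs v u w (C i) ∧ lab u = U i ∧ lab w = U (i + 1) := by
  obtain ⟨u, w, c, hc, hu⟩ := hi
  obtain ⟨j, h1, h2, h3⟩ := h.cor_ring hR hc
  obtain ⟨-, hun, hwn⟩ := ri_lt h.sp hc
  have hd : (k : ℤ) ∣ i - j := hR.inj j i (h1.symm.trans hu)
  have hd' : (k : ℤ) ∣ (i + 1) - (j + 1) := by
    have : (i + 1) - (j + 1) = i - j := by ring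
    rw [this]; exact hd
  refine ⟨u, w, hun, hwn, ?_, hu, ?_⟩
  · rw [← ri_per_dvd hR.perC hd, ← h3]; exact hc
  · rw [h2]; exact ri_per_dvd hR.perU hd'

theorem Good.pl_iff (h : Good M s lab) (hR : RingAt M lab v k U C) {i : ℤ} {u : ℕ} (hu : u < s.n)
    (hi : lab u = U i) : PlI s lab v U i ↔ InD s.fs v u := by
  constructor
  · intro hp
    obtain ⟨u', w', hu', hw', hc, h1, h2⟩ := h.pl_cor hR hp
    have : u' = u := h.inj u' hu' u hu (h1.trans hi.symm)
    rw [this] at hc
    exact ⟨_, _, hc⟩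
  · rintro ⟨w, c, hc⟩
    exact ⟨u, w, c, hc, hi⟩

theorem Good.pl_iff' (h : Good M s lab) (hR : RingAt M lab v k U C) {i : ℤ} {w : ℕ} (hw : w < s.n)
    (hi : lab w = U (i + 1)) : PlI s lab v U i ↔ OutD s.fs v w := by
  constructor
  · intro hp
    obtain ⟨u', w', hu', hw', hc, h1, h2⟩ := h.pl_cor hR hp
    have : w' = w := h.inj w' hw' w hw (h2.trans hi.symm)
    rw [this] at hc
    exact ⟨_, _, hc⟩
  · rintro ⟨u, c, hc⟩
    obtain ⟨j, h1, h2, h3⟩ := h.cor_ring hR hc
    have hd : (k : ℤ) ∣ (i + 1) - (j + 1) := hR.inj _ _ (h2.symm.trans hi)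
    have hd' : (k : ℤ) ∣ i - j := by
      have : i - j = (i + 1) - (j + 1) := by ring
      rw [this]; exact hd
    exact ⟨u, w, c, hc, by rw [h1]; exact ri_per_dvd hR.perU hd'⟩

theorem ri_pl_per (hR : RingAt M lab v k U C) (i : ℤ) :
    PlI s lab v U (i + k) ↔ PlI s lab v U i := by
  unfold PlI
  rw [hR.perU]

theorem ri_mod {k : ℕ} (hk : 0 < k) (i : ℤ) : ∃ j < k, (k : ℤ) ∣ i - (j : ℤ) := by
  have hkz : (0 : ℤ) < k := by exact_mod_cast hk
  have hr0 : 0 ≤ i % (k : ℤ) := Int.emod_nonneg _ hkz.ne'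
  have hr1 : i % (k : ℤ) < k := Int.emod_lt_of_pos _ hkz
  refine ⟨(i % k).toNat, by omega, ?_⟩
  rw [Int.toNat_of_nonneg hr0]
  exact Int.dvd_self_sub_emod

theorem ri_mod_uniq {k i j : ℕ} (hi : i < k) (hj : j < k) (h : (k : ℤ) ∣ (j : ℤ) - i) : i = j := by
  have : (j : ℤ) - i = 0 := by
    apply Int.eq_zero_of_abs_lt_dvd h
    rw [abs_lt]
    constructor <;> omega
  omega

theorem ri_pc_eq {k : ℕ} {P : ℤ → Prop} [DecidablePred (fun i : ℕ => P i)] :
    pc k P = ((Finset.range k).filter (fun i : ℕ => P i)).card := by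
  unfold pc
  congr

theorem Good.nC_eq (h : Good M s lab) (hR : RingAt M lab v k U C) (c : ℕ) :
    nC s.fs v c = pc k (fun i => PlI s lab v U i ∧ C i = c) := by
  classical
  have hk0 : 0 < k := by have := hR.k3; omega
  have hnd : (allC s.fs).Nodup := List.Nodup.of_map _ h.sp.nd
  have hinj : ∀ q ∈ allC s.fs, ∀ q' ∈ allC s.fs, (q.1, q.2.1) = (q'.1, q'.2.1) → q = q' := by
    intro q hq q' hq' he
    exact List.inj_on_of_nodup_map h.sp.nd hq hq' he
  have e1 : nC s.fs v c = ((allC s.fs).toFinset.filter (fun q => q.1 = v ∧ q.2.2.2 = c)).card := by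
    unfold nC
    rw [List.countP_eq_length_filter, ← List.toFinset_card_of_nodup (hnd.filter _)]
    congr 1
    ext q
    simp
  rw [e1, ri_pc_eq]
  -- the position of a corner
  have hpos : ∀ q : ℕ × ℕ × ℕ × ℕ, ∃ i < k, q ∈ allC s.fs → q.1 = v → lab q.2.1 = U i ∧ q.2.2.2 = C i := by
    intro q
    by_cases hq : q ∈ allC s.fs ∧ q.1 = v
    · obtain ⟨v', u', w', c'⟩ := q
      obtain ⟨hq1, hq2⟩ := hq
      have hv' : v' = v := hq2
      subst hv'
      obtain ⟨i, h1, h2, h3⟩ := h.cor_ring hR hq1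
      obtain ⟨j, hj, hd⟩ := ri_mod hk0 i
      refine ⟨j, hj, fun _ _ => ⟨?_, ?_⟩⟩
      · show lab u' = U j
        rw [h1]; exact (ri_per_dvd hR.perU hd).symm
      · show c' = C j
        rw [h3]; exact (ri_per_dvd hR.perC hd).symm
    · exact ⟨0, hk0, fun h1 h2 => absurd ⟨h1, h2⟩ hq⟩
  choose pos hpos1 hpos2 using hpos
  refine Finset.card_bij (fun q _ => pos q) ?_ ?_ ?_
  · intro q hq
    rw [Finset.mem_filter, List.mem_toFinset] at hq
    obtain ⟨hq1, hq2, hq3⟩ := hq
    obtain ⟨h1, h2⟩ := hpos2 q hq1 hq2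
    refine Finset.mem_filter.2 ⟨Finset.mem_range.2 (hpos1 q), ?_, ?_⟩
    · refine ⟨q.2.1, q.2.2.1, q.2.2.2, ?_, h1⟩
      show (v, q.2.1, q.2.2.1, q.2.2.2) ∈ allC s.fs
      rw [← hq2]; exact hq1
    · rw [← h2]; exact hq3
  · intro q hq q' hq' he
    rw [Finset.mem_filter, List.mem_toFinset] at hq hq'
    obtain ⟨hq1, hq2, hq3⟩ := hq
    obtain ⟨hq1', hq2', hq3'⟩ := hq'
    obtain ⟨h1, -⟩ := hpos2 q hq1 hq2
    obtain ⟨h1', -⟩ := hpos2 q' hq1' hq2'
    have he' : pos q = pos q' := he
    rw [he', ← h1'] at h1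
    apply hinj q hq1 q' hq1'
    have hl : q.2.1 < s.n := (ri_lt h.sp (show Cor s.fs q.1 q.2.1 q.2.2.1 q.2.2.2 from hq1)).2.1
    have hl' : q'.2.1 < s.n := (ri_lt h.sp (show Cor s.fs q'.1 q'.2.1 q'.2.2.1 q'.2.2.2 from hq1')).2.1
    rw [h.inj _ hl _ hl' h1, hq2, hq2']
  · intro i hi
    obtain ⟨hik', hpl, hci⟩ := Finset.mem_filter.1 hi
    have hik := Finset.mem_range.1 hik'
    obtain ⟨u, w, hu, hw, hc, h1, h2⟩ := h.pl_cor hR hpl
    refine ⟨(v, u, w, C i), ?_, ?_⟩
    · rw [Finset.mem_filter, List.mem_toFinset]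
      exact ⟨hc, rfl, hci⟩
    · obtain ⟨h3, -⟩ := hpos2 (v, u, w, C i) hc rfl
      have h4 : U (pos (v, u, w, C i)) = U i := by rw [← h3]; exact h1
      exact ri_mod_uniq (hpos1 _) hik (hR.inj _ _ h4)

theorem Good.nE_eq (h : Good M s lab) (hR : RingAt M lab v k U C) : nE s.fs v = pe k (PlI s lab v U) := by
  classical
  have hk0 : 0 < k := by have := hR.k3; omega
  unfold nE pe
  rw [ri_pc_eq]
  have hpos : ∀ w : ℕ, ∃ i < k, OutD s.fs v w → w < s.n ∧ lab w = U i := by
    intro w
    by_cases hw : OutD s.fs v w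
    · obtain ⟨u, c, hc⟩ := hw
      obtain ⟨i, h1, h2, h3⟩ := h.cor_ring hR hc
      obtain ⟨j, hj, hd⟩ := ri_mod hk0 (i + 1)
      refine ⟨j, hj, fun _ => ⟨(ri_lt h.sp hc).2.2, ?_⟩⟩
      rw [h2]; exact (ri_per_dvd hR.perU hd).symm
    · exact ⟨0, hk0, fun h1 => absurd h1 hw⟩
  choose pos hpos1 hpos2 using hpos
  refine Finset.card_bij (fun w _ => pos w) ?_ ?_ ?_
  · intro w hw
    obtain ⟨-, hO, hI⟩ := Finset.mem_filter.1 hw
    obtain ⟨hwn, hl⟩ := hpos2 w hO
    refine Finset.mem_filter.2 ⟨Finset.mem_range.2 (hpos1 w), ?_, ?_⟩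
    · rw [h.pl_iff' hR hwn (by rw [sub_add_cancel]; exact hl)]
      exact hO
    · rw [h.pl_iff hR hwn hl]
      exact hI
  · intro w hw w' hw' he
    obtain ⟨hwn, hl⟩ := hpos2 w (Finset.mem_filter.1 hw).2.1
    obtain ⟨hwn', hl'⟩ := hpos2 w' (Finset.mem_filter.1 hw').2.1
    have he' : pos w = pos w' := he
    rw [he', ← hl'] at hl
    exact h.inj _ hwn _ hwn' hl
  · intro i hi
    obtain ⟨hik', hP, hnP⟩ := Finset.mem_filter.1 hi
    have hik := Finset.mem_range.1 hik'
    obtain ⟨u, w, hu, hw, hc, h1, h2⟩ := h.pl_cor hR hP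
    rw [sub_add_cancel] at h2
    have hO : OutD s.fs v w := ⟨_, _, hc⟩
    have hI : ¬ InD s.fs v w := fun hI => hnP ((h.pl_iff hR hw h2).2 hI)
    refine ⟨w, ?_, ?_⟩
    · have := h.sp.n16
      exact Finset.mem_filter.2 ⟨Finset.mem_range.2 (by omega), hO, hI⟩
    · obtain ⟨-, h3⟩ := hpos2 w hO
      have h4 : U (pos w) = U i := by rw [← h3]; exact h2
      exact ri_mod_uniq (hpos1 _) hik (hR.inj _ _ h4)

theorem RingAt.code_le (hR : RingAt M lab v k U C) (i : ℤ) : C i ≤ 2 := by
  obtain ⟨q, hq, r, hr, h1, -, -⟩ := hR.mat i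
  have hk0 : 0 < k := by have := hR.k3; omega
  have h2 : C i ∈ q.1.rotate r := by
    rw [h1, List.mem_map]
    exact ⟨0, List.mem_range.2 hk0, by simp⟩
  rw [List.mem_rotate] at h2
  exact (ri_len v q hq).2.2.2.1 _ h2

theorem ri_FT : ∀ l ∈ FT, (0 : ℕ) ∉ l := by decide

/-- a corner of code 0 is a corner of the base, which is placed -/
theorem Good.pl_zero (h : Good M s lab) (hR : RingAt M lab v k U C) {i : ℤ} (hi : C i = 0) :
    PlI s lab v U i := by
  have hk0 : 0 < k := by have := hR.k3; omega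
  -- v is a base vertex
  have hv3 : v < 3 := by
    by_contra hcon
    obtain ⟨q, hq, r, hr, h1, -, -⟩ := hR.mat i
    have h2 : C i ∈ q.1.rotate r := by
      rw [h1, List.mem_map]
      exact ⟨0, List.mem_range.2 hk0, by simp⟩
    rw [List.mem_rotate, hi] at h2
    have h3 := (ri_len v q hq).2.2.2.2 (by omega)
    rw [List.count_eq_zero] at h3
    exact h3 h2
  obtain ⟨d, e, r, hf⟩ := hR.real i
  rw [hi] at hf
  have hcodes : ((U i, d) :: (lab v, 0) :: (U (i + 1), e) :: r).map Prod.snd = [0, 0, 0] := by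
    rcases M.codes _ hf with h1 | h1
    · exfalso
      apply ri_FT _ h1
      simp
    · exact h1
  have hrot := M.base_uniq _ hf hcodes
  simp only [List.map_cons, List.cons.injEq] at hcodes
  obtain ⟨hd0, -, he0, hr0⟩ := hcodes
  have hr' : r = [] := List.map_eq_nil_iff.1 hr0
  subst hr'
  subst hd0
  subst he0
  obtain ⟨b01, b12, b02⟩ := M.bne
  have hcase : (U i = M.b 2 ∧ lab v = M.b 1) ∨ (U i = M.b 1 ∧ lab v = M.b 0) ∨
      (U i = M.b 0 ∧ lab v = M.b 2) := by
    obtain ⟨m, hm⟩ := hrot.symm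
    have hm3 : ([(M.b 2, 0), (M.b 1, 0), (M.b 0, 0)] : List (V × ℕ)).rotate (m % 3) =
        [(U i, 0), (lab v, 0), (U (i + 1), 0)] := by
      rw [← hm]
      exact List.rotate_mod _ _
    have hlt : m % 3 < 3 := Nat.mod_lt _ (by norm_num)
    generalize m % 3 = m' at hm3 hlt
    interval_cases m'
    · simp at hm3
      exact Or.inl ⟨hm3.1.symm, hm3.2.1.symm⟩
    · simp at hm3
      exact Or.inr (Or.inl ⟨hm3.1.symm, hm3.2.1.symm⟩)
    · simp [List.rotate_cons_succ] at hm3
      exact Or.inr (Or.inr ⟨hm3.1.symm, hm3.2.1.symm⟩)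
  have hc0 : Cor s.fs 0 1 2 0 := List.mem_flatMap.2 ⟨baseF, h.base, by
    simp [cors, baseF, corA, hd, tl]⟩
  have hc1 : Cor s.fs 1 2 0 0 := List.mem_flatMap.2 ⟨baseF, h.base, by
    simp [cors, baseF, corA, hd, tl]⟩
  have hc2 : Cor s.fs 2 0 1 0 := List.mem_flatMap.2 ⟨baseF, h.base, by
    simp [cors, baseF, corA, hd, tl]⟩
  have hb0 := h.b0
  have hb1 := h.b1
  have hb2 := h.b2
  interval_cases v
  · rcases hcase with ⟨h1, h2⟩ | ⟨h1, h2⟩ | ⟨h1, h2⟩
    · exact absurd (hb0.symm.trans h2) b01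
    · exact ⟨1, 2, 0, hc0, by rw [hb1, h1]⟩
    · exact absurd (hb0.symm.trans h2) b02
  · rcases hcase with ⟨h1, h2⟩ | ⟨h1, h2⟩ | ⟨h1, h2⟩
    · exact ⟨2, 0, 0, hc1, by rw [hb2, h1]⟩
    · exact absurd (hb1.symm.trans h2).symm b01
    · exact absurd (hb1.symm.trans h2) b12
  · rcases hcase with ⟨h1, h2⟩ | ⟨h1, h2⟩ | ⟨h1, h2⟩
    · exact absurd (hb2.symm.trans h2).symm b12
    · exact absurd (hb2.symm.trans h2).symm b02
    · exact ⟨0, 1, 0, hc2, by rw [hb0, h1]⟩

/-- a pattern that matches has the right counts -/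
theorem RingAt.count_eq (hR : RingAt M lab v k U C) {q : List ℕ × List ℕ} {r : ℕ} {i : ℤ}
    (hq : q.1.rotate r = (List.range k).map (fun t : ℕ => C (i + t))) (c : ℕ) :
    q.1.count c = pc k (fun i => C i = c) := by
  classical
  have e1 : q.1.count c = (q.1.rotate r).count c :=
    ((List.rotate_perm q.1 r).count_eq c).symm
  have e2 : pc k (fun i => C i = c) = pc k (fun t => C (t + i) = c) :=
    (pc_shift (P := fun i => C i = c) (fun j => by rw [hR.perC]) i).symm
  rw [e1, hq, e2]
  unfold pc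
  rw [List.count, List.countP_map, List.countP_eq_length_filter]
  rw [← List.toFinset_card_of_nodup ((List.nodup_range).filter _)]
  congr 1
  ext t
  simp only [List.mem_toFinset, List.mem_filter, List.mem_range, Function.comp_apply,
    beq_iff_eq, Finset.mem_filter, Finset.mem_range]
  rw [add_comm i (t : ℤ)]

end Chk
end Pool.Agent.Lib.MP_ba95e8_co
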