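import Pool.Agent.Lib.MP_ba95e8_co.FeasInv

/-!
Deltahedral domes, task W2: matching the entries.
-/

namespace Pool.Agent.Lib.MP_ba95e8_co
namespace Chk

variable {V : Type*} {M : Model V} {s : St} {lab : ℕ → V}

theorem w2_dg_land (a b i : ℕ) : dg (a &&& b) i = dg a i &&& dg b i := by
  refine Nat.eq_of_testBit_eq fun j => ?_
  rw [Nat.testBit_and, dg_testBit, dg_testBit, dg_testBit, Nat.testBit_and]
  cases decide (j < 8) <;> simp

theorem w2_dg_ge {a i : ℕ} (ha : a < 2 ^ 48) (hi : 6 ≤ i) : dg a i = 0 := by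
  unfold dg
  have h1 : (2 : ℕ) ^ 48 ≤ 2 ^ (8 * i) := Nat.pow_le_pow_right (by norm_num) (by omega)
  rw [Nat.div_eq_of_lt (ha.trans_le h1)]

/-- adding 127 to every byte -/
theorem w2_dg_add {I : ℕ} (_hI : I < 2 ^ 48) (h : ∀ t < 6, dg I t < 32) {t : ℕ} (ht : t < 6) :
    dg (I + 0x7f7f7f7f7f7f) t = dg I t + 127 := by
  have h0 := h 0 (by norm_num)
  have h1 := h 1 (by norm_num)
  have h2 := h 2 (by norm_num)
  have h3 := h 3 (by norm_num)
  have h4 := h 4 (by norm_num)
  have h5 := h 5 (by norm_num)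
  unfold dg at h0 h1 h2 h3 h4 h5 ⊢
  norm_num at h0 h1 h2 h3 h4 h5 ⊢
  interval_cases t <;> norm_num <;> omega

theorem w2_dg_sub {F : ℕ} (hF : F < 2 ^ 48) (h : ∀ t < 6, dg F t < 32) {t : ℕ} (ht : t < 6) :
    dg (Nat.sub 0x1f1f1f1f1f1f F) t = 31 - dg F t := by
  have h0 := h 0 (by norm_num)
  have h1 := h 1 (by norm_num)
  have h2 := h 2 (by norm_num)
  have h3 := h 3 (by norm_num)
  have h4 := h 4 (by norm_num)
  have h5 := h 5 (by norm_num)
  show dg (0x1f1f1f1f1f1f - F) t = 31 - dg F t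
  unfold dg at h0 h1 h2 h3 h4 h5 ⊢
  norm_num at h0 h1 h2 h3 h4 h5 hF ⊢
  interval_cases t <;> norm_num <;> omega

theorem w2_byte : ∀ b < 32, 1 ≤ b → (b + 127) &&& 128 = 128 := by decide

theorem w2_compl : ∀ f < 32, ∀ q < 5, f.testBit q = false → (31 - f).testBit q = true := by decide

theorem w2_compl' : ∀ f < 32, ∀ q < 5, f.testBit q = true → (31 - f).testBit q = false := by decide

/-- the test -/
theorem w2_test {I : ℕ} (hI : I < 2 ^ 48) (h : ∀ t < 6, dg I t < 32) (h' : ∀ t < 6, 1 ≤ dg I t) :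
    Nat.beq (Nat.land (Nat.add I 0x7f7f7f7f7f7f) 0x808080808080) 0x808080808080 = true := by
  rw [Nat.beq_eq]
  show (I + 0x7f7f7f7f7f7f) &&& 0x808080808080 = 0x808080808080
  refine dg_ext fun i => ?_
  rw [w2_dg_land]
  rcases lt_or_ge i 6 with hi | hi
  · rw [w2_dg_add hI h hi]
    have h1 : dg 0x808080808080 i = 128 := by
      unfold dg
      interval_cases i <;> norm_num
    rw [h1]
    exact w2_byte _ (h i hi) (h' i hi)
  · have h1 : dg 0x808080808080 i = 0 := w2_dg_ge (by norm_num) hi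
    rw [h1, Nat.and_zero]

theorem w2_cur (h : Good M s lab) {v ty : ℕ} {l : List ℕ} {F : ℕ} {es : List ℕ}
    (hc : ChainOK M lab s v ty l F es) (t : ℕ) (ht : t < 6) :
    dg (Nat.sub 0x1f1f1f1f1f1f F) t < 32 ∧
      (t < es.length → (dg (Nat.sub 0x1f1f1f1f1f1f F) t).testBit
        (M.cl (lab v) (lab (es.reverse.getD t 0))) = true) ∧
      (es.length ≤ t → dg (Nat.sub 0x1f1f1f1f1f1f F) t = 31) := by
  have hmem : ∀ t < es.length, es.reverse.getD t 0 < s.n := by
    intro t ht
    have h1 : t < es.reverse.length := by rw [List.length_reverse]; exact ht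
    rw [List.getD_eq_getElem _ _ h1]
    exact hc.lt _ (List.mem_reverse.mp (List.getElem_mem h1))
  have hn16 := h.sp.n16
  have hF : ∀ t < 6, dg F t < 32 := by
    intro t ht
    rw [hc.Fdg t ht]
    split_ifs with h1
    · exact (h.ms v _ ((hmem t h1).trans_le hn16)).1
    · norm_num
  rw [w2_dg_sub hc.F48 hF ht]
  refine ⟨by omega, fun h1 => ?_, fun h1 => ?_⟩
  · have h2 := h.ms v _ ((hmem t h1).trans_le hn16)
    have h3 := hc.Fdg t ht
    rw [if_pos h1] at h3
    rw [← h3] at h2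
    have hcl := M.cl_lt (lab v) (lab (es.reverse.getD t 0))
    set q := M.cl (lab v) (lab (es.reverse.getD t 0)) with hq
    rcases h2 with ⟨h4, h5 | ⟨-, -, h5⟩⟩
    · rw [h5]
      exact w2_compl 0 (by norm_num) q hcl (Nat.zero_testBit _)
    · exact w2_compl _ h4 q hcl h5
  · have h3 := hc.Fdg t ht
    rw [if_neg (by omega)] at h3
    rw [h3]

/-- the good entry -/
theorem w2_entry (h : Good M s lab) {v ty : ℕ} {l : List ℕ} {F : ℕ} {es : List ℕ}
    (hc : ChainOK M lab s v ty l F es) : ∃ e ∈ l, Nat.land ty e ≠ 0 ∧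
      Nat.beq (Nat.land (Nat.add (Nat.land (Nat.shiftRight e 9) (Nat.sub 0x1f1f1f1f1f1f F))
        0x7f7f7f7f7f7f) 0x808080808080) 0x808080808080 = true ∧
      ∀ t < 6, t < es.length → (dg (Nat.land (Nat.shiftRight e 9) (Nat.sub 0x1f1f1f1f1f1f F))
        t).testBit (M.cl (lab v) (lab (es.reverse.getD t 0))) = true := by
  obtain ⟨e, he, hty, hent⟩ := hc.ent
  have hbyte : ∀ t, dg (Nat.land (Nat.shiftRight e 9) (Nat.sub 0x1f1f1f1f1f1f F)) t =
      dg (e >>> 9) t &&& dg (Nat.sub 0x1f1f1f1f1f1f F) t := fun t => w2_dg_land _ _ _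
  have hbit : ∀ t < 6, t < es.length → (dg (Nat.land (Nat.shiftRight e 9)
      (Nat.sub 0x1f1f1f1f1f1f F)) t).testBit (M.cl (lab v) (lab (es.reverse.getD t 0))) = true := by
    intro t ht ht'
    rw [hbyte, Nat.testBit_and, (hent t ht).1 ht', (w2_cur h hc t ht).2.1 ht']
    rfl
  refine ⟨e, he, hty, w2_test ?_ ?_ ?_, hbit⟩
  · have h1 : Nat.land (Nat.shiftRight e 9) (Nat.sub 0x1f1f1f1f1f1f F) ≤
        Nat.sub 0x1f1f1f1f1f1f F := Nat.and_le_right
    have h2 : Nat.sub 0x1f1f1f1f1f1f F ≤ 0x1f1f1f1f1f1f := Nat.sub_le _ _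
    omega
  · intro t ht
    rw [hbyte]
    exact Nat.and_le_right.trans_lt (w2_cur h hc t ht).1
  · intro t ht
    rcases lt_or_ge t es.length with h1 | h1
    · rw [Nat.one_le_iff_ne_zero]
      intro h0
      have h2 := hbit t ht h1
      rw [h0, Nat.zero_testBit] at h2
      exact absurd h2 (by decide)
    · rw [hbyte, (hent t ht).2 h1, (w2_cur h hc t ht).2.2 h1]
      decide

/-- `scan1` with variable constants -/
noncomputable def w2_scan1g (K L : @& ℕ) (I r : ℕ) : ℕ :=
  ifb (Nat.beq (Nat.land (Nat.add I K) L) L) (Nat.lor r I) r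

theorem w2_scan1g_eq (K L I r : ℕ) : w2_scan1g K L I r =
    if Nat.beq (Nat.land (Nat.add I K) L) L = true then Nat.lor r I else r := by
  unfold w2_scan1g
  exact ifb_eq _ _ _

theorem w2_scan1g_or (K L I r : ℕ) : w2_scan1g K L I r = Nat.lor r I ∨ w2_scan1g K L I r = r := by
  rw [w2_scan1g_eq]
  split_ifs
  · exact Or.inl rfl
  · exact Or.inr rfl

theorem w2_scan1g_pos {K L I : ℕ} (h : Nat.beq (Nat.land (Nat.add I K) L) L = true) (r : ℕ) :
    w2_scan1g K L I r = Nat.lor r I := by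
  rw [w2_scan1g_eq, if_pos h]

theorem w2_scan1_eq (I r : ℕ) : scan1 I r = w2_scan1g 0x7f7f7f7f7f7f 0x808080808080 I r := rfl

/-- `anyM` with variable constants -/
noncomputable def w2_anyMg (K L : @& ℕ) (ty cur : ℕ) (l : List ℕ) : Bool :=
  List.rec (motive := fun _ => Bool) false
    (fun e _ r => ifb (Nat.beq (Nat.land ty e) 0) r
      (ifb (Nat.beq (Nat.land (Nat.add (Nat.land (Nat.shiftRight e 9) cur) K) L) L) true r)) l

theorem w2_anyM_eq (ty cur : ℕ) (l : List ℕ) :
    anyM ty cur l = w2_anyMg 0x7f7f7f7f7f7f 0x808080808080 ty cur l := rfl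

theorem w2_anyMg_cons (K L ty cur a : ℕ) (l : List ℕ) : w2_anyMg K L ty cur (a :: l) =
    ifb (Nat.beq (Nat.land ty a) 0) (w2_anyMg K L ty cur l)
      (ifb (Nat.beq (Nat.land (Nat.add (Nat.land (Nat.shiftRight a 9) cur) K) L) L) true
        (w2_anyMg K L ty cur l)) := rfl

theorem w2_anyMg_true {K L ty cur e : ℕ} {l : List ℕ} (he : e ∈ l) (hty : Nat.land ty e ≠ 0)
    (ht : Nat.beq (Nat.land (Nat.add (Nat.land (Nat.shiftRight e 9) cur) K) L) L = true) :
    w2_anyMg K L ty cur l = true := by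
  induction l with
  | nil => exact absurd he List.not_mem_nil
  | cons a l ih =>
    rw [w2_anyMg_cons, ifb_eq, ifb_eq]
    rcases List.mem_cons.mp he with rfl | he'
    · have h1 : ¬ Nat.beq (Nat.land ty e) 0 = true := fun h2 => hty (Nat.eq_of_beq_eq_true h2)
      rw [if_neg h1, if_pos ht]
    · rw [ih he']
      split_ifs <;> rfl

theorem anyM_spec (h : Good M s lab) {v ty : ℕ} {l : List ℕ} {F : ℕ} {es : List ℕ}
    (hc : ChainOK M lab s v ty l F es) : anyM ty (Nat.sub 0x1f1f1f1f1f1f F) l = true := by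
  obtain ⟨e, he, hty, htest, -⟩ := w2_entry h hc
  rw [w2_anyM_eq]
  exact w2_anyMg_true he hty htest

theorem w2_scan_cons (ty cur a : ℕ) (l : List ℕ) : scan ty cur (a :: l) =
    ifb (Nat.beq (Nat.land ty a) 0) (scan ty cur l)
      (scan1 (Nat.land (Nat.shiftRight a 9) cur) (scan ty cur l)) := rfl

/-- the result of the scan is a union of matches -/
theorem w2_scan_sub (ty cur : ℕ) (l : List ℕ) (i : ℕ) (hi : (scan ty cur l).testBit i = true) :
    cur.testBit i = true := by
  induction l with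
  | nil =>
    have h1 : scan ty cur [] = 0 := rfl
    rw [h1, Nat.zero_testBit] at hi
    exact absurd hi (by decide)
  | cons a l ih =>
    rw [w2_scan_cons, ifb_eq, w2_scan1_eq] at hi
    split_ifs at hi with h1
    · exact ih hi
    · rcases w2_scan1g_or 0x7f7f7f7f7f7f 0x808080808080 (Nat.land (Nat.shiftRight a 9) cur)
        (scan ty cur l) with h2 | h2
      · rw [h2] at hi
        have h3 : (scan ty cur l ||| (a >>> 9 &&& cur)).testBit i = true := hi
        rw [Nat.testBit_or, Nat.testBit_and, Bool.or_eq_true, Bool.and_eq_true] at h3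
        rcases h3 with h3 | h3
        · exact ih h3
        · exact h3.2
      · rw [h2] at hi
        exact ih hi

theorem w2_scan_sup {ty cur : ℕ} {l : List ℕ} {e : ℕ} (he : e ∈ l) (hty : Nat.land ty e ≠ 0)
    (ht : Nat.beq (Nat.land (Nat.add (Nat.land (Nat.shiftRight e 9) cur)
        0x7f7f7f7f7f7f) 0x808080808080) 0x808080808080 = true) (i : ℕ)
    (hi : (Nat.land (Nat.shiftRight e 9) cur).testBit i = true) :
    (scan ty cur l).testBit i = true := by
  induction l with
  | nil => exact absurd he List.not_mem_nil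
  | cons a l ih =>
    rw [w2_scan_cons, ifb_eq, w2_scan1_eq]
    rcases List.mem_cons.mp he with rfl | he'
    · have h1 : ¬ Nat.beq (Nat.land ty e) 0 = true := fun h2 => hty (Nat.eq_of_beq_eq_true h2)
      rw [if_neg h1, w2_scan1g_pos ht]
      show (scan ty cur l ||| Nat.land (Nat.shiftRight e 9) cur).testBit i = true
      rw [Nat.testBit_or, hi, Bool.or_true]
    · have h2 := ih he'
      split_ifs
      · exact h2
      · rcases w2_scan1g_or 0x7f7f7f7f7f7f 0x808080808080 (Nat.land (Nat.shiftRight a 9) cur)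
          (scan ty cur l) with h3 | h3
        · rw [h3]
          show (scan ty cur l ||| Nat.land (Nat.shiftRight a 9) cur).testBit i = true
          rw [Nat.testBit_or, h2, Bool.true_or]
        · rw [h3]
          exact h2

theorem scan_spec (h : Good M s lab) {v ty : ℕ} {l : List ℕ} {F : ℕ} {es : List ℕ}
    (hc : ChainOK M lab s v ty l F es) {out : ℕ} (ho : out = scan ty (Nat.sub 0x1f1f1f1f1f1f F) l) :
    out ≠ 0 ∧ out < 2 ^ 48 ∧ ∀ t < 6, dg out t < 32 ∧ (t < es.length →
      (dg out t).testBit (M.cl (lab v) (lab (es.reverse.getD t 0))) = true) := by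
  obtain ⟨e, he, hty, htest, hbit⟩ := w2_entry h hc
  set cur := Nat.sub 0x1f1f1f1f1f1f F with hcur
  have hsub := w2_scan_sub ty cur l
  have hsup := w2_scan_sup he hty htest
  rw [← ho] at hsub hsup
  have hbit' : ∀ t < 6, t < es.length →
      (dg out t).testBit (M.cl (lab v) (lab (es.reverse.getD t 0))) = true := by
    intro t ht ht'
    have h1 := hbit t ht ht'
    have hcl := M.cl_lt (lab v) (lab (es.reverse.getD t 0))
    rw [dg_testBit] at h1 ⊢
    rw [Bool.and_eq_true] at h1 ⊢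
    exact ⟨h1.1, hsup _ h1.2⟩
  have hcur48 : cur < 2 ^ 48 := by
    have : cur ≤ 0x1f1f1f1f1f1f := Nat.sub_le _ _
    omega
  refine ⟨?_, ?_, fun t ht => ⟨?_, hbit' t ht⟩⟩
  · rintro h0
    have h1 := hbit' 0 (by norm_num) hc.pos
    rw [h0] at h1
    have h2 : dg 0 0 = 0 := rfl
    rw [h2, Nat.zero_testBit] at h1
    exact absurd h1 (by decide)
  · refine Nat.lt_pow_two_of_testBit _ fun i hi => ?_
    rw [Bool.eq_false_iff]
    intro h1
    have h2 := hsub i h1
    rw [Nat.testBit_lt_two_pow (hcur48.trans_le (Nat.pow_le_pow_right (by norm_num) hi))] at h2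
    exact absurd h2 (by decide)
  · have h32 : (32 : ℕ) = 2 ^ 5 := by norm_num
    rw [h32]
    refine Nat.lt_pow_two_of_testBit _ fun j hj => ?_
    rw [Bool.eq_false_iff]
    intro h1
    rw [dg_testBit, Bool.and_eq_true] at h1
    have h2 := hsub _ h1.2
    have h3 : (dg cur t).testBit j = true := by
      rw [dg_testBit, Bool.and_eq_true]
      exact ⟨h1.1, h2⟩
    have h4 := (w2_cur h hc t ht).1
    rw [h32] at h4
    rw [Nat.testBit_lt_two_pow (h4.trans_le (Nat.pow_le_pow_right (by norm_num) hj))] at h3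
    exact absurd h3 (by decide)

/-- the condition on the masks -/
def W2Ms (M : Model V) (lab : ℕ → V) (n ms : ℕ) : Prop :=
  ∀ v u, u < 16 → dg ms (16 * v + u) < 32 ∧ (dg ms (16 * v + u) = 0 ∨
    (v < n ∧ u < n ∧ (dg ms (16 * v + u)).testBit (M.cl (lab v) (lab u)) = false))

theorem w2_wrMs {ms i new : ℕ} (h1 : dg ms i < 32) (h2 : new < 32) (j : ℕ) :
    dg (wrMs ms (Nat.mul 8 i) new) j = if j = i then new else dg ms j := by
  have h3 : wrMs ms (Nat.mul 8 i) new = ms + new <<< (8 * i) - dg ms i <<< (8 * i) := by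
    show ms + new <<< (8 * i) - Nat.land (Nat.shiftRight ms (Nat.mul 8 i)) 255 <<< (8 * i) = _
    rw [land_shr]
  have h4 := dg_add (n := ms) (i := i) (x := new) (by omega)
  have h5 : dg ms i ≤ dg (ms + new <<< (8 * i)) i := by rw [h4, if_pos rfl]; omega
  rw [h3, dg_sub h5]
  by_cases h6 : j = i
  · rw [if_pos h6, if_pos h6, h4, if_pos rfl]
    omega
  · rw [if_neg h6, if_neg h6, h4, if_neg h6]

theorem w2_step {n ms v x new : ℕ} (hn : n ≤ 16) (hv : v < n) (hx : x < n) (hnew : new < 32)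
    (hbit : new.testBit (M.cl (lab v) (lab x)) = false) (hms : W2Ms M lab n ms) :
    W2Ms M lab n (wr2 ms v x new) := by
  have hb : ∀ i, dg ms i < 32 := by
    intro i
    have h1 := (hms (i / 16) (i % 16) (Nat.mod_lt _ (by norm_num))).1
    rwa [Nat.div_add_mod] at h1
  have h1 : ∀ j, dg (wrMs ms (Nat.mul 8 (Nat.add (Nat.mul 16 v) x)) new) j =
      if j = 16 * v + x then new else dg ms j := fun j => w2_wrMs (hb _) hnew j
  have h2 : ∀ j, dg (wr2 ms v x new) j = if j = 16 * x + v then new else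
      if j = 16 * v + x then new else dg ms j := by
    intro j
    have h3 := w2_wrMs (ms := wrMs ms (Nat.mul 8 (Nat.add (Nat.mul 16 v) x)) new)
      (i := Nat.add (Nat.mul 16 x) v) (new := new) (by
        rw [h1]
        split_ifs
        · exact hnew
        · exact hb _) hnew j
    rw [h1] at h3
    exact h3
  intro a b hb16
  rw [h2]
  split_ifs with h3 h4
  · have ha : a = x := by omega
    have hbv : b = v := by omega
    subst ha hbv
    refine ⟨hnew, Or.inr ⟨hx, hv, ?_⟩⟩
    rw [M.cl_symm]; exact hbit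
  · have ha : a = v := by omega
    have hbv : b = x := by omega
    subst ha hbv
    exact ⟨hnew, Or.inr ⟨hv, hx, hbit⟩⟩
  · exact hms a b hb16

theorem w2_lenL (l : List ℕ) : lenL l = l.length := by
  induction l with
  | nil => rfl
  | cons a l ih =>
    have : lenL (a :: l) = Nat.succ (lenL l) := rfl
    rw [this, ih]; rfl

theorem w2_wrAll {n v out : ℕ} (hn : n ≤ 16) (hv : v < n) (es : List ℕ) : ∀ ms : ℕ,
    (∀ x ∈ es, x < n) →
    (∀ t < es.length, dg out t < 32 ∧
      (dg out t).testBit (M.cl (lab v) (lab (es.reverse.getD t 0))) = false) →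
    W2Ms M lab n ms → W2Ms M lab n (wrAll v out es (Nat.mul 8 (Nat.sub es.length 1)) ms) := by
  induction es with
  | nil => intro ms _ _ h; exact h
  | cons x es ih =>
    intro ms hlt hd hms
    have hunf : wrAll v out (x :: es) (Nat.mul 8 (Nat.sub (x :: es).length 1)) ms =
        wrAll v out es (Nat.sub (Nat.mul 8 (Nat.sub (x :: es).length 1)) 8)
          (wr2 ms v x (Nat.land (Nat.shiftRight out (Nat.mul 8 (Nat.sub (x :: es).length 1))) 255)) :=
      rfl
    rw [hunf, land_shr]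
    have h1 : Nat.sub (x :: es).length 1 = es.length := by
      show (x :: es).length - 1 = es.length
      rw [List.length_cons]; rfl
    rw [h1]
    have h2 : Nat.sub (Nat.mul 8 es.length) 8 = Nat.mul 8 (Nat.sub es.length 1) := by
      show 8 * es.length - 8 = 8 * (es.length - 1)
      omega
    rw [h2]
    have h3 := hd es.length (by rw [List.length_cons]; exact Nat.lt_succ_self _)
    have h4 : (x :: es).reverse.getD es.length 0 = x := by
      rw [List.reverse_cons, List.getD_append_right _ _ _ _ (by rw [List.length_reverse]),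
        List.length_reverse, Nat.sub_self]
      rfl
    rw [h4] at h3
    refine ih _ (fun y hy => hlt y (List.mem_cons_of_mem _ hy)) (fun t ht => ?_)
      (w2_step hn hv (hlt x List.mem_cons_self) h3.1 h3.2 hms)
    have h5 := hd t (by rw [List.length_cons]; omega)
    rw [List.reverse_cons, List.getD_append _ _ _ _ (by rw [List.length_reverse]; exact ht)] at h5
    exact h5

theorem w2_setMs (h : Good M s lab) {m : ℕ} (hm : W2Ms M lab s.n m) : Good M (setMs s m) lab := by
  obtain ⟨n, nx, st, en, cof, cnt, ms, fs⟩ := s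
  obtain ⟨sp, n3, inj, b0, b1, b2, face, shape, base, used, ms'⟩ := h
  exact ⟨⟨sp.n16, sp.wf, sp.lt, sp.nd, sp.nd', sp.nx1, sp.nx0, sp.st, sp.en, sp.cof, sp.cnt⟩,
    n3, inj, b0, b1, b2, face, shape, base, used, hm⟩

theorem wr_spec (h : Good M s lab) {v : ℕ} (hv : v < s.n) {es : List ℕ} (h1 : 1 ≤ es.length)
    (h6 : es.length ≤ 6) (hlt : ∀ x ∈ es, x < s.n) {out : ℕ} (ho : out < 2 ^ 48)
    (hd : ∀ t < 6, dg out t < 32 ∧ (t < es.length →
      (dg out t).testBit (M.cl (lab v) (lab (es.reverse.getD t 0))) = true)) :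
    Good M (setMs s (wrAll v (Nat.sub 0x1f1f1f1f1f1f out) es (Nat.mul 8 (Nat.sub (lenL es) 1)) s.ms))
      lab := by
  refine w2_setMs h ?_
  rw [w2_lenL]
  refine w2_wrAll h.sp.n16 hv es s.ms hlt (fun t ht => ?_) h.ms
  have ht6 : t < 6 := by omega
  rw [w2_dg_sub ho (fun t ht => (hd t ht).1) ht6]
  have h2 := (hd t ht6).2 ht
  have h3 := (hd t ht6).1
  have hcl := M.cl_lt (lab v) (lab (es.reverse.getD t 0))
  exact ⟨by omega, w2_compl' _ h3 _ hcl h2⟩

end Chk
end Pool.Agent.Lib.MP_ba95e8_co
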