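import Pool.Agent.Lib.MP_ba95e8_co.Model
import Pool.Agent.Lib.MP_ba95e8_co.ChkTab

/-!
Deltahedral domes: meaning of the states of the checker.

A state packs, for the list `fs` of placed faces (vertices are labels `< 16`, the base vertices are
`0`, `1`, `2`), several words; the definitions below say what the digits of the words are.
-/

namespace Pool.Agent.Lib.MP_ba95e8_co
namespace Chk

noncomputable section

/-- byte number `i` of `n` -/
def dg (n i : ℕ) : ℕ := n / 2 ^ (8 * i) % 256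

/-- corners `(vertex, predecessor, successor, code)` of the reversed list of labels; `w` is the
successor of the head, `f` the predecessor of the last entry -/
def corA (f : ℕ) : List ℕ → List ℕ → ℕ → List (ℕ × ℕ × ℕ × ℕ)
  | [], _, _ => []
  | v :: rest, rc, w => (v, hd f rest, w, hd 0 rc) :: corA f rest (tl rc) v

/-- corners of a face -/
def cors (F : Fa) : List (ℕ × ℕ × ℕ × ℕ) := corA (hd 0 F.ws) F.ws F.rc F.a

/-- all corners -/
def allC (fs : List Fa) : List (ℕ × ℕ × ℕ × ℕ) := fs.flatMap cors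

/-- the corner at `v` with predecessor `u`, successor `w` and code `c` is placed -/
def Cor (fs : List Fa) (v u w c : ℕ) : Prop := (v, u, w, c) ∈ allC fs

/-- the dart from `u` to `v` is placed -/
def InD (fs : List Fa) (v u : ℕ) : Prop := ∃ w c, Cor fs v u w c

/-- the dart from `v` to `w` is placed -/
def OutD (fs : List Fa) (v w : ℕ) : Prop := ∃ u c, Cor fs v u w c

/-- `v` and `u` are together in a placed face -/
def Cof (fs : List Fa) (v u : ℕ) : Prop := ∃ F ∈ fs, v ∈ F.ws ∧ u ∈ F.ws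

/-- number of placed corners at `v` with code `c` -/
def nC (fs : List Fa) (v c : ℕ) : ℕ := (allC fs).countP (fun q => q.1 == v && q.2.2.2 == c)

open Classical in
/-- number of chains of placed corners at `v` (number of ends of chains) -/
def nE (fs : List Fa) (v : ℕ) : ℕ :=
  ((Finset.range 16).filter (fun w => OutD fs v w ∧ ¬ InD fs v w)).card

/-- a face is well formed -/
structure Wf (F : Fa) : Prop where
  nodup : F.ws.Nodup
  len : F.rc.length = F.ws.length
  three : 3 ≤ F.ws.length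
  last : F.ws.getLast? = some F.a
  code : ∀ c ∈ F.rc, c ≤ 2

/-- the words of a state (other than `ms`) are right for the list of faces -/
structure Sp (s : St) : Prop where
  n16 : s.n ≤ 16
  wf : ∀ F ∈ s.fs, Wf F
  lt : ∀ F ∈ s.fs, ∀ x ∈ F.ws, x < s.n
  nd : ((allC s.fs).map (fun q => (q.1, q.2.1))).Nodup
  nd' : ((allC s.fs).map (fun q => (q.1, q.2.2.1))).Nodup
  nx1 : ∀ v u w c, Cor s.fs v u w c → dg s.nx (16 * v + u) = w + 1 + 32 * c
  nx0 : ∀ v u, u < 16 → ¬ InD s.fs v u → dg s.nx (16 * v + u) = 0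
  st : ∀ v u, u < 16 → (s.st.testBit (16 * v + u) = true ↔ InD s.fs v u ∧ ¬ OutD s.fs v u)
  en : ∀ v u, u < 16 → (s.en.testBit (16 * v + u) = true ↔ OutD s.fs v u ∧ ¬ InD s.fs v u)
  cof : ∀ v u, u < 16 → (s.cof.testBit (16 * v + u) = true ↔ Cof s.fs v u)
  cnt : ∀ v, dg s.cnt v = nC s.fs v 1 + 8 * nC s.fs v 2 + 32 * nE s.fs v

/-- the face `F` can be placed in the state `s` -/
structure Fresh (s : St) (F : Fa) : Prop where
  wf : Wf F
  lt : ∀ x ∈ F.ws, x < 16
  inD : ∀ q ∈ cors F, ¬ InD s.fs q.1 q.2.1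
  outD : ∀ q ∈ cors F, ¬ OutD s.fs q.1 q.2.2.1
  cnt : ∀ x ∈ F.ws, dg s.cnt x + 40 < 256

/-- the face as a list of vertices and codes -/
def fwd {V : Type*} (lab : ℕ → V) (F : Fa) : List (V × ℕ) := ((F.ws.map lab).zip F.rc).reverse

/-- the base -/
def baseF : Fa := Fa.mk 2 [0, 1, 2] [] [0, 0, 0]

/-- the placed faces are faces of the model, with vertices given by `lab` -/
structure Good {V : Type*} (M : Model V) (s : St) (lab : ℕ → V) : Prop where
  sp : Sp s
  n3 : 3 ≤ s.n
  inj : ∀ i < s.n, ∀ j < s.n, lab i = lab j → i = j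
  b0 : lab 0 = M.b 0
  b1 : lab 1 = M.b 1
  b2 : lab 2 = M.b 2
  face : ∀ F ∈ s.fs, M.face (fwd lab F)
  shape : ∀ F ∈ s.fs, F = baseF ∨ ∃ p ∈ FTt, F.rc = p.rc ∧ F.dr = p.dr
  base : baseF ∈ s.fs
  used : ∀ v < s.n, ∃ F ∈ s.fs, v ∈ F.ws
  ms : ∀ v u, u < 16 → dg s.ms (16 * v + u) < 32 ∧ (dg s.ms (16 * v + u) = 0 ∨
    (v < s.n ∧ u < s.n ∧ (dg s.ms (16 * v + u)).testBit (M.cl (lab v) (lab u)) = false))

/-- the face with reversed labels `ws`, reversed codes `rc`, is a face of the model across the free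
dart from `a` to the second label -/
structure Ext {V : Type*} (M : Model V) (s : St) (a : ℕ) (rc dr ws : List ℕ) (lab : ℕ → V) :
    Prop where
  shape : ∃ p ∈ FTt, rc = p.rc ∧ dr = p.dr
  len : rc.length = ws.length
  free : ∃ b l, ws = l ++ [b, a] ∧ ¬ InD s.fs b a
  lt : ∀ x ∈ ws, x < 16
  inj : ∀ i < maxL s.n ws, ∀ j < maxL s.n ws, lab i = lab j → i = j
  used : ∀ v < maxL s.n ws, v < s.n ∨ v ∈ ws
  face : M.face (fwd lab (Fa.mk a ws dr rc))

/-- the state cannot be realised -/
def Bad {V : Type*} (M : Model V) (s : St) : Prop := ∀ lab, ¬ Good M s lab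

/-- the placement cannot be realised -/
def BadP {V : Type*} (M : Model V) (s : St) (a : ℕ) (rc dr ws : List ℕ) : Prop :=
  ∀ lab, Good M s lab → ¬ Ext M s a rc dr ws lab

/-- the placement is in the list -/
def InPl (rc dr ws : List ℕ) : Pl → Prop
  | Pl.nil => False
  | Pl.cons rc' dr' l r => (rc = rc' ∧ dr = dr' ∧ ws ∈ l) ∨ InPl rc dr ws r

/-- patterns at the vertex with label `v` -/
def BPk (v : ℕ) : List (List ℕ × List ℕ) :=
  if v = 0 then BPgt else if v = 1 then BPlt else if v = 2 then BPgt ++ BPeq ++ BPlt else BPN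

/-- ring of corners at the vertex with label `v` -/
structure RingAt {V : Type*} (M : Model V) (lab : ℕ → V) (v k : ℕ) (U : ℤ → V) (C : ℤ → ℕ) :
    Prop where
  k3 : 3 ≤ k
  k6 : k ≤ 6
  perU : ∀ i, U (i + k) = U i
  perC : ∀ i, C (i + k) = C i
  inj : ∀ i j, U i = U j → (k : ℤ) ∣ j - i
  real : ∀ i, ∃ d e r, M.face ((U i, d) :: (lab v, C i) :: (U (i + 1), e) :: r)
  cover : ∀ u w c d e r, M.face ((u, d) :: (lab v, c) :: (w, e) :: r) →
    ∃ i, u = U i ∧ w = U (i + 1) ∧ c = C i
  mat : ∀ i : ℤ, ∃ q ∈ BPk v, ∃ r < k, q.1.rotate r = (List.range k).map (fun t : ℕ => C (i + t)) ∧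
    q.2.length = k ∧
    ∀ t < k, ((q.2.rotate r).getD t 0).testBit (M.cl (lab v) (U (i + t))) = true

/-- the corner number `i` of the ring is placed -/
def PlI {V : Type*} (s : St) (lab : ℕ → V) (v : ℕ) (U : ℤ → V) (i : ℤ) : Prop :=
  ∃ u w c, Cor s.fs v u w c ∧ lab u = U i

/-- `n1`, `n2` placed corners with codes 1, 2 and `g` chains are possible for a ring with `N1`, `N2`
corners with codes 1, 2 -/
def Feas (N1 N2 n1 n2 g : ℕ) : Prop :=
  n1 ≤ N1 ∧ n2 ≤ N2 ∧ (g = 0 → n1 = N1 ∧ n2 = N2) ∧ g + n1 + n2 ≤ N1 + N2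

instance (N1 N2 n1 n2 g : ℕ) : Decidable (Feas N1 N2 n1 n2 g) := by
  unfold Feas; infer_instance

/-- entry `e` of a trie with masks for `E` edges covers the masks `ms` and has type bit `tb` -/
def entOK (ms : List ℕ) (E tb e : ℕ) : Bool :=
  e.testBit tb && (List.range 6).all (fun t =>
    if t < E then (dg (e >>> 9) t ||| ms.getD t 0) == dg (e >>> 9) t else dg (e >>> 9) t == 31)

/-- the trie covers the pattern with codes `cs` still to be read, `d` already read -/
def covB (ms : List ℕ) (tb : ℕ) : List ℕ → ℕ → Tr → Bool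
  | _, _, Tr.nil => false
  | [], d, Tr.nd _ cl _ _ _ => cl.any (entOK ms d tb)
  | c :: cs, d, Tr.nd op _ t1 t2 t0 => op.any (entOK ms (d + 1) tb) &&
      covB ms tb cs (d + 1) (if c = 1 then t1 else if c = 2 then t2 else t0)

/-- the result of following a chain of corners at `v`: `l` is a list of entries, `F` packs the
forbidden masks of the edges `es` (reversed), and an entry of `l` fits the true classes -/
structure ChainOK {V : Type*} (M : Model V) (lab : ℕ → V) (s : St) (v ty : ℕ) (l : List ℕ) (F : ℕ)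
    (es : List ℕ) : Prop where
  pos : 1 ≤ es.length
  le6 : es.length ≤ 6
  lt : ∀ x ∈ es, x < s.n
  F48 : F < 2 ^ 48
  Fdg : ∀ t < 6, dg F t = if t < es.length then dg s.ms (16 * v + es.reverse.getD t 0) else 0
  ent : ∃ e ∈ l, Nat.land ty e ≠ 0 ∧ ∀ t < 6,
    (t < es.length → (dg (e >>> 9) t).testBit (M.cl (lab v) (lab (es.reverse.getD t 0))) = true) ∧
    (es.length ≤ t → dg (e >>> 9) t = 31)

/-- new labels are `nn`, `nn + 1`, ... in order -/
def OrdN (n : ℕ) : ℕ → List ℕ → Prop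
  | _, [] => True
  | nn, x :: l => (x < n ∧ OrdN n nn l) ∨ (x = nn ∧ OrdN n (nn + 1) l)

/-- value of a bit -/
def bv (a i : ℕ) : ℕ := (a.testBit i).toNat

/-- value of the bit `u` of the row `v`, for `u < n` -/
def ab (n a v u : ℕ) : ℕ := if u < n then (a.testBit (16 * v + u)).toNat else 0

/-- conditions on a new face with labels `W` (forward, starting with the free dart) and code indices
`E` (`0` for code 1, `3` for code 2), under which it is found by the enumeration -/
structure Cond (s : St) (W E : List ℕ) : Prop where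
  nodup : W.Nodup
  ord : OrdN s.n s.n (W.drop 2)
  a : W.getD 0 0 < s.n
  b : W.getD 1 0 < s.n
  adj : ∀ i, 1 ≤ i → i + 1 < W.length → W.getD i 0 < s.n → W.getD (i + 1) 0 < s.n →
    s.st.testBit (16 * W.getD i 0 + W.getD (i + 1) 0) = true ∨
    s.cof.testBit (16 * W.getD i 0 + W.getD (i + 1) 0) = false
  adjL : W.getD (W.length - 1) 0 < s.n →
    s.en.testBit (16 * W.getD 0 0 + W.getD (W.length - 1) 0) = true ∨
    s.cof.testBit (16 * W.getD 0 0 + W.getD (W.length - 1) 0) = false
  far : ∀ i j, i + 1 < j → j < W.length → (i = 0 → j + 1 < W.length) → W.getD i 0 < s.n →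
    W.getD j 0 < s.n → s.cof.testBit (16 * W.getD i 0 + W.getD j 0) = false
  accA : (awTt (W.getD 0 0)).testBit (8 * dg s.cnt (W.getD 0 0) +
    (E.getD 0 0 + (1 + ab s.n s.en (W.getD 0 0) (W.getD (W.length - 1) 0)))) = true
  accB : (awTt (W.getD 1 0)).testBit (8 * dg s.cnt (W.getD 1 0) +
    (E.getD 1 0 + (1 + ab s.n s.st (W.getD 1 0) (W.getD 2 0)))) = true
  acc : ∀ i, 2 ≤ i → i + 1 < W.length → W.getD i 0 < s.n →
    (awTt (W.getD i 0)).testBit (8 * dg s.cnt (W.getD i 0) + (E.getD i 0 +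
      (ab s.n s.st (W.getD (i - 1) 0) (W.getD i 0) +
        ab s.n s.st (W.getD i 0) (W.getD (i + 1) 0)))) = true
  accL : W.getD (W.length - 1) 0 < s.n →
    (awTt (W.getD (W.length - 1) 0)).testBit (8 * dg s.cnt (W.getD (W.length - 1) 0) +
      (E.getD (W.length - 1) 0 +
      (ab s.n s.st (W.getD (W.length - 2) 0) (W.getD (W.length - 1) 0) +
        ab s.n s.en (W.getD 0 0) (W.getD (W.length - 1) 0)))) = true
  acc1 : ∀ i, 2 ≤ i → i < W.length → W.getD i 0 < s.n →
    s.st.testBit (16 * W.getD (i - 1) 0 + W.getD i 0) = false →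
    (awTt (W.getD i 0)).testBit (8 * dg s.cnt (W.getD i 0) + (E.getD i 0 + 1)) = true

end

end Chk
end Pool.Agent.Lib.MP_ba95e8_co
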