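import Mathlib

/-!
Deltahedral domes: the definitions used in the statement.
-/

namespace Pool.Agent.Lib.MP_ba95e8_co

open scoped RealInnerProductSpace

/-- three-dimensional Euclidean space -/
abbrev E3 := EuclideanSpace ℝ (Fin 3)

/-- `F` is a (two-dimensional) face of the convex set `K`: the set of points of `K` where some
nonzero linear functional attains its maximum over `K`, provided this set is not collinear. -/
def IsFace (K F : Set E3) : Prop :=
  ∃ (n : E3) (c : ℝ), n ≠ 0 ∧ (∀ x ∈ K, ⟪n, x⟫ ≤ c) ∧ F = {x | x ∈ K ∧ ⟪n, x⟫ = c} ∧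
    ¬ Collinear ℝ F

/-- a point of the lattice with origin `o` and basis `u, v` -/
noncomputable def lat (o u v : E3) (i j : ℤ) : E3 := o + (i : ℝ) • u + (j : ℝ) • v

/-- `T` is a triangular cell of the lattice with origin `o` and basis `u, v` -/
def IsCell (o u v : E3) (T : Set E3) : Prop :=
  ∃ i j : ℤ, T = convexHull ℝ {lat o u v i j, lat o u v (i + 1) j, lat o u v i (j + 1)} ∨
    T = convexHull ℝ {lat o u v (i + 1) j, lat o u v i (j + 1), lat o u v (i + 1) (j + 1)}

/-- `F` is a convex polyiamond: a convex set that is the union of finitely many (at least one)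
cells of a unit triangular lattice of a plane. -/
def IsConvexPolyiamond (F : Set E3) : Prop :=
  Convex ℝ F ∧ ∃ o u v : E3, ‖u‖ = 1 ∧ ‖v‖ = 1 ∧ ⟪u, v⟫ = 1 / 2 ∧
    ∃ C : Set (Set E3), C.Finite ∧ C.Nonempty ∧ (∀ T ∈ C, IsCell o u v T) ∧ F = ⋃₀ C

/-- `P` can be domed: it is a face of a convex polyhedron with nonempty interior all of whose
other faces are convex polyiamonds. -/
def CanBeDomed (P : Set E3) : Prop :=
  ∃ S : Set E3, S.Finite ∧ (interior (convexHull ℝ S)).Nonempty ∧ IsFace (convexHull ℝ S) P ∧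
    ∀ F : Set E3, IsFace (convexHull ℝ S) F → F ≠ P → IsConvexPolyiamond F

end Pool.Agent.Lib.MP_ba95e8_co
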