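import Pool.Agent.Lib.MP_ba95e8_co.Walk
import Pool.Agent.Lib.MP_ba95e8_co.Scan
import Pool.Agent.Lib.MP_ba95e8_co.ExtInv

/-!
Deltahedral domes, task W3: the vertex checks are sound.
-/

namespace Pool.Agent.Lib.MP_ba95e8_co
namespace Chk

variable {V : Type*} {M : Model V} {s : St} {lab : ℕ → V}

theorem beq_false {m n : ℕ} (h : m ≠ n) : Nat.beq m n = false := by
  cases hb : Nat.beq m n
  · rfl
  · exact absurd (Nat.eq_of_beq_eq_true hb) h

theorem beq_self (n : ℕ) : Nat.beq n n = true := Nat.beq_refl n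

theorem inD_lt (h : Sp s) {v u : ℕ} (hv : dg s.nx (16 * v + u) ≠ 0) (hu : u < 16) : v < s.n := by
  by_contra hn
  apply hv
  apply h.nx0 v u hu
  rintro ⟨w, c, hc⟩
  unfold Cor allC at hc
  rw [List.mem_flatMap] at hc
  obtain ⟨F, hF, hc⟩ := hc
  have h1 : ∀ (f : ℕ) (ws rc : List ℕ) (w0 : ℕ), (v, u, w, c) ∈ corA f ws rc w0 → v ∈ ws := by
    intro f ws
    induction ws with
    | nil => intro rc w0 hh; simp [corA] at hh
    | cons x rest ih =>
      intro rc w0 hh
      simp only [corA, List.mem_cons, Prod.mk.injEq] at hh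
      rcases hh with hh | hh
      · simp [hh.1]
      · exact List.mem_cons_of_mem _ (ih _ _ hh)
  exact hn (h.lt F hF v (h1 _ _ _ _ hc))

theorem vcheck_sound (h : Good M s lab) (v : ℕ) {u : ℕ} (hu : u < 16) :
    ∃ s', Good M s' lab ∧ ∀ (kn : Bool) (ks : St → Bool),
      vcheck tyTt triet s v u kn ks = ks s' := by
  have hd : Nat.land (Nat.shiftRight s.nx (Nat.mul 8 (Nat.add (Nat.mul 16 v) u))) 255 =
      dg s.nx (16 * v + u) := land_shr _ _
  by_cases h0 : dg s.nx (16 * v + u) = 0
  · refine ⟨s, h, fun kn ks => ?_⟩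
    unfold vcheck
    rw [hd, h0]
    rfl
  · have hv : v < s.n := inD_lt h.sp h0 hu
    obtain ⟨l, F, es, hc, hk⟩ := walk_spec h hv (nxv := Nat.shiftRight s.nx (Nat.mul 128 v))
      (msv := Nat.shiftRight s.ms (Nat.mul 128 v)) (cnt := dg s.cnt v)
      (fun x _ => dg_shr _ _ _) (fun x _ => dg_shr _ _ _) rfl hu h0
    have hcn : Nat.land (Nat.shiftRight s.cnt (Nat.mul 8 v)) 255 = dg s.cnt v := land_shr _ _
    obtain ⟨o1, o2, o3⟩ := scan_spec h hc rfl
    set out := scan (tyOf tyTt v (dg s.cnt v)) (Nat.sub 0x1f1f1f1f1f1f F) l with hout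
    by_cases hcur : out = Nat.sub 0x1f1f1f1f1f1f F
    · refine ⟨s, h, fun kn ks => ?_⟩
      unfold vcheck
      rw [hd, beq_false h0, hcn]
      change walk _ _ (u + 1) _ _ _ _ _ _ _ = _
      rw [hk]
      unfold vc2 vc3
      rw [← hout, beq_false o1, hcur, beq_self]
    · refine ⟨_, wr_spec h hv hc.pos hc.le6 hc.lt o2 o3, fun kn ks => ?_⟩
      unfold vcheck
      rw [hd, beq_false h0, hcn]
      change walk _ _ (u + 1) _ _ _ _ _ _ _ = _
      rw [hk]
      unfold vc2 vc3
      rw [← hout, beq_false o1, beq_false hcur]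

theorem vchecks_sound (l : List ℕ) (h : Good M s lab) :
    ∃ s', Good M s' lab ∧ ∀ (kn : Bool) (ks : St → Bool),
      vchecks tyTt triet kn ks l s = ks s' := by
  induction l generalizing s with
  | nil => exact ⟨s, h, fun kn ks => rfl⟩
  | cons q l ih =>
    have hq : Nat.land q 15 < 16 := by
      have : Nat.land q 15 = q % 2 ^ 4 := Nat.and_two_pow_sub_one_eq_mod q 4
      rw [this]
      exact Nat.mod_lt _ (by norm_num)
    obtain ⟨s1, h1, e1⟩ := vcheck_sound h (Nat.shiftRight q 4) hq
    obtain ⟨s2, h2, e2⟩ := ih h1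
    refine ⟨s2, h2, fun kn ks => ?_⟩
    change vcheck tyTt triet s (Nat.shiftRight q 4) (Nat.land q 15) kn
      (vchecks tyTt triet kn ks l) = ks s2
    rw [e1, e2]

theorem corner_spec {β : Type} (k : (v u w c : ℕ) → β) (d : β) (f : ℕ) (ws rc : List ℕ) (j w : ℕ) :
    corner k d f ws rc j w = d ∨ ∃ v u w' c, (v, u, w', c) ∈ corA f ws rc w ∧
      corner k d f ws rc j w = k v u w' c := by
  induction ws generalizing rc j w with
  | nil => exact Or.inl rfl
  | cons v rest ih =>
    by_cases hj : j = 0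
    · subst hj
      exact Or.inr ⟨v, hd f rest, w, hd 0 rc, by simp [corA], rfl⟩
    · have e : corner k d f (v :: rest) rc j w = corner k d f rest (tl rc) (Nat.sub j 1) v := by
        change ifb (Nat.beq j 0) _ _ = _
        rw [beq_false hj]
        rfl
      rw [e]
      rcases ih (tl rc) (Nat.sub j 1) v with h1 | ⟨v', u', w', c', h1, h2⟩
      · exact Or.inl h1
      · exact Or.inr ⟨v', u', w', c', by simp [corA, h1], h2⟩

theorem corA_fst (f : ℕ) (ws rc : List ℕ) (w : ℕ) : (corA f ws rc w).map Prod.fst = ws := by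
  induction ws generalizing rc w with
  | nil => rfl
  | cons v rest ih => simp [corA, ih]

theorem cors_unique {F : Fa} (hW : Wf F) {v u w c u' w' c' : ℕ} (h : (v, u, w, c) ∈ cors F)
    (h' : (v, u', w', c') ∈ cors F) : u = u' ∧ w = w' ∧ c = c' := by
  have h1 : ((cors F).map Prod.fst).Nodup := by
    unfold cors
    rw [corA_fst]
    exact hW.nodup
  have h2 := List.inj_on_of_nodup_map h1 h h' rfl
  simpa using h2

theorem row_mask (n v x : ℕ) :
    dg (Nat.land (Nat.shiftRight n (Nat.mul 128 v)) 0xffffffffffffffffffffffffffffffff) x =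
      if x < 16 then dg n (16 * v + x) else 0 := by
  apply Nat.eq_of_testBit_eq
  intro j
  have e : Nat.land (Nat.shiftRight n (Nat.mul 128 v)) 0xffffffffffffffffffffffffffffffff =
      (Nat.shiftRight n (Nat.mul 128 v)) % 2 ^ 128 := Nat.and_two_pow_sub_one_eq_mod _ 128
  rw [e, dg_testBit, Nat.testBit_mod_two_pow]
  split_ifs with hx
  · rw [← dg_shr, dg_testBit]
    by_cases hj : j < 8
    · have : 8 * x + j < 128 := by omega
      simp [hj, this]
    · simp [hj]
  · by_cases hj : j < 8
    · have : ¬ (8 * x + j < 128) := by omega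
      simp [this]
    · simp [hj]

theorem locConf_sound (h : Good M s lab) {a : ℕ} {rc dr ws : List ℕ} (he : Ext M s a rc dr ws lab)
    (j u0 : ℕ) : locConf tyTt triet s a rc ws j u0 = false := by
  have hF := he.fresh h
  have hP := h.place he
  have hW := he.wf h
  have e0 : locConf tyTt triet s a rc ws j u0 = corner (fun v u w c =>
      loc2 tyTt triet s.nx s.st s.en s.cnt s.ms v u w c u0) false (hd 0 ws) ws rc j a := by
    cases s; rfl
  rw [e0]
  rcases corner_spec (fun v u w c => loc2 tyTt triet s.nx s.st s.en s.cnt s.ms v u w c u0) false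
    (hd 0 ws) ws rc j a with h1 | ⟨v, u, w, c, h1, h2⟩
  · exact h1
  rw [h2]
  have hcor : (v, u, w, c) ∈ cors (Fa.mk a ws dr rc) := h1
  have hvws : v ∈ ws := by
    have := List.mem_map_of_mem (f := Prod.fst) h1
    rwa [corA_fst] at this
  have hCorP : Cor (place s a rc dr ws).fs v u w c := by
    unfold Cor allC
    rw [place_fs, List.flatMap_cons, List.mem_append]
    exact Or.inl hcor
  have hnInD : ¬ InD s.fs v u := hF.inD _ hcor
  -- labels are small
  have hu16 : u < 16 := by
    obtain ⟨F, hF1, hF2⟩ := List.mem_flatMap.mp (show (v, u, w, c) ∈ (place s a rc dr ws).fs.flatMap cors from hCorP)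
    by_contra hu
    have hmem : ∀ (f : ℕ) (l rc : List ℕ) (w0 : ℕ) (q : ℕ × ℕ × ℕ × ℕ), q ∈ corA f l rc w0 →
        q.2.1 = f ∨ q.2.1 ∈ l := by
      intro f l
      induction l with
      | nil => intro rc w0 q hq; simp [corA] at hq
      | cons x rest ih =>
        intro rc w0 q hq
        simp only [corA, List.mem_cons] at hq
        rcases hq with hq | hq
        · subst hq
          cases rest with
          | nil => exact Or.inl rfl
          | cons y r => exact Or.inr (by simp [hd])
        · rcases ih _ _ _ hq with h3 | h3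
          · exact Or.inl h3
          · exact Or.inr (List.mem_cons_of_mem _ h3)
    have h3 := hmem _ _ _ _ _ h1
    have h4 : hd 0 ws ∈ ws := by
      cases ws with
      | nil => simp at hvws
      | cons y r => simp [hd]
    rcases h3 with h3 | h3
    · simp only at h3
      rw [← h3] at h4
      exact hu (hF.lt _ h4)
    · exact hu (hF.lt _ h3)
  have hw256 : w + 1 + 32 * c < 256 := by
    rw [← hP.sp.nx1 v u w c hCorP]
    exact dg_lt _ _
  set nxv := Nat.add (Nat.land (Nat.shiftRight s.nx (Nat.mul 128 v)) 0xffffffffffffffffffffffffffffffff)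
    (Nat.shiftLeft (Nat.add (Nat.succ w) (Nat.mul 32 c)) (Nat.mul 8 u)) with hnxv
  have hrow : ∀ x, dg nxv x = if x < 16 then dg (place s a rc dr ws).nx (16 * v + x) else 0 := by
    intro x
    have h5 : dg (Nat.land (Nat.shiftRight s.nx (Nat.mul 128 v)) 0xffffffffffffffffffffffffffffffff) u = 0 := by
      rw [row_mask, if_pos hu16]
      exact h.sp.nx0 v u hu16 hnInD
    have h6 := dg_add (n := Nat.land (Nat.shiftRight s.nx (Nat.mul 128 v)) 0xffffffffffffffffffffffffffffffff)
      (i := u) (x := w + 1 + 32 * c) (by rw [h5]; omega) x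
    have h7 : nxv = Nat.land (Nat.shiftRight s.nx (Nat.mul 128 v)) 0xffffffffffffffffffffffffffffffff +
        (w + 1 + 32 * c) <<< (8 * u) := rfl
    rw [h7, h6, h5, row_mask]
    by_cases hx : x = u
    · subst hx
      rw [if_pos rfl, if_pos hu16, hP.sp.nx1 v x w c hCorP]
      omega
    · rw [if_neg hx]
      split_ifs with hx16
      · by_cases hI : InD s.fs v x
        · obtain ⟨w', c', hc'⟩ := hI
          rw [h.sp.nx1 v x w' c' hc', hP.sp.nx1 v x w' c']
          unfold Cor allC
          rw [place_fs, List.flatMap_cons, List.mem_append]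
          exact Or.inr hc'
        · rw [h.sp.nx0 v x hx16 hI, hP.sp.nx0 v x hx16]
          rintro ⟨w', c', hc'⟩
          unfold Cor allC at hc'
          rw [place_fs, List.flatMap_cons, List.mem_append] at hc'
          rcases hc' with hc' | hc'
          · exact hx (cors_unique hW hcor hc').1.symm
          · exact hI ⟨w', c', hc'⟩
      · rfl
  have hcnt : Nat.sub (Nat.add (Nat.land (Nat.shiftRight s.cnt (Nat.mul 8 v)) 255) (Nat.add (dl c) 32))
      (Nat.mul 32 (Nat.add (pa s.en v u) (pa s.st v w))) = dg (place s a rc dr ws).cnt v := by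
    have h8 := nE_place h.sp hF hcor
    rw [land_shr, pa_eq, pa_eq]
    unfold bv at h8
    simp only [Nat.add_eq, Nat.mul_eq, Nat.sub_eq]
    omega
  have hvn : v < (place s a rc dr ws).n := by
    rw [place_n]
    exact lt_maxL hvws
  change loc3 tyTt triet nxv (Nat.shiftRight s.ms (Nat.mul 128 v)) _ v u0 = false
  rw [hcnt]
  unfold loc3
  rw [land_shr]
  by_cases hz : dg nxv u0 = 0
  · rw [hz]; rfl
  · rw [beq_false hz]
    have hu0 : u0 < 16 := by
      by_contra hn
      exact hz (by rw [hrow, if_neg hn])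
    obtain ⟨l, F, es, hc, hk⟩ := walk_spec hP hvn (nxv := nxv)
      (msv := Nat.shiftRight s.ms (Nat.mul 128 v)) (cnt := dg (place s a rc dr ws).cnt v)
      (fun x hx => by rw [hrow, if_pos hx]) (fun x _ => by rw [place_ms]; exact dg_shr _ _ _) rfl hu0
      (by rw [hrow, if_pos hu0] at hz; exact hz)
    change walk _ _ (u0 + 1) _ _ _ _ _ _ _ = _
    rw [hk, anyM_spec hP hc]

end Chk
end Pool.Agent.Lib.MP_ba95e8_co
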