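import Pool.Agent.Lib.MP_ba95e8_co.FeasInv

/-!
Deltahedral domes, task W1: following a chain of corners.
-/

namespace Pool.Agent.Lib.MP_ba95e8_co
namespace Chk

variable {V : Type*} {M : Model V} {s : St} {lab : ℕ → V}

theorem w1_nd0 {β : Type} (nxv msv u0 : ℕ) (k : KW β) (op cl : List ℕ) (t1 t2 t0 : Tr)
    (closed : Bool) (x i F : ℕ) (es : List ℕ) :
    walk nxv msv u0 k (Tr.nd op cl t1 t2 t0) closed x i F es =
      ifb closed (k cl F es)
        (ifb (Nat.beq (Nat.land (Nat.shiftRight nxv (Nat.mul 8 x)) 255) 0)
          (k op (Nat.add F (Nat.shiftLeft (Nat.land (Nat.shiftRight msv (Nat.mul 8 x)) 255) i))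
            (List.cons x es))
          (wM u0 (Nat.shiftRight (Nat.land (Nat.shiftRight nxv (Nat.mul 8 x)) 255) 5)
            (Nat.land (Nat.shiftRight nxv (Nat.mul 8 x)) 31) (Nat.add i 8)
            (Nat.add F (Nat.shiftLeft (Nat.land (Nat.shiftRight msv (Nat.mul 8 x)) 255) i))
            (List.cons x es) (walk nxv msv u0 k t1) (walk nxv msv u0 k t2)
            (walk nxv msv u0 k t0))) := rfl

theorem w1_nd {β : Type} (nxv msv u0 : ℕ) (k : KW β) (op cl : List ℕ) (t1 t2 t0 : Tr) (c : Bool)
    (x i F : ℕ) (es : List ℕ) :
    walk nxv msv u0 k (Tr.nd op cl t1 t2 t0) c x i F es =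
      ifb c (k cl F es) (ifb (Nat.beq (dg nxv x) 0) (k op (F + dg msv x <<< i) (x :: es))
        (wM u0 (Nat.shiftRight (dg nxv x) 5) (Nat.land (dg nxv x) 31) (i + 8)
          (F + dg msv x <<< i) (x :: es) (walk nxv msv u0 k t1) (walk nxv msv u0 k t2)
          (walk nxv msv u0 k t0))) := by
  have e : Nat.land (Nat.shiftRight nxv (Nat.mul 8 x)) 31 = Nat.land (dg nxv x) 31 := by
    have h1 : (nxv >>> (8 * x)) &&& 31 = (dg nxv x) &&& 31 := by
      rw [show (31 : ℕ) = 2 ^ 5 - 1 by norm_num, Nat.and_two_pow_sub_one_eq_mod,
        Nat.and_two_pow_sub_one_eq_mod, dg, Nat.shiftRight_eq_div_pow]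
      omega
    exact h1
  rw [w1_nd0, e, land_shr nxv x, land_shr msv x]
  rfl

theorem w1_corA_mem {f : ℕ} : ∀ (ws rc : List ℕ) (a : ℕ) {v u w c : ℕ},
    (v, u, w, c) ∈ corA f ws rc a → u = f ∨ u ∈ ws := by
  intro ws
  induction ws with
  | nil =>
    intro rc a v u w c h
    simp [corA] at h
  | cons x rest ih =>
    intro rc a v u w c h
    rw [corA, List.mem_cons] at h
    rcases h with h | h
    · have h2 : u = hd f rest := by
        have := congrArg (fun q : ℕ × ℕ × ℕ × ℕ => q.2.1) h
        exact this
      cases rest with
      | nil => left; exact h2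
      | cons y r =>
        right
        have : u = y := h2
        rw [this]
        simp
    · rcases ih _ _ h with h3 | h3
      · left; exact h3
      · right; exact List.mem_cons_of_mem _ h3

theorem w1_lt (h : Good M s lab) {v u w c : ℕ} (hc : Cor s.fs v u w c) : u < s.n := by
  rw [Cor, allC, List.mem_flatMap] at hc
  obtain ⟨F, hF, hc⟩ := hc
  apply h.sp.lt F hF
  have h3 := (h.sp.wf F hF).three
  rcases w1_corA_mem _ _ _ hc with h1 | h1
  · rw [h1]
    cases hw : F.ws with
    | nil => rw [hw] at h3; simp at h3
    | cons y r => exact List.mem_cons_self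
  · exact h1

theorem w1_end {v : ℕ} {ms : List ℕ} {tb ty E : ℕ} (hty : ty.testBit tb = true)
    {l : List ℕ} (hl : l.any (entOK ms E tb) = true) {F : ℕ} {es : List ℕ} (hlen : es.length = E)
    (h1 : 1 ≤ E) (h6 : E ≤ 6) (hlt : ∀ x ∈ es, x < s.n) (hF : F < 2 ^ (8 * E))
    (hFd : ∀ t < 6, dg F t = if t < E then dg s.ms (16 * v + es.reverse.getD t 0) else 0)
    (hms : ∀ t < E, (ms.getD t 0).testBit (M.cl (lab v) (lab (es.reverse.getD t 0))) = true) :
    ChainOK M lab s v ty l F es := by
  refine ⟨by omega, by omega, hlt, ?_, ?_, ?_⟩
  · exact lt_of_lt_of_le hF (Nat.pow_le_pow_right (by norm_num) (by omega))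
  · intro t ht
    rw [hFd t ht, hlen]
  · rw [List.any_eq_true] at hl
    obtain ⟨e, he, hok⟩ := hl
    rw [entOK, Bool.and_eq_true, List.all_eq_true] at hok
    obtain ⟨hb, hall⟩ := hok
    refine ⟨e, he, ?_, ?_⟩
    · intro h0
      have : (ty &&& e).testBit tb = true := by
        rw [Nat.testBit_and, hty, hb]
        rfl
      have h2 : ty &&& e = 0 := h0
      rw [h2] at this
      simp at this
    · intro t ht
      have h2 := hall t (List.mem_range.2 ht)
      constructor
      · intro ht'
        rw [hlen] at ht'
        rw [if_pos ht'] at h2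
        have h3 : (dg (e >>> 9) t ||| ms.getD t 0) = dg (e >>> 9) t := by
          simpa using h2
        rw [← h3, Nat.testBit_or, hms t ht', Bool.or_true]
      · intro ht'
        rw [hlen] at ht'
        rw [if_neg (by omega)] at h2
        simpa using h2

theorem w1_dg_add_byte {F d b : ℕ} (hF : F < 2 ^ (8 * d)) (hb : b < 256) :
    F + b <<< (8 * d) < 2 ^ (8 * (d + 1)) := by
  have : b <<< (8 * d) = b * 2 ^ (8 * d) := Nat.shiftLeft_eq _ _
  rw [this]
  have h2 : 2 ^ (8 * (d + 1)) = 256 * 2 ^ (8 * d) := by
    rw [show 8 * (d + 1) = 8 + 8 * d by ring, pow_add]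
    norm_num
  rw [h2]
  nlinarith

theorem w1_dg_zero {F d j : ℕ} (hF : F < 2 ^ (8 * d)) (hj : d ≤ j) : dg F j = 0 := by
  rw [dg]
  have : F / 2 ^ (8 * j) = 0 := by
    apply Nat.div_eq_of_lt
    exact lt_of_lt_of_le hF (Nat.pow_le_pow_right (by norm_num) (by omega))
  rw [this]

theorem w1_getD_snoc (l : List ℕ) (x t : ℕ) :
    (l ++ [x]).getD t 0 = if t < l.length then l.getD t 0 else if t = l.length then x else 0 := by
  rw [List.getD_eq_getElem?_getD, List.getElem?_append]
  split_ifs with h1 h2
  · rw [List.getD_eq_getElem?_getD]
  · subst h2; simp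
  · have : t - l.length ≠ 0 := by omega
    rw [List.getElem?_eq_none (by simp; omega)]
    rfl

theorem w1_beq_true {a b : ℕ} (h : a = b) : Nat.beq a b = true := by
  subst h; exact Nat.beq_refl _

theorem w1_beq_false {a b : ℕ} (h : a ≠ b) : Nat.beq a b = false := by
  cases hb : Nat.beq a b with
  | false => rfl
  | true => exact absurd (Nat.eq_of_beq_eq_true hb) h

theorem walk_spec (h : Good M s lab) {v : ℕ} (hv : v < s.n) {nxv msv cnt : ℕ}
    (hnx : ∀ x < 16, dg nxv x = dg s.nx (16 * v + x))
    (hms : ∀ x < 16, dg msv x = dg s.ms (16 * v + x)) (hcnt : cnt = dg s.cnt v)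
    {u0 : ℕ} (hu0 : u0 < 16) (hne : dg s.nx (16 * v + u0) ≠ 0) :
    ∃ l F es, ChainOK M lab s v (tyOf tyTt v cnt) l F es ∧
      ∀ {β : Type} (k : KW β), walk nxv msv (u0 + 1) k (triet v) false u0 0 0 [] = k l F es := by
  subst hcnt
  obtain ⟨k, U, C, hR⟩ := h.ring hv
  have hin : InD s.fs v u0 := by
    by_contra hcon
    exact hne (h.sp.nx0 v u0 hu0 hcon)
  obtain ⟨w0, c0, hcor0⟩ := hin
  have hu0n : u0 < s.n := w1_lt h hcor0
  obtain ⟨i0, hU0, -, -⟩ := h.cor_ring hR hcor0
  obtain ⟨q, -, r, -, tb, -, hq1, hq2, hcov, hty⟩ := h.ty_bit hv hR i0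
  have hk3 := hR.k3
  have hk6 := hR.k6
  have hn16 := h.sp.n16
  set ms := q.2.rotate r with hmsd
  set ty := tyOf tyTt v (dg s.cnt v) with htyd
  -- the main induction
  have main : ∀ (cs : List ℕ) (d : ℕ) (t : Tr) (x F : ℕ) (es : List ℕ), d + cs.length = k →
      (∀ j < cs.length, cs.getD j 0 = C (i0 + ((d + j : ℕ) : ℤ))) → covB ms tb cs d t = true →
      x < s.n → lab x = U (i0 + (d : ℤ)) → es.length = d →
      (∀ t < d, lab (es.reverse.getD t 0) = U (i0 + (t : ℤ))) → (∀ y ∈ es, y < s.n) →
      F < 2 ^ (8 * d) →
      (∀ t < 6, dg F t = if t < d then dg s.ms (16 * v + es.reverse.getD t 0) else 0) →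
      ∀ closed : Bool, (closed = true ↔ cs = []) →
      ∃ l F' es', ChainOK M lab s v ty l F' es' ∧
        ∀ {β : Type} (k' : KW β), walk nxv msv (u0 + 1) k' t closed x (8 * d) F es = k' l F' es' := by
    intro cs
    induction cs with
    | nil =>
      intro d t x F es hd _ hcv hx hlx hes hesU heslt hF hFd closed hcl
      have hcl' : closed = true := hcl.2 rfl
      subst hcl'
      simp only [List.length_nil, add_zero] at hd
      cases t with
      | nil => simp [covB] at hcv
      | nd op cl t1 t2 t0 =>
        rw [covB] at hcv
        refine ⟨cl, F, es, w1_end hty hcv hes (by omega) (by omega) heslt hF hFd ?_, ?_⟩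
        · intro t ht
          rw [hesU t ht]
          exact hq2 t (by omega)
        · intro β k'
          rw [w1_nd]
    | cons c cs ih =>
      intro d t x F es hd hcs hcv hx hlx hes hesU heslt hF hFd closed hcl
      have hcl' : closed = false := by
        cases hb : closed with
        | false => rfl
        | true => exact absurd (hcl.1 hb) (by simp)
      subst hcl'
      rw [List.length_cons] at hd
      cases t with
      | nil => simp [covB] at hcv
      | nd op cl t1 t2 t0 =>
        rw [covB, Bool.and_eq_true] at hcv
        obtain ⟨hop, hcv⟩ := hcv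
        have hx16 : x < 16 := by omega
        have hb := dg_lt msv x
        have hF' : F + dg msv x <<< (8 * d) < 2 ^ (8 * (d + 1)) := w1_dg_add_byte hF hb
        have hdg0 : dg F d = 0 := w1_dg_zero hF le_rfl
        have hFd' : ∀ t < 6, dg (F + dg msv x <<< (8 * d)) t =
            if t < d + 1 then dg s.ms (16 * v + (x :: es).reverse.getD t 0) else 0 := by
          intro t ht
          rw [dg_add (by rw [hdg0]; omega), hdg0, zero_add, List.reverse_cons, w1_getD_snoc,
            List.length_reverse, hes]
          by_cases h1 : t = d
          · subst h1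
            rw [if_pos rfl, if_pos (by omega), if_neg (by omega), if_pos rfl, hms x hx16]
          · rw [if_neg h1, hFd t ht]
            by_cases h2 : t < d
            · rw [if_pos h2, if_pos (by omega), if_pos h2]
            · rw [if_neg h2, if_neg (by omega)]
        have hesU' : ∀ t < d + 1, lab ((x :: es).reverse.getD t 0) = U (i0 + (t : ℤ)) := by
          intro t ht
          rw [List.reverse_cons, w1_getD_snoc, List.length_reverse, hes]
          by_cases h1 : t = d
          · subst h1
            rw [if_neg (by omega), if_pos rfl, hlx]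
          · rw [if_pos (by omega)]
            exact hesU t (by omega)
        have heslt' : ∀ y ∈ x :: es, y < s.n := by
          intro y hy
          rcases List.mem_cons.1 hy with h1 | h1
          · rw [h1]; exact hx
          · exact heslt y h1
        have hlen' : (x :: es).length = d + 1 := by rw [List.length_cons, hes]
        by_cases hz : dg nxv x = 0
        · refine ⟨op, F + dg msv x <<< (8 * d), x :: es,
            w1_end hty hop hlen' (by omega) (by omega) heslt' hF' hFd' ?_, ?_⟩
          · intro t ht
            rw [hesU' t ht]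
            exact hq2 t (by omega)
          · intro β k'
            rw [w1_nd, ifb_false, w1_beq_true hz]
        · have hin : InD s.fs v x := by
            by_contra hcon
            apply hz
            rw [hnx x hx16]
            exact h.sp.nx0 v x hx16 hcon
          have hpl : PlI s lab v U (i0 + (d : ℤ)) := (h.pl_iff hR hx hlx).2 hin
          obtain ⟨u, w, hun, hwn, hcor, hlu, hlw⟩ := h.pl_cor hR hpl
          have hux : u = x := h.inj u hun x hx (by rw [hlu, hlx])
          subst hux
          have hdig : dg nxv u = w + 1 + 32 * C (i0 + (d : ℤ)) := by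
            rw [hnx u hx16]
            exact h.sp.nx1 v u w _ hcor
          have hC2 := hR.code_le (i0 + (d : ℤ))
          have hcC : c = C (i0 + (d : ℤ)) := by
            have := hcs 0 (by simp)
            simpa using this
          rw [← hcC] at hdig hC2
          have e1 : Nat.shiftRight (dg nxv u) 5 = c := by
            have : (dg nxv u) >>> 5 = c := by
              rw [Nat.shiftRight_eq_div_pow, hdig]
              omega
            exact this
          have e2 : Nat.land (dg nxv u) 31 = w + 1 := by
            have : (dg nxv u) &&& 31 = w + 1 := by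
              rw [show (31 : ℕ) = 2 ^ 5 - 1 by norm_num, Nat.and_two_pow_sub_one_eq_mod, hdig]
              omega
            exact this
          have hlw' : lab w = U (i0 + ((d + 1 : ℕ) : ℤ)) := by
            rw [hlw]
            congr 1
            push_cast
            ring
          have hclosed : (Nat.beq (w + 1) (u0 + 1) = true ↔ cs = []) := by
            constructor
            · intro hb'
              have hw0 : w = u0 := by
                have := Nat.eq_of_beq_eq_true hb'
                omega
              have h1 : U (i0 + ((d + 1 : ℕ) : ℤ)) = U i0 := by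
                rw [← hlw', hw0, hU0]
              have h2 := hR.inj _ _ h1
              have h3 : (k : ℤ) ∣ ((d + 1 : ℕ) : ℤ) := by
                have : i0 - (i0 + ((d + 1 : ℕ) : ℤ)) = -((d + 1 : ℕ) : ℤ) := by ring
                rw [this, dvd_neg] at h2
                exact h2
              have h4 : k ∣ d + 1 := by exact_mod_cast h3
              have h5 := Nat.le_of_dvd (by omega) h4
              have : cs.length = 0 := by omega
              exact List.length_eq_zero_iff.1 this
            · intro hnil
              rw [hnil] at hd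
              simp only [List.length_nil] at hd
              have h1 : lab w = lab u0 := by
                rw [hlw', hU0]
                have : d + 1 = k := by omega
                rw [this, hR.perU]
              have h2 : w = u0 := h.inj w hwn u0 hu0n h1
              rw [h2]
              exact Nat.beq_refl _
          obtain ⟨l, F'', es'', hok, hk'⟩ := ih (d + 1) (if c = 1 then t1 else if c = 2 then t2 else t0)
            w (F + dg msv u <<< (8 * d)) (u :: es) (by omega) (by
              intro j hj
              have := hcs (j + 1) (by rw [List.length_cons]; omega)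
              rw [List.getD_cons_succ] at this
              rw [this]
              congr 2
              push_cast
              ring) hcv hwn hlw' hlen' hesU' heslt' hF' hFd' (Nat.beq (w + 1) (u0 + 1)) hclosed
          refine ⟨l, F'', es'', hok, ?_⟩
          intro β k'
          rw [w1_nd, ifb_false, w1_beq_false hz, ifb_false, e1, e2, ← hk' k']
          have hw1 : Nat.sub (w + 1) 1 = w := rfl
          have h8 : 8 * d + 8 = 8 * (d + 1) := by ring
          rw [wM, hw1, h8]
          by_cases hc1 : c = 1
          · subst hc1
            rfl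
          · by_cases hc2 : c = 2
            · subst hc2
              rfl
            · have hc0 : c = 0 := by omega
              subst hc0
              rfl
  obtain ⟨l, F, es, hok, hk⟩ := main (q.1.rotate r) 0 (triet v) u0 0 [] (by
      rw [hq1]; simp) (by
      intro j hj
      rw [hq1] at hj ⊢
      rw [List.length_map, List.length_range] at hj
      rw [List.getD_eq_getElem _ _ (by simpa using hj)]
      simp) hcov hu0n (by rw [hU0]; simp) rfl (by intro t ht; omega) (by simp) (by norm_num)
      (by intro t _; simp [dg]) false (by
        constructor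
        · intro hf; simp at hf
        · intro hnil
          exfalso
          have := congrArg List.length hq1
          rw [hnil] at this
          simp at this
          omega)
  exact ⟨l, F, es, hok, fun k' => by simpa using hk k'⟩

end Chk
end Pool.Agent.Lib.MP_ba95e8_co
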